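import Pool.Agent.H33.BO.Defs2
import Pool.Agent.H31.BE.OEDef

/-! # BO.AmpA : the Bernoulli shift over a product

PROOF. `JJ (x, z) h := EE (x h, z h)`, inverse `y ↦ (fun h => (EE.symm (y h)).1, fun h => (EE.symm (y h)).2)`. Measure preserving: by `bern_unique` it is enough to compute `((bern G μ).prod (bern G ζ)) {p | ∀ i ∈ s, EE (p.1 i, p.2 i) ∈ t i} = ∏ i ∈ s, (cod μ ζ) (t i)`. The map of `(bern G μ).prod (bern G ζ)` under `(x, z) ↦ fun h => (x h, z h)` is `infinitePi (fun _ => μ.prod ζ)`: check on rectangles `∏ (A_i × B_i)` (`Measure.prod_prod`, `bern_pi`; these rectangles form a pi system that generates: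
`Measure.eq_infinitePi` asks for all measurable `t i ⊆ ℝ × ℝ`: for a finite set `s` of coordinates both sides are finite product measures on `s → ℝ × ℝ`; e.g. `measurePreserving_arrowProdEquivProdArrow`-type statements for `Measure.pi`, or use `Measure.pi_eq` for products of `μ.prod ζ` with the generating system of rectangles, or prove it for one coordinate at a time by induction on `s` with `Measure.prod_apply` and Fubini).
`JJ_smul`: by definition of the action. -/

set_option autoImplicit false

open MeasureTheory H31.BE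

namespace H33.BO

variable {G : Type} [Group G] [Countable G]

/-- coordinatewise coding -/
noncomputable def JJ (G : Type) : Bsh G × Bsh G → Bsh G := fun p => fun h => EE (p.1 h, p.2 h)

/-- coordinatewise decoding -/
noncomputable def JI (G : Type) : Bsh G → Bsh G × Bsh G :=
  fun y => (fun h => (EE.symm (y h)).1, fun h => (EE.symm (y h)).2)

theorem JI_JJ (p : Bsh G × Bsh G) : JI G (JJ G p) = p := by
  apply Prod.ext
  · funext h
    show (EE.symm (EE (p.1 h, p.2 h))).1 = p.1 h
    rw [MeasurableEquiv.symm_apply_apply]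
  · funext h
    show (EE.symm (EE (p.1 h, p.2 h))).2 = p.2 h
    rw [MeasurableEquiv.symm_apply_apply]

theorem JJ_JI (y : Bsh G) : JJ G (JI G y) = y := by
  funext h
  show EE ((EE.symm (y h)).1, (EE.symm (y h)).2) = y h
  rw [Prod.mk.eta, MeasurableEquiv.apply_symm_apply]

theorem JJ_smul (a : G) (x z : Bsh G) : JJ G (a • x, a • z) = a • JJ G (x, z) := by
  rfl

private theorem AmpA_meas_JJ : Measurable (JJ G) := by
  classical
  apply measurable_pi_iff.2
  intro h
  exact EE.measurable.comp
    (((measurable_eval h).comp measurable_fst).prodMk ((measurable_eval h).comp measurable_snd))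

private theorem AmpA_meas_JI : Measurable (JI G) := by
  classical
  apply Measurable.prodMk
  · apply measurable_pi_iff.2
    intro h
    exact measurable_fst.comp (EE.symm.measurable.comp (measurable_eval h))
  · apply measurable_pi_iff.2
    intro h
    exact measurable_snd.comp (EE.symm.measurable.comp (measurable_eval h))

private theorem AmpA_rect (μ ζ : Measure ℝ) [IsProbabilityMeasure μ] [IsProbabilityMeasure ζ]
    (s : Finset G) (T : G → Set (ℝ × ℝ)) (hT : ∀ i, MeasurableSet (T i)) :
    ((bern G μ).prod (bern G ζ)) {p : Bsh G × Bsh G | ∀ i ∈ s, (p.1 i, p.2 i) ∈ T i} =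
      ∏ i ∈ s, (μ.prod ζ) (T i) := by
  have hr : Measurable (fun y : G → ℝ => s.restrict y) := Finset.measurable_restrict s
  have h1 : MeasurePreserving (fun y : G → ℝ => s.restrict y) (Measure.infinitePi fun _ : G => μ)
      (Measure.pi fun _ : s => μ) := ⟨hr, Measure.infinitePi_map_restrict _⟩
  have h2 : MeasurePreserving (fun y : G → ℝ => s.restrict y) (Measure.infinitePi fun _ : G => ζ)
      (Measure.pi fun _ : s => ζ) := ⟨hr, Measure.infinitePi_map_restrict _⟩
  have h3 := h1.prod h2
  have h4 := measurePreserving_arrowProdEquivProdArrow ℝ ℝ s (fun _ => μ) (fun _ => ζ)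
  have hbox : MeasurableSet (Set.pi Set.univ fun i : s => T i) :=
    MeasurableSet.univ_pi (fun i => hT i)
  have h5 : (Measure.pi fun _ : s => μ.prod ζ) (Set.pi Set.univ fun i : s => T i) =
      ∏ i ∈ s, (μ.prod ζ) (T i) := by
    rw [Measure.pi_pi, Finset.univ_eq_attach, Finset.prod_attach s (fun i => (μ.prod ζ) (T i))]
  rw [← h5]
  have h6 := h4.symm.measure_preimage hbox.nullMeasurableSet
  rw [← h6]
  have hbox2 : MeasurableSet ((MeasurableEquiv.arrowProdEquivProdArrow ℝ ℝ s).symm ⁻¹'
      (Set.pi Set.univ fun i : s => T i)) :=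
    (MeasurableEquiv.arrowProdEquivProdArrow ℝ ℝ s).symm.measurable hbox
  have h7 := h3.measure_preimage hbox2.nullMeasurableSet
  rw [← h7]
  show ((Measure.infinitePi fun _ : G => μ).prod (Measure.infinitePi fun _ : G => ζ)) _ = _
  apply congrArg
  ext p
  constructor
  · intro hp i _
    exact hp i.1 i.2
  · intro hp i hi
    exact hp ⟨i, hi⟩ (Set.mem_univ _)

theorem JJ_mp (μ ζ : Measure ℝ) [IsProbabilityMeasure μ] [IsProbabilityMeasure ζ] :
    MeasurePreserving (JJ G) ((bern G μ).prod (bern G ζ)) (bern G (cod μ ζ)) := by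
  classical
  refine ⟨AmpA_meas_JJ, ?_⟩
  apply bern_unique
  intro s t ht
  rw [Measure.map_apply AmpA_meas_JJ (measurableSet_rect s t (fun i _ => ht i))]
  have h := AmpA_rect μ ζ s (fun i => EE ⁻¹' (t i)) (fun i => EE.measurable (ht i))
  have h2 : ∀ i ∈ s, cod μ ζ (t i) = (μ.prod ζ) (EE ⁻¹' (t i)) := by
    intro i _
    rw [cod, Measure.map_apply EE.measurable (ht i)]
  rw [Finset.prod_congr rfl h2, ← h]
  rfl

theorem JI_mp (μ ζ : Measure ℝ) [IsProbabilityMeasure μ] [IsProbabilityMeasure ζ] :
    MeasurePreserving (JI G) (bern G (cod μ ζ)) ((bern G μ).prod (bern G ζ)) := by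
  refine ⟨AmpA_meas_JI, ?_⟩
  rw [← (JJ_mp (G := G) μ ζ).map_eq, Measure.map_map AmpA_meas_JI AmpA_meas_JJ]
  have : (JI G ∘ JJ G) = id := by
    funext p
    exact JI_JJ p
  rw [this, Measure.map_id]

end H33.BO
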