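import Pool.Agent.H33.BO.Defs2
import Pool.Agent.H31.BE.OEDef

/-! # BO.AmpB : the cocycle of a bounded orbit equivalence as a family of permutations

PROOF. For `a : G` let `F a` be the finite set of `bT`. Choose an enumeration of `F a` and let `κ a x` be the first `f ∈ F a` with `T (a • x) = f • T x`, and `1` if there is none: measurable (the sets `{x | T (a • x) = f • T x}` are measurable: equality of measurable maps into the standard Borel space `Bsh G` (`G` countable), `measurableSet_eq_fun` or coordinatewise). Let `X0` be the set of the `x` such that for all `a b : G`: `T (a • b • x) = κ a (b • x) • T (b • x)`,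
`S (T (a • x)) = a • x`, `T (S (a • T x)) = a • T x`, there is `f` with `S (a • T x) = f • S (T x)`, `a • x ≠ x` and `a • T x ≠ T x` for `a ≠ 1`: a conull set (`inv_bern`, `h.mT`, `h.mS`, countability; `free_bern`). For `x ∈ X0` the map `a ↦ κ a x` is injective: `κ a x = κ b x` gives `T (a • x) = T (b • x)`, apply `S`: `a • x = b • x`, so `a = b`. Surjective: for `f ∈ G`: `S (f • T x) = a • S (T x) = a • x`
for some `a`, so `f • T x = T (S (f • T x)) = T (a • x) = κ a x • T x`, so `f = κ a x` (freeness at `T x`). So `π x := ` the permutation `a ↦ κ a x` for `x ∈ X0`, the identity otherwise. Cocycle identity: `π x (b * a)`: `T (b • a • x) = κ b (a • x) • κ a x • T x`, freeness. -/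

set_option autoImplicit false

open MeasureTheory H31.BE

namespace H33.BO

private theorem AmpB_free {G : Type} [Group G] {z : Bsh G} (hz : ∀ g : G, g ≠ 1 → g • z ≠ z) {f f' : G}
    (h : f • z = f' • z) : f = f' := by
  by_contra hne
  refine hz (f'⁻¹ * f) ?_ ?_
  · intro h1
    exact hne (inv_mul_eq_one.1 h1).symm
  · rw [mul_smul, h, inv_smul_smul]

private theorem AmpB_meas_smul {G : Type} [Group G] (g : G) :
    Measurable (fun y : Bsh G => g • y) :=
  measurable_pi_iff.2 (fun h => measurable_pi_apply (X := fun _ : G => ℝ) (g⁻¹ * h))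

private theorem AmpB_eq_set {G Y : Type} [Countable G] [MeasurableSpace Y]
    {F H : Y → Bsh G} (hF : Measurable F) (hH : Measurable H) :
    MeasurableSet {y | F y = H y} := by
  have h1 : {y | F y = H y} = ⋂ g : G, {y | F y g = H y g} := by
    ext y
    simp only [Set.mem_ofPred_eq, Set.mem_iInter]
    exact ⟨fun h g => by rw [h], fun h => funext h⟩
  rw [h1]
  refine MeasurableSet.iInter fun g => ?_
  have e : Measurable (fun y : Bsh G => y g) := measurable_pi_apply (X := fun _ : G => ℝ) g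
  exact measurableSet_eq_fun (e.comp hF) (e.comp hH)

/-- the good points -/
private structure AmpB_Good {G : Type} [Group G] (T S : Bsh G → Bsh G) (x : Bsh G) : Prop where
  e1 : ∀ a : G, ∃ f : G, T (a • x) = f • T x
  e2 : ∀ a : G, S (T (a • x)) = a • x
  e3 : ∀ f : G, ∃ a : G, S (f • T x) = a • S (T x)
  e4 : ∀ f : G, T (S (f • T x)) = f • T x
  e5 : ∀ a : G, a ≠ 1 → a • x ≠ x
  e6 : ∀ a : G, a ≠ 1 → a • T x ≠ T x

open Classical in
private noncomputable def AmpB_pi {G : Type} [Group G] (T S : Bsh G → Bsh G) (X : Set (Bsh G))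
    (hX : ∀ x ∈ X, AmpB_Good T S x) (x : Bsh G) : Equiv.Perm G :=
  if hx : x ∈ X then
    Equiv.ofBijective (fun a => ((hX x hx).e1 a).choose) (by
      have hg := hX x hx
      have hsp : ∀ a, T (a • x) = (hg.e1 a).choose • T x := fun a => (hg.e1 a).choose_spec
      constructor
      · intro a b hab
        have hab' : (hg.e1 a).choose = (hg.e1 b).choose := hab
        have h1 : T (a • x) = T (b • x) := by rw [hsp a, hsp b, hab']
        have h2 : a • x = b • x := by rw [← hg.e2 a, ← hg.e2 b, h1]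
        exact AmpB_free hg.e5 h2
      · intro f
        obtain ⟨a, ha⟩ := hg.e3 f
        refine ⟨a, ?_⟩
        have h0 : S (T x) = x := by
          have := hg.e2 1
          rwa [one_smul] at this
        rw [h0] at ha
        have h1 : T (a • x) = f • T x := by rw [← ha, hg.e4 f]
        have h2 : (hg.e1 a).choose • T x = f • T x := by rw [← hsp a, h1]
        exact AmpB_free hg.e6 h2)
  else Equiv.refl G

private theorem AmpB_pi_spec {G : Type} [Group G] (T S : Bsh G → Bsh G) (X : Set (Bsh G))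
    (hX : ∀ x ∈ X, AmpB_Good T S x) (x : Bsh G) (hx : x ∈ X) (a : G) :
    T (a • x) = AmpB_pi T S X hX x a • T x := by
  have h1 : AmpB_pi T S X hX x a = ((hX x hx).e1 a).choose := by
    unfold AmpB_pi
    rw [dif_pos hx]
    rfl
  rw [h1]
  exact ((hX x hx).e1 a).choose_spec

private theorem AmpB_pi_unique {G : Type} [Group G] (T S : Bsh G → Bsh G) (X : Set (Bsh G))
    (hX : ∀ x ∈ X, AmpB_Good T S x) (x : Bsh G) (hx : x ∈ X) (a b : G) :
    AmpB_pi T S X hX x a = b ↔ T (a • x) = b • T x := by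
  rw [AmpB_pi_spec T S X hX x hx a]
  constructor
  · intro h
    rw [h]
  · intro h
    exact AmpB_free (hX x hx).e6 h

theorem coc_ex {G : Type} [Group G] [DecidableEq G] [Countable G] [Infinite G] (μ ν : Measure ℝ)
    [IsProbabilityMeasure μ] [IsProbabilityMeasure ν] (hμ : Nontriv μ) (hν : Nontriv ν)
    (T S : Bsh G → Bsh G) (h : OE G μ ν T S) :
    ∃ π : Bsh G → Equiv.Perm G,
      (∀ a b : G, MeasurableSet {x | π x a = b}) ∧ (∀ a b : G, MeasurableSet {x | (π x).symm a = b}) ∧
      (∀ᵐ x ∂(bern G μ), ∀ a : G, T (a • x) = π x a • T x) ∧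
      (∀ᵐ x ∂(bern G μ), ∀ a b : G, π x (b * a) = π (a • x) b * π x a) ∧
      (∀ a : G, ∃ F : Finset G, ∀ᵐ x ∂(bern G μ), π x a ∈ F) := by
  classical
  have hTm : Measurable T := h.mT.measurable
  have pull : ∀ {p : Bsh G → Prop}, (∀ᵐ x ∂(bern G ν), p x) → ∀ᵐ y ∂(bern G μ), p (T y) :=
    fun hp => h.mT.quasiMeasurePreserving.ae hp
  have trans : ∀ {p : Bsh G → Prop}, (∀ᵐ y ∂(bern G μ), p y) →
      ∀ᵐ y ∂(bern G μ), ∀ g : G, p (g • y) :=
    fun hp => ae_all_iff.2 fun g => (inv_bern μ g).quasiMeasurePreserving.ae hp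
  have trans' : ∀ {p : Bsh G → Prop}, (∀ᵐ y ∂(bern G ν), p y) →
      ∀ᵐ y ∂(bern G ν), ∀ g : G, p (g • y) :=
    fun hp => ae_all_iff.2 fun g => (inv_bern ν g).quasiMeasurePreserving.ae hp
  have a1 : ∀ᵐ x ∂(bern G μ), ∀ a : G, ∃ f : G, T (a • x) = f • T x := by
    refine ae_all_iff.2 fun a => ?_
    obtain ⟨F, hF⟩ := h.bT a
    filter_upwards [hF] with x hx
    obtain ⟨f, _, hf⟩ := hx
    exact ⟨f, hf⟩
  have a2 : ∀ᵐ x ∂(bern G μ), ∀ a : G, S (T (a • x)) = a • x := trans h.ST
  have a3 : ∀ᵐ x ∂(bern G μ), ∀ f : G, ∃ a : G, S (f • T x) = a • S (T x) := by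
    apply pull (p := fun y => ∀ f : G, ∃ a : G, S (f • y) = a • S y)
    refine ae_all_iff.2 fun a => ?_
    obtain ⟨F, hF⟩ := h.bS a
    filter_upwards [hF] with x hx
    obtain ⟨f, _, hf⟩ := hx
    exact ⟨f, hf⟩
  have a4 : ∀ᵐ x ∂(bern G μ), ∀ f : G, T (S (f • T x)) = f • T x :=
    pull (p := fun y => ∀ f : G, T (S (f • y)) = f • y) (trans' h.TS)
  have a5 : ∀ᵐ x ∂(bern G μ), ∀ g : G, g ≠ 1 → g • x ≠ x :=
    ae_all_iff.2 fun g => by
      by_cases hg : g = 1
      · exact Filter.Eventually.of_forall fun y hne => absurd hg hne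
      · filter_upwards [free_bern μ hμ g hg] with y hy _
        exact hy
  have a6 : ∀ᵐ x ∂(bern G μ), ∀ g : G, g ≠ 1 → g • T x ≠ T x := by
    apply pull (p := fun y => ∀ g : G, g ≠ 1 → g • y ≠ y)
    exact ae_all_iff.2 fun g => by
      by_cases hg : g = 1
      · exact Filter.Eventually.of_forall fun y hne => absurd hg hne
      · filter_upwards [free_bern ν hν g hg] with y hy _
        exact hy
  have hgood : ∀ᵐ x ∂(bern G μ), AmpB_Good T S x := by
    filter_upwards [a1, a2, a3, a4, a5, a6] with x h1 h2 h3 h4 h5 h6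
    exact ⟨h1, h2, h3, h4, h5, h6⟩
  obtain ⟨N, hsub, hNm, hN0⟩ := exists_measurable_superset_of_null (ae_iff.1 hgood)
  have hX : ∀ x ∈ Nᶜ, AmpB_Good T S x := by
    intro x hx
    by_contra hcon
    exact hx (hsub hcon)
  have hXae : ∀ᵐ x ∂(bern G μ), x ∈ Nᶜ := by
    rw [ae_iff]
    simpa using hN0
  have hmeas : ∀ a b : G, MeasurableSet {x | AmpB_pi T S Nᶜ hX x a = b} := by
    intro a b
    have hset : {x | AmpB_pi T S Nᶜ hX x a = b} =
        (Nᶜ ∩ {x | T (a • x) = b • T x}) ∪ (N ∩ {_x | a = b}) := by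
      ext x
      by_cases hx : x ∈ Nᶜ
      · have hx' : x ∉ N := hx
        simp only [Set.mem_ofPred_eq, Set.mem_union, Set.mem_inter_iff, hx, true_and, hx', false_and, or_false]
        exact AmpB_pi_unique T S Nᶜ hX x hx a b
      · have hx' : x ∈ N := by
          by_contra hcon
          exact hx hcon
        have h1 : AmpB_pi T S Nᶜ hX x a = a := by
          unfold AmpB_pi
          rw [dif_neg hx]
          rfl
        simp only [Set.mem_ofPred_eq, Set.mem_union, Set.mem_inter_iff, hx, false_and, hx', true_and, false_or, h1]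
    rw [hset]
    refine (hNm.compl.inter ?_).union (hNm.inter ?_)
    · exact AmpB_eq_set (hTm.comp (AmpB_meas_smul a)) ((AmpB_meas_smul b).comp hTm)
    · by_cases hab : a = b
      · simp [hab]
      · simp [hab]
  refine ⟨AmpB_pi T S Nᶜ hX, hmeas, ?_, ?_, ?_, ?_⟩
  · intro a b
    have : {x | (AmpB_pi T S Nᶜ hX x).symm a = b} = {x | AmpB_pi T S Nᶜ hX x b = a} := by
      ext x
      simp only [Set.mem_ofPred_eq]
      rw [Equiv.symm_apply_eq]
      exact eq_comm
    rw [this]
    exact hmeas b a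
  · filter_upwards [hXae] with x hx a
    exact AmpB_pi_spec T S Nᶜ hX x hx a
  · filter_upwards [hXae, trans hXae] with x hx hx2 a b
    rw [AmpB_pi_unique T S Nᶜ hX x hx]
    rw [mul_smul, AmpB_pi_spec T S Nᶜ hX (a • x) (hx2 a) b, AmpB_pi_spec T S Nᶜ hX x hx a, mul_smul]
  · intro a
    obtain ⟨F, hF⟩ := h.bT a
    refine ⟨F, ?_⟩
    filter_upwards [hXae, hF] with x hx hx2
    obtain ⟨f, hf, he⟩ := hx2
    rw [(AmpB_pi_unique T S Nᶜ hX x hx a f).2 he]
    exact hf

end H33.BO
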