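import Pool.Agent.H33.BO.AmpA
import Pool.Agent.H33.BO.AmpB

/-! # BO.AmpC : transport of independent labels along a bounded orbit equivalence

PROOF. `π` from `coc_ex` for `(T, S)`, `π'` from `coc_ex` for `(S, T)` (the inverse orbit equivalence). On `Bsh G × Bsh G`: `T1 (x, z) := (T x, fun g => z (((π x).symm g⁻¹)⁻¹))`, i.e. the coordinate `(π x a)⁻¹` of the new labels is the coordinate `a⁻¹` of `z`. For fixed `x` the map of the labels is a permutation of the coordinates, it preserves `bern G ζ` (`bern_unique` with `bern_pi`, as in `inv_bern`), and it is jointly measurable (for a coordinate `g`: `z (((π x).symm g⁻¹)⁻¹)` is the function `z b⁻¹`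
on the measurable set `{(π x).symm g⁻¹ = b}`; countable union). `MeasurePreserving.skew_product`. Equivariance: for almost every `(x, z)` and every `a`: `T1 (a • x, a • z) = π x a • T1 (x, z)`: first coordinate by `coc_ex`; second: the value of the left side at `(π (a • x) b)⁻¹` is `(a • z) b⁻¹ = z (a⁻¹ b⁻¹) = z ((b a)⁻¹)`; of the right side at `(π (a • x) b)⁻¹`: the value of the new labels of `(x, z)` at
`(π x a)⁻¹ (π (a • x) b)⁻¹ = (π (a • x) b * π x a)⁻¹ = (π x (b a))⁻¹`, which is `z ((b a)⁻¹)`. `S1` in the same way from `π'`. `S1 (T1 (x, z)) = (x, z)` for almost every `(x, z)`: `S (T x) = x`; the coordinate `(π' (T x) b)⁻¹` of the result is the coordinate `b⁻¹` of the new labels, with `b = π x a` it is `z a⁻¹`; and `π' (T x) (π x a) = a`: `S (π x a • T x) = π' (T x) (π x a) • S (T x)` and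
`S (π x a • T x) = S (T (a • x)) = a • x`, `S (T x) = x`, freeness at `x` (`free_bern`). Conjugate `T1`, `S1` with `JJ`, `JI`: `T' := JJ ∘ T1 ∘ JI`, `S' := JJ ∘ S1 ∘ JI` (`JJ_mp`, `JI_mp`, `JJ_smul`; `JI (a • y) = (a • (JI y).1, a • (JI y).2)`). The finite sets: `coc_ex`, last part. -/

set_option autoImplicit false

open MeasureTheory H31.BE

namespace H33.BO

private noncomputable def AmpC_rl {G : Type} [Group G] (σ : Equiv.Perm G) (z : Bsh G) : Bsh G :=
  fun g => z ((σ.symm g⁻¹)⁻¹)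

private theorem AmpC_rl_apply {G : Type} [Group G] (σ : Equiv.Perm G) (z : Bsh G) (b : G) :
    AmpC_rl σ z (σ b)⁻¹ = z b⁻¹ := by
  simp [AmpC_rl]

private def AmpC_pm {G : Type} (e : Equiv.Perm G) (y : Bsh G) : Bsh G := fun g => y (e g)

private theorem AmpC_perm {G : Type} [Group G] [DecidableEq G] (ζ : Measure ℝ) [IsProbabilityMeasure ζ]
    (e : Equiv.Perm G) :
    Measure.map (AmpC_pm e) (bern G ζ) = bern G ζ := by
  have hm : Measurable (AmpC_pm e) :=
    measurable_pi_iff.2 (fun h => measurable_eval (e h))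
  apply bern_unique
  intro s t ht
  rw [Measure.map_apply hm (measurableSet_rect s t (fun i _ => ht i))]
  have hset : AmpC_pm e ⁻¹' {y : Bsh G | ∀ i ∈ s, y i ∈ t i} =
      {y : Bsh G | ∀ i ∈ s.image e, y i ∈ t (e.symm i)} := by
    ext y
    simp only [Set.mem_preimage, Set.mem_setOf_eq, Finset.mem_image,
      forall_exists_index, and_imp, forall_apply_eq_imp_iff₂, Equiv.symm_apply_apply, AmpC_pm]
  rw [hset, bern_pi ζ (s.image e) (fun k => t (e.symm k)) (fun i _ => ht _),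
    Finset.prod_image (by intro a _ b _ hab; exact e.injective hab)]
  simp

private theorem AmpC_rl_map {G : Type} [Group G] [DecidableEq G] (ζ : Measure ℝ) [IsProbabilityMeasure ζ]
    (σ : Equiv.Perm G) : Measure.map (AmpC_rl σ) (bern G ζ) = bern G ζ :=
  AmpC_perm ζ (((Equiv.inv G).trans σ.symm).trans (Equiv.inv G))

private theorem AmpC_meas {G : Type} [Group G] [DecidableEq G] [Countable G] (π : Bsh G → Equiv.Perm G)
    (hm : ∀ a b : G, MeasurableSet {x | (π x).symm a = b}) :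
    Measurable (Function.uncurry (fun (x z : Bsh G) => AmpC_rl (π x) z)) := by
  refine measurable_pi_iff.2 (fun g => ?_)
  intro A hA
  have : (fun p : Bsh G × Bsh G => Function.uncurry (fun (x z : Bsh G) => AmpC_rl (π x) z) p g) ⁻¹' A =
      ⋃ b : G, (({x | (π x).symm g⁻¹ = b} : Set (Bsh G)) ×ˢ ((fun y : Bsh G => y b⁻¹) ⁻¹' A)) := by
    ext p
    simp only [Set.mem_preimage, Set.mem_iUnion, Set.mem_prod, Set.mem_setOf_eq, Function.uncurry, AmpC_rl]
    constructor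
    · intro h
      exact ⟨_, rfl, h⟩
    · rintro ⟨b, hb, h⟩
      rw [hb]
      exact h
  rw [this]
  exact MeasurableSet.iUnion fun b => (hm g⁻¹ b).prod (measurable_eval b⁻¹ hA)

private theorem AmpC_JI_smul {G : Type} [Group G] [Countable G] (a : G) (y : Bsh G) :
    JI G (a • y) = (a • (JI G y).1, a • (JI G y).2) := by
  have h : a • y = JJ G (a • (JI G y).1, a • (JI G y).2) := by
    rw [JJ_smul, Prod.mk.eta, JJ_JI]
  rw [h, JI_JJ]

private theorem AmpC_half {G : Type} [Group G] [DecidableEq G] [Countable G] (μ ν ζ : Measure ℝ)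
    [IsProbabilityMeasure μ] [IsProbabilityMeasure ν] [IsProbabilityMeasure ζ]
    (T : Bsh G → Bsh G) (hT : MeasurePreserving T (bern G μ) (bern G ν)) (π : Bsh G → Equiv.Perm G)
    (h1 : ∀ a b : G, MeasurableSet {x | (π x).symm a = b})
    (h2 : ∀ᵐ x ∂(bern G μ), ∀ a : G, T (a • x) = π x a • T x)
    (h3 : ∀ᵐ x ∂(bern G μ), ∀ a b : G, π x (b * a) = π (a • x) b * π x a)
    (h4 : ∀ a : G, ∃ F : Finset G, ∀ᵐ x ∂(bern G μ), π x a ∈ F) :
    MeasurePreserving (fun y => JJ G (T (JI G y).1, AmpC_rl (π (JI G y).1) (JI G y).2))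
      (bern G (cod μ ζ)) (bern G (cod ν ζ)) ∧
    ∀ g : G, ∃ F : Finset G, ∀ᵐ y ∂(bern G (cod μ ζ)), ∃ f ∈ F,
      JJ G (T (JI G (g • y)).1, AmpC_rl (π (JI G (g • y)).1) (JI G (g • y)).2) =
        f • JJ G (T (JI G y).1, AmpC_rl (π (JI G y).1) (JI G y).2) := by
  constructor
  · have hs := MeasurePreserving.skew_product (μc := bern G ζ) (μd := bern G ζ) hT (AmpC_meas π h1)
      (Filter.Eventually.of_forall fun x => AmpC_rl_map ζ (π x))
    exact ((JJ_mp ν ζ).comp hs).comp (JI_mp μ ζ)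
  · intro g
    obtain ⟨F, hF⟩ := h4 g
    refine ⟨F, ?_⟩
    have hq : Measure.QuasiMeasurePreserving (fun y : Bsh G => (JI G y).1) (bern G (cod μ ζ)) (bern G μ) :=
      Measure.quasiMeasurePreserving_fst.comp (JI_mp μ ζ).quasiMeasurePreserving
    filter_upwards [hq.ae h2, hq.ae h3, hq.ae hF] with y e2 e3 e4
    refine ⟨π (JI G y).1 g, e4, ?_⟩
    rw [← JJ_smul, AmpC_JI_smul]
    congr 1
    refine Prod.ext (e2 g) ?_
    funext k
    obtain ⟨c, hc⟩ : ∃ c : G, k = (π (g • (JI G y).1) c)⁻¹ :=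
      ⟨(π (g • (JI G y).1)).symm k⁻¹, by simp⟩
    show AmpC_rl (π (g • (JI G y).1)) (g • (JI G y).2) k =
      (π (JI G y).1 g • AmpC_rl (π (JI G y).1) (JI G y).2) k
    rw [hc, AmpC_rl_apply, Bsh.smul_apply, Bsh.smul_apply, ← mul_inv_rev, ← mul_inv_rev, ← e3 g c,
      AmpC_rl_apply]

private theorem AmpC_inv {G : Type} [Group G] [DecidableEq G] [Countable G] [Infinite G] (μ ν ζ : Measure ℝ)
    [IsProbabilityMeasure μ] [IsProbabilityMeasure ν] [IsProbabilityMeasure ζ] (hμ : Nontriv μ)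
    (T S : Bsh G → Bsh G) (hT : MeasurePreserving T (bern G μ) (bern G ν))
    (hST : ∀ᵐ x ∂(bern G μ), S (T x) = x)
    (π π' : Bsh G → Equiv.Perm G)
    (h2 : ∀ᵐ x ∂(bern G μ), ∀ a : G, T (a • x) = π x a • T x)
    (h2' : ∀ᵐ x ∂(bern G ν), ∀ a : G, S (a • x) = π' x a • S x) :
    ∀ᵐ y ∂(bern G (cod μ ζ)),
      JJ G (S (JI G (JJ G (T (JI G y).1, AmpC_rl (π (JI G y).1) (JI G y).2))).1,
        AmpC_rl (π' (JI G (JJ G (T (JI G y).1, AmpC_rl (π (JI G y).1) (JI G y).2))).1)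
          (JI G (JJ G (T (JI G y).1, AmpC_rl (π (JI G y).1) (JI G y).2))).2) = y := by
  have hq : Measure.QuasiMeasurePreserving (fun y : Bsh G => (JI G y).1) (bern G (cod μ ζ)) (bern G μ) :=
    Measure.quasiMeasurePreserving_fst.comp (JI_mp μ ζ).quasiMeasurePreserving
  have hSTa : ∀ᵐ x ∂(bern G μ), ∀ a : G, S (T (a • x)) = a • x :=
    ae_all_iff.2 fun a => (inv_bern μ a).quasiMeasurePreserving.ae hST
  have hfree : ∀ᵐ x ∂(bern G μ), ∀ a : G, a ≠ 1 → a • x ≠ x := by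
    refine ae_all_iff.2 fun a => ?_
    by_cases ha : a = 1
    · exact Filter.Eventually.of_forall fun x h => (h ha).elim
    · filter_upwards [free_bern μ hμ a ha] with x hx _ using hx
  have h2T := hT.quasiMeasurePreserving.ae h2'
  filter_upwards [hq.ae h2, hq.ae hSTa, hq.ae hST, hq.ae hfree, hq.ae h2T] with y e2 e3 e4 e5 e6
  rw [JI_JJ]
  set x := (JI G y).1 with hx
  set z := (JI G y).2 with hz
  have key : ∀ a : G, π' (T x) (π x a) = a := by
    intro a
    have h := e6 (π x a)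
    rw [← e2 a, e3 a, e4] at h
    by_contra hne
    have hne' : a⁻¹ * π' (T x) (π x a) ≠ 1 := by
      intro h0
      exact hne (inv_mul_eq_one.1 h0).symm
    apply e5 _ hne'
    rw [mul_smul, ← h, inv_smul_smul]
  have hl : AmpC_rl (π' (T x)) (AmpC_rl (π x) z) = z := by
    funext k
    have h1 : k = (π' (T x) (π x k⁻¹))⁻¹ := by rw [key, inv_inv]
    conv_lhs => rw [h1]
    rw [AmpC_rl_apply, AmpC_rl_apply, inv_inv]
  show JJ G (S (T x), AmpC_rl (π' (T x)) (AmpC_rl (π x) z)) = y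
  rw [hl, e4]
  exact JJ_JI y

theorem ampC {G : Type} [Group G] [DecidableEq G] [Countable G] [Infinite G] (μ ν ζ : Measure ℝ)
    [IsProbabilityMeasure μ] [IsProbabilityMeasure ν] [IsProbabilityMeasure ζ] (hμ : Nontriv μ) (hν : Nontriv ν)
    (T S : Bsh G → Bsh G) (h : OE G μ ν T S) :
    ∃ T' S' : Bsh G → Bsh G, OE G (cod μ ζ) (cod ν ζ) T' S' := by
  have h' : OE G ν μ S T := ⟨h.mS, h.mT, h.TS, h.ST, h.bS, h.bT⟩
  obtain ⟨π, _, hπ1, hπ2, hπ3, hπ4⟩ := coc_ex μ ν hμ hν T S h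
  obtain ⟨π', _, hπ1', hπ2', hπ3', hπ4'⟩ := coc_ex ν μ hν hμ S T h'
  obtain ⟨m1, b1⟩ := AmpC_half μ ν ζ T h.mT π hπ1 hπ2 hπ3 hπ4
  obtain ⟨m2, b2⟩ := AmpC_half ν μ ζ S h.mS π' hπ1' hπ2' hπ3' hπ4'
  exact ⟨_, _, ⟨m1, m2, AmpC_inv μ ν ζ hμ T S h.mT h.ST π π' hπ2 hπ2',
    AmpC_inv ν μ ζ hν S T h.mS h.TS π' π hπ2' hπ2, b1, b2⟩⟩

end H33.BO
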