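import Pool.Agent.H33.BO.AmpC

/-! # BO.AmpD : powers of a bounded orbit equivalence

PROOF. `oe_trans`: compositions; `T2 (T1 (g • x)) = T2 (f • T1 x) = f' • T2 (T1 x)` with `f ∈ F1 g`, `f' ∈ F2 f` (the a.e. conditions for `T2` hold at `T1 x` for a.e. `x`: `h1.mT.quasiMeasurePreserving`); the finite set is the union of the `F2 f`, `f ∈ F1 g`. `oe_swap`: `T y := fun h => EE (EE.symm (y h)).swap`, equivariant and measure preserving (`pi_mp`-like: `bern_unique`, `Measure.prod_swap`: the map of `cod μ ζ` under `x ↦ EE (EE.symm x).swap` is `cod ζ μ`). `nontriv_cod`: the set `EE '' (s ×ˢ univ)`, i.e. `{x | (EE.symm x).1 ∈ s}`.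
`oe_pow`: induction on `m`: `cod μ (pwm μ m) ~ cod ν (pwm μ m)` (`ampC`), `~ cod (pwm μ m) ν` (`oe_swap`), `~ cod (pwm ν m) ν` (`ampC` for the induction hypothesis), `~ cod ν (pwm ν m)` (`oe_swap`). -/

set_option autoImplicit false

open MeasureTheory H31.BE

namespace H33.BO

theorem oe_trans {G : Type} [Group G] [Countable G] (μ ν ρ : Measure ℝ) [IsProbabilityMeasure μ]
    [IsProbabilityMeasure ν] [IsProbabilityMeasure ρ] (T1 S1 T2 S2 : Bsh G → Bsh G) (h1 : OE G μ ν T1 S1)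
    (h2 : OE G ν ρ T2 S2) : OE G μ ρ (fun x => T2 (T1 x)) (fun x => S1 (S2 x)) := by
  classical
  refine ⟨h2.mT.comp h1.mT, h1.mS.comp h2.mS, ?_, ?_, ?_, ?_⟩
  · filter_upwards [h1.mT.quasiMeasurePreserving.ae h2.ST, h1.ST] with x e1 e2
    rw [e1, e2]
  · filter_upwards [h2.mS.quasiMeasurePreserving.ae h1.TS, h2.TS] with y e1 e2
    rw [e1, e2]
  · intro g
    obtain ⟨F1, hF1⟩ := h1.bT g
    choose F2 hF2 using h2.bT
    refine ⟨F1.biUnion F2, ?_⟩
    filter_upwards [hF1, h1.mT.quasiMeasurePreserving.ae (ae_all_iff.2 hF2)] with x e1 e2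
    obtain ⟨f, hf, e3⟩ := e1
    obtain ⟨f', hf', e4⟩ := e2 f
    exact ⟨f', Finset.mem_biUnion.2 ⟨f, hf, hf'⟩, by rw [e3, e4]⟩
  · intro g
    obtain ⟨F1, hF1⟩ := h2.bS g
    choose F2 hF2 using h1.bS
    refine ⟨F1.biUnion F2, ?_⟩
    filter_upwards [hF1, h2.mS.quasiMeasurePreserving.ae (ae_all_iff.2 hF2)] with x e1 e2
    obtain ⟨f, hf, e3⟩ := e1
    obtain ⟨f', hf', e4⟩ := e2 f
    exact ⟨f', Finset.mem_biUnion.2 ⟨f, hf, hf'⟩, by rw [e3, e4]⟩

/-- the exchange of the two factors on the line -/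
private noncomputable def AmpD_sw (x : ℝ) : ℝ := EE (EE.symm x).swap

private theorem AmpD_sw_meas : Measurable AmpD_sw :=
  EE.measurable.comp (measurable_swap.comp EE.symm.measurable)

private theorem AmpD_sw_sw (x : ℝ) : AmpD_sw (AmpD_sw x) = x := by
  unfold AmpD_sw
  rw [MeasurableEquiv.symm_apply_apply, Prod.swap_swap, MeasurableEquiv.apply_symm_apply]

private theorem AmpD_sw_map (μ ζ : Measure ℝ) [IsProbabilityMeasure μ] [IsProbabilityMeasure ζ] :
    (cod μ ζ).map AmpD_sw = cod ζ μ := by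
  unfold cod
  rw [Measure.map_map AmpD_sw_meas EE.measurable]
  conv_rhs => rw [← Measure.prod_swap, Measure.map_map EE.measurable measurable_swap]
  congr 1
  funext p
  show EE (EE.symm (EE p)).swap = EE p.swap
  rw [MeasurableEquiv.symm_apply_apply]

private noncomputable def AmpD_T {G : Type} (y : Bsh G) : Bsh G := fun h => AmpD_sw (y h)

private theorem AmpD_T_T {G : Type} (y : Bsh G) : AmpD_T (AmpD_T y) = y := by
  funext h
  exact AmpD_sw_sw (y h)

private theorem AmpD_T_mp {G : Type} [Group G] (μ ζ : Measure ℝ) [IsProbabilityMeasure μ]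
    [IsProbabilityMeasure ζ] :
    MeasurePreserving (AmpD_T : Bsh G → Bsh G) (bern G (cod μ ζ)) (bern G (cod ζ μ)) := by
  classical
  have hm : Measurable (AmpD_T : Bsh G → Bsh G) :=
    measurable_pi_iff.2 fun h => AmpD_sw_meas.comp (measurable_eval h)
  refine ⟨hm, ?_⟩
  apply bern_unique
  intro s t ht
  rw [Measure.map_apply hm (measurableSet_rect s t (fun i _ => ht i))]
  have hset : (AmpD_T : Bsh G → Bsh G) ⁻¹' {y : Bsh G | ∀ i ∈ s, y i ∈ t i} =
      {y : Bsh G | ∀ i ∈ s, y i ∈ AmpD_sw ⁻¹' (t i)} := rfl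
  rw [hset, bern_pi (cod μ ζ) s (fun i => AmpD_sw ⁻¹' (t i)) (fun i _ => AmpD_sw_meas (ht i))]
  refine Finset.prod_congr rfl fun i _ => ?_
  rw [← Measure.map_apply AmpD_sw_meas (ht i), AmpD_sw_map]

theorem oe_swap {G : Type} [Group G] [Countable G] (μ ζ : Measure ℝ) [IsProbabilityMeasure μ]
    [IsProbabilityMeasure ζ] : ∃ T S : Bsh G → Bsh G, OE G (cod μ ζ) (cod ζ μ) T S := by
  refine ⟨AmpD_T, AmpD_T, AmpD_T_mp μ ζ, AmpD_T_mp ζ μ,
    Filter.Eventually.of_forall fun x => AmpD_T_T x, Filter.Eventually.of_forall fun x => AmpD_T_T x,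
    fun g => ⟨{g}, Filter.Eventually.of_forall fun x => ⟨g, Finset.mem_singleton_self g, rfl⟩⟩,
    fun g => ⟨{g}, Filter.Eventually.of_forall fun x => ⟨g, Finset.mem_singleton_self g, rfl⟩⟩⟩

private theorem AmpD_nt (μ ζ : Measure ℝ) [IsProbabilityMeasure μ] [IsProbabilityMeasure ζ]
    (hμ : Nontriv μ) : Nontriv (cod μ ζ) := by
  obtain ⟨s, hs, h1, h2⟩ := hμ
  have hS : MeasurableSet (s ×ˢ (Set.univ : Set ℝ)) := hs.prod MeasurableSet.univ
  have e : cod μ ζ (EE.symm ⁻¹' (s ×ˢ Set.univ)) = μ s := by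
    unfold cod
    rw [Measure.map_apply EE.measurable (EE.symm.measurable hS)]
    have e2 : EE ⁻¹' (EE.symm ⁻¹' (s ×ˢ (Set.univ : Set ℝ))) = s ×ˢ Set.univ := by
      ext p
      rw [Set.mem_preimage, Set.mem_preimage, MeasurableEquiv.symm_apply_apply]
    rw [e2, Measure.prod_prod, measure_univ, mul_one]
  exact ⟨_, EE.symm.measurable hS, by rw [e]; exact h1, by rw [e]; exact h2⟩

theorem nontriv_pwm (μ : Measure ℝ) [IsProbabilityMeasure μ] (hμ : Nontriv μ) (m : ℕ) :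
    IsProbabilityMeasure (pwm μ m) ∧ Nontriv (pwm μ m) := by
  induction m with
  | zero => exact ⟨inferInstanceAs (IsProbabilityMeasure μ), hμ⟩
  | succ m ih =>
    have := ih.1
    exact ⟨inferInstanceAs (IsProbabilityMeasure (cod μ (pwm μ m))), AmpD_nt μ (pwm μ m) hμ⟩

theorem oe_pow {G : Type} [Group G] [DecidableEq G] [Countable G] [Infinite G] (μ ν : Measure ℝ)
    [IsProbabilityMeasure μ] [IsProbabilityMeasure ν] (hμ : Nontriv μ) (hν : Nontriv ν)
    (T S : Bsh G → Bsh G) (h : OE G μ ν T S) (m : ℕ) :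
    ∃ T' S' : Bsh G → Bsh G, OE G (pwm μ m) (pwm ν m) T' S' := by
  induction m with
  | zero => exact ⟨T, S, h⟩
  | succ m ih =>
    obtain ⟨T', S', h'⟩ := ih
    obtain ⟨i1, n1⟩ := nontriv_pwm μ hμ m
    obtain ⟨i2, n2⟩ := nontriv_pwm ν hν m
    obtain ⟨Ta, Sa, ha⟩ := ampC μ ν (pwm μ m) hμ hν T S h
    obtain ⟨Tb, Sb, hb⟩ := oe_swap (G := G) ν (pwm μ m)
    obtain ⟨Tc, Sc, hc⟩ := ampC (pwm μ m) (pwm ν m) ν n1 n2 T' S' h'
    obtain ⟨Td, Sd, hd⟩ := oe_swap (G := G) (pwm ν m) ν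
    have h1 := oe_trans _ _ _ _ _ _ _ ha hb
    have h2 := oe_trans _ _ _ _ _ _ _ h1 hc
    have h3 := oe_trans _ _ _ _ _ _ _ h2 hd
    exact ⟨_, _, h3⟩

end H33.BO
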