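import Pool.Agent.H33.BO.Defs2
import Pool.Agent.H31.BE.FDefs
import Pool.Agent.H31.BE.EntF
import Pool.Agent.H31.BE.EntB

/-! # BO.AmpE : entropy of powers

PROOF. `ent_pw`: induction on `m`: `q x := (q0 (EE.symm x).1, q_m (EE.symm x).2)` under `cod μ (pwm μ m) = map EE (μ.prod ..)`: `ent_map`, `ent_indep_two` (`Measure.prod_prod`), values in `Fin k0 × Fin k1 ≃ Fin (k0 * k1)` (`finProdFinEquiv`, `ent_inj` or `ent_comp_le` both ways). `hf_cod`: `HF μ = ∑' a, ofReal (negMulLog (μ {a}).toReal) + ⊤ * (1 - ∑' a, μ {a})`. If `∑' a, μ {a} < 1` or `∑' a, ζ {a} < 1` then the right side is `⊤` (`ENNReal.mul_top`-type, as in `fe_le`; every sum is at most 1).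
Otherwise both sums are 1; `(cod μ ζ) {x} = μ {a} * ζ {b}` for `(a, b) = EE.symm x` (`MeasurableEquiv` preimage of a singleton, `Measure.prod_prod`), so `∑' x, (cod μ ζ) {x} = 1` (`Equiv.tsum_eq`, `ENNReal.tsum_prod`, `ENNReal.tsum_mul_left`) and `negMulLog (x y) = y * negMulLog x + x * negMulLog y` (`Real.negMulLog_mul`), nonnegative terms (`ENNReal.ofReal_add`, `ofReal_mul`): the sum is
`∑' (a, b), ζ {b} * η (μ {a}) + μ {a} * η (ζ {b}) = ∑' a, η (μ {a}) + ∑' b, η (ζ {b})`. `hf_pw`: induction. -/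

set_option autoImplicit false

open MeasureTheory H31.BE

namespace H33.BO

private theorem ampe_prob (μ : Measure ℝ) [IsProbabilityMeasure μ] (m : ℕ) : IsProbabilityMeasure (pwm μ m) := by
  induction m with
  | zero => exact inferInstanceAs (IsProbabilityMeasure μ)
  | succ m ih =>
    haveI := ih
    exact inferInstanceAs (IsProbabilityMeasure (cod μ (pwm μ m)))

private theorem ampe_mp (μ ζ : Measure ℝ) : MeasurePreserving (EE : ℝ × ℝ → ℝ) (μ.prod ζ) (cod μ ζ) :=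
  ⟨EE.measurable, rfl⟩

theorem ent_pw (μ : Measure ℝ) [IsProbabilityMeasure μ] (k0 : ℕ) (q0 : ℝ → Fin k0) (hq0 : Fm q0) (m : ℕ) :
    ∃ (k1 : ℕ) (q : ℝ → Fin k1), Fm q ∧ ent (pwm μ m) q = (m + 1) * ent μ q0 := by
  induction m with
  | zero => exact ⟨k0, q0, hq0, by simp [pwm]⟩
  | succ m ih =>
    obtain ⟨k1, q1, hq1, he⟩ := ih
    haveI := ampe_prob μ m
    have hf : Fm (fun p : ℝ × ℝ => q0 p.1) := Fm.comp_measurable measurable_fst hq0
    have hg : Fm (fun p : ℝ × ℝ => q1 p.2) := Fm.comp_measurable measurable_snd hq1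
    have e1 : ent (μ.prod (pwm μ m)) (fun p : ℝ × ℝ => q0 p.1) = ent μ q0 :=
      ent_map measurePreserving_fst hq0
    have e2 : ent (μ.prod (pwm μ m)) (fun p : ℝ × ℝ => q1 p.2) = ent (pwm μ m) q1 :=
      ent_map measurePreserving_snd hq1
    have e3 : ent (μ.prod (pwm μ m)) (fun p : ℝ × ℝ => (q0 p.1, q1 p.2)) =
        ent (μ.prod (pwm μ m)) (fun p : ℝ × ℝ => q0 p.1) +
          ent (μ.prod (pwm μ m)) (fun p : ℝ × ℝ => q1 p.2) := by
      apply ent_indep_two hf hg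
      intro a b
      have s1 : (fun p : ℝ × ℝ => q0 p.1) ⁻¹' {a} ∩ (fun p : ℝ × ℝ => q1 p.2) ⁻¹' {b} =
          (q0 ⁻¹' {a}) ×ˢ (q1 ⁻¹' {b}) := by
        ext p
        simp
      have s2 : (fun p : ℝ × ℝ => q0 p.1) ⁻¹' {a} = (q0 ⁻¹' {a}) ×ˢ Set.univ := by
        ext p
        simp
      have s3 : (fun p : ℝ × ℝ => q1 p.2) ⁻¹' {b} = Set.univ ×ˢ (q1 ⁻¹' {b}) := by
        ext p
        simp
      rw [s1, s2, s3, measureReal_prod_prod, measureReal_prod_prod, measureReal_prod_prod]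
      simp
    have hfg := hf.prodMk hg
    refine ⟨k0 * k1, fun x => finProdFinEquiv (q0 (EE.symm x).1, q1 (EE.symm x).2), ?_, ?_⟩
    · exact Fm.comp_measurable EE.symm.measurable (hfg.comp finProdFinEquiv)
    · have hq : Fm (fun x => finProdFinEquiv (q0 (EE.symm x).1, q1 (EE.symm x).2)) :=
        Fm.comp_measurable EE.symm.measurable (hfg.comp finProdFinEquiv)
      have h1 := ent_map (ampe_mp μ (pwm μ m)) hq
      have h2 : (fun p : ℝ × ℝ => finProdFinEquiv (q0 (EE.symm (EE p)).1, q1 (EE.symm (EE p)).2)) =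
          fun p : ℝ × ℝ => finProdFinEquiv (q0 p.1, q1 p.2) := by
        funext p
        rw [MeasurableEquiv.symm_apply_apply]
      rw [h2] at h1
      have h3 : ent (μ.prod (pwm μ m)) (fun p : ℝ × ℝ => finProdFinEquiv (q0 p.1, q1 p.2)) =
          ent (μ.prod (pwm μ m)) (fun p : ℝ × ℝ => (q0 p.1, q1 p.2)) := by
        apply le_antisymm
        · exact ent_comp_le hfg finProdFinEquiv
        · have := ent_comp_le (P := μ.prod (pwm μ m)) (hfg.comp finProdFinEquiv) finProdFinEquiv.symm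
          simpa using this
      show ent (cod μ (pwm μ m)) _ = _
      rw [← h1, h3, e3, e1, e2, he]
      push_cast
      ring

private theorem ampe_le_one (μ : Measure ℝ) [IsProbabilityMeasure μ] : ∑' a : ℝ, μ {a} ≤ 1 := by
  have h := tsum_meas_le_meas_iUnion_of_disjoint μ (As := fun a : ℝ => ({a} : Set ℝ))
    (fun a => measurableSet_singleton a) (by
      intro a b hab
      simpa using hab)
  exact h.trans prob_le_one

private theorem ampe_top (μ : Measure ℝ) (h : (1 : ENNReal) - ∑' a : ℝ, μ {a} ≠ 0) : HF μ = ⊤ := by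
  rw [HF, ENNReal.top_mul h, add_top]

private theorem ampe_sing (μ ζ : Measure ℝ) [IsProbabilityMeasure μ] [IsProbabilityMeasure ζ] (x : ℝ) :
    (cod μ ζ) {x} = μ {(EE.symm x).1} * ζ {(EE.symm x).2} := by
  rw [cod, Measure.map_apply EE.measurable (measurableSet_singleton x)]
  have h : (EE : ℝ × ℝ → ℝ) ⁻¹' {x} = {(EE.symm x).1} ×ˢ {(EE.symm x).2} := by
    ext p
    simp only [Set.mem_preimage, Set.mem_singleton_iff, Set.mem_prod]
    constructor
    · intro hp
      rw [← hp, MeasurableEquiv.symm_apply_apply]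
      exact ⟨rfl, rfl⟩
    · rintro ⟨h1, h2⟩
      have : p = EE.symm x := Prod.ext h1 h2
      rw [this, MeasurableEquiv.apply_symm_apply]
  rw [h, Measure.prod_prod]

private theorem ampe_tsum (F : ℝ → ℝ → ENNReal) :
    ∑' x : ℝ, F (EE.symm x).1 (EE.symm x).2 = ∑' a : ℝ, ∑' b : ℝ, F a b := by
  rw [← ENNReal.tsum_prod]
  exact EE.symm.toEquiv.tsum_eq (fun p : ℝ × ℝ => F p.1 p.2)

theorem hf_cod (μ ζ : Measure ℝ) [IsProbabilityMeasure μ] [IsProbabilityMeasure ζ] :
    HF (cod μ ζ) ≤ HF μ + HF ζ := by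
  by_cases h1 : (1 : ENNReal) - ∑' a : ℝ, μ {a} = 0
  swap
  · rw [ampe_top μ h1]
    simp
  by_cases h2 : (1 : ENNReal) - ∑' a : ℝ, ζ {a} = 0
  swap
  · rw [ampe_top ζ h2]
    simp
  have e1 : ∑' a : ℝ, μ {a} = 1 := le_antisymm (ampe_le_one μ) (tsub_eq_zero_iff_le.1 h1)
  have e2 : ∑' a : ℝ, ζ {a} = 1 := le_antisymm (ampe_le_one ζ) (tsub_eq_zero_iff_le.1 h2)
  have e3 : ∑' x : ℝ, (cod μ ζ) {x} = 1 := by
    have : ∑' x : ℝ, (cod μ ζ) {x} = ∑' x : ℝ, (fun a b => μ {a} * ζ {b}) (EE.symm x).1 (EE.symm x).2 :=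
      tsum_congr fun x => ampe_sing μ ζ x
    rw [this, ampe_tsum (fun a b => μ {a} * ζ {b})]
    simp_rw [ENNReal.tsum_mul_left, e2, mul_one, e1]
  have key : ∀ a b : ℝ, ENNReal.ofReal (Real.negMulLog (μ {a} * ζ {b}).toReal) =
      ζ {b} * ENNReal.ofReal (Real.negMulLog (μ {a}).toReal) +
        μ {a} * ENNReal.ofReal (Real.negMulLog (ζ {b}).toReal) := by
    intro a b
    have n1 : 0 ≤ Real.negMulLog (μ {a}).toReal :=
      Real.negMulLog_nonneg ENNReal.toReal_nonneg (by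
        have := ENNReal.toReal_mono ENNReal.one_ne_top (prob_le_one (μ := μ) (s := {a}))
        simpa using this)
    have n2 : 0 ≤ Real.negMulLog (ζ {b}).toReal :=
      Real.negMulLog_nonneg ENNReal.toReal_nonneg (by
        have := ENNReal.toReal_mono ENNReal.one_ne_top (prob_le_one (μ := ζ) (s := {b}))
        simpa using this)
    rw [ENNReal.toReal_mul, Real.negMulLog_mul,
      ENNReal.ofReal_add (mul_nonneg ENNReal.toReal_nonneg n1) (mul_nonneg ENNReal.toReal_nonneg n2),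
      ENNReal.ofReal_mul ENNReal.toReal_nonneg, ENNReal.ofReal_mul ENNReal.toReal_nonneg,
      ENNReal.ofReal_toReal (measure_ne_top _ _), ENNReal.ofReal_toReal (measure_ne_top _ _)]
  have e4 : ∑' x : ℝ, ENNReal.ofReal (Real.negMulLog ((cod μ ζ) {x}).toReal) =
      ∑' a : ℝ, ENNReal.ofReal (Real.negMulLog (μ {a}).toReal) +
        ∑' b : ℝ, ENNReal.ofReal (Real.negMulLog (ζ {b}).toReal) := by
    have h5 : ∑' x : ℝ, ENNReal.ofReal (Real.negMulLog ((cod μ ζ) {x}).toReal) =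
        ∑' x : ℝ, (fun a b => ζ {b} * ENNReal.ofReal (Real.negMulLog (μ {a}).toReal) +
          μ {a} * ENNReal.ofReal (Real.negMulLog (ζ {b}).toReal)) (EE.symm x).1 (EE.symm x).2 := by
      refine tsum_congr fun x => ?_
      rw [ampe_sing μ ζ x, key]
    rw [h5, ampe_tsum (fun a b => ζ {b} * ENNReal.ofReal (Real.negMulLog (μ {a}).toReal) +
          μ {a} * ENNReal.ofReal (Real.negMulLog (ζ {b}).toReal))]
    simp_rw [ENNReal.tsum_add, ENNReal.tsum_mul_left, ENNReal.tsum_mul_right, e1, e2, one_mul]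
  rw [HF, HF, HF, e3, h1, h2, e4]
  simp

theorem hf_pw (μ : Measure ℝ) [IsProbabilityMeasure μ] (m : ℕ) : HF (pwm μ m) ≤ (m + 1) * HF μ := by
  induction m with
  | zero => simp [pwm]
  | succ m ih =>
    haveI := ampe_prob μ m
    calc HF (pwm μ (m + 1)) ≤ HF μ + HF (pwm μ m) := hf_cod μ (pwm μ m)
      _ ≤ HF μ + (m + 1) * HF μ := by gcongr
      _ = ((m + 1 : ℕ) + 1) * HF μ := by
        push_cast
        ring

end H33.BO
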