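import Pool.Agent.H33.BO.Defs2
import Pool.Agent.H31.BE.Appr

/-! # BO.ApxA : approximation by window functions of configurations

PROOF. `appr` for `b y := (β y, d y)` and `η`: `k1`, `q1 : ℝ → Fin k1`, `B : Finset G`, `Φ`. `A := Fin k1 × A0`, `q x := (q1 x, q0 x)`, `pr := Prod.snd`. For `h ∈ B` choose a word `w_h` with `lift g w_h = h` (`hsur`), `Z := image of w`. `(β' t, d' t) := Φ (fun h => (t (w_h)).1)`; for `t = tt g q y`: `(t (w_h)).1 = q1 ((h • y) 1) = win (lab q1) B y h`.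
The set in the claim is the set of `appr` (`Prod.ext_iff`). -/

set_option autoImplicit false

open MeasureTheory H31.BE

namespace H33.BO

theorem apxA {k : ℕ} {G : Type} [Group G] [DecidableEq G] (g : Lt k → G)
    (hsur : Function.Surjective (FreeGroup.lift g)) (ν : Measure ℝ) [IsProbabilityMeasure ν] {Λ A0 : Type}
    [Finite Λ] [Finite A0] (β : Bsh G → Λ) (hβ : Fm β) (d : Bsh G → Option Bool) (hd : Fm d)
    (q0 : ℝ → A0) (hq0 : Fm q0) (η : ℝ) (hη : 0 < η) :
    ∃ (A : Type) (_ : Finite A) (q : ℝ → A) (_ : Fm q) (pr : A → A0) (_ : ∀ x, pr (q x) = q0 x)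
      (Z : Finset (Fg k)) (β' : (Fg k → A) → Λ) (d' : (Fg k → A) → Option Bool),
      Loc Z β' ∧ Loc Z d' ∧
        (bern G ν).real {y | β y ≠ β' (tt g q y) ∨ d y ≠ d' (tt g q y)} ≤ η := by
  classical
  obtain ⟨k1, q1, hq1, B, Φ, hΦ⟩ := appr ν (fun y => (β y, d y)) (hβ.prodMk hd) η hη
  choose w hw using hsur
  refine ⟨Fin k1 × A0, inferInstance, fun x => (q1 x, q0 x), hq1.prodMk hq0, Prod.snd,
    fun _ => rfl, B.image w, fun t => (Φ (fun h => (t (w h)).1)).1,
    fun t => (Φ (fun h => (t (w h)).1)).2, ?_, ?_, ?_⟩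
  · intro t t' h
    have e : (fun x : B => (t (w x)).1) = fun x : B => (t' (w x)).1 := by
      funext x
      rw [h _ (Finset.mem_image_of_mem w x.2)]
    show (Φ (fun x : B => (t (w x)).1)).1 = (Φ (fun x : B => (t' (w x)).1)).1
    rw [e]
  · intro t t' h
    have e : (fun x : B => (t (w x)).1) = fun x : B => (t' (w x)).1 := by
      funext x
      rw [h _ (Finset.mem_image_of_mem w x.2)]
    show (Φ (fun x : B => (t (w x)).1)).2 = (Φ (fun x : B => (t' (w x)).1)).2
    rw [e]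
  · refine le_trans (le_of_eq ?_) hΦ
    congr 1
    ext y
    have e : (fun x : B => (tt g (fun x => (q1 x, q0 x)) y (w x)).1) = win (lab q1) B y := by
      funext x
      show q1 ((FreeGroup.lift g (w x) • y) 1) = q1 (((x : G) • y) 1)
      rw [hw]
    show (β y ≠ (Φ (fun x : B => (tt g (fun x => (q1 x, q0 x)) y (w x)).1)).1 ∨
      d y ≠ (Φ (fun x : B => (tt g (fun x => (q1 x, q0 x)) y (w x)).1)).2) ↔
        (β y, d y) ≠ Φ (win (lab q1) B y)
    rw [e, ne_eq (β y, d y), Prod.ext_iff]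
    tauto

end H33.BO
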