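import Pool.Agent.H33.BO.Defs2

/-! # BO.PatC : the corrected direction

PROOF. Monotonicity: `shrt N d s z → s ≤ t → shrt N d t z`. If `shrt N d0 (s + 1) z`, `d0 z = some c` then `shrt N d0 s (N c z)`, so `shrt N d0 r (N c z)` for `s ≤ r`. `cor_shrt`: if not `shrt N d0 r z` then `cor = none` and the claim is clear (cases on `r`). Otherwise show by induction on `s ≤ r`: `shrt N d0 s z → shrt N (cor N d0 r) s z` (`cor N d0 r z = d0 z` since `shrt N d0 r z`
by monotonicity). `cor_pat`: by induction on `s ≤ r`: if `shrt N d s z` and `β = β'`, `d = d0` at all `mv N L z`, `L.length ≤ s`, then `shrt N d0 s z` and `pat N β' (cor N d0 r) t z = pat N β d t z` for all `t ≤ s + 1` (in particular `s = r`): `cor N d0 r z = d0 z = d z`; if it is `none`: both sides are `[(β z, none)]` (or `[]` for `t = 0`);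
if it is `some c`: `s ≥ 1` and the induction hypothesis for `N c z` (`mv N (c :: L) z = mv N L (N c z)`). -/

set_option autoImplicit false

open MeasureTheory H31.BE

namespace H33.BO

private theorem shrt_succ_iff {Z : Type} (N : Bool → Z → Z) (d : Z → Option Bool) (r : ℕ) (z : Z) :
    shrt N d (r + 1) z ↔ ∀ c, d z = some c → shrt N d r (N c z) := by
  rw [shrt]
  cases h : d z with
  | none => simp
  | some c =>
    simp only [Option.some.injEq]
    constructor
    · intro h1 c' hc
      rw [← hc]
      exact h1
    · intro h1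
      exact h1 c rfl

private theorem shrt_step {Z : Type} (N : Bool → Z → Z) (d : Z → Option Bool) (r : ℕ) :
    ∀ z, shrt N d r z → shrt N d (r + 1) z := by
  induction r with
  | zero =>
    intro z h
    rw [shrt_succ_iff]
    intro c hc
    rw [shrt] at h
    rw [h] at hc
    exact absurd hc (by simp)
  | succ r ih =>
    intro z h
    rw [shrt_succ_iff] at h ⊢
    intro c hc
    exact ih _ (h c hc)

private theorem shrt_mono {Z : Type} (N : Bool → Z → Z) (d : Z → Option Bool) {s t : ℕ} (hst : s ≤ t)
    (z : Z) (h : shrt N d s z) : shrt N d t z := by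
  induction t, hst using Nat.le_induction with
  | base => exact h
  | succ n _ ih => exact shrt_step N d n z ih

private theorem cor_of {Z : Type} (N : Bool → Z → Z) (d0 : Z → Option Bool) (r : ℕ) (z : Z)
    (h : shrt N d0 r z) : cor N d0 r z = d0 z := by
  unfold cor
  rw [if_pos h]

private theorem cor_none {Z : Type} (N : Bool → Z → Z) (d0 : Z → Option Bool) (r : ℕ) (z : Z)
    (h : ¬ shrt N d0 r z) : cor N d0 r z = none := by
  unfold cor
  rw [if_neg h]

theorem cor_shrt {Z : Type} (N : Bool → Z → Z) (d0 : Z → Option Bool) (r : ℕ) (z : Z) :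
    shrt N (cor N d0 r) r z := by
  have key : ∀ s, s ≤ r → ∀ z, shrt N d0 s z → shrt N (cor N d0 r) s z := by
    intro s
    induction s with
    | zero =>
      intro _ z h
      rw [shrt, cor_of N d0 r z (shrt_mono N d0 (Nat.zero_le r) z h)]
      exact h
    | succ s ih =>
      intro hs z h
      have h1 := cor_of N d0 r z (shrt_mono N d0 hs z h)
      rw [shrt_succ_iff] at h ⊢
      intro c hc
      rw [h1] at hc
      exact ih (by omega) _ (h c hc)
  by_cases h : shrt N d0 r z
  · exact key r le_rfl z h
  · have h1 := cor_none N d0 r z h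
    cases r with
    | zero => exact h1
    | succ r =>
      rw [shrt_succ_iff]
      intro c hc
      rw [h1] at hc
      exact absurd hc (by simp)

private theorem pat_none {Z Λ : Type} (N : Bool → Z → Z) (β : Z → Λ) (d : Z → Option Bool) (r : ℕ) (z : Z)
    (h : d z = none) : pat N β d (r + 1) z = [(β z, none)] := by
  rw [pat, h]

private theorem pat_some {Z Λ : Type} (N : Bool → Z → Z) (β : Z → Λ) (d : Z → Option Bool) (r : ℕ) (z : Z)
    (c : Bool) (h : d z = some c) : pat N β d (r + 1) z = (β z, some c) :: pat N β d r (N c z) := by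
  rw [pat, h]

theorem cor_pat {Z Λ : Type} (N : Bool → Z → Z) (β β' : Z → Λ) (d d0 : Z → Option Bool) (r : ℕ) (z : Z)
    (hs : shrt N d r z)
    (h : ∀ L : List Bool, L.length ≤ r → β (mv N L z) = β' (mv N L z) ∧ d (mv N L z) = d0 (mv N L z)) :
    pat N β' (cor N d0 r) (r + 1) z = pat N β d (r + 1) z := by
  have key : ∀ s, s ≤ r → ∀ z, shrt N d s z →
      (∀ L : List Bool, L.length ≤ s → β (mv N L z) = β' (mv N L z) ∧ d (mv N L z) = d0 (mv N L z)) →
      shrt N d0 s z ∧ ∀ t, t ≤ s + 1 → pat N β' (cor N d0 r) t z = pat N β d t z := by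
    intro s
    induction s with
    | zero =>
      intro _ z h1 h2
      obtain ⟨hb, hd⟩ := h2 [] (by simp)
      simp only [mv] at hb hd
      have hdn : d z = none := h1
      have hd0 : d0 z = none := by rw [← hd, hdn]
      have hsh : shrt N d0 0 z := hd0
      refine ⟨hsh, ?_⟩
      intro t ht
      have hc := cor_of N d0 r z (shrt_mono N d0 (Nat.zero_le r) z hsh)
      cases t with
      | zero => rfl
      | succ t =>
        rw [pat_none _ _ _ _ _ (hc.trans hd0), pat_none _ _ _ _ _ hdn, hb]
    | succ s ih =>
      intro hsr z h1 h2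
      obtain ⟨hb, hd⟩ := h2 [] (by simp)
      simp only [mv] at hb hd
      rcases hdz : d z with _ | c
      · have hd0 : d0 z = none := by rw [← hd, hdz]
        have hsh : shrt N d0 (s + 1) z := by
          rw [shrt_succ_iff]
          intro c hc
          rw [hd0] at hc
          exact absurd hc (by simp)
        refine ⟨hsh, ?_⟩
        intro t ht
        have hc := cor_of N d0 r z (shrt_mono N d0 hsr z hsh)
        cases t with
        | zero => rfl
        | succ t =>
          rw [pat_none _ _ _ _ _ (hc.trans hd0), pat_none _ _ _ _ _ hdz, hb]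
      · have hd0 : d0 z = some c := by rw [← hd, hdz]
        have h3 : shrt N d s (N c z) := (shrt_succ_iff N d s z).1 h1 c hdz
        obtain ⟨h4, h5⟩ := ih (by omega) (N c z) h3 (fun L hL => h2 (c :: L) (by simpa using hL))
        have hsh : shrt N d0 (s + 1) z := by
          rw [shrt_succ_iff]
          intro c' hc'
          rw [hd0] at hc'
          rw [← Option.some.inj hc']
          exact h4
        refine ⟨hsh, ?_⟩
        intro t ht
        have hc := cor_of N d0 r z (shrt_mono N d0 hsr z hsh)
        cases t with
        | zero => rfl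
        | succ t =>
          rw [pat_some _ _ _ _ _ c (hc.trans hd0), pat_some _ _ _ _ _ c hdz, hb, h5 t (by omega)]
  exact (key r le_rfl z hs h).2 (r + 1) le_rfl

end H33.BO
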