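import Pool.Agent.H33.BO.PatA
import Pool.Agent.H33.BO.PatC

/-! # BO.ApxC : the patterns of the approximations

PROOF. Let `E := {y | β y ≠ β' (tt g q y) ∨ d y ≠ d' (tt g q y)}`. `tt g q (ga g f y) = ca f (tt g q y)` (`tt`, `ga`, `ca`: `lift g w • lift g f • y`). Let `y` be such that `ga g f y ∉ E` for all `f = (product of at most r moves nn) * bgw j`, and the path of `ga g (bgw W j) y` is short for all `j`. For every `j` with `z := ga g (bgw W j) y` apply `cor_pat` to the functions
`β`, `β' ∘ tt g q`, `d`, `d' ∘ tt g q` on `Bsh G` (`mv (fun c => ga g (nn W c)) L z` is `ga g f y` for such an `f`), and `pat_congr`, `shrt_congr` for `θ := tt g q` (`cor .. (d' ∘ tt) r z = cor .. d' r (tt g q z)`: unfold `cor`, `shrt_congr`). So the patterns agree. The exceptional set is contained, up to null sets, in the union over `j` and the lists `L` of length at most `r`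
(at most `2^(r+1)` lists) of the sets `{y | mv .. L (ga g (bgw W j) y) ∈ E}`, each of measure at most `η` (`inv_bern`; `E` is measurable: `hβ`, `hd`, `hβm`, `hdm`), and the short path condition holds almost everywhere at all `ga g (bgw W j) y` (`hs`, `inv_bern`, quasi measure preserving). -/

set_option autoImplicit false

open MeasureTheory H31.BE

namespace H33.BO

private lemma apxC_tt {k : ℕ} {G A : Type} [Group G] (g : Lt k → G) (q : ℝ → A) (f : Fg k)
    (y : Bsh G) : tt g q (ga g f y) = ca f (tt g q y) := by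
  funext w
  show q ((FreeGroup.lift g w • FreeGroup.lift g f • y) 1) =
    q ((FreeGroup.lift g (w * f) • y) 1)
  rw [← mul_smul, map_mul]

private lemma apxC_ga {k : ℕ} {G Y : Type} [Group G] [MulAction G Y] (g : Lt k → G)
    (f f' : Fg k) (y : Y) : ga g f (ga g f' y) = ga g (f * f') y := by
  show FreeGroup.lift g f • FreeGroup.lift g f' • y = FreeGroup.lift g (f * f') • y
  rw [← mul_smul, map_mul]

private lemma apxC_mv {k : ℕ} {G Y : Type} [Group G] [MulAction G Y] (W : Wd k) (g : Lt k → G)
    (L : List Bool) : ∃ f : Fg k, ∀ y : Y, mv (fun c => ga g (nn W c)) L y = ga g f y := by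
  induction L with
  | nil =>
    refine ⟨1, fun y => ?_⟩
    show y = FreeGroup.lift g 1 • y
    rw [map_one, one_smul]
  | cons c L ih =>
    obtain ⟨f, hf⟩ := ih
    refine ⟨f * nn W c, fun y => ?_⟩
    rw [mv, hf, apxC_ga]

/-- the lists of length at most `r` -/
private def apxC_ls : ℕ → Finset (List Bool)
  | 0 => {[]}
  | r + 1 => insert [] ((apxC_ls r).image (List.cons true) ∪ (apxC_ls r).image (List.cons false))

private lemma apxC_mem (r : ℕ) : ∀ L : List Bool, L.length ≤ r → L ∈ apxC_ls r := by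
  induction r with
  | zero =>
    intro L hL
    rw [List.length_eq_zero_iff.1 (Nat.le_zero.1 hL)]
    exact Finset.mem_singleton_self _
  | succ r ih =>
    intro L hL
    cases L with
    | nil => exact Finset.mem_insert_self _ _
    | cons c L =>
      have hL' : L.length ≤ r := by simpa using hL
      refine Finset.mem_insert_of_mem (Finset.mem_union.2 ?_)
      cases c
      · exact Or.inr (Finset.mem_image_of_mem _ (ih L hL'))
      · exact Or.inl (Finset.mem_image_of_mem _ (ih L hL'))

private lemma apxC_card (r : ℕ) : (apxC_ls r).card + 1 ≤ 2 ^ (r + 1) := by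
  induction r with
  | zero => simp [apxC_ls]
  | succ r ih =>
    have h1 : (apxC_ls (r + 1)).card ≤ ((apxC_ls r).image (List.cons true) ∪
        (apxC_ls r).image (List.cons false)).card + 1 := Finset.card_insert_le _ _
    have h2 := Finset.card_union_le ((apxC_ls r).image (List.cons true))
      ((apxC_ls r).image (List.cons false))
    have h3 := Finset.card_image_le (s := apxC_ls r) (f := List.cons true)
    have h4 := Finset.card_image_le (s := apxC_ls r) (f := List.cons false)
    have h5 : 2 ^ (r + 1 + 1) = 2 * 2 ^ (r + 1) := by ring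
    omega

private lemma apxC_pat {k : ℕ} {G : Type} [Group G] (W : Wd k) (g : Lt k → G)
    {Λ A : Type} (β : Bsh G → Λ) (d : Bsh G → Option Bool) (r : ℕ) (q : ℝ → A)
    (β' : (Fg k → A) → Λ) (d' : (Fg k → A) → Option Bool) (y : Bsh G)
    (hs : ∀ j, shrt (fun c => ga g (nn W c)) d r (ga g (bgw W j) y))
    (h : ∀ j, ∀ L : List Bool, L.length ≤ r →
      β (mv (fun c => ga g (nn W c)) L (ga g (bgw W j) y)) =
        β' (tt g q (mv (fun c => ga g (nn W c)) L (ga g (bgw W j) y))) ∧
      d (mv (fun c => ga g (nn W c)) L (ga g (bgw W j) y)) =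
        d' (tt g q (mv (fun c => ga g (nn W c)) L (ga g (bgw W j) y)))) :
    bpat W (ga g) β d (r + 1) y =
      bpat W ca β' (cor (fun c => ca (nn W c)) d' r) (r + 1) (tt g q y) := by
  funext j
  apply Subtype.ext
  show pat (fun c => ga g (nn W c)) β d (r + 1) (ga g (bgw W j) y) =
    pat (fun c => ca (nn W c)) β' (cor (fun c => ca (nn W c)) d' r) (r + 1)
      (ca (bgw W j) (tt g q y))
  rw [← apxC_tt]
  have h1 := cor_pat (fun c => ga g (nn W c)) β (fun z => β' (tt g q z)) d
    (fun z => d' (tt g q z)) r (ga g (bgw W j) y) (hs j) (h j)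
  rw [← h1]
  symm
  refine pat_congr (tt g q) (fun c => ga g (nn W c)) (fun c => ca (nn W c))
    (fun z => β' (tt g q z)) β' (cor (fun c => ga g (nn W c)) (fun z => d' (tt g q z)) r)
    (cor (fun c => ca (nn W c)) d' r) (fun c z => apxC_tt g q (nn W c) z) (fun _ => rfl) ?_
    (r + 1) (ga g (bgw W j) y)
  intro z
  have h2 := shrt_congr (tt g q) (fun c => ga g (nn W c)) (fun c => ca (nn W c))
    (fun z => d' (tt g q z)) d' (fun c z => apxC_tt g q (nn W c) z) (fun _ => rfl) r z
  unfold cor
  by_cases h3 : shrt (fun c => ga g (nn W c)) (fun z => d' (tt g q z)) r z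
  · rw [if_pos h3, if_pos (h2.2 h3)]
  · rw [if_neg h3, if_neg fun h4 => h3 (h2.1 h4)]

theorem apxC {k : ℕ} {G : Type} [Group G] [DecidableEq G] (W : Wd k) (g : Lt k → G)
    (ν : Measure ℝ) [IsProbabilityMeasure ν] {Λ A : Type} [Finite Λ] [Finite A] (β : Bsh G → Λ) (hβ : Fm β)
    (d : Bsh G → Option Bool) (hd : Fm d) (r : ℕ)
    (hs : ∀ᵐ y ∂(bern G ν), shrt (fun c => ga g (nn W c)) d r y) (q : ℝ → A)
    (β' : (Fg k → A) → Λ) (d' : (Fg k → A) → Option Bool) (hβm : Fm (fun y : Bsh G => β' (tt g q y)))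
    (hdm : Fm (fun y : Bsh G => d' (tt g q y))) (η : ℝ)
    (hη : (bern G ν).real {y | β y ≠ β' (tt g q y) ∨ d y ≠ d' (tt g q y)} ≤ η) :
    (bern G ν).real {y | bpat W (ga g) β d (r + 1) y ≠
        bpat W ca β' (cor (fun c => ca (nn W c)) d' r) (r + 1) (tt g q y)} ≤
      Nat.card (Bg k W.length) * 2 ^ (r + 1) * η := by
  classical
  set E : Set (Bsh G) := {y | β y ≠ β' (tt g q y) ∨ d y ≠ d' (tt g q y)} with hE
  have hEm : MeasurableSet E := by
    have h1 : MeasurableSet ((fun y : Bsh G => (β y, β' (tt g q y))) ⁻¹' {p | p.1 ≠ p.2}) :=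
      (hβ.prodMk hβm).preimage _
    have h2 : MeasurableSet ((fun y : Bsh G => (d y, d' (tt g q y))) ⁻¹' {p | p.1 ≠ p.2}) :=
      (hd.prodMk hdm).preimage _
    exact h1.union h2
  have hη0 : 0 ≤ η := measureReal_nonneg.trans hη
  have hpres : ∀ f : Fg k, MeasurePreserving (fun y : Bsh G => ga g f y) (bern G ν) (bern G ν) :=
    fun f => inv_bern (G := G) ν (FreeGroup.lift g f)
  have hone : ∀ (j : Bg k W.length) (L : List Bool),
      (bern G ν).real {y | mv (fun c => ga g (nn W c)) L (ga g (bgw W j) y) ∈ E} ≤ η := by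
    intro j L
    obtain ⟨f, hf⟩ := apxC_mv (Y := Bsh G) W g L
    have h1 : {y : Bsh G | mv (fun c => ga g (nn W c)) L (ga g (bgw W j) y) ∈ E} =
        (fun y : Bsh G => ga g (f * bgw W j) y) ⁻¹' E := by
      ext y
      show mv (fun c => ga g (nn W c)) L (ga g (bgw W j) y) ∈ E ↔ ga g (f * bgw W j) y ∈ E
      rw [hf, apxC_ga]
    rw [h1]
    refine le_trans (le_of_eq ?_) hη
    unfold Measure.real
    rw [(hpres _).measure_preimage hEm.nullMeasurableSet]
  have hall : ∀ᵐ y ∂(bern G ν), ∀ j, shrt (fun c => ga g (nn W c)) d r (ga g (bgw W j) y) := by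
    rw [ae_all_iff]
    intro j
    exact (hpres (bgw W j)).quasiMeasurePreserving.ae hs
  set Bad : Set (Bsh G) := ⋃ p ∈ (Finset.univ ×ˢ apxC_ls r : Finset (Bg k W.length × List Bool)),
    {y | mv (fun c => ga g (nn W c)) p.2 (ga g (bgw W p.1) y) ∈ E} with hBad
  have h1 : (bern G ν).real {y | bpat W (ga g) β d (r + 1) y ≠
        bpat W ca β' (cor (fun c => ca (nn W c)) d' r) (r + 1) (tt g q y)} ≤
      (bern G ν).real Bad := by
    refine ENNReal.toReal_mono (measure_ne_top _ _) (measure_mono_ae ?_)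
    filter_upwards [hall] with y hy hne
    by_contra hcon
    refine hne (apxC_pat W g β d r q β' d' y hy fun j L hL => ?_)
    have h2 : mv (fun c => ga g (nn W c)) L (ga g (bgw W j) y) ∉ E := by
      intro h3
      refine hcon (Set.mem_biUnion (x := (j, L)) ?_ h3)
      exact Finset.mem_coe.2 (Finset.mem_product.2 ⟨Finset.mem_univ _, apxC_mem r L hL⟩)
    have h3 : ¬ (β (mv (fun c => ga g (nn W c)) L (ga g (bgw W j) y)) ≠
        β' (tt g q (mv (fun c => ga g (nn W c)) L (ga g (bgw W j) y))) ∨
      d (mv (fun c => ga g (nn W c)) L (ga g (bgw W j) y)) ≠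
        d' (tt g q (mv (fun c => ga g (nn W c)) L (ga g (bgw W j) y)))) := h2
    push Not at h3
    exact h3
  refine h1.trans ((measureReal_biUnion_finset_le _ _).trans ?_)
  refine (Finset.sum_le_sum fun p _ => hone p.1 p.2).trans ?_
  rw [Finset.sum_const, nsmul_eq_mul, Finset.card_product, Finset.card_univ,
    Nat.card_eq_fintype_card]
  push_cast
  refine mul_le_mul_of_nonneg_right (mul_le_mul_of_nonneg_left ?_ (Nat.cast_nonneg _)) hη0
  have h4 : (apxC_ls r).card ≤ 2 ^ (r + 1) := by
    have := apxC_card r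
    omega
  exact_mod_cast h4

end H33.BO
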