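import Pool.Agent.H33.BO.Defs

/-! # BO.LgA : words that are trivial in `G` act trivially except at few points

PROOF. The set of all `f` for which such a `C` exists is a normal subgroup: `C = 0` for `1`; for a product `f g`: if `g v = v` and `f g v ≠ v` then `f v ≠ v`, so the bad set is contained in the union of the bad sets
(`Set.ncard_union_le`); `f⁻¹ v ≠ v` iff `f v ≠ v`; the bad set of `h f h⁻¹` is the image under `ac X h` of the bad set of `f` (`Set.ncard_image_of_injective`). It contains `rel W` with `C = 1`.
Use `Subgroup.normalClosure_le_normal` (or `Subgroup.normalClosure_subset_iff`) for this subgroup. -/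

set_option autoImplicit false

open MeasureTheory

namespace H33.BO

/-- a word that is trivial in the group acts trivially on a finite structure except at few points -/
theorem lg {k : ℕ} (W : Wd k) (f : Fg k) (hf : f ∈ Subgroup.normalClosure {rel W}) :
    ∃ C : ℕ, ∀ (V : Type) [Finite V] (X : Lt k → Equiv.Perm V),
      {v | ac X f v ≠ v}.ncard ≤ C * (defs W X).ncard := by
  let N : Subgroup (Fg k) :=
    { carrier := {f | ∃ C : ℕ, ∀ (V : Type) [Finite V] (X : Lt k → Equiv.Perm V),
        {v | ac X f v ≠ v}.ncard ≤ C * (defs W X).ncard}
      mul_mem' := by
        rintro a b ⟨Ca, ha⟩ ⟨Cb, hb⟩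
        refine ⟨Ca + Cb, ?_⟩
        intro V _ X
        have hsub : {v | ac X (a * b) v ≠ v} ⊆ {v | ac X a v ≠ v} ∪ {v | ac X b v ≠ v} := by
          intro v hv
          by_contra hcon
          have h1 : ac X a v = v := by
            by_contra h2
            exact hcon (Or.inl h2)
          have h3 : ac X b v = v := by
            by_contra h2
            exact hcon (Or.inr h2)
          apply hv
          rw [map_mul, Equiv.Perm.mul_apply, h3, h1]
        have h1 := (Set.ncard_le_ncard hsub (Set.toFinite _)).trans (Set.ncard_union_le _ _)
        have h2 := ha V X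
        have h3 := hb V X
        rw [Nat.add_mul]
        omega
      one_mem' := by
        refine ⟨0, ?_⟩
        intro V _ X
        have : {v | ac X (1 : Fg k) v ≠ v} = ∅ := by
          ext v
          simp
        rw [this]
        simp
      inv_mem' := by
        rintro a ⟨C, ha⟩
        refine ⟨C, ?_⟩
        intro V _ X
        have : {v | ac X a⁻¹ v ≠ v} = {v | ac X a v ≠ v} := by
          ext v
          rw [Set.mem_ofPred_eq, Set.mem_ofPred_eq, map_inv]
          constructor
          · intro h1 h2
            apply h1
            rw [Equiv.Perm.inv_eq_iff_eq]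
            exact h2.symm
          · intro h1 h2
            apply h1
            rw [Equiv.Perm.inv_eq_iff_eq] at h2
            exact h2.symm
        rw [this]
        exact ha V X }
  have hN : N.Normal := by
    constructor
    rintro a ⟨C, ha⟩ b
    refine ⟨C, ?_⟩
    intro V _ X
    have hset : {v | ac X (b * a * b⁻¹) v ≠ v} = (fun v => ac X b v) '' {v | ac X a v ≠ v} := by
      ext v
      constructor
      · intro hv
        refine ⟨(ac X b)⁻¹ v, ?_, ?_⟩
        · intro h1
          apply hv
          have h2 : ac X a ((ac X b)⁻¹ v) = (ac X b)⁻¹ v := h1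
          rw [map_mul, map_mul, map_inv, Equiv.Perm.mul_apply, Equiv.Perm.mul_apply, h2]
          exact (ac X b).apply_symm_apply v
        · exact (ac X b).apply_symm_apply v
      · rintro ⟨u, hu, rfl⟩
        intro h1
        apply hu
        have h3 : (ac X b)⁻¹ (ac X b u) = u := (ac X b).symm_apply_apply u
        rw [map_mul, map_mul, map_inv, Equiv.Perm.mul_apply, Equiv.Perm.mul_apply, h3] at h1
        exact (ac X b).injective h1
    rw [hset, Set.ncard_image_of_injective _ (ac X b).injective]
    exact ha V X
  have hle : Subgroup.normalClosure {rel W} ≤ N := by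
    have := hN
    refine Subgroup.normalClosure_le_normal ?_
    intro x hx
    rw [Set.mem_singleton_iff] at hx
    subst hx
    refine ⟨1, ?_⟩
    intro V _ X
    rw [one_mul]
    exact le_rfl
  exact hle hf

end H33.BO
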