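import Pool.Agent.H33.BO.RepA
import Pool.Agent.H33.BO.LgA

/-! # BO.BBd : number of the bad vertices

PROOF. `{f : Fg k | f.norm ≤ m}` is finite (`toWord` is injective into the lists of length at most `m` over a finite type; `List.finite_length_le`). The first part of `BB` is the union over these `f` of the preimages of `MM` under the permutations `ac (XX W X) f`: at most `card * MM.ncard`. For `f` with `lift (gg W g) f = 1`: `lift g (lift (gw W) f) = 1` (`lift_gw`), so `lift (gw W) f ∈ normalClosure {rel W}` (`hg.ker`), and `lg` gives `C_f` with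
`{v | ac X (lift (gw W) f) v ≠ v}.ncard ≤ C_f * (defs W X).ncard`; `ac_gw`. `C :=` the sum of all `C_f` and the number of the `f`. `fin_norm` is the finiteness. -/

set_option autoImplicit false

open MeasureTheory H31.BE

namespace H33.BO

theorem fin_norm {k : ℕ} (m : ℕ) : {f : Fg k | f.norm ≤ m}.Finite := by
  have h1 : (FreeGroup.toWord '' {f : Fg k | f.norm ≤ m}).Finite := by
    refine (List.finite_length_le (Lt k × Bool) m).subset ?_
    rintro _ ⟨f, hf, rfl⟩
    exact hf
  exact Set.Finite.of_finite_image h1 FreeGroup.toWord_injective.injOn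

private theorem bbd_word {k : ℕ} {G : Type} [Group G] (W : Wd k) (g : Lt k → G) (hg : Pres W g) (f : Fg k) :
    ∃ C : ℕ, FreeGroup.lift (gg W g) f = 1 → ∀ (V : Type) [Finite V] (X : Lt k → Equiv.Perm V),
      {v | ac (XX W X) f v ≠ v}.ncard ≤ C * (defs W X).ncard := by
  by_cases h : FreeGroup.lift (gg W g) f = 1
  · have h1 : FreeGroup.lift (gw W) f ∈ Subgroup.normalClosure {rel W} := by
      rw [← hg.ker, MonoidHom.mem_ker, ← lift_gw, h]
    obtain ⟨C, hC⟩ := lg W _ h1
    refine ⟨C, fun _ V _ X => ?_⟩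
    rw [ac_gw]
    exact hC V X
  · exact ⟨0, fun h' => absurd h' h⟩

theorem bb_bd {k : ℕ} {G : Type} [Group G] (W : Wd k) (g : Lt k → G) (hg : Pres W g) (m : ℕ) :
    ∃ C : ℕ, ∀ (V P : Type) [Finite V] (dir : P → Option Bool) (tl : P → P) (om : V → Bg k W.length → P)
      (X : Lt k → Equiv.Perm V),
      (BB W g dir tl om X m).ncard ≤ C * ((MM W dir tl om X).ncard + (defs W X).ncard) := by
  classical
  choose Cf hCf using bbd_word W g hg
  let F : Finset (Fg k) := (fin_norm (k := k) m).toFinset
  refine ⟨∑ f ∈ F, (Cf f + 1), fun V P _ dir tl om X => ?_⟩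
  let T : Fg k → Set V := fun f => {v | ac (XX W X) f v ∈ MM W dir tl om X} ∪
    {v | FreeGroup.lift (gg W g) f = 1 ∧ ac (XX W X) f v ≠ v}
  have hsub : BB W g dir tl om X m ⊆ ⋃ f ∈ F, T f := by
    intro v hv
    rcases hv with ⟨f, hf, h⟩ | ⟨f, hf, h1, h2⟩
    · refine Set.mem_biUnion (x := f) ?_ (Or.inl h)
      simpa [F] using hf
    · refine Set.mem_biUnion (x := f) ?_ (Or.inr ⟨h1, h2⟩)
      simpa [F] using hf
  have hT : ∀ f, (T f).ncard ≤ (Cf f + 1) * ((MM W dir tl om X).ncard + (defs W X).ncard) := by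
    intro f
    have h1 : {v | ac (XX W X) f v ∈ MM W dir tl om X}.ncard ≤ (MM W dir tl om X).ncard := by
      refine Set.ncard_le_ncard_of_injOn (fun v => ac (XX W X) f v) (fun v hv => hv) ?_ (Set.toFinite _)
      exact (Equiv.injective _).injOn
    have h2 : {v | FreeGroup.lift (gg W g) f = 1 ∧ ac (XX W X) f v ≠ v}.ncard ≤ Cf f * (defs W X).ncard := by
      by_cases h : FreeGroup.lift (gg W g) f = 1
      · refine le_trans (Set.ncard_le_ncard (fun v hv => ?_) (Set.toFinite _)) (hCf f h V X)
        exact hv.2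
      · have : {v | FreeGroup.lift (gg W g) f = 1 ∧ ac (XX W X) f v ≠ v} = ∅ := by
          ext v
          simp [h]
        rw [this]
        simp
    have h3 := Set.ncard_union_le {v | ac (XX W X) f v ∈ MM W dir tl om X}
      {v | FreeGroup.lift (gg W g) f = 1 ∧ ac (XX W X) f v ≠ v}
    calc (T f).ncard ≤ _ := h3
      _ ≤ (MM W dir tl om X).ncard + Cf f * (defs W X).ncard := add_le_add h1 h2
      _ ≤ _ := by
        have : (Cf f + 1) * ((MM W dir tl om X).ncard + (defs W X).ncard) =
          (MM W dir tl om X).ncard + Cf f * (defs W X).ncard +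
            (Cf f * (MM W dir tl om X).ncard + (defs W X).ncard) := by ring
        rw [this]
        exact Nat.le_add_right _ _
  calc (BB W g dir tl om X m).ncard ≤ (⋃ f ∈ F, T f).ncard := Set.ncard_le_ncard hsub (Set.toFinite _)
    _ ≤ ∑ f ∈ F, (T f).ncard := F.set_ncard_biUnion_le T
    _ ≤ ∑ f ∈ F, (Cf f + 1) * ((MM W dir tl om X).ncard + (defs W X).ncard) :=
      Finset.sum_le_sum fun f _ => hT f
    _ = _ := by rw [Finset.sum_mul]

end H33.BO
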