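import Pool.Agent.H33.BO.Defs2

/-! # BO.BagT : transport of patterns inside the bag

PROOF. If `v ∉ Mis`: `tgt s (om (X s v)) = src s (om v)` for all letters `s`, i.e. `om (X s v) j = om v i` for all `(i, j) ∈ ifc W s`. (E) `om (ac X (wf (W.take j)) v) e_0 = om v e_j` for `j ≤ l` if the following `j` positions are not in `Mis`: let `v_m := ac X (wf ((W.take j).drop m)) v`, `m = j, .., 0`, `v_j = v`, `v_m = sl W[m] v_(m+1)`: `om v_m e_m = om v_(m+1) e_(m+1)` (the edge at `v_(m+1)` if `W[m] = (i, true)`, at `v_m`
if `W[m] = (i, false)`). x_i: edge at `v`: `om (x_i v) e_0 = om v (x_i)`. c3: `om (a v) e_0 = om v c3` (edge a at `v`). c1: `om (b v) el = om v c1` (edge b at `v`), then (E) with `j = l` at `b v`. c2: `om (b v) c3 = om v c2` and `om (a b v) e_0 = om (b v) c3`. Direction `some true` (N_B = W b): `om (W b v) e_0 = om v c1 = tl (om v e_0)` (l1). Direction `some false` (N_A = a W⁻¹): let `u = W⁻¹ v`: by (E) for `u`, `j = l`: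
`om v e_0 = om u el`, so `dir (om u el) = some false`, `om u c3 = tl (om u el) = tl (om v e_0)` (l2), and `om (a u) e_0 = om u c3` (edge a at `u`). All the positions are images of `v` under permutations; their number is at most `l (l + 1) / 2 + 1 + (l + 1) + 2 + (l + 1) ≤ (l + 3)^2`. So `MM` is contained in the union of `(l + 3)^2` preimages of `Mis` under permutations. -/

set_option autoImplicit false

open MeasureTheory H31.BE

namespace H33.BO

private theorem BagT_edge {k : ℕ} (W : Wd k) {V P : Type} (om : V → Bg k W.length → P)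
    (X : Lt k → Equiv.Perm V) {v : V} (hv : v ∉ Mis W om X) (s : Lt k)
    (p : Bg k W.length × Bg k W.length) (hp : p ∈ ifc W s) : om (X s v) p.2 = om v p.1 := by
  by_contra h
  exact hv ⟨s, fun he => h (congr_fun he ⟨p, hp⟩)⟩

private theorem BagT_wedge {k : ℕ} (W : Wd k) {V P : Type} (om : V → Bg k W.length → P)
    (X : Lt k → Equiv.Perm V) (m : ℕ) (hm : m < W.length) (u : V) (hu : u ∉ Mis W om X)
    (hu' : ac X (sl W[m]) u ∉ Mis W om X) :
    om (ac X (sl W[m]) u) (Sum.inl ⟨m, Nat.lt_succ_of_lt hm⟩) =
      om u (Sum.inl ⟨m + 1, Nat.succ_lt_succ hm⟩) := by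
  obtain ⟨⟨i, b⟩, hib⟩ : ∃ p, p = W[m] := ⟨_, rfl⟩
  have hmem : (if b then
      ((Sum.inl (⟨m, hm⟩ : Fin W.length).succ : Bg k W.length),
        (Sum.inl (⟨m, hm⟩ : Fin W.length).castSucc : Bg k W.length))
      else ((Sum.inl (⟨m, hm⟩ : Fin W.length).castSucc : Bg k W.length),
        (Sum.inl (⟨m, hm⟩ : Fin W.length).succ : Bg k W.length))) ∈ ifc W (some (some i)) := by
    unfold ifc
    refine Finset.mem_insert_of_mem (Finset.mem_image.2 ⟨⟨m, hm⟩, ?_, ?_⟩)
    · simp only [Finset.mem_filter, Finset.mem_univ, true_and, List.get_eq_getElem]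
      rw [← hib]
    · have h2 : (W.get ⟨m, hm⟩).2 = b := by
        rw [List.get_eq_getElem, ← hib]
      simp only [h2]
  rw [← hib] at hu' ⊢
  cases b with
  | true =>
    have h1 : ac X (sl (i, true)) = X (some (some i)) := by simp [sl, xx, ac]
    rw [h1]
    simp only [if_true] at hmem
    exact BagT_edge W om X hu (some (some i)) _ hmem
  | false =>
    have h1 : ac X (sl (i, false)) = (X (some (some i)))⁻¹ := by simp [sl, xx, ac]
    rw [h1] at hu' ⊢
    simp only [Bool.false_eq_true, if_false] at hmem
    have h2 := BagT_edge W om X hu' (some (some i)) _ hmem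
    rw [show (X (some (some i))) ((X (some (some i)))⁻¹ u) = u from Equiv.apply_symm_apply _ _] at h2
    exact h2.symm

private theorem BagT_E {k : ℕ} (W : Wd k) {V P : Type} (om : V → Bg k W.length → P)
    (X : Lt k → Equiv.Perm V) (v : V) (j : ℕ) (hj : j ≤ W.length)
    (hgood : ∀ m ≤ j, ac X (wf ((W.take j).drop m)) v ∉ Mis W om X) (d : ℕ) (hd : d ≤ j) :
    om (ac X (wf ((W.take j).drop (j - d))) v) (Sum.inl ⟨j - d, by omega⟩) =
      om v (Sum.inl ⟨j, by omega⟩) := by
  induction d with
  | zero =>
    have h1 : (W.take j).drop (j - 0) = [] := by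
      apply List.drop_eq_nil_of_le
      simp
    rw [h1]
    simp [wf]
  | succ d ih =>
    have ih' := ih (by omega)
    have hlt : j - (d + 1) < (W.take j).length := by
      rw [List.length_take]
      omega
    have hlt' : j - (d + 1) < W.length := by omega
    have e1 : j - (d + 1) + 1 = j - d := by omega
    have h1 : (W.take j).drop (j - (d + 1)) = W[j - (d + 1)] :: (W.take j).drop (j - d) := by
      rw [List.drop_eq_getElem_cons hlt, e1, List.getElem_take]
    have h2 : wf ((W.take j).drop (j - (d + 1))) =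
        sl W[j - (d + 1)] * wf ((W.take j).drop (j - d)) := by
      rw [h1]
      simp [wf]
    have g1 := hgood (j - (d + 1)) (by omega)
    have g2 := hgood (j - d) (by omega)
    rw [h2, map_mul, Equiv.Perm.mul_apply] at g1 ⊢
    have h3 := BagT_wedge W om X (j - (d + 1)) hlt' _ g2 g1
    rw [h3]
    have h4 : (⟨j - (d + 1) + 1, Nat.succ_lt_succ hlt'⟩ : Fin (W.length + 1)) =
        ⟨j - d, by omega⟩ := by
      apply Fin.ext
      exact e1
    rw [h4]
    exact ih'

private theorem BagT_E0 {k : ℕ} (W : Wd k) {V P : Type} (om : V → Bg k W.length → P)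
    (X : Lt k → Equiv.Perm V) (v : V) (j : ℕ) (hj : j ≤ W.length)
    (hgood : ∀ m ≤ j, ac X (wf ((W.take j).drop m)) v ∉ Mis W om X) :
    om (ac X (wf (W.take j)) v) (e0 k W.length) = om v (Sum.inl ⟨j, by omega⟩) := by
  have h := BagT_E W om X v j hj hgood j le_rfl
  have h1 : (⟨j - j, by omega⟩ : Fin (W.length + 1)) = 0 := by
    apply Fin.ext
    simp
  rw [h1, Nat.sub_self, List.drop_zero] at h
  exact h

/-- the index set of the positions -/
private abbrev BagT_I (l : ℕ) : Type := (Fin (l + 1) × Fin (l + 1)) ⊕ (Fin (l + 1) ⊕ Fin (l + 1))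

/-- the words of the positions -/
private def BagT_w {k : ℕ} (W : Wd k) : BagT_I W.length → Fg k
  | Sum.inl p => wf ((W.take p.1).drop p.2)
  | Sum.inr (Sum.inl m) => wf (W.drop m) * bb k
  | Sum.inr (Sum.inr m) => wf (W.drop m) * (wf W)⁻¹

theorem mm_bd {k : ℕ} (W : Wd k) {V P : Type} [Finite V] (dir : P → Option Bool) (tl : P → P)
    (om : V → Bg k W.length → P) (hsup : ∀ v, Sup dir tl (om v)) (X : Lt k → Equiv.Perm V) :
    (MM W dir tl om X).ncard ≤ (W.length + 3) ^ 2 * (Mis W om X).ncard := by
  classical
  have hsub : MM W dir tl om X ⊆ ⋃ i : BagT_I W.length, (ac X (BagT_w W i)) ⁻¹' (Mis W om X) := by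
    intro v hv
    by_contra hno
    have hno' : ∀ i : BagT_I W.length, ac X (BagT_w W i) v ∉ Mis W om X := by
      intro i hi
      exact hno (Set.mem_iUnion.2 ⟨i, hi⟩)
    -- the positions
    have hE : ∀ j ≤ W.length, ∀ m ≤ j, ac X (wf ((W.take j).drop m)) v ∉ Mis W om X := by
      intro j hj m hm
      exact hno' (Sum.inl (⟨j, by omega⟩, ⟨m, by omega⟩))
    have hB : ∀ m ≤ W.length, ac X (wf (W.drop m)) (ac X (bb k) v) ∉ Mis W om X := by
      intro m hm
      have h := hno' (Sum.inr (Sum.inl ⟨m, by omega⟩))
      simp only [BagT_w, map_mul, Equiv.Perm.mul_apply] at h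
      exact h
    have hA : ∀ m ≤ W.length, ac X (wf (W.drop m)) ((ac X (wf W))⁻¹ v) ∉ Mis W om X := by
      intro m hm
      have h := hno' (Sum.inr (Sum.inr ⟨m, by omega⟩))
      simp only [BagT_w, map_mul, map_inv, Equiv.Perm.mul_apply] at h
      exact h
    have hv0 : v ∉ Mis W om X := by
      have h := hE 0 (Nat.zero_le _) 0 le_rfl
      simpa [wf] using h
    have haa : ac X (aa k) = X none := by simp [aa, ac]
    have hbb : ac X (bb k) = X (some none) := by simp [bb, ac]
    have hb0 : ac X (bb k) v ∉ Mis W om X := by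
      have h := hB W.length le_rfl
      simpa [wf] using h
    have hu0 : (ac X (wf W))⁻¹ v ∉ Mis W om X := by
      have h := hA W.length le_rfl
      simpa [wf] using h
    have hc1 : om (ac X (wf W * bb k) v) (e0 k W.length) = om v (c1 k W.length) := by
      rw [map_mul, Equiv.Perm.mul_apply]
      have h1 := BagT_E0 W om X (ac X (bb k) v) W.length le_rfl (by
        intro m hm
        rw [List.take_length]
        exact hB m hm)
      rw [List.take_length] at h1
      rw [h1, hbb]
      exact BagT_edge W om X hv0 (some none) (c1 k W.length, el k W.length) (by simp [ifc])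
    have hc3 : ∀ u, u ∉ Mis W om X → om (ac X (aa k) u) (e0 k W.length) = om u (c3 k W.length) := by
      intro u hu
      rw [haa]
      exact BagT_edge W om X hu none (c3 k W.length, e0 k W.length) (by simp [ifc])
    rcases hv with ⟨j, hj⟩ | ⟨c, hc, hcn⟩
    · apply hj
      rcases j with j | i | i
      · have h := BagT_E0 W om X v j (by omega) (hE j (by omega))
        exact h
      · change om (ac X (xx i) v) (e0 k W.length) = om v (Sum.inr (Sum.inl i))
        have h1 : ac X (xx i) = X (some (some i)) := by simp [xx, ac]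
        rw [h1]
        exact BagT_edge W om X hv0 (some (some i)) (Sum.inr (Sum.inl i), e0 k W.length)
          (by simp [ifc])
      · fin_cases i
        · exact hc1
        · change om (ac X (aa k * bb k) v) (e0 k W.length) = om v (c2 k W.length)
          rw [map_mul, Equiv.Perm.mul_apply, hc3 _ hb0, hbb]
          exact BagT_edge W om X hv0 (some none) (c2 k W.length, c3 k W.length) (by simp [ifc])
        · exact hc3 v hv0
    · apply hcn
      cases c with
      | true =>
        change om (ac X (wf W * bb k) v) (e0 k W.length) = tl (om v (e0 k W.length))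
        rw [hc1]
        exact (hsup v).l1 hc
      | false =>
        change om (ac X (aa k * (wf W)⁻¹) v) (e0 k W.length) = tl (om v (e0 k W.length))
        rw [map_mul, map_inv, Equiv.Perm.mul_apply]
        have h1 := BagT_E0 W om X ((ac X (wf W))⁻¹ v) W.length le_rfl (by
          intro m hm
          rw [List.take_length]
          exact hA m hm)
        rw [List.take_length, show (ac X (wf W)) ((ac X (wf W))⁻¹ v) = v from
          Equiv.apply_symm_apply _ _] at h1
        change om v (e0 k W.length) = om ((ac X (wf W))⁻¹ v) (el k W.length) at h1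
        rw [hc3 _ hu0]
        rw [h1] at hc ⊢
        exact (hsup _).l2 hc
  calc (MM W dir tl om X).ncard
      ≤ (⋃ i : BagT_I W.length, (ac X (BagT_w W i)) ⁻¹' (Mis W om X)).ncard :=
        Set.ncard_le_ncard hsub (Set.toFinite _)
    _ ≤ ∑ i : BagT_I W.length, ((ac X (BagT_w W i)) ⁻¹' (Mis W om X)).ncard :=
        Set.ncard_iUnion_le_of_fintype _
    _ = ∑ _i : BagT_I W.length, (Mis W om X).ncard := by
        refine Finset.sum_congr rfl fun i _ => ?_
        rw [Set.ncard_def, Set.encard_preimage_of_bijective (ac X (BagT_w W i)).bijective,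
          ← Set.ncard_def]
    _ = Fintype.card (BagT_I W.length) * (Mis W om X).ncard := by
        rw [Finset.sum_const, Finset.card_univ, smul_eq_mul]
    _ ≤ (W.length + 3) ^ 2 * (Mis W om X).ncard := by
        refine Nat.mul_le_mul_right _ ?_
        simp only [Fintype.card_sum, Fintype.card_prod, Fintype.card_fin]
        nlinarith

end H33.BO
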