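import Pool.Agent.H33.BO.Defs

/-! # BO.Brit : reduction to a form without pinches (easy half of Britton's lemma)

PROOF. Write `f ~ g` for `f⁻¹ * g ∈ normalClosure {rel W}` (equality in the quotient group; use `QuotientGroup.eq` or a homomorphism to the quotient `Fg k ⧸ normalClosure {rel W}`). The set of the `f` with such a form contains 1 (`h0 = 1`, `L = []`) and is closed under left multiplication by letters and inverse letters (every element of the free group is a product:
`FreeGroup.induction_on` in the form for left multiplication, or induction on `f.toWord`). Letters b, x_i: `h0` is replaced by `of t * h0` (or inverse): `io (of t) = of (some t)`. Letter `a^(±1)`, sign `c`: if `L = []`: new form `1, [(c, h0)]`. If `L = (c1, h1) :: L'`: new form `1, (c, h0) :: L` if `c = c1` or `h0 ∉ zpowers (if c1 then wb0 W else of none)`.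
Otherwise `c ≠ c1` and `h0 = p^s` with `p = wb0 W` (if `c1 = true`, so `c = false`) or `p = of none` (if `c1 = false`, `c = true`): `a⁻¹ (W b)^s a ~ b^s`, `a b^s a⁻¹ ~ (W b)^s` (from `rel W ~ 1`: `a b a⁻¹ ~ W b`; `io (wb0 W) = wf W * bb k`, by induction on the list `W`), so `sgn a c * io h0 * sgn a c1 * io h1 * .. ~ io (p'^s * h1) * (rest)`:
new form `h0' = p'^s * h1`, `L'` (`rdc` of the tail). -/

set_option autoImplicit false

open MeasureTheory

namespace H33.BO

theorem io_wb0 {k : ℕ} (W : Wd k) : io (wb0 W) = wf W * bb k := by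
  have h1 : ∀ W : Wd k, io ((W.map sl0).prod) = wf W := by
    intro W
    induction W with
    | nil => simp [wf]
    | cons p W ih =>
      rw [List.map_cons, List.prod_cons, map_mul, ih, wf, wf, List.map_cons, List.prod_cons]
      congr 1
      unfold sl0 sl
      split_ifs
      · simp [io, xx]
      · simp [io, xx]
  rw [wb0, map_mul, h1]
  simp [io, bb]

private theorem fm_cons {k : ℕ} (h0 : FreeGroup (T0 k)) (c : Bool) (h : FreeGroup (T0 k))
    (L : List (Bool × FreeGroup (T0 k))) :
    fm h0 ((c, h) :: L) = io h0 * (sgn (aa k) c * fm h L) := by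
  simp [fm, mul_assoc]

private theorem fm_mul {k : ℕ} (g h0 : FreeGroup (T0 k)) (L : List (Bool × FreeGroup (T0 k))) :
    io g * fm h0 L = fm (g * h0) L := by
  simp [fm, mul_assoc]

private theorem rdc_tail {k : ℕ} {W : Wd k} {p : Bool × FreeGroup (T0 k)}
    {L : List (Bool × FreeGroup (T0 k))} (h : rdc W (p :: L)) : rdc W L := by
  cases L with
  | nil => trivial
  | cons q L => exact h.2

private theorem pinch {k : ℕ} (W : Wd k) {Q : Type*} [Group Q] (π : Fg k →* Q) (hr : π (rel W) = 1)
    (c c1 : Bool) (hc : c ≠ c1) (h0 : FreeGroup (T0 k))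
    (hh : h0 ∈ Subgroup.zpowers (if c1 then wb0 W else FreeGroup.of none)) :
    ∃ h1 : FreeGroup (T0 k), π (sgn (aa k) c) * (π (io h0) * π (sgn (aa k) c1)) = π (io h1) := by
  obtain ⟨s, rfl⟩ := Subgroup.mem_zpowers_iff.1 hh
  have hb : io (FreeGroup.of none : FreeGroup (T0 k)) = bb k := by simp [io, bb]
  have key : π (io (wb0 W)) = π (aa k) * π (bb k) * (π (aa k))⁻¹ := by
    have h2 : π (aa k) * π (bb k) = π (io (wb0 W)) * π (aa k) := by
      have h3 := hr
      rw [rel, map_mul, map_inv, map_mul, map_mul, mul_inv_eq_one, ← io_wb0] at h3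
      exact h3
    rw [h2]; group
  cases c1 with
  | true =>
    have hc' : c = false := by simpa using hc
    subst hc'
    refine ⟨(FreeGroup.of none) ^ s, ?_⟩
    simp only [if_true, sgn, map_zpow, map_inv, key, conj_zpow, hb]
    simp only [Bool.false_eq_true, if_false, map_inv]
    group
  | false =>
    have hc' : c = true := by simpa using hc
    subst hc'
    refine ⟨(wb0 W) ^ s, ?_⟩
    simp only [if_true, sgn, map_zpow, map_inv, key, conj_zpow, hb]
    simp only [Bool.false_eq_true, if_false, map_inv, map_zpow, hb]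
    group

private theorem stepA {k : ℕ} (W : Wd k) {Q : Type*} [Group Q] (π : Fg k →* Q) (hr : π (rel W) = 1)
    (c : Bool) (h0 : FreeGroup (T0 k)) (L : List (Bool × FreeGroup (T0 k))) (hL : rdc W L) :
    ∃ (h0' : FreeGroup (T0 k)) (L' : List (Bool × FreeGroup (T0 k))), rdc W L' ∧
      π (sgn (aa k) c * fm h0 L) = π (fm h0' L') := by
  have triv' : π (sgn (aa k) c * fm h0 L) = π (fm 1 ((c, h0) :: L)) := by
    rw [fm_cons, map_one, one_mul]
  cases L with
  | nil => exact ⟨1, [(c, h0)], trivial, triv'⟩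
  | cons q L =>
    obtain ⟨c1, h1⟩ := q
    by_cases hp : c ≠ c1 ∧ h0 ∈ Subgroup.zpowers (if c1 then wb0 W else FreeGroup.of none)
    · obtain ⟨h2, h3⟩ := pinch W π hr c c1 hp.1 h0 hp.2
      refine ⟨h2 * h1, L, rdc_tail hL, ?_⟩
      rw [fm_cons, ← fm_mul, map_mul π (io h2), ← h3]
      simp only [map_mul, mul_assoc]
    · refine ⟨1, (c, h0) :: (c1, h1) :: L, ⟨fun h4 h5 => hp ⟨h4, h5⟩, hL⟩, triv'⟩

theorem brit {k : ℕ} (W : Wd k) (f : Fg k) :
    ∃ (h0 : FreeGroup (T0 k)) (L : List (Bool × FreeGroup (T0 k))), rdc W L ∧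
      f⁻¹ * fm h0 L ∈ Subgroup.normalClosure {rel W} := by
  have hr : QuotientGroup.mk' (Subgroup.normalClosure {rel W}) (rel W) = 1 := by
    rw [QuotientGroup.mk'_apply, QuotientGroup.eq_one_iff]
    exact Subgroup.subset_normalClosure rfl
  suffices H : ∃ (h0 : FreeGroup (T0 k)) (L : List (Bool × FreeGroup (T0 k))), rdc W L ∧
      QuotientGroup.mk' (Subgroup.normalClosure {rel W}) f =
        QuotientGroup.mk' (Subgroup.normalClosure {rel W}) (fm h0 L) by
    obtain ⟨h0, L, h1, h2⟩ := H
    exact ⟨h0, L, h1, QuotientGroup.eq.1 h2⟩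
  generalize QuotientGroup.mk' (Subgroup.normalClosure {rel W}) = π at hr
  have key : ∀ l : List (Lt k × Bool), ∃ (h0 : FreeGroup (T0 k)) (L : List (Bool × FreeGroup (T0 k))),
      rdc W L ∧ π (FreeGroup.mk l) = π (fm h0 L) := by
    intro l
    induction l with
    | nil => exact ⟨1, [], trivial, by simp [fm, ← FreeGroup.one_eq_mk]⟩
    | cons p l ih =>
      obtain ⟨h0, L, h1, h2⟩ := ih
      obtain ⟨t, e⟩ := p
      have h3 : (FreeGroup.mk ((t, e) :: l) : Fg k) = FreeGroup.mk [(t, e)] * FreeGroup.mk l := by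
        rw [FreeGroup.mul_mk]; rfl
      rw [h3, map_mul, h2, ← map_mul]
      have h4 : (FreeGroup.mk [(t, e)] : Fg k) = sgn (FreeGroup.of t) e := by
        cases e with
        | true => rfl
        | false => simp [sgn, FreeGroup.of, FreeGroup.inv_mk, FreeGroup.invRev]
      rw [h4]
      cases t with
      | none => exact stepA W π hr e h0 L h1
      | some t =>
        refine ⟨sgn (FreeGroup.of t) e * h0, L, h1, ?_⟩
        rw [← fm_mul]
        have h5 : io (sgn (FreeGroup.of t : FreeGroup (T0 k)) e) = sgn (FreeGroup.of (some t)) e := by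
          cases e <;> simp [sgn, io]
        rw [h5]
  have := key f.toWord
  rwa [FreeGroup.mk_toWord] at this

end H33.BO
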