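import Pool.Agent.H33.BO.Defs
import Pool.Agent.H31.BE.EntA
import Pool.Agent.H31.BE.EntB
import Pool.Agent.H31.BE.EntC

/-! # BO.CcvA : concavity of the conditional entropy

PROOF. `p a v b := Q.real {f v = a ∧ g v = b} / n ≥ 0`. `∫ emp (fun v => (f ω v, g ω v)) (a, b) = ∑ v, p a v b` (`emp` is the number of `v` with the value `(a, b)` divided by `n`; integral of a finite sum of indicator functions; the functions are bounded and measurable by `hf`, `hg`). `sub_fin` for `p a v b`: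
`∑ a v b, η (p a v b) + ∑ b, η (∑ a v, p) ≤ ∑ a b, η (∑ v, p) + ∑ v b, η (∑ a, p)`. With `η (x / n) = η x / n + x log n / n` the first minus the last sum is `(1/n) ∑ v, entc Q (f v) (g v)` (the terms with `log n` cancel: both sums of `p` are equal to 1; `ent_eq`, `Fintype.sum_prod_type`; `Q.real (g v ⁻¹' {b}) = ∑ a, Q.real {f v = a ∧ g v = b}`). -/

set_option autoImplicit false

open MeasureTheory H31.BE

namespace H33.BO

private theorem eta_div (x c : ℝ) (hc : 0 < c) :
    Real.negMulLog (x / c) = Real.negMulLog x / c + x * (Real.log c / c) := by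
  unfold Real.negMulLog
  rcases eq_or_ne x 0 with rfl | hx
  · simp
  · rw [Real.log_div hx hc.ne']
    field_simp
    ring

private theorem int_emp {Ω α β : Type} [MeasurableSpace Ω] (Q : Measure Ω) [IsProbabilityMeasure Q]
    [Fintype α] [Fintype β] (n : ℕ) (f : Ω → Fin n → α) (g : Ω → Fin n → β)
    (hf : ∀ v, Fm (fun ω => f ω v)) (hg : ∀ v, Fm (fun ω => g ω v)) (a : α) (b : β) :
    ∫ ω, emp (fun v => (f ω v, g ω v)) (a, b) ∂Q =
      ∑ v, Q.real ((fun ω => (f ω v, g ω v)) ⁻¹' {(a, b)}) / n := by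
  classical
  have hS : ∀ v, MeasurableSet ((fun ω => (f ω v, g ω v)) ⁻¹' {(a, b)}) := fun v =>
    ((hf v).prodMk (hg v)) (a, b)
  have h1 : ∀ ω, emp (fun v => (f ω v, g ω v)) (a, b) =
      (∑ v, ((fun ω => (f ω v, g ω v)) ⁻¹' {(a, b)}).indicator (fun _ => (1 : ℝ)) ω) / n := by
    intro ω
    unfold emp
    rw [Nat.card_eq_fintype_card, Nat.card_eq_fintype_card, Fintype.card_fin, Fintype.card_subtype,
      Finset.card_filter]
    push_cast
    congr 1
    refine Finset.sum_congr rfl fun v _ => ?_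
    by_cases h : (f ω v, g ω v) = (a, b)
    · have h' : ω ∈ (fun ω => (f ω v, g ω v)) ⁻¹' {(a, b)} := h
      rw [if_pos h, Set.indicator_of_mem h']
    · have h' : ω ∉ (fun ω => (f ω v, g ω v)) ⁻¹' {(a, b)} := h
      rw [if_neg h, Set.indicator_of_notMem h']
  simp_rw [h1]
  rw [integral_div, integral_finsetSum, Finset.sum_div]
  · refine Finset.sum_congr rfl fun v _ => ?_
    rw [integral_indicator_const _ (hS v)]
    simp
  · intro v _
    exact (integrable_const (1 : ℝ)).indicator (hS v)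

theorem ccv {Ω α β : Type} [MeasurableSpace Ω] (Q : Measure Ω) [IsProbabilityMeasure Q] [Fintype α] [Fintype β]
    (n : ℕ) (hn : 1 ≤ n) (f : Ω → Fin n → α) (g : Ω → Fin n → β) (hf : ∀ v, Fm (fun ω => f ω v))
    (hg : ∀ v, Fm (fun ω => g ω v)) :
    ∑ v, entc Q (fun ω => f ω v) (fun ω => g ω v) ≤
      n * ((∑ a, ∑ b, Real.negMulLog (∫ ω, emp (fun v => (f ω v, g ω v)) (a, b) ∂Q)) -
        ∑ b, Real.negMulLog (∑ a, ∫ ω, emp (fun v => (f ω v, g ω v)) (a, b) ∂Q)) := by
  classical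
  have hn' : (0 : ℝ) < n := by exact_mod_cast hn
  set q : α → Fin n → β → ℝ := fun a v b => Q.real ((fun ω => (f ω v, g ω v)) ⁻¹' {(a, b)}) with hq
  have hq0 : ∀ a v b, 0 ≤ q a v b := fun a v b => measureReal_nonneg
  have hsub := sub_fin (fun a v b => q a v b / n) (fun a v b => div_nonneg (hq0 a v b) hn'.le)
  have hint : ∀ a b, ∫ ω, emp (fun v => (f ω v, g ω v)) (a, b) ∂Q = ∑ v, q a v b / n :=
    fun a b => int_emp Q n f g hf hg a b
  have hmar : ∀ v b, ∑ a, q a v b = Q.real ((fun ω => g ω v) ⁻¹' {b}) := by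
    intro v b
    rw [hq]
    have h1 : (fun ω => g ω v) ⁻¹' {b} = ⋃ a ∈ (Finset.univ : Finset α),
        ((fun ω => (f ω v, g ω v)) ⁻¹' {(a, b)}) := by
      ext ω
      simp
    rw [h1, measureReal_biUnion_finset]
    · intro a _ a' _ haa
      refine Set.disjoint_left.2 fun ω h2 h3 => haa ?_
      simp only [Set.mem_preimage, Set.mem_singleton_iff, Prod.mk.injEq] at h2 h3
      rw [← h2.1, h3.1]
    · intro a _
      exact ((hf v).prodMk (hg v)) (a, b)
  have hent1 : ∑ v, ent Q (fun ω => (f ω v, g ω v)) = ∑ a, ∑ v, ∑ b, Real.negMulLog (q a v b) := by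
    rw [Finset.sum_comm]
    refine Finset.sum_congr rfl fun v _ => ?_
    rw [ent_eq, Fintype.sum_prod_type]
  have hent2 : ∑ v, ent Q (fun ω => g ω v) = ∑ v, ∑ b, Real.negMulLog (∑ a, q a v b) := by
    refine Finset.sum_congr rfl fun v _ => ?_
    rw [ent_eq]
    refine Finset.sum_congr rfl fun b _ => ?_
    rw [hmar]
  have hA : ∑ a, ∑ v, ∑ b, Real.negMulLog (q a v b / n) =
      (∑ a, ∑ v, ∑ b, Real.negMulLog (q a v b)) / n +
        (∑ a, ∑ v, ∑ b, q a v b) * (Real.log n / n) := by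
    simp_rw [eta_div _ _ hn', Finset.sum_add_distrib, ← Finset.sum_mul, ← Finset.sum_div]
  have hB : ∑ v, ∑ b, Real.negMulLog (∑ a, q a v b / n) =
      (∑ v, ∑ b, Real.negMulLog (∑ a, q a v b)) / n +
        (∑ v, ∑ b, ∑ a, q a v b) * (Real.log n / n) := by
    simp_rw [← Finset.sum_div, eta_div _ _ hn', Finset.sum_add_distrib, ← Finset.sum_mul, ← Finset.sum_div]
  have hC : ∑ a, ∑ v, ∑ b, q a v b = ∑ v, ∑ b, ∑ a, q a v b := by
    rw [Finset.sum_comm]
    refine Finset.sum_congr rfl fun v _ => ?_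
    rw [Finset.sum_comm]
  simp_rw [hint]
  simp only [entc, Finset.sum_sub_distrib]
  rw [hent1, hent2]
  rw [hA, hB, hC] at hsub
  have h5 : (∑ a, ∑ v, ∑ b, Real.negMulLog (q a v b)) / n - (∑ v, ∑ b, Real.negMulLog (∑ a, q a v b)) / n ≤
      (∑ a, ∑ b, Real.negMulLog (∑ v, q a v b / n)) - ∑ b, Real.negMulLog (∑ a, ∑ v, q a v b / n) := by
    linarith
  rw [← sub_div, div_le_iff₀ hn'] at h5
  linarith

end H33.BO
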