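import Pool.Agent.H33.BO.CntU
import Pool.Agent.H31.BE.EntD

/-! # BO.ChA : entropy of an almost action

PROOF. `ent_le_cost` with `f := σ`, `bb ω := ((ug W (σ ω))ᶜ).ncard ≤ n`, `A := (k+1) log n! + n`, `B := C log (n+1)`: if `0 < Q.real (σ ⁻¹' {a} ∩ bb ⁻¹' {j})` then `((ug W a)ᶜ).ncard = j`; so the set is contained in the set of `cntU`. -/

set_option autoImplicit false

open MeasureTheory H31.BE

namespace H33.BO

theorem chA {k : ℕ} (W : Wd k) : ∃ C : ℕ, ∀ (n : ℕ), 1 ≤ n → ∀ (Ω : Type) [Finite Ω] [MeasurableSpace Ω]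
    [DiscreteMeasurableSpace Ω] (Q : Measure Ω) [IsProbabilityMeasure Q]
    (σ : Ω → Lt k × Bool → Fin n → Fin n),
    ent Q σ ≤ ((k : ℝ) + 1) * Real.log n.factorial + n + Real.log (n + 1) +
      C * Real.log (n + 1) * ∫ ω, (((ug W (σ ω))ᶜ).ncard : ℝ) ∂Q := by
  obtain ⟨C, hC⟩ := cntU W
  refine ⟨C, fun n hn Ω _ _ _ Q _ σ => ?_⟩
  have hlog : (0 : ℝ) ≤ Real.log (n + 1) := Real.log_nonneg (by
    have : (0 : ℝ) ≤ n := Nat.cast_nonneg n
    linarith)
  have hfac : (0 : ℝ) ≤ Real.log n.factorial := Real.log_nonneg (by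
    exact_mod_cast Nat.one_le_iff_ne_zero.2 (Nat.factorial_ne_zero n))
  have h1 := ent_le_cost (P := Q) (f := σ) (fun _ => MeasurableSet.of_discrete) n
    (fun ω => ((ug W (σ ω))ᶜ).ncard) (fun _ => MeasurableSet.of_discrete)
    (fun ω => by
      calc ((ug W (σ ω))ᶜ).ncard ≤ Nat.card (Fin n) := Set.ncard_le_card _
        _ = n := by simp)
    (((k : ℝ) + 1) * Real.log n.factorial + n) (C * Real.log (n + 1)) (by positivity) (by positivity)
    (fun j => by
      have h2 : {a | 0 < Q.real (σ ⁻¹' {a} ∩ (fun ω => ((ug W (σ ω))ᶜ).ncard) ⁻¹' {j})} ⊆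
          {f : Lt k × Bool → Fin n → Fin n | ((ug W f)ᶜ).ncard ≤ j} := by
        intro a ha
        rw [Set.mem_setOf_eq] at ha ⊢
        by_contra hcon
        have h3 : σ ⁻¹' {a} ∩ (fun ω => ((ug W (σ ω))ᶜ).ncard) ⁻¹' {j} = ∅ := by
          rw [Set.eq_empty_iff_forall_notMem]
          rintro ω ⟨h4, h5⟩
          rw [Set.mem_preimage, Set.mem_singleton_iff] at h4 h5
          rw [h4] at h5
          exact hcon h5.le
        rw [h3] at ha
        simp at ha
      have h6 : ({a | 0 < Q.real (σ ⁻¹' {a} ∩ (fun ω => ((ug W (σ ω))ᶜ).ncard) ⁻¹' {j})}.ncard : ℝ) ≤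
          ({f : Lt k × Bool → Fin n → Fin n | ((ug W f)ᶜ).ncard ≤ j}.ncard : ℝ) := by
        exact_mod_cast Set.ncard_le_ncard h2 (Set.toFinite _)
      refine h6.trans ((hC n j hn).trans (le_of_eq ?_))
      congr 1
      ring)
  linarith

end H33.BO
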