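import Pool.Agent.H33.BO.Defs2
import Pool.Agent.H31.BE.EntE
import Pool.Agent.H31.BE.EntF

/-! # BO.ChB : entropy of the labels given the almost action

PROOF. `ent_law`: both sides are the sum over the values `c` of `negMulLog` of `∑ t with φ t = c, law` (`Q.real {φ (om) = c} = ∑ t with φ t = c, Q.real {om = t}`); `entc_law` from `ent_law` for the pair and for `ψ`. `chB`: all functions on `Ω` are `Fm`. `p ω v := pf (l ω v)`. `entc Q l σ ≤ ent Q p + entc Q l (p, σ)` (chain rule: `entc_chain`, `entc_le_ent`, `p` is a function of `l`), `ent Q p ≤ ∑ v, ent Q (p v)` (`ent_pi_le`);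
`entc Q l (p, σ) ≤ entc Q l Ψ' ≤ entc Q l Ψ + entc Q Ψ Ψ'` with `Ψ' ω v := Y (p ω) (σ ω) v` (`entc_anti`, `entc_triangle`), `entc Q l Ψ ≤ ∑ v, entc Q (l v) (Ψ v)` (`entc_pi_le`, `entc_anti`), `entc_array` for `Ψ`, `Ψ'`. -/

set_option autoImplicit false

open MeasureTheory H31.BE

namespace H33.BO

private theorem chB_sum {Ω δ ε : Type} [MeasurableSpace Ω] {P : Measure Ω} [IsProbabilityMeasure P]
    [Fintype δ] {f : Ω → δ} (hf : Fm f) (φ : δ → ε) [DecidableEq ε] (b : ε) :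
    P.real ((fun ω => φ (f ω)) ⁻¹' {b}) =
      ∑ a ∈ Finset.univ.filter (fun a => φ a = b), P.real (f ⁻¹' {a}) := by
  have h : (fun ω => φ (f ω)) ⁻¹' {b} =
      ⋃ a ∈ Finset.univ.filter (fun a => φ a = b), f ⁻¹' {a} := by
    ext ω
    simp
  rw [h]
  refine measureReal_biUnion_finset ?_ fun a _ => hf a
  intro a _ a' _ haa
  refine Set.disjoint_left.2 fun ω h1 h2 => haa ?_
  exact (Set.mem_singleton_iff.1 h1).symm.trans (Set.mem_singleton_iff.1 h2)

theorem ent_law {Ω Y T C : Type} [MeasurableSpace Ω] [MeasurableSpace Y] [Finite T] [Finite C]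
    (Q : Measure Ω) [IsProbabilityMeasure Q] (P : Measure Y) [IsProbabilityMeasure P] (om : Ω → T) (Φ : Y → T)
    (hom : Fm om) (hΦ : Fm Φ) (h : ∀ t, Q.real {ω | om ω = t} = law P Φ t) (φ : T → C) :
    ent Q (fun ω => φ (om ω)) = ent P (fun y => φ (Φ y)) := by
  classical
  cases nonempty_fintype T
  cases nonempty_fintype C
  rw [ent_eq, ent_eq]
  refine Finset.sum_congr rfl fun c _ => ?_
  congr 1
  rw [chB_sum hom φ c, chB_sum hΦ φ c]
  exact Finset.sum_congr rfl fun t _ => h t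

theorem entc_law {Ω Y T C E : Type} [MeasurableSpace Ω] [MeasurableSpace Y] [Finite T] [Finite C] [Finite E]
    (Q : Measure Ω) [IsProbabilityMeasure Q] (P : Measure Y) [IsProbabilityMeasure P] (om : Ω → T) (Φ : Y → T)
    (hom : Fm om) (hΦ : Fm Φ) (h : ∀ t, Q.real {ω | om ω = t} = law P Φ t) (φ : T → C) (ψ : T → E) :
    entc Q (fun ω => φ (om ω)) (fun ω => ψ (om ω)) = entc P (fun y => φ (Φ y)) (fun y => ψ (Φ y)) := by
  unfold entc
  rw [ent_law Q P om Φ hom hΦ h (fun t => (φ t, ψ t)), ent_law Q P om Φ hom hΦ h ψ]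

theorem chB {Ω Λ A B E : Type} [Finite Ω] [MeasurableSpace Ω] [DiscreteMeasurableSpace Ω] [Finite Λ] [Finite A]
    [Finite B] [Nonempty B] [Finite E] (Q : Measure Ω) [IsProbabilityMeasure Q] (n : ℕ) (hn : 1 ≤ n)
    (l : Ω → Fin n → Λ) (σ : Ω → E) (pf : Λ → A) (Ψ : Ω → Fin n → B) (Yf : (Fin n → A) → E → Fin n → B)
    (bb : Ω → ℕ) (hbb : ∀ ω, bb ω ≤ n)
    (h : ∀ᵐ ω ∂Q, {v | Ψ ω v ≠ Yf (fun v => pf (l ω v)) (σ ω) v}.ncard ≤ bb ω) :
    entc Q l σ ≤ (∑ v, ent Q (fun ω => pf (l ω v))) + (∑ v, entc Q (fun ω => l ω v) (fun ω => Ψ ω v)) +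
      Real.log (n + 1) + (∫ ω, (bb ω : ℝ) ∂Q) * Real.log (n * Nat.card B) := by
  have hFm : ∀ {X : Type} (f : Ω → X), Fm f := fun f a => MeasurableSet.of_discrete
  have : Nonempty (Fin n) := ⟨⟨0, hn⟩⟩
  obtain ⟨p, hp⟩ : ∃ p : Ω → Fin n → A, p = fun ω v => pf (l ω v) := ⟨_, rfl⟩
  obtain ⟨Ψ', hΨ'⟩ : ∃ Ψ' : Ω → Fin n → B, Ψ' = fun ω => Yf (p ω) (σ ω) := ⟨_, rfl⟩
  have h1 : entc Q l σ ≤ entc Q (fun ω => (l ω, p ω)) σ :=
    entc_comp_left (f := fun ω => (l ω, p ω)) (hFm _) (hFm _) Prod.fst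
  have h2 := entc_chain (P := Q) (hFm l) (hFm p) (hFm σ)
  have h3 := entc_le_ent (P := Q) (hFm p) (hFm σ)
  have h4 : ent Q p ≤ ∑ v, ent Q (fun ω => pf (l ω v)) := by
    have := ent_pi_le (P := Q) (f := fun v ω => p ω v) (fun v => hFm _)
    rw [hp] at this ⊢
    exact this
  have h5 : entc Q l (fun ω => (p ω, σ ω)) ≤ entc Q l Ψ' := by
    have := entc_anti (P := Q) (hFm l) (hFm (fun ω => (p ω, σ ω)))
      (fun t : (Fin n → A) × E => Yf t.1 t.2)
    rw [hΨ']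
    exact this
  have h6 := entc_triangle (P := Q) (hFm l) (hFm Ψ) (hFm Ψ')
  have h7 : entc Q l Ψ ≤ ∑ v, entc Q (fun ω => l ω v) (fun ω => Ψ ω v) := by
    have h8 := entc_pi_le (P := Q) (f := fun v ω => l ω v) (g := Ψ) (fun v => hFm _) (hFm _)
    refine le_trans h8 (Finset.sum_le_sum fun v _ => ?_)
    exact entc_anti (P := Q) (hFm (fun ω => l ω v)) (hFm Ψ) (fun t => t v)
  have h9 : entc Q Ψ Ψ' ≤ Real.log (n + 1) + (∫ ω, (bb ω : ℝ) ∂Q) * Real.log (n * Nat.card B) := by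
    have hcard : Nat.card (Fin n) = n := by
      rw [Nat.card_eq_fintype_card, Fintype.card_fin]
    have h10 := entc_array (P := Q) Ψ (hFm Ψ) Ψ' (hFm Ψ') (fun t => t) bb (hFm bb)
      (fun ω => by rw [hcard]; exact hbb ω) (by
        filter_upwards [h] with ω hω
        rw [hΨ', hp]
        exact hω)
    rw [hcard] at h10
    exact h10
  linarith

end H33.BO
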