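import Pool.Agent.H33.BO.Defs
import Pool.Agent.H31.BE.Bern
import Pool.Agent.H31.BE.Words

/-! # BO.Defs2 : further definitions (actions, configurations, corrected directions, data of Part II). Definitions only. -/

set_option autoImplicit false

open MeasureTheory H31.BE

namespace H33.BO

/-! ## Actions and configurations -/

/-- action of the words on a G-space -/
def ga {k : ℕ} {G Y : Type} [Group G] [MulAction G Y] (g : Lt k → G) (f : Fg k) (y : Y) : Y :=
  FreeGroup.lift g f • y

/-- the configuration seen from the vertex `v` -/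
noncomputable def vt {k : ℕ} {V A : Type} (X : Lt k → Equiv.Perm V) (γ : V → A) (v : V) : Fg k → A := fun w => γ (ac X w v)

/-- the configuration seen from the point `y` -/
def tt {k : ℕ} {G A : Type} [Group G] (g : Lt k → G) (q : ℝ → A) (y : Bsh G) : Fg k → A :=
  fun w => q ((FreeGroup.lift g w • y) 1)

/-- a sequence of moves -/
def mv {Z : Type} (N : Bool → Z → Z) : List Bool → Z → Z
  | [], z => z
  | c :: L, z => mv N L (N c z)

open Classical in
/-- the corrected direction: short paths everywhere -/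
noncomputable def cor {Z : Type} (N : Bool → Z → Z) (d0 : Z → Option Bool) (r : ℕ) (z : Z) : Option Bool :=
  if shrt N d0 r z then d0 z else none

instance {Λ : Type} [Finite Λ] (r : ℕ) : Finite (Pt Λ r) :=
  Set.Finite.to_subtype (List.finite_length_le (Λ × Option Bool) r)

/-- tail of a pattern -/
def ptl {Λ : Type} {r : ℕ} (p : Pt Λ r) : Pt Λ r :=
  ⟨p.1.tail, le_trans (by simp) p.2⟩

/-! ## Support conditions -/

/-- what holds for every bag pattern of a point -/
structure Sup {k l : ℕ} {P : Type} (dir : P → Option Bool) (tl : P → P) (ω : Bg k l → P) : Prop where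
  l1 : dir (ω (e0 k l)) = some true → ω (c1 k l) = tl (ω (e0 k l))
  l2 : dir (ω (el k l)) = some false → ω (c3 k l) = tl (ω (el k l))
  l3 : dir (ω (c3 k l)) = some true → ω (c2 k l) = tl (ω (c3 k l))
  l4 : dir (ω (c1 k l)) = some false → ω (c2 k l) = tl (ω (c1 k l))

/-! ## Counting functions of a finite structure -/

/-- the vertices at a non-T edge of the letter `s` that is not matched -/
def um {k : ℕ} (W : Wd k) {V P : Type} (dir : P → Option Bool) (om : V → Bg k W.length → P)
    (M : Lt k → Equiv.Perm V) (s : Lt k) : Set V :=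
  {v | ¬ TT dir s (src s (om v)) ∧ tgt s (om (M s v)) ≠ src s (om v)}

/-- number of the vertices whose pattern at `j` has direction `c` and depth `D` -/
noncomputable def cn {k : ℕ} (W : Wd k) {V P : Type} (dir : P → Option Bool) (dp : P → ℕ)
    (om : V → Bg k W.length → P) (j : Bg k W.length) (c : Bool) (D : ℕ) : ℕ :=
  {v | dir (om v j) = some c ∧ dp (om v j) = D}.ncard

/-- the error of a model: unmatched edges and fluctuations -/
noncomputable def Kr {k : ℕ} (W : Wd k) {V P : Type} (dir : P → Option Bool) (dp : P → ℕ)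
    (om : V → Bg k W.length → P) (M : Lt k → Equiv.Perm V) (D : ℕ) : ℝ :=
  ∑ s : Lt k, ((um W dir om M s).ncard : ℝ) +
    ∑ i ∈ Finset.range (D + 1), (|(cn W dir dp om (c3 k W.length) true i : ℝ) - cn W dir dp om (e0 k W.length) true i| +
      |(cn W dir dp om (c1 k W.length) false i : ℝ) - cn W dir dp om (el k W.length) false i|)

/-- the vertices with an unmatched edge -/
def Mis {k : ℕ} (W : Wd k) {V P : Type} (om : V → Bg k W.length → P) (X : Lt k → Equiv.Perm V) : Set V :=
  {v | ∃ s, tgt s (om (X s v)) ≠ src s (om v)}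

/-- `w` is x-good: its pattern is transported to `W⁻¹ w` -/
def XG {k : ℕ} (W : Wd k) {V P : Type} (om : V → Bg k W.length → P) (X : Lt k → Equiv.Perm V) (w : V) : Prop :=
  om ((ac X (wf W))⁻¹ w) (el k W.length) = om w (e0 k W.length)

/-- the vertices where the transport of patterns fails -/
def MM {k : ℕ} (W : Wd k) {V P : Type} (dir : P → Option Bool) (tl : P → P) (om : V → Bg k W.length → P)
    (X : Lt k → Equiv.Perm V) : Set V :=
  {v | (∃ j, om (ac X (bgw W j) v) (e0 k W.length) ≠ om v j) ∨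
    ∃ c, dir (om v (e0 k W.length)) = some c ∧
      om (ac X (nn W c) v) (e0 k W.length) ≠ tl (om v (e0 k W.length))}

/-! ## Labels of Part II: the generators a, W b, x_i -/

/-- the words a, W b, x_i -/
def gw {k : ℕ} (W : Wd k) : Lt k → Fg k
  | none => aa k
  | some none => wf W * bb k
  | some (some i) => xx i

/-- the generators a, W b, x_i of `G` -/
def gg {k : ℕ} {G : Type} [Group G] (W : Wd k) (g : Lt k → G) (s : Lt k) : G := FreeGroup.lift g (gw W s)

/-- the permutations a, W b, x_i -/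
noncomputable def XX {k : ℕ} {V : Type} (W : Wd k) (X : Lt k → Equiv.Perm V) (s : Lt k) : Equiv.Perm V :=
  ac X (gw W s)

/-- the generating set -/
def SS {k : ℕ} {G : Type} [Group G] [DecidableEq G] (W : Wd k) (g : Lt k → G) (_ : Unit) : Finset G :=
  Finset.univ.image (gg W g) ∪ Finset.univ.image (fun s => (gg W g s)⁻¹)

/-- signed letters as letters of `SS` -/
def ll {k : ℕ} {G : Type} [Group G] [DecidableEq G] (W : Wd k) (g : Lt k → G) (p : Lt k × Bool) : H31.BE.Gn (SS W g) :=
  ⟨(), ⟨if p.2 then gg W g p.1 else (gg W g p.1)⁻¹, by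
    rcases p with ⟨s, c⟩
    cases c <;> simp [SS]⟩⟩

/-- evaluation of a word of signed letters for a family of maps; the head is applied last -/
def evf {k : ℕ} {V : Type} (f : Lt k × Bool → V → V) : List (Lt k × Bool) → V → V
  | [], v => v
  | p :: w, v => f p (evf f w v)

/-- `W⁻¹` as a word of signed letters -/
def wi {k : ℕ} (W : Wd k) : List (Lt k × Bool) := (W.map fun p => (some (some p.1), !p.2)).reverse

/-- the vertices where the relations hold: `f (s, c) f (s, !c) = 1`, `a W⁻¹ (W b) = (W b) a` -/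
def ug {k : ℕ} {V : Type} (W : Wd k) (f : Lt k × Bool → V → V) : Set V :=
  {v | (∀ s c, f (s, c) (f (s, !c) v) = v) ∧
    evf f ((none, true) :: (wi W ++ [(some none, true)])) v = evf f [(some none, true), (none, true)] v}

/-! ## Completion (paper 3.2) -/

/-- a maximal pair of partial injections: `A` for the letter a, `B` for the letter b -/
structure CP {k : ℕ} (W : Wd k) {V P : Type} (dir : P → Option Bool) (om : V → Bg k W.length → P)
    (M : Lt k → Equiv.Perm V) (A B : Set (V × V)) : Prop where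
  iA : ∀ v w w', (v, w) ∈ A → (v, w') ∈ A → w = w'
  jA : ∀ v v' w, (v, w) ∈ A → (v', w) ∈ A → v = v'
  iB : ∀ v w w', (v, w) ∈ B → (v, w') ∈ B → w = w'
  jB : ∀ v v' w, (v, w) ∈ B → (v', w) ∈ B → v = v'
  sA : ∀ v, v ∉ um W dir om M none → ¬ TT dir none (src none (om v)) → (v, M none v) ∈ A
  sB : ∀ v, v ∉ um W dir om M (some none) → ¬ TT dir (some none) (src (some none) (om v)) →
    (v, M (some none) v) ∈ B
  mA : ∀ v w, (v, w) ∈ A → tgt none (om w) = src none (om v)
  mB : ∀ v w, (v, w) ∈ B → tgt (some none) (om w) = src (some none) (om v)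
  rA : ∀ v w, (v, w) ∈ A → dir (om w (e0 k W.length)) = some true →
    ∃ z y, (z, v) ∈ B ∧ (z, y) ∈ A ∧ (y, (ac M (wf W))⁻¹ w) ∈ B
  rB : ∀ y u, (y, u) ∈ B → dir (om u (el k W.length)) = some false →
    ∃ z v, (z, y) ∈ A ∧ (z, v) ∈ B ∧ (v, ac M (wf W) u) ∈ A
  cA : ∀ v w z y, XG W om M w → dir (om w (e0 k W.length)) = some true → (z, v) ∈ B → (z, y) ∈ A →
    (y, (ac M (wf W))⁻¹ w) ∈ B → (v, w) ∈ A
  cB : ∀ v w z y, XG W om M w → dir (om w (e0 k W.length)) = some false → (v, w) ∈ A → (z, v) ∈ B →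
    (z, y) ∈ A → (y, (ac M (wf W))⁻¹ w) ∈ B

/-- number of the vertices whose pattern at `j` has direction `c`, depth `i`, and that satisfy `F` -/
noncomputable def fc {k : ℕ} (W : Wd k) {V P : Type} (dir : P → Option Bool) (dp : P → ℕ)
    (om : V → Bg k W.length → P) (j : Bg k W.length) (c : Bool) (F : V → Prop) (i : ℕ) : ℕ :=
  {v | dir (om v j) = some c ∧ dp (om v j) = i ∧ F v}.ncard

/-- number of the vertices whose pattern at `j` does not have direction `c` and that satisfy `F` -/
noncomputable def gc {k : ℕ} (W : Wd k) {V P : Type} (dir : P → Option Bool)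
    (om : V → Bg k W.length → P) (j : Bg k W.length) (c : Bool) (F : V → Prop) : ℕ :=
  {v | dir (om v j) ≠ some c ∧ F v}.ncard

/-! ## Decoding (paper 3.4) -/

/-- the maps `σ`: the label `l v` gives the cocycle value `L.c`, `rp` gives a word for it -/
noncomputable def sg {k : ℕ} {G V Λ : Type} [Group G] [DecidableEq G] (W : Wd k) (g : Lt k → G)
    (L : Lab (SS W g) Λ) (rp : G → Fg k) (l : V → Λ) (X : Lt k → Equiv.Perm V) (p : Lt k × Bool) (v : V) : V :=
  ac (XX W X) (rp (L.c (ll W g p) (l v))) v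

/-- the bad vertices to depth `m` -/
def BB {k : ℕ} {G V P : Type} [Group G] (W : Wd k) (g : Lt k → G) (dir : P → Option Bool) (tl : P → P)
    (om : V → Bg k W.length → P) (X : Lt k → Equiv.Perm V) (m : ℕ) : Set V :=
  {v | (∃ f : Fg k, f.norm ≤ m ∧ ac (XX W X) f v ∈ MM W dir tl om X) ∨
    ∃ f : Fg k, f.norm ≤ m ∧ FreeGroup.lift (gg W g) f = 1 ∧ ac (XX W X) f v ≠ v}

/-- the vertices whose paths meet bad vertices -/
def PB {k : ℕ} {V P : Type} (W : Wd k) (dir : P → Option Bool) (tl : P → P)
    (om : V → Bg k W.length → P) (X : Lt k → Equiv.Perm V) (r R : ℕ) : Set V :=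
  {v | ∃ (j : Bg k W.length) (Ls : List Bool) (f : Fg k), Ls.length ≤ r ∧ f.norm ≤ R ∧
    ac (XX W X) f (mv (fun c => ac X (nn W c)) Ls (ac X (bgw W j) v)) ∈ MM W dir tl om X}

/-! ## The random model of Part II -/

/-- direction of a pattern of bounded length -/
def pd {Λ : Type} {r : ℕ} (p : Pt Λ r) : Option Bool := pdir p.1

/-- the patterns of Part II -/
abbrev PtR {k : ℕ} {G : Type} [Group G] [DecidableEq G] (W : Wd k) (g : Lt k → G) (Λ : Type) (R r : ℕ) : Type :=
  Pt (↥(ball (SS W g) R) → Λ) (r + 1)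

/-- the bag pattern of Part II -/
noncomputable def bp {k : ℕ} {G Y Λ : Type} [Group G] [DecidableEq G] [MulAction G Y] (W : Wd k) (g : Lt k → G) (lb : Y → Λ)
    (R : ℕ) (d : Y → Option Bool) (r : ℕ) (y : Y) : Bg k W.length → PtR W g Λ R r :=
  bpat W (ga g) (win lb (ball (SS W g) R)) d (r + 1) y

/-- the error bound of the model -/
noncomputable def Er (k l D N n : ℕ) : ℝ :=
  (5 * (l : ℝ) + 12) * 2 ^ (D + 2) * (2 * ((k : ℝ) + 2) * N + 4 * ((D : ℝ) + 1)) * Real.sqrt n

/-- a random model of the G-space on `n` vertices -/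
structure Mdl {k : ℕ} {G Y Λ : Type} [Group G] [DecidableEq G] [MeasurableSpace Y] [MulAction G Y] (W : Wd k)
    (g : Lt k → G) (P : Measure Y) [Finite Λ] (L : Lab (SS W g) Λ) (lb : Y → Λ) (R r : ℕ) (d : Y → Option Bool)
    (n N : ℕ) {Ω : Type} [MeasurableSpace Ω] (Q : Measure Ω) (om : Ω → Fin n → Bg k W.length → PtR W g Λ R r)
    (M X : Ω → Lt k → Equiv.Perm (Fin n))
    (M0 : (Fin n → Bg k W.length → PtR W g Λ R r) → Lt k → Equiv.Perm (Fin n)) (yy : Ω → Fin n → Y) : Prop where
  ent0 : n * Fn W pd (law P (bp W g lb R d r)) + ((k : ℝ) + 1) * (n * Real.log n) - ((k : ℝ) + 2) * n ≤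
    ent Q (fun ω => (om ω, M ω))
  law0 : ∀ v t, Q.real {ω | om ω v = t} = law P (bp W g lb R d r) t
  sup : ∀ᵐ ω ∂Q, ∀ v, Sup pd ptl (om ω v)
  hom : ∀ᵐ ω ∂Q, ∀ v, om ω v = bp W g lb R d r (yy ω v)
  adm : ∀ᵐ ω ∂Q, ∀ v, Adm L (W.length + 4) (fun h => lb (h • yy ω v))
  eM : ∀ s, ∫ ω, (open Classical in {v | M ω s v ≠
    (if TT pd s (src s (om ω v)) then M0 (om ω) s v else X ω s v)}.ncard : ℝ) ∂Q ≤ Er k W.length (r + 1) N n
  eN : ∫ ω, ((Mis W (om ω) (X ω)).ncard : ℝ) ∂Q ≤ Er k W.length (r + 1) N n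
  eO : ∫ ω, ((defs W (X ω)).ncard : ℝ) ∂Q ≤ n * P.real {y | d y = none} + Er k W.length (r + 1) N n

/-! ## Directions (paper section 4) -/

/-- a mark within `j` steps -/
def rch {Z : Type} (N : Bool → Z → Z) (mk : Z → Prop) : ℕ → Z → Prop
  | 0, z => mk z
  | j + 1, z => rch N mk j z ∨ ∃ c, rch N mk j (N c z)

open Classical in
/-- the direction to the nearest mark, if there is one within `r` steps -/
noncomputable def ddir {Z : Type} (N : Bool → Z → Z) (mk : Z → Prop) (r : ℕ) (z : Z) : Option Bool :=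
  if h : ∃ j, j ≤ r ∧ rch N mk j z then
    (if Nat.find h = 0 then none
    else if rch N mk (Nat.find h - 1) (N false z) then some false else some true)
  else none

/-! ## Amplification (paper 0.1) -/

/-- a measurable bijection of the plane and the line -/
noncomputable def EE : ℝ × ℝ ≃ᵐ ℝ :=
  PolishSpace.measurableEquivOfNotCountable
    (by
      intro h
      have h1 : Countable ℝ := Function.Injective.countable (f := fun x : ℝ => (x, (0 : ℝ)))
        (fun a b hab => (Prod.mk.inj hab).1)
      exact not_countable h1)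
    (by
      intro h
      exact not_countable h)

/-- the product of two measures, coded on the line -/
noncomputable def cod (μ ζ : Measure ℝ) : Measure ℝ := (μ.prod ζ).map EE

instance (μ ζ : Measure ℝ) [IsProbabilityMeasure μ] [IsProbabilityMeasure ζ] : IsProbabilityMeasure (cod μ ζ) :=
  Measure.isProbabilityMeasure_map EE.measurable.aemeasurable

/-- powers: `pwm μ m` codes the power with exponent `m + 1` -/
noncomputable def pwm (μ : Measure ℝ) : ℕ → Measure ℝ
  | 0 => μ
  | m + 1 => cod μ (pwm μ m)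

/-- the relator `[a, b] w` of the final statement -/
def relw {k : ℕ} (w : FreeGroup (Fin k)) : Fg k :=
  aa k * bb k * (aa k)⁻¹ * (bb k)⁻¹ * FreeGroup.map (fun i => some (some i)) w

end H33.BO
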