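import Pool.Agent.H31.BE.EntC
import Pool.Agent.H33.BO.Defs2

/-! # BO.ChC : the chain of entropies (paper 3.6)

PROOF. All functions are `Fm`. Chain rule: `ent (om, M) ≤ ent (σ, l, d, X, om, M) = ent σ + entc l σ + entc d (l, σ) + entc X (d, l, σ) + entc om (X, d, l, σ) + entc M (om, X, ..)` (`entc_chain`, `ent_comp_le`), and conditioning on more does not increase the entropy (`entc_anti`, `entc_le_ent`). -/

set_option autoImplicit false

open MeasureTheory H31.BE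

namespace H33.BO

private theorem ChC_fm {Ω α : Type} [MeasurableSpace Ω] [DiscreteMeasurableSpace Ω] (f : Ω → α) : Fm f :=
  fun _ => MeasurableSet.of_discrete

theorem chC {Ω S L Dd X O M : Type} [Finite Ω] [MeasurableSpace Ω] [DiscreteMeasurableSpace Ω] [Finite S] [Finite L]
    [Finite Dd] [Finite X] [Finite O] [Finite M] (Q : Measure Ω) [IsProbabilityMeasure Q]
    (σ : Ω → S) (l : Ω → L) (d : Ω → Dd) (x : Ω → X) (om : Ω → O) (m : Ω → M) :
    ent Q (fun ω => (om ω, m ω)) ≤ ent Q σ + entc Q l σ + ent Q d + entc Q x (fun ω => (σ ω, l ω)) +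
      entc Q om (fun ω => (l ω, d ω, x ω)) + entc Q m (fun ω => (om ω, x ω)) := by
  have f1 : ent Q (fun ω => (l ω, σ ω)) = ent Q σ + entc Q l σ := by
    unfold entc
    ring
  have f2 : ent Q (fun ω => (d ω, l ω, σ ω)) =
      ent Q (fun ω => (l ω, σ ω)) + entc Q d (fun ω => (l ω, σ ω)) := by
    unfold entc
    ring
  have f3 : ent Q (fun ω => (x ω, d ω, l ω, σ ω)) =
      ent Q (fun ω => (d ω, l ω, σ ω)) + entc Q x (fun ω => (d ω, l ω, σ ω)) := by
    unfold entc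
    ring
  have f4 : ent Q (fun ω => (om ω, x ω, d ω, l ω, σ ω)) =
      ent Q (fun ω => (x ω, d ω, l ω, σ ω)) + entc Q om (fun ω => (x ω, d ω, l ω, σ ω)) := by
    unfold entc
    ring
  have f5 : ent Q (fun ω => (m ω, om ω, x ω, d ω, l ω, σ ω)) =
      ent Q (fun ω => (om ω, x ω, d ω, l ω, σ ω)) +
        entc Q m (fun ω => (om ω, x ω, d ω, l ω, σ ω)) := by
    unfold entc
    ring
  have g2 : entc Q d (fun ω => (l ω, σ ω)) ≤ ent Q d := entc_le_ent (ChC_fm _) (ChC_fm _)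
  have g3 : entc Q x (fun ω => (d ω, l ω, σ ω)) ≤ entc Q x (fun ω => (σ ω, l ω)) :=
    entc_anti (P := Q) (g := fun ω => (d ω, l ω, σ ω)) (ChC_fm _) (ChC_fm _)
      (fun p : Dd × L × S => (p.2.2, p.2.1))
  have g4 : entc Q om (fun ω => (x ω, d ω, l ω, σ ω)) ≤ entc Q om (fun ω => (l ω, d ω, x ω)) :=
    entc_anti (P := Q) (g := fun ω => (x ω, d ω, l ω, σ ω)) (ChC_fm _) (ChC_fm _)
      (fun p : X × Dd × L × S => (p.2.2.1, p.2.1, p.1))
  have g5 : entc Q m (fun ω => (om ω, x ω, d ω, l ω, σ ω)) ≤ entc Q m (fun ω => (om ω, x ω)) :=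
    entc_anti (P := Q) (g := fun ω => (om ω, x ω, d ω, l ω, σ ω)) (ChC_fm _) (ChC_fm _)
      (fun p : O × X × Dd × L × S => (p.1, p.2.1))
  have g6 : ent Q (fun ω => (om ω, m ω)) ≤ ent Q (fun ω => (m ω, om ω, x ω, d ω, l ω, σ ω)) :=
    ent_comp_le (P := Q) (f := fun ω => (m ω, om ω, x ω, d ω, l ω, σ ω)) (ChC_fm _)
      (fun p : M × O × X × Dd × L × S => (p.2.1, p.1))
  linarith

end H33.BO
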