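import Mathlib

/-! # BO.CjA : number of the commuting pairs of permutations

PROOF. `card_comm_eq_card_conjClasses_mul_card`: the number of the commuting pairs is `card (ConjClasses (Perm (Fin n))) * n!`. The number of the conjugacy classes is at most the number of the partitions of `n` (the map `σ ↦ σ.partition` is constant on the classes and separates them: `Equiv.Perm.partition_eq_of_isConj`), and the partitions are the images of the compositions: `Nat.Partition.ofComposition_surj`,
`composition_card n : Fintype.card (Composition n) = 2 ^ (n - 1)`. -/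

set_option autoImplicit false

open MeasureTheory

namespace H33.BO

private theorem conj_le (n : ℕ) : Nat.card (ConjClasses (Equiv.Perm (Fin n))) ≤ 2 ^ n := by
  have h1 : Nat.card (ConjClasses (Equiv.Perm (Fin n))) ≤
      Nat.card ((Fintype.card (Fin n)).Partition) := by
    have hinj : Function.Injective (Quotient.lift (s := IsConj.setoid (Equiv.Perm (Fin n)))
        (fun σ : Equiv.Perm (Fin n) => σ.partition)
        (fun a b h => Equiv.Perm.partition_eq_of_isConj.1 h)) := by
      intro x y
      refine Quotient.inductionOn₂ x y ?_
      intro a b h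
      exact Quotient.sound (Equiv.Perm.partition_eq_of_isConj.2 h)
    exact Nat.card_le_card_of_injective _ hinj
  have h2 : Nat.card ((Fintype.card (Fin n)).Partition) ≤
      Nat.card (Composition (Fintype.card (Fin n))) :=
    Nat.card_le_card_of_surjective _ Nat.Partition.ofComposition_surj
  have h3 : Nat.card (Composition (Fintype.card (Fin n))) ≤ 2 ^ n := by
    rw [Nat.card_eq_fintype_card, composition_card, Fintype.card_fin]
    exact Nat.pow_le_pow_right (by norm_num) (Nat.sub_le _ _)
  exact h1.trans (h2.trans h3)

theorem comm_cnt (n : ℕ) :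
    Nat.card {p : Equiv.Perm (Fin n) × Equiv.Perm (Fin n) // p.1 * p.2 = p.2 * p.1} ≤ n.factorial * 2 ^ n := by
  have h := card_comm_eq_card_conjClasses_mul_card (Equiv.Perm (Fin n))
  have hc : Nat.card (Equiv.Perm (Fin n)) = n.factorial := by
    rw [Nat.card_eq_fintype_card, Fintype.card_perm, Fintype.card_fin]
  have h' : Nat.card {p : Equiv.Perm (Fin n) × Equiv.Perm (Fin n) // p.1 * p.2 = p.2 * p.1} =
      Nat.card (ConjClasses (Equiv.Perm (Fin n))) * Nat.card (Equiv.Perm (Fin n)) := h
  rw [h', hc, mul_comm]
  exact Nat.mul_le_mul_left _ (conj_le n)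

end H33.BO
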