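import Pool.Agent.H33.BO.CjA
import Pool.Agent.H31.BE.EntE

/-! # BO.CjB : number of the almost solutions of the relation

PROOF. For a pair `(A, B)` in the set let `c := B * A * B⁻¹` and `e := A * ω⁻¹`: `c (B v) = B (A v)`, `e (B v) = A (ω⁻¹ (B v))`, so `{u | c u ≠ e u}.ncard ≤ D`. For fixed `A` the number of the permutations `c` with `{u | c u ≠ e u}.ncard ≤ D` is at most `(n * n)^D` (`ncard_close`, `n ≥ 1`), and for fixed `A`, `c` the number of the `B` with `B * A * B⁻¹ = c` is at most `card {B | B * A = A * B}` (if `B0` is one then `B0⁻¹ * B` commutes with `A`).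
Sum over `A`: `(n * n)^D * (number of the commuting pairs)`. -/

set_option autoImplicit false

open MeasureTheory H31.BE

namespace H33.BO

private lemma cj_close (n : ℕ) (hn : 1 ≤ n) (D : ℕ) (e : Equiv.Perm (Fin n)) :
    Nat.card {c : Equiv.Perm (Fin n) // {u | c u ≠ e u}.ncard ≤ D} ≤ (n * n) ^ D := by
  classical
  haveI : Nonempty (Fin n) := ⟨⟨0, hn⟩⟩
  have h1 := ncard_close (V := Fin n) (W := Fin n) (fun v => e v) D
  rw [Nat.card_eq_fintype_card, Fintype.card_fin] at h1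
  refine le_trans ?_ h1
  rw [← Nat.card_coe_set_eq]
  refine Nat.card_le_card_of_injective
    (fun c : {c : Equiv.Perm (Fin n) // {u | c u ≠ e u}.ncard ≤ D} =>
      (⟨fun v => c.1 v, c.2⟩ : ↥{x : Fin n → Fin n | {v | x v ≠ e v}.ncard ≤ D})) ?_
  intro c c' h
  apply Subtype.ext
  apply Equiv.ext
  intro v
  have := congrArg Subtype.val h
  exact congrFun this v

private lemma cj_fib (n : ℕ) (hn : 1 ≤ n) (D : ℕ) (ω A : Equiv.Perm (Fin n)) :
    Nat.card {B : Equiv.Perm (Fin n) // {v | A (ω⁻¹ (B v)) ≠ B (A v)}.ncard ≤ D} ≤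
      (n * n) ^ D * Nat.card {B : Equiv.Perm (Fin n) // A * B = B * A} := by
  classical
  have hc := cj_close n hn D (A * ω⁻¹)
  rw [Nat.card_eq_fintype_card, Fintype.card_subtype] at hc
  rw [Nat.card_eq_fintype_card, Nat.card_eq_fintype_card, Fintype.card_subtype, Fintype.card_subtype]
  have key := Finset.card_le_mul_card_image_of_maps_to (f := fun B : Equiv.Perm (Fin n) => B * A * B⁻¹)
    (s := Finset.univ.filter fun B : Equiv.Perm (Fin n) => {v | A (ω⁻¹ (B v)) ≠ B (A v)}.ncard ≤ D)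
    (t := Finset.univ.filter fun c : Equiv.Perm (Fin n) => {u | c u ≠ (A * ω⁻¹) u}.ncard ≤ D) ?_
    (Finset.univ.filter fun B : Equiv.Perm (Fin n) => A * B = B * A).card ?_
  · calc _ ≤ _ := key
      _ ≤ _ := Nat.mul_le_mul_left _ hc
      _ = _ := Nat.mul_comm _ _
  · intro B hB
    rw [Finset.mem_filter] at hB ⊢
    refine ⟨Finset.mem_univ _, ?_⟩
    have e : {u | (B * A * B⁻¹) u ≠ (A * ω⁻¹) u} = B '' {v | A (ω⁻¹ (B v)) ≠ B (A v)} := by
      ext u
      constructor
      · intro hu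
        refine ⟨B⁻¹ u, ?_, by simp⟩
        simp only [Set.mem_setOf_eq, Equiv.Perm.mul_apply] at hu ⊢
        intro h
        apply hu
        have h9 : B (B⁻¹ u) = u := by simp
        rw [h9] at h
        exact h.symm
      · rintro ⟨v, hv, rfl⟩
        simp only [Set.mem_setOf_eq, Equiv.Perm.mul_apply] at hv ⊢
        intro h
        apply hv
        have h9 : B⁻¹ (B v) = v := by simp
        rw [h9] at h
        exact h.symm
    rw [e, Set.ncard_image_of_injective _ B.injective]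
    exact hB.2
  · intro c _
    rcases Finset.eq_empty_or_nonempty (Finset.filter (fun B : Equiv.Perm (Fin n) => B * A * B⁻¹ = c)
      (Finset.univ.filter fun B : Equiv.Perm (Fin n) => {v | A (ω⁻¹ (B v)) ≠ B (A v)}.ncard ≤ D)) with h | ⟨B0, h0⟩
    · rw [h]; simp
    · have h0' : B0 * A * B0⁻¹ = c := (Finset.mem_filter.mp h0).2
      refine Finset.card_le_card_of_injOn (fun B => B0⁻¹ * B) ?_ ?_
      · intro B hB
        have hB' : B * A * B⁻¹ = c := (Finset.mem_filter.mp (Finset.mem_coe.mp hB)).2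
        rw [Finset.mem_coe, Finset.mem_filter]
        refine ⟨Finset.mem_univ _, ?_⟩
        have h2 : B * A = c * B := by rw [← hB']; group
        have h3 : B0⁻¹ * c = A * B0⁻¹ := by rw [← h0']; group
        calc A * (B0⁻¹ * B) = (A * B0⁻¹) * B := by group
          _ = (B0⁻¹ * c) * B := by rw [h3]
          _ = B0⁻¹ * (c * B) := by group
          _ = B0⁻¹ * (B * A) := by rw [h2]
          _ = B0⁻¹ * B * A := by group
      · intro B _ B' _ h
        exact mul_left_cancel h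

theorem cjB (n : ℕ) (hn : 1 ≤ n) (D : ℕ) (ω : Equiv.Perm (Fin n)) :
    Nat.card {p : Equiv.Perm (Fin n) × Equiv.Perm (Fin n) //
      {v | p.1 (ω⁻¹ (p.2 v)) ≠ p.2 (p.1 v)}.ncard ≤ D} ≤ (n * n) ^ D * (n.factorial * 2 ^ n) := by
  classical
  have e1 : Nat.card {p : Equiv.Perm (Fin n) × Equiv.Perm (Fin n) //
      {v | p.1 (ω⁻¹ (p.2 v)) ≠ p.2 (p.1 v)}.ncard ≤ D} =
      ∑ A : Equiv.Perm (Fin n), Nat.card {B : Equiv.Perm (Fin n) // {v | A (ω⁻¹ (B v)) ≠ B (A v)}.ncard ≤ D} := by
    rw [← Nat.card_sigma]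
    exact Nat.card_congr (Equiv.subtypeProdEquivSigmaSubtype
      (fun A B : Equiv.Perm (Fin n) => {v | A (ω⁻¹ (B v)) ≠ B (A v)}.ncard ≤ D))
  have e2 : Nat.card {p : Equiv.Perm (Fin n) × Equiv.Perm (Fin n) // p.1 * p.2 = p.2 * p.1} =
      ∑ A : Equiv.Perm (Fin n), Nat.card {B : Equiv.Perm (Fin n) // A * B = B * A} := by
    rw [← Nat.card_sigma]
    exact Nat.card_congr (Equiv.subtypeProdEquivSigmaSubtype
      (fun A B : Equiv.Perm (Fin n) => A * B = B * A))
  rw [e1]
  calc _ ≤ ∑ A : Equiv.Perm (Fin n), (n * n) ^ D * Nat.card {B : Equiv.Perm (Fin n) // A * B = B * A} :=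
        Finset.sum_le_sum fun A _ => cj_fib n hn D ω A
    _ = (n * n) ^ D * ∑ A : Equiv.Perm (Fin n), Nat.card {B : Equiv.Perm (Fin n) // A * B = B * A} := by
        rw [Finset.mul_sum]
    _ ≤ (n * n) ^ D * (n.factorial * 2 ^ n) := by
        rw [← e2]
        exact Nat.mul_le_mul_left _ (comm_cnt n)
end H33.BO
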