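import Pool.Agent.H33.BO.Defs2

/-! # BO.Cmp1 : existence of a maximal pair of partial injections (paper 3.2)

NOTATION: `u = (ac M (wf W))⁻¹ w` for a cell `w`. An a-edge `(v, w)` is matched (`tgt none (om w) = src none (om v)`) iff `om w e0 = om v c3` and `om w c1 = om v c2`; a b-edge `(y, u)` is matched iff `om u el = om y c1` and `om u c3 = om y c2`. `TT dir none (src none (om v)) ↔ dir (om v c3) = some true`, `TT dir (some none) (src (some none) (om y)) ↔ dir (om y c1) = some false`.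
PROOF. Among the pairs `(A, B)` of subsets of `V × V` (a finite set) with all the properties of `CP` except `cA`, `cB` take one with the largest `A.ncard + B.ncard`. The set of these pairs is nonempty: `A := {(v, M none v) | v ∉ um, not T}`, `B := {(v, M (some none) v) | ..}`: `rA` is void: for `(v, w) ∈ A` the edge is matched, so `dir (om w e0) = dir (om v c3) ≠ some true`; `rB` similar.
`cA`: let `P := om w e0`, `dir P = some true`, `XG w`: `om u el = P`. From `(y, u) ∈ B` matched: `om y c1 = om u el = P`; `(z, y) ∈ A` matched: `om z c2 = om y c1 = P`; `(z, v) ∈ B` matched: `om v c3 = om z c2 = P`. `om v c2 = tl (om v c3) = tl P` (l3) and `om w c1 = tl (om w e0) = tl P` (l1): so `(v, w)` is matched. If `(v, w) ∉ A` then `A' := insert (v, w) A` has all the properties: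
`iA`: if `(v, w'') ∈ A`: `dir (om w'' e0) = dir (om v c3) = some true`, so `rA` gives `z'', y''` with `(z'', v) ∈ B`, so `z'' = z` (`jB`), `(z, y'') ∈ A`, so `y'' = y` (`iA`), `(y, u'') ∈ B`, so `u'' = u` (`iB`), `w'' = w`. `jA`: if `(v'', w) ∈ A`: `rA` gives `(y'', u) ∈ B`, so `y'' = y`, `(z'', y) ∈ A`, so `z'' = z`, `(z, v'') ∈ B`, so `v'' = v`.
`rA` for the new edge: `z, y` (in `B`, `A ⊆ A'`); the old relations remain true. This contradicts the maximality. `cB` is similar: `P := om w e0`, `dir P = some false`, `om u el = P`; `(v, w) ∈ A`: `om v c3 = P`; `(z, v) ∈ B`: `om z c2 = om v c3 = P`; `(z, y) ∈ A`: `om y c1 = om z c2 = P`; `om y c2 = tl P` (l4), `om u c3 = tl P` (l2): `(y, u)` is matched.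
If `(y, u'') ∈ B`: `dir (om u'' el) = dir (om y c1) = some false`, `rB` gives `(z'', y) ∈ A`, `z'' = z`, `(z, v'') ∈ B`, `v'' = v`, `(v, W u'') ∈ A`, so `W u'' = w`. If `(y'', u) ∈ B`: `rB` gives `(v'', W u) ∈ A`, `W u = w`, so `v'' = v`, `(z'', v) ∈ B`, `z'' = z`, `(z, y'') ∈ A`, `y'' = y`. -/

set_option autoImplicit false

open MeasureTheory H31.BE

namespace H33.BO

theorem cmp1_mA {k : ℕ} {W : Wd k} {P : Type} (Φ Ψ : Bg k W.length → P) :
    tgt (W := W) none Ψ = src (W := W) none Φ ↔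
      Ψ (e0 k W.length) = Φ (c3 k W.length) ∧ Ψ (c1 k W.length) = Φ (c2 k W.length) := by
  constructor
  · intro h
    have h1 := congrFun h ⟨(c3 k W.length, e0 k W.length), by simp [ifc]⟩
    have h2 := congrFun h ⟨(c2 k W.length, c1 k W.length), by simp [ifc]⟩
    exact ⟨h1, h2⟩
  · rintro ⟨h1, h2⟩
    funext p
    obtain ⟨p, hp⟩ := p
    simp only [ifc, Finset.mem_insert, Finset.mem_singleton] at hp
    rcases hp with rfl | rfl
    · exact h1
    · exact h2

theorem cmp1_mB {k : ℕ} {W : Wd k} {P : Type} (Φ Ψ : Bg k W.length → P) :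
    tgt (W := W) (some none) Ψ = src (W := W) (some none) Φ ↔
      Ψ (el k W.length) = Φ (c1 k W.length) ∧ Ψ (c3 k W.length) = Φ (c2 k W.length) := by
  constructor
  · intro h
    have h1 := congrFun h ⟨(c1 k W.length, el k W.length), by simp [ifc]⟩
    have h2 := congrFun h ⟨(c2 k W.length, c3 k W.length), by simp [ifc]⟩
    exact ⟨h1, h2⟩
  · rintro ⟨h1, h2⟩
    funext p
    obtain ⟨p, hp⟩ := p
    simp only [ifc, Finset.mem_insert, Finset.mem_singleton] at hp
    rcases hp with rfl | rfl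
    · exact h1
    · exact h2

/-- the conditions of `CP` without the maximality -/
structure Cmp1W {k : ℕ} (W : Wd k) {V P : Type} (dir : P → Option Bool) (om : V → Bg k W.length → P)
    (M : Lt k → Equiv.Perm V) (A B : Set (V × V)) : Prop where
  iA : ∀ v w w', (v, w) ∈ A → (v, w') ∈ A → w = w'
  jA : ∀ v v' w, (v, w) ∈ A → (v', w) ∈ A → v = v'
  iB : ∀ v w w', (v, w) ∈ B → (v, w') ∈ B → w = w'
  jB : ∀ v v' w, (v, w) ∈ B → (v', w) ∈ B → v = v'
  sA : ∀ v, v ∉ um W dir om M none → ¬ TT dir none (src none (om v)) → (v, M none v) ∈ A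
  sB : ∀ v, v ∉ um W dir om M (some none) → ¬ TT dir (some none) (src (some none) (om v)) →
    (v, M (some none) v) ∈ B
  mA : ∀ v w, (v, w) ∈ A → om w (e0 k W.length) = om v (c3 k W.length) ∧
    om w (c1 k W.length) = om v (c2 k W.length)
  mB : ∀ v w, (v, w) ∈ B → om w (el k W.length) = om v (c1 k W.length) ∧
    om w (c3 k W.length) = om v (c2 k W.length)
  rA : ∀ v w, (v, w) ∈ A → dir (om w (e0 k W.length)) = some true →
    ∃ z y, (z, v) ∈ B ∧ (z, y) ∈ A ∧ (y, (ac M (wf W))⁻¹ w) ∈ B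
  rB : ∀ y u, (y, u) ∈ B → dir (om u (el k W.length)) = some false →
    ∃ z v, (z, y) ∈ A ∧ (z, v) ∈ B ∧ (v, ac M (wf W) u) ∈ A

theorem cmp1_insA {k : ℕ} {W : Wd k} {V P : Type} {dir : P → Option Bool} {om : V → Bg k W.length → P}
    {M : Lt k → Equiv.Perm V} {A B : Set (V × V)} (h : Cmp1W W dir om M A B) (v w z y : V)
    (hm : om w (e0 k W.length) = om v (c3 k W.length) ∧ om w (c1 k W.length) = om v (c2 k W.length))
    (hd : dir (om w (e0 k W.length)) = some true) (h1 : (z, v) ∈ B) (h2 : (z, y) ∈ A)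
    (h3 : (y, (ac M (wf W))⁻¹ w) ∈ B) : Cmp1W W dir om M (insert (v, w) A) B := by
  have key1 : ∀ w'', (v, w'') ∈ A → w'' = w := by
    intro w'' hw
    have hd2 : dir (om w'' (e0 k W.length)) = some true := by
      rw [(h.mA _ _ hw).1, ← hm.1, hd]
    obtain ⟨z2, y2, e1, e2, e3⟩ := h.rA _ _ hw hd2
    have hz : z2 = z := h.jB _ _ _ e1 h1
    rw [hz] at e2
    have hy : y2 = y := h.iA _ _ _ e2 h2
    rw [hy] at e3
    have hu := h.iB _ _ _ e3 h3
    exact (ac M (wf W))⁻¹.injective hu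
  have key2 : ∀ v'', (v'', w) ∈ A → v'' = v := by
    intro v'' hv
    obtain ⟨z2, y2, e1, e2, e3⟩ := h.rA _ _ hv hd
    have hy : y2 = y := h.jB _ _ _ e3 h3
    rw [hy] at e2
    have hz : z2 = z := h.jA _ _ _ e2 h2
    rw [hz] at e1
    exact h.iB _ _ _ e1 h1
  refine ⟨?_, ?_, h.iB, h.jB, ?_, h.sB, ?_, h.mB, ?_, ?_⟩
  · intro a b b' hb hb'
    rcases hb with hb | hb <;> rcases hb' with hb' | hb'
    · simp only [Prod.mk.injEq] at hb hb'
      rw [hb.2, hb'.2]
    · simp only [Prod.mk.injEq] at hb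
      rw [hb.1] at hb'
      rw [hb.2, key1 _ hb']
    · simp only [Prod.mk.injEq] at hb'
      rw [hb'.1] at hb
      rw [hb'.2, key1 _ hb]
    · exact h.iA _ _ _ hb hb'
  · intro a a' b hb hb'
    rcases hb with hb | hb <;> rcases hb' with hb' | hb'
    · simp only [Prod.mk.injEq] at hb hb'
      rw [hb.1, hb'.1]
    · simp only [Prod.mk.injEq] at hb
      rw [hb.2] at hb'
      rw [hb.1, key2 _ hb']
    · simp only [Prod.mk.injEq] at hb'
      rw [hb'.2] at hb
      rw [hb'.1, key2 _ hb]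
    · exact h.jA _ _ _ hb hb'
  · intro a ha hT
    exact Or.inr (h.sA a ha hT)
  · intro a b hab
    rcases hab with hab | hab
    · simp only [Prod.mk.injEq] at hab
      rw [hab.1, hab.2]
      exact hm
    · exact h.mA _ _ hab
  · intro a b hab hd'
    rcases hab with hab | hab
    · simp only [Prod.mk.injEq] at hab
      rw [hab.1, hab.2]
      exact ⟨z, y, h1, Or.inr h2, h3⟩
    · obtain ⟨z2, y2, e1, e2, e3⟩ := h.rA _ _ hab hd'
      exact ⟨z2, y2, e1, Or.inr e2, e3⟩
  · intro a b hab hd'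
    obtain ⟨z2, y2, e1, e2, e3⟩ := h.rB _ _ hab hd'
    exact ⟨z2, y2, Or.inr e1, e2, Or.inr e3⟩

theorem cmp1_insB {k : ℕ} {W : Wd k} {V P : Type} {dir : P → Option Bool} {om : V → Bg k W.length → P}
    {M : Lt k → Equiv.Perm V} {A B : Set (V × V)} (h : Cmp1W W dir om M A B) (v y z u : V)
    (hm : om u (el k W.length) = om y (c1 k W.length) ∧ om u (c3 k W.length) = om y (c2 k W.length))
    (hd : dir (om u (el k W.length)) = some false) (h1 : (z, y) ∈ A) (h2 : (z, v) ∈ B)
    (h3 : (v, ac M (wf W) u) ∈ A) : Cmp1W W dir om M A (insert (y, u) B) := by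
  have key1 : ∀ u'', (y, u'') ∈ B → u'' = u := by
    intro u'' hu
    have hd2 : dir (om u'' (el k W.length)) = some false := by
      rw [(h.mB _ _ hu).1, ← hm.1, hd]
    obtain ⟨z2, v2, e1, e2, e3⟩ := h.rB _ _ hu hd2
    have hz : z2 = z := h.jA _ _ _ e1 h1
    rw [hz] at e2
    have hv : v2 = v := h.iB _ _ _ e2 h2
    rw [hv] at e3
    have hw := h.iA _ _ _ e3 h3
    exact (ac M (wf W)).injective hw
  have key2 : ∀ y'', (y'', u) ∈ B → y'' = y := by
    intro y'' hy
    obtain ⟨z2, v2, e1, e2, e3⟩ := h.rB _ _ hy hd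
    have hv : v2 = v := h.jA _ _ _ e3 h3
    rw [hv] at e2
    have hz : z2 = z := h.jB _ _ _ e2 h2
    rw [hz] at e1
    exact h.iA _ _ _ e1 h1
  refine ⟨h.iA, h.jA, ?_, ?_, h.sA, ?_, h.mA, ?_, ?_, ?_⟩
  · intro a b b' hb hb'
    rcases hb with hb | hb <;> rcases hb' with hb' | hb'
    · simp only [Prod.mk.injEq] at hb hb'
      rw [hb.2, hb'.2]
    · simp only [Prod.mk.injEq] at hb
      rw [hb.1] at hb'
      rw [hb.2, key1 _ hb']
    · simp only [Prod.mk.injEq] at hb'
      rw [hb'.1] at hb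
      rw [hb'.2, key1 _ hb]
    · exact h.iB _ _ _ hb hb'
  · intro a a' b hb hb'
    rcases hb with hb | hb <;> rcases hb' with hb' | hb'
    · simp only [Prod.mk.injEq] at hb hb'
      rw [hb.1, hb'.1]
    · simp only [Prod.mk.injEq] at hb
      rw [hb.2] at hb'
      rw [hb.1, key2 _ hb']
    · simp only [Prod.mk.injEq] at hb'
      rw [hb'.2] at hb
      rw [hb'.1, key2 _ hb]
    · exact h.jB _ _ _ hb hb'
  · intro a ha hT
    exact Or.inr (h.sB a ha hT)
  · intro a b hab
    rcases hab with hab | hab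
    · simp only [Prod.mk.injEq] at hab
      rw [hab.1, hab.2]
      exact hm
    · exact h.mB _ _ hab
  · intro a b hab hd'
    obtain ⟨z2, y2, e1, e2, e3⟩ := h.rA _ _ hab hd'
    exact ⟨z2, y2, Or.inr e1, e2, Or.inr e3⟩
  · intro a b hab hd'
    rcases hab with hab | hab
    · simp only [Prod.mk.injEq] at hab
      rw [hab.1, hab.2]
      exact ⟨z, v, h1, Or.inr h2, h3⟩
    · obtain ⟨z2, y2, e1, e2, e3⟩ := h.rB _ _ hab hd'
      exact ⟨z2, y2, e1, Or.inr e2, e3⟩

theorem cmp1_start {k : ℕ} (W : Wd k) {V P : Type} (dir : P → Option Bool) (om : V → Bg k W.length → P)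
    (M : Lt k → Equiv.Perm V) :
    Cmp1W W dir om M
      {p | p.1 ∉ um W dir om M none ∧ ¬ TT dir none (src none (om p.1)) ∧ p.2 = M none p.1}
      {p | p.1 ∉ um W dir om M (some none) ∧ ¬ TT dir (some none) (src (some none) (om p.1)) ∧
        p.2 = M (some none) p.1} := by
  have hmA : ∀ v w, v ∉ um W dir om M none → ¬ TT dir none (src none (om v)) → w = M none v →
      om w (e0 k W.length) = om v (c3 k W.length) ∧ om w (c1 k W.length) = om v (c2 k W.length) := by
    intro v w h1 h2 h3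
    rw [h3]
    apply (cmp1_mA (W := W) (om v) (om (M none v))).1
    by_contra hc
    exact h1 ⟨h2, hc⟩
  have hmB : ∀ v w, v ∉ um W dir om M (some none) → ¬ TT dir (some none) (src (some none) (om v)) →
      w = M (some none) v →
      om w (el k W.length) = om v (c1 k W.length) ∧ om w (c3 k W.length) = om v (c2 k W.length) := by
    intro v w h1 h2 h3
    rw [h3]
    apply (cmp1_mB (W := W) (om v) (om (M (some none) v))).1
    by_contra hc
    exact h1 ⟨h2, hc⟩
  refine ⟨?_, ?_, ?_, ?_, ?_, ?_, ?_, ?_, ?_, ?_⟩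
  · rintro v w w' ⟨_, _, h1⟩ ⟨_, _, h2⟩
    simp only at h1 h2
    rw [h1, h2]
  · rintro v v' w ⟨_, _, h1⟩ ⟨_, _, h2⟩
    simp only at h1 h2
    exact (M none).injective (h1.symm.trans h2)
  · rintro v w w' ⟨_, _, h1⟩ ⟨_, _, h2⟩
    simp only at h1 h2
    rw [h1, h2]
  · rintro v v' w ⟨_, _, h1⟩ ⟨_, _, h2⟩
    simp only at h1 h2
    exact (M (some none)).injective (h1.symm.trans h2)
  · intro v h1 h2
    exact ⟨h1, h2, rfl⟩
  · intro v h1 h2
    exact ⟨h1, h2, rfl⟩
  · rintro v w ⟨h1, h2, h3⟩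
    exact hmA v w h1 h2 h3
  · rintro v w ⟨h1, h2, h3⟩
    exact hmB v w h1 h2 h3
  · rintro v w ⟨h1, h2, h3⟩ hd
    exfalso
    apply h2
    show dir (om v (c3 k W.length)) = some true
    rw [← (hmA v w h1 h2 h3).1]
    exact hd
  · rintro v w ⟨h1, h2, h3⟩ hd
    exfalso
    apply h2
    show dir (om v (c1 k W.length)) = some false
    rw [← (hmB v w h1 h2 h3).1]
    exact hd

theorem cmp1 {k : ℕ} (W : Wd k) {V P : Type} [Finite V] (dir : P → Option Bool) (tl : P → P)
    (om : V → Bg k W.length → P) (hsup : ∀ v, Sup dir tl (om v)) (M : Lt k → Equiv.Perm V) :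
    ∃ A B : Set (V × V), CP W dir om M A B := by
  obtain ⟨p, hp, hmax⟩ := Set.exists_max_image
    {p : Set (V × V) × Set (V × V) | Cmp1W W dir om M p.1 p.2} (fun p => p.1.ncard + p.2.ncard)
    (Set.toFinite _) ⟨(_, _), cmp1_start W dir om M⟩
  obtain ⟨A, B⟩ := p
  have h : Cmp1W W dir om M A B := hp
  refine ⟨A, B, h.iA, h.jA, h.iB, h.jB, h.sA, h.sB, ?_, ?_, h.rA, h.rB, ?_, ?_⟩
  · intro v w hvw
    exact (cmp1_mA (W := W) (om v) (om w)).2 (h.mA v w hvw)
  · intro v w hvw
    exact (cmp1_mB (W := W) (om v) (om w)).2 (h.mB v w hvw)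
  · intro v w z y hX hd h1 h2 h3
    have hX' : om ((ac M (wf W))⁻¹ w) (el k W.length) = om w (e0 k W.length) := hX
    have f1 : om v (c3 k W.length) = om w (e0 k W.length) := by
      rw [(h.mB _ _ h1).2, ← (h.mA _ _ h2).2, ← (h.mB _ _ h3).1, hX']
    have hm : om w (e0 k W.length) = om v (c3 k W.length) ∧
        om w (c1 k W.length) = om v (c2 k W.length) := by
      refine ⟨f1.symm, ?_⟩
      rw [(hsup w).l1 hd, (hsup v).l3 (by rw [f1]; exact hd), f1]
    by_contra hn
    have hW := cmp1_insA h v w z y hm hd h1 h2 h3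
    have h4 := hmax (insert (v, w) A, B) hW
    simp only at h4
    rw [Set.ncard_insert_of_notMem hn (Set.toFinite A)] at h4
    omega
  · intro v w z y hX hd h1 h2 h3
    have hX' : om ((ac M (wf W))⁻¹ w) (el k W.length) = om w (e0 k W.length) := hX
    have f1 : om y (c1 k W.length) = om w (e0 k W.length) := by
      rw [(h.mA _ _ h3).2, ← (h.mB _ _ h2).2, (h.mA _ _ h1).1]
    have hd2 : dir (om ((ac M (wf W))⁻¹ w) (el k W.length)) = some false := by
      rw [hX', hd]
    have hm : om ((ac M (wf W))⁻¹ w) (el k W.length) = om y (c1 k W.length) ∧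
        om ((ac M (wf W))⁻¹ w) (c3 k W.length) = om y (c2 k W.length) := by
      refine ⟨by rw [hX', f1], ?_⟩
      rw [(hsup _).l2 hd2, (hsup y).l4 (by rw [f1]; exact hd), hX', f1]
    by_contra hn
    have h5 : (v, ac M (wf W) ((ac M (wf W))⁻¹ w)) ∈ A := by
      rw [show ac M (wf W) ((ac M (wf W))⁻¹ w) = w from (ac M (wf W)).apply_symm_apply w]
      exact h1
    have hW := cmp1_insB h v y z ((ac M (wf W))⁻¹ w) hm hd2 h3 h2 h5
    have h4 := hmax (A, insert (y, (ac M (wf W))⁻¹ w) B) hW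
    simp only at h4
    rw [Set.ncard_insert_of_notMem hn (Set.toFinite B)] at h4
    omega

end H33.BO
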