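import Pool.Agent.H33.BO.Defs2

/-! # BO.Cmp2 : the slot inequalities I (paper 3.2)

NOTATION as in Cmp1: an a-edge `(v, w) ∈ A` is matched: `om w e0 = om v c3`, `om w c1 = om v c2`; a b-edge `(y, u) ∈ B`: `om u el = om y c1`, `om u c3 = om y c2` (`mA`, `mB` at the pairs of `ifc`).
PROOF of `slotA`: let `w` be in the set on the left: `P := om w e0`, `dir P = some true`, `dp P = i`, no A-edge into `w`. If not `XG w`: first term. Otherwise `u := (ac M (wf W))⁻¹ w`, `om u el = P`, `dir ≠ some false`. If there is no B-edge into `u`: second term (the map `w ↦ u` is injective). Otherwise `(y, u) ∈ B`, `om y c1 = P`. If there is no A-edge into `y`: if `dir (om y e0) ≠ some true`: third term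
(`w ↦ y` is injective: `iB`); if `dir (om y e0) = some true`: `om y c1 = tl (om y e0)` (l1), so `dp (om y e0) = dp P + 1 = i + 1`: fourth term. Otherwise `(z, y) ∈ A`, `om z c2 = om y c1 = P`. If there is no B-edge from `z`: if `dir (om z c1) ≠ some false`: fifth term; if `= some false`: `om z c2 = tl (om z c1)` (l4), `dp (om z c1) = i + 1`: sixth term. Otherwise `(z, v) ∈ B`, and `cA` gives `(v, w) ∈ A`, a contradiction.
`slotB`: let `u` be in the set on the left: `P := om u el`, `dir P = some false`, `dp P = i`, no B-edge into `u`; `w := ac M (wf W) u`. If not `XG w`: first term. `om w e0 = P`. No A-edge into `w`: second term (`dir P ≠ some true`). `(v, w) ∈ A`: `om v c3 = P`. No B-edge into `v`: `dir (om v el) ≠ some false`: third term; `= some false`: `om v c3 = tl (om v el)` (l2): fourth term. `(z, v) ∈ B`: `om z c2 = om v c3 = P`.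
No A-edge from `z`: `dir (om z c3) ≠ some true`: fifth; `= some true`: `om z c2 = tl (om z c3)` (l3): sixth term. `(z, y) ∈ A`: `cB` gives `(y, u) ∈ B`, contradiction. In all cases the map from the set of these `w` (`u`) to the set of the term is injective (`iA, jA, iB, jB`); cover the left set by six sets and use `Set.ncard_le_ncard_of_injOn`, `Set.ncard_union_le`. -/

set_option autoImplicit false

open MeasureTheory H31.BE

namespace H33.BO

private theorem cmp2_card {V : Type} [Finite V] (T : Set V) (R : V → V → Prop)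
    (hR : ∀ w w' y, R w y → R w' y → w = w') : {w | ∃ y, y ∈ T ∧ R w y}.ncard ≤ T.ncard := by
  classical
  have hex : ∀ w, ∃ y, (∃ y, y ∈ T ∧ R w y) → y ∈ T ∧ R w y := by
    intro w
    by_cases h : ∃ y, y ∈ T ∧ R w y
    · obtain ⟨y, hy⟩ := h
      exact ⟨y, fun _ => hy⟩
    · exact ⟨w, fun h' => absurd h' h⟩
  choose f hf using hex
  refine Set.ncard_le_ncard_of_injOn f (fun w hw => (hf w hw).1) ?_ (Set.toFinite T)
  intro w hw w' hw' he
  have h1 := (hf w hw).2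
  have h2 := (hf w' hw').2
  rw [← he] at h2
  exact hR w w' _ h1 h2

private theorem cmp2_cover {V : Type} [Finite V] (S T1 T2 T3 T4 T5 T6 : Set V)
    (R1 R2 R3 R4 R5 R6 : V → V → Prop)
    (h1 : ∀ w w' y, R1 w y → R1 w' y → w = w') (h2 : ∀ w w' y, R2 w y → R2 w' y → w = w')
    (h3 : ∀ w w' y, R3 w y → R3 w' y → w = w') (h4 : ∀ w w' y, R4 w y → R4 w' y → w = w')
    (h5 : ∀ w w' y, R5 w y → R5 w' y → w = w') (h6 : ∀ w w' y, R6 w y → R6 w' y → w = w')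
    (hc : ∀ w ∈ S, (∃ y, y ∈ T1 ∧ R1 w y) ∨ (∃ y, y ∈ T2 ∧ R2 w y) ∨ (∃ y, y ∈ T3 ∧ R3 w y) ∨
      (∃ y, y ∈ T4 ∧ R4 w y) ∨ (∃ y, y ∈ T5 ∧ R5 w y) ∨ (∃ y, y ∈ T6 ∧ R6 w y)) :
    S.ncard ≤ T1.ncard + T2.ncard + T3.ncard + T4.ncard + T5.ncard + T6.ncard := by
  have hsub : S ⊆ (((({w | ∃ y, y ∈ T1 ∧ R1 w y} ∪ {w | ∃ y, y ∈ T2 ∧ R2 w y}) ∪
      {w | ∃ y, y ∈ T3 ∧ R3 w y}) ∪ {w | ∃ y, y ∈ T4 ∧ R4 w y}) ∪ {w | ∃ y, y ∈ T5 ∧ R5 w y}) ∪
      {w | ∃ y, y ∈ T6 ∧ R6 w y} := by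
    intro w hw
    rcases hc w hw with h | h | h | h | h | h
    · exact Or.inl (Or.inl (Or.inl (Or.inl (Or.inl h))))
    · exact Or.inl (Or.inl (Or.inl (Or.inl (Or.inr h))))
    · exact Or.inl (Or.inl (Or.inl (Or.inr h)))
    · exact Or.inl (Or.inl (Or.inr h))
    · exact Or.inl (Or.inr h)
    · exact Or.inr h
  have e0 := Set.ncard_le_ncard hsub (Set.toFinite _)
  have e1 := Set.ncard_union_le {w | ∃ y, y ∈ T1 ∧ R1 w y} {w | ∃ y, y ∈ T2 ∧ R2 w y}
  have e2 := Set.ncard_union_le ({w | ∃ y, y ∈ T1 ∧ R1 w y} ∪ {w | ∃ y, y ∈ T2 ∧ R2 w y})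
    {w | ∃ y, y ∈ T3 ∧ R3 w y}
  have e3 := Set.ncard_union_le (({w | ∃ y, y ∈ T1 ∧ R1 w y} ∪ {w | ∃ y, y ∈ T2 ∧ R2 w y}) ∪
      {w | ∃ y, y ∈ T3 ∧ R3 w y}) {w | ∃ y, y ∈ T4 ∧ R4 w y}
  have e4 := Set.ncard_union_le ((({w | ∃ y, y ∈ T1 ∧ R1 w y} ∪ {w | ∃ y, y ∈ T2 ∧ R2 w y}) ∪
      {w | ∃ y, y ∈ T3 ∧ R3 w y}) ∪ {w | ∃ y, y ∈ T4 ∧ R4 w y}) {w | ∃ y, y ∈ T5 ∧ R5 w y}
  have e5 := Set.ncard_union_le (((({w | ∃ y, y ∈ T1 ∧ R1 w y} ∪ {w | ∃ y, y ∈ T2 ∧ R2 w y}) ∪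
      {w | ∃ y, y ∈ T3 ∧ R3 w y}) ∪ {w | ∃ y, y ∈ T4 ∧ R4 w y}) ∪ {w | ∃ y, y ∈ T5 ∧ R5 w y})
      {w | ∃ y, y ∈ T6 ∧ R6 w y}
  have f1 := cmp2_card T1 R1 h1
  have f2 := cmp2_card T2 R2 h2
  have f3 := cmp2_card T3 R3 h3
  have f4 := cmp2_card T4 R4 h4
  have f5 := cmp2_card T5 R5 h5
  have f6 := cmp2_card T6 R6 h6
  omega

section

variable {k : ℕ} {W : Wd k} {V P : Type} {dir : P → Option Bool}
  {om : V → Bg k W.length → P} {M : Lt k → Equiv.Perm V} {A B : Set (V × V)}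

private theorem cmp2_A1 (h : CP W dir om M A B) {v w : V} (hvw : (v, w) ∈ A) :
    om w (e0 k W.length) = om v (c3 k W.length) :=
  congrFun (h.mA v w hvw) ⟨(c3 k W.length, e0 k W.length), by simp [ifc]⟩

private theorem cmp2_A2 (h : CP W dir om M A B) {v w : V} (hvw : (v, w) ∈ A) :
    om w (c1 k W.length) = om v (c2 k W.length) :=
  congrFun (h.mA v w hvw) ⟨(c2 k W.length, c1 k W.length), by simp [ifc]⟩

private theorem cmp2_B1 (h : CP W dir om M A B) {v w : V} (hvw : (v, w) ∈ B) :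
    om w (el k W.length) = om v (c1 k W.length) :=
  congrFun (h.mB v w hvw) ⟨(c1 k W.length, el k W.length), by simp [ifc]⟩

private theorem cmp2_B2 (h : CP W dir om M A B) {v w : V} (hvw : (v, w) ∈ B) :
    om w (c3 k W.length) = om v (c2 k W.length) :=
  congrFun (h.mB v w hvw) ⟨(c2 k W.length, c3 k W.length), by simp [ifc]⟩

end

theorem slotA {k : ℕ} (W : Wd k) {V P : Type} [Finite V] (dir : P → Option Bool) (tl : P → P) (dp : P → ℕ)
    (hdp : ∀ p c, dir p = some c → dp p = dp (tl p) + 1)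
    (om : V → Bg k W.length → P) (hsup : ∀ v, Sup dir tl (om v)) (M : Lt k → Equiv.Perm V)
    (A B : Set (V × V)) (h : CP W dir om M A B) (i : ℕ) :
    fc W dir dp om (e0 k W.length) true (fun w => ¬ ∃ v, (v, w) ∈ A) i ≤
      {w | ¬ XG W om M w}.ncard + gc W dir om (el k W.length) false (fun u => ¬ ∃ y, (y, u) ∈ B) +
      gc W dir om (e0 k W.length) true (fun w => ¬ ∃ v, (v, w) ∈ A) +
      fc W dir dp om (e0 k W.length) true (fun w => ¬ ∃ v, (v, w) ∈ A) (i + 1) +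
      gc W dir om (c1 k W.length) false (fun z => ¬ ∃ v, (z, v) ∈ B) +
      fc W dir dp om (c1 k W.length) false (fun z => ¬ ∃ v, (z, v) ∈ B) (i + 1) := by
  unfold fc gc
  refine cmp2_cover _ _ _ _ _ _ _ (fun w y => w = y) (fun w y => (ac M (wf W))⁻¹ w = y)
    (fun w y => (y, (ac M (wf W))⁻¹ w) ∈ B) (fun w y => (y, (ac M (wf W))⁻¹ w) ∈ B)
    (fun w z => ∃ y, (z, y) ∈ A ∧ (y, (ac M (wf W))⁻¹ w) ∈ B)
    (fun w z => ∃ y, (z, y) ∈ A ∧ (y, (ac M (wf W))⁻¹ w) ∈ B) ?_ ?_ ?_ ?_ ?_ ?_ ?_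
  · intro w w' y h1 h2
    exact h1.trans h2.symm
  · intro w w' y h1 h2
    exact (ac M (wf W))⁻¹.injective (h1.trans h2.symm)
  · intro w w' y h1 h2
    exact (ac M (wf W))⁻¹.injective (h.iB _ _ _ h1 h2)
  · intro w w' y h1 h2
    exact (ac M (wf W))⁻¹.injective (h.iB _ _ _ h1 h2)
  · rintro w w' z ⟨y, h1, h2⟩ ⟨y', h3, h4⟩
    have := h.iA _ _ _ h1 h3
    subst this
    exact (ac M (wf W))⁻¹.injective (h.iB _ _ _ h2 h4)
  · rintro w w' z ⟨y, h1, h2⟩ ⟨y', h3, h4⟩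
    have := h.iA _ _ _ h1 h3
    subst this
    exact (ac M (wf W))⁻¹.injective (h.iB _ _ _ h2 h4)
  · rintro w ⟨hdir, hdpw, hno⟩
    by_cases hX : XG W om M w
    swap
    · exact Or.inl ⟨w, hX, rfl⟩
    have hu : om ((ac M (wf W))⁻¹ w) (el k W.length) = om w (e0 k W.length) := hX
    by_cases hB : ∃ y, (y, (ac M (wf W))⁻¹ w) ∈ B
    swap
    · refine Or.inr (Or.inl ⟨(ac M (wf W))⁻¹ w, ⟨?_, hB⟩, rfl⟩)
      rw [hu, hdir]
      simp
    obtain ⟨y, hy⟩ := hB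
    have hy1 : om y (c1 k W.length) = om w (e0 k W.length) := (cmp2_B1 h hy).symm.trans hu
    by_cases hA : ∃ z, (z, y) ∈ A
    swap
    · by_cases hd : dir (om y (e0 k W.length)) = some true
      · refine Or.inr (Or.inr (Or.inr (Or.inl ⟨y, ⟨hd, ?_, hA⟩, hy⟩)))
        have h1 := (hsup y).l1 hd
        have h2 := hdp _ _ hd
        rw [← h1, hy1, hdpw] at h2
        exact h2
      · exact Or.inr (Or.inr (Or.inl ⟨y, ⟨hd, hA⟩, hy⟩))
    obtain ⟨z, hz⟩ := hA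
    have hz2 : om z (c2 k W.length) = om w (e0 k W.length) := (cmp2_A2 h hz).symm.trans hy1
    by_cases hB' : ∃ v, (z, v) ∈ B
    swap
    · by_cases hd : dir (om z (c1 k W.length)) = some false
      · refine Or.inr (Or.inr (Or.inr (Or.inr (Or.inr ⟨z, ⟨hd, ?_, hB'⟩, y, hz, hy⟩))))
        have h1 := (hsup z).l4 hd
        have h2 := hdp _ _ hd
        rw [← h1, hz2, hdpw] at h2
        exact h2
      · exact Or.inr (Or.inr (Or.inr (Or.inr (Or.inl ⟨z, ⟨hd, hB'⟩, y, hz, hy⟩))))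
    obtain ⟨v, hv⟩ := hB'
    exact absurd ⟨v, h.cA v w z y hX hdir hv hz hy⟩ hno

theorem slotB {k : ℕ} (W : Wd k) {V P : Type} [Finite V] (dir : P → Option Bool) (tl : P → P) (dp : P → ℕ)
    (hdp : ∀ p c, dir p = some c → dp p = dp (tl p) + 1)
    (om : V → Bg k W.length → P) (hsup : ∀ v, Sup dir tl (om v)) (M : Lt k → Equiv.Perm V)
    (A B : Set (V × V)) (h : CP W dir om M A B) (i : ℕ) :
    fc W dir dp om (el k W.length) false (fun u => ¬ ∃ y, (y, u) ∈ B) i ≤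
      {w | ¬ XG W om M w}.ncard + gc W dir om (e0 k W.length) true (fun w => ¬ ∃ v, (v, w) ∈ A) +
      gc W dir om (el k W.length) false (fun u => ¬ ∃ y, (y, u) ∈ B) +
      fc W dir dp om (el k W.length) false (fun u => ¬ ∃ y, (y, u) ∈ B) (i + 1) +
      gc W dir om (c3 k W.length) true (fun z => ¬ ∃ y, (z, y) ∈ A) +
      fc W dir dp om (c3 k W.length) true (fun z => ¬ ∃ y, (z, y) ∈ A) (i + 1) := by
  unfold fc gc
  refine cmp2_cover _ _ _ _ _ _ _ (fun u w => ac M (wf W) u = w) (fun u w => ac M (wf W) u = w)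
    (fun u v => (v, ac M (wf W) u) ∈ A) (fun u v => (v, ac M (wf W) u) ∈ A)
    (fun u z => ∃ v, (z, v) ∈ B ∧ (v, ac M (wf W) u) ∈ A)
    (fun u z => ∃ v, (z, v) ∈ B ∧ (v, ac M (wf W) u) ∈ A) ?_ ?_ ?_ ?_ ?_ ?_ ?_
  · intro w w' y h1 h2
    exact (ac M (wf W)).injective (h1.trans h2.symm)
  · intro w w' y h1 h2
    exact (ac M (wf W)).injective (h1.trans h2.symm)
  · intro w w' y h1 h2
    exact (ac M (wf W)).injective (h.iA _ _ _ h1 h2)
  · intro w w' y h1 h2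
    exact (ac M (wf W)).injective (h.iA _ _ _ h1 h2)
  · rintro w w' z ⟨y, h1, h2⟩ ⟨y', h3, h4⟩
    have := h.iB _ _ _ h1 h3
    subst this
    exact (ac M (wf W)).injective (h.iA _ _ _ h2 h4)
  · rintro w w' z ⟨y, h1, h2⟩ ⟨y', h3, h4⟩
    have := h.iB _ _ _ h1 h3
    subst this
    exact (ac M (wf W)).injective (h.iA _ _ _ h2 h4)
  · rintro u ⟨hdir, hdpw, hno⟩
    have hGF : (ac M (wf W))⁻¹ (ac M (wf W) u) = u := by simp
    by_cases hX : XG W om M (ac M (wf W) u)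
    swap
    · exact Or.inl ⟨_, hX, rfl⟩
    have hu : om (ac M (wf W) u) (e0 k W.length) = om u (el k W.length) := by
      have h1 : om ((ac M (wf W))⁻¹ (ac M (wf W) u)) (el k W.length) =
        om (ac M (wf W) u) (e0 k W.length) := hX
      rw [hGF] at h1
      exact h1.symm
    by_cases hA : ∃ v, (v, ac M (wf W) u) ∈ A
    swap
    · refine Or.inr (Or.inl ⟨_, ⟨?_, hA⟩, rfl⟩)
      rw [hu, hdir]
      simp
    obtain ⟨v, hv⟩ := hA
    have hv3 : om v (c3 k W.length) = om u (el k W.length) := (cmp2_A1 h hv).symm.trans hu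
    by_cases hB : ∃ z, (z, v) ∈ B
    swap
    · by_cases hd : dir (om v (el k W.length)) = some false
      · refine Or.inr (Or.inr (Or.inr (Or.inl ⟨v, ⟨hd, ?_, hB⟩, hv⟩)))
        have h1 := (hsup v).l2 hd
        have h2 := hdp _ _ hd
        rw [← h1, hv3, hdpw] at h2
        exact h2
      · exact Or.inr (Or.inr (Or.inl ⟨v, ⟨hd, hB⟩, hv⟩))
    obtain ⟨z, hz⟩ := hB
    have hz2 : om z (c2 k W.length) = om u (el k W.length) := (cmp2_B2 h hz).symm.trans hv3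
    by_cases hA' : ∃ y, (z, y) ∈ A
    swap
    · by_cases hd : dir (om z (c3 k W.length)) = some true
      · refine Or.inr (Or.inr (Or.inr (Or.inr (Or.inr ⟨z, ⟨hd, ?_, hA'⟩, v, hz, hv⟩))))
        have h1 := (hsup z).l3 hd
        have h2 := hdp _ _ hd
        rw [← h1, hz2, hdpw] at h2
        exact h2
      · exact Or.inr (Or.inr (Or.inr (Or.inr (Or.inl ⟨z, ⟨hd, hA'⟩, v, hz, hv⟩))))
    obtain ⟨y, hy⟩ := hA'
    have hfin := h.cB v (ac M (wf W) u) z y hX (by rw [hu, hdir]) hv hz hy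
    rw [hGF] at hfin
    exact absurd ⟨y, hfin⟩ hno

end H33.BO
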