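import Pool.Agent.H33.BO.Defs2

/-! # BO.Cmp2b : the slot inequalities II (paper 3.2)

PROOF. `src_tgt_A`: the a-edges `(v, w) ∈ A` with `dir (om v c3) = some true`, `dp = i` are the same as those with `dir (om w e0) = some true`, `dp (om w e0) = i` (matched: `om w e0 = om v c3`), and `A` is a partial injection: so `cn c3 true i - fc c3 true (no A-edge from) i = cn e0 true i - fc e0 true (no A-edge into) i`. The same for `B` (`om u el = om y c1`).
`gc_src_A`: if `dir (om v c3) ≠ some true` (i.e. not T) and `v ∉ um` then `sA` gives an edge. `gc_tgt_A`: `#{w | dir (om w e0) ≠ some true} = n - ∑ i ≤ D, cn e0 true i` (depths are at most `D`), `n = Nat.card V`; the A-edges with not T source: at least `#{v | dir (om v c3) ≠ some true} - um = n - ∑ i, cn c3 true i - um`; their targets are different and have `dir (om w e0) ≠ some true`. So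
`gc ≤ (n - ∑ cn e0) - (n - ∑ cn c3 - um) ≤ um + ∑ |cn c3 - cn e0|`. The same for `B` with `el`, `c1`, `false`. -/

set_option autoImplicit false

open MeasureTheory H31.BE

namespace H33.BO

private theorem cmp2b_card {V : Type} [Finite V] (S T : Set V) (R : V → V → Prop)
    (hR : ∀ w w' y, R w y → R w' y → w = w') (hS : ∀ w ∈ S, ∃ y, y ∈ T ∧ R w y) :
    S.ncard ≤ T.ncard := by
  classical
  have hex : ∀ w, ∃ y, w ∈ S → y ∈ T ∧ R w y := by
    intro w
    by_cases h : w ∈ S
    · obtain ⟨y, hy⟩ := hS w h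
      exact ⟨y, fun _ => hy⟩
    · exact ⟨w, fun h' => absurd h' h⟩
  choose f hf using hex
  refine Set.ncard_le_ncard_of_injOn f (fun w hw => (hf w hw).1) ?_ (Set.toFinite T)
  intro w hw w' hw' he
  have h1 := (hf w hw).2
  have h2 := (hf w' hw').2
  rw [← he] at h2
  exact hR w w' _ h1 h2

private theorem cmp2b_split {V : Type} [Finite V] (p q : V → Prop) :
    {v | p v}.ncard = {v | p v ∧ ¬ q v}.ncard + {v | p v ∧ q v}.ncard := by
  classical
  rw [← Set.ncard_union_eq]
  · congr 1
    ext v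
    simp only [Set.mem_setOf_eq, Set.mem_union]
    tauto
  · rw [Set.disjoint_left]
    rintro v ⟨_, h1⟩ ⟨_, h2⟩
    exact h1 h2

private theorem cmp2b_fib {V : Type} [Finite V] (p : V → Prop) (g : V → ℕ) (D : ℕ) (hD : ∀ v, g v ≤ D) :
    {v | p v}.ncard = ∑ i ∈ Finset.range (D + 1), {v | p v ∧ g v = i}.ncard := by
  classical
  haveI := Fintype.ofFinite V
  have h1 : ∀ q : V → Prop, {v | q v}.ncard = (Finset.univ.filter q).card := by
    intro q
    rw [← Set.ncard_coe_finset]
    congr 1
    ext v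
    simp
  rw [h1 p]
  rw [Finset.card_eq_sum_card_fiberwise (f := g) (t := Finset.range (D + 1))]
  · apply Finset.sum_congr rfl
    intro i _
    rw [h1, Finset.filter_filter]
    congr 1
    ext v
    simp
  · intro v _
    simp only [Finset.coe_range, Set.mem_Iio]
    exact Nat.lt_succ_of_le (hD v)

variable {k : ℕ} (W : Wd k) {V P : Type} [Finite V] (dir : P → Option Bool) (dp : P → ℕ)
    (om : V → Bg k W.length → P) (M : Lt k → Equiv.Perm V)
    (A B : Set (V × V)) (h : CP W dir om M A B)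

private theorem cmp2b_tot (j : Bg k W.length) (c : Bool) (D : ℕ) (hD : ∀ p, dp p ≤ D) :
    ((Nat.card V : ℕ) : ℝ) = ({v | dir (om v j) ≠ some c}.ncard : ℝ) +
      ∑ i ∈ Finset.range (D + 1), (cn W dir dp om j c i : ℝ) := by
  have h1 := cmp2b_split (V := V) (fun _ => True) (fun v => dir (om v j) = some c)
  have h2 := cmp2b_fib (V := V) (fun v => dir (om v j) = some c) (fun v => dp (om v j)) D
    (fun v => hD _)
  simp only [true_and, Set.ofPred_true, Set.ncard_univ] at h1
  rw [h1, h2]
  push_cast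
  rfl

include h

private theorem cmp2b_A1 {v w : V} (hvw : (v, w) ∈ A) :
    om w (e0 k W.length) = om v (c3 k W.length) :=
  congrFun (h.mA v w hvw) ⟨(c3 k W.length, e0 k W.length), by simp [ifc]⟩

private theorem cmp2b_B1 {v w : V} (hvw : (v, w) ∈ B) :
    om w (el k W.length) = om v (c1 k W.length) :=
  congrFun (h.mB v w hvw) ⟨(c1 k W.length, el k W.length), by simp [ifc]⟩

theorem src_tgt_A (i : ℕ) :
    (fc W dir dp om (c3 k W.length) true (fun v => ¬ ∃ w, (v, w) ∈ A) i : ℝ) ≤
      fc W dir dp om (e0 k W.length) true (fun w => ¬ ∃ v, (v, w) ∈ A) i +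
      |(cn W dir dp om (c3 k W.length) true i : ℝ) - cn W dir dp om (e0 k W.length) true i| := by
  have h3 := cmp2b_split (V := V)
    (fun v => dir (om v (c3 k W.length)) = some true ∧ dp (om v (c3 k W.length)) = i)
    (fun v => ∃ w, (v, w) ∈ A)
  have h0 := cmp2b_split (V := V)
    (fun w => dir (om w (e0 k W.length)) = some true ∧ dp (om w (e0 k W.length)) = i)
    (fun w => ∃ v, (v, w) ∈ A)
  have hle : {w | (dir (om w (e0 k W.length)) = some true ∧ dp (om w (e0 k W.length)) = i) ∧
      ∃ v, (v, w) ∈ A}.ncard ≤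
      {v | (dir (om v (c3 k W.length)) = some true ∧ dp (om v (c3 k W.length)) = i) ∧
      ∃ w, (v, w) ∈ A}.ncard := by
    refine cmp2b_card _ _ (fun w v => (v, w) ∈ A) (fun w w' v h1 h2 => h.iA _ _ _ h1 h2) ?_
    rintro w ⟨hw, v, hv⟩
    rw [cmp2b_A1 W dir om M A B h hv] at hw
    exact ⟨v, ⟨hw, w, hv⟩, hv⟩
  have e3 : (fc W dir dp om (c3 k W.length) true (fun v => ¬ ∃ w, (v, w) ∈ A) i) =
      {v | (dir (om v (c3 k W.length)) = some true ∧ dp (om v (c3 k W.length)) = i) ∧
      ¬ ∃ w, (v, w) ∈ A}.ncard := by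
    unfold fc
    simp only [and_assoc]
  have e0' : (fc W dir dp om (e0 k W.length) true (fun w => ¬ ∃ v, (v, w) ∈ A) i) =
      {w | (dir (om w (e0 k W.length)) = some true ∧ dp (om w (e0 k W.length)) = i) ∧
      ¬ ∃ v, (v, w) ∈ A}.ncard := by
    unfold fc
    simp only [and_assoc]
  have hn3 : cn W dir dp om (c3 k W.length) true i =
      fc W dir dp om (c3 k W.length) true (fun v => ¬ ∃ w, (v, w) ∈ A) i +
      {v | (dir (om v (c3 k W.length)) = some true ∧ dp (om v (c3 k W.length)) = i) ∧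
      ∃ w, (v, w) ∈ A}.ncard := by
    rw [e3]
    exact h3
  have hn0 : cn W dir dp om (e0 k W.length) true i =
      fc W dir dp om (e0 k W.length) true (fun w => ¬ ∃ v, (v, w) ∈ A) i +
      {w | (dir (om w (e0 k W.length)) = some true ∧ dp (om w (e0 k W.length)) = i) ∧
      ∃ v, (v, w) ∈ A}.ncard := by
    rw [e0']
    exact h0
  have key : fc W dir dp om (c3 k W.length) true (fun v => ¬ ∃ w, (v, w) ∈ A) i +
      cn W dir dp om (e0 k W.length) true i ≤
      fc W dir dp om (e0 k W.length) true (fun w => ¬ ∃ v, (v, w) ∈ A) i +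
      cn W dir dp om (c3 k W.length) true i := by omega
  have keyR : (fc W dir dp om (c3 k W.length) true (fun v => ¬ ∃ w, (v, w) ∈ A) i : ℝ) +
      (cn W dir dp om (e0 k W.length) true i : ℝ) ≤
      (fc W dir dp om (e0 k W.length) true (fun w => ¬ ∃ v, (v, w) ∈ A) i : ℝ) +
      (cn W dir dp om (c3 k W.length) true i : ℝ) := by exact_mod_cast key
  have habs := le_abs_self
    ((cn W dir dp om (c3 k W.length) true i : ℝ) - cn W dir dp om (e0 k W.length) true i)
  linarith

theorem src_tgt_B (i : ℕ) :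
    (fc W dir dp om (c1 k W.length) false (fun v => ¬ ∃ w, (v, w) ∈ B) i : ℝ) ≤
      fc W dir dp om (el k W.length) false (fun w => ¬ ∃ v, (v, w) ∈ B) i +
      |(cn W dir dp om (c1 k W.length) false i : ℝ) - cn W dir dp om (el k W.length) false i| := by
  have h3 := cmp2b_split (V := V)
    (fun v => dir (om v (c1 k W.length)) = some false ∧ dp (om v (c1 k W.length)) = i)
    (fun v => ∃ w, (v, w) ∈ B)
  have h0 := cmp2b_split (V := V)
    (fun w => dir (om w (el k W.length)) = some false ∧ dp (om w (el k W.length)) = i)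
    (fun w => ∃ v, (v, w) ∈ B)
  have hle : {w | (dir (om w (el k W.length)) = some false ∧ dp (om w (el k W.length)) = i) ∧
      ∃ v, (v, w) ∈ B}.ncard ≤
      {v | (dir (om v (c1 k W.length)) = some false ∧ dp (om v (c1 k W.length)) = i) ∧
      ∃ w, (v, w) ∈ B}.ncard := by
    refine cmp2b_card _ _ (fun w v => (v, w) ∈ B) (fun w w' v h1 h2 => h.iB _ _ _ h1 h2) ?_
    rintro w ⟨hw, v, hv⟩
    rw [cmp2b_B1 W dir om M A B h hv] at hw
    exact ⟨v, ⟨hw, w, hv⟩, hv⟩
  have e3 : (fc W dir dp om (c1 k W.length) false (fun v => ¬ ∃ w, (v, w) ∈ B) i) =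
      {v | (dir (om v (c1 k W.length)) = some false ∧ dp (om v (c1 k W.length)) = i) ∧
      ¬ ∃ w, (v, w) ∈ B}.ncard := by
    unfold fc
    simp only [and_assoc]
  have e0' : (fc W dir dp om (el k W.length) false (fun w => ¬ ∃ v, (v, w) ∈ B) i) =
      {w | (dir (om w (el k W.length)) = some false ∧ dp (om w (el k W.length)) = i) ∧
      ¬ ∃ v, (v, w) ∈ B}.ncard := by
    unfold fc
    simp only [and_assoc]
  have hn3 : cn W dir dp om (c1 k W.length) false i =
      fc W dir dp om (c1 k W.length) false (fun v => ¬ ∃ w, (v, w) ∈ B) i +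
      {v | (dir (om v (c1 k W.length)) = some false ∧ dp (om v (c1 k W.length)) = i) ∧
      ∃ w, (v, w) ∈ B}.ncard := by
    rw [e3]
    exact h3
  have hn0 : cn W dir dp om (el k W.length) false i =
      fc W dir dp om (el k W.length) false (fun w => ¬ ∃ v, (v, w) ∈ B) i +
      {w | (dir (om w (el k W.length)) = some false ∧ dp (om w (el k W.length)) = i) ∧
      ∃ v, (v, w) ∈ B}.ncard := by
    rw [e0']
    exact h0
  have key : fc W dir dp om (c1 k W.length) false (fun v => ¬ ∃ w, (v, w) ∈ B) i +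
      cn W dir dp om (el k W.length) false i ≤
      fc W dir dp om (el k W.length) false (fun w => ¬ ∃ v, (v, w) ∈ B) i +
      cn W dir dp om (c1 k W.length) false i := by omega
  have keyR : (fc W dir dp om (c1 k W.length) false (fun v => ¬ ∃ w, (v, w) ∈ B) i : ℝ) +
      (cn W dir dp om (el k W.length) false i : ℝ) ≤
      (fc W dir dp om (el k W.length) false (fun w => ¬ ∃ v, (v, w) ∈ B) i : ℝ) +
      (cn W dir dp om (c1 k W.length) false i : ℝ) := by exact_mod_cast key
  have habs := le_abs_self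
    ((cn W dir dp om (c1 k W.length) false i : ℝ) - cn W dir dp om (el k W.length) false i)
  linarith

theorem gc_src_A : gc W dir om (c3 k W.length) true (fun v => ¬ ∃ w, (v, w) ∈ A) ≤
    (um W dir om M none).ncard := by
  unfold gc
  refine Set.ncard_le_ncard ?_ (Set.toFinite _)
  rintro v ⟨hd, hno⟩
  by_contra hum
  exact hno ⟨_, h.sA v hum hd⟩

theorem gc_src_B : gc W dir om (c1 k W.length) false (fun v => ¬ ∃ w, (v, w) ∈ B) ≤
    (um W dir om M (some none)).ncard := by
  unfold gc
  refine Set.ncard_le_ncard ?_ (Set.toFinite _)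
  rintro v ⟨hd, hno⟩
  by_contra hum
  exact hno ⟨_, h.sB v hum hd⟩

theorem gc_tgt_A (D : ℕ) (hD : ∀ p, dp p ≤ D) :
    (gc W dir om (e0 k W.length) true (fun w => ¬ ∃ v, (v, w) ∈ A) : ℝ) ≤
      (um W dir om M none).ncard + ∑ i ∈ Finset.range (D + 1),
        |(cn W dir dp om (c3 k W.length) true i : ℝ) - cn W dir dp om (e0 k W.length) true i| := by
  have t3 := cmp2b_tot W dir dp om (c3 k W.length) true D hD
  have t0 := cmp2b_tot W dir dp om (e0 k W.length) true D hD
  have s3 := cmp2b_split (V := V) (fun v => dir (om v (c3 k W.length)) ≠ some true)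
    (fun v => ∃ w, (v, w) ∈ A)
  have s0 := cmp2b_split (V := V) (fun w => dir (om w (e0 k W.length)) ≠ some true)
    (fun w => ∃ v, (v, w) ∈ A)
  have hg : {v | dir (om v (c3 k W.length)) ≠ some true ∧ ¬ ∃ w, (v, w) ∈ A}.ncard ≤
      (um W dir om M none).ncard := gc_src_A W dir om M A B h
  have hle : {v | dir (om v (c3 k W.length)) ≠ some true ∧ ∃ w, (v, w) ∈ A}.ncard ≤
      {w | dir (om w (e0 k W.length)) ≠ some true ∧ ∃ v, (v, w) ∈ A}.ncard := by
    refine cmp2b_card _ _ (fun v w => (v, w) ∈ A) (fun v v' w h1 h2 => h.jA _ _ _ h1 h2) ?_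
    rintro v ⟨hv, w, hw⟩
    rw [← cmp2b_A1 W dir om M A B h hw] at hv
    exact ⟨w, ⟨hv, v, hw⟩, hw⟩
  unfold gc
  have key : {w | dir (om w (e0 k W.length)) ≠ some true ∧ ¬ ∃ v, (v, w) ∈ A}.ncard +
      {v | dir (om v (c3 k W.length)) ≠ some true}.ncard ≤ (um W dir om M none).ncard +
      {w | dir (om w (e0 k W.length)) ≠ some true}.ncard := by omega
  have keyR : ({w | dir (om w (e0 k W.length)) ≠ some true ∧ ¬ ∃ v, (v, w) ∈ A}.ncard : ℝ) +
      ({v | dir (om v (c3 k W.length)) ≠ some true}.ncard : ℝ) ≤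
      ((um W dir om M none).ncard : ℝ) +
      ({w | dir (om w (e0 k W.length)) ≠ some true}.ncard : ℝ) := by exact_mod_cast key
  have hsum : ∑ i ∈ Finset.range (D + 1), (cn W dir dp om (c3 k W.length) true i : ℝ) -
      ∑ i ∈ Finset.range (D + 1), (cn W dir dp om (e0 k W.length) true i : ℝ) ≤
      ∑ i ∈ Finset.range (D + 1),
        |(cn W dir dp om (c3 k W.length) true i : ℝ) - cn W dir dp om (e0 k W.length) true i| := by
    rw [← Finset.sum_sub_distrib]
    exact Finset.sum_le_sum fun i _ => le_abs_self _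
  linarith

theorem gc_tgt_B (D : ℕ) (hD : ∀ p, dp p ≤ D) :
    (gc W dir om (el k W.length) false (fun w => ¬ ∃ v, (v, w) ∈ B) : ℝ) ≤
      (um W dir om M (some none)).ncard + ∑ i ∈ Finset.range (D + 1),
        |(cn W dir dp om (c1 k W.length) false i : ℝ) - cn W dir dp om (el k W.length) false i| := by
  have t3 := cmp2b_tot W dir dp om (c1 k W.length) false D hD
  have t0 := cmp2b_tot W dir dp om (el k W.length) false D hD
  have s3 := cmp2b_split (V := V) (fun v => dir (om v (c1 k W.length)) ≠ some false)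
    (fun v => ∃ w, (v, w) ∈ B)
  have s0 := cmp2b_split (V := V) (fun w => dir (om w (el k W.length)) ≠ some false)
    (fun w => ∃ v, (v, w) ∈ B)
  have hg : {v | dir (om v (c1 k W.length)) ≠ some false ∧ ¬ ∃ w, (v, w) ∈ B}.ncard ≤
      (um W dir om M (some none)).ncard := gc_src_B W dir om M A B h
  have hle : {v | dir (om v (c1 k W.length)) ≠ some false ∧ ∃ w, (v, w) ∈ B}.ncard ≤
      {w | dir (om w (el k W.length)) ≠ some false ∧ ∃ v, (v, w) ∈ B}.ncard := by
    refine cmp2b_card _ _ (fun v w => (v, w) ∈ B) (fun v v' w h1 h2 => h.jB _ _ _ h1 h2) ?_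
    rintro v ⟨hv, w, hw⟩
    rw [← cmp2b_B1 W dir om M A B h hw] at hv
    exact ⟨w, ⟨hv, v, hw⟩, hw⟩
  unfold gc
  have key : {w | dir (om w (el k W.length)) ≠ some false ∧ ¬ ∃ v, (v, w) ∈ B}.ncard +
      {v | dir (om v (c1 k W.length)) ≠ some false}.ncard ≤ (um W dir om M (some none)).ncard +
      {w | dir (om w (el k W.length)) ≠ some false}.ncard := by omega
  have keyR : ({w | dir (om w (el k W.length)) ≠ some false ∧ ¬ ∃ v, (v, w) ∈ B}.ncard : ℝ) +
      ({v | dir (om v (c1 k W.length)) ≠ some false}.ncard : ℝ) ≤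
      ((um W dir om M (some none)).ncard : ℝ) +
      ({w | dir (om w (el k W.length)) ≠ some false}.ncard : ℝ) := by exact_mod_cast key
  have hsum : ∑ i ∈ Finset.range (D + 1), (cn W dir dp om (c1 k W.length) false i : ℝ) -
      ∑ i ∈ Finset.range (D + 1), (cn W dir dp om (el k W.length) false i : ℝ) ≤
      ∑ i ∈ Finset.range (D + 1),
        |(cn W dir dp om (c1 k W.length) false i : ℝ) - cn W dir dp om (el k W.length) false i| := by
    rw [← Finset.sum_sub_distrib]
    exact Finset.sum_le_sum fun i _ => le_abs_self _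
  linarith

end H33.BO
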