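import Mathlib

/-! # BO.Cmp3 : the recursion for the missing edges

PROOF. `S i := a i + b i + c i + e i`. `S i ≤ 2 (a i + b i) + f i + h i ≤ 2 (2 K1 + S (i + 1)) + K` for `i ≤ D` and `S (D + 1) = 0`. By downward induction (`i = D + 1 - m`, induction on `m`) `S (D + 1 - m) ≤ (4 K1 + K) * (2 ^ m - 1)`. Sum over `i ≤ D`: `∑ (2^m - 1), m = 1..D+1`, at most `2^(D+2)`. -/

set_option autoImplicit false

open MeasureTheory

namespace H33.BO

private lemma cmp3_geom (n : ℕ) : ∑ j ∈ Finset.range n, (2 : ℝ) ^ (j + 1) ≤ 2 ^ (n + 1) := by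
  induction n with
  | zero => simp
  | succ n ih =>
    rw [Finset.sum_range_succ]
    calc ∑ j ∈ Finset.range n, (2 : ℝ) ^ (j + 1) + 2 ^ (n + 1) ≤ 2 ^ (n + 1) + 2 ^ (n + 1) := by linarith
      _ = 2 ^ (n + 1 + 1) := by ring

private lemma cmp3_rec (D : ℕ) (S : ℕ → ℝ) (M : ℝ) (h1 : ∀ i, i ≤ D → S i ≤ M + 2 * S (i + 1))
    (h2 : S (D + 1) ≤ 0) : ∀ m, m ≤ D + 1 → S (D + 1 - m) ≤ M * (2 ^ m - 1) := by
  intro m
  induction m with
  | zero => intro _; simpa using h2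
  | succ m ih =>
    intro hm
    have e1 := h1 (D + 1 - (m + 1)) (by omega)
    have e2 : D + 1 - (m + 1) + 1 = D + 1 - m := by omega
    rw [e2] at e1
    have e3 := ih (by omega)
    calc S (D + 1 - (m + 1)) ≤ M + 2 * S (D + 1 - m) := e1
      _ ≤ M + 2 * (M * (2 ^ m - 1)) := by linarith
      _ = M * (2 ^ (m + 1) - 1) := by ring

theorem cmp3 (D : ℕ) (a b c e f h : ℕ → ℝ) (K1 K : ℝ) (hK1 : 0 ≤ K1) (hK : 0 ≤ K)
    (ha : ∀ i, a i ≤ K1 + a (i + 1) + e (i + 1)) (hb : ∀ i, b i ≤ K1 + b (i + 1) + c (i + 1))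
    (hc : ∀ i, c i ≤ a i + f i) (he : ∀ i, e i ≤ b i + h i) (hf : ∀ i, i ≤ D → f i + h i ≤ K)
    (hz : ∀ i, D < i → a i = 0 ∧ b i = 0 ∧ c i = 0 ∧ e i = 0)
    (ha0 : ∀ i, 0 ≤ a i) (hb0 : ∀ i, 0 ≤ b i) (hc0 : ∀ i, 0 ≤ c i) (he0 : ∀ i, 0 ≤ e i) :
    ∑ i ∈ Finset.range (D + 1), (a i + b i + c i + e i) ≤ (4 * K1 + K) * 2 ^ (D + 2) := by
  have hM : 0 ≤ 4 * K1 + K := by positivity
  have h1 : ∀ i, i ≤ D → a i + b i + c i + e i ≤ (4 * K1 + K) +
      2 * (a (i + 1) + b (i + 1) + c (i + 1) + e (i + 1)) := by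
    intro i hi
    have := ha i
    have := hb i
    have := hc i
    have := he i
    have := hf i hi
    linarith
  have h2 : a (D + 1) + b (D + 1) + c (D + 1) + e (D + 1) ≤ 0 := by
    obtain ⟨q1, q2, q3, q4⟩ := hz (D + 1) (by omega)
    rw [q1, q2, q3, q4]; simp
  have h3 := cmp3_rec D (fun i => a i + b i + c i + e i) (4 * K1 + K) h1 h2
  rw [← Finset.sum_range_reflect]
  calc ∑ j ∈ Finset.range (D + 1), (a (D + 1 - 1 - j) + b (D + 1 - 1 - j) + c (D + 1 - 1 - j) + e (D + 1 - 1 - j))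
      ≤ ∑ j ∈ Finset.range (D + 1), (4 * K1 + K) * 2 ^ (j + 1) := by
        refine Finset.sum_le_sum fun j hj => ?_
        have hj' := Finset.mem_range.1 hj
        have q := h3 (j + 1) (by omega)
        have e1 : D + 1 - (j + 1) = D + 1 - 1 - j := by omega
        rw [e1] at q
        refine q.trans ?_
        have : (2 : ℝ) ^ (j + 1) - 1 ≤ 2 ^ (j + 1) := by linarith
        exact mul_le_mul_of_nonneg_left this hM
    _ = (4 * K1 + K) * ∑ j ∈ Finset.range (D + 1), (2 : ℝ) ^ (j + 1) := by rw [Finset.mul_sum]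
    _ ≤ (4 * K1 + K) * 2 ^ (D + 1 + 1) := mul_le_mul_of_nonneg_left (cmp3_geom (D + 1)) hM

end H33.BO
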