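import Pool.Agent.H33.BO.Defs2

/-! # BO.XgA : transport of patterns along x-edges

NOTATION: for a letter `x_i` all interface patterns are not T, so `um W dir om M (some (some i)) = {v | tgt s (om (M s v)) ≠ src s (om v)}`. For `v ∉ um`: `om (x_i v) e_j = om v e_(j+1)` if `W[j] = (i, true)`, `om (x_i v) e_(j+1) = om v e_j` if `W[j] = (i, false)`, `om (x_i v) e_0 = om v (x_i)` (the pairs of `ifc`).
PROOF. `xg_bd`: for `u = (ac M (wf W))⁻¹ w` let `u_j := ac M (wf (W.drop j)) u`, so `u_l = u`, `u_0 = w`, `u_j = (sl W[j]) u_(j+1)`. If `W[j] = (i, true)`: the edge at `u_(j+1)`: matched gives `om u_j e_j = om u_(j+1) e_(j+1)`. If `W[j] = (i, false)`: `u_(j+1) = x_i u_j`, the edge at `u_j`: matched gives `om u_(j+1) e_(j+1) = om u_j e_j`. So if all these edges are matched then `om u e_l = om w e_0`.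
The set of the `w` for which the `j`-th edge is not matched is the preimage under a bijection of `um` of the letter: at most `∑ s, (um s).ncard` elements; union over `j < l`. -/

set_option autoImplicit false

open MeasureTheory H31.BE

namespace H33.BO

/-- an edge of the letter `x_i` outside `um` is matched -/
private lemma XgA_edge {k : ℕ} (W : Wd k) {V P : Type} (dir : P → Option Bool)
    (om : V → Bg k W.length → P) (M : Lt k → Equiv.Perm V) (j : Fin W.length) (v : V)
    (hv : v ∉ um W dir om M (some (some (W.get j).1))) :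
    om v (if (W.get j).2 then Sum.inl j.succ else Sum.inl j.castSucc) =
      om (M (some (some (W.get j).1)) v)
        (if (W.get j).2 then Sum.inl j.castSucc else Sum.inl j.succ) := by
  have h1 : tgt (some (some (W.get j).1)) (om (M (some (some (W.get j).1)) v)) =
      src (some (some (W.get j).1)) (om v) := by
    by_contra hne
    exact hv ⟨fun h => h, hne⟩
  have hmem : ((if (W.get j).2 then Sum.inl j.succ else Sum.inl j.castSucc : Bg k W.length),
      (if (W.get j).2 then Sum.inl j.castSucc else Sum.inl j.succ : Bg k W.length)) ∈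
      ifc W (some (some (W.get j).1)) := by
    unfold ifc
    refine Finset.mem_insert_of_mem (Finset.mem_image.mpr ⟨j, ?_, ?_⟩)
    · simp
    · cases (W.get j).2 <;> simp
  have h2 := congrFun h1 ⟨_, hmem⟩
  exact h2.symm

private lemma XgA_pre {V : Type} [Finite V] (σ : Equiv.Perm V) (S : Set V) :
    {w | σ w ∈ S}.ncard ≤ S.ncard :=
  Set.ncard_le_ncard_of_injOn σ (fun _ h => h) σ.injective.injOn S.toFinite

private lemma XgA_step {k : ℕ} (W : Wd k) {V P : Type} [Finite V] (dir : P → Option Bool)
    (om : V → Bg k W.length → P) (M : Lt k → Equiv.Perm V) (j : Fin W.length) :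
    {w | om ((ac M (wf (W.take (j + 1))))⁻¹ w) (Sum.inl j.succ) ≠
      om ((ac M (wf (W.take j)))⁻¹ w) (Sum.inl j.castSucc)}.ncard ≤
      ∑ s, (um W dir om M s).ncard := by
  have hw : wf (W.take (j + 1)) = wf (W.take j) * sl (W.get j) := by
    unfold wf
    rw [List.take_succ_eq_append_getElem j.isLt]
    simp
  have hle : (um W dir om M (some (some (W.get j).1))).ncard ≤
      ∑ s, (um W dir om M s).ncard :=
    Finset.single_le_sum (f := fun s => (um W dir om M s).ncard) (fun _ _ => Nat.zero_le _)
      (Finset.mem_univ _)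
  refine le_trans ?_ hle
  have hed := XgA_edge W dir om M j
  have hsl : ac M (sl (W.get j)) = if (W.get j).2 then M (some (some (W.get j).1)) else
      (M (some (some (W.get j).1)))⁻¹ := by
    unfold sl xx
    cases (W.get j).2 <;> simp
  have hu : ∀ w, (ac M (wf (W.take (j + 1))))⁻¹ w =
      (ac M (sl (W.get j)))⁻¹ ((ac M (wf (W.take j)))⁻¹ w) := by
    intro w
    rw [hw, map_mul, mul_inv_rev, Equiv.Perm.mul_apply]
  cases hc : (W.get j).2 with
  | true =>
    rw [hc] at hed hsl
    refine le_trans (Set.ncard_le_ncard ?_ (Set.toFinite _))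
      (XgA_pre (ac M (wf (W.take (j + 1))))⁻¹ (um W dir om M (some (some (W.get j).1))))
    intro w hne
    by_contra hnot
    refine hne ?_
    have h3 := hed _ hnot
    simp only [if_true] at h3 hsl
    rw [h3]
    have h4 : M (some (some (W.get j).1)) ((ac M (wf (W.take (j + 1))))⁻¹ w) =
        (ac M (wf (W.take j)))⁻¹ w := by
      rw [hu w, hsl]
      simp
    rw [h4]
  | false =>
    rw [hc] at hed hsl
    refine le_trans (Set.ncard_le_ncard ?_ (Set.toFinite _))
      (XgA_pre (ac M (wf (W.take j)))⁻¹ (um W dir om M (some (some (W.get j).1))))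
    intro w hne
    by_contra hnot
    refine hne ?_
    have h3 := hed _ hnot
    simp only [Bool.false_eq_true, if_false] at h3 hsl
    have h4 : M (some (some (W.get j).1)) ((ac M (wf (W.take j)))⁻¹ w) =
        (ac M (wf (W.take (j + 1))))⁻¹ w := by
      rw [hu w, hsl]
      simp
    rw [h4] at h3
    exact h3.symm

theorem xg_bd {k : ℕ} (W : Wd k) {V P : Type} [Finite V] (dir : P → Option Bool)
    (om : V → Bg k W.length → P) (M : Lt k → Equiv.Perm V) :
    {w | ¬ XG W om M w}.ncard ≤ W.length * ∑ s, (um W dir om M s).ncard := by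
  have key : ∀ m (hm : m ≤ W.length), {w | om ((ac M (wf (W.take m)))⁻¹ w)
      (Sum.inl ⟨m, Nat.lt_succ_of_le hm⟩) ≠ om w (e0 k W.length)}.ncard ≤
      m * ∑ s, (um W dir om M s).ncard := by
    intro m
    induction m with
    | zero =>
      intro hm
      have : {w | om ((ac M (wf (W.take 0)))⁻¹ w)
          (Sum.inl ⟨0, Nat.lt_succ_of_le hm⟩) ≠ om w (e0 k W.length)} = ∅ := by
        ext w
        simp [wf, e0]
      rw [this]
      simp
    | succ m ih =>
      intro hm
      have h1 := ih (Nat.le_of_succ_le hm)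
      have h2 := XgA_step W dir om M ⟨m, hm⟩
      have hsub : {w | om ((ac M (wf (W.take (m + 1))))⁻¹ w)
          (Sum.inl ⟨m + 1, Nat.lt_succ_of_le hm⟩) ≠ om w (e0 k W.length)} ⊆
          {w | om ((ac M (wf (W.take (m + 1))))⁻¹ w) (Sum.inl (Fin.succ ⟨m, hm⟩)) ≠
            om ((ac M (wf (W.take m)))⁻¹ w) (Sum.inl (Fin.castSucc ⟨m, hm⟩))} ∪
          {w | om ((ac M (wf (W.take m)))⁻¹ w)
            (Sum.inl ⟨m, Nat.lt_succ_of_le (Nat.le_of_succ_le hm)⟩) ≠ om w (e0 k W.length)} := by
        intro w hne
        by_contra hnot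
        rw [Set.mem_union, not_or] at hnot
        have h3 := not_not.mp hnot.1
        have h4 := not_not.mp hnot.2
        exact hne (h3.trans h4)
      refine le_trans (Set.ncard_le_ncard hsub (Set.toFinite _))
        (le_trans (Set.ncard_union_le _ _) ?_)
      rw [Nat.succ_mul, add_comm]
      exact Nat.add_le_add h1 h2
  have h := key W.length le_rfl
  rw [List.take_length] at h
  exact h

end H33.BO
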