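import Pool.Agent.H33.BO.Cmp1
import Pool.Agent.H33.BO.Cmp2
import Pool.Agent.H33.BO.Cmp2b
import Pool.Agent.H33.BO.XgA
import Pool.Agent.H33.BO.Cmp3

/-! # BO.Cmp4 : the completed structure (paper 3.2)

PROOF. `cmp1` gives `A`, `B`. `K := Kr W dir dp om M D`, `l := W.length`. `cmp3` with `a i := fc e0 true (no A-edge into) i`, `b i := fc el false (no B-edge into) i`, `c i := fc c3 true (no A-edge from) i`, `e i := fc c1 false (no B-edge from) i`, `f i`, `h i` the two absolute values in `Kr`, `K1 := (l + 2) K`: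
`slotA`, `slotB`, `xg_bd` (`≤ l K`), `gc_tgt_A + gc_tgt_B + (gc_src_A or gc_src_B) ≤ 2 K` (since `um none + um (some none) + ∑ (f + h) ≤ K`). So `∑ i ≤ D, (a + b + c + e) ≤ (4 l + 9) K 2^(D+2)`.
`X (x_i) := M (x_i)`; `X none`: a permutation of `V` with `X none v = w` for all `(v, w) ∈ A` (a partial injection of a finite set extends to a permutation: the complements of the domain and the range have the same cardinality; e.g. `Equiv.Perm.extendSubtype`, `Equiv.extendSubtype`), `X (some none)` similarly for `B`.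
(2): for `s = none`: `v` not T and `v ∉ um`: `(v, M none v) ∈ A` (`sA`), so `X none v = M none v`. (3): `v ∈ Mis`: for `x_i`: `v ∈ um x_i`; for a: there is no A-edge from `v` (`mA`): at most `gc c3 true + ∑ i, c i`; for b similarly: total at most `∑ s, um s + ∑ (c + e) ≤ K + (4 l + 9) K 2^(D+2)`.
(4): `ac X (wf W) = ac M (wf W)` (only x-letters), `ac X (rel W) w = a b a⁻¹ b⁻¹ u`, `u = (ac X (wf W))⁻¹ w`. If `dir (om w e0) = some true` and there is an A-edge `(v, w)`: `rA` gives `b⁻¹ u = y`, `a⁻¹ y = z`, `b z = v`, `a v = w`: the relation holds. If `dir (om w e0) = some false`, `XG w` and there is a B-edge `(y, u)`: `dir (om u el) = some false`, `rB` gives `z, v` with `a z = y`, `b z = v`, `a v = W u = w`: the relation holds.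
So `defs ⊆ roots ∪ {not XG} ∪ (no A-edge into w, dir some true) ∪ W (no B-edge into u, dir some false)`: at most `roots + l K + ∑ (a + b)`. -/

set_option autoImplicit false

open MeasureTheory H31.BE

namespace H33.BO

private theorem Cmp4_ext {V : Type} [Finite V] (A : Set (V × V))
    (iA : ∀ v w w', (v, w) ∈ A → (v, w') ∈ A → w = w')
    (jA : ∀ v v' w, (v, w) ∈ A → (v', w) ∈ A → v = v') :
    ∃ σ : Equiv.Perm V, ∀ v w, (v, w) ∈ A → σ v = w := by
  classical
  let e : {v : V // ∃ w, (v, w) ∈ A} ≃ {w : V // ∃ v, (v, w) ∈ A} :=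
    { toFun := fun v => ⟨v.2.choose, v.1, v.2.choose_spec⟩
      invFun := fun w => ⟨w.2.choose, w.1, w.2.choose_spec⟩
      left_inv := by
        intro v
        apply Subtype.ext
        have h1 := v.2.choose_spec
        have h2 := (⟨v.1, v.2.choose_spec⟩ : ∃ v', (v', v.2.choose) ∈ A).choose_spec
        exact jA _ _ _ h2 h1
      right_inv := by
        intro w
        apply Subtype.ext
        have h1 := w.2.choose_spec
        have h2 := (⟨w.1, w.2.choose_spec⟩ : ∃ w', (w.2.choose, w') ∈ A).choose_spec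
        exact iA _ _ _ h2 h1 }
  refine ⟨e.extendSubtype, fun v w hvw => ?_⟩
  rw [Equiv.extendSubtype_apply_of_mem e v ⟨w, hvw⟩]
  have h1 := (⟨w, hvw⟩ : ∃ w', (v, w') ∈ A).choose_spec
  exact iA _ _ _ h1 hvw

private theorem Cmp4_cov {k : ℕ} (W : Wd k) {V P : Type} [Finite V] (dir : P → Option Bool) (dp : P → ℕ) (D : ℕ)
    (hD : ∀ p, dp p ≤ D) (om : V → Bg k W.length → P) (j : Bg k W.length) (c : Bool) (F : V → Prop) :
    {v | dir (om v j) = some c ∧ F v}.ncard ≤ ∑ i ∈ Finset.range (D + 1), fc W dir dp om j c F i := by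
  classical
  let _ := Fintype.ofFinite V
  have key : ∀ S : Set V, S.ncard = (Finset.univ.filter fun v => v ∈ S).card := by
    intro S
    rw [Set.ncard_eq_toFinset_card']
    congr 1
    ext v
    simp
  rw [key, Finset.card_eq_sum_card_fiberwise (f := fun v => dp (om v j)) (t := Finset.range (D + 1))]
  · refine le_of_eq (Finset.sum_congr rfl fun i _ => ?_)
    rw [fc, key]
    congr 1
    ext v
    simp only [Finset.mem_filter, Finset.mem_univ, true_and, Set.mem_ofPred_eq]
    tauto
  · intro v _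
    simp only [Finset.coe_range, Set.mem_Iio]
    have := hD (om v j)
    show dp (om v j) < D + 1
    omega

private theorem Cmp4_wf {k : ℕ} (W : Wd k) {V : Type} (X M : Lt k → Equiv.Perm V)
    (h : ∀ i, X (some (some i)) = M (some (some i))) : ac X (wf W) = ac M (wf W) := by
  induction W with
  | nil => simp [wf]
  | cons p W ih =>
    have h1 : wf (p :: W) = sl p * wf W := by simp [wf]
    rw [h1, map_mul, map_mul, ih]
    congr 1
    unfold sl xx
    split_ifs
    · simp [h]
    · simp [h]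

theorem cmp {k : ℕ} (W : Wd k) {V P : Type} [Finite V] (dir : P → Option Bool) (tl : P → P) (dp : P → ℕ)
    (hdp : ∀ p c, dir p = some c → dp p = dp (tl p) + 1) (D : ℕ) (hD : ∀ p, dp p ≤ D)
    (om : V → Bg k W.length → P) (hsup : ∀ v, Sup dir tl (om v)) (M : Lt k → Equiv.Perm V) :
    ∃ X : Lt k → Equiv.Perm V, (∀ i, X (some (some i)) = M (some (some i))) ∧
      (∀ s, {v | ¬ TT dir s (src s (om v)) ∧ X s v ≠ M s v}.ncard ≤ (um W dir om M s).ncard) ∧
      ((Mis W om X).ncard : ℝ) ≤ (5 * W.length + 12) * 2 ^ (D + 2) * Kr W dir dp om M D ∧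
      ((defs W X).ncard : ℝ) ≤ {v | dir (om v (e0 k W.length)) = none}.ncard +
        (5 * W.length + 12) * 2 ^ (D + 2) * Kr W dir dp om M D := by
  classical
  obtain ⟨A, B, h⟩ := cmp1 W dir tl om hsup M
  obtain ⟨σA, hσA⟩ := Cmp4_ext A h.iA h.jA
  obtain ⟨σB, hσB⟩ := Cmp4_ext B h.iB h.jB
  let X : Lt k → Equiv.Perm V := fun s => match s with
    | none => σA
    | some none => σB
    | some (some i) => M (some (some i))
  have hXa : ∀ v w, (v, w) ∈ A → X none v = w := hσA
  have hXb : ∀ v w, (v, w) ∈ B → X (some none) v = w := hσB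
  have hXx : ∀ i, X (some (some i)) = M (some (some i)) := fun i => rfl
  -- abbreviations
  set K : ℝ := Kr W dir dp om M D with hKdef
  set a : ℕ → ℝ := fun i => (fc W dir dp om (e0 k W.length) true (fun w => ¬ ∃ v, (v, w) ∈ A) i : ℝ) with ha
  set b : ℕ → ℝ := fun i => (fc W dir dp om (el k W.length) false (fun u => ¬ ∃ y, (y, u) ∈ B) i : ℝ) with hb
  set c : ℕ → ℝ := fun i => (fc W dir dp om (c3 k W.length) true (fun v => ¬ ∃ w, (v, w) ∈ A) i : ℝ) with hc
  set e : ℕ → ℝ := fun i => (fc W dir dp om (c1 k W.length) false (fun v => ¬ ∃ w, (v, w) ∈ B) i : ℝ) with he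
  set f : ℕ → ℝ := fun i => |(cn W dir dp om (c3 k W.length) true i : ℝ) - cn W dir dp om (e0 k W.length) true i|
    with hf
  set hh : ℕ → ℝ := fun i => |(cn W dir dp om (c1 k W.length) false i : ℝ) - cn W dir dp om (el k W.length) false i|
    with hhh
  set U : Lt k → ℝ := fun s => ((um W dir om M s).ncard : ℝ) with hU
  have hU0 : ∀ s, 0 ≤ U s := fun s => Nat.cast_nonneg _
  have hf0 : ∀ i, 0 ≤ f i := fun i => abs_nonneg _
  have hh0 : ∀ i, 0 ≤ hh i := fun i => abs_nonneg _
  set SU : ℝ := ∑ s : Lt k, U s with hSU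
  set Sf : ℝ := ∑ i ∈ Finset.range (D + 1), f i with hSf
  set Sh : ℝ := ∑ i ∈ Finset.range (D + 1), hh i with hSh
  have hSU0 : 0 ≤ SU := Finset.sum_nonneg fun s _ => hU0 s
  have hSf0 : 0 ≤ Sf := Finset.sum_nonneg fun s _ => hf0 s
  have hSh0 : 0 ≤ Sh := Finset.sum_nonneg fun s _ => hh0 s
  have hK : K = SU + (Sf + Sh) := by
    rw [hKdef, Kr, hSf, hSh, ← Finset.sum_add_distrib]
  have hSU2 : SU = U none + (U (some none) + ∑ i : Fin k, U (some (some i))) := by
    rw [hSU, Fintype.sum_option, Fintype.sum_option]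
  have hUx0 : 0 ≤ ∑ i : Fin k, U (some (some i)) := Finset.sum_nonneg fun i _ => hU0 _
  have hK0 : 0 ≤ K := by rw [hK]; linarith
  have hl0 : (0 : ℝ) ≤ W.length := Nat.cast_nonneg _
  have hxg : (({w | ¬ XG W om M w}.ncard : ℕ) : ℝ) ≤ W.length * K := by
    have h1 := xg_bd W dir om M
    have h2 : (({w | ¬ XG W om M w}.ncard : ℕ) : ℝ) ≤ W.length * SU := by
      have : ((W.length * ∑ s, (um W dir om M s).ncard : ℕ) : ℝ) = W.length * SU := by
        rw [hSU]; push_cast; rfl
      rw [← this]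
      exact_mod_cast h1
    have h3 : (W.length : ℝ) * SU ≤ W.length * K :=
      mul_le_mul_of_nonneg_left (by rw [hK]; linarith) hl0
    linarith
  have hgtA := gc_tgt_A W dir dp om M A B h D hD
  have hgtB := gc_tgt_B W dir dp om M A B h D hD
  have hgsA : (gc W dir om (c3 k W.length) true (fun v => ¬ ∃ w, (v, w) ∈ A) : ℝ) ≤ U none :=
    Nat.cast_le.2 (gc_src_A W dir om M A B h)
  have hgsB : (gc W dir om (c1 k W.length) false (fun v => ¬ ∃ w, (v, w) ∈ B) : ℝ) ≤ U (some none) :=
    Nat.cast_le.2 (gc_src_B W dir om M A B h)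
  change _ ≤ U none + Sf at hgtA
  change _ ≤ U (some none) + Sh at hgtB
  have hfc0 : ∀ i j cc F, D < i → fc W dir dp om j cc F i = 0 := by
    intro i j cc F hi
    rw [fc]
    have : {v | dir (om v j) = some cc ∧ dp (om v j) = i ∧ F v} = ∅ := by
      ext v
      simp only [Set.mem_ofPred_eq, Set.mem_empty_iff_false, iff_false]
      rintro ⟨_, h2, _⟩
      have := hD (om v j)
      omega
    rw [this]
    simp
  have hsum := cmp3 D a b c e f hh ((W.length + 2) * K) K (by positivity) hK0
    (fun i => by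
      have h1 := slotA W dir tl dp hdp om hsup M A B h i
      have h2 : a i ≤ (({w | ¬ XG W om M w}.ncard : ℕ) : ℝ) +
          gc W dir om (el k W.length) false (fun u => ¬ ∃ y, (y, u) ∈ B) +
          gc W dir om (e0 k W.length) true (fun w => ¬ ∃ v, (v, w) ∈ A) + a (i + 1) +
          gc W dir om (c1 k W.length) false (fun z => ¬ ∃ v, (z, v) ∈ B) + e (i + 1) := by
        simp only [ha, he]
        exact_mod_cast h1
      nlinarith [hU0 none, hU0 (some none)])
    (fun i => by
      have h1 := slotB W dir tl dp hdp om hsup M A B h i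
      have h2 : b i ≤ (({w | ¬ XG W om M w}.ncard : ℕ) : ℝ) +
          gc W dir om (e0 k W.length) true (fun w => ¬ ∃ v, (v, w) ∈ A) +
          gc W dir om (el k W.length) false (fun u => ¬ ∃ y, (y, u) ∈ B) + b (i + 1) +
          gc W dir om (c3 k W.length) true (fun z => ¬ ∃ y, (z, y) ∈ A) + c (i + 1) := by
        simp only [hb, hc]
        exact_mod_cast h1
      nlinarith [hU0 none, hU0 (some none)])
    (fun i => src_tgt_A W dir dp om M A B h i)
    (fun i => src_tgt_B W dir dp om M A B h i)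
    (fun i hi => by
      have h1 : f i ≤ Sf := Finset.single_le_sum (f := f) (fun j _ => hf0 j) (Finset.mem_range.2 (by omega))
      have h2 : hh i ≤ Sh := Finset.single_le_sum (f := hh) (fun j _ => hh0 j) (Finset.mem_range.2 (by omega))
      rw [hK]; linarith)
    (fun i hi => by
      simp only [ha, hb, hc, he, hfc0 i _ _ _ hi]
      simp)
    (fun i => Nat.cast_nonneg _) (fun i => Nat.cast_nonneg _) (fun i => Nat.cast_nonneg _)
    (fun i => Nat.cast_nonneg _)
  rw [Finset.sum_add_distrib, Finset.sum_add_distrib, Finset.sum_add_distrib] at hsum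
  have hsa0 : 0 ≤ ∑ i ∈ Finset.range (D + 1), a i := Finset.sum_nonneg fun i _ => Nat.cast_nonneg _
  have hsb0 : 0 ≤ ∑ i ∈ Finset.range (D + 1), b i := Finset.sum_nonneg fun i _ => Nat.cast_nonneg _
  have hsc0 : 0 ≤ ∑ i ∈ Finset.range (D + 1), c i := Finset.sum_nonneg fun i _ => Nat.cast_nonneg _
  have hse0 : 0 ≤ ∑ i ∈ Finset.range (D + 1), e i := Finset.sum_nonneg fun i _ => Nat.cast_nonneg _
  have hp1 : (1 : ℝ) ≤ 2 ^ (D + 2) := one_le_pow₀ (by norm_num)
  have hKp : K ≤ K * 2 ^ (D + 2) := le_mul_of_one_le_right hK0 hp1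
  have hlKp : W.length * K ≤ W.length * K * 2 ^ (D + 2) := le_mul_of_one_le_right (by positivity) hp1
  have hlKp0 : 0 ≤ W.length * K * 2 ^ (D + 2) := by positivity
  refine ⟨X, hXx, ?_, ?_, ?_⟩
  · intro s
    apply Set.ncard_le_ncard _ (Set.toFinite _)
    rcases s with _ | _ | i
    · rintro v ⟨h1, h2⟩
      by_contra h3
      exact h2 (hXa _ _ (h.sA v h3 h1))
    · rintro v ⟨h1, h2⟩
      by_contra h3
      exact h2 (hXb _ _ (h.sB v h3 h1))
    · rintro v ⟨h1, h2⟩
      exact absurd rfl h2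
  · -- mismatches
    have hsub : Mis W om X ⊆ ({v | dir (om v (c3 k W.length)) ≠ some true ∧ ¬ ∃ w, (v, w) ∈ A} ∪
        {v | dir (om v (c3 k W.length)) = some true ∧ ¬ ∃ w, (v, w) ∈ A}) ∪
        (({v | dir (om v (c1 k W.length)) ≠ some false ∧ ¬ ∃ w, (v, w) ∈ B} ∪
        {v | dir (om v (c1 k W.length)) = some false ∧ ¬ ∃ w, (v, w) ∈ B}) ∪
        ⋃ i ∈ (Finset.univ : Finset (Fin k)), um W dir om M (some (some i))) := by
      rintro v ⟨s, hs⟩
      rcases s with _ | _ | i
      · left
        have h1 : ¬ ∃ w, (v, w) ∈ A := by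
          rintro ⟨w, hw⟩
          apply hs
          rw [hXa v w hw]
          exact h.mA v w hw
        by_cases h2 : dir (om v (c3 k W.length)) = some true
        · exact Or.inr ⟨h2, h1⟩
        · exact Or.inl ⟨h2, h1⟩
      · right; left
        have h1 : ¬ ∃ w, (v, w) ∈ B := by
          rintro ⟨w, hw⟩
          apply hs
          rw [hXb v w hw]
          exact h.mB v w hw
        by_cases h2 : dir (om v (c1 k W.length)) = some false
        · exact Or.inr ⟨h2, h1⟩
        · exact Or.inl ⟨h2, h1⟩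
      · right; right
        simp only [Finset.mem_univ, Set.iUnion_true, Set.mem_iUnion]
        exact ⟨i, fun hT => hT, hs⟩
    have hun : ((⋃ i ∈ (Finset.univ : Finset (Fin k)), um W dir om M (some (some i))).ncard : ℝ) ≤
        ∑ i : Fin k, U (some (some i)) := by
      have h1 : (⋃ i ∈ (Finset.univ : Finset (Fin k)), um W dir om M (some (some i))).ncard ≤
          ∑ i : Fin k, (um W dir om M (some (some i))).ncard :=
        Finset.set_ncard_biUnion_le Finset.univ _
      have h2 : ((∑ i : Fin k, (um W dir om M (some (some i))).ncard : ℕ) : ℝ) = ∑ i : Fin k, U (some (some i)) := by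
        push_cast; rfl
      rw [← h2]
      exact_mod_cast h1
    have hcA := Cmp4_cov W dir dp D hD om (c3 k W.length) true (fun v => ¬ ∃ w, (v, w) ∈ A)
    have hcB := Cmp4_cov W dir dp D hD om (c1 k W.length) false (fun v => ¬ ∃ w, (v, w) ∈ B)
    have hcA' : (({v | dir (om v (c3 k W.length)) = some true ∧ ¬ ∃ w, (v, w) ∈ A}.ncard : ℕ) : ℝ) ≤
        ∑ i ∈ Finset.range (D + 1), c i := by
      simp only [hc]
      exact_mod_cast hcA
    have hcB' : (({v | dir (om v (c1 k W.length)) = some false ∧ ¬ ∃ w, (v, w) ∈ B}.ncard : ℕ) : ℝ) ≤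
        ∑ i ∈ Finset.range (D + 1), e i := by
      simp only [he]
      exact_mod_cast hcB
    have hn : ((Mis W om X).ncard : ℝ) ≤
        ((({v | dir (om v (c3 k W.length)) ≠ some true ∧ ¬ ∃ w, (v, w) ∈ A}.ncard : ℕ) : ℝ) +
        (({v | dir (om v (c3 k W.length)) = some true ∧ ¬ ∃ w, (v, w) ∈ A}.ncard : ℕ) : ℝ)) +
        (((({v | dir (om v (c1 k W.length)) ≠ some false ∧ ¬ ∃ w, (v, w) ∈ B}.ncard : ℕ) : ℝ) +
        (({v | dir (om v (c1 k W.length)) = some false ∧ ¬ ∃ w, (v, w) ∈ B}.ncard : ℕ) : ℝ)) +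
        ((⋃ i ∈ (Finset.univ : Finset (Fin k)), um W dir om M (some (some i))).ncard : ℝ)) := by
      have h1 := Set.ncard_le_ncard hsub (Set.toFinite _)
      have h2 := Set.ncard_union_le ({v | dir (om v (c3 k W.length)) ≠ some true ∧ ¬ ∃ w, (v, w) ∈ A} ∪
        {v | dir (om v (c3 k W.length)) = some true ∧ ¬ ∃ w, (v, w) ∈ A})
        (({v | dir (om v (c1 k W.length)) ≠ some false ∧ ¬ ∃ w, (v, w) ∈ B} ∪
        {v | dir (om v (c1 k W.length)) = some false ∧ ¬ ∃ w, (v, w) ∈ B}) ∪
        ⋃ i ∈ (Finset.univ : Finset (Fin k)), um W dir om M (some (some i)))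
      have h3 := Set.ncard_union_le {v | dir (om v (c3 k W.length)) ≠ some true ∧ ¬ ∃ w, (v, w) ∈ A}
        {v | dir (om v (c3 k W.length)) = some true ∧ ¬ ∃ w, (v, w) ∈ A}
      have h4 := Set.ncard_union_le ({v | dir (om v (c1 k W.length)) ≠ some false ∧ ¬ ∃ w, (v, w) ∈ B} ∪
        {v | dir (om v (c1 k W.length)) = some false ∧ ¬ ∃ w, (v, w) ∈ B})
        (⋃ i ∈ (Finset.univ : Finset (Fin k)), um W dir om M (some (some i)))
      have h5 := Set.ncard_union_le {v | dir (om v (c1 k W.length)) ≠ some false ∧ ¬ ∃ w, (v, w) ∈ B}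
        {v | dir (om v (c1 k W.length)) = some false ∧ ¬ ∃ w, (v, w) ∈ B}
      exact_mod_cast (by omega :
        (Mis W om X).ncard ≤ ({v | dir (om v (c3 k W.length)) ≠ some true ∧ ¬ ∃ w, (v, w) ∈ A}.ncard +
        {v | dir (om v (c3 k W.length)) = some true ∧ ¬ ∃ w, (v, w) ∈ A}.ncard) +
        (({v | dir (om v (c1 k W.length)) ≠ some false ∧ ¬ ∃ w, (v, w) ∈ B}.ncard +
        {v | dir (om v (c1 k W.length)) = some false ∧ ¬ ∃ w, (v, w) ∈ B}.ncard) +
        (⋃ i ∈ (Finset.univ : Finset (Fin k)), um W dir om M (some (some i))).ncard))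
    rw [gc] at hgsA hgsB
    nlinarith
  · -- defects
    have hw := Cmp4_wf W X M hXx
    set u : V → V := fun w => (ac M (wf W))⁻¹ w with hu
    have inv1 : ∀ (σ : Equiv.Perm V) (x : V), σ⁻¹ (σ x) = x := fun σ x => by simp
    have hsub : defs W X ⊆ ({v | dir (om v (e0 k W.length)) = none} ∪ {w | ¬ XG W om M w}) ∪
        ({w | dir (om w (e0 k W.length)) = some true ∧ ¬ ∃ v, (v, w) ∈ A} ∪
        (ac M (wf W)) '' {u | dir (om u (el k W.length)) = some false ∧ ¬ ∃ y, (y, u) ∈ B}) := by
      intro w hwd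
      by_contra hcon
      simp only [Set.mem_union, not_or] at hcon
      obtain ⟨⟨h1, h2⟩, h3, h4⟩ := hcon
      apply hwd
      have hXG : XG W om M w := by
        by_contra hx
        exact h2 hx
      have hrel : ac X (rel W) w = X none (X (some none) ((X none)⁻¹ ((X (some none))⁻¹ (u w)))) := by
        have e1 : ac X (rel W) = X none * X (some none) * (ac X (wf W) * X (some none) * X none)⁻¹ := by
          simp [rel, aa, bb]
        rw [e1, hw]
        simp [hu, Equiv.Perm.mul_apply, mul_inv_rev, mul_assoc]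
      rw [hrel]
      cases hd : dir (om w (e0 k W.length)) with
      | none => exact absurd hd h1
      | some cc =>
        cases cc with
        | true =>
          have h5 : ∃ v, (v, w) ∈ A := by
            by_contra hx
            exact h3 ⟨hd, hx⟩
          obtain ⟨v, hv⟩ := h5
          obtain ⟨z, y, hz1, hz2, hz3⟩ := h.rA v w hv hd
          have q1 : X (some none) y = u w := hXb _ _ hz3
          have q2 : X none z = y := hXa _ _ hz2
          have q3 : X (some none) z = v := hXb _ _ hz1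
          have q4 : X none v = w := hXa _ _ hv
          rw [← q1, inv1, ← q2, inv1, q3, q4]
        | false =>
          have hd2 : dir (om (u w) (el k W.length)) = some false := by
            have : om (u w) (el k W.length) = om w (e0 k W.length) := hXG
            rw [this, hd]
          have h5 : ∃ y, (y, u w) ∈ B := by
            by_contra hx
            exact h4 ⟨u w, ⟨hd2, hx⟩, by simp [hu]⟩
          obtain ⟨y, hy⟩ := h5
          obtain ⟨z, v, hz1, hz2, hz3⟩ := h.rB y (u w) hy hd2
          have hwu : ac M (wf W) (u w) = w := by simp [hu]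
          rw [hwu] at hz3
          have q1 : X (some none) y = u w := hXb _ _ hy
          have q2 : X none z = y := hXa _ _ hz1
          have q3 : X (some none) z = v := hXb _ _ hz2
          have q4 : X none v = w := hXa _ _ hz3
          rw [← q1, inv1, ← q2, inv1, q3, q4]
    have hcA := Cmp4_cov W dir dp D hD om (e0 k W.length) true (fun w => ¬ ∃ v, (v, w) ∈ A)
    have hcB := Cmp4_cov W dir dp D hD om (el k W.length) false (fun u => ¬ ∃ y, (y, u) ∈ B)
    have hcA' : (({w | dir (om w (e0 k W.length)) = some true ∧ ¬ ∃ v, (v, w) ∈ A}.ncard : ℕ) : ℝ) ≤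
        ∑ i ∈ Finset.range (D + 1), a i := by
      simp only [ha]
      exact_mod_cast hcA
    have hcB' : (({u | dir (om u (el k W.length)) = some false ∧ ¬ ∃ y, (y, u) ∈ B}.ncard : ℕ) : ℝ) ≤
        ∑ i ∈ Finset.range (D + 1), b i := by
      simp only [hb]
      exact_mod_cast hcB
    have hn : ((defs W X).ncard : ℝ) ≤
        ((({v | dir (om v (e0 k W.length)) = none}.ncard : ℕ) : ℝ) + (({w | ¬ XG W om M w}.ncard : ℕ) : ℝ)) +
        ((({w | dir (om w (e0 k W.length)) = some true ∧ ¬ ∃ v, (v, w) ∈ A}.ncard : ℕ) : ℝ) +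
        (({u | dir (om u (el k W.length)) = some false ∧ ¬ ∃ y, (y, u) ∈ B}.ncard : ℕ) : ℝ)) := by
      have h1 := Set.ncard_le_ncard hsub (Set.toFinite _)
      have h2 := Set.ncard_union_le ({v | dir (om v (e0 k W.length)) = none} ∪ {w | ¬ XG W om M w})
        ({w | dir (om w (e0 k W.length)) = some true ∧ ¬ ∃ v, (v, w) ∈ A} ∪
        (ac M (wf W)) '' {u | dir (om u (el k W.length)) = some false ∧ ¬ ∃ y, (y, u) ∈ B})
      have h3 := Set.ncard_union_le {v | dir (om v (e0 k W.length)) = none} {w | ¬ XG W om M w}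
      have h4 := Set.ncard_union_le {w | dir (om w (e0 k W.length)) = some true ∧ ¬ ∃ v, (v, w) ∈ A}
        ((ac M (wf W)) '' {u | dir (om u (el k W.length)) = some false ∧ ¬ ∃ y, (y, u) ∈ B})
      have h5 := Set.ncard_image_le (f := ac M (wf W))
        (s := {u | dir (om u (el k W.length)) = some false ∧ ¬ ∃ y, (y, u) ∈ B}) (Set.toFinite _)
      exact_mod_cast (by omega :
        (defs W X).ncard ≤ ({v | dir (om v (e0 k W.length)) = none}.ncard + {w | ¬ XG W om M w}.ncard) +
        ({w | dir (om w (e0 k W.length)) = some true ∧ ¬ ∃ v, (v, w) ∈ A}.ncard +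
        {u | dir (om u (el k W.length)) = some false ∧ ¬ ∃ y, (y, u) ∈ B}.ncard))
    nlinarith

end H33.BO
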