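import Mathlib

/-! # BO.Cnt1 : number of the families of maps with prescribed interface patterns (paper 2.5)

PROOF. The set of the families is contained in the set of all `A` with `A s v ∈ M s v` for all `s`, `v`, where `M s v := {v}` if `v ∉ K s`, `:= univ` if `v ∈ K s ∩ E s`, `:= {u | tgt s (Φ u) = src s (Φ v)}` if `v ∈ K s \ E s` (finsets). The number of these is `∏ s, ∏ v, (M s v).card`
(`Fintype.card_piFinset` twice) and for fixed `s` the product over `v` splits according to the three cases (`Finset.prod_ite`, or `Finset.prod_subset` after writing univ as a disjoint union). -/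

set_option autoImplicit false

open MeasureTheory

namespace H33.BO

theorem cnt1 {S V Pt : Type} {Q : S → Type} [Fintype S] [Fintype V] [DecidableEq V] (src tgt : ∀ s, Pt → Q s)
    (Φ : V → Pt) (K E : S → Finset V) :
    Nat.card {A : S → V → V // (∀ s v, v ∉ K s → A s v = v) ∧
        ∀ s, ∀ v ∈ K s, v ∉ E s → tgt s (Φ (A s v)) = src s (Φ v)} ≤
      ∏ s, ((∏ v ∈ K s \ E s, Nat.card {u // tgt s (Φ u) = src s (Φ v)}) *
        Fintype.card V ^ (K s ∩ E s).card) := by
  classical
  set M : S → V → Finset V := fun s v => if v ∈ K s then (if v ∈ E s then Finset.univ else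
    Finset.univ.filter fun u => tgt s (Φ u) = src s (Φ v)) else {v} with hM
  have h1 : Nat.card {A : S → V → V // (∀ s v, v ∉ K s → A s v = v) ∧
        ∀ s, ∀ v ∈ K s, v ∉ E s → tgt s (Φ (A s v)) = src s (Φ v)} ≤
      (Fintype.piFinset fun s => Fintype.piFinset (M s)).card := by
    rw [Nat.card_eq_fintype_card, Fintype.card_subtype]
    refine Finset.card_le_card fun A hA => ?_
    obtain ⟨a1, a2⟩ := (Finset.mem_filter.1 hA).2
    rw [Fintype.mem_piFinset]
    intro s
    rw [Fintype.mem_piFinset]
    intro v
    simp only [hM]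
    by_cases hk : v ∈ K s
    · rw [if_pos hk]
      by_cases he : v ∈ E s
      · rw [if_pos he]
        exact Finset.mem_univ _
      · rw [if_neg he]
        exact Finset.mem_filter.2 ⟨Finset.mem_univ _, a2 s v hk he⟩
    · rw [if_neg hk, a1 s v hk]
      exact Finset.mem_singleton_self _
  refine h1.trans (le_of_eq ?_)
  rw [Fintype.card_piFinset]
  refine Finset.prod_congr rfl fun s _ => ?_
  rw [Fintype.card_piFinset]
  have h2 : ∀ v, (M s v).card = if v ∈ K s then (if v ∈ E s then Fintype.card V else
      Nat.card {u // tgt s (Φ u) = src s (Φ v)}) else 1 := by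
    intro v
    simp only [hM]
    by_cases hk : v ∈ K s
    · rw [if_pos hk, if_pos hk]
      by_cases he : v ∈ E s
      · rw [if_pos he, if_pos he, Finset.card_univ]
      · rw [if_neg he, if_neg he, Nat.card_eq_fintype_card, Fintype.card_subtype]
    · rw [if_neg hk, if_neg hk, Finset.card_singleton]
  rw [Finset.prod_congr rfl fun v _ => h2 v, Finset.prod_ite_mem, Finset.univ_inter,
    Finset.prod_ite, Finset.prod_const, Finset.filter_mem_eq_inter, mul_comm,
    Finset.filter_notMem_eq_sdiff]

end H33.BO
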