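import Pool.Agent.H33.BO.Defs

/-! # BO.CntF : continuity of the functionals, in a linear form

PROOF. `cnt_lin`: by continuity at `p0` there is `δ > 0` with `|F p - F p0| ≤ ε` if `∑ i, |p i - p0 i| ≤ δ` (`Metric.continuous_iff`, the sup metric of `ι → ℝ`: `dist (p i) (p0 i) ≤ ∑`). On the compact cube `Set.pi univ (Icc 0 1)` `|F|` is bounded by some `M`, `C := (M + |F p0|) / δ`. `cont_*`: `Real.continuous_negMulLog`, finite sums, `continuous_finsetSum`, `continuous_apply`; unfold and use `fun_prop`. -/

set_option autoImplicit false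

open MeasureTheory H31.BE

namespace H33.BO

theorem cnt_lin {ι : Type} [Fintype ι] (F : (ι → ℝ) → ℝ) (hF : Continuous F) (p0 : ι → ℝ) (ε : ℝ) (hε : 0 < ε) :
    ∃ C : ℝ, 0 ≤ C ∧ ∀ p : ι → ℝ, (∀ i, 0 ≤ p i ∧ p i ≤ 1) → |F p - F p0| ≤ ε + C * ∑ i, |p i - p0 i| := by
  classical
  obtain ⟨δ, hδ, hd⟩ := Metric.continuous_iff.mp hF p0 ε hε
  have hK : IsCompact (Set.univ.pi fun _ : ι => Set.Icc (0 : ℝ) 1) := isCompact_univ_pi fun _ => isCompact_Icc
  obtain ⟨M, hM⟩ := hK.exists_bound_of_continuousOn hF.continuousOn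
  refine ⟨(|M| + |F p0|) / δ, by positivity, ?_⟩
  intro p hp
  have hS : 0 ≤ ∑ i, |p i - p0 i| := Finset.sum_nonneg fun i _ => abs_nonneg _
  have hdist : dist p p0 ≤ ∑ i, |p i - p0 i| := by
    rw [dist_pi_le_iff hS]
    intro i
    rw [Real.dist_eq]
    exact Finset.single_le_sum (f := fun i => |p i - p0 i|) (fun j _ => abs_nonneg _) (Finset.mem_univ i)
  by_cases h : dist p p0 < δ
  · have h1 := hd p h
    rw [Real.dist_eq] at h1
    have h2 : 0 ≤ (|M| + |F p0|) / δ * ∑ i, |p i - p0 i| := by positivity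
    linarith
  · push Not at h
    have h1 : ‖F p‖ ≤ M := hM p (by
      rw [Set.mem_univ_pi]
      intro i
      exact ⟨(hp i).1, (hp i).2⟩)
    rw [Real.norm_eq_abs] at h1
    have h2 : |F p - F p0| ≤ |M| + |F p0| := by
      have h3 := abs_sub (F p) (F p0)
      have h4 := le_abs_self M
      linarith
    have h3 : |M| + |F p0| = (|M| + |F p0|) / δ * δ := by field_simp
    have h4 : (|M| + |F p0|) / δ * δ ≤ (|M| + |F p0|) / δ * ∑ i, |p i - p0 i| :=
      mul_le_mul_of_nonneg_left (le_trans h hdist) (by positivity)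
    linarith
theorem cont_Gn {k : ℕ} (W : Wd k) {P : Type} [Finite P] (dir : P → Option Bool) : Continuous (Gn W dir) := by
  classical
  unfold Gn
  refine continuous_finsetSum _ fun s _ => continuous_finsetSum _ fun q _ => ?_
  split_ifs
  · exact continuous_const
  · exact Real.continuous_negMulLog.comp (continuous_finsetSum _ fun Φ _ => continuous_apply Φ)
theorem cont_Fn {k : ℕ} (W : Wd k) {P : Type} [Finite P] (dir : P → Option Bool) : Continuous (Fn W dir) := by
  classical
  unfold Fn
  refine Continuous.sub ?_ (cont_Gn W dir)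
  exact continuous_finsetSum _ fun Φ _ => Real.continuous_negMulLog.comp (continuous_apply Φ)
theorem cont_H {ι : Type} [Fintype ι] : Continuous (fun p : ι → ℝ => ∑ i, Real.negMulLog (p i)) := by
  exact continuous_finsetSum _ fun i _ => Real.continuous_negMulLog.comp (continuous_apply i)
theorem cont_Hc {α β : Type} [Fintype α] [Fintype β] :
    Continuous (fun p : α × β → ℝ => (∑ a, ∑ b, Real.negMulLog (p (a, b))) -
      ∑ b, Real.negMulLog (∑ a, p (a, b))) := by
  refine Continuous.sub ?_ ?_
  · exact continuous_finsetSum _ fun a _ => continuous_finsetSum _ fun b _ =>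
      Real.continuous_negMulLog.comp (continuous_apply (a, b))
  · exact continuous_finsetSum _ fun b _ => Real.continuous_negMulLog.comp
      (continuous_finsetSum _ fun a _ => continuous_apply (a, b))
end H33.BO
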