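import Pool.Agent.H33.BO.CjB
import Pool.Agent.H33.BO.Defs2

/-! # BO.CntT : number of the almost solutions with all letters

PROOF. The family `τ` is the family of the `k` permutations of the x-letters (`(n!)^k` choices) together with the pair `(τ none, τ (some none))`; `ac τ (wf W)` depends only on the x-letters (`wf W` is a product of x-letters: induction on `W`). For fixed x-letters apply `cjB` with `ω := ac τ (wf W)`. (Injection of the set into the sigma type over `Fin k → Perm (Fin n)`; `Nat.card_sigma` or a sum.) -/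

set_option autoImplicit false

open MeasureTheory H31.BE

namespace H33.BO

private theorem cntT_ac {k n : ℕ} (W : Wd k) (τ : Lt k → Equiv.Perm (Fin n)) :
    ac τ (wf W) = (W.map fun p => if p.2 then τ (some (some p.1)) else (τ (some (some p.1)))⁻¹).prod := by
  rw [wf, map_list_prod, List.map_map]
  congr 1
  apply List.map_congr_left
  intro p _
  rcases p with ⟨i, b⟩
  cases b <;> simp [sl, xx, ac]

theorem cntT {k : ℕ} (W : Wd k) (n : ℕ) (hn : 1 ≤ n) (D : ℕ) :
    Nat.card {τ : Lt k → Equiv.Perm (Fin n) // {v | τ none ((ac τ (wf W))⁻¹ (τ (some none) v)) ≠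
      τ (some none) (τ none v)}.ncard ≤ D} ≤
      n.factorial ^ k * ((n * n) ^ D * (n.factorial * 2 ^ n)) := by
  classical
  set F : (Fin k → Equiv.Perm (Fin n)) → Equiv.Perm (Fin n) := fun x =>
    (W.map fun p => if p.2 then x p.1 else (x p.1)⁻¹).prod with hF
  have hac : ∀ τ : Lt k → Equiv.Perm (Fin n), ac τ (wf W) = F (fun i => τ (some (some i))) :=
    fun τ => cntT_ac W τ
  let f : {τ : Lt k → Equiv.Perm (Fin n) // {v | τ none ((ac τ (wf W))⁻¹ (τ (some none) v)) ≠
      τ (some none) (τ none v)}.ncard ≤ D} →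
      Σ x : Fin k → Equiv.Perm (Fin n), {p : Equiv.Perm (Fin n) × Equiv.Perm (Fin n) //
      {v | p.1 ((F x)⁻¹ (p.2 v)) ≠ p.2 (p.1 v)}.ncard ≤ D} := fun τ =>
    ⟨fun i => τ.1 (some (some i)), ⟨(τ.1 none, τ.1 (some none)), by
      have h := τ.2
      rw [hac] at h
      exact h⟩⟩
  have hf : Function.Injective f := by
    intro τ τ' h
    have h1 : (fun i => τ.1 (some (some i))) = fun i => τ'.1 (some (some i)) := congrArg Sigma.fst h
    have h2 : (f τ).2.1 = (f τ').2.1 := by
      rw [h]
    have h3 : (τ.1 none, τ.1 (some none)) = (τ'.1 none, τ'.1 (some none)) := h2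
    apply Subtype.ext
    funext s
    rcases s with _ | _ | i
    · exact (Prod.mk.inj h3).1
    · exact (Prod.mk.inj h3).2
    · exact congrFun h1 i
  calc Nat.card {τ : Lt k → Equiv.Perm (Fin n) // {v | τ none ((ac τ (wf W))⁻¹ (τ (some none) v)) ≠
      τ (some none) (τ none v)}.ncard ≤ D} ≤
      Nat.card (Σ x : Fin k → Equiv.Perm (Fin n), {p : Equiv.Perm (Fin n) × Equiv.Perm (Fin n) //
      {v | p.1 ((F x)⁻¹ (p.2 v)) ≠ p.2 (p.1 v)}.ncard ≤ D}) := Nat.card_le_card_of_injective f hf
    _ = ∑ x : Fin k → Equiv.Perm (Fin n), Nat.card {p : Equiv.Perm (Fin n) × Equiv.Perm (Fin n) //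
      {v | p.1 ((F x)⁻¹ (p.2 v)) ≠ p.2 (p.1 v)}.ncard ≤ D} := Nat.card_sigma
    _ ≤ ∑ _x : Fin k → Equiv.Perm (Fin n), (n * n) ^ D * (n.factorial * 2 ^ n) :=
      Finset.sum_le_sum fun x _ => cjB n hn D (F x)
    _ = n.factorial ^ k * ((n * n) ^ D * (n.factorial * 2 ^ n)) := by
      rw [Finset.sum_const, Finset.card_univ, Fintype.card_fun, Fintype.card_perm, Fintype.card_fin,
        Fintype.card_fin, smul_eq_mul]

end H33.BO
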