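import Pool.Agent.H33.BO.Defs2

/-! # BO.CntV : an almost action is close to a family of permutations

PROOF. `l := W.length`, `Gd := ug W f`, `#Gdᶜ ≤ D`. For every letter `s` the map `f (s, true)` is injective on `Gd' := {v | f (s, false) (f (s, true) v) = v} ⊇ Gd`, so there is a permutation `τ s` of `Fin n` that agrees with `f (s, true)` on `Gd` (an injective map on a subset extends to a permutation): `E s := {v | τ s v ≠ f (s, true) v}` has at most `D` elements. `f (s, false) v = (τ s)⁻¹ v` except for at most `2 D` vertices: for `v ∈ Gd`, `u = f (s, false) v`: `f (s, true) u = v`;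
if `u ∉ E s` then `τ s u = v`; `v ↦ u` is injective on `Gd`, so `u ∈ E s` for at most `D` values. With `f' (s, true) := τ s`, `f' (s, false) := (τ s)⁻¹`: at most `3 D` differences for every letter `s`, `3 D (k + 2)` in total. The relation: `evf f' w1 v = τ none ((ac τ (wf W))⁻¹ (τ (some none) v))` for the word `w1 = (none, true) :: (wi W ++ [(some none, true)])` (`wi W` evaluates to the inverse of `ac τ (wf W)`: induction on `W`),
`evf f' [(some none, true), (none, true)] v = τ (some none) (τ none v)`. If `v ∈ Gd` and all the points on the two paths of `v` under `f'` are points where `f'` agrees with `f` for the next letter then `evf f' = evf f` for both words and the relation holds for `f'`. The exceptions: `D + (l + 4) 2 D` (every point of the path is the image of `v` under a permutation). -/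

set_option autoImplicit false

open MeasureTheory H31.BE

namespace H33.BO

/-- extension of an injective map to a permutation -/
private lemma CntV_ext {n : ℕ} (f : Fin n → Fin n) (S : Set (Fin n)) (hf : Set.InjOn f S) :
    ∃ τ : Equiv.Perm (Fin n), ∀ v ∈ S, τ v = f v := by
  classical
  obtain ⟨g, hg⟩ := Finset.exists_equiv_extend_of_card_eq (α := Fin n) (β := Fin n) (t := Finset.univ)
    (by simp) (s := S.toFinset) (f := f) (Finset.subset_univ _) (by simpa using hf)
  refine ⟨g.trans (Equiv.subtypeUnivEquiv (fun x => Finset.mem_univ x)), fun v hv => ?_⟩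
  have := hg v (by simpa using hv)
  simpa using this

/-- the value of a signed letter -/
private def CntV_g {k n : ℕ} (τ : Lt k → Equiv.Perm (Fin n)) (p : Lt k × Bool) : Equiv.Perm (Fin n) :=
  if p.2 then τ p.1 else (τ p.1)⁻¹

private lemma CntV_evf {k n : ℕ} (τ : Lt k → Equiv.Perm (Fin n)) (w : List (Lt k × Bool)) (v : Fin n) :
    evf (fun p v => CntV_g τ p v) w v = (w.map (CntV_g τ)).prod v := by
  induction w with
  | nil => simp [evf]
  | cons p w ih => simp [evf, ih]

private lemma CntV_wi {k n : ℕ} (τ : Lt k → Equiv.Perm (Fin n)) (W : Wd k) :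
    ((wi W).map (CntV_g τ)).prod = (ac τ (wf W))⁻¹ := by
  induction W with
  | nil => simp [wi, wf]
  | cons p W ih =>
    have h1 : wi (p :: W) = wi W ++ [(some (some p.1), !p.2)] := by simp [wi]
    have h2 : wf (p :: W) = sl p * wf W := by simp [wf]
    rw [h1, h2, List.map_append, List.prod_append, ih, map_mul, mul_inv_rev]
    congr 1
    rcases p with ⟨i, c⟩
    cases c <;> simp [CntV_g, sl, xx]

/-- agreement along words -/
private lemma CntV_agree {k n D : ℕ} (f : Lt k × Bool → Fin n → Fin n) (τ : Lt k → Equiv.Perm (Fin n))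
    (h : ∀ p : Lt k × Bool, {v | f p v ≠ CntV_g τ p v}.ncard ≤ 2 * D) (w : List (Lt k × Bool)) :
    {v | evf f w v ≠ (w.map (CntV_g τ)).prod v}.ncard ≤ 2 * D * w.length := by
  induction w with
  | nil => simp [evf]
  | cons p w ih =>
    have h1 : {v | evf f (p :: w) v ≠ ((p :: w).map (CntV_g τ)).prod v} ⊆
        {v | evf f w v ≠ (w.map (CntV_g τ)).prod v} ∪
          ((w.map (CntV_g τ)).prod ⁻¹' {u | f p u ≠ CntV_g τ p u}) := by
      intro v hv
      rw [Set.mem_setOf_eq] at hv
      by_contra hc
      rw [Set.mem_union, not_or] at hc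
      obtain ⟨c1, c2⟩ := hc
      rw [Set.mem_setOf_eq, not_not] at c1
      rw [Set.mem_preimage, Set.mem_setOf_eq, not_not] at c2
      apply hv
      rw [List.map_cons, List.prod_cons, Equiv.Perm.mul_apply, ← c2, ← c1]
      rfl
    have h2 : ((w.map (CntV_g τ)).prod ⁻¹' {u | f p u ≠ CntV_g τ p u}).ncard ≤ 2 * D := by
      rw [Set.ncard_preimage_of_injective_subset_range (Equiv.injective _)
        (by rw [Equiv.range_eq_univ]; exact Set.subset_univ _)]
      exact h p
    calc _ ≤ _ := Set.ncard_le_ncard h1 (Set.toFinite _)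
      _ ≤ _ := Set.ncard_union_le _ _
      _ ≤ 2 * D * w.length + 2 * D := by omega
      _ = 2 * D * (p :: w).length := by rw [List.length_cons]; ring

theorem cntV {k : ℕ} (W : Wd k) (n D : ℕ) (f : Lt k × Bool → Fin n → Fin n) (hf : ((ug W f)ᶜ).ncard ≤ D) :
    ∃ τ : Lt k → Equiv.Perm (Fin n),
      {p : (Lt k × Bool) × Fin n | f p.1 p.2 ≠ (if p.1.2 then τ p.1.1 p.2 else (τ p.1.1)⁻¹ p.2)}.ncard ≤
        3 * D * (k + 2) ∧
      {v | τ none ((ac τ (wf W))⁻¹ (τ (some none) v)) ≠ τ (some none) (τ none v)}.ncard ≤
        (2 * W.length + 9) * D := by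
  classical
  have hgd : ∀ v ∈ ug W f, ∀ s c, f (s, c) (f (s, !c) v) = v := fun v hv => hv.1
  have hinj : ∀ s c, Set.InjOn (f (s, c)) (ug W f) := by
    intro s c a ha b hb hab
    have h1 := hgd a ha s (!c)
    have h2 := hgd b hb s (!c)
    rw [Bool.not_not] at h1 h2
    rw [← h1, ← h2, hab]
  choose τ hτ using fun s => CntV_ext (f (s, true)) (ug W f) (hinj s true)
  have hE : ∀ s, {v | f (s, true) v ≠ τ s v}.ncard ≤ D := by
    intro s
    refine le_trans (Set.ncard_le_ncard ?_ (Set.toFinite _)) hf
    intro v hv hv2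
    exact hv (hτ s v hv2).symm
  have hF : ∀ s, {v | f (s, false) v ≠ (τ s)⁻¹ v}.ncard ≤ 2 * D := by
    intro s
    have h1 : {v | f (s, false) v ≠ (τ s)⁻¹ v} ⊆ (ug W f)ᶜ ∪
        {v | v ∈ ug W f ∧ f (s, false) v ∈ {v | f (s, true) v ≠ τ s v}} := by
      intro v hv
      by_cases hg : v ∈ ug W f
      · right
        refine ⟨hg, fun hu => hv ?_⟩
        have h2 := hgd v hg s true
        rw [Bool.not_true] at h2
        rw [hu] at h2
        rw [Equiv.Perm.eq_inv_iff_eq]
        exact h2
      · left
        exact hg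
    have h2 : {v | v ∈ ug W f ∧ f (s, false) v ∈ {v | f (s, true) v ≠ τ s v}}.ncard ≤ D := by
      refine le_trans (Set.ncard_le_ncard_of_injOn (f (s, false)) (fun v hv => hv.2) ?_ (Set.toFinite _)) (hE s)
      intro a ha b hb hab
      exact hinj s false ha.1 hb.1 hab
    calc _ ≤ _ := Set.ncard_le_ncard h1 (Set.toFinite _)
      _ ≤ _ := Set.ncard_union_le _ _
      _ ≤ 2 * D := by omega
  have hP : ∀ p : Lt k × Bool, {v | f p v ≠ CntV_g τ p v}.ncard ≤ 2 * D := by
    rintro ⟨s, c⟩
    cases c
    · exact hF s
    · have := hE s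
      have h2 : {v | f (s, true) v ≠ CntV_g τ (s, true) v} = {v | f (s, true) v ≠ τ s v} := rfl
      rw [h2]
      omega
  refine ⟨τ, ?_, ?_⟩
  · have h1 : {p : (Lt k × Bool) × Fin n | f p.1 p.2 ≠ (if p.1.2 then τ p.1.1 p.2 else (τ p.1.1)⁻¹ p.2)} ⊆
        ↑(Finset.univ.biUnion fun s : Lt k =>
          ((({v | f (s, true) v ≠ τ s v} : Set (Fin n)).toFinset.image fun v => (((s, true) : Lt k × Bool), v)) ∪
          (({v | f (s, false) v ≠ (τ s)⁻¹ v} : Set (Fin n)).toFinset.image
            fun v => (((s, false) : Lt k × Bool), v)))) := by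
      rintro ⟨⟨s, c⟩, v⟩ hv
      rw [Set.mem_setOf_eq] at hv
      cases c
      · simp only [Finset.coe_biUnion, Set.mem_iUnion]
        refine ⟨s, by simp, ?_⟩
        simp only [Finset.mem_coe, Finset.mem_union, Finset.mem_image, Set.mem_toFinset]
        right
        exact ⟨v, hv, rfl⟩
      · simp only [Finset.coe_biUnion, Set.mem_iUnion]
        refine ⟨s, by simp, ?_⟩
        simp only [Finset.mem_coe, Finset.mem_union, Finset.mem_image, Set.mem_toFinset]
        left
        exact ⟨v, hv, rfl⟩
    refine le_trans (Set.ncard_le_ncard h1 (Set.toFinite _)) ?_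
    rw [Set.ncard_coe_finset]
    refine le_trans Finset.card_biUnion_le ?_
    refine le_trans (Finset.sum_le_card_nsmul _ _ (3 * D) ?_) ?_
    · intro s _
      refine le_trans (Finset.card_union_le _ _) ?_
      have e1 := hE s
      have e2 := hF s
      rw [Set.ncard_eq_toFinset_card'] at e1 e2
      have f1 := Finset.card_image_le (s := ({v | f (s, true) v ≠ τ s v} : Set (Fin n)).toFinset)
        (f := fun v => (((s, true) : Lt k × Bool), v))
      have f2 := Finset.card_image_le (s := ({v | f (s, false) v ≠ (τ s)⁻¹ v} : Set (Fin n)).toFinset)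
        (f := fun v => (((s, false) : Lt k × Bool), v))
      omega
    · rw [smul_eq_mul, Finset.card_univ]
      have : Fintype.card (Lt k) = k + 2 := by simp [Fintype.card_option]
      rw [this, mul_comm]
  · have hw1 := CntV_agree f τ hP ((none, true) :: (wi W ++ [(some none, true)]))
    have hw2 := CntV_agree f τ hP [(some none, true), (none, true)]
    have hl : (wi W).length = W.length := by simp [wi]
    have g1 : ((((none, true) :: (wi W ++ [(some none, true)]) : List (Lt k × Bool))).map (CntV_g τ)).prod =
        τ none * ((ac τ (wf W))⁻¹ * τ (some none)) := by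
      rw [List.map_cons, List.prod_cons, List.map_append, List.prod_append, CntV_wi]
      simp [CntV_g]
    have g2 : (([(some none, true), (none, true)] : List (Lt k × Bool)).map (CntV_g τ)).prod =
        τ (some none) * τ none := by
      simp [CntV_g]
    rw [g1] at hw1
    rw [g2] at hw2
    have h1 : {v | τ none ((ac τ (wf W))⁻¹ (τ (some none) v)) ≠ τ (some none) (τ none v)} ⊆
        (ug W f)ᶜ ∪ ({v | evf f ((none, true) :: (wi W ++ [(some none, true)])) v ≠
          (τ none * ((ac τ (wf W))⁻¹ * τ (some none))) v} ∪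
        {v | evf f [(some none, true), (none, true)] v ≠ (τ (some none) * τ none) v}) := by
      intro v hv
      by_contra hc
      rw [Set.mem_union, not_or, Set.mem_union, not_or] at hc
      obtain ⟨c0, c1, c2⟩ := hc
      rw [Set.notMem_compl_iff] at c0
      rw [Set.mem_setOf_eq, not_not] at c1 c2
      apply hv
      have e := c0.2
      rw [c1, c2] at e
      exact e
    have hlen : ((none, true) :: (wi W ++ [(some none, true)]) : List (Lt k × Bool)).length = W.length + 2 := by
      simp [hl]
    rw [hlen] at hw1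
    calc _ ≤ _ := Set.ncard_le_ncard h1 (Set.toFinite _)
      _ ≤ _ := Set.ncard_union_le _ _
      _ ≤ D + (2 * D * (W.length + 2) + 2 * D * 2) :=
          Nat.add_le_add hf (le_trans (Set.ncard_union_le _ _) (Nat.add_le_add hw1 hw2))
      _ = (2 * W.length + 9) * D := by ring

end H33.BO
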