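import Pool.Agent.H33.BO.CntT
import Pool.Agent.H33.BO.CntV
import Pool.Agent.H31.BE.EntE

/-! # BO.CntU : number of the almost actions (paper 3.5)

PROOF. `l := W.length`, `D' := (2 l + 9) D`. By `cntV` every `f` of the set is close to `f'_τ` for a `τ` of the set of `cntT` for `D'`. So the number of `f` is at most the number of these `τ` times the largest number of `f` with at most `3 D (k + 2)` differences from a given `f'` (`ncard_close` from `H31.BE.EntE` for `V = (Lt k × Bool) × Fin n`, `W = Fin n`, after currying: `(2 (k + 2) n * n)^(3 D (k + 2))`), in total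
`(n!)^k (n n)^D' n! 2^n (2 (k+2) n n)^(3 D (k+2))`. Take logarithms: `(k + 1) log n! + n log 2 + D (2 (2 l + 9) + 3 (k + 2) (2 + log (2 (k + 2)) / log 2)) log (n + 1)` (`log n ≤ log (n + 1)`, `log 2 ≤ log (n + 1)`). -/

set_option autoImplicit false

open MeasureTheory H31.BE

namespace H33.BO

private theorem cntU_nat {k : ℕ} (W : Wd k) (n D : ℕ) (hn : 1 ≤ n) :
    {f : Lt k × Bool → Fin n → Fin n | ((ug W f)ᶜ).ncard ≤ D}.ncard ≤
      (n.factorial ^ k * ((n * n) ^ ((2 * W.length + 9) * D) * (n.factorial * 2 ^ n))) *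
        ((2 * (k + 2) * n) * n) ^ (3 * D * (k + 2)) := by
  classical
  have : Nonempty (Fin n) := ⟨⟨0, hn⟩⟩
  let y : (Lt k → Equiv.Perm (Fin n)) → (Lt k × Bool) × Fin n → Fin n := fun τ p =>
    if p.1.2 then τ p.1.1 p.2 else (τ p.1.1)⁻¹ p.2
  let T : Finset (Lt k → Equiv.Perm (Fin n)) := Finset.univ.filter fun τ =>
    {v | τ none ((ac τ (wf W))⁻¹ (τ (some none) v)) ≠ τ (some none) (τ none v)}.ncard ≤
      (2 * W.length + 9) * D
  let B : (Lt k → Equiv.Perm (Fin n)) → Finset (Lt k × Bool → Fin n → Fin n) := fun τ =>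
    Finset.univ.filter fun f => {p : (Lt k × Bool) × Fin n | f p.1 p.2 ≠ y τ p}.ncard ≤ 3 * D * (k + 2)
  have hT : T.card ≤ n.factorial ^ k * ((n * n) ^ ((2 * W.length + 9) * D) * (n.factorial * 2 ^ n)) := by
    have h1 := cntT W n hn ((2 * W.length + 9) * D)
    rw [Nat.card_eq_fintype_card, Fintype.card_subtype] at h1
    exact h1
  have hB : ∀ τ ∈ T, (B τ).card ≤ ((2 * (k + 2) * n) * n) ^ (3 * D * (k + 2)) := by
    intro τ _
    have h1 := ncard_close (V := (Lt k × Bool) × Fin n) (W := Fin n) (y τ) (3 * D * (k + 2))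
    have h2 : Nat.card ((Lt k × Bool) × Fin n) * Nat.card (Fin n) = (2 * (k + 2) * n) * n := by
      simp [Nat.card_eq_fintype_card]
      left
      ring
    rw [h2] at h1
    refine le_trans ?_ h1
    rw [← Set.ncard_coe_finset]
    refine Set.ncard_le_ncard_of_injOn (fun f => Function.uncurry f) ?_ ?_ (Set.toFinite _)
    · intro f hf
      have h3 : {p : (Lt k × Bool) × Fin n | f p.1 p.2 ≠ y τ p}.ncard ≤ 3 * D * (k + 2) := by
        simpa [B] using hf
      exact h3
    · intro f _ f' _ h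
      funext a b
      exact congrFun h (a, b)
  have hsub : {f : Lt k × Bool → Fin n → Fin n | ((ug W f)ᶜ).ncard ≤ D} ⊆ ((T.biUnion B : Finset _) : Set _) := by
    intro f hf
    obtain ⟨τ, h1, h2⟩ := cntV W n D f hf
    rw [Finset.coe_biUnion, Set.mem_iUnion₂]
    exact ⟨τ, by simpa [T] using h2, by simpa [B, y] using h1⟩
  calc {f : Lt k × Bool → Fin n → Fin n | ((ug W f)ᶜ).ncard ≤ D}.ncard
      ≤ (((T.biUnion B : Finset _) : Set (Lt k × Bool → Fin n → Fin n))).ncard :=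
        Set.ncard_le_ncard hsub (Set.toFinite _)
    _ = (T.biUnion B).card := Set.ncard_coe_finset _
    _ ≤ T.card * ((2 * (k + 2) * n) * n) ^ (3 * D * (k + 2)) := Finset.card_biUnion_le_card_mul _ _ _ hB
    _ ≤ _ := Nat.mul_le_mul_right _ hT

theorem cntU {k : ℕ} (W : Wd k) : ∃ C : ℕ, ∀ (n D : ℕ), 1 ≤ n →
    ({f : Lt k × Bool → Fin n → Fin n | ((ug W f)ᶜ).ncard ≤ D}.ncard : ℝ) ≤
      Real.exp (((k : ℝ) + 1) * Real.log n.factorial + n + C * D * Real.log (n + 1)) := by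
  refine ⟨2 * (2 * W.length + 9) + (2 * (k + 2) + 2) * (3 * (k + 2)), fun n D hn => ?_⟩
  set C : ℕ := 2 * (2 * W.length + 9) + (2 * (k + 2) + 2) * (3 * (k + 2)) with hC
  have h1 := cntU_nat W n D hn
  have h2 : (n * n) ^ ((2 * W.length + 9) * D) ≤ (n + 1) ^ (2 * (2 * W.length + 9) * D) := by
    calc (n * n) ^ ((2 * W.length + 9) * D) ≤ ((n + 1) ^ 2) ^ ((2 * W.length + 9) * D) :=
          Nat.pow_le_pow_left (by nlinarith) _
      _ = (n + 1) ^ (2 * (2 * W.length + 9) * D) := by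
          rw [← pow_mul]
          ring_nf
  have h3 : ((2 * (k + 2) * n) * n) ^ (3 * D * (k + 2)) ≤ (n + 1) ^ ((2 * (k + 2) + 2) * (3 * (k + 2)) * D) := by
    have h4 : 2 * (k + 2) ≤ (n + 1) ^ (2 * (k + 2)) :=
      (Nat.lt_two_pow_self (n := 2 * (k + 2))).le.trans (Nat.pow_le_pow_left (by omega) _)
    have h5 : n * n ≤ (n + 1) ^ 2 := by nlinarith
    have h6 : (2 * (k + 2) * n) * n ≤ (n + 1) ^ (2 * (k + 2) + 2) := by
      calc (2 * (k + 2) * n) * n = (2 * (k + 2)) * (n * n) := by ring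
        _ ≤ (n + 1) ^ (2 * (k + 2)) * (n + 1) ^ 2 := Nat.mul_le_mul h4 h5
        _ = _ := by rw [← pow_add]
    calc ((2 * (k + 2) * n) * n) ^ (3 * D * (k + 2)) ≤ ((n + 1) ^ (2 * (k + 2) + 2)) ^ (3 * D * (k + 2)) :=
          Nat.pow_le_pow_left h6 _
      _ = _ := by
          rw [← pow_mul]
          ring_nf
  have h7 : {f : Lt k × Bool → Fin n → Fin n | ((ug W f)ᶜ).ncard ≤ D}.ncard ≤
      n.factorial ^ (k + 1) * 2 ^ n * (n + 1) ^ (C * D) := by
    refine h1.trans ?_
    calc (n.factorial ^ k * ((n * n) ^ ((2 * W.length + 9) * D) * (n.factorial * 2 ^ n))) *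
        ((2 * (k + 2) * n) * n) ^ (3 * D * (k + 2))
        ≤ (n.factorial ^ k * ((n + 1) ^ (2 * (2 * W.length + 9) * D) * (n.factorial * 2 ^ n))) *
          (n + 1) ^ ((2 * (k + 2) + 2) * (3 * (k + 2)) * D) := by gcongr
      _ = n.factorial ^ (k + 1) * 2 ^ n * (n + 1) ^ (C * D) := by
          have h9 : C * D = 2 * (2 * W.length + 9) * D + (2 * (k + 2) + 2) * (3 * (k + 2)) * D := by
            rw [hC]
            ring
          rw [h9, pow_add (n + 1), pow_succ]
          ring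
  have h8 : ({f : Lt k × Bool → Fin n → Fin n | ((ug W f)ᶜ).ncard ≤ D}.ncard : ℝ) ≤
      (n.factorial : ℝ) ^ (k + 1) * 2 ^ n * ((n : ℝ) + 1) ^ (C * D) := by exact_mod_cast h7
  refine h8.trans ?_
  have hf : (0 : ℝ) < n.factorial := by exact_mod_cast n.factorial_pos
  have e1 : Real.exp (((k : ℝ) + 1) * Real.log n.factorial) = (n.factorial : ℝ) ^ (k + 1) := by
    have : ((k : ℝ) + 1) * Real.log n.factorial = ((k + 1 : ℕ) : ℝ) * Real.log n.factorial := by push_cast; ring
    rw [this, Real.exp_nat_mul, Real.exp_log hf]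
  have e2 : Real.exp ((C : ℝ) * D * Real.log (n + 1)) = ((n : ℝ) + 1) ^ (C * D) := by
    have : (C : ℝ) * D * Real.log (n + 1) = ((C * D : ℕ) : ℝ) * Real.log (n + 1) := by push_cast; ring
    rw [this, Real.exp_nat_mul, Real.exp_log (by positivity)]
  have e3 : (2 : ℝ) ^ n ≤ Real.exp n := by
    have h9 : Real.exp (n : ℝ) = Real.exp 1 ^ n := by
      rw [← Real.exp_nat_mul, mul_one]
    rw [h9]
    have := Real.exp_one_gt_d9
    exact pow_le_pow_left₀ (by norm_num) (by linarith) n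
  rw [Real.exp_add, Real.exp_add, e1, e2]
  gcongr

end H33.BO
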