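import Pool.Agent.H33.BO.Defs2

/-! # BO.PatA : calculus of patterns

PROOF. `pdir_pat`: by definition of `pat (r + 1)`. Stability: `shrt N d s z → s + 1 ≤ t → pat N β d t z = pat N β d (s + 1) z` by induction on `s` (cases on `d z`; for `s = 0` the direction is `none`). `pat_tail`: `r = s + 1` (`r = 0` contradicts `hc`), `shrt N d s (N c z)`,
`pat (s + 2) z = (β z, d z) :: pat (s + 1) (N c z)`, so the tail is `pat (s + 1) (N c z) = pat (s + 2) (N c z)`. `pdp_tail`, `pdp_le`: cases on the list. `pat_congr`, `shrt_congr`: induction on `r` generalizing `z`; `bpat_congr`: `funext j`, `Subtype.ext`, `pat_congr`, and `θ (act (bgw W j) z) = act' (bgw W j) (θ z)`. -/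

set_option autoImplicit false

open MeasureTheory H31.BE

namespace H33.BO

variable {Z Z' Λ : Type}

private theorem PatA_step (N : Bool → Z → Z) (d : Z → Option Bool) (s : ℕ) (z : Z) (c : Bool)
    (hs : shrt N d (s + 1) z) (hc : d z = some c) : shrt N d s (N c z) := by
  rw [shrt, hc] at hs
  exact hs

private theorem PatA_stab (N : Bool → Z → Z) (β : Z → Λ) (d : Z → Option Bool) (s : ℕ) :
    ∀ z : Z, shrt N d s z → ∀ t : ℕ, s + 1 ≤ t → pat N β d t z = pat N β d (s + 1) z := by
  induction s with
  | zero =>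
    intro z hz t ht
    obtain ⟨u, rfl⟩ : ∃ u, t = u + 1 := ⟨t - 1, by omega⟩
    rw [shrt] at hz
    rw [pat, pat, hz]
  | succ s ih =>
    intro z hz t ht
    obtain ⟨u, rfl⟩ : ∃ u, t = u + 1 := ⟨t - 1, by omega⟩
    rw [pat, pat]
    congr 1
    cases h : d z with
    | none => rfl
    | some c =>
      show pat N β d u (N c z) = pat N β d (s + 1) (N c z)
      exact ih (N c z) (PatA_step N d s z c hz h) u (by omega)

theorem pdir_pat (N : Bool → Z → Z) (β : Z → Λ) (d : Z → Option Bool) (r : ℕ) (z : Z) :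
    pdir (pat N β d (r + 1) z) = d z := by
  unfold pat
  rfl

theorem pat_tail (N : Bool → Z → Z) (β : Z → Λ) (d : Z → Option Bool) (r : ℕ) (z : Z) (c : Bool)
    (hs : shrt N d r z) (hc : d z = some c) :
    pat N β d (r + 1) (N c z) = (pat N β d (r + 1) z).tail := by
  cases r with
  | zero =>
    rw [shrt] at hs
    rw [hs] at hc
    exact absurd hc (by simp)
  | succ s =>
    have h1 : shrt N d s (N c z) := PatA_step N d s z c hs hc
    have h2 : pat N β d (s + 1 + 1) z = (β z, d z) :: pat N β d (s + 1) (N c z) := by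
      rw [pat, hc]
    rw [h2, List.tail_cons]
    exact PatA_stab N β d s (N c z) h1 (s + 1 + 1) (by omega)

theorem pdp_tail (l : List (Λ × Option Bool)) (c : Bool) (h : pdir l = some c) : pdp l = pdp l.tail + 1 := by
  cases l with
  | nil => simp [pdir] at h
  | cons p t =>
    obtain ⟨a, b⟩ := p
    have hb : b = some c := h
    subst hb
    simp [pdp]

theorem pdp_le (l : List (Λ × Option Bool)) : pdp l ≤ l.length := by
  induction l with
  | nil => simp [pdp]
  | cons p t ih =>
    obtain ⟨a, b⟩ := p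
    cases b with
    | none => simp [pdp]
    | some c =>
      simp only [pdp, List.length_cons]
      omega

theorem pat_congr (θ : Z → Z') (N : Bool → Z → Z) (N' : Bool → Z' → Z') (β : Z → Λ) (β' : Z' → Λ)
    (d : Z → Option Bool) (d' : Z' → Option Bool) (hN : ∀ c z, θ (N c z) = N' c (θ z))
    (hβ : ∀ z, β' (θ z) = β z) (hd : ∀ z, d' (θ z) = d z) (r : ℕ) (z : Z) :
    pat N' β' d' r (θ z) = pat N β d r z := by
  induction r generalizing z with
  | zero => simp [pat]
  | succ r ih =>
    rw [pat, pat, hβ, hd]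
    congr 1
    cases h : d z with
    | none => rfl
    | some c =>
      show pat N' β' d' r (N' c (θ z)) = pat N β d r (N c z)
      rw [← hN, ih]

theorem shrt_congr (θ : Z → Z') (N : Bool → Z → Z) (N' : Bool → Z' → Z')
    (d : Z → Option Bool) (d' : Z' → Option Bool) (hN : ∀ c z, θ (N c z) = N' c (θ z))
    (hd : ∀ z, d' (θ z) = d z) (r : ℕ) (z : Z) :
    shrt N' d' r (θ z) ↔ shrt N d r z := by
  induction r generalizing z with
  | zero => rw [shrt, shrt, hd]
  | succ r ih =>
    rw [shrt, shrt, hd]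
    cases h : d z with
    | none => exact Iff.rfl
    | some c =>
      show shrt N' d' r (N' c (θ z)) ↔ shrt N d r (N c z)
      rw [← hN, ih]

theorem bpat_congr {k : ℕ} (W : Wd k) (θ : Z → Z') (act : Fg k → Z → Z) (act' : Fg k → Z' → Z') (β : Z → Λ)
    (β' : Z' → Λ) (d : Z → Option Bool) (d' : Z' → Option Bool) (hN : ∀ f z, θ (act f z) = act' f (θ z))
    (hβ : ∀ z, β' (θ z) = β z) (hd : ∀ z, d' (θ z) = d z) (r : ℕ) (z : Z) :
    bpat W act' β' d' r (θ z) = bpat W act β d r z := by
  funext j
  apply Subtype.ext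
  show pat (fun c => act' (nn W c)) β' d' r (act' (bgw W j) (θ z)) =
    pat (fun c => act (nn W c)) β d r (act (bgw W j) z)
  rw [← hN]
  exact pat_congr θ (fun c => act (nn W c)) (fun c => act' (nn W c)) β β' d d'
    (fun c z => hN (nn W c) z) hβ hd r (act (bgw W j) z)

end H33.BO
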