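import Pool.Agent.H33.BO.RepA
import Pool.Agent.H33.BO.PatA

/-! # BO.Cons : consistency of the labels along words (exact transport)

NOTATION: `om v = bp W g lb R d r (y v)`; `om v j` has the head `(win lb (ball (SS W g) R) (ga g (bgw W j) (y v)), d _)`, in particular `om v e_0` has the head `(win lb _ (y v), d (y v))` (`bgw W e_0 = 1`). For `v ∉ MM` and every letter `s` there is `j` with `bgw W j = gw W s` (c3, c1, x_i), so `om (XX W X s v) e_0 = om v j` gives
`win lb _ (y (XX W X s v)) = win lb _ (gg W g s • y v)`: (T) `lb (h • y (s v)) = lb (h • gg W g s • y v)` for `h ∈ ball R`.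
PROOF. Induction on `f.norm` (or on the list `f.toWord`), generalizing `v`. `f = 1`: trivial. `f = f1 * (of s)^(±1)` with `f1.norm = f.norm - 1` (last letter of the reduced word). Let `v' = (XX s)^(±1) v`; `f1`, `v'` satisfy the hypothesis (`ac f' v' = ac (f' * (of s)^(±1)) v`, `norm ≤ f'.norm + 1`), so `lb (lift f1 • y v') = lb (y (ac f1 v')) = lb (y (ac f v))`.
Sign +: (T) at `v ∉ MM` (`f' = 1`) with `h = lift f1 ∈ ball R` (`mem_ball`): `lb (lift f1 • y v') = lb (lift f1 • gg s • y v)`. Sign -: (T) at `v' ∉ MM` (`f' = (of s)⁻¹`), `s v' = v`, with `h = lift f = lift f1 * (gg s)⁻¹ ∈ ball R`: `lb (h • y v) = lb (h • gg s • y v') = lb (lift f1 • y v')`. -/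

set_option autoImplicit false

open MeasureTheory H31.BE

namespace H33.BO

private theorem cons_T {k : ℕ} {G Y Λ V : Type} [Group G] [DecidableEq G] [MulAction G Y] (W : Wd k) (g : Lt k → G)
    (lb : Y → Λ) (R : ℕ) (d : Y → Option Bool) (r : ℕ) (om : V → Bg k W.length → PtR W g Λ R r) (y : V → Y)
    (hom : ∀ v, om v = bp W g lb R d r (y v)) (X : Lt k → Equiv.Perm V) (u : V) (hu : u ∉ MM W pd ptl om X)
    (s : Lt k) (h : G) (hh : h ∈ ball (SS W g) R) :
    lb (h • y (XX W X s u)) = lb (h • gg W g s • y u) := by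
  obtain ⟨j, hj⟩ : ∃ j : Bg k W.length, bgw W j = gw W s := by
    match s with
    | none => exact ⟨c3 k W.length, rfl⟩
    | some none => exact ⟨c1 k W.length, rfl⟩
    | some (some i) => exact ⟨Sum.inr (Sum.inl i), rfl⟩
  have h1 : om (ac X (bgw W j) u) (e0 k W.length) = om u j := by
    by_contra hcon
    exact hu (Or.inl ⟨j, hcon⟩)
  have h2 : XX W X s u = ac X (bgw W j) u := by
    rw [hj]
    rfl
  rw [← h2, hom, hom] at h1
  have h3 := congrArg (fun p : PtR W g Λ R r => p.1.head?) h1
  have h4 : win lb (ball (SS W g) R) (ga g (bgw W (e0 k W.length)) (y (XX W X s u))) =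
      win lb (ball (SS W g) R) (ga g (bgw W j) (y u)) := by
    have h5 : (some (win lb (ball (SS W g) R) (ga g (bgw W (e0 k W.length)) (y (XX W X s u))),
        d (ga g (bgw W (e0 k W.length)) (y (XX W X s u)))) : Option _) =
        some (win lb (ball (SS W g) R) (ga g (bgw W j) (y u)), d (ga g (bgw W j) (y u))) := h3
    exact congrArg Prod.fst (Option.some.inj h5)
  have h6 := congrFun h4 ⟨h, hh⟩
  have h7 : ga g (bgw W (e0 k W.length)) (y (XX W X s u)) = y (XX W X s u) := by
    have : bgw W (e0 k W.length) = 1 := by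
      change wf (W.take 0) = 1
      simp [wf]
    rw [this]
    unfold ga
    rw [map_one, one_smul]
  rw [h7, hj] at h6
  exact h6

private theorem cons_aux {k : ℕ} {G Y Λ V : Type} [Group G] [DecidableEq G] [MulAction G Y] (W : Wd k) (g : Lt k → G)
    (lb : Y → Λ) (R : ℕ) (d : Y → Option Bool) (r : ℕ) (om : V → Bg k W.length → PtR W g Λ R r) (y : V → Y)
    (hom : ∀ v, om v = bp W g lb R d r (y v)) (X : Lt k → Equiv.Perm V) (n : ℕ) : ∀ (v : V) (f : Fg k),
    f.norm ≤ n → n ≤ R → (∀ f' : Fg k, f'.norm ≤ n → ac (XX W X) f' v ∉ MM W pd ptl om X) →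
    lb (FreeGroup.lift (gg W g) f • y v) = lb (y (ac (XX W X) f v)) := by
  induction n with
  | zero =>
    intro v f hf _ _
    have h1 : f = 1 := FreeGroup.norm_eq_zero.1 (Nat.le_zero.1 hf)
    rw [h1, map_one, map_one, one_smul]
    rfl
  | succ n ih =>
    intro v f hf hR hgd
    rcases List.eq_nil_or_concat f.toWord with h0 | ⟨L, ⟨s, c⟩, hL⟩
    · have h1 : f = 1 := FreeGroup.toWord_eq_nil_iff.1 h0
      rw [h1, map_one, map_one, one_smul]
      rfl
    · have hLn : L.length ≤ n := by
        have h1 : f.norm = f.toWord.length := rfl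
        rw [hL] at h1
        simp only [List.concat_eq_append, List.length_append, List.length_cons, List.length_nil] at h1
        omega
      have hf1 : (FreeGroup.mk L : Fg k).norm ≤ n := FreeGroup.norm_mk_le.trans hLn
      have hfe : f = FreeGroup.mk L * FreeGroup.mk [(s, c)] := by
        rw [← FreeGroup.mk_toWord (x := f), hL, FreeGroup.mul_mk, List.concat_eq_append]
      have he : (FreeGroup.mk [(s, c)] : Fg k).norm ≤ 1 := FreeGroup.norm_mk_le
      have hih := ih (ac (XX W X) (FreeGroup.mk [(s, c)]) v) (FreeGroup.mk L) hf1 (by omega) (by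
        intro f' hf'
        have h2 := hgd (f' * FreeGroup.mk [(s, c)])
          ((FreeGroup.norm_mul_le _ _).trans (Nat.add_le_add hf' he))
        rwa [map_mul, Equiv.Perm.mul_apply] at h2)
      have h3 : ac (XX W X) f v = ac (XX W X) (FreeGroup.mk L) (ac (XX W X) (FreeGroup.mk [(s, c)]) v) := by
        rw [hfe, map_mul, Equiv.Perm.mul_apply]
      rw [h3, ← hih]
      cases c with
      | true =>
        have h4 : ac (XX W X) (FreeGroup.mk [(s, true)]) v = XX W X s v := by
          change ac (XX W X) (FreeGroup.of s) v = _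
          rw [FreeGroup.lift_apply_of]
        have hv : v ∉ MM W pd ptl om X := by
          have h5 := hgd 1 (by simp)
          rwa [map_one] at h5
        rw [h4, cons_T W g lb R d r om y hom X v hv s _ (mem_ball W g _ R (hf1.trans (by omega))), hfe, map_mul,
          mul_smul]
        congr 3
        change FreeGroup.lift (gg W g) (FreeGroup.of s) = _
        rw [FreeGroup.lift_apply_of]
      | false =>
        have h4 : XX W X s (ac (XX W X) (FreeGroup.mk [(s, false)]) v) = v := by
          change XX W X s (ac (XX W X) (FreeGroup.of s)⁻¹ v) = v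
          rw [map_inv, FreeGroup.lift_apply_of]
          exact Equiv.apply_symm_apply _ _
        have hv : ac (XX W X) (FreeGroup.mk [(s, false)]) v ∉ MM W pd ptl om X := hgd _ (he.trans (by omega))
        have h5 := cons_T W g lb R d r om y hom X _ hv s (FreeGroup.lift (gg W g) f) (mem_ball W g f R (hf.trans hR))
        rw [h4] at h5
        rw [h5, ← mul_smul, hfe, map_mul]
        congr 2
        change FreeGroup.lift (gg W g) (FreeGroup.mk L) * FreeGroup.lift (gg W g) (FreeGroup.of s)⁻¹ * gg W g s = _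
        rw [map_inv, FreeGroup.lift_apply_of, inv_mul_cancel_right]

theorem cons {k : ℕ} {G Y Λ V : Type} [Group G] [DecidableEq G] [MulAction G Y] (W : Wd k) (g : Lt k → G)
    (lb : Y → Λ) (R : ℕ) (d : Y → Option Bool) (r : ℕ) (om : V → Bg k W.length → PtR W g Λ R r) (y : V → Y)
    (hom : ∀ v, om v = bp W g lb R d r (y v)) (X : Lt k → Equiv.Perm V) (v : V) (f : Fg k) (hf : f.norm ≤ R)
    (hgd : ∀ f' : Fg k, f'.norm ≤ f.norm → ac (XX W X) f' v ∉ MM W pd ptl om X) :
    lb (FreeGroup.lift (gg W g) f • y v) = lb (y (ac (XX W X) f v)) := by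
  exact cons_aux W g lb R d r om y hom X f.norm v f le_rfl hf hgd

end H33.BO
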