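import Pool.Agent.H31.BE.Defs

/-! # BO.Defs : one-handle groups, bags, interfaces, patterns, the functional. Definitions only.
Paper: /team-store/h33_boe_handle.md.
`G = < a, b, x_1..x_k | a b = W b a >`, `W` a word in the `x_i`. -/

set_option autoImplicit false

open MeasureTheory

namespace H33.BO

/-! ## Letters and words -/

/-- letters: `none` = a, `some none` = b, `some (some i)` = x_i -/
abbrev Lt (k : ℕ) : Type := Option (Option (Fin k))

/-- the free group on the letters -/
abbrev Fg (k : ℕ) : Type := FreeGroup (Lt k)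

/-- the letter a -/
def aa (k : ℕ) : Fg k := FreeGroup.of none

/-- the letter b -/
def bb (k : ℕ) : Fg k := FreeGroup.of (some none)

/-- the letter x_i -/
def xx {k : ℕ} (i : Fin k) : Fg k := FreeGroup.of (some (some i))

/-- words in the x_i; head = leftmost letter = last letter applied; `true` = x_i, `false` = its inverse -/
abbrev Wd (k : ℕ) : Type := List (Fin k × Bool)

/-- value of a signed letter -/
def sl {k : ℕ} (p : Fin k × Bool) : Fg k := if p.2 then xx p.1 else (xx p.1)⁻¹

/-- value of a word -/
def wf {k : ℕ} (W : Wd k) : Fg k := (W.map sl).prod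

/-- the relator `a b (W b a)⁻¹` -/
def rel {k : ℕ} (W : Wd k) : Fg k := aa k * bb k * (wf W * bb k * aa k)⁻¹

/-- the two moves: `false` = N_A = a W⁻¹, `true` = N_B = W b -/
def nn {k : ℕ} (W : Wd k) (c : Bool) : Fg k := if c then wf W * bb k else aa k * (wf W)⁻¹

/-- `g` is a presentation of `G` with the letters `Lt k` and the relator `rel W` -/
structure Pres {G : Type} [Group G] {k : ℕ} (W : Wd k) (g : Lt k → G) : Prop where
  surj : Function.Surjective (FreeGroup.lift g)
  ker : (FreeGroup.lift g).ker = Subgroup.normalClosure {rel W}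

/-! ## Bags and interfaces -/

/-- bag indices: `inl j` = e_j (0 <= j <= l), `inr (inl i)` = x_i, `inr (inr 0, 1, 2)` = c1, c2, c3 -/
abbrev Bg (k l : ℕ) : Type := Fin (l + 1) ⊕ (Fin k ⊕ Fin 3)

/-- c1 = W b -/
def c1 (k l : ℕ) : Bg k l := Sum.inr (Sum.inr 0)
/-- c2 = a b -/
def c2 (k l : ℕ) : Bg k l := Sum.inr (Sum.inr 1)
/-- c3 = a -/
def c3 (k l : ℕ) : Bg k l := Sum.inr (Sum.inr 2)
/-- e_0 -/
def e0 (k l : ℕ) : Bg k l := Sum.inl 0
/-- e_l -/
def el (k l : ℕ) : Bg k l := Sum.inl (Fin.last l)

/-- the words of the bag -/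
def bgw {k : ℕ} (W : Wd k) : Bg k W.length → Fg k
  | Sum.inl j => wf (W.take j)
  | Sum.inr (Sum.inl i) => xx i
  | Sum.inr (Sum.inr 0) => wf W * bb k
  | Sum.inr (Sum.inr 1) => aa k * bb k
  | Sum.inr (Sum.inr 2) => aa k

/-- interfaces: pairs (index at v, index at s v) -/
def ifc {k : ℕ} (W : Wd k) : Lt k → Finset (Bg k W.length × Bg k W.length)
  | none => {(c3 k W.length, e0 k W.length), (c2 k W.length, c1 k W.length)}
  | some none => {(c1 k W.length, el k W.length), (c2 k W.length, c3 k W.length)}
  | some (some i) => insert (Sum.inr (Sum.inl i), e0 k W.length)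
      ((Finset.univ.filter fun j : Fin W.length => (W.get j).1 = i).image fun j =>
        if (W.get j).2 then (Sum.inl j.succ, Sum.inl j.castSucc) else (Sum.inl j.castSucc, Sum.inl j.succ))

/-- interface patterns of a letter -/
abbrev Qi {k : ℕ} (W : Wd k) (P : Type) (s : Lt k) : Type := ↥(ifc W s) → P

/-- interface pattern at the source `v` of the edge (v, s v) -/
def src {k : ℕ} {W : Wd k} {P : Type} (s : Lt k) (Φ : Bg k W.length → P) : Qi W P s := fun p => Φ p.1.1

/-- interface pattern at the target `s v` of the edge (v, s v) -/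
def tgt {k : ℕ} {W : Wd k} {P : Type} (s : Lt k) (Φ : Bg k W.length → P) : Qi W P s := fun p => Φ p.1.2

/-- T-patterns: for a: direction `some true` (B) at (c3, e0); for b: direction `some false` (A) at (c1, el) -/
def TT {k : ℕ} {W : Wd k} {P : Type} (dir : P → Option Bool) : ∀ s : Lt k, Qi W P s → Prop
  | none, q => dir (q ⟨(c3 k W.length, e0 k W.length), by simp [ifc]⟩) = some true
  | some none, q => dir (q ⟨(c1 k W.length, el k W.length), by simp [ifc]⟩) = some false
  | some (some _), _ => False

/-! ## The functional -/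

/-- the sum over the letters of the entropies of the non-T interface patterns -/
noncomputable def Gn {k : ℕ} (W : Wd k) {P : Type} [Finite P] (dir : P → Option Bool)
    (p : (Bg k W.length → P) → ℝ) : ℝ :=
  letI := Fintype.ofFinite P
  letI := Classical.decEq P
  open Classical in
  ∑ s : Lt k, ∑ q : Qi W P s, if TT dir s q then 0 else
      Real.negMulLog (∑ Φ ∈ Finset.univ.filter (fun Φ => tgt s Φ = q), p Φ)

/-- the functional `F(p) = H(p) - G(p)` -/
noncomputable def Fn {k : ℕ} (W : Wd k) {P : Type} [Finite P] (dir : P → Option Bool)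
    (p : (Bg k W.length → P) → ℝ) : ℝ :=
  letI := Fintype.ofFinite P
  letI := Classical.decEq P
  (∑ Φ, Real.negMulLog (p Φ)) - Gn W dir p

/-- empirical distribution of `Φ : V → Pt` -/
noncomputable def emp {V Pt : Type} (Φ : V → Pt) (t : Pt) : ℝ := (Nat.card {u // Φ u = t} : ℝ) / Nat.card V

/-- law of a random element -/
noncomputable def law {Ω Pt : Type} [MeasurableSpace Ω] (P : Measure Ω) (Φ : Ω → Pt) (t : Pt) : ℝ :=
  P.real (Φ ⁻¹' {t})

/-! ## Patterns -/

/-- list patterns of length at most `r` -/
abbrev Pt (Λ : Type) (r : ℕ) : Type := {l : List (Λ × Option Bool) // l.length ≤ r}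

/-- direction of a list pattern -/
def pdir {Λ : Type} : List (Λ × Option Bool) → Option Bool
  | [] => none
  | p :: _ => p.2

/-- depth of a list pattern -/
def pdp {Λ : Type} : List (Λ × Option Bool) → ℕ
  | [] => 0
  | (_, none) :: _ => 0
  | (_, some _) :: t => pdp t + 1

/-- the pattern of a point, `r` steps: labels `β`, directions `d`, moves `N` -/
def pat {Z Λ : Type} (N : Bool → Z → Z) (β : Z → Λ) (d : Z → Option Bool) : ℕ → Z → List (Λ × Option Bool)
  | 0, _ => []
  | r + 1, z => (β z, d z) :: (match d z with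
    | none => []
    | some c => pat N β d r (N c z))

theorem pat_length {Z Λ : Type} (N : Bool → Z → Z) (β : Z → Λ) (d : Z → Option Bool) (r : ℕ) (z : Z) :
    (pat N β d r z).length ≤ r := by
  induction r generalizing z with
  | zero => simp [pat]
  | succ r ih =>
    rw [pat]
    cases h : d z with
    | none => simp
    | some c => simpa using ih (N c z)

/-- the path of `z` along the directions reaches a root after at most `r` steps -/
def shrt {Z : Type} (N : Bool → Z → Z) (d : Z → Option Bool) : ℕ → Z → Prop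
  | 0, z => d z = none
  | r + 1, z => match d z with
    | none => True
    | some c => shrt N d r (N c z)

/-- the bag pattern of a point; `act f` = action of the word `f` -/
def bpat {k : ℕ} (W : Wd k) {Z Λ : Type} (act : Fg k → Z → Z) (β : Z → Λ) (d : Z → Option Bool) (r : ℕ) (z : Z) :
    Bg k W.length → Pt Λ r :=
  fun j => ⟨pat (fun c => act (nn W c)) β d r (act (bgw W j) z), pat_length _ _ _ _ _⟩

/-! ## Finite structures -/

/-- the action of words on a finite structure -/
noncomputable abbrev ac {k : ℕ} {V : Type} (X : Lt k → Equiv.Perm V) : Fg k →* Equiv.Perm V := FreeGroup.lift X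

/-- the 2-cells whose relation fails -/
def defs {k : ℕ} (W : Wd k) {V : Type} (X : Lt k → Equiv.Perm V) : Set V := {v | ac X (rel W) v ≠ v}

/-- number of cycles (fixed points included) -/
noncomputable def cyc {V : Type} (σ : Equiv.Perm V) : ℕ := Nat.card (Quotient (Equiv.Perm.SameCycle.setoid σ))

/-! ## The random structures of Part I -/

/-- the letters b = `none`, x_i = `some i` -/
abbrev T0 (k : ℕ) : Type := Option (Fin k)

/-- inclusion of the free group on b, x_i -/
noncomputable def io {k : ℕ} : FreeGroup (T0 k) →* Fg k := FreeGroup.map some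

/-- value of a signed letter in the small free group -/
def sl0 {k : ℕ} (p : Fin k × Bool) : FreeGroup (T0 k) :=
  if p.2 then FreeGroup.of (some p.1) else (FreeGroup.of (some p.1))⁻¹

/-- value of `W b` in the small free group -/
def wb0 {k : ℕ} (W : Wd k) : FreeGroup (T0 k) := (W.map sl0).prod * FreeGroup.of none

/-- the structure with a-permutation `α` and the permutations `σ` of b, x_i -/
def mkX {k : ℕ} {V : Type} (α : Equiv.Perm V) (σ : T0 k → Equiv.Perm V) : Lt k → Equiv.Perm V
  | none => α
  | some t => σ t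

/-- `a` or `a⁻¹` -/
def sgn {G : Type} [Group G] (a : G) (c : Bool) : G := if c then a else a⁻¹

/-- the element `h0 a^(e1) h1 .. a^(er) hr` -/
noncomputable def fm {k : ℕ} (h0 : FreeGroup (T0 k)) (L : List (Bool × FreeGroup (T0 k))) : Fg k :=
  io h0 * (L.map fun p => sgn (aa k) p.1 * io p.2).prod

/-- no pinches: `a⁻¹ h a` with `h` a power of `W b`, or `a h a⁻¹` with `h` a power of `b` -/
def rdc {k : ℕ} (W : Wd k) : List (Bool × FreeGroup (T0 k)) → Prop
  | [] => True
  | [_] => True
  | p :: q :: L => (p.1 ≠ q.1 → p.2 ∉ Subgroup.zpowers (if q.1 then wb0 W else FreeGroup.of none)) ∧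
      rdc W (q :: L)

/-- `f` is a system of segments of the permutation `P` -/
def segs {V : Type} {m ℓ : ℕ} (P : Equiv.Perm V) (f : Fin m × Fin ℓ → V) : Prop :=
  Function.Injective f ∧ ∀ (i : Fin m) (t : Fin ℓ) (h : (t : ℕ) + 1 < ℓ), P (f (i, t)) = f (i, ⟨t + 1, h⟩)

/-- the permutations that match the segments by `π`, with a fixed extension -/
def fam {V : Type} {m ℓ : ℕ} (fB fW : Fin m × Fin ℓ → V) (A : Equiv.Perm (Fin m) → Equiv.Perm V) : Prop :=
  (∀ π p, A π (fB p) = fW (π p.1, p.2)) ∧ ∀ π π' v, v ∉ Set.range fB → A π v = A π' v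

/-- vertices `v` such that `v` and `h v` are in the same segment -/
def nfS {V : Type} {m ℓ : ℕ} (F : Fin m × Fin ℓ → V) (h : Equiv.Perm V) : Set V :=
  {v | ∃ i t t', v = F (i, t) ∧ h v = F (i, t')}

/-- sum of the numbers of near fixed points at the changes of sign -/
noncomputable def nfs {V : Type} {m ℓ : ℕ} (fB fW : Fin m × Fin ℓ → V) : List (Bool × Equiv.Perm V) → ℕ
  | [] => 0
  | [_] => 0
  | p :: q :: L => (if p.1 ≠ q.1 then (nfS (if q.1 then fW else fB) p.2).ncard else 0) + nfs fB fW (q :: L)

/-! ## Configurations -/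

/-- action of the words on configurations -/
def ca {k : ℕ} {A : Type} (f : Fg k) (t : Fg k → A) : Fg k → A := fun w => t (w * f)

/-- local functions -/
def Loc {k : ℕ} {A B : Type} (Z : Finset (Fg k)) (F : (Fg k → A) → B) : Prop :=
  ∀ t t', (∀ w ∈ Z, t w = t' w) → F t = F t'

/-- the constant of Part I -/
noncomputable def CI {k : ℕ} (W : Wd k) : ℝ := 10 * ((W.length : ℝ) + k + 5) ^ 2

end H33.BO
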