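import Pool.Agent.H33.BO.RfA
import Pool.Agent.H33.BO.Defs

/-! # BO.CycB : expected number of cycles of a word in random permutations

PROOF. For a permutation `τ` of `Fin n`: `cyc τ ≤ n / L + ∑ j ∈ [1, L], #{v | τ^j v = v}`: choose a representative of every cycle; the cycles with more than `L` elements are at most `n / L` (they are disjoint), every other cycle has some `j ∈ [1, L]` with `τ^j v = v` for its representative `v`.
For `τ = lift σ u`: `τ^j = lift σ (u^j)`, `u^j ≠ 1` (`FreeGroup` is `IsMulTorsionFree`), `(u^j).norm ≤ j * u.norm ≤ L * u.norm` (`FreeGroup.norm_mul_le`), so by `rf` the sum over `σ` is at most `∑ j, 2 (j norm)^2 ≤ 2 L^3 norm^2` times card. -/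

set_option autoImplicit false

open MeasureTheory

namespace H33.BO

private lemma cy_long {n : ℕ} (τ : Equiv.Perm (Fin n)) (L : ℕ)
    [Fintype (Quotient (Equiv.Perm.SameCycle.setoid τ))] :
    (Finset.univ.filter fun q : Quotient (Equiv.Perm.SameCycle.setoid τ) =>
      L < Function.minimalPeriod τ q.out).card * L ≤ n := by
  classical
  set A := Finset.univ.filter fun q : Quotient (Equiv.Perm.SameCycle.setoid τ) =>
      L < Function.minimalPeriod τ q.out with hA
  have h1 : Fintype.card ({q // q ∈ A} × Fin L) ≤ Fintype.card (Fin n) := by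
    refine Fintype.card_le_of_injective (fun x : {q // q ∈ A} × Fin L => (τ ^ (x.2 : ℕ)) x.1.1.out) ?_
    rintro ⟨⟨q, hq⟩, a⟩ ⟨⟨q', hq'⟩, b⟩ h
    simp only at h
    have e1 : q = q' := by
      have h2 : Equiv.Perm.SameCycle τ q.out q'.out := by
        have a1 : Equiv.Perm.SameCycle τ q.out ((τ ^ (a : ℕ)) q.out) := ⟨(a : ℕ), by simp⟩
        have a2 : Equiv.Perm.SameCycle τ q'.out ((τ ^ (b : ℕ)) q'.out) := ⟨(b : ℕ), by simp⟩
        rw [h] at a1
        exact a1.trans a2.symm
      have h3 : (Quotient.mk (Equiv.Perm.SameCycle.setoid τ) q.out) =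
          Quotient.mk (Equiv.Perm.SameCycle.setoid τ) q'.out := Quotient.sound h2
      rwa [Quotient.out_eq, Quotient.out_eq] at h3
    subst e1
    have hL : L < Function.minimalPeriod τ q.out := (Finset.mem_filter.mp hq).2
    have h2 : (a : ℕ) = (b : ℕ) := by
      have hinj := Function.iterate_injOn_Iio_minimalPeriod (f := τ) (x := q.out)
      apply hinj
      · exact Set.mem_Iio.mpr (lt_trans a.2 hL)
      · exact Set.mem_Iio.mpr (lt_trans b.2 hL)
      · simp only [Equiv.Perm.iterate_eq_pow]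
        exact h
    have h3 : a = b := Fin.ext h2
    subst h3
    rfl
  rw [Fintype.card_prod, Fintype.card_fin, Fintype.card_fin, Fintype.card_coe] at h1
  exact h1

private lemma cy_short {n : ℕ} (τ : Equiv.Perm (Fin n)) (L : ℕ)
    [Fintype (Quotient (Equiv.Perm.SameCycle.setoid τ))] :
    (Finset.univ.filter fun q : Quotient (Equiv.Perm.SameCycle.setoid τ) =>
      ¬ L < Function.minimalPeriod τ q.out).card ≤
      ∑ j ∈ Finset.Icc 1 L, (Finset.univ.filter fun v => (τ ^ j) v = v).card := by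
  classical
  rw [← Finset.card_sigma]
  refine Finset.card_le_card_of_injOn
    (fun q => ⟨Function.minimalPeriod τ q.out, q.out⟩) ?_ ?_
  · intro q hq
    have hq' := (Finset.mem_filter.mp (Finset.mem_coe.mp hq)).2
    have hp : 0 < Function.minimalPeriod τ q.out := by
      apply Function.minimalPeriod_pos_of_mem_periodicPts
      refine Function.mem_periodicPts.mpr ⟨orderOf τ, orderOf_pos τ, ?_⟩
      change (⇑τ)^[orderOf τ] q.out = q.out
      rw [Equiv.Perm.iterate_eq_pow, pow_orderOf_eq_one]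
      rfl
    rw [Finset.mem_coe, Finset.mem_sigma, Finset.mem_Icc, Finset.mem_filter]
    refine ⟨⟨hp, not_lt.mp hq'⟩, Finset.mem_univ _, ?_⟩
    have h := Function.iterate_minimalPeriod (f := τ) (x := q.out)
    rw [Equiv.Perm.iterate_eq_pow] at h
    exact h
  · intro q _ q' _ h
    have h2 : q.out = q'.out := by
      have := congrArg (fun x : (_ : ℕ) × Fin n => x.2) h
      exact this
    rw [← Quotient.out_eq q, ← Quotient.out_eq q', h2]

private lemma cy_le {n : ℕ} (τ : Equiv.Perm (Fin n)) (L : ℕ) (hL : 1 ≤ L) :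
    (cyc τ : ℝ) ≤ (n : ℝ) / L +
      ∑ j ∈ Finset.Icc 1 L, ((Finset.univ.filter fun v => (τ ^ j) v = v).card : ℝ) := by
  classical
  haveI : Fintype (Quotient (Equiv.Perm.SameCycle.setoid τ)) := Fintype.ofFinite _
  have h1 := cy_long τ L
  have h2 := cy_short τ L
  have h3 : cyc τ = (Finset.univ.filter fun q : Quotient (Equiv.Perm.SameCycle.setoid τ) =>
      L < Function.minimalPeriod τ q.out).card + (Finset.univ.filter fun q : Quotient (Equiv.Perm.SameCycle.setoid τ) =>
      ¬ L < Function.minimalPeriod τ q.out).card := by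
    rw [Finset.card_filter_add_card_filter_not, cyc, Nat.card_eq_fintype_card, Finset.card_univ]
  have hL0 : (0 : ℝ) < L := by exact_mod_cast hL
  have h1' : ((Finset.univ.filter fun q : Quotient (Equiv.Perm.SameCycle.setoid τ) =>
      L < Function.minimalPeriod τ q.out).card : ℝ) ≤ (n : ℝ) / L := by
    rw [le_div_iff₀ hL0]
    exact_mod_cast h1
  have h2' : ((Finset.univ.filter fun q : Quotient (Equiv.Perm.SameCycle.setoid τ) =>
      ¬ L < Function.minimalPeriod τ q.out).card : ℝ) ≤
      ∑ j ∈ Finset.Icc 1 L, ((Finset.univ.filter fun v => (τ ^ j) v = v).card : ℝ) := by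
    exact_mod_cast h2
  rw [h3, Nat.cast_add]
  linarith

private lemma cy_norm {T : Type} [DecidableEq T] (u : FreeGroup T) (j : ℕ) : (u ^ j).norm ≤ j * u.norm := by
  induction j with
  | zero => simp
  | succ j ih =>
    rw [pow_succ]
    have := FreeGroup.norm_mul_le (u ^ j) u
    calc (u ^ j * u).norm ≤ (u ^ j).norm + u.norm := this
      _ ≤ j * u.norm + u.norm := by omega
      _ = (j + 1) * u.norm := by ring

theorem cyc_bd {T : Type} [Fintype T] [DecidableEq T] (u : FreeGroup T) (hu : u ≠ 1) (n L : ℕ) (hL : 1 ≤ L)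
    (hn : 2 * (L * u.norm) ≤ n) :
    ∑ σ : T → Equiv.Perm (Fin n), (cyc (FreeGroup.lift σ u) : ℝ) ≤
      ((n : ℝ) / L + 2 * (L : ℝ) ^ 3 * (u.norm : ℝ) ^ 2) * Nat.card (T → Equiv.Perm (Fin n)) := by
  classical
  set N : ℝ := (Nat.card (T → Equiv.Perm (Fin n)) : ℝ) with hN
  have hN0 : 0 ≤ N := Nat.cast_nonneg _
  have hcard : ((Finset.univ : Finset (T → Equiv.Perm (Fin n))).card : ℝ) = N := by
    rw [hN, Nat.card_eq_fintype_card, Finset.card_univ]
  have h1 : ∑ σ : T → Equiv.Perm (Fin n), (cyc (FreeGroup.lift σ u) : ℝ) ≤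
      ∑ σ : T → Equiv.Perm (Fin n), ((n : ℝ) / L +
        ∑ j ∈ Finset.Icc 1 L, ((Finset.univ.filter fun v => FreeGroup.lift σ (u ^ j) v = v).card : ℝ)) := by
    apply Finset.sum_le_sum
    intro σ _
    have h := cy_le (FreeGroup.lift σ u) L hL
    simp only [map_pow]
    exact h
  refine le_trans h1 ?_
  rw [Finset.sum_add_distrib, Finset.sum_const, nsmul_eq_mul, hcard, Finset.sum_comm]
  have h2 : ∀ j ∈ Finset.Icc 1 L, ∑ σ : T → Equiv.Perm (Fin n),
      ((Finset.univ.filter fun v => FreeGroup.lift σ (u ^ j) v = v).card : ℝ) ≤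
      2 * ((L : ℝ) * u.norm) ^ 2 * N := by
    intro j hj
    rw [Finset.mem_Icc] at hj
    have hne : u ^ j ≠ 1 := by
      intro h
      exact hu ((pow_eq_one_iff_left (by omega)).mp h)
    have hle : (u ^ j).norm ≤ L * u.norm :=
      le_trans (cy_norm u j) (Nat.mul_le_mul_right _ hj.2)
    have h3 := rf (u ^ j) hne n (by omega)
    refine le_trans h3 ?_
    have h4 : (((u ^ j).norm : ℕ) : ℝ) ≤ (L : ℝ) * u.norm := by exact_mod_cast hle
    have h5 : (0 : ℝ) ≤ ((u ^ j).norm : ℝ) := Nat.cast_nonneg _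
    gcongr
  have h3 := Finset.sum_le_sum h2
  rw [Finset.sum_const, Nat.card_Icc, nsmul_eq_mul] at h3
  have e : ((L + 1 - 1 : ℕ) : ℝ) = L := by
    rw [Nat.add_sub_cancel]
  rw [e] at h3
  have e2 : ((n : ℝ) / L + 2 * (L : ℝ) ^ 3 * (u.norm : ℝ) ^ 2) * N =
      N * ((n : ℝ) / L) + L * (2 * ((L : ℝ) * u.norm) ^ 2 * N) := by ring
  rw [e2]
  linarith
end H33.BO
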