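import Pool.Agent.H33.BO.EvsA

/-! # BO.DecA : decoding: relations, generators, labels

NOTATION: `σ := sg W g L rp (fun v => lb (y v)) X`, `t := fun h => lb (h • y v)`, `v ∉ BB m` means: `ac f' v ∉ MM` for `f'.norm ≤ m` and `ac f' v = v` for `f'.norm ≤ m`, `lift (gg W g) f' = 1`. If `evf σ w v = ac f v`, `evf σ w' v = ac f' v` (from `evs`) and the walks agree then `lift f = lift f'`, so `ac (f'⁻¹ * f) v = v` (`norm ≤ f.norm + f'.norm ≤ m`) and `evf σ w v = evf σ w' v`.
PROOF. `dec_ug`: the words `[(s, c), (s, !c)]` and `[]`: `wprod` of the images under `ll` is `1` in both cases, lengths at most 2, so the walks agree by `a2` of `Adm`; the words `(none, true) :: (wi W ++ [(some none, true)])` (length `W.length + 2`) and `[(some none, true), (none, true)]`: `wprod` of the first is `g a * (lift g (wf W))⁻¹ * (lift g (wf W) * g b) = lift g (aa * bb)`,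
of the second `lift g (wf W * bb) * g a`: equal by the relation (`rel W ∈ ker`). `dec_X`: `w := cv (L.bw (ll W g (s, true)) (lb (y v)))`, `w.map ll = L.bw ..`, length at most `L.C` (`L.hbw`), the walk is `gv (ll (s, true)) = gg W g s` by `a1` (`t 1 = lb (y v)`, `one_smul`), so `lift f = lift (of s)`, `ac (XX W X) (of s) v = XX W X s v`, and `(of s)⁻¹ * f` has norm at most `L.C * L.C + 1 ≤ m`.
`dec_psi`: the last part of `evs`. -/

set_option autoImplicit false

open MeasureTheory H31.BE

namespace H33.BO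

private lemma decA_wi {k : ℕ} {G : Type} [Group G] [DecidableEq G] (W : Wd k) (g : Lt k → G) (U : Wd k) :
    wprod ((wi U).map (ll W g)) = (FreeGroup.lift g (wf U))⁻¹ := by
  induction U with
  | nil => simp [wi, wprod, wf]
  | cons p U ih =>
    have h1 : wi (p :: U) = wi U ++ [(some (some p.1), !p.2)] := by
      simp [wi]
    have h2 : wf (p :: U) = sl p * wf U := by simp [wf]
    have h3 : gv (ll W g (some (some p.1), !p.2)) = (FreeGroup.lift g (sl p))⁻¹ := by
      rcases p with ⟨i, b⟩
      cases b <;> simp [gv, ll, sl, gg, gw]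
    have h4 : wprod ((wi (p :: U)).map (ll W g)) =
        wprod ((wi U).map (ll W g)) * gv (ll W g (some (some p.1), !p.2)) := by
      rw [h1]
      simp [wprod]
    rw [h4, ih, h3, h2, map_mul, mul_inv_rev]

private lemma decA_rel {k : ℕ} {G : Type} [Group G] (W : Wd k) (g : Lt k → G) (hg : Pres W g) :
    FreeGroup.lift g (aa k) * FreeGroup.lift g (bb k) =
      FreeGroup.lift g (wf W) * FreeGroup.lift g (bb k) * FreeGroup.lift g (aa k) := by
  have h : rel W ∈ (FreeGroup.lift g).ker := by
    rw [hg.ker]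
    exact Subgroup.subset_normalClosure (Set.mem_singleton _)
  rw [MonoidHom.mem_ker] at h
  unfold rel at h
  rw [map_mul, map_inv, mul_inv_eq_one] at h
  simpa only [map_mul] using h

variable {k : ℕ} {G Y Λ V : Type} [Group G] [DecidableEq G] [MulAction G Y] (W : Wd k) (g : Lt k → G)
    (L : Lab (SS W g) Λ) (lb : Y → Λ) (R : ℕ) (d : Y → Option Bool) (r : ℕ)
    (om : V → Bg k W.length → PtR W g Λ R r) (y : V → Y)
    (hom : ∀ v, om v = bp W g lb R d r (y v)) (X : Lt k → Equiv.Perm V) (rp : G → Fg k)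
    (hrp : ∀ m h, h ∈ ball (SS W g) m → m ≤ R → (rp h).norm ≤ m ∧ FreeGroup.lift (gg W g) (rp h) = h)
    (cv : List (H31.BE.Gn (SS W g)) → List (Lt k × Bool)) (hcv : ∀ w, (cv w).map (ll W g) = w)
    (v : V) (m : ℕ) (hm : m ≤ R) (hLR : L.C ≤ R) (hv : v ∉ BB W g pd ptl om X m)

include hom hrp hm hLR hv

private lemma decA_same (w w' : List (Lt k × Bool)) (hl : L.C * (w.length + w'.length) ≤ m)
    (hw : walk L (fun h => lb (h • y v)) (w.map (ll W g)) = walk L (fun h => lb (h • y v)) (w'.map (ll W g))) :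
    evf (sg W g L rp (fun v => lb (y v)) X) w v = evf (sg W g L rp (fun v => lb (y v)) X) w' v := by
  have hMM : ∀ f' : Fg k, f'.norm ≤ m → ac (XX W X) f' v ∉ MM W pd ptl om X := by
    intro f' hf' hmem
    exact hv (Or.inl ⟨f', hf', hmem⟩)
  rw [mul_add] at hl
  obtain ⟨f, hf1, hf2, hf3, -⟩ := evs W g L lb R d r om y hom X rp hrp v w m (by omega) hm hLR hMM
  obtain ⟨f', hf1', hf2', hf3', -⟩ := evs W g L lb R d r om y hom X rp hrp v w' m (by omega) hm hLR hMM
  have hn : (f'⁻¹ * f).norm ≤ m := by
    have h := FreeGroup.norm_mul_le f'⁻¹ f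
    rw [FreeGroup.norm_inv_eq] at h
    omega
  have h1 : FreeGroup.lift (gg W g) (f'⁻¹ * f) = 1 := by
    rw [map_mul, map_inv, hf2, hf2', hw, inv_mul_cancel]
  have h2 : ac (XX W X) (f'⁻¹ * f) v = v := by
    by_contra hne
    exact hv (Or.inr ⟨_, hn, h1, hne⟩)
  rw [map_mul, map_inv, Equiv.Perm.mul_apply, Equiv.Perm.inv_eq_iff_eq] at h2
  rw [hf3, hf3', h2]

theorem dec_ug (hg : Pres W g) (ha : Adm L (W.length + 4) (fun h => lb (h • y v)))
    (hm2 : 2 * (L.C * (W.length + 4)) ≤ m) :
    v ∈ ug W (sg W g L rp (fun v => lb (y v)) X) := by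
  refine ⟨?_, ?_⟩
  · intro s c
    have h := decA_same W g L lb R d r om y hom X rp hrp v m hm hLR hv [(s, c), (s, !c)] []
      (by simp only [List.length_cons, List.length_nil]; nlinarith) ?_
    · simpa [evf] using h
    · apply ha.a2
      · simp
      · simp
      · cases c <;> simp [wprod, gv, ll]
  · apply decA_same W g L lb R d r om y hom X rp hrp v m hm hLR hv
    · simp only [List.length_cons, List.length_append, List.length_nil, wi, List.length_reverse,
        List.length_map]
      nlinarith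
    · apply ha.a2
      · simp [wi]
      · simp
      · have h1 := decA_wi W g W
        have h2 := decA_rel W g hg
        have h3 : wprod (((none, true) :: (wi W ++ [(some none, true)])).map (ll W g)) =
            FreeGroup.lift g (aa k) * (wprod ((wi W).map (ll W g)) *
              (FreeGroup.lift g (wf W) * FreeGroup.lift g (bb k))) := by
          simp [wprod, gv, ll, gg, gw]
        have h4 : wprod (([(some none, true), (none, true)] : List (Lt k × Bool)).map (ll W g)) =
            FreeGroup.lift g (wf W) * FreeGroup.lift g (bb k) * FreeGroup.lift g (aa k) := by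
          simp [wprod, gv, ll, gg, gw]
        rw [h3, h4, h1, inv_mul_cancel_left, h2]

include hcv

theorem dec_X (N : ℕ) (ha : Adm L N (fun h => lb (h • y v))) (hm2 : L.C * L.C + 1 ≤ m) (s : Lt k) :
    evf (sg W g L rp (fun v => lb (y v)) X) (cv (L.bw (ll W g (s, true)) (lb (y v)))) v = XX W X s v := by
  have hMM : ∀ f' : Fg k, f'.norm ≤ m → ac (XX W X) f' v ∉ MM W pd ptl om X := by
    intro f' hf' hmem
    exact hv (Or.inl ⟨f', hf', hmem⟩)
  set w := cv (L.bw (ll W g (s, true)) (lb (y v))) with hwdef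
  have hmap : w.map (ll W g) = L.bw (ll W g (s, true)) (lb (y v)) := hcv _
  have hlen : w.length ≤ L.C := by
    have h := congrArg List.length hmap
    rw [List.length_map] at h
    rw [h]
    exact L.hbw _ _
  have hlen2 : L.C * w.length ≤ L.C * L.C := Nat.mul_le_mul_left _ hlen
  obtain ⟨f, hf1, hf2, hf3, -⟩ := evs W g L lb R d r om y hom X rp hrp v w m (by omega) hm hLR hMM
  have hwalk : FreeGroup.lift (gg W g) f = gg W g s := by
    rw [hf2, hmap]
    have h := ha.a1 (ll W g (s, true))
    simp only [one_smul] at h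
    rw [h]
    simp [gv, ll]
  have hn : ((FreeGroup.of s)⁻¹ * f).norm ≤ m := by
    have h := FreeGroup.norm_mul_le (FreeGroup.of s)⁻¹ f
    rw [FreeGroup.norm_inv_eq, FreeGroup.norm_of] at h
    omega
  have h1 : FreeGroup.lift (gg W g) ((FreeGroup.of s)⁻¹ * f) = 1 := by
    rw [map_mul, map_inv, hwalk, FreeGroup.lift_apply_of, inv_mul_cancel]
  have h2 : ac (XX W X) ((FreeGroup.of s)⁻¹ * f) v = v := by
    by_contra hne
    exact hv (Or.inr ⟨_, hn, h1, hne⟩)
  rw [map_mul, map_inv, Equiv.Perm.mul_apply, Equiv.Perm.inv_eq_iff_eq, FreeGroup.lift_apply_of] at h2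
  rw [hf3, h2]

theorem dec_psi (w : List (H31.BE.Gn (SS W g))) (hm2 : L.C * w.length ≤ m) :
    lb (walk L (fun h => lb (h • y v)) w • y v) =
      lb (y (evf (sg W g L rp (fun v => lb (y v)) X) (cv w) v)) := by
  have hMM : ∀ f' : Fg k, f'.norm ≤ m → ac (XX W X) f' v ∉ MM W pd ptl om X := by
    intro f' hf' hmem
    exact hv (Or.inl ⟨f', hf', hmem⟩)
  have hmap : (cv w).map (ll W g) = w := hcv w
  have hlen : (cv w).length = w.length := by
    have h := congrArg List.length hmap
    rwa [List.length_map] at h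
  obtain ⟨f, -, -, -, hf4⟩ := evs W g L lb R d r om y hom X rp hrp v (cv w) m (by rw [hlen]; exact hm2)
    hm hLR hMM
  rw [hmap] at hf4
  exact hf4

end H33.BO
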