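import Pool.Agent.H33.BO.SegA
import Pool.Agent.H33.BO.Brit

/-! # BO.DefA : the relation fails at few cells

PROOF. `X = mkX (A π) σ`, `a = A π`, `b = σ none`, `w = ac X (wf W)`, `lift σ (wb0 W) = w b` (`io_wb0`, `ac X ∘ io = lift σ`). `v ∈ defs W X` iff `a b z ≠ w b a z` for `z = (w b a)⁻¹ v` (`rel W = a b (w b a)⁻¹`), so `(defs W X).ncard = #{z | a b z ≠ w b a z}` (image under a permutation). If `z = fB (i, t)` with `t + 1 < ℓ` then `a b z = a (fB (i, t+1)) = fW (π i, t + 1) = (w b) (fW (π i, t)) = w b a z`.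
So the bad `z` are outside of the range of `fB` (`n - m ℓ` points) or of the form `fB (i, t)` with `t + 1 = ℓ` (`m` points). -/

set_option autoImplicit false

open MeasureTheory

namespace H33.BO

private theorem DefA_ac {k : ℕ} {n : ℕ} (α : Equiv.Perm (Fin n)) (σ : T0 k → Equiv.Perm (Fin n))
    (x : FreeGroup (T0 k)) : ac (mkX α σ) (io x) = FreeGroup.lift σ x := by
  have h : (ac (mkX α σ)).comp io = FreeGroup.lift σ := by
    ext t
    simp [io, mkX]
  rw [← h]
  rfl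

theorem defs_bd {k : ℕ} (W : Wd k) {n m ℓ : ℕ} (σ : T0 k → Equiv.Perm (Fin n)) (fB fW : Fin m × Fin ℓ → Fin n)
    (hB : segs (σ none) fB) (hW : segs (FreeGroup.lift σ (wb0 W)) fW)
    (A : Equiv.Perm (Fin m) → Equiv.Perm (Fin n)) (hA : fam fB fW A) (π : Equiv.Perm (Fin m)) :
    ((defs W (mkX (A π) σ)).ncard : ℝ) ≤ ((n : ℝ) - m * ℓ) + m := by
  set X := mkX (A π) σ with hX
  set a := A π with ha
  set b := σ none with hb
  set w := ac X (wf W) with hw
  have hacb : ac X (bb k) = b := by simp [bb, hX, mkX, hb]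
  have haca : ac X (aa k) = a := by simp [aa, hX, mkX]
  have hwb : FreeGroup.lift σ (wb0 W) = w * b := by
    rw [← DefA_ac (A π) σ (wb0 W), io_wb0, map_mul, ← hX, hacb]
  have hrel : ac X (rel W) = a * b * (w * b * a)⁻¹ := by
    rw [rel, map_mul, map_mul, map_inv, map_mul, map_mul, haca, hacb]
  rw [hwb] at hW
  set D : Set (Fin n) := {z | a (b z) ≠ w (b (a z))} with hD
  have h1 : defs W X ⊆ (w * b * a) '' D := by
    intro v hv
    refine ⟨(w * b * a)⁻¹ v, ?_, by simp⟩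
    have hv' : ac X (rel W) v ≠ v := hv
    rw [hrel] at hv'
    intro h2
    apply hv'
    have h3 : (a * b * (w * b * a)⁻¹) v = a (b ((w * b * a)⁻¹ v)) := rfl
    rw [h3, h2]
    have h4 : w (b (a ((w * b * a)⁻¹ v))) = (w * b * a) ((w * b * a)⁻¹ v) := rfl
    rw [h4]
    simp
  have h2 : D ⊆ (Set.range fB)ᶜ ∪ fB '' {p | (p.2 : ℕ) + 1 = ℓ} := by
    intro z hz
    by_cases hr : z ∈ Set.range fB
    · right
      obtain ⟨⟨i, t⟩, rfl⟩ := hr
      refine ⟨(i, t), ?_, rfl⟩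
      by_contra hne
      have ht : (t : ℕ) + 1 < ℓ := lt_of_le_of_ne t.2 hne
      apply hz
      rw [hB.2 i t ht, hA.1, hA.1, ← hW.2 (π i) t ht]
      rfl
    · exact Or.inl hr
  have h3 : ((Set.range fB)ᶜ).ncard = n - m * ℓ := by
    rw [Set.ncard_compl, Set.ncard_range_of_injective hB.1]
    simp
  have hle : m * ℓ ≤ n := by
    have := Fintype.card_le_of_injective fB hB.1
    simpa using this
  have h4 : (fB '' {p | (p.2 : ℕ) + 1 = ℓ}).ncard ≤ m := by
    refine (Set.ncard_image_le (Set.toFinite _)).trans ?_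
    have h5 : Set.InjOn (fun p : Fin m × Fin ℓ => p.1) {p | (p.2 : ℕ) + 1 = ℓ} := by
      rintro ⟨i, t⟩ ht ⟨j, u⟩ hu hij
      simp only [Set.mem_ofPred_eq] at ht hu hij
      have : (t : ℕ) = u := by omega
      rw [Prod.mk.injEq]
      exact ⟨hij, Fin.ext this⟩
    have h6 := Set.ncard_le_ncard_of_injOn (t := (Set.univ : Set (Fin m))) _ (fun p _ => Set.mem_univ _) h5
    simpa using h6
  have h5 : (defs W X).ncard ≤ (n - m * ℓ) + m := by
    calc (defs W X).ncard ≤ ((w * b * a) '' D).ncard := Set.ncard_le_ncard h1 (Set.toFinite _)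
      _ ≤ D.ncard := Set.ncard_image_le (Set.toFinite _)
      _ ≤ ((Set.range fB)ᶜ ∪ fB '' {p | (p.2 : ℕ) + 1 = ℓ}).ncard :=
          Set.ncard_le_ncard h2 (Set.toFinite _)
      _ ≤ _ := Set.ncard_union_le _ _
      _ ≤ _ := by rw [h3]; omega
  have h6 : ((defs W X).ncard : ℝ) ≤ (((n - m * ℓ) + m : ℕ) : ℝ) := by exact_mod_cast h5
  rw [Nat.cast_add, Nat.cast_sub hle, Nat.cast_mul] at h6
  exact h6

end H33.BO
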