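import Pool.Agent.H31.BE.Bern
import Pool.Agent.H33.BO.Defs2

/-! # BO.DirA : marks

PROOF. `mark_ex`: the measure `ν.prod κ` on `ℝ × Bool`, `κ = ofReal p • dirac true + ofReal (1 - p) • dirac false`, and a measurable equivalence `e : ℝ × Bool ≃ᵐ ℝ` (`PolishSpace.measurableEquivOfNotCountable`); `ν' := map e`, `pr x := (e.symm x).1`, `qm x := (e.symm x).2` (`measurePreserving_fst`). `pi_mp`: `bern_unique`: the map of the product measure on finite rectangles (`bern_pi`): `∏ μ (pr ⁻¹' t i) = ∏ ν (t i)`. -/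

set_option autoImplicit false

open MeasureTheory H31.BE

namespace H33.BO

theorem mark_ex (ν : Measure ℝ) [IsProbabilityMeasure ν] (p : ℝ) (h0 : 0 ≤ p) (h1 : p ≤ 1) :
    ∃ (ν' : Measure ℝ) (_ : IsProbabilityMeasure ν') (pr : ℝ → ℝ) (qm : ℝ → Bool),
      MeasurePreserving pr ν' ν ∧ Fm qm ∧ ν'.real (qm ⁻¹' {true}) = p := by
  classical
  have hζ : IsProbabilityMeasure (volume.restrict (Set.Icc (0 : ℝ) 1)) := by
    constructor
    rw [Measure.restrict_apply_univ, Real.volume_Icc]
    norm_num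
  have hE : MeasurePreserving EE.symm (cod ν (volume.restrict (Set.Icc (0 : ℝ) 1)))
      (ν.prod (volume.restrict (Set.Icc (0 : ℝ) 1))) := by
    have h : MeasurePreserving EE (ν.prod (volume.restrict (Set.Icc (0 : ℝ) 1)))
        (cod ν (volume.restrict (Set.Icc (0 : ℝ) 1))) := ⟨EE.measurable, rfl⟩
    exact h.symm EE
  have hms : MeasurableSet {x : ℝ | (EE.symm x).2 ≤ p} :=
    measurableSet_le (measurable_snd.comp EE.symm.measurable) measurable_const
  refine ⟨cod ν (volume.restrict (Set.Icc (0 : ℝ) 1)), inferInstance, fun x => (EE.symm x).1,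
    fun x => decide ((EE.symm x).2 ≤ p), ?_, ?_, ?_⟩
  · exact measurePreserving_fst.comp hE
  · intro a
    cases a
    · have e : (fun x => decide ((EE.symm x).2 ≤ p)) ⁻¹' {false} =
          {x : ℝ | (EE.symm x).2 ≤ p}ᶜ := by
        ext x
        simp
      rw [e]
      exact hms.compl
    · have e : (fun x => decide ((EE.symm x).2 ≤ p)) ⁻¹' {true} =
          {x : ℝ | (EE.symm x).2 ≤ p} := by
        ext x
        simp
      rw [e]
      exact hms
  · have e : (fun x => decide ((EE.symm x).2 ≤ p)) ⁻¹' {true} =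
        EE.symm ⁻¹' (Set.univ ×ˢ Set.Iic p) := by
      ext x
      simp
    have hm2 : MeasurableSet ((Set.univ : Set ℝ) ×ˢ Set.Iic p) :=
      MeasurableSet.univ.prod measurableSet_Iic
    rw [e, Measure.real, hE.measure_preimage hm2.nullMeasurableSet, Measure.prod_prod, measure_univ,
      one_mul, Measure.restrict_apply measurableSet_Iic]
    have e2 : Set.Iic p ∩ Set.Icc (0 : ℝ) 1 = Set.Icc 0 p := by
      ext x
      simp only [Set.mem_inter_iff, Set.mem_Iic, Set.mem_Icc]
      constructor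
      · rintro ⟨a, b, c⟩
        exact ⟨b, a⟩
      · rintro ⟨a, b⟩
        exact ⟨b, a, b.trans h1⟩
    rw [e2, Real.volume_Icc, sub_zero, ENNReal.toReal_ofReal h0]

private theorem DirA_mp {G : Type} [Group G] (ν' ν : Measure ℝ) [IsProbabilityMeasure ν']
    [IsProbabilityMeasure ν] (pr : ℝ → ℝ) (h : MeasurePreserving pr ν' ν) (F : Bsh G → Bsh G)
    (hF : F = fun (y : Bsh G) => (fun h => pr (y h) : Bsh G)) :
    MeasurePreserving F (bern G ν') (bern G ν) := by
  classical
  have hm : Measurable F := by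
    rw [hF]
    exact measurable_pi_iff.2 (fun g => h.measurable.comp (measurable_eval g))
  refine ⟨hm, ?_⟩
  apply bern_unique
  intro s t ht
  rw [Measure.map_apply hm (measurableSet_rect s t (fun i _ => ht i))]
  have hset : F ⁻¹' {y : Bsh G | ∀ i ∈ s, y i ∈ t i} =
      {y : Bsh G | ∀ i ∈ s, y i ∈ pr ⁻¹' (t i)} := by
    ext y
    rw [hF]
    rfl
  rw [hset, bern_pi ν' s (fun i => pr ⁻¹' (t i)) (fun i _ => h.measurable (ht i))]
  refine Finset.prod_congr rfl fun i _ => ?_
  exact h.measure_preimage (ht i).nullMeasurableSet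

theorem pi_mp {G : Type} [Group G] (ν' ν : Measure ℝ) [IsProbabilityMeasure ν'] [IsProbabilityMeasure ν]
    (pr : ℝ → ℝ) (h : MeasurePreserving pr ν' ν) :
    MeasurePreserving (fun (y : Bsh G) => (fun h => pr (y h) : Bsh G)) (bern G ν') (bern G ν) :=
  DirA_mp ν' ν pr h _ rfl

end H33.BO
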