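import Pool.Agent.H33.BO.Defs2

/-! # BO.DirB : the direction to the nearest mark

PROOF. `rch` is monotone in `j` by definition. Let `j0 := Nat.find h`, the least `j` with `j ≤ r ∧ rch N mk j z`. `j0 = 0`: `mk z`, direction `none`. `j0 = i + 1`: `rch (i + 1) z` and not `rch i z`, so there is `c` with `rch i (N c z)`; the direction is such a `c` (if `rch i (N false z)` then `false`, otherwise it is `true`). For `z' = N c z`: the least `j` with `rch j z'` is exactly `i` (if `rch j z'` with `j < i` then `rch (j + 1) z`, a contradiction).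
By induction on `j0`: `shrt N (ddir N mk r) j0 z`, and `shrt` is monotone in the number of steps. `ddir_none`: if `ddir = none` then either there is no `j ≤ r` with `rch` (so not `rch r z`) or `j0 = 0` (`mk z`). `rch_mv`: induction on `L`. `ddir_congr`: `rch` commutes with `θ`. -/

set_option autoImplicit false

open MeasureTheory H31.BE

namespace H33.BO

variable {Z : Type} (N : Bool → Z → Z) (mk : Z → Prop)

theorem rch_mono (i j : ℕ) (h : i ≤ j) (z : Z) (hz : rch N mk i z) : rch N mk j z := by
  induction j, h using Nat.le_induction with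
  | base => exact hz
  | succ n _ ih => exact Or.inl ih

theorem rch_mv (L : List Bool) (z : Z) (h : mk (mv N L z)) : rch N mk L.length z := by
  induction L generalizing z with
  | nil => exact h
  | cons c L ih => exact Or.inr ⟨c, ih (N c z) h⟩

private theorem dirB_none (d : Z → Option Bool) (m : ℕ) (z : Z) (h : d z = none) : shrt N d m z := by
  cases m with
  | zero => exact h
  | succ m =>
    unfold shrt
    rw [h]
    trivial

private theorem dirB_some (r : ℕ) (z : Z) (h : ∃ j, j ≤ r ∧ rch N mk j z) (m : ℕ)
    (hm : rch N mk (m + 1) z) (hmr : m + 1 ≤ r) :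
    ddir N mk r z = none ∨ ∃ c, ddir N mk r z = some c ∧ rch N mk m (N c z) := by
  classical
  unfold ddir
  rw [dif_pos h]
  by_cases h0 : Nat.find h = 0
  · left
    rw [if_pos h0]
  · right
    rw [if_neg h0]
    have h1 : Nat.find h ≤ m + 1 := Nat.find_min' h ⟨hmr, hm⟩
    have h2 := (Nat.find_spec h).2
    have h3 : ¬ rch N mk (Nat.find h - 1) z := fun h4 =>
      Nat.find_min h (m := Nat.find h - 1) (by omega) ⟨by have := (Nat.find_spec h).1; omega, h4⟩
    by_cases h5 : rch N mk (Nat.find h - 1) (N false z)
    · rw [if_pos h5]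
      exact ⟨false, rfl, rch_mono N mk _ _ (by omega) _ h5⟩
    · rw [if_neg h5]
      refine ⟨true, rfl, ?_⟩
      obtain ⟨i, hi⟩ := Nat.exists_eq_succ_of_ne_zero h0
      rw [hi] at h2 h3 h5
      rw [Nat.succ_sub_one] at h3 h5
      rcases h2 with h2 | ⟨c, h2⟩
      · exact absurd h2 h3
      · cases c with
        | false => exact absurd h2 h5
        | true => exact rch_mono N mk _ _ (by omega) _ h2

private theorem dirB_main (r m : ℕ) (hmr : m ≤ r) (z : Z) (hz : rch N mk m z) :
    shrt N (ddir N mk r) m z := by
  classical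
  induction m generalizing z with
  | zero =>
    have h : ∃ j, j ≤ r ∧ rch N mk j z := ⟨0, hmr, hz⟩
    show ddir N mk r z = none
    unfold ddir
    rw [dif_pos h, if_pos ((Nat.find_eq_zero h).2 ⟨hmr, hz⟩)]
  | succ m ih =>
    rcases dirB_some N mk r z ⟨m + 1, hmr, hz⟩ m hz hmr with h | ⟨c, h, hc⟩
    · exact dirB_none N _ _ z h
    · unfold shrt
      rw [h]
      exact ih (by omega) (N c z) hc

theorem ddir_shrt (r : ℕ) (z : Z) : shrt N (ddir N mk r) r z := by
  by_cases h : rch N mk r z
  · exact dirB_main N mk r r le_rfl z h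
  · refine dirB_none N _ r z ?_
    unfold ddir
    rw [dif_neg]
    rintro ⟨j, hj, hjz⟩
    exact h (rch_mono N mk j r hj z hjz)

theorem ddir_none (r : ℕ) (z : Z) (h : ddir N mk r z = none) : mk z ∨ ¬ rch N mk r z := by
  classical
  by_cases hr : rch N mk r z
  · left
    have hE : ∃ j, j ≤ r ∧ rch N mk j z := ⟨r, le_rfl, hr⟩
    unfold ddir at h
    rw [dif_pos hE] at h
    by_cases h0 : Nat.find hE = 0
    · have h1 := (Nat.find_spec hE).2
      rw [h0] at h1
      exact h1
    · rw [if_neg h0] at h
      split_ifs at h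
  · exact Or.inr hr

end H33.BO
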