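import Pool.Agent.H33.BO.Defs2

/-! # BO.Grow : the elements N_A^i N_B^j

PROOF. `φ : Fg k →* Multiplicative ℤ × Multiplicative ℤ`, a ↦ (1, 0), b ↦ (0, 1), x_i ↦ 0 (`FreeGroup.lift`). `φ (rel W) = 1` (the target is commutative, `φ (wf W) = 1`), so `φ` vanishes on `normalClosure {rel W} = ker (lift g)` (`Subgroup.normalClosure_le_normal`). `lift g (f) = lift g (f')` implies `f⁻¹ * f' ∈ ker`, `φ f = φ f'`. For `f = (nn false)^i * (nn true)^j`: `φ f = (i, j)`. `Infinite G`: the powers of `g none`; `Countable G`: surjective image of the countable group `Fg k`. -/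

set_option autoImplicit false

open MeasureTheory H31.BE

namespace H33.BO

variable {k : ℕ} {G : Type} [Group G] (W : Wd k) (g : Lt k → G) (hg : Pres W g)

/-- the abelian image: exponents of a and b -/
private def grow_phi (k : ℕ) : Fg k →* Multiplicative ℤ × Multiplicative ℤ :=
  FreeGroup.lift fun s => match s with
    | none => (Multiplicative.ofAdd 1, 1)
    | some none => (1, Multiplicative.ofAdd 1)
    | some (some _) => 1

omit [Group G] in
private lemma grow_wf : grow_phi k (wf W) = 1 := by
  unfold wf
  rw [map_list_prod, List.map_map]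
  apply List.prod_eq_one
  intro x hx
  rw [List.mem_map] at hx
  obtain ⟨p, _, rfl⟩ := hx
  show grow_phi k (sl p) = 1
  unfold sl xx
  split_ifs
  · simp [grow_phi]
  · rw [map_inv]
    simp [grow_phi]

private lemma grow_rel : grow_phi k (rel W) = 1 := by
  unfold rel
  rw [map_mul, map_mul, map_inv, map_mul, map_mul, grow_wf, one_mul, mul_comm (grow_phi k (bb k))]
  exact mul_inv_cancel _

private lemma grow_ff : grow_phi k (nn W false) = (Multiplicative.ofAdd 1, 1) := by
  have : grow_phi k (aa k) = (Multiplicative.ofAdd 1, 1) := by simp [grow_phi, aa]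
  show grow_phi k (aa k * (wf W)⁻¹) = _
  rw [map_mul, map_inv, grow_wf, inv_one, mul_one, this]

private lemma grow_tt : grow_phi k (nn W true) = (1, Multiplicative.ofAdd 1) := by
  have : grow_phi k (bb k) = (1, Multiplicative.ofAdd 1) := by simp [grow_phi, bb]
  show grow_phi k (wf W * bb k) = _
  rw [map_mul, grow_wf, one_mul, this]

include hg

private lemma grow_eq {f f' : Fg k} (h : FreeGroup.lift g f = FreeGroup.lift g f') :
    grow_phi k f = grow_phi k f' := by
  have h1 : f⁻¹ * f' ∈ (FreeGroup.lift g).ker := by
    rw [MonoidHom.mem_ker, map_mul, map_inv, h, inv_mul_cancel]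
  rw [hg.ker] at h1
  have h2 : Subgroup.normalClosure {rel W} ≤ (grow_phi k).ker := by
    apply Subgroup.normalClosure_le_normal
    intro x hx
    rw [Set.mem_singleton_iff] at hx
    rw [hx]
    exact grow_rel W
  have h3 := h2 h1
  rw [MonoidHom.mem_ker, map_mul, map_inv] at h3
  exact inv_mul_eq_one.1 h3

theorem grow : Function.Injective (fun p : ℕ × ℕ =>
    (FreeGroup.lift g (nn W false)) ^ p.1 * (FreeGroup.lift g (nn W true)) ^ p.2) := by
  rintro ⟨i, j⟩ ⟨i', j'⟩ h
  have h1 : FreeGroup.lift g (nn W false ^ i * nn W true ^ j) =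
      FreeGroup.lift g (nn W false ^ i' * nn W true ^ j') := by
    rw [map_mul, map_pow, map_pow, map_mul, map_pow, map_pow]
    exact h
  have h2 := grow_eq W g hg h1
  rw [map_mul, map_pow, map_pow, map_mul, map_pow, map_pow, grow_ff, grow_tt] at h2
  have h3 := congrArg (fun x => (Multiplicative.toAdd x.1, Multiplicative.toAdd x.2)) h2
  simpa using h3

theorem inf_G : Infinite G := Infinite.of_injective _ (grow W g hg)

theorem cnt_G : Countable G := by
  have : Countable (Fg k) := by
    unfold Fg FreeGroup
    infer_instance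
  exact hg.surj.countable

end H33.BO
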