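import Pool.Agent.H33.BO.DirB
import Pool.Agent.H33.BO.Grow
import Pool.Agent.H31.BE.Bern

/-! # BO.DirC : the direction field (paper section 4)

PROOF. `d := ddir (fun c => ga g (nn W c)) (fun y => qm (y 1) = true) r`. Measurability: `{y | rch N mk j y}` is measurable by induction on `j` (`y ↦ ga g f y` is measurable: `inv_bern`), and `d` is determined by the truth values of the finitely many `rch j y`, `rch j (N false y)`, `j ≤ r` (e.g. `d = some false` iff there is `i < r` with `¬ rch i y`, `rch i (N false y)` and .., a finite union of intersections). `ddir_shrt`.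
`ddir_none`: `{d = none} ⊆ {qm (y 1) = true} ∪ {y | ∀ i j ≤ r / 2, qm ((N_A^i N_B^j y) 1) ≠ true}` (`rch_mv` with `L = replicate j true ++ replicate i false`, `i + j ≤ r`; `rch_mono`; `mv` of this list is `N_A^i N_B^j`). The first set has measure `p`. The coordinates `(h • y) 1 = y (h⁻¹ * 1)` for the `(r / 2 + 1)^2` different elements `h = N_A^i N_B^j` (`grow`) are independent (`bern_pi`): the second set has measure `(1 - p)^((r/2+1)^2)`. -/

set_option autoImplicit false

open MeasureTheory H31.BE

namespace H33.BO

private lemma dirC_some {Z : Type} (N : Bool → Z → Z) (mk : Z → Prop) (r : ℕ) (z : Z) (b : Bool) :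
    ddir N mk r z = some b ↔ ∃ i ∈ Finset.range r, ¬ rch N mk i z ∧ rch N mk (i + 1) z ∧
      (rch N mk i (N false z) ↔ b = false) := by
  classical
  constructor
  · intro h
    unfold ddir at h
    split_ifs at h with h1 h2 h3
    · have hs := Nat.find_spec h1
      have hpos : 0 < Nat.find h1 := Nat.pos_of_ne_zero h2
      refine ⟨Nat.find h1 - 1, Finset.mem_range.2 (by omega), ?_, ?_, ?_⟩
      · intro hr
        exact Nat.find_min h1 (m := Nat.find h1 - 1) (by omega) ⟨by omega, hr⟩
      · rw [Nat.sub_add_cancel hpos]; exact hs.2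
      · simp only [Option.some.injEq] at h
        simp [h3, ← h]
    · have hs := Nat.find_spec h1
      have hpos : 0 < Nat.find h1 := Nat.pos_of_ne_zero h2
      refine ⟨Nat.find h1 - 1, Finset.mem_range.2 (by omega), ?_, ?_, ?_⟩
      · intro hr
        exact Nat.find_min h1 (m := Nat.find h1 - 1) (by omega) ⟨by omega, hr⟩
      · rw [Nat.sub_add_cancel hpos]; exact hs.2
      · simp only [Option.some.injEq] at h
        simp [h3, ← h]
  · rintro ⟨i, hi, h1, h2, h3⟩
    rw [Finset.mem_range] at hi
    have hex : ∃ j, j ≤ r ∧ rch N mk j z := ⟨i + 1, by omega, h2⟩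
    have hle : Nat.find hex ≤ i + 1 := Nat.find_min' hex ⟨by omega, h2⟩
    have hgt : i < Nat.find hex := by
      by_contra hcon
      exact h1 (rch_mono N mk _ _ (not_lt.1 hcon) z (Nat.find_spec hex).2)
    have hf : Nat.find hex = i + 1 := by omega
    unfold ddir
    rw [dif_pos hex, hf, if_neg (by omega), Nat.add_sub_cancel]
    cases b with
    | false => rw [if_pos (h3.2 rfl)]
    | true => rw [if_neg (fun hh => by simpa using h3.1 hh)]

private lemma dirC_mv_append {Z : Type} (N : Bool → Z → Z) (L1 L2 : List Bool) (z : Z) :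
    mv N (L1 ++ L2) z = mv N L2 (mv N L1 z) := by
  induction L1 generalizing z with
  | nil => rfl
  | cons c L1 ih => exact ih (N c z)

private lemma dirC_mv_rep {k : ℕ} {G : Type} [Group G] (W : Wd k) (g : Lt k → G) (c : Bool) (j : ℕ)
    (y : Bsh G) : mv (fun c => ga g (nn W c)) (List.replicate j c) y =
      (FreeGroup.lift g (nn W c)) ^ j • y := by
  induction j generalizing y with
  | zero => simp [mv]
  | succ j ih =>
    rw [List.replicate_succ, mv, ih, ga, pow_succ, mul_smul]

private lemma dirC_meas_rch {k : ℕ} {G : Type} [Group G] [DecidableEq G] (W : Wd k) (g : Lt k → G)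
    (qm : ℝ → Bool) (hqm : Fm qm) (j : ℕ) :
    MeasurableSet {y : Bsh G | rch (fun c => ga g (nn W c)) (fun y => qm (y 1) = true) j y} := by
  have hm : ∀ h : G, Measurable (fun y : Bsh G => h • y) := fun h =>
    measurable_pi_iff.2 (fun h' => measurable_eval (h⁻¹ * h'))
  induction j with
  | zero => exact (measurable_eval (1 : G)) (hqm true)
  | succ j ih =>
    have he : {y : Bsh G | rch (fun c => ga g (nn W c)) (fun y => qm (y 1) = true) (j + 1) y} =
        {y : Bsh G | rch (fun c => ga g (nn W c)) (fun y => qm (y 1) = true) j y} ∪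
        ⋃ c : Bool, (fun y : Bsh G => FreeGroup.lift g (nn W c) • y) ⁻¹'
          {y : Bsh G | rch (fun c => ga g (nn W c)) (fun y => qm (y 1) = true) j y} := by
      ext y
      simp only [rch, Set.mem_ofPred_eq, Set.mem_union, Set.mem_iUnion, Set.mem_preimage, ga]
    rw [he]
    exact ih.union (MeasurableSet.iUnion fun c => (hm _) ih)

theorem dir_ex {k : ℕ} {G : Type} [Group G] [DecidableEq G] (W : Wd k) (g : Lt k → G) (hg : Pres W g)
    (ν : Measure ℝ) [IsProbabilityMeasure ν] (qm : ℝ → Bool) (hqm : Fm qm) (r : ℕ) :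
    ∃ d : Bsh G → Option Bool, Fm d ∧ (∀ y, shrt (fun c => ga g (nn W c)) d r y) ∧
      (bern G ν).real {y | d y = none} ≤
        ν.real (qm ⁻¹' {true}) + (1 - ν.real (qm ⁻¹' {true})) ^ ((r / 2 + 1) ^ 2) := by
  set N : Bool → Bsh G → Bsh G := fun c => ga g (nn W c) with hN
  set mk : Bsh G → Prop := fun y => qm (y 1) = true with hmk
  have hm : ∀ h : G, Measurable (fun y : Bsh G => h • y) := fun h =>
    measurable_pi_iff.2 (fun h' => measurable_eval (h⁻¹ * h'))
  have hrch : ∀ j, MeasurableSet {y : Bsh G | rch N mk j y} := dirC_meas_rch W g qm hqm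
  have hsome : ∀ b : Bool, MeasurableSet ((ddir N mk r) ⁻¹' {some b}) := by
    intro b
    have he : (ddir N mk r) ⁻¹' {some b} = ⋃ i ∈ Finset.range r,
        (({y : Bsh G | rch N mk i y})ᶜ ∩ ({y : Bsh G | rch N mk (i + 1) y} ∩
          {y : Bsh G | rch N mk i (N false y) ↔ b = false})) := by
      ext y
      simp only [Set.mem_preimage, Set.mem_singleton_iff, dirC_some, Set.mem_iUnion, Set.mem_inter_iff,
        Set.mem_compl_iff, Set.mem_ofPred_eq, exists_prop]
    rw [he]
    refine Finset.measurableSet_biUnion _ (fun i _ => (hrch i).compl.inter ((hrch (i + 1)).inter ?_))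
    have h1 : MeasurableSet {y : Bsh G | rch N mk i (N false y)} := (hm _) (hrch i)
    cases b with
    | false => simpa using h1
    | true =>
      have he2 : {y : Bsh G | rch N mk i (N false y) ↔ true = false} =
          {y : Bsh G | rch N mk i (N false y)}ᶜ := by
        ext y; simp
      rw [he2]
      exact h1.compl
  refine ⟨ddir N mk r, ?_, fun y => ddir_shrt N mk r y, ?_⟩
  · intro a
    cases a with
    | some b => exact hsome b
    | none =>
      have he : (ddir N mk r) ⁻¹' {none} = ((ddir N mk r) ⁻¹' {some false} ∪ (ddir N mk r) ⁻¹' {some true})ᶜ := by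
        ext y
        simp only [Set.mem_preimage, Set.mem_singleton_iff, Set.mem_compl_iff, Set.mem_union]
        rcases hd : ddir N mk r y with _ | b
        · simp
        · cases b <;> simp
      rw [he]
      exact ((hsome false).union (hsome true)).compl
  · set q := r / 2 with hq
    set NA := FreeGroup.lift g (nn W false) with hNA
    set NB := FreeGroup.lift g (nn W true) with hNB
    let F : ℕ × ℕ → G := fun p => (NA ^ p.1 * NB ^ p.2)⁻¹
    have hF : Function.Injective F := by
      intro p p' hpp
      exact grow W g hg (inv_injective hpp)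
    let s : Finset G := (Finset.range (q + 1) ×ˢ Finset.range (q + 1)).image F
    have hs : s.card = (q + 1) ^ 2 := by
      rw [Finset.card_image_of_injective _ hF, Finset.card_product, Finset.card_range, sq]
    have hsub : {y : Bsh G | ddir N mk r y = none} ⊆ {y : Bsh G | ∀ i ∈ ({1} : Finset G), y i ∈ qm ⁻¹' {true}} ∪
        {y : Bsh G | ∀ i ∈ s, y i ∈ qm ⁻¹' {false}} := by
      intro y hy
      rcases ddir_none N mk r y hy with h | h
      · left
        simpa using h
      · right
        intro i hi
        obtain ⟨⟨a, b⟩, hab, rfl⟩ := Finset.mem_image.1 hi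
        rw [Finset.mem_product, Finset.mem_range, Finset.mem_range] at hab
        by_contra hcon
        apply h
        have hcon' : qm (y (F (a, b))) = true := by
          simpa using hcon
        have h2 : mk (mv N (List.replicate b true ++ List.replicate a false) y) := by
          rw [dirC_mv_append, hN, dirC_mv_rep, dirC_mv_rep, ← mul_smul]
          show qm (((NA ^ a * NB ^ b) • y) 1) = true
          rw [Bsh.smul_apply, mul_one]
          exact hcon'
        have h3 := rch_mv N mk _ y h2
        rw [List.length_append, List.length_replicate, List.length_replicate] at h3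
        exact rch_mono N mk _ r (by simp only at hab; omega) y h3
    have hmf : MeasurableSet (qm ⁻¹' {false}) := hqm false
    have hmt : MeasurableSet (qm ⁻¹' {true}) := hqm true
    have hfalse : ν.real (qm ⁻¹' {false}) = 1 - ν.real (qm ⁻¹' {true}) := by
      have he : qm ⁻¹' {false} = (qm ⁻¹' {true})ᶜ := by
        ext x; simp
      rw [he, probReal_compl_eq_one_sub hmt]
    have hS1 : (bern G ν).real {y : Bsh G | ∀ i ∈ ({1} : Finset G), y i ∈ qm ⁻¹' {true}} =
        ν.real (qm ⁻¹' {true}) := by
      rw [measureReal_def, bern_pi ν {1} (fun _ => qm ⁻¹' {true}) (fun _ _ => hmt), Finset.prod_singleton,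
        measureReal_def]
    have hS2 : (bern G ν).real {y : Bsh G | ∀ i ∈ s, y i ∈ qm ⁻¹' {false}} =
        (1 - ν.real (qm ⁻¹' {true})) ^ ((q + 1) ^ 2) := by
      rw [measureReal_def, bern_pi ν s (fun _ => qm ⁻¹' {false}) (fun _ _ => hmf), Finset.prod_const, hs,
        ENNReal.toReal_pow, ← hfalse, measureReal_def]
    calc (bern G ν).real {y : Bsh G | ddir N mk r y = none}
        ≤ (bern G ν).real ({y : Bsh G | ∀ i ∈ ({1} : Finset G), y i ∈ qm ⁻¹' {true}} ∪
          {y : Bsh G | ∀ i ∈ s, y i ∈ qm ⁻¹' {false}}) := measureReal_mono hsub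
      _ ≤ (bern G ν).real {y : Bsh G | ∀ i ∈ ({1} : Finset G), y i ∈ qm ⁻¹' {true}} +
          (bern G ν).real {y : Bsh G | ∀ i ∈ s, y i ∈ qm ⁻¹' {false}} := measureReal_union_le _ _
      _ = _ := by rw [hS1, hS2]

end H33.BO
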