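import Mathlib

/-! # BO.DirN : the choice of the parameters of the direction field

PROOF. `p := (r + 1)^(-3/2)` (real power), `s = r + 1`. `(1 - p)^((r/2+1)^2) ≤ exp (- p (r/2 + 1)^2) ≤ exp (- s^(1/2) / 4)` since `r / 2 + 1 ≥ (r + 1) / 2`. `log (Pc + 2) ≤ log 3 + s log (3 K + 1)` (`Pc + 2 ≤ 3 Pc`), `1 / Pc ≤ 3^(-s)`. So the left side is at most `C (s^(-3/2) + exp (- s^(1/2) / 4) + 3^(-s)) (2 + s log (3 K + 1))`, which tends to 0 as `s → ∞`. -/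

set_option autoImplicit false

open MeasureTheory

namespace H33.BO

theorem dirN (C : ℝ) (hC : 0 ≤ C) (K : ℕ) (ε : ℝ) (hε : 0 < ε) :
    ∃ (r : ℕ) (p : ℝ), 0 ≤ p ∧ p ≤ 1 ∧ ∀ Pc : ℕ, 3 ^ (r + 1) ≤ Pc → Pc ≤ (3 * K + 1) ^ (r + 1) →
      C * ((p + (1 - p) ^ ((r / 2 + 1) ^ 2)) + 1 / Pc) * Real.log (Pc + 2) ≤ ε := by
  obtain ⟨L, hL⟩ : ∃ L, L = Real.log (3 * (3 * (K : ℝ) + 1)) := ⟨_, rfl⟩
  have hK0 : (0 : ℝ) ≤ K := Nat.cast_nonneg K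
  have hL0 : 0 ≤ L := by
    rw [hL]
    exact Real.log_nonneg (by linarith)
  obtain ⟨t0, ht0⟩ := exists_nat_ge (386 * C * L / ε)
  obtain ⟨t, ht3, htt⟩ : ∃ t : ℕ, 3 ≤ t ∧ 386 * C * L / ε ≤ (t : ℝ) := by
    refine ⟨max 3 t0, le_max_left _ _, ht0.trans ?_⟩
    exact_mod_cast le_max_right 3 t0
  have htR : (3 : ℝ) ≤ (t : ℝ) := by exact_mod_cast ht3
  have htp : (0 : ℝ) < t := by linarith
  have ht3p : (0 : ℝ) < (t : ℝ) ^ 3 := by positivity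
  have hpos : 1 ≤ t ^ 2 := Nat.one_le_pow _ _ (by omega)
  obtain ⟨r, hr⟩ : ∃ r, r + 1 = t ^ 2 := ⟨t ^ 2 - 1, by omega⟩
  obtain ⟨p, hp⟩ : ∃ p : ℝ, p = 1 / (t : ℝ) ^ 3 := ⟨_, rfl⟩
  have hp0 : 0 ≤ p := by
    rw [hp]
    positivity
  have hp1 : p ≤ 1 := by
    rw [hp, div_le_one ht3p]
    exact one_le_pow₀ (by linarith)
  refine ⟨r, p, hp0, hp1, ?_⟩
  intro Pc hP1 hP2
  rw [hr] at hP1 hP2
  -- the second term
  have hN : (t : ℝ) ^ 4 / 4 ≤ (((r / 2 + 1) ^ 2 : ℕ) : ℝ) := by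
    have h1 : t ^ 2 ≤ 2 * (r / 2 + 1) := by omega
    have h2 : (t : ℝ) ^ 2 ≤ 2 * ((r / 2 + 1 : ℕ) : ℝ) := by exact_mod_cast h1
    have h3 : (0 : ℝ) ≤ (t : ℝ) ^ 2 := by positivity
    rw [Nat.cast_pow]
    nlinarith
  have hexp : (1 - p) ^ ((r / 2 + 1) ^ 2) ≤ 384 / (t : ℝ) ^ 3 := by
    have h1 : (1 - p) ^ ((r / 2 + 1) ^ 2) ≤ Real.exp (-p) ^ ((r / 2 + 1) ^ 2) :=
      pow_le_pow_left₀ (by linarith) (Real.one_sub_le_exp_neg p) _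
    rw [← Real.exp_nat_mul] at h1
    have h2 : (((r / 2 + 1) ^ 2 : ℕ) : ℝ) * -p ≤ -((t : ℝ) / 4) := by
      have h3 : (t : ℝ) ^ 4 / 4 * p = (t : ℝ) / 4 := by
        rw [hp]
        field_simp
      have h4 := mul_le_mul_of_nonneg_right hN hp0
      rw [h3] at h4
      linarith
    have h5 := h1.trans (Real.exp_le_exp.2 h2)
    refine h5.trans ?_
    have h6 := Real.pow_div_factorial_le_exp ((t : ℝ) / 4) (by positivity) 3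
    have h7 : Real.exp (-((t : ℝ) / 4)) * Real.exp ((t : ℝ) / 4) = 1 := by
      rw [← Real.exp_add, neg_add_cancel, Real.exp_zero]
    have h8 : ((t : ℝ) / 4) ^ 3 / ((Nat.factorial 3 : ℕ) : ℝ) = (t : ℝ) ^ 3 / 384 := by
      have : ((Nat.factorial 3 : ℕ) : ℝ) = 6 := by norm_num [Nat.factorial]
      rw [this]
      ring
    rw [h8] at h6
    rw [le_div_iff₀ ht3p]
    have h9 := mul_le_mul_of_nonneg_left h6 (Real.exp_pos (-((t : ℝ) / 4))).le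
    rw [h7] at h9
    linarith
  -- the third term
  have hPt : (t : ℝ) ^ 3 ≤ (Pc : ℝ) := by
    have h1 : t ^ 3 ≤ 3 ^ t ^ 2 := by
      calc t ^ 3 ≤ (3 ^ t) ^ 3 := Nat.pow_le_pow_left (Nat.lt_pow_self (by norm_num)).le 3
        _ = 3 ^ (t * 3) := by rw [← pow_mul]
        _ ≤ 3 ^ t ^ 2 := by
          refine Nat.pow_le_pow_right (by norm_num) ?_
          rw [pow_two]
          exact Nat.mul_le_mul_left _ ht3
    exact_mod_cast h1.trans hP1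
  have hPpos : (0 : ℝ) < Pc := lt_of_lt_of_le ht3p hPt
  have hthird : 1 / (Pc : ℝ) ≤ 1 / (t : ℝ) ^ 3 := one_div_le_one_div_of_le ht3p hPt
  -- the logarithm
  have hlog : Real.log ((Pc : ℝ) + 2) ≤ (t : ℝ) ^ 2 * L := by
    have h1 : (Pc : ℝ) + 2 ≤ (3 * (3 * (K : ℝ) + 1)) ^ (t ^ 2) := by
      have h2 : (Pc : ℝ) ≤ (3 * (K : ℝ) + 1) ^ (t ^ 2) := by exact_mod_cast hP2
      have h3 : (1 : ℝ) ≤ (3 * (K : ℝ) + 1) ^ (t ^ 2) := one_le_pow₀ (by linarith)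
      have h4 : (3 : ℝ) ≤ 3 ^ (t ^ 2) := by
        have := pow_le_pow_right₀ (by norm_num : (1 : ℝ) ≤ 3) hpos
        rwa [pow_one] at this
      rw [mul_pow]
      nlinarith
    have h5 := Real.log_le_log (by linarith) h1
    rw [Real.log_pow, ← hL] at h5
    have h6 : (((t ^ 2 : ℕ)) : ℝ) = (t : ℝ) ^ 2 := Nat.cast_pow t 2
    rwa [h6] at h5
  have hlog0 : 0 ≤ Real.log ((Pc : ℝ) + 2) := by
    refine Real.log_nonneg ?_
    linarith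
  have hsum : (p + (1 - p) ^ ((r / 2 + 1) ^ 2)) + 1 / (Pc : ℝ) ≤ 386 / (t : ℝ) ^ 3 := by
    have e : (386 : ℝ) / (t : ℝ) ^ 3 = 1 / (t : ℝ) ^ 3 + 384 / (t : ℝ) ^ 3 + 1 / (t : ℝ) ^ 3 := by
      ring
    rw [e, hp]
    rw [hp] at hexp
    linarith
  have hfin : C * (386 / (t : ℝ) ^ 3) * ((t : ℝ) ^ 2 * L) ≤ ε := by
    have e : C * (386 / (t : ℝ) ^ 3) * ((t : ℝ) ^ 2 * L) = 386 * C * L / t := by
      field_simp
    rw [e, div_le_iff₀ htp]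
    rw [div_le_iff₀ hε] at htt
    linarith
  refine le_trans ?_ hfin
  refine mul_le_mul (mul_le_mul_of_nonneg_left hsum hC) hlog hlog0 ?_
  positivity

end H33.BO
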