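import Mathlib

/-! # BO.Num1 : the numerical estimate of the number of matchings (paper 2.5)

PROOF. `n = card V ≥ 1`, `k q := (K.filter (f · = q)).card ≤ m q`, `k q = 0` if `T q`. `∑ v ∈ K, log (m (f v)) = ∑ q, k q * log (m q)` (`Finset.sum_fiberwise` / `Finset.card_eq_sum_card_fiberwise`), `∑ q, k q = K.card`. For `m q ≥ 1`: `log (m q) = log n + log (m q / n)`; for `m q = 0` also `k q = 0`.
So the left side is `K.card * log n + ∑ q not T, k q * log (m q / n)`, and `k q log (m q/n) = m q log (m q/n) + (m q - k q) log (n / m q)`, `m q log (m q / n) = - n negMulLog (m q / n)`. Let `r q = m q - k q ∈ [0, m q]`, `x = m q / n ≤ 1`. If `x ≥ N^(-2)` then `log (1/x) ≤ 2 log N`.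
If `0 < x < N^(-2)` (`≤ 1/9 < exp (-1)`): `r q log (1/x) ≤ n x log (1/x) ≤ n N^(-2) 2 log N` (`x log (1/x)` is increasing on `(0, 1/e)`: or directly: `log (1/x) ≤ 2 (1/x)^(1/2)`.. any proof; e.g. `x log (1/x) = -x log x` and `Real.negMulLog` monotone on `[0, exp (-1)]`); the sum over the at most `N` values of `q`
is at most `n 2 log N / N ≤ n` (`log N ≤ N / 2`). Together `∑ r q log (n / m q) ≤ 2 (∑ q not T, r q) log N + n`. -/

set_option autoImplicit false

open MeasureTheory

namespace H33.BO

/-- one value of `q` -/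
private lemma Num1_one (n N k m : ℕ) (hn : 1 ≤ n) (hN : 3 ≤ N) (hk : k ≤ m) (_hm : m ≤ n) :
    (k : ℝ) * Real.log m - k * Real.log n + n * Real.negMulLog ((m : ℝ) / n)
      - 2 * ((m : ℝ) - k) * Real.log N ≤ (n : ℝ) / N := by
  have hn0 : (0 : ℝ) < n := by exact_mod_cast hn
  have hN0 : (3 : ℝ) ≤ N := by exact_mod_cast hN
  have hNp : (0 : ℝ) < N := by linarith
  rcases Nat.eq_zero_or_pos m with h0 | hm0
  · have hk0 : k = 0 := by omega
    subst h0
    subst hk0
    have : (0 : ℝ) ≤ (n : ℝ) / N := by positivity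
    simpa using this
  · have hm1 : (0 : ℝ) < m := by exact_mod_cast hm0
    have hkm : (k : ℝ) ≤ m := by exact_mod_cast hk
    have hk0 : (0 : ℝ) ≤ k := Nat.cast_nonneg k
    have e1 : (n : ℝ) * Real.negMulLog ((m : ℝ) / n) = -(m * (Real.log m - Real.log n)) := by
      unfold Real.negMulLog
      rw [Real.log_div hm1.ne' hn0.ne']
      field_simp
    have e2 : Real.log ((n : ℝ) / (m * N ^ 2)) = Real.log n - Real.log m - 2 * Real.log N := by
      rw [Real.log_div hn0.ne' (by positivity), Real.log_mul hm1.ne' (by positivity), Real.log_pow]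
      push_cast
      ring
    have e3 : (k : ℝ) * Real.log m - k * Real.log n + n * Real.negMulLog ((m : ℝ) / n)
        - 2 * ((m : ℝ) - k) * Real.log N = ((m : ℝ) - k) * Real.log ((n : ℝ) / (m * N ^ 2)) := by
      rw [e1, e2]
      ring
    rw [e3]
    have hy : (0 : ℝ) < (n : ℝ) / (m * N ^ 2) := by positivity
    have hly := Real.log_le_sub_one_of_pos hy
    have hnn : (0 : ℝ) ≤ (n : ℝ) / N := by positivity
    rcases le_or_gt (Real.log ((n : ℝ) / (m * N ^ 2))) 0 with hl | hl
    · have : ((m : ℝ) - k) * Real.log ((n : ℝ) / (m * N ^ 2)) ≤ 0 :=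
        mul_nonpos_of_nonneg_of_nonpos (by linarith) hl
      linarith
    · have h1 : ((m : ℝ) - k) * Real.log ((n : ℝ) / (m * N ^ 2))
          ≤ m * Real.log ((n : ℝ) / (m * N ^ 2)) :=
        mul_le_mul_of_nonneg_right (by linarith) hl.le
      have h2 : (m : ℝ) * Real.log ((n : ℝ) / (m * N ^ 2)) ≤ m * ((n : ℝ) / (m * N ^ 2)) :=
        mul_le_mul_of_nonneg_left (by linarith) hm1.le
      have h3 : (m : ℝ) * ((n : ℝ) / (m * N ^ 2)) = (n : ℝ) / N ^ 2 := by
        field_simp
      have h4 : (n : ℝ) / N ^ 2 ≤ (n : ℝ) / N := by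
        refine div_le_div_of_nonneg_left hn0.le hNp ?_
        nlinarith
      linarith

theorem num1 {V Q : Type} [Fintype V] [Nonempty V] [Fintype Q] [DecidableEq Q] (T : Q → Prop) [DecidablePred T]
    (K : Finset V) (f : V → Q) (m : Q → ℕ) (hT : ∀ v ∈ K, ¬ T (f v))
    (hm : ∀ q, (K.filter (fun v => f v = q)).card ≤ m q) (hmn : ∀ q, m q ≤ Fintype.card V)
    (N : ℕ) (hq : Fintype.card Q ≤ N) (hN : 3 ≤ N) :
    ∑ v ∈ K, Real.log (m (f v)) ≤ K.card * Real.log (Fintype.card V) -
      Fintype.card V * (∑ q, if T q then 0 else Real.negMulLog ((m q : ℝ) / Fintype.card V)) +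
      2 * ((∑ q, if T q then 0 else (m q : ℝ)) - K.card) * Real.log N + Fintype.card V := by
  classical
  set n := Fintype.card V with hn
  have hn1 : 1 ≤ n := Fintype.card_pos
  have hn0 : (0 : ℝ) < n := by exact_mod_cast hn1
  have hNp : (0 : ℝ) < N := by
    have : 0 < N := by omega
    exact_mod_cast this
  have hA : ∑ v ∈ K, Real.log (m (f v))
      = ∑ q : Q, ((K.filter (fun v => f v = q)).card : ℝ) * Real.log (m q) := by
    rw [← Finset.sum_fiberwise K f (fun v => Real.log (m (f v)))]
    refine Finset.sum_congr rfl fun q _ => ?_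
    rw [Finset.sum_congr rfl (g := fun _ => Real.log (m q))
      (fun v hv => by rw [(Finset.mem_filter.mp hv).2]), Finset.sum_const, nsmul_eq_mul]
  have hB : (K.card : ℝ) = ∑ q : Q, ((K.filter (fun v => f v = q)).card : ℝ) := by
    have := Finset.card_eq_sum_card_fiberwise (s := K) (t := Finset.univ) (f := f)
      (fun v _ => Finset.mem_coe.mpr (Finset.mem_univ _))
    rw [this]
    push_cast
    rfl
  have hC : ∀ q : Q, ((K.filter (fun v => f v = q)).card : ℝ) * Real.log (m q)
      - ((K.filter (fun v => f v = q)).card : ℝ) * Real.log n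
      + n * (if T q then 0 else Real.negMulLog ((m q : ℝ) / n))
      - 2 * ((if T q then 0 else (m q : ℝ)) - ((K.filter (fun v => f v = q)).card : ℝ)) * Real.log N
      ≤ (n : ℝ) / N := by
    intro q
    by_cases h : T q
    · have hz : (K.filter (fun v => f v = q)).card = 0 := by
        rw [Finset.card_eq_zero, Finset.filter_eq_empty_iff]
        intro v hv hvq
        exact hT v hv (hvq ▸ h)
      rw [if_pos h, if_pos h, hz]
      have : (0 : ℝ) ≤ (n : ℝ) / N := by positivity
      simpa using this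
    · rw [if_neg h, if_neg h]
      exact Num1_one n N _ (m q) hn1 hN (hm q) (hmn q)
  have hD := Finset.sum_le_sum (s := (Finset.univ : Finset Q)) (fun q _ => hC q)
  rw [Finset.sum_sub_distrib, Finset.sum_add_distrib, Finset.sum_sub_distrib, ← Finset.sum_mul,
    ← Finset.sum_mul, ← Finset.mul_sum, ← Finset.mul_sum, Finset.sum_sub_distrib, ← hA, ← hB,
    Finset.sum_const, nsmul_eq_mul, Finset.card_univ] at hD
  have hE : (Fintype.card Q : ℝ) * ((n : ℝ) / N) ≤ n := by
    have h1 : (Fintype.card Q : ℝ) ≤ N := by exact_mod_cast hq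
    calc (Fintype.card Q : ℝ) * ((n : ℝ) / N) ≤ N * ((n : ℝ) / N) :=
          mul_le_mul_of_nonneg_right h1 (by positivity)
      _ = n := by field_simp
  linarith

end H33.BO
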