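import Pool.Agent.H33.BO.Defs
import Pool.Agent.H33.BO.Num1

/-! # BO.EncA : the logarithm of the number of the matchings (paper 2.5)

PROOF. `num1` for every `s` with `Q := Qi W P s`, `T := TT dir s`, `K := K s \ Ex s`, `f v := src s (Φ v)`, `m q := #{u | tgt s (Φ u) = q}` (`hT`: part 1 of `hK`; `hm`: `X s` maps `{v ∈ K s \ Ex s | src s (Φ v) = q}` injectively into `{u | tgt s (Φ u) = q}`: part 2 of `hK`; `hmn` clear). Sum over the `k + 2` letters: `(K s \ Ex s).card log n + (K s ∩ Ex s).card log n = (K s).card log n` and `h3`; `∑ s, ∑ q, if T q then 0 else negMulLog (m q / n) = Gn W dir (emp Φ)`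
since `(m q : ℝ) / n = ∑ Φ' with tgt s Φ' = q, emp Φ Φ'` (unfold `Gn`, `emp`; the instances `Fintype.ofFinite` and the given one agree: `Subsingleton.elim`); `∑ q, if T q then 0 else m q = #{u | ¬ T (tgt s (Φ u))}` and `h4`; `log N ≥ 0`. -/

set_option autoImplicit false

open MeasureTheory

namespace H33.BO

private lemma EncA_num {k : ℕ} (W : Wd k) {P : Type} [Finite P] (dir : P → Option Bool) (n : ℕ) (hn : 1 ≤ n)
    (X : Equiv.Perm (Fin n)) (Φ : Fin n → Bg k W.length → P) (s : Lt k) (K : Finset (Fin n))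
    (hK : ∀ v ∈ K, ¬ TT dir s (src s (Φ v)) ∧ tgt s (Φ (X v)) = src s (Φ v))
    (N : ℕ) (hN : 3 ≤ N) (hq : Nat.card (Qi W P s) ≤ N) [Fintype (Qi W P s)] [DecidableEq (Qi W P s)]
    [DecidablePred (TT (W := W) dir s)] :
    ∑ v ∈ K, Real.log (Nat.card {u // tgt s (Φ u) = src s (Φ v)}) ≤ K.card * Real.log n -
      n * (∑ q : Qi W P s, if TT dir s q then 0 else Real.negMulLog ((Nat.card {u // tgt s (Φ u) = q} : ℝ) / n)) +
      2 * ((∑ q : Qi W P s, if TT dir s q then 0 else (Nat.card {u // tgt s (Φ u) = q} : ℝ)) - K.card) *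
        Real.log N + n := by
  classical
  have : Nonempty (Fin n) := ⟨⟨0, hn⟩⟩
  have h := num1 (V := Fin n) (TT (W := W) dir s) K (fun v => src s (Φ v))
    (fun q => Nat.card {u // tgt s (Φ u) = q}) (fun v hv => (hK v hv).1) ?_ ?_ N ?_ hN
  · simpa [Fintype.card_fin] using h
  · intro q
    have h1 : Nat.card {u // tgt s (Φ u) = q} = (Finset.univ.filter fun u => tgt s (Φ u) = q).card := by
      rw [Nat.card_eq_fintype_card, Fintype.card_subtype]
    rw [h1]
    refine Finset.card_le_card_of_injOn (fun v => X v) ?_ ?_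
    · intro v hv
      rw [Finset.mem_coe, Finset.mem_filter] at hv
      rw [Finset.mem_coe, Finset.mem_filter]
      exact ⟨Finset.mem_univ _, by rw [(hK v hv.1).2]; exact hv.2⟩
    · intro a _ b _ hab
      exact X.injective hab
  · intro q
    rw [← Nat.card_eq_fintype_card]
    exact Nat.card_le_card_of_injective (fun u : {u // tgt s (Φ u) = q} => u.1) Subtype.val_injective
  · rw [← Nat.card_eq_fintype_card]
    exact hq

private lemma EncA_cnt {k : ℕ} (W : Wd k) {P : Type} [Finite P] (dir : P → Option Bool) (n : ℕ)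
    (Φ : Fin n → Bg k W.length → P) (s : Lt k) [Fintype (Qi W P s)] [DecidablePred (TT (W := W) dir s)] :
    (∑ q : Qi W P s, if TT dir s q then 0 else (Nat.card {u // tgt s (Φ u) = q} : ℝ)) =
      ({u | ¬ TT dir s (tgt s (Φ u))}.ncard : ℝ) := by
  classical
  have h1 : ({u | ¬ TT dir s (tgt s (Φ u))} : Set (Fin n)).ncard =
      (Finset.univ.filter fun u => ¬ TT dir s (tgt s (Φ u))).card := by
    rw [← Set.ncard_coe_finset]
    congr 1
    ext u
    simp
  rw [h1, Finset.card_eq_sum_card_fiberwise (f := fun u => tgt s (Φ u)) (t := Finset.univ)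
    (fun v _ => Finset.mem_coe.mpr (Finset.mem_univ _))]
  rw [Nat.cast_sum]
  refine Finset.sum_congr rfl fun q _ => ?_
  split_ifs with h
  · have : ((Finset.univ.filter fun u => ¬ TT dir s (tgt s (Φ u))).filter fun a => tgt s (Φ a) = q) = ∅ := by
      rw [Finset.filter_eq_empty_iff]
      intro u hu hq
      rw [Finset.mem_filter] at hu
      exact hu.2 (hq ▸ h)
    rw [this]
    simp
  · rw [Nat.card_eq_fintype_card, Fintype.card_subtype, Finset.filter_filter]
    congr 2
    ext u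
    simp only [Finset.mem_filter, Finset.mem_univ, true_and]
    constructor
    · intro hu
      exact ⟨hu ▸ h, hu⟩
    · exact fun hu => hu.2

private lemma EncA_emp {k : ℕ} (W : Wd k) {P : Type} [Fintype P] [DecidableEq P] (n : ℕ)
    (Φ : Fin n → Bg k W.length → P) (s : Lt k) (q : Qi W P s) [DecidableEq (Qi W P s)]
    [Fintype (Bg k W.length → P)] :
    (∑ Φ' ∈ Finset.univ.filter (fun Φ' : Bg k W.length → P => tgt s Φ' = q), emp Φ Φ') =
      (Nat.card {u // tgt s (Φ u) = q} : ℝ) / n := by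
  classical
  unfold emp
  rw [← Finset.sum_div, Nat.card_eq_fintype_card (α := Fin n), Fintype.card_fin]
  congr 1
  have h1 : Nat.card {u // tgt s (Φ u) = q} = (Finset.univ.filter fun u => tgt s (Φ u) = q).card := by
    rw [Nat.card_eq_fintype_card, Fintype.card_subtype]
  rw [h1, Finset.card_eq_sum_card_fiberwise (f := fun u => Φ u)
    (t := Finset.univ.filter (fun Φ' : Bg k W.length → P => tgt s Φ' = q))]
  · rw [Nat.cast_sum]
    refine Finset.sum_congr rfl fun Φ' h' => ?_
    rw [Nat.card_eq_fintype_card, Fintype.card_subtype, Finset.filter_filter]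
    rw [Finset.mem_filter] at h'
    congr 2
    ext u
    simp only [Finset.mem_filter, Finset.mem_univ, true_and]
    constructor
    · intro hu
      exact ⟨by rw [hu]; exact h'.2, hu⟩
    · exact fun hu => hu.2
  · intro u hu
    rw [Finset.mem_coe, Finset.mem_filter] at hu
    rw [Finset.mem_coe, Finset.mem_filter]
    exact ⟨Finset.mem_univ _, hu.2⟩

theorem encA {k : ℕ} (W : Wd k) {P : Type} [Finite P] (dir : P → Option Bool) (n : ℕ) (hn : 1 ≤ n)
    (X : Lt k → Equiv.Perm (Fin n)) (Φ : Fin n → Bg k W.length → P) (K Ex : Lt k → Finset (Fin n)) (c δ ρ : ℝ)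
    (hK : ∀ s, ∀ v ∈ K s, v ∉ Ex s → ¬ TT dir s (src s (Φ v)) ∧ tgt s (Φ (X s v)) = src s (Φ v))
    (h3 : ∑ s, ((K s).card : ℝ) ≤ (k + 1) * n + c + 4 * δ)
    (h4 : ∑ s, ({u | ¬ TT dir s (tgt s (Φ u))}.ncard : ℝ) ≤ ∑ s, ((K s \ Ex s).card : ℝ) + ρ + 5 * δ)
    (N : ℕ) (hN : 3 ≤ N) (hq : ∀ s, Nat.card (Qi W P s) ≤ N) :
    ∑ s, (∑ v ∈ K s \ Ex s, Real.log (Nat.card {u // tgt s (Φ u) = src s (Φ v)}) +
        ((K s ∩ Ex s).card : ℝ) * Real.log n) ≤
      ((k + 1) * n + c + 4 * δ) * Real.log n + ((k : ℝ) + 2) * n + 2 * Real.log N * (ρ + 5 * δ) -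
        n * Gn W dir (emp Φ) := by
  classical
  let _ : Fintype P := Fintype.ofFinite P
  have hG : Gn W dir (emp Φ) = ∑ s : Lt k, ∑ q : Qi W P s, if TT dir s q then 0 else
      Real.negMulLog ((Nat.card {u // tgt s (Φ u) = q} : ℝ) / n) := by
    unfold Gn
    refine Finset.sum_congr rfl fun s _ => ?_
    refine Finset.sum_congr (by congr!) fun q _ => ?_
    by_cases h : TT dir s q
    · rw [if_pos h, if_pos h]
    · rw [if_neg h, if_neg h, ← EncA_emp W n Φ s q]
  have h1 : ∀ s, ∑ v ∈ K s \ Ex s, Real.log (Nat.card {u // tgt s (Φ u) = src s (Φ v)}) ≤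
      (K s \ Ex s).card * Real.log n -
      n * (∑ q : Qi W P s, if TT dir s q then 0 else Real.negMulLog ((Nat.card {u // tgt s (Φ u) = q} : ℝ) / n)) +
      2 * (({u | ¬ TT dir s (tgt s (Φ u))}.ncard : ℝ) - (K s \ Ex s).card) * Real.log N + n := by
    intro s
    have h := EncA_num W dir n hn (X s) Φ s (K s \ Ex s) (fun v hv => by
      rw [Finset.mem_sdiff] at hv
      exact hK s v hv.1 hv.2) N hN (hq s)
    rw [EncA_cnt W dir n Φ s] at h
    exact h
  have hlog : 0 ≤ Real.log n := Real.log_nonneg (by exact_mod_cast hn)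
  have hlogN : 0 ≤ Real.log N := Real.log_nonneg (by exact_mod_cast (by omega : 1 ≤ N))
  have hcard : ∀ s, ((K s \ Ex s).card : ℝ) + ((K s ∩ Ex s).card : ℝ) = (K s).card := by
    intro s
    exact_mod_cast Finset.card_sdiff_add_card_inter (K s) (Ex s)
  have hn2 : (∑ s : Lt k, (n : ℝ)) = ((k : ℝ) + 2) * n := by
    rw [Finset.sum_const, nsmul_eq_mul, Finset.card_univ]
    congr 1
    simp [Fintype.card_option]
    ring
  calc ∑ s, (∑ v ∈ K s \ Ex s, Real.log (Nat.card {u // tgt s (Φ u) = src s (Φ v)}) +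
        ((K s ∩ Ex s).card : ℝ) * Real.log n)
      ≤ ∑ s, (((K s).card : ℝ) * Real.log n -
        n * (∑ q : Qi W P s, if TT dir s q then 0 else Real.negMulLog ((Nat.card {u // tgt s (Φ u) = q} : ℝ) / n)) +
        2 * Real.log N * (({u | ¬ TT dir s (tgt s (Φ u))}.ncard : ℝ) - (K s \ Ex s).card) + n) := by
        refine Finset.sum_le_sum fun s _ => ?_
        have := h1 s
        have h2 := hcard s
        rw [← h2]
        linarith
    _ = (∑ s, ((K s).card : ℝ)) * Real.log n - n * Gn W dir (emp Φ) +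
        2 * Real.log N * (∑ s, ({u | ¬ TT dir s (tgt s (Φ u))}.ncard : ℝ) - ∑ s, ((K s \ Ex s).card : ℝ)) +
        ((k : ℝ) + 2) * n := by
        rw [hG, Finset.sum_add_distrib, Finset.sum_add_distrib, Finset.sum_sub_distrib, Finset.sum_mul,
          ← Finset.mul_sum, ← Finset.mul_sum, Finset.sum_sub_distrib, hn2]
    _ ≤ ((k + 1) * n + c + 4 * δ) * Real.log n + ((k : ℝ) + 2) * n + 2 * Real.log N * (ρ + 5 * δ) -
        n * Gn W dir (emp Φ) := by
        have e1 := mul_le_mul_of_nonneg_right h3 hlog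
        have e2 : 2 * Real.log N * (∑ s, ({u | ¬ TT dir s (tgt s (Φ u))}.ncard : ℝ) - ∑ s, ((K s \ Ex s).card : ℝ)) ≤
            2 * Real.log N * (ρ + 5 * δ) := by
          refine mul_le_mul_of_nonneg_left ?_ (by linarith)
          linarith
        linarith

end H33.BO
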