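import Pool.Agent.H33.BO.Sets
import Pool.Agent.H33.BO.Cnt1
import Pool.Agent.H33.BO.EncA
import Pool.Agent.H31.BE.EntD

/-! # BO.Enc : the entropy of a random structure given its bag patterns (paper 2.5)

NOTATION: `Φ ω v j := φ ω (ac (X ω) (bgw W j) v)`, `n`, `δ ω := (defs W (X ω)).ncard`, `R ω := #roots`.
PROOF. For every `ω` choose `K ω`, `Ex ω` from `sets_ex` (with `V = Fin n`). Random variables (all finite valued on a finite discrete space, so `Fm` is trivial: `MeasurableSet.of_discrete`): `S ω := (K ω, Ex ω, defs W (X ω))` with values in `(Lt k → Finset (Fin n)) × (Lt k → Finset (Fin n)) × Set (Fin n)`,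
`A ω s v := if v ∈ K ω s then X ω s v else v`. If `S ω = S ω'` and `A ω = A ω'` then `X ω = X ω'` by the first part of `sets_ex`; so `X = ψ (S, A)` for a function `ψ` (choice) and `H(X|Φ) ≤ H(A|(S, Φ)) + H(S|Φ) ≤ H(A | (S, Φ)) + log card` (`entc_comp_left`, `entc_chain`, `entc_le_ent`, `ent_le_log_card`);
card of the values of `S` is `2 ^ ((2 (k+2) + 1) n)`.
`entc_le_count` with `N (S, Φ) := max 1 (∏ s, (∏ v ∈ K s \ Ex s, m s (src s (Φ v))) * n ^ (K s ∩ Ex s).card)`, `m s q := #{u | tgt s (Φ u) = q}` (`cnt1`; the second part of `sets_ex`; the set of the possible values of `A` given `(S, Φ)` is contained in the set of `cnt1`). All factors are at least 1 at an actual `ω` (`X ω s v` is in the set of `m`), so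
`log N = ∑ s, (∑ v ∈ K s \ Ex s, log (m s (src s (Φ v))) + (K s ∩ Ex s).card * log n)`. and `encA` (with `c := cyc`, `δ := (defs ..).ncard`, `ρ := #roots`; parts 2, 3, 4 of `sets_ex`) bounds `log N`. Integrate (`integral_mono`, everything is integrable on a finite space: `Integrable.of_finite`). -/

set_option autoImplicit false

open MeasureTheory

namespace H33.BO

private lemma enc_card (k n : ℕ) :
    Real.log (Nat.card ((Lt k → Finset (Fin n)) × (Lt k → Finset (Fin n)) × Set (Fin n))) =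
      (2 * ((k : ℝ) + 2) + 1) * n * Real.log 2 := by
  have h1 : Nat.card ((Lt k → Finset (Fin n)) × (Lt k → Finset (Fin n)) × Set (Fin n)) =
      2 ^ ((2 * (k + 2) + 1) * n) := by
    rw [Nat.card_eq_fintype_card, Fintype.card_prod, Fintype.card_prod, Fintype.card_fun,
      Fintype.card_finset, Fintype.card_set, Fintype.card_fin, Fintype.card_option,
      Fintype.card_option, Fintype.card_fin, ← pow_mul, ← pow_add, ← pow_add]
    congr 1
    ring
  rw [h1]
  push_cast
  rw [Real.log_pow]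
  push_cast
  ring

/-- the number of the matchings -/
private noncomputable def encN {k : ℕ} (W : Wd k) (P : Type) (n : ℕ)
    (b : ((Lt k → Finset (Fin n)) × (Lt k → Finset (Fin n)) × Set (Fin n)) ×
      (Fin n → Bg k W.length → P)) : ℕ :=
  max 1 (∏ s, ((∏ v ∈ b.1.1 s \ b.1.2.1 s, Nat.card {u // tgt s (b.2 u) = src s (b.2 v)}) *
    n ^ (b.1.1 s ∩ b.1.2.1 s).card))

theorem enc {k : ℕ} (W : Wd k) {P : Type} [Finite P] (dir : P → Option Bool) {Ω : Type} [Finite Ω]
    [MeasurableSpace Ω] [DiscreteMeasurableSpace Ω] (Q : Measure Ω) [IsProbabilityMeasure Q] (n : ℕ) (hn : 1 ≤ n)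
    (X : Ω → Lt k → Equiv.Perm (Fin n)) (φ : Ω → Fin n → P) (dpt : Ω → Fin n → ℕ)
    (hdpt : ∀ ω w c, dir (φ ω w) = some c → dpt ω (ac (X ω) (nn W c) w) < dpt ω w)
    (N : ℕ) (hN : 3 ≤ N) (hq : ∀ s, Nat.card (Qi W P s) ≤ N) :
    H31.BE.entc Q X (fun ω v => fun j : Bg k W.length => φ ω (ac (X ω) (bgw W j) v)) ≤
      (2 * ((k : ℝ) + 2) + 1) * n * Real.log 2 +
      (((k : ℝ) + 1) * n + ∫ ω, ((cyc (ac (X ω) (nn W true)) : ℝ) + 4 * (defs W (X ω)).ncard) ∂Q) * Real.log n +
      ((k : ℝ) + 2) * n +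
      2 * Real.log N * ∫ ω, (({w | dir (φ ω w) = none}.ncard : ℝ) + 5 * (defs W (X ω)).ncard) ∂Q -
      n * ∫ ω, Gn W dir (emp (fun v => fun j : Bg k W.length => φ ω (ac (X ω) (bgw W j) v))) ∂Q := by
  classical
  set Φ : Ω → Fin n → Bg k W.length → P :=
    fun ω v => fun j : Bg k W.length => φ ω (ac (X ω) (bgw W j) v) with hΦ
  choose K Ex h1 h2 h3 h4 using fun ω => sets_ex W (X ω) dir (φ ω) (dpt ω) (hdpt ω)
  have hFm : ∀ {α : Type} (f : Ω → α), H31.BE.Fm f := fun f a => MeasurableSet.of_discrete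
  have hI : ∀ f : Ω → ℝ, Integrable f Q := fun f => Integrable.of_finite
  set S : Ω → (Lt k → Finset (Fin n)) × (Lt k → Finset (Fin n)) × Set (Fin n) :=
    fun ω => (K ω, Ex ω, defs W (X ω)) with hS
  set A : Ω → Lt k → Fin n → Fin n := fun ω s v => if v ∈ K ω s then X ω s v else v with hA
  have hdet : ∀ ω ω', (A ω, S ω) = (A ω', S ω') → X ω = X ω' := by
    intro ω ω' h
    have e1 : A ω = A ω' := congrArg Prod.fst h
    have e2 : S ω = S ω' := congrArg Prod.snd h
    have e3 : K ω = K ω' := congrArg Prod.fst e2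
    have e4 : defs W (X ω) = defs W (X ω') := congrArg (fun p => p.2.2) e2
    refine h1 ω (X ω') e4 fun s v hv => ?_
    have e5 := congrFun (congrFun e1 s) v
    simp only [hA] at e5
    rw [if_pos hv, if_pos (e3 ▸ hv)] at e5
    exact e5
  set ψ : (Lt k → Fin n → Fin n) × ((Lt k → Finset (Fin n)) × (Lt k → Finset (Fin n)) ×
      Set (Fin n)) → (Lt k → Equiv.Perm (Fin n)) :=
    fun p => if h : ∃ ω, (A ω, S ω) = p then X h.choose else fun _ => 1 with hψ
  have hψX : X = fun ω => ψ (A ω, S ω) := by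
    funext ω
    have h : ∃ ω', (A ω', S ω') = (A ω, S ω) := ⟨ω, rfl⟩
    simp only [hψ]
    rw [dif_pos h]
    exact (hdet _ _ h.choose_spec).symm
  have s1 : H31.BE.entc Q X Φ ≤ H31.BE.entc Q (fun ω => (A ω, S ω)) Φ := by
    have h := H31.BE.entc_comp_left (P := Q) (hFm fun ω => (A ω, S ω)) (hFm Φ) ψ
    rw [← hψX] at h
    exact h
  have s2 := H31.BE.entc_chain (P := Q) (hFm A) (hFm S) (hFm Φ)
  have s3 := H31.BE.entc_le_ent (P := Q) (hFm S) (hFm Φ)
  have s4 := H31.BE.ent_le_log_card (P := Q) S (hFm S)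
  rw [enc_card] at s4
  have s5 := H31.BE.entc_le_count (P := Q) (hFm A) (hFm fun ω => (S ω, Φ ω)) (encN W P n)
    (fun b => le_max_left _ _) (by
      intro b
      refine le_trans (Set.ncard_le_ncard (t := {A' : Lt k → Fin n → Fin n |
        (∀ s v, v ∉ b.1.1 s → A' s v = v) ∧ ∀ s, ∀ v ∈ b.1.1 s, v ∉ b.1.2.1 s →
          tgt s (b.2 (A' s v)) = src s (b.2 v)}) ?_ (Set.toFinite _)) ?_
      · intro a ha
        have ha' : 0 < Q.real (A ⁻¹' {a} ∩ (fun ω => (S ω, Φ ω)) ⁻¹' {b}) := ha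
        have hne : (A ⁻¹' {a} ∩ (fun ω => (S ω, Φ ω)) ⁻¹' {b}).Nonempty := by
          by_contra hcon
          rw [Set.not_nonempty_iff_eq_empty] at hcon
          rw [hcon] at ha'
          simp at ha'
        obtain ⟨ω, hω1, hω2⟩ := hne
        have e1 : A ω = a := hω1
        have e2 : (S ω, Φ ω) = b := hω2
        subst e1
        subst e2
        refine ⟨fun s v hv => ?_, fun s v hv hx => ?_⟩
        · have hv' : v ∉ K ω s := hv
          simp only [hA]
          rw [if_neg hv']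
        · have hv' : v ∈ K ω s := hv
          have hx' : v ∉ Ex ω s := hx
          have e3 : A ω s v = X ω s v := by
            simp only [hA]
            rw [if_pos hv']
          rw [e3]
          exact (h2 ω s v hv' hx').2
      · have h := cnt1 (Q := Qi W P) (fun s => src s) (fun s => tgt s) b.2 b.1.1 b.1.2.1
        rw [Fintype.card_fin] at h
        exact h.trans (le_max_right _ _))
  -- the pointwise bound
  set c : Ω → ℝ := fun ω => (cyc (ac (X ω) (nn W true)) : ℝ) with hc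
  set δ : Ω → ℝ := fun ω => ((defs W (X ω)).ncard : ℝ) with hδ
  set ρ : Ω → ℝ := fun ω => ({w | dir (φ ω w) = none}.ncard : ℝ) with hρ
  have s6 : ∀ ω, Real.log (encN W P n (S ω, Φ ω)) ≤
      ((k + 1) * n + c ω + 4 * δ ω) * Real.log n + ((k : ℝ) + 2) * n +
        2 * Real.log N * (ρ ω + 5 * δ ω) - n * Gn W dir (emp (Φ ω)) := by
    intro ω
    have hm : ∀ s, ∀ v ∈ K ω s \ Ex ω s,
        1 ≤ Nat.card {u // tgt s (Φ ω u) = src s (Φ ω v)} := by
      intro s v hv
      obtain ⟨hv1, hv2⟩ := Finset.mem_sdiff.1 hv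
      have : Nonempty {u // tgt s (Φ ω u) = src s (Φ ω v)} := ⟨⟨X ω s v, (h2 ω s v hv1 hv2).2⟩⟩
      exact Nat.card_pos
    have e1 : encN W P n (S ω, Φ ω) = ∏ s, ((∏ v ∈ K ω s \ Ex ω s,
        Nat.card {u // tgt s (Φ ω u) = src s (Φ ω v)}) * n ^ (K ω s ∩ Ex ω s).card) := by
      refine max_eq_right ?_
      refine Finset.one_le_prod' fun s _ => ?_
      exact Nat.mul_pos (Finset.prod_pos fun v hv => hm s v hv) (Nat.pow_pos (by omega))
    have e2 : Real.log (encN W P n (S ω, Φ ω)) = ∑ s, (∑ v ∈ K ω s \ Ex ω s,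
        Real.log (Nat.card {u // tgt s (Φ ω u) = src s (Φ ω v)}) +
          ((K ω s ∩ Ex ω s).card : ℝ) * Real.log n) := by
      have hn0 : ((n : ℕ) : ℝ) ≠ 0 := by
        have : n ≠ 0 := by omega
        exact_mod_cast this
      have hp : ∀ s, (∏ v ∈ K ω s \ Ex ω s,
          ((Nat.card {u // tgt s (Φ ω u) = src s (Φ ω v)} : ℕ) : ℝ)) ≠ 0 := by
        intro s
        refine Finset.prod_ne_zero_iff.2 fun v hv => ?_
        have := hm s v hv
        have h0 : Nat.card {u // tgt s (Φ ω u) = src s (Φ ω v)} ≠ 0 := by omega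
        exact_mod_cast h0
      rw [e1]
      push_cast
      rw [Real.log_prod fun s _ => mul_ne_zero (hp s) (pow_ne_zero _ hn0)]
      refine Finset.sum_congr rfl fun s _ => ?_
      rw [Real.log_mul (hp s) (pow_ne_zero _ hn0), Real.log_pow, Real.log_prod]
      intro v hv
      have := hm s v hv
      have h0 : Nat.card {u // tgt s (Φ ω u) = src s (Φ ω v)} ≠ 0 := by omega
      exact_mod_cast h0
    rw [e2]
    refine encA W dir n hn (X ω) (Φ ω) (K ω) (Ex ω) (c ω) (δ ω) (ρ ω) (fun s v hv hx =>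
      h2 ω s v hv hx) ?_ ?_ N hN hq
    · have h := h3 ω
      rw [Fintype.card_fin] at h
      simp only [hc, hδ]
      exact_mod_cast h
    · have h := h4 ω
      simp only [hρ, hδ]
      exact_mod_cast h
  have s7 : ∫ ω, Real.log (encN W P n (S ω, Φ ω)) ∂Q ≤
      ∫ ω, ((((k : ℝ) + 1) * n + (c ω + 4 * δ ω)) * Real.log n + ((k : ℝ) + 2) * n +
        2 * Real.log N * (ρ ω + 5 * δ ω) - n * Gn W dir (emp (Φ ω))) ∂Q := by
    refine integral_mono (hI _) (hI _) fun ω => ?_
    have := s6 ω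
    rw [add_assoc (((k : ℝ) + 1) * n) (c ω) (4 * δ ω)] at this
    exact this
  have s8 : ∫ ω, ((((k : ℝ) + 1) * n + (c ω + 4 * δ ω)) * Real.log n + ((k : ℝ) + 2) * n +
        2 * Real.log N * (ρ ω + 5 * δ ω) - n * Gn W dir (emp (Φ ω))) ∂Q =
      (((k : ℝ) + 1) * n + ∫ ω, (c ω + 4 * δ ω) ∂Q) * Real.log n + ((k : ℝ) + 2) * n +
        2 * Real.log N * ∫ ω, (ρ ω + 5 * δ ω) ∂Q - n * ∫ ω, Gn W dir (emp (Φ ω)) ∂Q := by
    have e1 : ∫ ω, 2 * Real.log N * (ρ ω + 5 * δ ω) ∂Q =
        2 * Real.log N * ∫ ω, (ρ ω + 5 * δ ω) ∂Q := integral_const_mul _ _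
    have e2 : ∫ ω, (n : ℝ) * Gn W dir (emp (Φ ω)) ∂Q =
        n * ∫ ω, Gn W dir (emp (Φ ω)) ∂Q := integral_const_mul _ _
    have e3 : ∫ ω, (((k : ℝ) + 1) * n + (c ω + 4 * δ ω)) * Real.log n ∂Q =
        (((k : ℝ) + 1) * n + ∫ ω, (c ω + 4 * δ ω) ∂Q) * Real.log n := by
      rw [integral_mul_const, integral_add (hI _) (hI _), integral_const]
      simp
    have e4 : ∫ _ : Ω, ((k : ℝ) + 2) * n ∂Q = ((k : ℝ) + 2) * n := by simp
    rw [integral_sub (hI _) (hI _), integral_add (hI _) (hI _), integral_add (hI _) (hI _),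
      e1, e2, e3, e4]
  rw [s8] at s7
  linarith

end H33.BO
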