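import Pool.Agent.H33.BO.Cons

/-! # BO.EvsA : evaluation of the decoded maps

PROOF. Induction on `w`. `[]`: `f = 1`. `p :: w`: `f1` for `w`, `u = evf w v = ac f1 v`, `walk L t (w.map ll) = lift f1`, `t (lift f1) = lb (lift f1 • y v) = lb (y u)` by the last part; `sg .. p u = ac (rp c) u` with `c = L.c (ll W g p) (lb (y u)) = L.c _ (t (walk ..))`, `c ∈ ball L.C` (`L.hc`), so `f := rp c * f1`: `lift f = c * walk .. = walk L t (ll p :: ..)`, `norm ≤ L.C + L.C * w.length`.
Last part for `f`: `cons` (its hypothesis: all `f'` with `f'.norm ≤ f.norm ≤ m`: `hv`). -/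

set_option autoImplicit false

open MeasureTheory H31.BE

namespace H33.BO

theorem evs {k : ℕ} {G Y Λ V : Type} [Group G] [DecidableEq G] [MulAction G Y] (W : Wd k) (g : Lt k → G)
    (L : Lab (SS W g) Λ) (lb : Y → Λ) (R : ℕ) (d : Y → Option Bool) (r : ℕ)
    (om : V → Bg k W.length → PtR W g Λ R r) (y : V → Y)
    (hom : ∀ v, om v = bp W g lb R d r (y v)) (X : Lt k → Equiv.Perm V) (rp : G → Fg k)
    (hrp : ∀ m h, h ∈ ball (SS W g) m → m ≤ R → (rp h).norm ≤ m ∧ FreeGroup.lift (gg W g) (rp h) = h)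
    (v : V) (w : List (Lt k × Bool)) (m : ℕ) (hw : L.C * w.length ≤ m) (hm : m ≤ R) (hLR : L.C ≤ R)
    (hv : ∀ f' : Fg k, f'.norm ≤ m → ac (XX W X) f' v ∉ MM W pd ptl om X) :
    ∃ f : Fg k, f.norm ≤ L.C * w.length ∧
      FreeGroup.lift (gg W g) f = walk L (fun h => lb (h • y v)) (w.map (ll W g)) ∧
      evf (sg W g L rp (fun v => lb (y v)) X) w v = ac (XX W X) f v ∧
      lb (walk L (fun h => lb (h • y v)) (w.map (ll W g)) • y v) =
        lb (y (evf (sg W g L rp (fun v => lb (y v)) X) w v)) := by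
  induction w with
  | nil =>
    refine ⟨1, ?_, ?_, ?_, ?_⟩
    · rw [FreeGroup.norm_one]
      exact Nat.zero_le _
    · rw [map_one]
      rfl
    · rw [map_one]
      rfl
    · show lb ((1 : G) • y v) = lb (y v)
      rw [one_smul]
  | cons p w ih =>
    have hlen : (p :: w).length = w.length + 1 := rfl
    rw [hlen] at hw ⊢
    have hle : L.C * w.length ≤ L.C * (w.length + 1) := Nat.mul_le_mul_left _ (Nat.le_succ _)
    obtain ⟨f1, h1, h2, h3, h4⟩ := ih (hle.trans hw)
    set g1 := walk L (fun h => lb (h • y v)) (w.map (ll W g)) with hg1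
    set c := L.c (ll W g p) (lb (g1 • y v)) with hc
    have hcb : c ∈ ball (SS W g) L.C := L.hc _ _
    obtain ⟨hn, hl⟩ := hrp L.C c hcb hLR
    have hnorm : (rp c * f1).norm ≤ L.C * (w.length + 1) := by
      refine (FreeGroup.norm_mul_le _ _).trans ?_
      rw [Nat.mul_add, Nat.mul_one, Nat.add_comm]
      exact Nat.add_le_add h1 hn
    have hwalk : walk L (fun h => lb (h • y v)) ((p :: w).map (ll W g)) = c * g1 := rfl
    have hlift : FreeGroup.lift (gg W g) (rp c * f1) = c * g1 := by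
      rw [map_mul, hl, h2]
    have hev : evf (sg W g L rp (fun v => lb (y v)) X) (p :: w) v = ac (XX W X) (rp c * f1) v := by
      show sg W g L rp (fun v => lb (y v)) X p (evf (sg W g L rp (fun v => lb (y v)) X) w v) = _
      unfold sg
      rw [map_mul, Equiv.Perm.mul_apply, ← h3]
      have h5 : lb (y (evf (sg W g L rp (fun v => lb (y v)) X) w v)) = lb (g1 • y v) := h4.symm
      show ac (XX W X) (rp (L.c (ll W g p) (lb (y (evf (sg W g L rp (fun v => lb (y v)) X) w v)))))
        (evf (sg W g L rp (fun v => lb (y v)) X) w v) = _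
      rw [h5]
    refine ⟨rp c * f1, hnorm, ?_, hev, ?_⟩
    · rw [hwalk, hlift]
    · rw [hwalk, ← hlift, hev]
      exact cons W g lb R d r om y hom X v (rp c * f1) (hnorm.trans (hw.trans hm))
        fun f' hf' => hv f' (hf'.trans (hnorm.trans hw))

end H33.BO
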