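import Pool.Agent.H33.BO.Defs2
import Pool.Agent.H31.BE.EntB
import Pool.Agent.H31.BE.EntF

/-! # BO.FmA : measurability

PROOF. `y ↦ tt g q y w = q ((lift g w • y) 1) = q (y ((lift g w)⁻¹ * 1))` is `Fm` (`measurable_eval`, `hq`). `fm_loc`: `F (tt g q y)` is a function of the finite family `(tt g q y w)`, `w ∈ Z` (`Fm.pi`, `Fm.comp`): for `c : Z → A` take the configuration extended by any value (if `A` is empty there is no `y`; `tt g q y 1 : A`). `fm_bpat`: induction on `r` for `pat` (values in a finite type: as a function with values in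
`Pt Λ r`, or `Fm` of a list valued function: the preimage of a list `p :: l` is `{(β, d) = p} ∩ {pat r (N c z) = l}`), `measurable` of `y ↦ ga g f y`: `hG`. `marg_bpat` see module SupA. -/

set_option autoImplicit false

open MeasureTheory H31.BE

namespace H33.BO

theorem fm_loc {k : ℕ} {G : Type} [Group G] (g : Lt k → G) {A B : Type} [Finite A] (q : ℝ → A)
    (hq : Fm q) (Z : Finset (Fg k)) (F : (Fg k → A) → B) (hF : Loc Z F) :
    Fm (fun y : Bsh G => F (tt g q y)) := by
  classical
  have h1 : Fm (fun (y : Bsh G) (w : ↥Z) => tt g q y w) := by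
    apply Fm.pi
    intro w
    have hm : Measurable (fun y : Bsh G => (FreeGroup.lift g (w : Fg k) • y) 1) :=
      measurable_eval ((FreeGroup.lift g (w : Fg k))⁻¹ * 1)
    exact Fm.comp_measurable hm hq
  have h2 := h1.comp (fun c : ↥Z → A => F (fun w => if h : w ∈ Z then c ⟨w, h⟩ else q 0))
  have h3 : (fun y : Bsh G => F (tt g q y)) =
      fun y : Bsh G => F (fun w => if h : w ∈ Z then (fun w' : ↥Z => tt g q y w') ⟨w, h⟩ else q 0) := by
    funext y
    apply hF
    intro w hw
    simp [hw]
  rw [h3]
  exact h2

private theorem fma_pat {Y Λ : Type} [MeasurableSpace Y] (N : Bool → Y → Y) (hN : ∀ c, Measurable (N c))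
    (β : Y → Λ) (hβ : Fm β) (d : Y → Option Bool) (hd : Fm d) (r : ℕ) : Fm (pat N β d r) := by
  induction r with
  | zero =>
    have : pat N β d 0 = fun _ => [] := by
      funext z
      rfl
    rw [this]
    exact Fm.const _
  | succ r ih =>
    intro l
    rcases l with _ | ⟨⟨b, o⟩, l⟩
    · have : pat N β d (r + 1) ⁻¹' {[]} = ∅ := by
        ext z
        simp [pat]
      rw [this]
      exact MeasurableSet.empty
    · rcases o with _ | c
      · by_cases hl : l = []
        · have : pat N β d (r + 1) ⁻¹' {(b, none) :: l} = β ⁻¹' {b} ∩ d ⁻¹' {none} := by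
            ext z
            simp only [Set.mem_preimage, Set.mem_singleton_iff, Set.mem_inter_iff, pat, List.cons.injEq,
              Prod.mk.injEq]
            constructor
            · rintro ⟨h, -⟩
              exact h
            · rintro ⟨h1, h2⟩
              refine ⟨⟨h1, h2⟩, ?_⟩
              rw [h2, hl]
          rw [this]
          exact (hβ b).inter (hd none)
        · have : pat N β d (r + 1) ⁻¹' {(b, none) :: l} = ∅ := by
            ext z
            simp only [Set.mem_preimage, Set.mem_singleton_iff, pat, List.cons.injEq,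
              Prod.mk.injEq, Set.mem_empty_iff_false, iff_false]
            rintro ⟨⟨-, h2⟩, h3⟩
            rw [h2] at h3
            exact hl h3.symm
          rw [this]
          exact MeasurableSet.empty
      · have : pat N β d (r + 1) ⁻¹' {(b, some c) :: l} =
            β ⁻¹' {b} ∩ d ⁻¹' {some c} ∩ N c ⁻¹' (pat N β d r ⁻¹' {l}) := by
          ext z
          simp only [Set.mem_preimage, Set.mem_singleton_iff, Set.mem_inter_iff, pat, List.cons.injEq,
            Prod.mk.injEq]
          constructor
          · rintro ⟨h, h3⟩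
            refine ⟨h, ?_⟩
            rw [h.2] at h3
            exact h3
          · rintro ⟨h, h3⟩
            refine ⟨h, ?_⟩
            rw [h.2]
            exact h3
        rw [this]
        exact ((hβ b).inter (hd (some c))).inter (hN c (ih l))

theorem fm_bpat {k : ℕ} {G Y : Type} [Group G] [MulAction G Y] [MeasurableSpace Y] (W : Wd k) (g : Lt k → G)
    (hG : ∀ h : G, Measurable (fun y : Y => h • y)) {Λ : Type} [Finite Λ] (β : Y → Λ) (hβ : Fm β)
    (d : Y → Option Bool) (hd : Fm d) (r : ℕ) : Fm (bpat W (ga g) β d r) := by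
  have h1 : ∀ f : Fg k, Measurable (fun y : Y => ga g f y) := fun f => hG (FreeGroup.lift g f)
  apply Fm.pi (f := fun (j : Bg k W.length) (y : Y) => bpat W (ga g) β d r y j)
  intro j p
  have h2 := (fma_pat (fun c => ga g (nn W c)) (fun c => h1 (nn W c)) β hβ d hd r).comp_measurable (h1 (bgw W j))
  have h3 : (fun y : Y => bpat W (ga g) β d r y j) ⁻¹' {p} =
      (fun y : Y => pat (fun c => ga g (nn W c)) β d r (ga g (bgw W j) y)) ⁻¹' {p.1} := by
    ext y
    simp only [Set.mem_preimage, Set.mem_singleton_iff, bpat]
    constructor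
    · intro h
      rw [← h]
    · intro h
      exact Subtype.ext h
  rw [h3]
  exact h2 p.1

end H33.BO
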