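import Pool.Agent.H33.BO.RfA
import Pool.Agent.H33.BO.Defs

/-! # BO.NfB : near fixed points (paper (NF))

PROOF. If `v = F (i, t)` and `h v = F (i, t')` then `h v = P^(t' - t) v` (integer power, `|t' - t| < ℓ`; induction from `segs`), i.e. `P^(-s) h v = v`, `s = t' - t`. With `P = lift σ p`, `h = lift σ u`: `lift σ (p^(-s) * u) v = v` and `p^(-s) * u ≠ 1` since `u ∉ zpowers p`, `norm ≤ ℓ * p.norm + u.norm`. So `(nfS F h).ncard ≤ ∑ s ∈ (-ℓ, ℓ), #{v | lift σ (p^(-s) u) v = v}` and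
`rf` gives the sum over all `σ` (the left side sums only over `gd`): at most `2 ℓ * 2 (u.norm + ℓ p.norm)^2 * card`. -/

set_option autoImplicit false

open MeasureTheory

namespace H33.BO

private theorem NfB_seg {V : Type} {m ℓ : ℕ} {P : Equiv.Perm V} {f : Fin m × Fin ℓ → V}
    (h : segs P f) (i : Fin m) (t : Fin ℓ) (k : ℕ) (hk : (t : ℕ) + k < ℓ) :
    (P ^ k) (f (i, t)) = f (i, ⟨t + k, hk⟩) := by
  induction k with
  | zero => simp
  | succ k ih =>
    rw [pow_succ', Equiv.Perm.mul_apply, ih (by omega)]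
    exact h.2 i ⟨t + k, by omega⟩ (by simp only; omega)

private theorem NfB_pow {T : Type} [DecidableEq T] (p : FreeGroup T) (k : ℕ) :
    (p ^ k).norm ≤ k * p.norm := by
  induction k with
  | zero => simp
  | succ k ih =>
    rw [pow_succ]
    calc (p ^ k * p).norm ≤ (p ^ k).norm + p.norm := FreeGroup.norm_mul_le _ _
      _ ≤ k * p.norm + p.norm := by omega
      _ = (k + 1) * p.norm := by ring

private theorem NfB_zpow {T : Type} [DecidableEq T] (p : FreeGroup T) (s : ℤ) (ℓ : ℕ)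
    (hs : s.natAbs ≤ ℓ) : (p ^ s).norm ≤ ℓ * p.norm := by
  have h : (p ^ s).norm ≤ s.natAbs * p.norm := by
    rcases Int.natAbs_eq s with h | h
    · rw [h, zpow_natCast, Int.natAbs_natCast]
      exact NfB_pow p _
    · rw [h, zpow_neg, zpow_natCast, FreeGroup.norm_inv_eq, Int.natAbs_neg, Int.natAbs_natCast]
      exact NfB_pow p _
  exact h.trans (Nat.mul_le_mul_right _ hs)

private theorem NfB_mem {V : Type} {m ℓ : ℕ} {P h : Equiv.Perm V} {f : Fin m × Fin ℓ → V}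
    (hs : segs P f) {v : V} (hv : v ∈ nfS f h) :
    ∃ s ∈ Finset.Ioo (-(ℓ : ℤ)) ℓ, (P ^ (-s) * h) v = v := by
  obtain ⟨i, t, t', h1, h2⟩ := hv
  have ht := t.2
  have ht' := t'.2
  rcases le_total (t : ℕ) t' with hle | hle
  · obtain ⟨k, hk⟩ := Nat.exists_eq_add_of_le hle
    refine ⟨(k : ℤ), ?_, ?_⟩
    · rw [Finset.mem_Ioo]
      constructor <;> omega
    · have h3 := NfB_seg hs i t k (by omega)
      have h4 : (⟨(t : ℕ) + k, by omega⟩ : Fin ℓ) = t' := Fin.ext hk.symm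
      rw [h4, ← h1, ← h2] at h3
      rw [Equiv.Perm.mul_apply, ← h3, zpow_neg, zpow_natCast]
      exact Equiv.symm_apply_apply (P ^ k) v
  · obtain ⟨k, hk⟩ := Nat.exists_eq_add_of_le hle
    refine ⟨-(k : ℤ), ?_, ?_⟩
    · rw [Finset.mem_Ioo]
      constructor <;> omega
    · have h3 := NfB_seg hs i t' k (by omega)
      have h4 : (⟨(t' : ℕ) + k, by omega⟩ : Fin ℓ) = t := Fin.ext hk.symm
      rw [h4, ← h1, ← h2] at h3
      rw [Equiv.Perm.mul_apply, neg_neg, zpow_natCast]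
      exact h3

theorem nf_bd {T : Type} [Fintype T] [DecidableEq T] (u p : FreeGroup T) (hu : u ∉ Subgroup.zpowers p)
    (n m ℓ : ℕ) (hn : 2 * (u.norm + ℓ * p.norm) ≤ n) (gd : Finset (T → Equiv.Perm (Fin n)))
    (F : (T → Equiv.Perm (Fin n)) → Fin m × Fin ℓ → Fin n) (hF : ∀ σ ∈ gd, segs (FreeGroup.lift σ p) (F σ)) :
    ∑ σ ∈ gd, ((nfS (F σ) (FreeGroup.lift σ u)).ncard : ℝ) ≤
      4 * ℓ * ((u.norm : ℝ) + ℓ * p.norm) ^ 2 * Nat.card (T → Equiv.Perm (Fin n)) := by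
  classical
  set I := Finset.Ioo (-(ℓ : ℤ)) ℓ with hI
  set N := u.norm + ℓ * p.norm with hN
  have hne : ∀ s : ℤ, p ^ (-s) * u ≠ 1 := by
    intro s hs
    apply hu
    rw [Subgroup.mem_zpowers_iff]
    refine ⟨s, ?_⟩
    rw [zpow_neg] at hs
    exact (inv_mul_eq_one.1 hs)
  have hnorm : ∀ s ∈ I, (p ^ (-s) * u).norm ≤ N := by
    intro s hs
    rw [hI, Finset.mem_Ioo] at hs
    refine (FreeGroup.norm_mul_le _ _).trans ?_
    have := NfB_zpow p (-s) ℓ (by omega)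
    omega
  have h1 : ∀ σ ∈ gd, ((nfS (F σ) (FreeGroup.lift σ u)).ncard : ℝ) ≤
      ∑ s ∈ I, ((Finset.univ.filter fun v => FreeGroup.lift σ (p ^ (-s) * u) v = v).card : ℝ) := by
    intro σ hσ
    have h2 : nfS (F σ) (FreeGroup.lift σ u) ⊆
        ((I.biUnion fun s => Finset.univ.filter fun v => FreeGroup.lift σ (p ^ (-s) * u) v = v :
          Finset (Fin n)) : Set (Fin n)) := by
      intro v hv
      obtain ⟨s, hs, hsv⟩ := NfB_mem (hF σ hσ) hv
      rw [Finset.mem_coe, Finset.mem_biUnion]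
      refine ⟨s, hs, ?_⟩
      rw [Finset.mem_filter, map_mul, map_zpow]
      exact ⟨Finset.mem_univ _, hsv⟩
    have h3 := Set.ncard_le_ncard h2 (Finset.finite_toSet _)
    rw [Set.ncard_coe_finset] at h3
    have h4 := h3.trans Finset.card_biUnion_le
    exact_mod_cast h4
  have hcard : (I.card : ℝ) ≤ 2 * ℓ := by
    rw [hI, Int.card_Ioo]
    have : ((ℓ : ℤ) - -(ℓ : ℤ) - 1).toNat ≤ 2 * ℓ := by omega
    exact_mod_cast this
  have hN0 : ((N : ℕ) : ℝ) = (u.norm : ℝ) + ℓ * p.norm := by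
    rw [hN]
    push_cast
    rfl
  rw [← hN0]
  have hc0 : (0 : ℝ) ≤ (Nat.card (T → Equiv.Perm (Fin n)) : ℝ) := Nat.cast_nonneg _
  calc ∑ σ ∈ gd, ((nfS (F σ) (FreeGroup.lift σ u)).ncard : ℝ)
      ≤ ∑ σ ∈ gd, ∑ s ∈ I,
          ((Finset.univ.filter fun v => FreeGroup.lift σ (p ^ (-s) * u) v = v).card : ℝ) :=
        Finset.sum_le_sum h1
    _ ≤ ∑ σ : T → Equiv.Perm (Fin n), ∑ s ∈ I,
          ((Finset.univ.filter fun v => FreeGroup.lift σ (p ^ (-s) * u) v = v).card : ℝ) :=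
        Finset.sum_le_sum_of_subset_of_nonneg (Finset.subset_univ _) fun _ _ _ =>
          Finset.sum_nonneg fun _ _ => Nat.cast_nonneg _
    _ = ∑ s ∈ I, ∑ σ : T → Equiv.Perm (Fin n),
          ((Finset.univ.filter fun v => FreeGroup.lift σ (p ^ (-s) * u) v = v).card : ℝ) :=
        Finset.sum_comm
    _ ≤ ∑ s ∈ I, 2 * (N : ℝ) ^ 2 * Nat.card (T → Equiv.Perm (Fin n)) := by
        refine Finset.sum_le_sum fun s hs => ?_
        have h5 := hnorm s hs
        refine (rf (p ^ (-s) * u) (hne s) n (by omega)).trans ?_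
        have h6 : ((p ^ (-s) * u).norm : ℝ) ≤ N := by exact_mod_cast h5
        have h7 : ((p ^ (-s) * u).norm : ℝ) ^ 2 ≤ (N : ℝ) ^ 2 :=
          pow_le_pow_left₀ (Nat.cast_nonneg _) h6 2
        exact mul_le_mul_of_nonneg_right (mul_le_mul_of_nonneg_left h7 zero_le_two) hc0
    _ = I.card * (2 * (N : ℝ) ^ 2 * Nat.card (T → Equiv.Perm (Fin n))) := by
        rw [Finset.sum_const, nsmul_eq_mul]
    _ ≤ 2 * ℓ * (2 * (N : ℝ) ^ 2 * Nat.card (T → Equiv.Perm (Fin n))) :=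
        mul_le_mul_of_nonneg_right hcard
          (mul_nonneg (mul_nonneg zero_le_two (sq_nonneg _)) hc0)
    _ = 4 * ℓ * (N : ℝ) ^ 2 * Nat.card (T → Equiv.Perm (Fin n)) := by ring

end H33.BO
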