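import Pool.Agent.H33.BO.PiB
import Pool.Agent.H33.BO.NfB
import Pool.Agent.H33.BO.Brit

/-! # BO.FreA : fixed points of a form without pinches, averaged over the permutations and the matchings

PROOF. `ac (mkX (A σ π) σ) (io u) = lift σ u` (both are homomorphisms in `u`: `FreeGroup.ext_hom`; `io (of t) = of (some t)`), `ac (mkX α σ) (aa k) = α`; so `ac (mkX (A σ π) σ) (fm h0 L) = lift σ h0 * (L.map fun p => sgn (A σ π) p.1 * lift σ p.2).prod`. For `σ ∈ gd` apply `pi_bd` to the list `L.map (fun p => (p.1, lift σ p.2))` (same length). Sum over `σ ∈ gd`: the terms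
`L.length * (n - m ℓ)` and the last term times the number of `σ` in `gd` (at most card; `n - m ℓ ≥ 0` since `fB σ` is injective, if `gd` is nonempty). `∑ σ ∈ gd, nfs (fB σ) (fW σ) (L.map ..)`: by induction on `L`, every consecutive pair with different signs contributes by `nf_bd` (with `F = fW`, `p = wb0 W` if the second sign is `true`, with `F = fB`, `p = of none` otherwise; `hu` from `rdc`) at most
`4 ℓ (H + ℓ p)^2 card`; there are at most `L.length` pairs. The powers: `(of none).norm = 1 ≤ p`. -/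

set_option autoImplicit false

open MeasureTheory

namespace H33.BO

private lemma freA_io {k n : ℕ} (α : Equiv.Perm (Fin n)) (σ : T0 k → Equiv.Perm (Fin n))
    (u : FreeGroup (T0 k)) : ac (mkX α σ) (io u) = FreeGroup.lift σ u := by
  have h : (FreeGroup.lift (mkX α σ)).comp (io (k := k)) = FreeGroup.lift σ := by
    apply FreeGroup.ext_hom
    intro t
    simp [io, mkX]
  exact DFunLike.congr_fun h u

private lemma freA_aa {k n : ℕ} (α : Equiv.Perm (Fin n)) (σ : T0 k → Equiv.Perm (Fin n)) :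
    ac (mkX α σ) (aa k) = α := by
  simp [aa, mkX]

private lemma freA_sgn {G H : Type} [Group G] [Group H] (f : G →* H) (a : G) (c : Bool) :
    f (sgn a c) = sgn (f a) c := by
  cases c <;> simp [sgn]

private lemma freA_fm {k n : ℕ} (α : Equiv.Perm (Fin n)) (σ : T0 k → Equiv.Perm (Fin n))
    (h0 : FreeGroup (T0 k)) (L : List (Bool × FreeGroup (T0 k))) :
    ac (mkX α σ) (fm h0 L) = FreeGroup.lift σ h0 *
      (((L.map fun q => (q.1, FreeGroup.lift σ q.2)).map
        fun p : Bool × Equiv.Perm (Fin n) => sgn α p.1 * p.2).prod) := by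
  unfold fm
  rw [map_mul, freA_io, map_list_prod, List.map_map, List.map_map]
  congr 2
  apply List.map_congr_left
  intro q _
  simp only [Function.comp_apply, map_mul, freA_sgn, freA_aa]
  rw [freA_io]

private lemma freA_nc {n : ℕ} (g : Equiv.Perm (Fin n)) :
    ({v | g v = v}.ncard : ℝ) = ((Finset.univ.filter fun v => g v = v).card : ℝ) := by
  have h : {v | g v = v} = ((Finset.univ.filter fun v => g v = v : Finset (Fin n)) : Set (Fin n)) := by
    ext v; simp
  rw [h, Set.ncard_coe_finset]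

private lemma freA_one {k : ℕ} (u q : FreeGroup (T0 k)) (hu : u ∉ Subgroup.zpowers q) (H p : ℕ)
    (huH : u.norm ≤ H) (hq : q.norm ≤ p) (n m ℓ : ℕ) (hn : 2 * (H + ℓ * p) ≤ n)
    (gd : Finset (T0 k → Equiv.Perm (Fin n)))
    (F : (T0 k → Equiv.Perm (Fin n)) → Fin m × Fin ℓ → Fin n)
    (hF : ∀ σ ∈ gd, segs (FreeGroup.lift σ q) (F σ)) :
    ∑ σ ∈ gd, ((nfS (F σ) (FreeGroup.lift σ u)).ncard : ℝ) ≤
      4 * ℓ * ((H : ℝ) + ℓ * p) ^ 2 * Nat.card (T0 k → Equiv.Perm (Fin n)) := by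
  have h1 : ℓ * q.norm ≤ ℓ * p := Nat.mul_le_mul_left _ hq
  refine (nf_bd u q hu n m ℓ (by omega) gd F hF).trans ?_
  have h2 : (u.norm : ℝ) ≤ H := by exact_mod_cast huH
  have h3 : (ℓ : ℝ) * q.norm ≤ ℓ * p := by exact_mod_cast h1
  have h4 : (0 : ℝ) ≤ (u.norm : ℝ) + ℓ * q.norm := by positivity
  have h5 : ((u.norm : ℝ) + ℓ * q.norm) ^ 2 ≤ ((H : ℝ) + ℓ * p) ^ 2 :=
    pow_le_pow_left₀ h4 (by linarith) 2
  exact mul_le_mul_of_nonneg_right (mul_le_mul_of_nonneg_left h5 (by positivity)) (Nat.cast_nonneg _)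

private lemma freA_nfs {k : ℕ} (W : Wd k) (H p : ℕ) (hp : 1 ≤ p) (hp1 : (wb0 W).norm ≤ p)
    (n m ℓ : ℕ) (hn : 2 * (H + ℓ * p) ≤ n)
    (gd : Finset (T0 k → Equiv.Perm (Fin n))) (fB fW : (T0 k → Equiv.Perm (Fin n)) → Fin m × Fin ℓ → Fin n)
    (hfB : ∀ σ ∈ gd, segs (σ none) (fB σ)) (hfW : ∀ σ ∈ gd, segs (FreeGroup.lift σ (wb0 W)) (fW σ))
    (L : List (Bool × FreeGroup (T0 k))) (hr : rdc W L) (hH : ∀ q ∈ L, q.2.norm ≤ H) :
    ∑ σ ∈ gd, (nfs (fB σ) (fW σ) (L.map fun q => (q.1, FreeGroup.lift σ q.2)) : ℝ) ≤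
      (L.length : ℝ) * (4 * ℓ * ((H : ℝ) + ℓ * p) ^ 2) * Nat.card (T0 k → Equiv.Perm (Fin n)) := by
  have hC : (0 : ℝ) ≤ 4 * ℓ * ((H : ℝ) + ℓ * p) ^ 2 * Nat.card (T0 k → Equiv.Perm (Fin n)) := by
    positivity
  induction L with
  | nil => simp [nfs]
  | cons a L ih =>
    cases L with
    | nil =>
      simp only [List.map_cons, List.map_nil, nfs, Nat.cast_zero, Finset.sum_const_zero]
      positivity
    | cons b L =>
      have ih' := ih hr.2 (fun q hq => hH q (List.mem_cons_of_mem _ hq))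
      have hone : ∑ σ ∈ gd, ((if a.1 ≠ b.1 then
          (nfS (if b.1 then fW σ else fB σ) (FreeGroup.lift σ a.2)).ncard else 0 : ℕ) : ℝ) ≤
          4 * ℓ * ((H : ℝ) + ℓ * p) ^ 2 * Nat.card (T0 k → Equiv.Perm (Fin n)) := by
        by_cases hab : a.1 ≠ b.1
        · have hu := hr.1 hab
          have haH : a.2.norm ≤ H := hH a List.mem_cons_self
          cases hb : b.1 with
          | true =>
            rw [hb] at hu hab
            simp only [hab, ne_eq, if_true]
            rw [if_pos rfl] at hu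
            exact freA_one a.2 (wb0 W) hu H p haH hp1 n m ℓ hn gd fW hfW
          | false =>
            rw [hb] at hu hab
            simp only [hab, ne_eq, if_true]
            rw [if_neg (by simp)] at hu
            exact freA_one a.2 (FreeGroup.of none) hu H p haH (by simpa using hp) n m ℓ hn gd fB
              (fun σ hσ => by simpa using hfB σ hσ)
        · simp only [hab, if_false, Nat.cast_zero, Finset.sum_const_zero]
          exact hC
      have he : ∀ σ, (nfs (fB σ) (fW σ) ((a :: b :: L).map fun q => (q.1, FreeGroup.lift σ q.2)) : ℝ) =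
          ((if a.1 ≠ b.1 then
          (nfS (if b.1 then fW σ else fB σ) (FreeGroup.lift σ a.2)).ncard else 0 : ℕ) : ℝ) +
          (nfs (fB σ) (fW σ) ((b :: L).map fun q => (q.1, FreeGroup.lift σ q.2)) : ℝ) := by
        intro σ
        simp only [List.map_cons, nfs, Nat.cast_add]
      simp only [he]
      rw [Finset.sum_add_distrib]
      have hlen : (((a :: b :: L).length : ℕ) : ℝ) = 1 + ((b :: L).length : ℝ) := by
        simp only [List.length_cons]; push_cast; ring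
      rw [hlen]
      have := add_le_add hone ih'
      refine this.trans (le_of_eq ?_)
      ring

theorem freA {k : ℕ} (W : Wd k) (h0 : FreeGroup (T0 k)) (L : List (Bool × FreeGroup (T0 k))) (hL : L ≠ [])
    (hr : rdc W L) (H p : ℕ) (hH : ∀ q ∈ L, q.2.norm ≤ H) (hp : 1 ≤ p) (hp1 : (wb0 W).norm ≤ p)
    (n m ℓ : ℕ) (hn : 2 * (H + ℓ * p) ≤ n) (hm : 2 * L.length ≤ m) (hmn : m * ℓ ≤ n)
    (gd : Finset (T0 k → Equiv.Perm (Fin n))) (fB fW : (T0 k → Equiv.Perm (Fin n)) → Fin m × Fin ℓ → Fin n)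
    (A : (T0 k → Equiv.Perm (Fin n)) → Equiv.Perm (Fin m) → Equiv.Perm (Fin n))
    (hfB : ∀ σ ∈ gd, segs (σ none) (fB σ)) (hfW : ∀ σ ∈ gd, segs (FreeGroup.lift σ (wb0 W)) (fW σ))
    (hA : ∀ σ ∈ gd, fam (fB σ) (fW σ) (A σ)) :
    ∑ σ ∈ gd, ∑ π : Equiv.Perm (Fin m), ({v | ac (mkX (A σ π) σ) (fm h0 L) v = v}.ncard : ℝ) ≤
      (m.factorial : ℝ) * ((L.length : ℝ) * ((n : ℝ) - m * ℓ) + L.length * (4 * ℓ * ((H : ℝ) + ℓ * p) ^ 2) +
        n * (2 + 2 * (L.length : ℝ) ^ 2 * ℓ) / m) * Nat.card (T0 k → Equiv.Perm (Fin n)) := by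
  have hr1 : ∀ σ ∈ gd, ∑ π : Equiv.Perm (Fin m),
      ({v | ac (mkX (A σ π) σ) (fm h0 L) v = v}.ncard : ℝ) ≤
      (m.factorial : ℝ) * ((L.length : ℝ) * ((n : ℝ) - m * ℓ) +
        nfs (fB σ) (fW σ) (L.map fun q => (q.1, FreeGroup.lift σ q.2)) +
        n * (2 + 2 * (L.length : ℝ) ^ 2 * ℓ) / m) := by
    intro σ hσ
    have h := pi_bd (fB σ) (fW σ) (hfB σ hσ).1 (hfW σ hσ).1 (A σ) (hA σ hσ) (FreeGroup.lift σ h0)
      (L.map fun q => (q.1, FreeGroup.lift σ q.2)) (by simpa using hL) (by simpa using hm)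
    rw [List.length_map] at h
    refine le_trans (le_of_eq ?_) h
    apply Finset.sum_congr rfl
    intro π _
    rw [freA_nc, freA_fm]
  refine (Finset.sum_le_sum hr1).trans ?_
  rw [← Finset.mul_sum, mul_assoc (m.factorial : ℝ)]
  apply mul_le_mul_of_nonneg_left _ (Nat.cast_nonneg _)
  rw [Finset.sum_add_distrib, Finset.sum_add_distrib, Finset.sum_const, Finset.sum_const,
    nsmul_eq_mul, nsmul_eq_mul]
  have hcard : (gd.card : ℝ) ≤ Nat.card (T0 k → Equiv.Perm (Fin n)) := by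
    rw [Nat.card_eq_fintype_card]
    exact_mod_cast Finset.card_le_univ gd
  have hN := freA_nfs W H p hp hp1 n m ℓ hn gd fB fW hfB hfW L hr hH
  have h1 : (0 : ℝ) ≤ (L.length : ℝ) * ((n : ℝ) - m * ℓ) := by
    have : ((m * ℓ : ℕ) : ℝ) ≤ n := by exact_mod_cast hmn
    push_cast at this
    exact mul_nonneg (Nat.cast_nonneg _) (by linarith)
  have h2 : (0 : ℝ) ≤ n * (2 + 2 * (L.length : ℝ) ^ 2 * ℓ) / m := by positivity
  have h3 := mul_le_mul_of_nonneg_right hcard h1
  have h4 := mul_le_mul_of_nonneg_right hcard h2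
  nlinarith [h3, h4, hN]

end H33.BO
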