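import Mathlib

/-! # BO.NumF : the numerical choices in 2.1

PROOF. `ℓ := (⌈log n⌉₊ + 1)^2`, `c := ⌊n^(7/8)⌋₊`, `Lc := ⌊n^(1/4)⌋₊`, `m := n / ℓ - c` (natural division and subtraction). For large `n`: `n / (2 ℓ) ≤ m`, `n - m ℓ ≤ ℓ (c + 1)`, `(m + c) ℓ ≤ n`, `m ≤ n / ℓ ≤ n / (log n)^2`, so `m log n ≤ n / log n`; `n (2 + 2 K^2 ℓ) / m ≤ 2 ℓ (2 + 2 K^2 ℓ)`; `(n / Lc + 2 Lc^3 K^2) log n ≤ (2 + 2 K^2) n^(3/4) log n ≤ ε c` with `c ≥ n^(7/8) / 2`.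
All inequalities follow from `(log n)^a = o(n^b)` (`isLittleO_log_rpow_rpow_atTop`, `Real.isLittleO_log_id_atTop`). -/

set_option autoImplicit false

open MeasureTheory

namespace H33.BO

private theorem NumF_ev (M B : ℝ) (hM : 0 < M) : ∃ n0 : ℕ, ∀ n : ℕ, n0 ≤ n →
    1 ≤ n ∧ B ≤ Real.log n ∧ 2 ≤ Real.log n ∧ M * (Real.log n + 2) ^ 8 ≤ (n : ℝ) ^ ((1 : ℝ) / 8) := by
  have h1 := isLittleO_log_rpow_rpow_atTop (s := (1 : ℝ) / 8) 8 (by norm_num)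
  have hc : (0 : ℝ) < 1 / (256 * M) := by positivity
  have h2 := (h1.def hc)
  have h3 := tendsto_natCast_atTop_atTop (R := ℝ) |>.eventually h2
  have h4 := (Real.tendsto_log_atTop.comp (tendsto_natCast_atTop_atTop (R := ℝ))).eventually_ge_atTop
    (max B 2)
  have h5 := (h3.and h4).and (Filter.eventually_ge_atTop (1 : ℕ))
  obtain ⟨n0, hn0⟩ := Filter.eventually_atTop.1 h5
  refine ⟨n0, fun n hn => ?_⟩
  obtain ⟨⟨ha, hb⟩, hc1⟩ := hn0 n hn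
  have hb' : max B 2 ≤ Real.log n := hb
  have hB : B ≤ Real.log n := le_trans (le_max_left _ _) hb'
  have h2' : 2 ≤ Real.log n := le_trans (le_max_right _ _) hb'
  refine ⟨hc1, hB, h2', ?_⟩
  have hl0 : (0 : ℝ) ≤ Real.log n := by linarith
  have hn0' : (0 : ℝ) ≤ (n : ℝ) := Nat.cast_nonneg _
  have e1 : Real.log n ^ (8 : ℝ) = Real.log n ^ (8 : ℕ) := by
    rw [← Real.rpow_natCast]
    norm_num
  rw [e1, Real.norm_of_nonneg (by positivity), Real.norm_of_nonneg (Real.rpow_nonneg hn0' _)] at ha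
  have e2 : (Real.log n + 2) ^ 8 ≤ 256 * Real.log n ^ 8 := by
    have : (Real.log n + 2) ^ 8 ≤ (2 * Real.log n) ^ 8 :=
      pow_le_pow_left₀ (by linarith) (by linarith) 8
    calc (Real.log n + 2) ^ 8 ≤ (2 * Real.log n) ^ 8 := this
      _ = 256 * Real.log n ^ 8 := by ring
  calc M * (Real.log n + 2) ^ 8 ≤ M * (256 * Real.log n ^ 8) := by
        exact mul_le_mul_of_nonneg_left e2 hM.le
    _ ≤ M * (256 * (1 / (256 * M) * (n : ℝ) ^ ((1 : ℝ) / 8))) := by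
        have := mul_le_mul_of_nonneg_left ha (by norm_num : (0 : ℝ) ≤ 256)
        exact mul_le_mul_of_nonneg_left this hM.le
    _ = (n : ℝ) ^ ((1 : ℝ) / 8) := by
        field_simp

theorem numF (K : ℕ) (ε : ℝ) (hε : 0 < ε) : ∃ n0 : ℕ, ∀ n, n0 ≤ n → ∃ ℓ c m Lc : ℕ,
    1 ≤ ℓ ∧ 1 ≤ c ∧ 1 ≤ Lc ∧ 1 ≤ m ∧ 2 * K ≤ m ∧ (m + c) * ℓ ≤ n ∧ 2 * (K + ℓ * K) ≤ n ∧ 2 * (Lc * K) ≤ n ∧
    (K : ℝ) * ((n : ℝ) - m * ℓ) + K * (4 * ℓ * ((K : ℝ) + ℓ * K) ^ 2) +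
      n * (2 + 2 * (K : ℝ) ^ 2 * ℓ) / m ≤ ε * n ∧
    (((n : ℝ) - m * ℓ) + m) * Real.log n ≤ ε * n ∧
    ((n : ℝ) / Lc + 2 * (Lc : ℝ) ^ 3 * (K : ℝ) ^ 2) * Real.log n ≤ ε * c := by
  obtain ⟨M, hMdef⟩ : ∃ M : ℝ, M = (6 * K + 48 * K ^ 3 + 12 * (1 + (K : ℝ) ^ 2) + 4) / ε + 8 * K + 8 :=
    ⟨_, rfl⟩
  have hK0 : (0 : ℝ) ≤ K := Nat.cast_nonneg _
  have hM8 : 8 * (K : ℝ) + 8 ≤ M := by
    rw [hMdef]
    have : 0 ≤ (6 * K + 48 * K ^ 3 + 12 * (1 + (K : ℝ) ^ 2) + 4) / ε := by positivity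
    linarith
  have hMε : 6 * K + 48 * K ^ 3 + 12 * (1 + (K : ℝ) ^ 2) + 4 ≤ M * ε := by
    rw [hMdef, add_mul, add_mul, div_mul_cancel₀ _ hε.ne']
    have h1 : 0 ≤ 8 * (K : ℝ) * ε := by positivity
    have h2 : 0 ≤ 8 * ε := by positivity
    linarith
  have hM0 : 0 < M := by linarith
  obtain ⟨n0, hn0⟩ := NumF_ev M (2 / ε) hM0
  refine ⟨n0, fun n hn => ?_⟩
  obtain ⟨hn1, hB, hl2, hP⟩ := hn0 n hn
  have hnr1 : (1 : ℝ) ≤ (n : ℝ) := by exact_mod_cast hn1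
  have hnr0 : (0 : ℝ) ≤ (n : ℝ) := by linarith
  obtain ⟨s, hs⟩ : ∃ s : ℝ, s = (n : ℝ) ^ ((1 : ℝ) / 8) := ⟨_, rfl⟩
  obtain ⟨lam, hlam⟩ : ∃ x : ℝ, x = Real.log n + 2 := ⟨_, rfl⟩
  rw [← hs, ← hlam] at hP
  have hl4 : 4 ≤ lam := by rw [hlam]; linarith
  have hlog : Real.log n = lam - 2 := by rw [hlam]; ring
  have hn8 : (n : ℝ) = s ^ 8 := by
    rw [hs, ← Real.rpow_natCast, ← Real.rpow_mul hnr0]
    norm_num
  have h78 : (n : ℝ) ^ ((7 : ℝ) / 8) = s ^ 7 := by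
    rw [hs, ← Real.rpow_natCast, ← Real.rpow_mul hnr0]
    norm_num
  have h14 : (n : ℝ) ^ ((1 : ℝ) / 4) = s ^ 2 := by
    rw [hs, ← Real.rpow_natCast, ← Real.rpow_mul hnr0]
    norm_num
  -- powers of lam
  have hlp : ∀ j : ℕ, j ≤ 8 → lam ^ j ≤ lam ^ 8 := fun j hj =>
    pow_le_pow_right₀ (by linarith) hj
  have hsj : ∀ j : ℕ, j ≤ 8 → M * lam ^ j ≤ s := fun j hj =>
    le_trans (mul_le_mul_of_nonneg_left (hlp j hj) hM0.le) hP
  have hsM : M ≤ s := by simpa using hsj 0 (by norm_num)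
  have hs8 : 8 * (K : ℝ) + 8 ≤ s := le_trans hM8 hsM
  have hs1 : 1 ≤ s := by linarith
  have hs0 : 0 < s := by linarith
  have hsε : ∀ (a : ℝ) (j : ℕ), j ≤ 8 → 0 ≤ a →
      a ≤ 6 * K + 48 * K ^ 3 + 12 * (1 + (K : ℝ) ^ 2) + 4 → a * lam ^ j ≤ ε * s := by
    intro a j hj ha0 ha
    have h1 : a * lam ^ j ≤ (M * ε) * lam ^ j :=
      mul_le_mul_of_nonneg_right (le_trans ha hMε) (by positivity)
    have h2 := mul_le_mul_of_nonneg_left (hsj j hj) hε.le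
    calc a * lam ^ j ≤ (M * ε) * lam ^ j := h1
      _ = ε * (M * lam ^ j) := by ring
      _ ≤ ε * s := h2
  -- the natural numbers
  obtain ⟨t, ht⟩ : ∃ t : ℕ, t = ⌈Real.log n⌉₊ + 1 := ⟨_, rfl⟩
  have ht1 : Real.log n + 1 ≤ t := by
    rw [ht]; push_cast
    linarith [Nat.le_ceil (Real.log n)]
  have ht2 : (t : ℝ) ≤ lam := by
    rw [ht, hlam]; push_cast
    linarith [Nat.ceil_lt_add_one (show 0 ≤ Real.log n by linarith)]
  have ht0 : (0 : ℝ) < t := by linarith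
  obtain ⟨ℓ, hℓ⟩ : ∃ ℓ : ℕ, ℓ = t ^ 2 := ⟨_, rfl⟩
  have hℓr : (ℓ : ℝ) = (t : ℝ) ^ 2 := by rw [hℓ]; push_cast; ring
  have hℓle : (ℓ : ℝ) ≤ lam ^ 2 := by
    rw [hℓr]; exact pow_le_pow_left₀ ht0.le ht2 2
  have hℓ1 : (1 : ℝ) ≤ ℓ := by
    rw [hℓr]; exact one_le_pow₀ (by linarith)
  have hℓ1n : 1 ≤ ℓ := by exact_mod_cast hℓ1
  have hℓ0 : (0 : ℝ) < ℓ := by linarith
  obtain ⟨c, hc⟩ : ∃ c : ℕ, c = ⌊s ^ 7⌋₊ := ⟨_, rfl⟩
  have hs7 : (1 : ℝ) ≤ s ^ 7 := one_le_pow₀ hs1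
  have hs7' : (8 : ℝ) ≤ s ^ 7 := by
    calc (8 : ℝ) ≤ s := by linarith
      _ = s ^ 1 := (pow_one s).symm
      _ ≤ s ^ 7 := pow_le_pow_right₀ hs1 (by norm_num)
  have hcle : (c : ℝ) ≤ s ^ 7 := by rw [hc]; exact Nat.floor_le (by positivity)
  have hcge : s ^ 7 - 1 ≤ (c : ℝ) := by rw [hc]; linarith [Nat.lt_floor_add_one (s ^ 7)]
  have hchalf : s ^ 7 / 2 ≤ (c : ℝ) := by linarith
  obtain ⟨Lc, hLc⟩ : ∃ c : ℕ, c = ⌊s ^ 2⌋₊ := ⟨_, rfl⟩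
  have hs2' : (8 : ℝ) ≤ s ^ 2 := by
    calc (8 : ℝ) ≤ s := by linarith
      _ = s ^ 1 := (pow_one s).symm
      _ ≤ s ^ 2 := pow_le_pow_right₀ hs1 (by norm_num)
  have hLle : (Lc : ℝ) ≤ s ^ 2 := by rw [hLc]; exact Nat.floor_le (by positivity)
  have hLge : s ^ 2 - 1 ≤ (Lc : ℝ) := by rw [hLc]; linarith [Nat.lt_floor_add_one (s ^ 2)]
  have hLhalf : s ^ 2 / 2 ≤ (Lc : ℝ) := by linarith
  -- n / ℓ
  have hdiv1 : (n : ℝ) / ℓ - 1 ≤ ((n / ℓ : ℕ) : ℝ) := by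
    have h1 : n < (n / ℓ + 1) * ℓ := by
      have := Nat.lt_succ_self (n / ℓ)
      have h2 := (Nat.div_lt_iff_lt_mul (by omega : 0 < ℓ)).1 this
      exact h2
    have h2 : (n : ℝ) < (((n / ℓ : ℕ) : ℝ) + 1) * ℓ := by exact_mod_cast h1
    have h3 : (n : ℝ) / ℓ < ((n / ℓ : ℕ) : ℝ) + 1 := by
      rw [div_lt_iff₀ hℓ0]; exact h2
    linarith
  have hdiv2 : ((n / ℓ : ℕ) : ℝ) ≤ (n : ℝ) / ℓ := Nat.cast_div_le
  have hq : 2 * s ^ 7 ≤ (n : ℝ) / (2 * ℓ) := by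
    rw [le_div_iff₀ (by positivity)]
    have h1 : 4 * lam ^ 2 ≤ s := by
      refine le_trans ?_ (hsj 2 (by norm_num))
      exact mul_le_mul_of_nonneg_right (by linarith) (by positivity)
    calc 2 * s ^ 7 * (2 * ℓ) = 4 * (ℓ : ℝ) * s ^ 7 := by ring
      _ ≤ 4 * lam ^ 2 * s ^ 7 := by
          apply mul_le_mul_of_nonneg_right _ (by positivity)
          linarith
      _ ≤ s * s ^ 7 := mul_le_mul_of_nonneg_right h1 (by positivity)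
      _ = (n : ℝ) := by rw [hn8]; ring
  have hhalf : (n : ℝ) / ℓ = (n : ℝ) / (2 * ℓ) + (n : ℝ) / (2 * ℓ) := by
    field_simp
    ring
  have hcdiv : c ≤ n / ℓ := by
    have h1 : (c : ℝ) ≤ ((n / ℓ : ℕ) : ℝ) := by
      linarith
    exact_mod_cast h1
  obtain ⟨m, hm⟩ : ∃ m : ℕ, m = n / ℓ - c := ⟨_, rfl⟩
  have hmr : (m : ℝ) = ((n / ℓ : ℕ) : ℝ) - c := by
    rw [hm, Nat.cast_sub hcdiv]
  have hmge : (n : ℝ) / (2 * ℓ) ≤ m := by
    rw [hmr]; linarith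
  have hmK : (2 : ℝ) * K ≤ m := by
    have h1 : s ≤ s ^ 7 := by
      calc s = s ^ 1 := (pow_one s).symm
        _ ≤ s ^ 7 := pow_le_pow_right₀ hs1 (by norm_num)
    linarith
  have hm1 : (1 : ℝ) ≤ m := by linarith
  have hm0 : (0 : ℝ) < m := by linarith
  have hmc : m + c = n / ℓ := by omega
  have hmcn : (m + c) * ℓ ≤ n := by rw [hmc]; exact Nat.div_mul_le_self n ℓ
  have hrem : (n : ℝ) - m * ℓ ≤ ℓ * (c + 1) := by
    have h1 := mul_le_mul_of_nonneg_right hdiv1 hℓ0.le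
    rw [sub_mul, div_mul_cancel₀ _ hℓ0.ne'] at h1
    rw [hmr]
    linarith
  have hc1 : (c : ℝ) + 1 ≤ 2 * s ^ 7 := by linarith
  have hrem2 : (n : ℝ) - m * ℓ ≤ 2 * lam ^ 2 * s ^ 7 := by
    calc (n : ℝ) - m * ℓ ≤ ℓ * (c + 1) := hrem
      _ ≤ lam ^ 2 * (2 * s ^ 7) := mul_le_mul hℓle hc1 (by positivity) (by positivity)
      _ = 2 * lam ^ 2 * s ^ 7 := by ring
  have hmn : (m : ℝ) ≤ n / ℓ := by rw [hmr]; linarith [Nat.cast_nonneg (α := ℝ) c]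
  have hss8 : s ≤ s ^ 8 := by
    calc s = s ^ 1 := (pow_one s).symm
      _ ≤ s ^ 8 := pow_le_pow_right₀ hs1 (by norm_num)
  have hlam0 : 0 < lam := by linarith
  have hlam1 : 1 ≤ lam ^ 2 := one_le_pow₀ (by linarith)
  refine ⟨ℓ, c, m, Lc, hℓ1n, ?_, ?_, ?_, ?_, hmcn, ?_, ?_, ?_, ?_, ?_⟩
  · have : (1 : ℝ) ≤ c := by linarith
    exact_mod_cast this
  · have : (1 : ℝ) ≤ Lc := by linarith
    exact_mod_cast this
  · exact_mod_cast hm1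
  · exact_mod_cast hmK
  · have h1 : 2 * ((K : ℝ) + ℓ * K) ≤ n := by
      have h2 : 4 * (K : ℝ) * lam ^ 2 ≤ s := by
        refine le_trans ?_ (hsj 2 (by norm_num))
        exact mul_le_mul_of_nonneg_right (by linarith) (by positivity)
      have h3 : (ℓ : ℝ) * K ≤ lam ^ 2 * K := mul_le_mul_of_nonneg_right hℓle hK0
      have h4 : (K : ℝ) ≤ lam ^ 2 * K := le_mul_of_one_le_left hK0 hlam1
      rw [hn8]
      linarith
    exact_mod_cast h1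
  · have h1 : 2 * ((Lc : ℝ) * K) ≤ n := by
      have h3 : (Lc : ℝ) * K ≤ s ^ 2 * K := mul_le_mul_of_nonneg_right hLle hK0
      have h4 : 2 * (s ^ 2 * K) ≤ s ^ 3 := by
        have : 2 * (K : ℝ) ≤ s := by linarith
        calc 2 * (s ^ 2 * K) = s ^ 2 * (2 * K) := by ring
          _ ≤ s ^ 2 * s := mul_le_mul_of_nonneg_left this (by positivity)
          _ = s ^ 3 := by ring
      have h5 : s ^ 3 ≤ s ^ 8 := pow_le_pow_right₀ hs1 (by norm_num)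
      rw [hn8]
      linarith
    exact_mod_cast h1
  · -- first estimate
    have t1 : (K : ℝ) * ((n : ℝ) - m * ℓ) ≤ ε * n / 3 := by
      have h1 : (K : ℝ) * ((n : ℝ) - m * ℓ) ≤ K * (2 * lam ^ 2 * s ^ 7) :=
        mul_le_mul_of_nonneg_left hrem2 hK0
      have h2 := hsε (6 * K) 2 (by norm_num) (by positivity) (by
        have h1 : 0 ≤ 48 * (K : ℝ) ^ 3 := by positivity
        have h2 : 0 ≤ 12 * (1 + (K : ℝ) ^ 2) := by positivity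
        linarith)
      have h3 := mul_le_mul_of_nonneg_right h2 (by positivity : (0 : ℝ) ≤ s ^ 7)
      calc (K : ℝ) * ((n : ℝ) - m * ℓ) ≤ K * (2 * lam ^ 2 * s ^ 7) := h1
        _ = 6 * (K : ℝ) * lam ^ 2 * s ^ 7 / 3 := by ring
        _ ≤ ε * s * s ^ 7 / 3 := by linarith
        _ = ε * n / 3 := by rw [hn8]; ring
    have t2 : (K : ℝ) * (4 * ℓ * ((K : ℝ) + ℓ * K) ^ 2) ≤ ε * n / 3 := by
      have h1 : (K : ℝ) + ℓ * K ≤ 2 * K * lam ^ 2 := by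
        have h3 : (ℓ : ℝ) * K ≤ lam ^ 2 * K := mul_le_mul_of_nonneg_right hℓle hK0
        have h4 : (K : ℝ) ≤ lam ^ 2 * K := le_mul_of_one_le_left hK0 hlam1
        linarith
      have h2 : ((K : ℝ) + ℓ * K) ^ 2 ≤ (2 * K * lam ^ 2) ^ 2 :=
        pow_le_pow_left₀ (by positivity) h1 2
      have h3 : 4 * (ℓ : ℝ) * ((K : ℝ) + ℓ * K) ^ 2 ≤ 4 * lam ^ 2 * (2 * K * lam ^ 2) ^ 2 :=
        mul_le_mul (by linarith) h2 (by positivity) (by positivity)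
      have h4 := mul_le_mul_of_nonneg_left h3 hK0
      have h5 := hsε (48 * K ^ 3) 6 (by norm_num) (by positivity) (by
        have h2 : 0 ≤ 12 * (1 + (K : ℝ) ^ 2) := by positivity
        linarith)
      have h6 : ε * s ≤ ε * s ^ 8 := mul_le_mul_of_nonneg_left hss8 hε.le
      rw [hn8]
      calc (K : ℝ) * (4 * ℓ * ((K : ℝ) + ℓ * K) ^ 2) ≤ K * (4 * lam ^ 2 * (2 * K * lam ^ 2) ^ 2) := h4
        _ = 48 * (K : ℝ) ^ 3 * lam ^ 6 / 3 := by ring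
        _ ≤ ε * s ^ 8 / 3 := by linarith
    have t3 : (n : ℝ) * (2 + 2 * (K : ℝ) ^ 2 * ℓ) / m ≤ ε * n / 3 := by
      have h0 : (n : ℝ) / m ≤ 2 * ℓ := by
        rw [div_le_iff₀ hm0]
        have := mul_le_mul_of_nonneg_left hmge (by positivity : (0 : ℝ) ≤ 2 * ℓ)
        rw [mul_div_cancel₀ _ (by positivity : (2 * (ℓ : ℝ)) ≠ 0)] at this
        exact this
      have h1 : (n : ℝ) * (2 + 2 * (K : ℝ) ^ 2 * ℓ) / m = (n : ℝ) / m * (2 + 2 * (K : ℝ) ^ 2 * ℓ) := by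
        ring
      have h2 : 2 + 2 * (K : ℝ) ^ 2 * ℓ ≤ 2 * (1 + (K : ℝ) ^ 2) * lam ^ 2 := by
        have h3 : (K : ℝ) ^ 2 * ℓ ≤ (K : ℝ) ^ 2 * lam ^ 2 :=
          mul_le_mul_of_nonneg_left hℓle (by positivity)
        linarith
      have h4 : (n : ℝ) / m * (2 + 2 * (K : ℝ) ^ 2 * ℓ) ≤
          (2 * lam ^ 2) * (2 * (1 + (K : ℝ) ^ 2) * lam ^ 2) :=
        mul_le_mul (by linarith) h2 (by positivity) (by positivity)
      have h5 := hsε (12 * (1 + (K : ℝ) ^ 2)) 4 (by norm_num) (by positivity) (by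
        have h1 : 0 ≤ 48 * (K : ℝ) ^ 3 := by positivity
        linarith)
      have h6 : ε * s ≤ ε * s ^ 8 := mul_le_mul_of_nonneg_left hss8 hε.le
      rw [h1]
      calc (n : ℝ) / m * (2 + 2 * (K : ℝ) ^ 2 * ℓ) ≤
            (2 * lam ^ 2) * (2 * (1 + (K : ℝ) ^ 2) * lam ^ 2) := h4
        _ = 12 * (1 + (K : ℝ) ^ 2) * lam ^ 4 / 3 := by ring
        _ ≤ ε * s ^ 8 / 3 := by linarith
        _ = ε * n / 3 := by rw [hn8]
    linarith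
  · -- second estimate
    have t1 : ((n : ℝ) - m * ℓ) * Real.log n ≤ ε * n / 2 := by
      have h1 : ((n : ℝ) - m * ℓ) * Real.log n ≤ (2 * lam ^ 2 * s ^ 7) * lam := by
        have h0 : (0 : ℝ) ≤ (n : ℝ) - m * ℓ := by
          have h5 : ((m : ℝ) + c) * ℓ ≤ n := by exact_mod_cast hmcn
          have h6 : 0 ≤ (c : ℝ) * ℓ := by positivity
          linarith
        exact mul_le_mul hrem2 (by linarith) (by linarith) (by positivity)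
      have h2 := hsε 4 3 (by norm_num) (by norm_num) (by
        have h1 : 0 ≤ 48 * (K : ℝ) ^ 3 := by positivity
        have h2 : 0 ≤ 12 * (1 + (K : ℝ) ^ 2) := by positivity
        linarith)
      have h3 := mul_le_mul_of_nonneg_right h2 (by positivity : (0 : ℝ) ≤ s ^ 7)
      calc ((n : ℝ) - m * ℓ) * Real.log n ≤ (2 * lam ^ 2 * s ^ 7) * lam := h1
        _ = 4 * lam ^ 3 * s ^ 7 / 2 := by ring
        _ ≤ ε * s * s ^ 7 / 2 := by linarith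
        _ = ε * n / 2 := by rw [hn8]; ring
    have t2 : (m : ℝ) * Real.log n ≤ ε * n / 2 := by
      have hlogpos : 0 < Real.log n := by linarith
      have h1 : Real.log n * Real.log n ≤ ℓ := by
        rw [hℓr, sq]
        exact mul_le_mul (by linarith) (by linarith) (by linarith) (by linarith)
      have h2 : (n : ℝ) / ℓ ≤ n / (Real.log n * Real.log n) :=
        div_le_div_of_nonneg_left hnr0 (by positivity) h1
      have h3 : (m : ℝ) * Real.log n ≤ n / (Real.log n * Real.log n) * Real.log n :=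
        mul_le_mul_of_nonneg_right (le_trans hmn h2) hlogpos.le
      have h4 : (n : ℝ) / (Real.log n * Real.log n) * Real.log n = n / Real.log n := by
        field_simp
      have h5 : (n : ℝ) / Real.log n ≤ n / (2 / ε) :=
        div_le_div_of_nonneg_left hnr0 (by positivity) hB
      have h6 : (n : ℝ) / (2 / ε) = ε * n / 2 := by
        field_simp
      linarith
    rw [add_mul]
    linarith
  · -- third estimate
    have hLpos : (0 : ℝ) < Lc := by linarith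
    have h1 : (n : ℝ) / Lc ≤ 2 * s ^ 6 := by
      rw [div_le_iff₀ hLpos, hn8]
      have := mul_le_mul_of_nonneg_left hLhalf (by positivity : (0 : ℝ) ≤ 2 * s ^ 6)
      calc s ^ 8 = 2 * s ^ 6 * (s ^ 2 / 2) := by ring
        _ ≤ 2 * s ^ 6 * Lc := this
    have h2 : (Lc : ℝ) ^ 3 ≤ s ^ 6 := by
      calc (Lc : ℝ) ^ 3 ≤ (s ^ 2) ^ 3 := pow_le_pow_left₀ hLpos.le hLle 3
        _ = s ^ 6 := by ring
    have h3 : (n : ℝ) / Lc + 2 * (Lc : ℝ) ^ 3 * (K : ℝ) ^ 2 ≤ 2 * (1 + (K : ℝ) ^ 2) * s ^ 6 := by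
      have := mul_le_mul_of_nonneg_right h2 (by positivity : (0 : ℝ) ≤ 2 * (K : ℝ) ^ 2)
      linarith
    have h4 : ((n : ℝ) / Lc + 2 * (Lc : ℝ) ^ 3 * (K : ℝ) ^ 2) * Real.log n ≤
        (2 * (1 + (K : ℝ) ^ 2) * s ^ 6) * lam :=
      mul_le_mul h3 (by linarith) (by linarith) (by positivity)
    have h5 := hsε (4 * (1 + (K : ℝ) ^ 2)) 1 (by norm_num) (by positivity) (by
      have h1 : 0 ≤ 48 * (K : ℝ) ^ 3 := by positivity
      have h2 : 0 ≤ 8 * (1 + (K : ℝ) ^ 2) := by positivity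
      linarith)
    have h6 := mul_le_mul_of_nonneg_right h5 (by positivity : (0 : ℝ) ≤ s ^ 6)
    have h7 := mul_le_mul_of_nonneg_left hchalf hε.le
    calc ((n : ℝ) / Lc + 2 * (Lc : ℝ) ^ 3 * (K : ℝ) ^ 2) * Real.log n
        ≤ (2 * (1 + (K : ℝ) ^ 2) * s ^ 6) * lam := h4
      _ = 4 * (1 + (K : ℝ) ^ 2) * lam ^ 1 * s ^ 6 / 2 := by ring
      _ ≤ ε * s * s ^ 6 / 2 := by linarith
      _ = ε * (s ^ 7 / 2) := by ring
      _ ≤ ε * c := h7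

end H33.BO
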