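import Pool.Agent.H33.BO.LgA
import Pool.Agent.H33.BO.CycB
import Pool.Agent.H33.BO.FreA
import Pool.Agent.H33.BO.DefA
import Pool.Agent.H33.BO.NumF

/-! # BO.FreB : the random structures of Part I exist (paper 2.1)

PARAMETERS: a constant `K ≥ 1` (depends on `W`, `Z`): larger than `(wb0 W).norm`, all the norms and lengths of the forms below, the constants of `lg`. `numF` for `K` and a small `ε'` gives for large `n`: `ℓ, c, m, Lc`. `gd := {σ | cyc (σ none) ≤ c ∧ cyc (lift σ (wb0 W)) ≤ c}`; for `σ ∈ gd`: `(m + cyc) ℓ ≤ n`, so `seg_ex`, `fam_ex` give `fB σ`, `fW σ`, `A σ`; for `σ ∉ gd` anything.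
By `cyc_bd` (for `of none` and `wb0 W`, with `L := Lc`; `of none ≠ 1`; `wb0 W ≠ 1`: its image under the homomorphism to `Multiplicative ℤ` that sends `none` to `1` and `some i` to `0` is nontrivial) `∑ σ cyc ≤ (n / Lc + 2 Lc^3 K^2) N ≤ ε' c N / log n`, `N = Nat.card (T0 k → Perm (Fin n))`, and by Markov `card (gdᶜ) ≤ 2 ε' N / log n` (`c ≤ n`).
PROOF. For `f ∈ Z` with `lift g f = 1`: `f ∈ normalClosure` (`hg.ker`), so `#{v | f v ≠ v} ≤ C_f #defs` (`lg`). For `f ∈ Z` with `lift g f ≠ 1`: `brit` gives a form, `lift g (fm h0 L) = lift g f ≠ 1`; `f v = v` implies `fm h0 L v = v` or `(f⁻¹ * fm h0 L) v ≠ v` (`lg` again). If `L = []` then `h0 ≠ 1` and `∑ σ #{v | lift σ h0 v = v} ≤ 2 norm^2 N` (`rf`).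
If `L ≠ []` then `freA` (on `gd`): `∑ σ ∑ π ≤ m! ε' n N` (the first inequality of `numF`); on the complement of `gd` the number is at most `n`: `≤ m! n 2 ε' N / log n`. `defs_bd`: on `gd` `#defs * log n ≤ ε' n` (second inequality of `numF`), off `gd`: `n log n * card gdᶜ ≤ 2 ε' n N`; so also `∑ #defs` is small. So `∑ σ ∑ π (sum over the f ∈ Z of the bad v) ≤ m! ε n N`:
for every `σ` choose `π` with the value at most the average over `π` (`Finset.exists_le_of_sum_le`), `α σ := A σ π` (the bound for `defs` holds for all `π`). `ac (mkX (α σ) σ) (nn W true) = lift σ (wb0 W)` (third claim: `∑ cyc * log n ≤ ε' c N ≤ ε n N`). -/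

set_option autoImplicit false

open MeasureTheory

namespace H33.BO

private lemma FreB_wb0_ne {k : ℕ} (W : Wd k) : wb0 W ≠ 1 := by
  intro h
  let φ : FreeGroup (T0 k) →* Multiplicative ℤ :=
    FreeGroup.lift (fun t : T0 k => Option.elim t (Multiplicative.ofAdd 1) (fun _ => 1))
  have h1 : ∀ W : Wd k, φ ((W.map sl0).prod) = 1 := by
    intro W
    induction W with
    | nil => simp
    | cons p W ih =>
      rw [List.map_cons, List.prod_cons, map_mul, ih, mul_one]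
      unfold sl0
      by_cases hp : p.2 <;> simp [hp, φ]
  have h2 : φ (wb0 W) = Multiplicative.ofAdd 1 := by
    unfold wb0
    rw [map_mul, h1, one_mul]
    simp [φ]
  rw [h, map_one] at h2
  have h3 : (0 : ℤ) = 1 := Multiplicative.ofAdd.injective h2
  omega

private lemma FreB_ac_io {k : ℕ} {V : Type} (α : Equiv.Perm V) (σ : T0 k → Equiv.Perm V)
    (u : FreeGroup (T0 k)) : ac (mkX α σ) (io u) = FreeGroup.lift σ u := by
  have h : (ac (mkX α σ)).comp io = FreeGroup.lift σ := by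
    apply FreeGroup.ext_hom
    intro t
    simp [io, ac, mkX]
  exact DFunLike.congr_fun h u

private lemma FreB_form {k : ℕ} {G : Type} [Group G] (W : Wd k) (g : Lt k → G) (hg : Pres W g) (f : Fg k) :
    ∃ (C : ℕ) (h0 : FreeGroup (T0 k)) (L : List (Bool × FreeGroup (T0 k))), rdc W L ∧
      (L = [] → FreeGroup.lift g f ≠ 1 → h0 ≠ 1) ∧
      ∀ (V : Type) [Finite V] (X : Lt k → Equiv.Perm V),
        {v | ¬ (ac X f v = v ↔ FreeGroup.lift g f = 1)}.ncard ≤ C * (defs W X).ncard +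
          {v | FreeGroup.lift g f ≠ 1 ∧ ac X (fm h0 L) v = v}.ncard := by
  obtain ⟨h0, L, hr, hm⟩ := brit W f
  by_cases hf : FreeGroup.lift g f = 1
  · have hk : f ∈ Subgroup.normalClosure {rel W} := by
      rw [← hg.ker]; exact hf
    obtain ⟨C, hC⟩ := lg W f hk
    refine ⟨C, h0, L, hr, fun _ h => absurd hf h, fun V _ X => ?_⟩
    have e : {v | ¬ (ac X f v = v ↔ FreeGroup.lift g f = 1)} = {v | ac X f v ≠ v} := by
      ext v; simp [hf]
    rw [e]
    exact le_trans (hC V X) (Nat.le_add_right _ _)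
  · obtain ⟨C, hC⟩ := lg W _ hm
    refine ⟨C, h0, L, hr, ?_, fun V _ X => ?_⟩
    · rintro rfl _ rfl
      apply hf
      have h1 : FreeGroup.lift g (f⁻¹ * fm 1 []) = 1 := by
        have : f⁻¹ * fm 1 [] ∈ (FreeGroup.lift g).ker := by rw [hg.ker]; exact hm
        exact this
      simpa [fm] using h1
    · have hsub : {v | ¬ (ac X f v = v ↔ FreeGroup.lift g f = 1)} ⊆
          {v | ac X (f⁻¹ * fm h0 L) v ≠ v} ∪ {v | FreeGroup.lift g f ≠ 1 ∧ ac X (fm h0 L) v = v} := by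
        intro v hv
        simp only [Set.mem_ofPred_eq, hf, iff_false, not_not] at hv
        by_cases h2 : ac X (fm h0 L) v = v
        · right; exact ⟨hf, h2⟩
        · left
          intro h3
          apply h2
          have h5 : ac X f (ac X (f⁻¹ * fm h0 L) v) = ac X f v := by rw [h3]
          rw [← Equiv.Perm.mul_apply, ← map_mul, mul_inv_cancel_left, hv] at h5
          exact h5
      refine le_trans (Set.ncard_le_ncard hsub (Set.toFinite _)) ?_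
      refine le_trans (Set.ncard_union_le _ _) ?_
      exact Nat.add_le_add_right (hC V X) _

private lemma FreB_cyc {k : ℕ} (K n c Lc : ℕ) (δ : ℝ) (hLc : 1 ≤ Lc) (hn : 2 * (Lc * K) ≤ n) (hn1 : 1 ≤ n)
    (h3 : ((n : ℝ) / Lc + 2 * (Lc : ℝ) ^ 3 * (K : ℝ) ^ 2) * Real.log n ≤ δ * c)
    (u : FreeGroup (T0 k)) (hu : u ≠ 1) (huK : u.norm ≤ K) :
    ∑ σ : T0 k → Equiv.Perm (Fin n), (cyc (FreeGroup.lift σ u) : ℝ) * Real.log n ≤
      δ * Nat.card (T0 k → Equiv.Perm (Fin n)) * c := by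
  have hlog : 0 ≤ Real.log n := Real.log_nonneg (by exact_mod_cast hn1)
  rw [← Finset.sum_mul]
  have h1 := cyc_bd u hu n Lc hLc (le_trans (Nat.mul_le_mul_left _ (Nat.mul_le_mul_left _ huK)) hn)
  have h2 : (u.norm : ℝ) ≤ K := by exact_mod_cast huK
  have hN : (0 : ℝ) ≤ Nat.card (T0 k → Equiv.Perm (Fin n)) := Nat.cast_nonneg _
  have h4 : (n : ℝ) / Lc + 2 * (Lc : ℝ) ^ 3 * (u.norm : ℝ) ^ 2 ≤
      (n : ℝ) / Lc + 2 * (Lc : ℝ) ^ 3 * (K : ℝ) ^ 2 := by
    have : (0 : ℝ) ≤ (u.norm : ℝ) := Nat.cast_nonneg _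
    gcongr
  calc (∑ σ : T0 k → Equiv.Perm (Fin n), (cyc (FreeGroup.lift σ u) : ℝ)) * Real.log n
      ≤ (((n : ℝ) / Lc + 2 * (Lc : ℝ) ^ 3 * (u.norm : ℝ) ^ 2) *
          Nat.card (T0 k → Equiv.Perm (Fin n))) * Real.log n := mul_le_mul_of_nonneg_right h1 hlog
    _ ≤ (((n : ℝ) / Lc + 2 * (Lc : ℝ) ^ 3 * (K : ℝ) ^ 2) *
          Nat.card (T0 k → Equiv.Perm (Fin n))) * Real.log n :=
        mul_le_mul_of_nonneg_right (mul_le_mul_of_nonneg_right h4 hN) hlog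
    _ = (((n : ℝ) / Lc + 2 * (Lc : ℝ) ^ 3 * (K : ℝ) ^ 2) * Real.log n) *
          Nat.card (T0 k → Equiv.Perm (Fin n)) := by ring
    _ ≤ (δ * c) * Nat.card (T0 k → Equiv.Perm (Fin n)) := mul_le_mul_of_nonneg_right h3 hN
    _ = δ * Nat.card (T0 k → Equiv.Perm (Fin n)) * c := by ring

private lemma FreB_markov {S : Type} [Fintype S] (x : S → ℕ) (c : ℕ) (hc : 1 ≤ c) (l B : ℝ) (hl : 0 ≤ l)
    (h : ∑ σ, (x σ : ℝ) * l ≤ B * c) :
    ((Finset.univ.filter fun σ => ¬ x σ ≤ c).card : ℝ) * l ≤ B := by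
  have hc0 : (0 : ℝ) < c := by exact_mod_cast hc
  have h1 : ((Finset.univ.filter fun σ => ¬ x σ ≤ c).card : ℝ) * (c * l) ≤ ∑ σ, (x σ : ℝ) * l := by
    calc ((Finset.univ.filter fun σ => ¬ x σ ≤ c).card : ℝ) * (c * l)
        = ∑ σ ∈ Finset.univ.filter fun σ => ¬ x σ ≤ c, (c : ℝ) * l := by
          rw [Finset.sum_const, nsmul_eq_mul]
      _ ≤ ∑ σ ∈ Finset.univ.filter fun σ => ¬ x σ ≤ c, (x σ : ℝ) * l := by
          refine Finset.sum_le_sum fun σ hσ => ?_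
          have h2 : c ≤ x σ := by
            have := (Finset.mem_filter.mp hσ).2
            omega
          exact mul_le_mul_of_nonneg_right (by exact_mod_cast h2) hl
      _ ≤ ∑ σ, (x σ : ℝ) * l :=
          Finset.sum_le_sum_of_subset_of_nonneg (Finset.filter_subset _ _)
            fun σ _ _ => mul_nonneg (Nat.cast_nonneg _) hl
  have h2 : (((Finset.univ.filter fun σ => ¬ x σ ≤ c).card : ℝ) * l) * c ≤ B * c := by
    calc (((Finset.univ.filter fun σ => ¬ x σ ≤ c).card : ℝ) * l) * c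
        = ((Finset.univ.filter fun σ => ¬ x σ ≤ c).card : ℝ) * (c * l) := by ring
      _ ≤ _ := le_trans h1 h
  exact le_of_mul_le_mul_right h2 hc0

private lemma FreB_f {k : ℕ} (W : Wd k) (K n m ℓ : ℕ) (δ : ℝ) (h0 : FreeGroup (T0 k))
    (L : List (Bool × FreeGroup (T0 k))) (hr : rdc W L) (P : Prop) (hne : L = [] → P → h0 ≠ 1)
    (hK1 : 1 ≤ K) (hKw : (wb0 W).norm ≤ K) (hKh : h0.norm ≤ K) (hKL : L.length ≤ K)
    (hKq : ∀ q ∈ L, q.2.norm ≤ K) (hl : 1 ≤ ℓ) (hm1 : 1 ≤ m) (hKm : 2 * K ≤ m) (hml : m * ℓ ≤ n)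
    (hKl : 2 * (K + ℓ * K) ≤ n)
    (hA1 : (K : ℝ) * ((n : ℝ) - m * ℓ) + K * (4 * ℓ * ((K : ℝ) + ℓ * K) ^ 2) +
      n * (2 + 2 * (K : ℝ) ^ 2 * ℓ) / m ≤ δ * n)
    (gd : Finset (T0 k → Equiv.Perm (Fin n))) (fB fW : (T0 k → Equiv.Perm (Fin n)) → Fin m × Fin ℓ → Fin n)
    (A : (T0 k → Equiv.Perm (Fin n)) → Equiv.Perm (Fin m) → Equiv.Perm (Fin n))
    (hfB : ∀ σ ∈ gd, segs (σ none) (fB σ)) (hfW : ∀ σ ∈ gd, segs (FreeGroup.lift σ (wb0 W)) (fW σ))
    (hA : ∀ σ ∈ gd, fam (fB σ) (fW σ) (A σ)) :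
    ∑ σ ∈ gd, ∑ π : Equiv.Perm (Fin m), ({v | P ∧ ac (mkX (A σ π) σ) (fm h0 L) v = v}.ncard : ℝ) ≤
      (m.factorial : ℝ) * (δ * n) * Nat.card (T0 k → Equiv.Perm (Fin n)) := by
  have hN : (0 : ℝ) ≤ Nat.card (T0 k → Equiv.Perm (Fin n)) := Nat.cast_nonneg _
  have hm0 : (0 : ℝ) < m := by exact_mod_cast hm1
  have hl0 : (1 : ℝ) ≤ ℓ := by exact_mod_cast hl
  have hK0 : (1 : ℝ) ≤ K := by exact_mod_cast hK1
  have hn0 : (0 : ℝ) ≤ n := Nat.cast_nonneg _
  have hmln : (0 : ℝ) ≤ (n : ℝ) - m * ℓ := by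
    have : (m : ℝ) * ℓ ≤ n := by exact_mod_cast hml
    linarith
  have hfac : (0 : ℝ) ≤ (m.factorial : ℝ) := Nat.cast_nonneg _
  have t1 : 0 ≤ (K : ℝ) * ((n : ℝ) - m * ℓ) := by positivity
  have t3 : 0 ≤ (n : ℝ) * (2 + 2 * (K : ℝ) ^ 2 * ℓ) / m := by positivity
  have t2 : 2 * (K : ℝ) ^ 2 ≤ K * (4 * ℓ * ((K : ℝ) + ℓ * K) ^ 2) := by
    have a1 : (K : ℝ) ≤ K + ℓ * K := by nlinarith
    have a2 : (K : ℝ) ^ 2 ≤ ((K : ℝ) + ℓ * K) ^ 2 := by gcongr
    have a3 : 2 * (K : ℝ) ^ 2 ≤ 4 * ℓ * ((K : ℝ) + ℓ * K) ^ 2 := by nlinarith [sq_nonneg (K : ℝ)]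
    have a4 : 0 ≤ 4 * (ℓ : ℝ) * ((K : ℝ) + ℓ * K) ^ 2 := by positivity
    nlinarith
  have hδ2 : 2 * (K : ℝ) ^ 2 ≤ δ * n := by linarith
  have hδ : 0 ≤ δ * n := le_trans (by positivity) hδ2
  by_cases hP : P
  · simp only [hP, true_and]
    by_cases hL : L = []
    · subst hL
      have hh := hne rfl hP
      have e1 : ∀ σ : T0 k → Equiv.Perm (Fin n), ∑ π : Equiv.Perm (Fin m),
          ({v | ac (mkX (A σ π) σ) (fm h0 []) v = v}.ncard : ℝ) =
          (m.factorial : ℝ) * ((Finset.univ.filter fun v => FreeGroup.lift σ h0 v = v).card : ℝ) := by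
        intro σ
        have e2 : ∀ π : Equiv.Perm (Fin m), ({v | ac (mkX (A σ π) σ) (fm h0 []) v = v}.ncard : ℝ) =
            ((Finset.univ.filter fun v => FreeGroup.lift σ h0 v = v).card : ℝ) := by
          intro π
          have e3 : fm (k := k) h0 [] = io h0 := by simp [fm]
          rw [e3, FreB_ac_io, ← Set.ncard_coe_finset]
          congr 2
          ext v
          simp
        rw [Finset.sum_congr rfl fun π _ => e2 π, Finset.sum_const, nsmul_eq_mul, Finset.card_univ,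
          Fintype.card_perm, Fintype.card_fin]
      rw [Finset.sum_congr rfl fun σ _ => e1 σ, ← Finset.mul_sum]
      have h2 : ∑ σ ∈ gd, ((Finset.univ.filter fun v => FreeGroup.lift σ h0 v = v).card : ℝ) ≤
          ∑ σ : T0 k → Equiv.Perm (Fin n), ((Finset.univ.filter fun v => FreeGroup.lift σ h0 v = v).card : ℝ) :=
        Finset.sum_le_sum_of_subset_of_nonneg (Finset.subset_univ _) fun _ _ _ => Nat.cast_nonneg _
      have hhn : 2 * h0.norm ≤ n := by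
        have : 2 * h0.norm ≤ 2 * (K + ℓ * K) := by
          have := Nat.zero_le (ℓ * K)
          omega
        omega
      have h3 := rf h0 hh n hhn
      have h4 : (h0.norm : ℝ) ≤ K := by exact_mod_cast hKh
      have h5 : 2 * (h0.norm : ℝ) ^ 2 ≤ δ * n := by
        have : (0 : ℝ) ≤ (h0.norm : ℝ) := Nat.cast_nonneg _
        have : (h0.norm : ℝ) ^ 2 ≤ (K : ℝ) ^ 2 := by gcongr
        linarith
      rw [mul_assoc]
      refine mul_le_mul_of_nonneg_left ?_ hfac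
      exact le_trans h2 (le_trans h3 (mul_le_mul_of_nonneg_right h5 hN))
    · have h2 := freA W h0 L hL hr K K hKq hK1 hKw n m ℓ hKl (by omega) hml gd fB fW A hfB hfW hA
      refine le_trans h2 (mul_le_mul_of_nonneg_right (mul_le_mul_of_nonneg_left ?_ hfac) hN)
      refine le_trans ?_ hA1
      have h4 : (L.length : ℝ) ≤ K := by exact_mod_cast hKL
      have h5 : (0 : ℝ) ≤ (L.length : ℝ) := Nat.cast_nonneg _
      gcongr
  · have e : ∑ σ ∈ gd, ∑ π : Equiv.Perm (Fin m),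
        ({v | P ∧ ac (mkX (A σ π) σ) (fm h0 L) v = v}.ncard : ℝ) = 0 := by
      refine Finset.sum_eq_zero fun σ _ => Finset.sum_eq_zero fun π _ => ?_
      simp [hP]
    rw [e]
    positivity

private lemma FreB_avg {m : ℕ} (S : Equiv.Perm (Fin m) → ℝ) :
    ∃ π, (m.factorial : ℝ) * S π ≤ ∑ π, S π := by
  have hf : (0 : ℝ) < (m.factorial : ℝ) := by exact_mod_cast m.factorial_pos
  obtain ⟨π, _, h⟩ := Finset.exists_le_of_sum_le (s := (Finset.univ : Finset (Equiv.Perm (Fin m))))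
    (f := S) (g := fun _ => (∑ π, S π) / (m.factorial : ℝ)) ⟨1, Finset.mem_univ _⟩ (by
      rw [Finset.sum_const, nsmul_eq_mul, Finset.card_univ, Fintype.card_perm, Fintype.card_fin]
      rw [mul_div_cancel₀ _ hf.ne'])
  refine ⟨π, ?_⟩
  rw [le_div_iff₀ hf] at h
  linarith

theorem freB {k : ℕ} {G : Type} [Group G] (W : Wd k) (g : Lt k → G) (hg : Pres W g) (Z : Finset (Fg k))
    (ε : ℝ) (hε : 0 < ε) :
    ∃ n0 : ℕ, ∀ n, n0 ≤ n → ∃ α : (T0 k → Equiv.Perm (Fin n)) → Equiv.Perm (Fin n),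
      (∑ σ, ({v | ∃ f ∈ Z, ¬ (ac (mkX (α σ) σ) f v = v ↔ FreeGroup.lift g f = 1)}.ncard : ℝ) ≤
        ε * n * Nat.card (T0 k → Equiv.Perm (Fin n))) ∧
      (∑ σ, ((defs W (mkX (α σ) σ)).ncard : ℝ) * Real.log n ≤ ε * n * Nat.card (T0 k → Equiv.Perm (Fin n))) ∧
      (∑ σ, (cyc (ac (mkX (α σ) σ) (nn W true)) : ℝ) * Real.log n ≤
        ε * n * Nat.card (T0 k → Equiv.Perm (Fin n))) := by
  classical
  choose Cf hf0 Lf hrd hne hbd using FreB_form W g hg
  obtain ⟨K, hK1, hKw, hKh, hKL, hKq⟩ : ∃ K : ℕ, 1 ≤ K ∧ (wb0 W).norm ≤ K ∧ (∀ f ∈ Z, (hf0 f).norm ≤ K) ∧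
      (∀ f ∈ Z, (Lf f).length ≤ K) ∧ (∀ f ∈ Z, ∀ q ∈ Lf f, q.2.norm ≤ K) := by
    refine ⟨1 + (wb0 W).norm + ∑ f ∈ Z, ((hf0 f).norm + (Lf f).length + ((Lf f).map (fun q => q.2.norm)).sum),
      by omega, by omega, fun f hf => ?_, fun f hf => ?_, fun f hf q hq => ?_⟩
    · have := Finset.single_le_sum (f := fun f => (hf0 f).norm + (Lf f).length +
        ((Lf f).map (fun q => q.2.norm)).sum) (fun _ _ => Nat.zero_le _) hf
      omega
    · have := Finset.single_le_sum (f := fun f => (hf0 f).norm + (Lf f).length +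
        ((Lf f).map (fun q => q.2.norm)).sum) (fun _ _ => Nat.zero_le _) hf
      omega
    · have h1 := Finset.single_le_sum (f := fun f => (hf0 f).norm + (Lf f).length +
        ((Lf f).map (fun q => q.2.norm)).sum) (fun _ _ => Nat.zero_le _) hf
      have h2 : q.2.norm ≤ ((Lf f).map (fun q => q.2.norm)).sum :=
        List.le_sum_of_mem (List.mem_map.mpr ⟨q, hq, rfl⟩)
      omega
  set C : ℕ := ∑ f ∈ Z, Cf f with hC
  set D : ℝ := 3 * ((C : ℝ) + Z.card + 1) with hD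
  have hD1 : 3 ≤ D := by
    have h1 : (0 : ℝ) ≤ C := Nat.cast_nonneg _
    have h2 : (0 : ℝ) ≤ Z.card := Nat.cast_nonneg _
    rw [hD]; linarith
  have hD0 : 0 < D := by linarith
  obtain ⟨n0, hn0⟩ := numF K (ε / D) (by positivity)
  refine ⟨max n0 3, fun n hn => ?_⟩
  obtain ⟨ℓ, c, m, Lc, hl1, hc1, hLc1, hm1, hKm, hmc, hKl, hLcK, hA1, hA2, hA3⟩ :=
    hn0 n (le_trans (le_max_left _ _) hn)
  have hn3 : 3 ≤ n := le_trans (le_max_right _ _) hn
  set δ : ℝ := ε / D with hδ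
  have hδ0 : 0 < δ := by positivity
  have hDδ : D * δ = ε := by rw [hδ]; field_simp
  have hnR : (3 : ℝ) ≤ n := by exact_mod_cast hn3
  have hlog1 : 1 ≤ Real.log n := by
    rw [Real.le_log_iff_exp_le (by linarith)]
    have := Real.exp_one_lt_d9
    linarith
  have hlog0 : 0 ≤ Real.log n := by linarith
  have hml : m * ℓ ≤ n := le_trans (Nat.mul_le_mul_right _ (Nat.le_add_right m c)) hmc
  have hcn : c ≤ n := by
    calc c ≤ (m + c) * 1 := by omega
      _ ≤ (m + c) * ℓ := Nat.mul_le_mul_left _ hl1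
      _ ≤ n := hmc
  set N : ℝ := (Nat.card (T0 k → Equiv.Perm (Fin n)) : ℝ) with hN
  have hN0 : 0 ≤ N := Nat.cast_nonneg _
  have hcard : ((Finset.univ : Finset (T0 k → Equiv.Perm (Fin n))).card : ℝ) = N := by
    rw [hN, Nat.card_eq_fintype_card, Finset.card_univ]
  have hcy1 : ∑ σ : T0 k → Equiv.Perm (Fin n), (cyc (FreeGroup.lift σ (FreeGroup.of none)) : ℝ) * Real.log n ≤
      δ * N * c := by
    refine FreB_cyc K n c Lc δ hLc1 hLcK (by omega) hA3 _ (FreeGroup.of_ne_one none) ?_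
    rw [FreeGroup.norm_of]
    exact hK1
  have hcy2 : ∑ σ : T0 k → Equiv.Perm (Fin n), (cyc (FreeGroup.lift σ (wb0 W)) : ℝ) * Real.log n ≤
      δ * N * c :=
    FreB_cyc K n c Lc δ hLc1 hLcK (by omega) hA3 _ (FreB_wb0_ne W) hKw
  have hmk1 := FreB_markov (fun σ : T0 k → Equiv.Perm (Fin n) => cyc (FreeGroup.lift σ (FreeGroup.of none)))
    c hc1 _ _ hlog0 hcy1
  have hmk2 := FreB_markov (fun σ : T0 k → Equiv.Perm (Fin n) => cyc (FreeGroup.lift σ (wb0 W)))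
    c hc1 _ _ hlog0 hcy2
  set gd : Finset (T0 k → Equiv.Perm (Fin n)) := Finset.univ.filter fun σ =>
    cyc (FreeGroup.lift σ (FreeGroup.of none)) ≤ c ∧ cyc (FreeGroup.lift σ (wb0 W)) ≤ c with hgd
  set bd : Finset (T0 k → Equiv.Perm (Fin n)) := Finset.univ.filter fun σ =>
    ¬ (cyc (FreeGroup.lift σ (FreeGroup.of none)) ≤ c ∧ cyc (FreeGroup.lift σ (wb0 W)) ≤ c) with hbdd
  have hbdc : (bd.card : ℝ) * Real.log n ≤ 2 * δ * N := by
    have h1 : bd ⊆ (Finset.univ.filter fun σ : T0 k → Equiv.Perm (Fin n) =>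
        ¬ cyc (FreeGroup.lift σ (FreeGroup.of none)) ≤ c) ∪
        (Finset.univ.filter fun σ : T0 k → Equiv.Perm (Fin n) => ¬ cyc (FreeGroup.lift σ (wb0 W)) ≤ c) := by
      intro σ hσ
      rw [hbdd, Finset.mem_filter] at hσ
      rw [Finset.mem_union, Finset.mem_filter, Finset.mem_filter]
      by_cases h : cyc (FreeGroup.lift σ (FreeGroup.of none)) ≤ c
      · right; exact ⟨Finset.mem_univ _, fun h2 => hσ.2 ⟨h, h2⟩⟩
      · left; exact ⟨Finset.mem_univ _, h⟩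
    have h2 : (bd.card : ℝ) ≤ ((Finset.univ.filter fun σ : T0 k → Equiv.Perm (Fin n) =>
        ¬ cyc (FreeGroup.lift σ (FreeGroup.of none)) ≤ c).card : ℝ) +
        ((Finset.univ.filter fun σ : T0 k → Equiv.Perm (Fin n) => ¬ cyc (FreeGroup.lift σ (wb0 W)) ≤ c).card : ℝ) := by
      exact_mod_cast le_trans (Finset.card_le_card h1) (Finset.card_union_le _ _)
    have h3 := mul_le_mul_of_nonneg_right h2 hlog0
    rw [add_mul] at h3
    linarith
  have hbdc1 : (bd.card : ℝ) ≤ 2 * δ * N := by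
    have h1 : (bd.card : ℝ) * 1 ≤ (bd.card : ℝ) * Real.log n :=
      mul_le_mul_of_nonneg_left hlog1 (Nat.cast_nonneg _)
    linarith
  -- data
  have hex : ∀ σ : T0 k → Equiv.Perm (Fin n), ∃ (fB fW : Fin m × Fin ℓ → Fin n)
      (A : Equiv.Perm (Fin m) → Equiv.Perm (Fin n)), σ ∈ gd → segs (σ none) fB ∧
        segs (FreeGroup.lift σ (wb0 W)) fW ∧ fam fB fW A := by
    intro σ
    by_cases hσ : σ ∈ gd
    · rw [hgd, Finset.mem_filter] at hσ
      obtain ⟨_, h1, h2⟩ := hσ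
      rw [FreeGroup.lift_apply_of] at h1
      obtain ⟨fB, hB⟩ := seg_ex (σ none) ℓ m hl1 (le_trans (Nat.mul_le_mul_right _ (by omega)) hmc)
      obtain ⟨fW, hW⟩ := seg_ex (FreeGroup.lift σ (wb0 W)) ℓ m hl1
        (le_trans (Nat.mul_le_mul_right _ (by omega)) hmc)
      obtain ⟨A, hA⟩ := fam_ex fB fW hB.1 hW.1
      exact ⟨fB, fW, A, fun _ => ⟨hB, hW, hA⟩⟩
    · exact ⟨fun _ => ⟨0, by omega⟩, fun _ => ⟨0, by omega⟩, fun _ => 1, fun h => absurd h hσ⟩
  choose fB fW A hdat using hex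
  -- the quantity to be averaged
  set S : (T0 k → Equiv.Perm (Fin n)) → Equiv.Perm (Fin m) → ℝ := fun σ π =>
    ∑ f ∈ Z, ({v | FreeGroup.lift g f ≠ 1 ∧ ac (mkX (A σ π) σ) (fm (hf0 f) (Lf f)) v = v}.ncard : ℝ) with hS
  choose π0 hπ0 using fun σ => FreB_avg (S σ)
  have hfac : (0 : ℝ) < (m.factorial : ℝ) := by exact_mod_cast m.factorial_pos
  have hSgd : ∑ σ ∈ gd, ∑ π, S σ π ≤ Z.card * ((m.factorial : ℝ) * (δ * n) * N) := by
    have e : ∑ σ ∈ gd, ∑ π, S σ π = ∑ f ∈ Z, ∑ σ ∈ gd, ∑ π : Equiv.Perm (Fin m),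
        ({v | FreeGroup.lift g f ≠ 1 ∧ ac (mkX (A σ π) σ) (fm (hf0 f) (Lf f)) v = v}.ncard : ℝ) := by
      have e1 : ∀ σ, ∑ π, S σ π = ∑ f ∈ Z, ∑ π : Equiv.Perm (Fin m),
          ({v | FreeGroup.lift g f ≠ 1 ∧ ac (mkX (A σ π) σ) (fm (hf0 f) (Lf f)) v = v}.ncard : ℝ) :=
        fun σ => Finset.sum_comm
      rw [Finset.sum_congr rfl fun σ _ => e1 σ, Finset.sum_comm]
    rw [e]
    calc ∑ f ∈ Z, ∑ σ ∈ gd, ∑ π : Equiv.Perm (Fin m),
        ({v | FreeGroup.lift g f ≠ 1 ∧ ac (mkX (A σ π) σ) (fm (hf0 f) (Lf f)) v = v}.ncard : ℝ)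
        ≤ ∑ f ∈ Z, ((m.factorial : ℝ) * (δ * n) * N) := by
          refine Finset.sum_le_sum fun f hf => ?_
          exact FreB_f W K n m ℓ δ (hf0 f) (Lf f) (hrd f) _ (hne f) hK1 hKw (hKh f hf) (hKL f hf)
            (hKq f hf) hl1 hm1 hKm hml hKl hA1 gd fB fW A (fun σ hσ => (hdat σ hσ).1)
            (fun σ hσ => (hdat σ hσ).2.1) (fun σ hσ => (hdat σ hσ).2.2)
      _ = Z.card * ((m.factorial : ℝ) * (δ * n) * N) := by
          rw [Finset.sum_const, nsmul_eq_mul]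
  have hSbd : ∑ σ ∈ bd, ∑ π, S σ π ≤ bd.card * ((m.factorial : ℝ) * (Z.card * n)) := by
    calc ∑ σ ∈ bd, ∑ π, S σ π ≤ ∑ σ ∈ bd, ∑ π : Equiv.Perm (Fin m), ((Z.card : ℝ) * n) := by
          refine Finset.sum_le_sum fun σ _ => Finset.sum_le_sum fun π _ => ?_
          calc S σ π ≤ ∑ f ∈ Z, (n : ℝ) := by
                refine Finset.sum_le_sum fun f _ => ?_
                have h1 : {v | FreeGroup.lift g f ≠ 1 ∧ ac (mkX (A σ π) σ) (fm (hf0 f) (Lf f)) v = v}.ncard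
                    ≤ Nat.card (Fin n) := by
                  rw [← Set.ncard_univ]
                  exact Set.ncard_le_ncard (Set.subset_univ _) (Set.toFinite _)
                rw [Nat.card_eq_fintype_card, Fintype.card_fin] at h1
                exact_mod_cast h1
            _ = (Z.card : ℝ) * n := by rw [Finset.sum_const, nsmul_eq_mul]
      _ = bd.card * ((m.factorial : ℝ) * (Z.card * n)) := by
          rw [Finset.sum_const, Finset.sum_const, nsmul_eq_mul, nsmul_eq_mul, Finset.card_univ,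
            Fintype.card_perm, Fintype.card_fin]
  have hsplit : ∀ F : (T0 k → Equiv.Perm (Fin n)) → ℝ, ∑ σ, F σ = ∑ σ ∈ gd, F σ + ∑ σ ∈ bd, F σ := by
    intro F
    rw [hgd, hbdd, Finset.sum_filter_add_sum_filter_not]
  have hStot : ∑ σ, S σ (π0 σ) ≤ 3 * Z.card * δ * n * N := by
    have h1 : (m.factorial : ℝ) * ∑ σ, S σ (π0 σ) ≤ ∑ σ, ∑ π, S σ π := by
      rw [Finset.mul_sum]
      exact Finset.sum_le_sum fun σ _ => hπ0 σ
    rw [hsplit (fun σ => ∑ π, S σ π)] at h1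
    have h2 : (m.factorial : ℝ) * ∑ σ, S σ (π0 σ) ≤ (m.factorial : ℝ) * (3 * Z.card * δ * n * N) := by
      have h3 : (bd.card : ℝ) * ((m.factorial : ℝ) * (Z.card * n)) ≤
          (2 * δ * N) * ((m.factorial : ℝ) * (Z.card * n)) :=
        mul_le_mul_of_nonneg_right hbdc1 (by positivity)
      calc (m.factorial : ℝ) * ∑ σ, S σ (π0 σ)
          ≤ Z.card * ((m.factorial : ℝ) * (δ * n) * N) + (2 * δ * N) * ((m.factorial : ℝ) * (Z.card * n)) := by
            linarith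
        _ = (m.factorial : ℝ) * (3 * Z.card * δ * n * N) := by ring
    exact le_of_mul_le_mul_left h2 hfac
  have hdefs : ∑ σ, ((defs W (mkX (A σ (π0 σ)) σ)).ncard : ℝ) * Real.log n ≤ 3 * δ * n * N := by
    rw [hsplit]
    have h1 : ∑ σ ∈ gd, ((defs W (mkX (A σ (π0 σ)) σ)).ncard : ℝ) * Real.log n ≤ δ * n * N := by
      calc ∑ σ ∈ gd, ((defs W (mkX (A σ (π0 σ)) σ)).ncard : ℝ) * Real.log n
          ≤ ∑ σ ∈ gd, δ * n := by
            refine Finset.sum_le_sum fun σ hσ => ?_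
            have h2 := defs_bd W σ (fB σ) (fW σ) (hdat σ hσ).1 (hdat σ hσ).2.1 (A σ) (hdat σ hσ).2.2 (π0 σ)
            exact le_trans (mul_le_mul_of_nonneg_right h2 hlog0) hA2
        _ ≤ ∑ σ : T0 k → Equiv.Perm (Fin n), δ * n :=
            Finset.sum_le_sum_of_subset_of_nonneg (Finset.subset_univ _) fun _ _ _ => by positivity
        _ = δ * n * N := by
            rw [Finset.sum_const, nsmul_eq_mul, hcard]; ring
    have h2 : ∑ σ ∈ bd, ((defs W (mkX (A σ (π0 σ)) σ)).ncard : ℝ) * Real.log n ≤ 2 * δ * n * N := by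
      calc ∑ σ ∈ bd, ((defs W (mkX (A σ (π0 σ)) σ)).ncard : ℝ) * Real.log n
          ≤ ∑ σ ∈ bd, (n : ℝ) * Real.log n := by
            refine Finset.sum_le_sum fun σ _ => ?_
            have h3 : (defs W (mkX (A σ (π0 σ)) σ)).ncard ≤ Nat.card (Fin n) := by
              rw [← Set.ncard_univ]
              exact Set.ncard_le_ncard (Set.subset_univ _) (Set.toFinite _)
            rw [Nat.card_eq_fintype_card, Fintype.card_fin] at h3
            exact mul_le_mul_of_nonneg_right (by exact_mod_cast h3) hlog0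
        _ = (n : ℝ) * ((bd.card : ℝ) * Real.log n) := by
            rw [Finset.sum_const, nsmul_eq_mul]; ring
        _ ≤ (n : ℝ) * (2 * δ * N) := mul_le_mul_of_nonneg_left hbdc (by positivity)
        _ = 2 * δ * n * N := by ring
    linarith
  have hdefs1 : ∑ σ, ((defs W (mkX (A σ (π0 σ)) σ)).ncard : ℝ) ≤ 3 * δ * n * N := by
    refine le_trans (Finset.sum_le_sum fun σ _ => ?_) hdefs
    exact le_mul_of_one_le_right (Nat.cast_nonneg _) hlog1
  have hnN : 0 ≤ δ * n * N := by positivity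
  refine ⟨fun σ => A σ (π0 σ), ?_, ?_, ?_⟩
  · have h1 : ∀ σ : T0 k → Equiv.Perm (Fin n),
        ({v | ∃ f ∈ Z, ¬ (ac (mkX (A σ (π0 σ)) σ) f v = v ↔ FreeGroup.lift g f = 1)}.ncard : ℝ) ≤
        C * ((defs W (mkX (A σ (π0 σ)) σ)).ncard : ℝ) + S σ (π0 σ) := by
      intro σ
      have h2 : {v | ∃ f ∈ Z, ¬ (ac (mkX (A σ (π0 σ)) σ) f v = v ↔ FreeGroup.lift g f = 1)} ⊆
          ⋃ f ∈ Z, {v | ¬ (ac (mkX (A σ (π0 σ)) σ) f v = v ↔ FreeGroup.lift g f = 1)} := by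
        intro v hv
        obtain ⟨f, hf, h⟩ := hv
        exact Set.mem_iUnion₂.mpr ⟨f, hf, h⟩
      have h3 : {v | ∃ f ∈ Z, ¬ (ac (mkX (A σ (π0 σ)) σ) f v = v ↔ FreeGroup.lift g f = 1)}.ncard ≤
          ∑ f ∈ Z, {v | ¬ (ac (mkX (A σ (π0 σ)) σ) f v = v ↔ FreeGroup.lift g f = 1)}.ncard :=
        le_trans (Set.ncard_le_ncard h2 (Set.toFinite _)) (Finset.set_ncard_biUnion_le _ _)
      have h4 : ∑ f ∈ Z, {v | ¬ (ac (mkX (A σ (π0 σ)) σ) f v = v ↔ FreeGroup.lift g f = 1)}.ncard ≤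
          ∑ f ∈ Z, (Cf f * (defs W (mkX (A σ (π0 σ)) σ)).ncard +
            {v | FreeGroup.lift g f ≠ 1 ∧ ac (mkX (A σ (π0 σ)) σ) (fm (hf0 f) (Lf f)) v = v}.ncard) :=
        Finset.sum_le_sum fun f _ => hbd f (Fin n) (mkX (A σ (π0 σ)) σ)
      rw [Finset.sum_add_distrib, ← Finset.sum_mul, ← hC] at h4
      have h5 : ((C * (defs W (mkX (A σ (π0 σ)) σ)).ncard + ∑ f ∈ Z,
            {v | FreeGroup.lift g f ≠ 1 ∧ ac (mkX (A σ (π0 σ)) σ) (fm (hf0 f) (Lf f)) v = v}.ncard : ℕ) : ℝ) =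
          C * ((defs W (mkX (A σ (π0 σ)) σ)).ncard : ℝ) + S σ (π0 σ) := by
        push_cast
        rfl
      rw [← h5]
      exact_mod_cast le_trans h3 h4
    calc ∑ σ, ({v | ∃ f ∈ Z, ¬ (ac (mkX (A σ (π0 σ)) σ) f v = v ↔ FreeGroup.lift g f = 1)}.ncard : ℝ)
        ≤ ∑ σ, (C * ((defs W (mkX (A σ (π0 σ)) σ)).ncard : ℝ) + S σ (π0 σ)) :=
          Finset.sum_le_sum fun σ _ => h1 σ
      _ = C * ∑ σ, ((defs W (mkX (A σ (π0 σ)) σ)).ncard : ℝ) + ∑ σ, S σ (π0 σ) := by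
          rw [Finset.sum_add_distrib, ← Finset.mul_sum]
      _ ≤ C * (3 * δ * n * N) + 3 * Z.card * δ * n * N :=
          add_le_add (mul_le_mul_of_nonneg_left hdefs1 (Nat.cast_nonneg _)) hStot
      _ = (3 * ((C : ℝ) + Z.card)) * (δ * n * N) := by ring
      _ ≤ D * (δ * n * N) := mul_le_mul_of_nonneg_right (by rw [hD]; linarith) hnN
      _ = (D * δ) * n * N := by ring
      _ = ε * n * N := by rw [hDδ]
  · refine le_trans hdefs ?_
    calc 3 * δ * n * N = 3 * (δ * n * N) := by ring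
      _ ≤ D * (δ * n * N) := mul_le_mul_of_nonneg_right hD1 hnN
      _ = (D * δ) * n * N := by ring
      _ = ε * n * N := by rw [hDδ]
  · have e : ∀ σ : T0 k → Equiv.Perm (Fin n), ac (mkX (A σ (π0 σ)) σ) (nn W true) =
        FreeGroup.lift σ (wb0 W) := by
      intro σ
      have e1 : nn W true = io (wb0 W) := by
        rw [io_wb0]; simp [nn]
      rw [e1, FreB_ac_io]
    have h1 : ∑ σ : T0 k → Equiv.Perm (Fin n), (cyc (ac (mkX (A σ (π0 σ)) σ) (nn W true)) : ℝ) * Real.log n =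
        ∑ σ : T0 k → Equiv.Perm (Fin n), (cyc (FreeGroup.lift σ (wb0 W)) : ℝ) * Real.log n :=
      Finset.sum_congr rfl fun σ _ => by rw [e]
    rw [h1]
    refine le_trans hcy2 ?_
    have hcn' : (c : ℝ) ≤ n := by exact_mod_cast hcn
    calc δ * N * c ≤ δ * N * n := mul_le_mul_of_nonneg_left hcn' (by positivity)
      _ = 1 * (δ * n * N) := by ring
      _ ≤ D * (δ * n * N) := mul_le_mul_of_nonneg_right (by linarith) hnN
      _ = (D * δ) * n * N := by ring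
      _ = ε * n * N := by rw [hDδ]

end H33.BO
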