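import Pool.Agent.H33.BO.Defs2

/-! # BO.LawA : the law of the configuration at a free vertex (paper 2.2)

PROOF. Let `m a = ν.real (q ⁻¹' {a})`, `∑ a, m a = 1` (`hq`; `H31.BE.entF_sum`). Let `H := Z.image (lift g)` (finset of `G`), and for `h ∈ H` choose `w_h ∈ Z` with `lift g w_h = h`; `ι h := ac X w_h v`, injective on `H` by `hv`, and `ac X w v = ι (lift g w)` for all `w ∈ Z`.
For `c : H → A` let `t_c : Fg k → A` be a configuration with `t_c w = c (lift g w)` for `w ∈ Z`. Then (`hF`) `F (vt X γ v) = F (t_c)` for `c = γ ∘ ι` and `F (tt g q y) = F (t_c)` for `c h = q (y h⁻¹)` (`(h • y) 1 = y (h⁻¹ * 1)`).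
So both sides are `∑ c, (prob of c) * [F (t_c) = b]`, with prob of `c` `= ∏ h, m (c h)` in both cases: right side: `bern_pi` for the coordinates `h⁻¹`, `h ∈ H` (compare `H31.BE.hind_lab`; the event is `{y | ∀ i ∈ H.image inv, y i ∈ q ⁻¹' {c i⁻¹}}`), and additivity over the finitely many `c`. Left side: for an injective `ι : H → V`:
`∑ γ, (∏ u, m (γ u)) * [∀ h, γ (ι h) = c h] = ∏ u, ∑ a, m a * (if u = ι h then [a = c h] else 1) = ∏ h, m (c h)` (`Finset.prod_univ_sum`, `Fintype.piFinset_univ`). -/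

set_option autoImplicit false

open MeasureTheory H31.BE

namespace H33.BO

private theorem marg_one {A V K : Type} [DecidableEq A] [DecidableEq V] [DecidableEq K]
    [Fintype A] [Fintype V] [Fintype K] (m : A → ℝ) (hm : ∑ a, m a = 1)
    (ι : K → V) (hι : Function.Injective ι) (c : K → A) :
    ∑ γ : V → A, (∏ u, m (γ u)) * (if γ ∘ ι = c then (1 : ℝ) else 0) = ∏ h, m (c h) := by
  have e1 : ∀ γ : V → A, (∏ u, m (γ u)) * (if γ ∘ ι = c then (1 : ℝ) else 0) =
      ∏ u, (m (γ u) * (if ∀ h, ι h = u → γ u = c h then (1 : ℝ) else 0)) := by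
    intro γ
    rw [Finset.prod_mul_distrib, Finset.prod_ite_zero, Finset.prod_const_one]
    have e2 : (γ ∘ ι = c) ↔ (∀ i ∈ Finset.univ, ∀ h, ι h = i → γ i = c h) := by
      constructor
      · intro h1 i _ h h2
        rw [← h1, ← h2]
        rfl
      · intro h1
        funext h
        exact h1 (ι h) (Finset.mem_univ _) h rfl
    by_cases h3 : γ ∘ ι = c
    · rw [if_pos h3, if_pos (e2.1 h3)]
    · rw [if_neg h3, if_neg (fun h4 => h3 (e2.2 h4))]
  rw [Finset.sum_congr rfl fun γ _ => e1 γ]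
  have e3 := Finset.prod_univ_sum (fun _ : V => (Finset.univ : Finset A))
    (fun (u : V) (a : A) => m a * (if ∀ h, ι h = u → a = c h then (1 : ℝ) else 0))
  rw [Fintype.piFinset_univ] at e3
  rw [← e3]
  have e4 : ∀ u : V, u ∉ Finset.univ.image ι →
      ∑ a, m a * (if ∀ h, ι h = u → a = c h then (1 : ℝ) else 0) = 1 := by
    intro u hu
    refine Eq.trans ?_ hm
    refine Finset.sum_congr rfl fun a _ => ?_
    rw [if_pos, mul_one]
    intro h hh
    exact absurd (Finset.mem_image.2 ⟨h, Finset.mem_univ _, hh⟩) hu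
  have e5 : ∀ h : K, ∑ a, m a * (if ∀ h', ι h' = ι h → a = c h' then (1 : ℝ) else 0) = m (c h) := by
    intro h
    rw [Finset.sum_eq_single (c h)]
    · rw [if_pos, mul_one]
      intro h' hh
      rw [hι hh]
    · intro a _ ha
      rw [if_neg, mul_zero]
      intro h1
      exact ha (h1 h rfl)
    · intro h1
      exact absurd (Finset.mem_univ _) h1
  rw [← Finset.prod_subset (Finset.subset_univ (Finset.univ.image ι)) (fun u _ hu => e4 u hu),
    Finset.prod_image (fun x _ y _ hxy => hι hxy)]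
  exact Finset.prod_congr rfl fun h _ => e5 h

private theorem marg {A V K : Type} [DecidableEq V] [DecidableEq K]
    [Fintype A] [Fintype V] [Fintype K] (m : A → ℝ) (hm : ∑ a, m a = 1)
    (ι : K → V) (hι : Function.Injective ι) (Ψ : (K → A) → ℝ) :
    ∑ γ : V → A, (∏ u, m (γ u)) * Ψ (γ ∘ ι) = ∑ c : K → A, (∏ h, m (c h)) * Ψ c := by
  classical
  have e1 : ∀ γ : V → A, (∏ u, m (γ u)) * Ψ (γ ∘ ι) =
      ∑ c : K → A, (∏ u, m (γ u)) * (if γ ∘ ι = c then (1 : ℝ) else 0) * Ψ c := by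
    intro γ
    rw [Finset.sum_eq_single (γ ∘ ι)]
    · rw [if_pos rfl, mul_one]
    · intro c _ hc
      rw [if_neg (fun h => hc h.symm), mul_zero, zero_mul]
    · intro h1
      exact absurd (Finset.mem_univ _) h1
  rw [Finset.sum_congr rfl fun γ _ => e1 γ, Finset.sum_comm]
  refine Finset.sum_congr rfl fun c _ => ?_
  rw [← Finset.sum_mul, marg_one m hm ι hι c]

private theorem sum_one {A : Type} [Fintype A] (ν : Measure ℝ) [IsProbabilityMeasure ν] (q : ℝ → A) (hq : Fm q) :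
    ∑ a, ν.real (q ⁻¹' {a}) = 1 := by
  have h := sum_measureReal_preimage_singleton (μ := ν) (Finset.univ : Finset A) (f := q) (fun y _ => hq y)
  rw [h]
  simp

open Classical in
theorem law1 {k : ℕ} {G : Type} [Group G] [DecidableEq G] (g : Lt k → G) {A B V : Type} [Fintype A] [Fintype V]
    (ν : Measure ℝ) [IsProbabilityMeasure ν] (q : ℝ → A) (hq : Fm q) (Z : Finset (Fg k))
    (F : (Fg k → A) → B) (hF : Loc Z F) (X : Lt k → Equiv.Perm V) (v : V)
    (hv : ∀ w ∈ Z, ∀ w' ∈ Z, (ac X w v = ac X w' v ↔ FreeGroup.lift g w = FreeGroup.lift g w')) (b : B) :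
    ∑ γ : V → A, (∏ u, ν.real (q ⁻¹' {γ u})) * (if F (vt X γ v) = b then 1 else 0) =
      (bern G ν).real {y | F (tt g q y) = b} := by
  have hm := sum_one ν q hq
  obtain ⟨H, hH⟩ : ∃ H : Finset G, ∀ x, x ∈ H ↔ ∃ w ∈ Z, FreeGroup.lift g w = x :=
    ⟨Z.image (FreeGroup.lift g), fun x => Finset.mem_image⟩
  have hw : ∀ h : H, ∃ w ∈ Z, FreeGroup.lift g w = (h : G) := fun h => (hH h).1 h.2
  choose ww hwZ hwg using hw
  obtain ⟨T, hT⟩ : ∃ T : (H → A) → (Fg k → A), ∀ c w (hw : FreeGroup.lift g w ∈ H),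
      T c w = c ⟨FreeGroup.lift g w, hw⟩ :=
    ⟨fun c w => if h : FreeGroup.lift g w ∈ H then c ⟨FreeGroup.lift g w, h⟩ else q 0,
      fun c w hw => dif_pos hw⟩
  have hmem : ∀ w ∈ Z, FreeGroup.lift g w ∈ H := fun w hw => (hH _).2 ⟨w, hw, rfl⟩
  -- the left side
  have hι : Function.Injective (fun h : H => ac X (ww h) v) := by
    intro h h' hh
    have h1 := (hv _ (hwZ h) _ (hwZ h')).1 hh
    rw [hwg, hwg] at h1
    exact Subtype.ext h1
  have hL : ∀ γ : V → A, F (vt X γ v) = F (T (γ ∘ fun h : H => ac X (ww h) v)) := by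
    intro γ
    apply hF
    intro w hwz
    rw [hT _ w (hmem w hwz)]
    show γ (ac X w v) = γ (ac X (ww ⟨FreeGroup.lift g w, hmem w hwz⟩) v)
    rw [(hv _ hwz _ (hwZ ⟨FreeGroup.lift g w, hmem w hwz⟩)).2 (hwg ⟨FreeGroup.lift g w, hmem w hwz⟩).symm]
  have e1 : ∑ γ : V → A, (∏ u, ν.real (q ⁻¹' {γ u})) * (if F (vt X γ v) = b then (1 : ℝ) else 0) =
      ∑ c : H → A, (∏ h, ν.real (q ⁻¹' {c h})) * (if F (T c) = b then (1 : ℝ) else 0) := by
    rw [← marg (fun a => ν.real (q ⁻¹' {a})) hm (fun h : H => ac X (ww h) v) hι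
      (fun c => if F (T c) = b then (1 : ℝ) else 0)]
    refine Finset.sum_congr rfl fun γ _ => ?_
    rw [hL γ]
  rw [e1]
  -- the right side
  have hpt : ∀ c : H → A, {y : Bsh G | (fun h : H => q (y (h : G)⁻¹)) = c} =
      {y : Bsh G | ∀ i ∈ H.image (fun x => x⁻¹), y i ∈
        (if h : i⁻¹ ∈ H then q ⁻¹' {c ⟨i⁻¹, h⟩} else Set.univ)} := by
    intro c
    ext y
    constructor
    · intro h1 i hi
      obtain ⟨x, hx, rfl⟩ := Finset.mem_image.1 hi
      have h2 : x⁻¹⁻¹ ∈ H := by rw [inv_inv]; exact hx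
      rw [dif_pos h2]
      have h3 := congrFun (show (fun h : H => q (y (h : G)⁻¹)) = c from h1) ⟨x⁻¹⁻¹, h2⟩
      show q (y x⁻¹) = c ⟨x⁻¹⁻¹, h2⟩
      rw [← h3]
      show q (y x⁻¹) = q (y x⁻¹⁻¹⁻¹)
      rw [inv_inv]
    · intro h1
      show (fun h : H => q (y (h : G)⁻¹)) = c
      funext h
      have h2 := h1 (h : G)⁻¹ (Finset.mem_image_of_mem _ h.2)
      have h3 : ((h : G)⁻¹)⁻¹ ∈ H := by rw [inv_inv]; exact h.2
      rw [dif_pos h3] at h2
      have h4 : q (y (h : G)⁻¹) = c ⟨((h : G)⁻¹)⁻¹, h3⟩ := h2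
      rw [h4]
      congr 1
      exact Subtype.ext (inv_inv _)
  have hms : ∀ (c : H → A) (i : G), MeasurableSet
      (if h : i⁻¹ ∈ H then q ⁻¹' {c ⟨i⁻¹, h⟩} else Set.univ) := by
    intro c i
    by_cases h : i⁻¹ ∈ H
    · rw [dif_pos h]
      exact hq _
    · rw [dif_neg h]
      exact MeasurableSet.univ
  have hmea : ∀ c : H → A, MeasurableSet ((fun (y : Bsh G) (h : H) => q (y (h : G)⁻¹)) ⁻¹' {c}) := by
    intro c
    have : (fun (y : Bsh G) (h : H) => q (y (h : G)⁻¹)) ⁻¹' {c} =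
        {y : Bsh G | (fun h : H => q (y (h : G)⁻¹)) = c} := rfl
    rw [this, hpt c]
    exact measurableSet_rect _ _ (fun i _ => hms c i)
  have hval : ∀ c : H → A, (bern G ν).real ((fun (y : Bsh G) (h : H) => q (y (h : G)⁻¹)) ⁻¹' {c}) =
      ∏ h, ν.real (q ⁻¹' {c h}) := by
    intro c
    have : (fun (y : Bsh G) (h : H) => q (y (h : G)⁻¹)) ⁻¹' {c} =
        {y : Bsh G | (fun h : H => q (y (h : G)⁻¹)) = c} := rfl
    rw [this, hpt c, measureReal_def, bern_pi ν _ _ (fun i _ => hms c i),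
      Finset.prod_image (fun x _ y _ hxy => inv_injective hxy), ← Finset.prod_coe_sort, ENNReal.toReal_prod]
    refine Finset.prod_congr rfl fun h _ => ?_
    rw [measureReal_def]
    have h3 : ((h : G)⁻¹)⁻¹ ∈ H := by rw [inv_inv]; exact h.2
    rw [dif_pos h3]
    have h4 : (⟨((h : G)⁻¹)⁻¹, h3⟩ : H) = h := Subtype.ext (inv_inv _)
    rw [h4]
  have hR : ∀ y : Bsh G, F (tt g q y) = F (T (fun h : H => q (y (h : G)⁻¹))) := by
    intro y
    apply hF
    intro w hwz
    rw [hT _ w (hmem w hwz)]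
    show q ((FreeGroup.lift g w)⁻¹ • y |> fun _ => y ((FreeGroup.lift g w)⁻¹ * 1)) = q (y (FreeGroup.lift g w)⁻¹)
    rw [mul_one]
  have e2 : {y : Bsh G | F (tt g q y) = b} = (fun (y : Bsh G) (h : H) => q (y (h : G)⁻¹)) ⁻¹'
      ((Finset.univ.filter (fun c : H → A => F (T c) = b) : Finset (H → A)) : Set (H → A)) := by
    ext y
    show F (tt g q y) = b ↔ _
    rw [hR y]
    simp
  rw [e2, ← sum_measureReal_preimage_singleton (μ := bern G ν) _ (fun c _ => hmea c), Finset.sum_filter]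
  refine Finset.sum_congr rfl fun c _ => ?_
  rw [hval c]
  by_cases h : F (T c) = b
  · rw [if_pos h, if_pos h, mul_one]
  · rw [if_neg h, if_neg h, mul_zero]

end H33.BO
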