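import Pool.Agent.H33.BO.LawA

/-! # BO.LawB : concentration of the empirical distribution (paper 2.2)

PROOF. `m a = ν.real (q ⁻¹' {a})`, `E` = expectation with the weights `∏ u, m (γ u)` (total 1), `P = (bern G ν).real {F (tt g q y) = b} ∈ [0, 1]`, `bad` = the set on the right side, `ξ v γ := [F (vt X γ v) = b] - P` for `v ∉ bad`. `|#{v | F = b} - n P| ≤ #bad + |∑ v ∉ bad, ξ v|`. By `law1` `E ξ v = 0`.
For `v, v' ∉ bad` with disjoint windows `{ac X w v | w ∈ Z}`, `{ac X w v' | w ∈ Z}` the variables `ξ v`, `ξ v'` are functions of disjoint sets of coordinates, so `E (ξ v ξ v') = E ξ v * E ξ v' = 0` (product weights: write `γ` as a pair (restriction to a set `D` of coordinates, restriction to the complement), `Equiv.piEquivPiSubtypeProd` or `Fintype.sum` over `(D → A) × (Dᶜ → A)`).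
For given `v` the number of `v'` with `ac X w v = ac X w' v'` for some `w, w' ∈ Z` is at most `Z.card ^ 2`. `|ξ| ≤ 1`. So `E (∑ ξ)^2 ≤ n Z.card^2` and `E |∑ ξ| ≤ Z.card √n` (Cauchy-Schwarz as at the end of `H31.BE.pw_dev` in MWgt). -/

set_option autoImplicit false

open MeasureTheory H31.BE

namespace H33.BO

/-- independence of functions of disjoint sets of coordinates -/
private theorem LawB_ind {A V : Type} [Fintype A] [Fintype V] [DecidableEq V] (m : A → ℝ)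
    (hm : ∑ a, m a = 1) (D : Finset V) (Ψ1 Ψ2 : (V → A) → ℝ)
    (h1 : ∀ γ γ' : V → A, (∀ u ∈ D, γ u = γ' u) → Ψ1 γ = Ψ1 γ')
    (h2 : ∀ γ γ' : V → A, (∀ u, u ∉ D → γ u = γ' u) → Ψ2 γ = Ψ2 γ') :
    ∑ γ : V → A, (∏ u, m (γ u)) * (Ψ1 γ * Ψ2 γ) =
      (∑ γ : V → A, (∏ u, m (γ u)) * Ψ1 γ) * ∑ γ : V → A, (∏ u, m (γ u)) * Ψ2 γ := by
  classical
  have hA : Nonempty A := by
    by_contra h
    rw [not_nonempty_iff] at h
    rw [Finset.univ_eq_empty, Finset.sum_empty] at hm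
    exact zero_ne_one hm
  obtain ⟨a0⟩ := hA
  let e := Equiv.piEquivPiSubtypeProd (fun u : V => u ∈ D) (fun _ => A)
  have hW : ∀ p, ∏ u, m (e.symm p u) = (∏ i, m (p.1 i)) * ∏ i, m (p.2 i) := by
    intro p
    rw [← Fintype.prod_subtype_mul_prod_subtype (fun u : V => u ∈ D) (fun u => m (e.symm p u))]
    congr 1
    · refine Finset.prod_congr (by ext x; simp) fun i _ => ?_
      congr 1
      exact dif_pos i.2
    · refine Finset.prod_congr (by ext x; simp) fun i _ => ?_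
      congr 1
      exact dif_neg i.2
  have hΨ1 : ∀ p, Ψ1 (e.symm p) = Ψ1 (e.symm (p.1, fun _ => a0)) := by
    intro p
    apply h1
    intro u hu
    show (if h : u ∈ D then p.1 ⟨u, h⟩ else p.2 ⟨u, h⟩) = (if h : u ∈ D then p.1 ⟨u, h⟩ else a0)
    rw [dif_pos hu, dif_pos hu]
  have hΨ2 : ∀ p, Ψ2 (e.symm p) = Ψ2 (e.symm (fun _ => a0, p.2)) := by
    intro p
    apply h2
    intro u hu
    show (if h : u ∈ D then p.1 ⟨u, h⟩ else p.2 ⟨u, h⟩) = (if h : u ∈ D then a0 else p.2 ⟨u, h⟩)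
    rw [dif_neg hu, dif_neg hu]
  have ht : ∀ (K : Type) [Fintype K] [DecidableEq K], ∑ x : K → A, ∏ i, m (x i) = 1 := by
    intro K _ _
    have h := Finset.prod_univ_sum (fun _ : K => (Finset.univ : Finset A)) (fun (_ : K) (a : A) => m a)
    rw [Fintype.piFinset_univ] at h
    rw [← h]
    exact Finset.prod_eq_one fun i _ => hm
  have hs : ∀ Ψ : (V → A) → ℝ, ∑ γ : V → A, (∏ u, m (γ u)) * Ψ γ =
      ∑ p, (∏ i, m (p.1 i)) * (∏ i, m (p.2 i)) * Ψ (e.symm p) := by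
    intro Ψ
    rw [← Equiv.sum_comp e.symm]
    refine Finset.sum_congr rfl fun p _ => ?_
    rw [hW]
  have e1 : ∑ γ : V → A, (∏ u, m (γ u)) * Ψ1 γ =
      ∑ α, (∏ i, m (α i)) * Ψ1 (e.symm (α, fun _ => a0)) := by
    rw [hs, Fintype.sum_prod_type]
    refine Finset.sum_congr rfl fun α _ => ?_
    have : ∀ β, (∏ i, m (α i)) * (∏ i, m (β i)) * Ψ1 (e.symm (α, β)) =
        (∏ i, m (β i)) * ((∏ i, m (α i)) * Ψ1 (e.symm (α, fun _ => a0))) := by
      intro β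
      rw [hΨ1 (α, β)]
      ring
    rw [Finset.sum_congr rfl fun β _ => this β, ← Finset.sum_mul, ht, one_mul]
  have e2 : ∑ γ : V → A, (∏ u, m (γ u)) * Ψ2 γ =
      ∑ β, (∏ i, m (β i)) * Ψ2 (e.symm (fun _ => a0, β)) := by
    rw [hs, Fintype.sum_prod_type_right]
    refine Finset.sum_congr rfl fun β _ => ?_
    have : ∀ α, (∏ i, m (α i)) * (∏ i, m (β i)) * Ψ2 (e.symm (α, β)) =
        (∏ i, m (α i)) * ((∏ i, m (β i)) * Ψ2 (e.symm (fun _ => a0, β))) := by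
      intro α
      rw [hΨ2 (α, β)]
      ring
    rw [Finset.sum_congr rfl fun α _ => this α, ← Finset.sum_mul, ht, one_mul]
  rw [e1, e2, hs, Fintype.sum_prod_type, Finset.sum_mul_sum]
  refine Finset.sum_congr rfl fun α _ => Finset.sum_congr rfl fun β _ => ?_
  rw [hΨ1 (α, β), hΨ2 (α, β)]
  ring

theorem lawB {k : ℕ} {G : Type} [Group G] [DecidableEq G] (g : Lt k → G) {A B : Type} [Fintype A]
    (ν : Measure ℝ) [IsProbabilityMeasure ν] (q : ℝ → A) (hq : Fm q) (Z : Finset (Fg k))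
    (F : (Fg k → A) → B) (hF : Loc Z F) (n : ℕ) (X : Lt k → Equiv.Perm (Fin n)) (b : B) :
    ∑ γ : Fin n → A, (∏ u, ν.real (q ⁻¹' {γ u})) *
        |({v | F (vt X γ v) = b}.ncard : ℝ) - n * (bern G ν).real {y | F (tt g q y) = b}| ≤
      ({v | ∃ w ∈ Z, ∃ w' ∈ Z, ¬ (ac X w v = ac X w' v ↔
        FreeGroup.lift g w = FreeGroup.lift g w')}.ncard : ℝ) + Z.card * Real.sqrt n := by
  classical
  set P : ℝ := (bern G ν).real {y | F (tt g q y) = b} with hP
  have hP0 : 0 ≤ P := measureReal_nonneg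
  have hP1 : P ≤ 1 := measureReal_le_one
  set bad : Set (Fin n) := {v | ∃ w ∈ Z, ∃ w' ∈ Z, ¬ (ac X w v = ac X w' v ↔
        FreeGroup.lift g w = FreeGroup.lift g w')} with hbad
  have hm : ∑ a, ν.real (q ⁻¹' {a}) = 1 := by
    have h := sum_measureReal_preimage_singleton (μ := ν) (Finset.univ : Finset A) (f := q)
      (fun y _ => hq y)
    rw [h]
    simp
  set m : A → ℝ := fun a => ν.real (q ⁻¹' {a}) with hmdef
  have hm0 : ∀ a, 0 ≤ m a := fun a => measureReal_nonneg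
  set wt : (Fin n → A) → ℝ := fun γ => ∏ u, m (γ u) with hwt
  have hwt0 : ∀ γ, 0 ≤ wt γ := fun γ => Finset.prod_nonneg fun u _ => hm0 _
  have hwt1 : ∑ γ, wt γ = 1 := by
    have h := Finset.prod_univ_sum (fun _ : Fin n => (Finset.univ : Finset A))
      (fun (_ : Fin n) (a : A) => m a)
    rw [Fintype.piFinset_univ] at h
    rw [← h]
    exact Finset.prod_eq_one fun i _ => hm
  set ξ : Fin n → (Fin n → A) → ℝ := fun v γ => (if F (vt X γ v) = b then (1 : ℝ) else 0) - P with hξ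
  have hξ1 : ∀ v γ, |ξ v γ| ≤ 1 := by
    intro v γ
    rw [hξ]
    simp only
    split_ifs
    · rw [abs_le]; constructor <;> linarith
    · rw [abs_le]; constructor <;> linarith
  -- mean zero
  have hmean : ∀ v, v ∉ bad → ∑ γ, wt γ * ξ v γ = 0 := by
    intro v hv
    have hv' : ∀ w ∈ Z, ∀ w' ∈ Z, (ac X w v = ac X w' v ↔ FreeGroup.lift g w = FreeGroup.lift g w') := by
      intro w hw w' hw'
      by_contra h
      exact hv ⟨w, hw, w', hw', h⟩
    have h1 := law1 g ν q hq Z F hF X v hv' b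
    have h2 : ∑ γ, wt γ * ξ v γ = ∑ γ, wt γ * (if F (vt X γ v) = b then (1 : ℝ) else 0) -
        (∑ γ, wt γ) * P := by
      rw [Finset.sum_mul, ← Finset.sum_sub_distrib]
      exact Finset.sum_congr rfl fun γ _ => by rw [hξ]; ring
    rw [h2, hwt1, one_mul, sub_eq_zero]
    have e0 : ∀ (i1 i2 : Fintype (Fin n → A)) (f : (Fin n → A) → ℝ),
        (@Finset.univ _ i1).sum f = (@Finset.univ _ i2).sum f := by
      intro i1 i2 f
      rw [Subsingleton.elim i1 i2]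
    refine Eq.trans (Eq.trans (Finset.sum_congr rfl fun γ _ => ?_) (e0 _ _ _)) h1
    by_cases hb : F (vt X γ v) = b
    · have e1 : (if F (vt X γ v) = b then (1 : ℝ) else 0) = 1 := if_pos hb
      rw [e1]
    · have e1 : (if F (vt X γ v) = b then (1 : ℝ) else 0) = 0 := if_neg hb
      rw [e1]
  -- independence
  have hind : ∀ v v', v ∉ bad → v' ∉ bad → (∀ w ∈ Z, ∀ w' ∈ Z, ac X w v ≠ ac X w' v') →
      ∑ γ, wt γ * (ξ v γ * ξ v' γ) = 0 := by
    intro v v' hv hv' hd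
    have h := LawB_ind m hm (Z.image fun w => ac X w v) (ξ v) (ξ v') ?_ ?_
    · show ∑ γ : Fin n → A, (∏ u, m (γ u)) * (ξ v γ * ξ v' γ) = 0
      rw [h]
      have h0 : ∑ γ : Fin n → A, (∏ u, m (γ u)) * ξ v γ = 0 := hmean v hv
      rw [h0, zero_mul]
    · intro γ γ' hγ
      have : F (vt X γ v) = F (vt X γ' v) := hF _ _ fun w hw => hγ _ (Finset.mem_image_of_mem _ hw)
      rw [hξ]
      simp only [this]
    · intro γ γ' hγ
      have : F (vt X γ v') = F (vt X γ' v') := by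
        refine hF _ _ fun w' hw' => hγ _ ?_
        intro hmem
        obtain ⟨w, hw, hww⟩ := Finset.mem_image.1 hmem
        exact hd w hw w' hw' hww
      rw [hξ]
      simp only [this]
  -- second moment
  set gd : Finset (Fin n) := Finset.univ.filter fun v => v ∉ bad with hgd
  have hpair : ∀ v v', ∑ γ, wt γ * (ξ v γ * ξ v' γ) ≤ 1 := by
    intro v v'
    rw [← hwt1]
    refine Finset.sum_le_sum fun γ _ => ?_
    have h1 : ξ v γ * ξ v' γ ≤ 1 := by
      calc ξ v γ * ξ v' γ ≤ |ξ v γ * ξ v' γ| := le_abs_self _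
        _ = |ξ v γ| * |ξ v' γ| := abs_mul _ _
        _ ≤ 1 * 1 := mul_le_mul (hξ1 _ _) (hξ1 _ _) (abs_nonneg _) zero_le_one
        _ = 1 := one_mul 1
    calc wt γ * (ξ v γ * ξ v' γ) ≤ wt γ * 1 := mul_le_mul_of_nonneg_left h1 (hwt0 γ)
      _ = wt γ := mul_one _
  have hrow : ∀ v ∈ gd, ∑ v' ∈ gd, ∑ γ, wt γ * (ξ v γ * ξ v' γ) ≤ (Z.card : ℝ) ^ 2 := by
    intro v hv
    have hvb : v ∉ bad := (Finset.mem_filter.1 hv).2
    set T : Finset (Fin n) := (Z ×ˢ Z).image fun p => (ac X p.2)⁻¹ (ac X p.1 v) with hT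
    have hTc : (T.card : ℝ) ≤ (Z.card : ℝ) ^ 2 := by
      have h := Finset.card_image_le (s := Z ×ˢ Z) (f := fun p => (ac X p.2)⁻¹ (ac X p.1 v))
      rw [Finset.card_product] at h
      rw [sq]
      exact_mod_cast h
    have h1 : ∀ v' ∈ gd, ∑ γ, wt γ * (ξ v γ * ξ v' γ) ≤ if v' ∈ T then (1 : ℝ) else 0 := by
      intro v' hv'
      by_cases ht : v' ∈ T
      · rw [if_pos ht]
        exact hpair v v'
      · rw [if_neg ht]
        refine le_of_eq (hind v v' hvb (Finset.mem_filter.1 hv').2 ?_)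
        intro w hw w' hw' hww
        apply ht
        refine Finset.mem_image.2 ⟨(w, w'), Finset.mem_product.2 ⟨hw, hw'⟩, ?_⟩
        show (ac X w')⁻¹ (ac X w v) = v'
        rw [hww]
        exact (ac X w').symm_apply_apply v'
    calc ∑ v' ∈ gd, ∑ γ, wt γ * (ξ v γ * ξ v' γ) ≤ ∑ v' ∈ gd, if v' ∈ T then (1 : ℝ) else 0 :=
          Finset.sum_le_sum h1
      _ ≤ ∑ v' : Fin n, if v' ∈ T then (1 : ℝ) else 0 :=
          Finset.sum_le_sum_of_subset_of_nonneg (Finset.subset_univ _)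
            (fun _ _ _ => by split_ifs <;> norm_num)
      _ = (T.card : ℝ) := by simp
      _ ≤ (Z.card : ℝ) ^ 2 := hTc
  have hvar : ∑ γ, wt γ * (∑ v ∈ gd, ξ v γ) ^ 2 ≤ (n : ℝ) * (Z.card : ℝ) ^ 2 := by
    have e1 : ∀ γ, wt γ * (∑ v ∈ gd, ξ v γ) ^ 2 =
        ∑ v ∈ gd, ∑ v' ∈ gd, wt γ * (ξ v γ * ξ v' γ) := by
      intro γ
      rw [sq, Finset.sum_mul_sum, Finset.mul_sum]
      exact Finset.sum_congr rfl fun v _ => Finset.mul_sum _ _ _
    rw [Finset.sum_congr rfl fun γ _ => e1 γ, Finset.sum_comm]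
    calc ∑ v ∈ gd, ∑ γ, ∑ v' ∈ gd, wt γ * (ξ v γ * ξ v' γ)
        = ∑ v ∈ gd, ∑ v' ∈ gd, ∑ γ, wt γ * (ξ v γ * ξ v' γ) :=
          Finset.sum_congr rfl fun v _ => Finset.sum_comm
      _ ≤ ∑ _v ∈ gd, (Z.card : ℝ) ^ 2 := Finset.sum_le_sum hrow
      _ = (gd.card : ℝ) * (Z.card : ℝ) ^ 2 := by rw [Finset.sum_const, nsmul_eq_mul]
      _ ≤ (n : ℝ) * (Z.card : ℝ) ^ 2 := by
          refine mul_le_mul_of_nonneg_right ?_ (sq_nonneg _)
          have := Finset.card_le_univ gd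
          rw [Fintype.card_fin] at this
          exact_mod_cast this
  have hdev : ∑ γ, wt γ * |∑ v ∈ gd, ξ v γ| ≤ (Z.card : ℝ) * Real.sqrt n := by
    have hcs := Finset.sum_mul_sq_le_sq_mul_sq (Finset.univ : Finset (Fin n → A))
      (fun γ => Real.sqrt (wt γ)) (fun γ => Real.sqrt (wt γ) * |∑ v ∈ gd, ξ v γ|)
    have e1 : ∀ γ, Real.sqrt (wt γ) * (Real.sqrt (wt γ) * |∑ v ∈ gd, ξ v γ|) =
        wt γ * |∑ v ∈ gd, ξ v γ| := by
      intro γ
      rw [← mul_assoc, Real.mul_self_sqrt (hwt0 γ)]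
    have e2 : ∀ γ, (Real.sqrt (wt γ)) ^ 2 = wt γ := fun γ => Real.sq_sqrt (hwt0 γ)
    have e3 : ∀ γ, (Real.sqrt (wt γ) * |∑ v ∈ gd, ξ v γ|) ^ 2 = wt γ * (∑ v ∈ gd, ξ v γ) ^ 2 := by
      intro γ
      rw [mul_pow, e2, sq_abs]
    simp only [e1, e2, e3] at hcs
    rw [hwt1, one_mul] at hcs
    have h4 : (∑ γ, wt γ * |∑ v ∈ gd, ξ v γ|) ^ 2 ≤ ((Z.card : ℝ) * Real.sqrt n) ^ 2 := by
      rw [mul_pow, Real.sq_sqrt (Nat.cast_nonneg n)]
      linarith [hcs, hvar]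
    exact abs_le_of_sq_le_sq' h4 (by positivity) |>.2
  -- splitting
  have hsplit : ∀ γ, |({v | F (vt X γ v) = b}.ncard : ℝ) - n * P| ≤
      (bad.ncard : ℝ) + |∑ v ∈ gd, ξ v γ| := by
    intro γ
    have h1 : ({v | F (vt X γ v) = b}.ncard : ℝ) = ∑ v : Fin n, if F (vt X γ v) = b then (1 : ℝ) else 0 := by
      rw [Set.ncard_eq_toFinset_card', Finset.sum_boole]
      congr 2
      ext v
      simp
    have h2 : (n : ℝ) * P = ∑ _v : Fin n, P := by simp
    rw [h1, h2, ← Finset.sum_sub_distrib]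
    have h3 : ∑ v : Fin n, ((if F (vt X γ v) = b then (1 : ℝ) else 0) - P) =
        ∑ v ∈ gd, ξ v γ + ∑ v ∈ Finset.univ.filter (fun v => ¬ v ∉ bad), ξ v γ := by
      rw [hgd, Finset.sum_filter_add_sum_filter_not]
    rw [h3]
    have h4 : |∑ v ∈ Finset.univ.filter (fun v => ¬ v ∉ bad), ξ v γ| ≤ (bad.ncard : ℝ) := by
      calc |∑ v ∈ Finset.univ.filter (fun v => ¬ v ∉ bad), ξ v γ|
          ≤ ∑ v ∈ Finset.univ.filter (fun v => ¬ v ∉ bad), |ξ v γ| := Finset.abs_sum_le_sum_abs _ _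
        _ ≤ ∑ _v ∈ Finset.univ.filter (fun v => ¬ v ∉ bad), (1 : ℝ) :=
            Finset.sum_le_sum fun v _ => hξ1 v γ
        _ = (bad.ncard : ℝ) := by
            rw [Finset.sum_const, nsmul_eq_mul, mul_one, Set.ncard_eq_toFinset_card']
            congr 2
            ext v
            simp
    calc |∑ v ∈ gd, ξ v γ + ∑ v ∈ Finset.univ.filter (fun v => ¬ v ∉ bad), ξ v γ|
        ≤ |∑ v ∈ gd, ξ v γ| + |∑ v ∈ Finset.univ.filter (fun v => ¬ v ∉ bad), ξ v γ| := abs_add_le _ _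
      _ ≤ (bad.ncard : ℝ) + |∑ v ∈ gd, ξ v γ| := by linarith
  calc ∑ γ : Fin n → A, (∏ u, ν.real (q ⁻¹' {γ u})) *
        |({v | F (vt X γ v) = b}.ncard : ℝ) - n * P|
      ≤ ∑ γ, wt γ * ((bad.ncard : ℝ) + |∑ v ∈ gd, ξ v γ|) :=
        Finset.sum_le_sum fun γ _ => mul_le_mul_of_nonneg_left (hsplit γ) (hwt0 γ)
    _ = (bad.ncard : ℝ) + ∑ γ, wt γ * |∑ v ∈ gd, ξ v γ| := by
        simp only [mul_add, Finset.sum_add_distrib]
        rw [← Finset.sum_mul, hwt1, one_mul]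
    _ ≤ (bad.ncard : ℝ) + Z.card * Real.sqrt n := by linarith

end H33.BO
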