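import Mathlib

/-! # BO.LinA : the edges of a rooted forest are linearly independent

PROOF. Let `∑ w ∈ s, c w • (single w 1 - single (par w) 1) = 0`, `s ⊆ T0` finite, and suppose that some `c w ≠ 0`, `w ∈ s`; take such a `w` with the largest `dpt w` (`Finset.exists_max_image`). Evaluate at `w`: the terms
`u ∈ s` with `par u = w` and `c u ≠ 0` have `dpt w = dpt (par u) < dpt u`, impossible; also `par w ≠ w`; so the value is `c w`. Contradiction. (`linearIndepOn_iff'` or `linearIndependent_iff'` on the subtype.) -/

set_option autoImplicit false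

open MeasureTheory

namespace H33.BO

/-- the edges `w -> par w` of a rooted forest are linearly independent -/
theorem tree_indep {V : Type} [DecidableEq V] (T0 : Set V) (par : V → V) (dpt : V → ℕ)
    (h : ∀ w ∈ T0, dpt (par w) < dpt w) :
    LinearIndepOn ℚ (fun w : V => (Pi.single w 1 - Pi.single (par w) 1 : V → ℚ)) T0 := by
  classical
  rw [linearIndepOn_iff']
  intro s c hs h0 w0 hw0
  by_contra hc
  obtain ⟨w, hw, hmax⟩ := Finset.exists_max_image (s.filter fun w => c w ≠ 0) dpt
    ⟨w0, Finset.mem_filter.2 ⟨hw0, hc⟩⟩
  obtain ⟨hws, hcw⟩ := Finset.mem_filter.1 hw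
  have h1 := congrFun h0 w
  rw [Finset.sum_apply, Finset.sum_eq_single w] at h1
  · have hne : w ≠ par w := fun e => by
      have := h w (hs hws)
      rw [← e] at this
      exact lt_irrefl _ this
    simp [Pi.single_eq_of_ne hne] at h1
    exact hcw h1
  · intro u hu huw
    by_cases hcu : c u = 0
    · simp [hcu]
    · have h2 := hmax u (Finset.mem_filter.2 ⟨hu, hcu⟩)
      have hne : w ≠ par u := fun e => by
        have := h u (hs hu)
        rw [← e] at this
        omega
      simp [Pi.single_eq_of_ne hne, Pi.single_eq_of_ne (Ne.symm huw)]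
  · intro h2
    exact absurd hws h2

end H33.BO
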