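import Mathlib

/-! # BO.LinB : a forest has a leaf

PROOF. Let `Z` be the finite set of the vertices `hd e`, `tl e`, `e ∈ F`; it is nonempty. Suppose that no vertex has degree 1 (degree `w` := the sum of the two cardinalities). Every `w ∈ Z` has degree at least 1, so at least 2, and
the sum of the degrees is `2 * F.card` (`Finset.card_eq_sum_card_fiberwise`), so `Z.card ≤ F.card`. All vectors `ev e`, `e ∈ F`, lie in the subspace `S := {x | (∀ v ∉ Z, x v = 0) ∧ ∑ v ∈ Z, x v = 0}`, whose dimension is less than
`Z.card` (the space of functions supported in `Z` has dimension `Z.card` and `S` is the kernel of a nonzero functional on it; or: restrict to `Z → ℚ`, the restriction is injective on the span of the vectors and the image is in the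
proper subspace of sum zero: `Submodule.finrank_lt`). But `F.card` independent vectors in `S` give `F.card ≤ dim S < Z.card`, a contradiction. -/

set_option autoImplicit false

open MeasureTheory

namespace H33.BO

/-- the vector of an edge -/
private def linB_ev {V E : Type} [DecidableEq V] (hd tl : E → V) (e : E) : V → ℚ :=
  Pi.single (hd e) 1 - Pi.single (tl e) 1

private lemma linB_lt {V E : Type} [Fintype V] [DecidableEq V] (hd tl : E → V)
    (F : Finset E) (hF : LinearIndepOn ℚ (linB_ev hd tl) (F : Set E)) (Z : Finset V)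
    (h1 : ∀ e ∈ F, hd e ∈ Z) (h2 : ∀ e ∈ F, tl e ∈ Z) {z0 : V} (hz : z0 ∈ Z) :
    F.card < Z.card := by
  classical
  set b : ↥(F : Set E) → (V → ℚ) := fun x => linB_ev hd tl x.1 with hb
  have hli : LinearIndependent ℚ b := hF
  set S : Submodule ℚ (V → ℚ) := Submodule.span ℚ (Set.range b) with hS
  have hSc : Module.finrank ℚ S = F.card := by
    have := finrank_span_eq_card hli
    rw [hS, this]
    simp
  set T : Finset (V → ℚ) := Z.image (fun v => (Pi.single v 1 : V → ℚ)) with hT
  set W : Submodule ℚ (V → ℚ) := Submodule.span ℚ (T : Set (V → ℚ)) with hW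
  have hWc : Module.finrank ℚ W ≤ Z.card :=
    (finrank_span_finset_le_card T).trans Finset.card_image_le
  have hmem : ∀ v ∈ Z, (Pi.single v 1 : V → ℚ) ∈ W := fun v hv =>
    Submodule.subset_span (by
      rw [hT]
      exact Finset.mem_coe.2 (Finset.mem_image_of_mem _ hv))
  have hle : S ≤ W := by
    rw [hS, Submodule.span_le]
    rintro _ ⟨x, rfl⟩
    have hx : x.1 ∈ F := x.2
    show (Pi.single (hd x.1) 1 - Pi.single (tl x.1) 1 : V → ℚ) ∈ W
    exact W.sub_mem (hmem _ (h1 _ hx)) (hmem _ (h2 _ hx))
  -- the sum functional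
  let σ : (V → ℚ) →ₗ[ℚ] ℚ := ∑ v : V, LinearMap.proj v
  have hσ : ∀ x : V → ℚ, σ x = ∑ v, x v := fun x => by
    simp [σ, LinearMap.sum_apply]
  have hσ1 : ∀ v : V, σ (Pi.single v 1) = 1 := fun v => by
    rw [hσ, Finset.sum_pi_single']
    simp
  have hker : S ≤ LinearMap.ker σ := by
    rw [hS, Submodule.span_le]
    rintro _ ⟨x, rfl⟩
    show σ (Pi.single (hd x.1) 1 - Pi.single (tl x.1) 1 : V → ℚ) = 0
    rw [map_sub, hσ1, hσ1, sub_self]
  have hne : (Pi.single z0 1 : V → ℚ) ∉ S := fun h => by
    have h3 : σ (Pi.single z0 1) = 0 := hker h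
    rw [hσ1] at h3
    exact one_ne_zero h3
  have hlt : S < W := lt_of_le_of_ne hle fun h => hne (h ▸ hmem z0 hz)
  have := Submodule.finrank_lt_finrank_of_lt hlt
  omega

/-- a nonempty linearly independent set of edges has a vertex of degree one -/
theorem leaf {V E : Type} [Fintype V] [DecidableEq V] [DecidableEq E] (hd tl : E → V) (F : Finset E)
    (hF : LinearIndepOn ℚ (fun e : E => (Pi.single (hd e) 1 - Pi.single (tl e) 1 : V → ℚ)) (F : Set E))
    (hne : F.Nonempty) :
    ∃ w, (F.filter (fun e => hd e = w)).card + (F.filter (fun e => tl e = w)).card = 1 := by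
  by_contra hcon
  push Not at hcon
  obtain ⟨e0, he0⟩ := hne
  set Z : Finset V := F.image hd ∪ F.image tl with hZ
  have h1 : ∀ e ∈ F, hd e ∈ Z := fun e he =>
    Finset.mem_union_left _ (Finset.mem_image_of_mem _ he)
  have h2 : ∀ e ∈ F, tl e ∈ Z := fun e he =>
    Finset.mem_union_right _ (Finset.mem_image_of_mem _ he)
  have hlt := linB_lt hd tl F hF Z h1 h2 (h1 e0 he0)
  have c1 : F.card = ∑ w ∈ Z, (F.filter (fun e => hd e = w)).card :=
    Finset.card_eq_sum_card_fiberwise h1
  have c2 : F.card = ∑ w ∈ Z, (F.filter (fun e => tl e = w)).card :=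
    Finset.card_eq_sum_card_fiberwise h2
  have c3 : ∑ w ∈ Z, 2 ≤ ∑ w ∈ Z, ((F.filter (fun e => hd e = w)).card +
      (F.filter (fun e => tl e = w)).card) := by
    refine Finset.sum_le_sum fun w hw => ?_
    have h3 : 1 ≤ (F.filter (fun e => hd e = w)).card + (F.filter (fun e => tl e = w)).card := by
      rcases Finset.mem_union.1 hw with h | h
      · obtain ⟨e, he, rfl⟩ := Finset.mem_image.1 h
        have : 0 < (F.filter (fun e' => hd e' = hd e)).card :=
          Finset.card_pos.2 ⟨e, Finset.mem_filter.2 ⟨he, rfl⟩⟩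
        omega
      · obtain ⟨e, he, rfl⟩ := Finset.mem_image.1 h
        have : 0 < (F.filter (fun e' => tl e' = tl e)).card :=
          Finset.card_pos.2 ⟨e, Finset.mem_filter.2 ⟨he, rfl⟩⟩
        omega
    have h4 := hcon w
    omega
  rw [Finset.sum_const, smul_eq_mul, Finset.sum_add_distrib, ← c1, ← c2] at c3
  omega

end H33.BO
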