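import Pool.Agent.H33.BO.Defs

/-! # BO.LinC : extension of a forest to an almost spanning forest

PROOF. By `exists_linearIndepOn_extension` (or `LinearIndepOn.extend`, `hT.extend (Set.subset_univ T)`) there is `b` with `T ⊆ b`, the vectors `ev e`, `e ∈ b`, independent and all `ev e` in their span; `F := b.toFinset`. `F.card ≤ card V`: an independent family in `V → ℚ`.
Lower bound: `F.card = finrank (span (ev '' F)) ≥ finrank K`, where `K` is the kernel of the linear map `f : (V → ℚ) → (cycles → ℚ)`, `(f x) c = ∑ v in c, x v` (`c` in the quotient by `SameCycle`): `f` is surjective (`f (single v 1) = single [v] 1`), so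
`finrank K = card V - cyc σ` (`LinearMap.finrank_range_add_finrank_ker`), and `K ≤ span`: modulo the span `single v 1 ≡ single (σ v) 1` (an edge vector), hence `single v 1 ≡ single v' 1` if `v`, `v'` are in the same cycle; choose a representative
`r c` of every class: `x = ∑ v, x v • single v 1 ≡ ∑ v, x v • single (r [v]) 1 = ∑ c, (f x) c • single (r c) 1`, which is `0` for `x ∈ K`. -/

set_option autoImplicit false

open MeasureTheory

namespace H33.BO

/-- a forest in a graph that contains all the edges `w, σ w` extends to a forest with at least `card V - cyc σ` edges -/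
theorem forest_ext {V E : Type} [Fintype V] [DecidableEq V] [Fintype E] [DecidableEq E] (hd tl : E → V)
    (T : Set E) (hT : LinearIndepOn ℚ (fun e : E => (Pi.single (hd e) 1 - Pi.single (tl e) 1 : V → ℚ)) T)
    (σ : Equiv.Perm V) (hσ : ∀ w, ∃ e, hd e = w ∧ tl e = σ w) :
    ∃ F : Finset E, T ⊆ (F : Set E) ∧
      LinearIndepOn ℚ (fun e : E => (Pi.single (hd e) 1 - Pi.single (tl e) 1 : V → ℚ)) (F : Set E) ∧
      F.card ≤ Fintype.card V ∧ Fintype.card V ≤ F.card + cyc σ := by
  classical
  set ev : E → (V → ℚ) := fun e : E => (Pi.single (hd e) 1 - Pi.single (tl e) 1 : V → ℚ) with hev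
  obtain ⟨b, -, hTb, hsp, hb⟩ := exists_linearIndepOn_extension hT (Set.subset_univ T)
  have hbfin : b.Finite := Set.toFinite b
  have : Fintype b := hbfin.fintype
  have hFb : ((b.toFinset : Finset E) : Set E) = b := Set.coe_toFinset b
  refine ⟨b.toFinset, ?_, ?_, ?_, ?_⟩
  · rw [hFb]
    exact hTb
  · rw [hFb]
    exact hb
  · have h1 := hb.linearIndependent.fintype_card_le_finrank
    rw [Module.finrank_fintype_fun_eq_card] at h1
    rw [Set.toFinset_card]
    exact h1
  · -- the quotient by the span
    have hfr : Module.finrank ℚ (Submodule.span ℚ (ev '' b)) = b.toFinset.card := by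
      have h1 : Submodule.span ℚ (ev '' b) = Submodule.span ℚ (Set.range fun x : b => ev x) := by
        congr 1
        ext v
        simp
      rw [h1, finrank_span_eq_card hb.linearIndependent, Set.toFinset_card]
    have hq := Submodule.finrank_quotient_add_finrank (Submodule.span ℚ (ev '' b))
    rw [hfr, Module.finrank_fintype_fun_eq_card] at hq
    have hstep : ∀ w, (Submodule.span ℚ (ev '' b)).mkQ (Pi.single w 1) =
        (Submodule.span ℚ (ev '' b)).mkQ (Pi.single (σ w) 1) := by
      intro w
      obtain ⟨e, he1, he2⟩ := hσ w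
      have h1 : ev e ∈ Submodule.span ℚ (ev '' b) := hsp ⟨e, Set.mem_univ e, rfl⟩
      rw [← sub_eq_zero, ← map_sub, Submodule.mkQ_apply, Submodule.Quotient.mk_eq_zero]
      have h2 : ev e = (Pi.single w 1 - Pi.single (σ w) 1 : V → ℚ) := by
        rw [hev]
        simp only [he1, he2]
      rw [← h2]
      exact h1
    have hpow : ∀ (n : ℕ) (w : V), (Submodule.span ℚ (ev '' b)).mkQ (Pi.single w 1) =
        (Submodule.span ℚ (ev '' b)).mkQ (Pi.single ((σ ^ n) w) 1) := by
      intro n
      induction n with
      | zero =>
        intro w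
        rw [pow_zero, Equiv.Perm.one_apply]
      | succ n ih =>
        intro w
        rw [ih w, hstep, pow_succ', Equiv.Perm.mul_apply]
    have : Fintype (Quotient (Equiv.Perm.SameCycle.setoid σ)) := Fintype.ofFinite _
    have hcyc : cyc σ = Fintype.card (Quotient (Equiv.Perm.SameCycle.setoid σ)) := by
      unfold cyc
      rw [Nat.card_eq_fintype_card]
    have hrep : ∀ v : V, (Submodule.span ℚ (ev '' b)).mkQ (Pi.single v 1) =
        (Submodule.span ℚ (ev '' b)).mkQ
          (Pi.single (Quotient.out (Quotient.mk (Equiv.Perm.SameCycle.setoid σ) v)) 1) := by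
      intro v
      have h1 : Equiv.Perm.SameCycle σ (Quotient.out (Quotient.mk (Equiv.Perm.SameCycle.setoid σ) v)) v :=
        Quotient.mk_out (s := Equiv.Perm.SameCycle.setoid σ) v
      obtain ⟨n, hn⟩ := h1.symm.exists_nat_pow_eq
      rw [hpow n v, hn]
    have htop : Submodule.span ℚ (Set.range fun c : Quotient (Equiv.Perm.SameCycle.setoid σ) =>
        (Submodule.span ℚ (ev '' b)).mkQ (Pi.single (Quotient.out c) 1)) = ⊤ := by
      rw [eq_top_iff]
      intro z _
      obtain ⟨y, rfl⟩ := Submodule.mkQ_surjective _ z
      have hy : y = ∑ v, y v • (Pi.single v 1 : V → ℚ) := by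
        funext u
        rw [Finset.sum_apply]
        simp [Pi.single_apply]
      rw [hy, map_sum]
      refine Submodule.sum_mem _ fun v _ => ?_
      rw [map_smul, hrep v]
      exact Submodule.smul_mem _ _ (Submodule.subset_span ⟨_, rfl⟩)
    have hle := finrank_range_le_card (R := ℚ)
      (fun c : Quotient (Equiv.Perm.SameCycle.setoid σ) =>
        (Submodule.span ℚ (ev '' b)).mkQ (Pi.single (Quotient.out c) 1))
    rw [Set.finrank, htop, finrank_top] at hle
    rw [hcyc]
    omega

end H33.BO
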