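import Pool.Agent.H33.BO.Defs2

/-! # BO.LocA : local functions of configurations

PROOF. If `F` is `Loc Z` then `fun t => F (ca u t)` is `Loc (Z.image (· * u))` (`ca u t w = t (w * u)`). A function of finitely many local functions is local (union of the windows). `pat`: by induction on `r`: there is `Z'` such that `t ↦ pat N β d r t` is `Loc Z'`: `Z ∪ Z ∪ Z'_A * nn false ∪ Z'_B * nn true` where `Z'` is the window for `r` (for `N c = ca (nn W c)`).
`bpat`: union over `j : Bg k W.length` (a finite type) of the windows of `t ↦ pat .. (ca (bgw W j) t)`. `cor`: the predicate `shrt N d r t` is local by the same induction. -/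

set_option autoImplicit false

open MeasureTheory H31.BE

namespace H33.BO

private theorem loc_ca {k : ℕ} {A B : Type} {Z : Finset (Fg k)} {F : (Fg k → A) → B} (hF : Loc Z F)
    (u : Fg k) : ∃ Z' : Finset (Fg k), Loc Z' (fun t => F (ca u t)) := by
  classical
  refine ⟨Z.image (fun w => w * u), ?_⟩
  intro t t' h
  apply hF
  intro w hw
  exact h (w * u) (Finset.mem_image_of_mem _ hw)

private theorem loc_pat {k : ℕ} (W : Wd k) {A Λ : Type} (Z : Finset (Fg k)) (β : (Fg k → A) → Λ)
    (d : (Fg k → A) → Option Bool) (hβ : Loc Z β) (hd : Loc Z d) (r : ℕ) :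
    ∃ Z' : Finset (Fg k), Loc Z' (pat (fun c => ca (nn W c)) β d r) := by
  classical
  induction r with
  | zero => exact ⟨∅, fun t t' _ => rfl⟩
  | succ r ih =>
    obtain ⟨Z1, h1⟩ := ih
    obtain ⟨ZA, hA⟩ := loc_ca h1 (nn W false)
    obtain ⟨ZB, hB⟩ := loc_ca h1 (nn W true)
    refine ⟨Z ∪ (ZA ∪ ZB), ?_⟩
    intro t t' h
    have e1 : β t = β t' := hβ t t' fun w hw => h w (Finset.mem_union_left _ hw)
    have e2 : d t = d t' := hd t t' fun w hw => h w (Finset.mem_union_left _ hw)
    have e3 := hA t t' fun w hw => h w (Finset.mem_union_right _ (Finset.mem_union_left _ hw))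
    have e4 := hB t t' fun w hw => h w (Finset.mem_union_right _ (Finset.mem_union_right _ hw))
    rw [pat, pat, e1, e2]
    rcases d t' with _ | c
    · rfl
    · cases c with
      | false => exact congrArg _ e3
      | true => exact congrArg _ e4

private theorem loc_shrt {k : ℕ} (W : Wd k) {A : Type} (Z : Finset (Fg k))
    (d : (Fg k → A) → Option Bool) (hd : Loc Z d) (r : ℕ) :
    ∃ Z' : Finset (Fg k), ∀ t t' : Fg k → A, (∀ w ∈ Z', t w = t' w) →
      (shrt (fun c => ca (nn W c)) d r t ↔ shrt (fun c => ca (nn W c)) d r t') := by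
  classical
  induction r with
  | zero =>
    refine ⟨Z, ?_⟩
    intro t t' h
    rw [shrt, shrt, hd t t' h]
  | succ r ih =>
    obtain ⟨Z1, h1⟩ := ih
    refine ⟨Z ∪ (Z1.image (fun w => w * nn W false) ∪ Z1.image (fun w => w * nn W true)), ?_⟩
    intro t t' h
    have e2 : d t = d t' := hd t t' fun w hw => h w (Finset.mem_union_left _ hw)
    have e3 := h1 (ca (nn W false) t) (ca (nn W false) t') fun w hw =>
      h (w * nn W false) (Finset.mem_union_right _
        (Finset.mem_union_left _ (Finset.mem_image_of_mem _ hw)))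
    have e4 := h1 (ca (nn W true) t) (ca (nn W true) t') fun w hw =>
      h (w * nn W true) (Finset.mem_union_right _
        (Finset.mem_union_right _ (Finset.mem_image_of_mem _ hw)))
    rw [shrt, shrt, e2]
    rcases d t' with _ | c
    · exact Iff.rfl
    · cases c with
      | false => exact e3
      | true => exact e4

theorem loc_bpat {k : ℕ} (W : Wd k) {A Λ : Type} (Z : Finset (Fg k)) (β : (Fg k → A) → Λ)
    (d : (Fg k → A) → Option Bool) (hβ : Loc Z β) (hd : Loc Z d) (r : ℕ) :
    ∃ Z' : Finset (Fg k), Loc Z' (bpat W ca β d r) := by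
  classical
  obtain ⟨Z1, h1⟩ := loc_pat W Z β d hβ hd r
  have h2 : ∀ j : Bg k W.length, ∃ Z' : Finset (Fg k),
      Loc Z' (fun t => pat (fun c => ca (nn W c)) β d r (ca (bgw W j) t)) := fun j => loc_ca h1 _
  choose ZZ hZZ using h2
  refine ⟨Finset.univ.biUnion ZZ, ?_⟩
  intro t t' h
  funext j
  apply Subtype.ext
  exact hZZ j t t' fun w hw => h w (Finset.mem_biUnion.2 ⟨j, Finset.mem_univ j, hw⟩)

theorem loc_cor {k : ℕ} (W : Wd k) {A : Type} (Z : Finset (Fg k)) (d : (Fg k → A) → Option Bool)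
    (hd : Loc Z d) (r : ℕ) :
    ∃ Z' : Finset (Fg k), Loc Z' (cor (fun c => ca (nn W c)) d r) := by
  classical
  obtain ⟨Z1, h1⟩ := loc_shrt W Z d hd r
  refine ⟨Z ∪ Z1, ?_⟩
  intro t t' h
  have e2 : d t = d t' := hd t t' fun w hw => h w (Finset.mem_union_left _ hw)
  have e3 := h1 t t' fun w hw => h w (Finset.mem_union_right _ hw)
  unfold cor
  by_cases h4 : shrt (fun c => ca (nn W c)) d r t
  · rw [if_pos h4, if_pos (e3.1 h4), e2]
  · rw [if_neg h4, if_neg (fun h5 => h4 (e3.2 h5))]

theorem loc_mono {k : ℕ} {A B : Type} {Z Z' : Finset (Fg k)} (h : Z ⊆ Z') {F : (Fg k → A) → B} (hF : Loc Z F) :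
    Loc Z' F := fun t t' h1 => hF t t' fun w hw => h1 w (h hw)

theorem loc_pair {k : ℕ} {A B C : Type} {Z Z' : Finset (Fg k)} {F : (Fg k → A) → B} {F' : (Fg k → A) → C}
    (hF : Loc Z F) (hF' : Loc Z' F') : ∃ Z'' : Finset (Fg k), Loc Z'' (fun t => (F t, F' t)) := by
  classical
  refine ⟨Z ∪ Z', ?_⟩
  intro t t' h
  exact Prod.ext (hF t t' fun w hw => h w (Finset.mem_union_left _ hw))
    (hF' t t' fun w hw => h w (Finset.mem_union_right _ hw))

end H33.BO
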