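import Pool.Agent.H33.BO.OneS
import Pool.Agent.H33.BO.AmpD
import Pool.Agent.H33.BO.AmpE
import Pool.Agent.H31.BE.FEntLo
import Pool.Agent.H31.BE.FEntUp
import Pool.Agent.H31.BE.TrivB

/-! # BO.Main : the theorem for one-handle groups

PROOF. `hf_le`: let `c < HF ν`; `fe_ge` gives `q0` with `c < ofReal (ent ν q0)`. If `ν` is trivial then `ent ν q0 = 0` (`ent_triv`), `c < 0`: impossible. So `ν` and `μ` (`nontriv_of_map`) are nontrivial. If `HF μ = ⊤` done. For every `m`: `oe_pow`, `ent_pw` (for `ν`), `oneS` for `pwm μ m`, `pwm ν m` (`nontriv_pwm`), `fe_le`, `hf_pw`: `(m + 1) * ent ν q0 ≤ ent (pwm μ m) q + K ≤ (m + 1) * (HF μ).toReal + K`, `K := CI W + k + 10`, for all `m`, so `ent ν q0 ≤ (HF μ).toReal`.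
`main_thm`: the relator is `rel W` for a word `W` with `wf W = (FreeGroup.map (fun i => some (some i)) w)⁻¹`: `W := (w⁻¹).toWord` (`FreeGroup.mk_toWord`, `sl`, `FreeGroup.map`, `FreeGroup.lift`), `rel W = a b (wf W b a)⁻¹ = a b a⁻¹ b⁻¹ (wf W)⁻¹ = ⁅a, b⁆ * map w`. `g s := e (PresentedGroup.of s)`: `lift g = e ∘ (the quotient map)`, surjective, kernel = normal closure of the relator. `G` is countable, `classical` for `DecidableEq`; `hf_le` in both directions as in `H31.BE.main_thm` (Final). -/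

set_option autoImplicit false

open MeasureTheory H31.BE

namespace H33.BO

theorem hf_le {k : ℕ} {G : Type} [Group G] [DecidableEq G] (W : Wd k) (g : Lt k → G) (hg : Pres W g)
    (μ ν : Measure ℝ) [IsProbabilityMeasure μ] [IsProbabilityMeasure ν]
    (T S : Bsh G → Bsh G) (h : OE G μ ν T S) : HF ν ≤ HF μ := by
  classical
  haveI : Infinite G := inf_G W g hg
  haveI : Countable G := cnt_G W g hg
  refine le_of_forall_lt fun c hc => ?_
  obtain ⟨k0, q0, hq0, hlt⟩ := fe_ge ν c hc
  refine lt_of_lt_of_le hlt ?_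
  by_cases hν : Nontriv ν
  · have hμ : Nontriv μ := nontriv_of_map μ ν T h.mT hν
    by_cases htop : HF μ = ⊤
    · rw [htop]
      exact le_top
    · have key : ∀ m : ℕ, ((m : ℝ) + 1) * ent ν q0 ≤ ((m : ℝ) + 1) * (HF μ).toReal + (CI W + k + 10) := by
        intro m
        obtain ⟨T', S', hTS⟩ := oe_pow μ ν hμ hν T S h m
        obtain ⟨k1, q1, hq1, he1⟩ := ent_pw ν k0 q0 hq0 m
        obtain ⟨hpμ, hnμ⟩ := nontriv_pwm μ hμ m
        obtain ⟨hpν, hnν⟩ := nontriv_pwm ν hν m
        obtain ⟨k2, q2, hq2, he2⟩ := oneS W g hg (pwm μ m) (pwm ν m) hnμ hnν T' S' hTS k1 q1 hq1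
        have h3 := fe_le (pwm μ m) q2 hq2
        have h4 := h3.trans (hf_pw μ m)
        have h5 : ent (pwm μ m) q2 ≤ ((m : ℝ) + 1) * (HF μ).toReal := by
          have hne1 : ((m : ENNReal) + 1) ≠ ⊤ := by
            exact ENNReal.add_ne_top.2 ⟨ENNReal.natCast_ne_top m, ENNReal.one_ne_top⟩
          have hne : ((m : ENNReal) + 1) * HF μ ≠ ⊤ := ENNReal.mul_ne_top hne1 htop
          have h6 := ENNReal.toReal_mono hne h4
          rw [ENNReal.toReal_ofReal (ent_nonneg _), ENNReal.toReal_mul,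
            ENNReal.toReal_add (ENNReal.natCast_ne_top m) ENNReal.one_ne_top,
            ENNReal.toReal_natCast, ENNReal.toReal_one] at h6
          exact h6
        rw [he1] at he2
        linarith
      have h6 : ent ν q0 ≤ (HF μ).toReal := by
        by_contra hcon
        push Not at hcon
        have hδ : 0 < ent ν q0 - (HF μ).toReal := by linarith
        obtain ⟨m, hm⟩ := exists_nat_gt ((CI W + k + 10) / (ent ν q0 - (HF μ).toReal))
        rw [div_lt_iff₀ hδ] at hm
        have h7 := key m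
        nlinarith
      rw [← ENNReal.ofReal_toReal htop]
      exact ENNReal.ofReal_le_ofReal h6
  · rw [ent_triv ν hν q0 hq0, ENNReal.ofReal_zero]
    exact bot_le

theorem pres_ex {k : ℕ} (w : FreeGroup (Fin k)) {G : Type} [Group G]
    (e : PresentedGroup ({relw w} : Set (Fg k)) ≃* G) :
    ∃ (W : Wd k) (g : Lt k → G), Pres W g := by
  have hwf : ∀ L : Wd k, wf L = FreeGroup.map (fun i => some (some i)) (FreeGroup.mk L) := by
    intro L
    induction L with
    | nil => rfl
    | cons p L ih =>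
      have h1 : FreeGroup.mk (p :: L) = FreeGroup.mk [p] * FreeGroup.mk L := by
        rw [FreeGroup.mul_mk]
        rfl
      rw [h1, map_mul, ← ih]
      show (List.map sl (p :: L)).prod = _ * (List.map sl L).prod
      rw [List.map_cons, List.prod_cons]
      congr 1
      obtain ⟨i, c⟩ := p
      cases c
      · show (xx i)⁻¹ = _
        have : (FreeGroup.mk [(i, false)] : FreeGroup (Fin k)) = (FreeGroup.of i)⁻¹ := rfl
        rw [this, map_inv, FreeGroup.map.of]
        rfl
      · show xx i = _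
        have : (FreeGroup.mk [(i, true)] : FreeGroup (Fin k)) = FreeGroup.of i := rfl
        rw [this, FreeGroup.map.of]
        rfl
  have hrel : rel (w⁻¹).toWord = relw w := by
    unfold rel relw
    rw [hwf, FreeGroup.mk_toWord, map_inv]
    simp only [mul_inv_rev, inv_inv, mul_assoc]
  refine ⟨(w⁻¹).toWord, fun s => e (PresentedGroup.of s), ?_⟩
  have hl : FreeGroup.lift (fun s : Lt k => e (PresentedGroup.of (rels := ({relw w} : Set (Fg k))) s)) =
      (e : PresentedGroup ({relw w} : Set (Fg k)) →* G).comp (PresentedGroup.mk ({relw w} : Set (Fg k))) := by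
    apply FreeGroup.ext_hom
    intro s
    rw [FreeGroup.lift_apply_of]
    rfl
  constructor
  · rw [hl]
    exact e.surjective.comp (PresentedGroup.mk_surjective _)
  · rw [hl, hrel]
    ext x
    rw [MonoidHom.mem_ker]
    show e (PresentedGroup.mk _ x) = 1 ↔ _
    rw [map_eq_one_iff e e.injective]
    exact QuotientGroup.eq_one_iff x

theorem main_thm (k : ℕ) (w : FreeGroup (Fin k)) (G : Type) [Group G]
    (e : PresentedGroup ({relw w} : Set (Fg k)) ≃* G)
    (μ ν : Measure ℝ) [IsProbabilityMeasure μ] [IsProbabilityMeasure ν]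
    (h : ∃ T S : (G → ℝ) → (G → ℝ),
        MeasurePreserving T (Measure.infinitePi (fun _ : G => μ))
          (Measure.infinitePi (fun _ : G => ν)) ∧
        MeasurePreserving S (Measure.infinitePi (fun _ : G => ν))
          (Measure.infinitePi (fun _ : G => μ)) ∧
        (∀ᵐ x ∂(Measure.infinitePi (fun _ : G => μ)), S (T x) = x) ∧
        (∀ᵐ y ∂(Measure.infinitePi (fun _ : G => ν)), T (S y) = y) ∧
        (∀ g : G, ∃ F : Finset G, ∀ᵐ x ∂(Measure.infinitePi (fun _ : G => μ)),
          ∃ f ∈ F, T (fun h => x (g⁻¹ * h)) = fun h => T x (f⁻¹ * h)) ∧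
        (∀ g : G, ∃ F : Finset G, ∀ᵐ y ∂(Measure.infinitePi (fun _ : G => ν)),
          ∃ f ∈ F, S (fun h => y (g⁻¹ * h)) = fun h => S y (f⁻¹ * h))) :
    HF μ = HF ν := by
  classical
  obtain ⟨T, U, hT, hU, hUT, hTU, bT, bU⟩ := h
  obtain ⟨W, g, hg⟩ := pres_ex w e
  have h1 : OE G μ ν T U := ⟨hT, hU, hUT, hTU, bT, bU⟩
  have h2 : OE G ν μ U T := ⟨hU, hT, hTU, hUT, bU, bT⟩
  exact le_antisymm (hf_le W g hg ν μ U T h2) (hf_le W g hg μ ν T U h1)

end H33.BO
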