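import Pool.Agent.H33.BO.Rmo
import Pool.Agent.H33.BO.Cmp4

/-! # BO.MdlA : the random model with completion

PROOF. `rmodel` for `S = Lt k`, `Pt = Bg k W.length → P`, `Q s = Qi W P s`, `T = TT dir`, `p = law P0 Φ0` (`∑ p = 1` by `hΦ`; `hm`: `∑ t with src s t = q, p t = P0.real {src s (Φ0 y) = q}`, additivity). A pattern with `p t > 0` satisfies `Sup dir tl t` (`hsup`: the event `{Φ0 y = t}` has positive measure). For `ω` with all `om ω v` of positive probability let `X ω` be from `cmp`; otherwise `X ω := M ω` (choice).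
(1) `Fn W dir p` is the bracket in `rmodel` (unfold `Fn`, `Gn`; the instances of `Fintype` agree: `Subsingleton.elim`). `∑ s, ∑ t with ¬ TT (tgt s t), p t ≥ k + 1`: for `x_i` the term is 1; for a it is `1 - P(dir (Φ0 e0) = some true)`, for b it is `1 - P(dir (Φ0 el) = some false)`, and by `hm` the laws of `Φ0 e0`, `Φ0 c3` (a), `Φ0 c2`, `Φ0 c1` (a and b), `Φ0 el` (b) agree: `P(dir (Φ0 el) = some false) = P(dir (Φ0 e0) = some false)`:
the sum of the two is at least 1. `card (Lt k) = k + 2`. (M): the vertices with not T: `M s v ≠ X s v`: at most `um` (`cmp` (2)), with T: `M = M0`. `E um ≤ 2 N √n ≤ Er`. (N), (O): `cmp` with `E Kr ≤ (k + 2) 2 N √n + (D + 1) 4 √n`: every fluctuation `|cn c3 true i - cn e0 true i|` is `|∑ v, f (om v)|` with `f t = [dir (t c3) = some true, dp = i] - [dir (t e0) = some true, dp = i]`, which has mean 0 (equal laws), `|f| ≤ 1`: at most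
`2 √n`. `E #{v | dir (om v e0) = none} = n P0.real {dir (Φ0 y e0) = none}`. All integrals are over a finite space (`Integrable.of_finite`). -/

set_option autoImplicit false

open MeasureTheory H31.BE

namespace H33.BO

private theorem mdlA_law {Y Pt : Type} [MeasurableSpace Y] [Fintype Pt] (P0 : Measure Y) [IsProbabilityMeasure P0]
    {Φ0 : Y → Pt} (hΦ : Fm Φ0) (R : Pt → Prop) [DecidablePred R] :
    ∑ t with R t, law P0 Φ0 t = P0.real {y | R (Φ0 y)} := by
  unfold law
  rw [sum_measureReal_preimage_singleton _ fun t _ => hΦ t]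
  congr 1
  ext y
  simp

/-- a statement about laws transported from the source to the target -/
private theorem mdlA_pull {Y A B : Type} [MeasurableSpace Y] [Finite A] [Finite B] (P0 : Measure Y)
    [IsProbabilityMeasure P0] {Φ0 : Y → A} (hΦ : Fm Φ0) (f g : A → B)
    (hm : ∀ q, P0.real {y | f (Φ0 y) = q} = P0.real {y | g (Φ0 y) = q}) (R : B → Prop) :
    P0.real {y | R (f (Φ0 y))} = P0.real {y | R (g (Φ0 y))} := by
  classical
  letI := Fintype.ofFinite B
  rw [← mdlA_law P0 (hΦ.comp f) R, ← mdlA_law P0 (hΦ.comp g) R]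
  exact Finset.sum_congr rfl fun q _ => hm q

private theorem mdlA_c3e0 {k : ℕ} (W : Wd k) {P : Type} [Finite P] {Y : Type} [MeasurableSpace Y] (P0 : Measure Y)
    [IsProbabilityMeasure P0] (Φ0 : Y → Bg k W.length → P) (hΦ : Fm Φ0)
    (hm : ∀ (s : Lt k) (q : Qi W P s), P0.real {y | src s (Φ0 y) = q} = P0.real {y | tgt s (Φ0 y) = q})
    (s : Lt k) (i j : Bg k W.length) (hij : (i, j) ∈ ifc W s) (R : P → Prop) :
    P0.real {y | R (Φ0 y i)} = P0.real {y | R (Φ0 y j)} := by
  have h := mdlA_pull P0 hΦ (src s) (tgt s) (hm s) (fun q => R (q ⟨(i, j), hij⟩))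
  exact h

private theorem mdlA_ints {Ω V : Type} [Finite Ω] [Fintype V] [MeasurableSpace Ω] [DiscreteMeasurableSpace Ω]
    (Q : Measure Ω) [IsProbabilityMeasure Q] (R : Ω → V → Prop) :
    ∫ ω, ({v | R ω v}.ncard : ℝ) ∂Q = ∑ v, Q.real {ω | R ω v} := by
  classical
  have h1 : ∀ ω, ({v | R ω v}.ncard : ℝ) = ∑ v, Set.indicator {ω | R ω v} (fun _ => (1 : ℝ)) ω := by
    intro ω
    rw [Set.ncard_eq_toFinset_card']
    simp only [Set.indicator_apply, Set.mem_setOf_eq, Finset.sum_boole]
    congr 2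
    ext v
    simp
  simp only [h1]
  rw [integral_finsetSum _ fun v _ => Integrable.of_finite]
  refine Finset.sum_congr rfl fun v _ => ?_
  rw [integral_indicator_const _ (MeasurableSet.of_discrete)]
  simp

private theorem mdlA_num {k l D N n : ℕ} {x : ℝ} (hx : x ≤ 2 * (N : ℝ) * Real.sqrt n) : x ≤ Er k l D N n := by
  refine hx.trans ?_
  unfold Er
  have h0 : 0 ≤ Real.sqrt n := Real.sqrt_nonneg _
  have h1 : (1 : ℝ) ≤ 2 ^ (D + 2) := one_le_pow₀ (by norm_num)
  have h2 : (1 : ℝ) ≤ 5 * (l : ℝ) + 12 := by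
    have : (0 : ℝ) ≤ l := Nat.cast_nonneg l
    linarith
  have h3 : (1 : ℝ) ≤ (5 * (l : ℝ) + 12) * 2 ^ (D + 2) := by nlinarith
  have hN : (0 : ℝ) ≤ N := Nat.cast_nonneg N
  have hk : (0 : ℝ) ≤ k := Nat.cast_nonneg k
  have hD : (0 : ℝ) ≤ D := Nat.cast_nonneg D
  have h4 : 2 * (N : ℝ) ≤ 2 * ((k : ℝ) + 2) * N + 4 * ((D : ℝ) + 1) := by nlinarith
  have h5 : 0 ≤ 2 * ((k : ℝ) + 2) * N + 4 * ((D : ℝ) + 1) := by positivity
  refine mul_le_mul_of_nonneg_right ?_ h0
  nlinarith

open Classical in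
/-- the bound for the sum of the non-T masses -/
private theorem mdlA_mass {k : ℕ} (W : Wd k) {P : Type} [Finite P] (dir : P → Option Bool) {Y : Type}
    [MeasurableSpace Y] (P0 : Measure Y) [IsProbabilityMeasure P0] (Φ0 : Y → Bg k W.length → P) (hΦ : Fm Φ0)
    (hm : ∀ (s : Lt k) (q : Qi W P s), P0.real {y | src s (Φ0 y) = q} = P0.real {y | tgt s (Φ0 y) = q})
    [Fintype (Bg k W.length → P)] :
    (k : ℝ) + 1 ≤ ∑ s : Lt k, ∑ t with ¬ TT dir s (tgt s t), law P0 Φ0 t := by
  have hms : ∀ R : (Bg k W.length → P) → Prop, MeasurableSet {y | R (Φ0 y)} := fun R => hΦ.preimage {t | R t}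
  have h1 : ∀ s : Lt k, ∑ t with ¬ TT dir s (tgt s t), law P0 Φ0 t =
      1 - P0.real {y | TT dir s (tgt s (Φ0 y))} := by
    intro s
    rw [mdlA_law P0 hΦ]
    have h2 := probReal_compl_eq_one_sub (μ := P0) (hms fun t => TT dir s (tgt s t))
    rw [← h2]
    rfl
  have hel : P0.real {y | dir (Φ0 y (el k W.length)) = some false} =
      P0.real {y | dir (Φ0 y (e0 k W.length)) = some false} := by
    have a1 := mdlA_c3e0 W P0 Φ0 hΦ hm (some none) (c1 k W.length) (el k W.length) (by simp [ifc])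
      (fun p => dir p = some false)
    have a2 := mdlA_c3e0 W P0 Φ0 hΦ hm none (c2 k W.length) (c1 k W.length) (by simp [ifc])
      (fun p => dir p = some false)
    have a3 := mdlA_c3e0 W P0 Φ0 hΦ hm (some none) (c2 k W.length) (c3 k W.length) (by simp [ifc])
      (fun p => dir p = some false)
    have a4 := mdlA_c3e0 W P0 Φ0 hΦ hm none (c3 k W.length) (e0 k W.length) (by simp [ifc])
      (fun p => dir p = some false)
    rw [← a1, ← a2, a3, a4]
  have hdis : P0.real {y | dir (Φ0 y (e0 k W.length)) = some true} +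
      P0.real {y | dir (Φ0 y (e0 k W.length)) = some false} ≤ 1 := by
    rw [← measureReal_union]
    · exact measureReal_le_one
    · rw [Set.disjoint_left]
      intro y h h'
      have h2 : dir (Φ0 y (e0 k W.length)) = some true := h
      have h3 : dir (Φ0 y (e0 k W.length)) = some false := h'
      rw [h2] at h3
      exact absurd (Option.some.inj h3) (by decide)
    · exact hms fun t => dir (t (e0 k W.length)) = some false
  simp only [h1]
  rw [Fintype.sum_option, Fintype.sum_option]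
  have h3 : ∀ i : Fin k, P0.real {y | TT dir (some (some i)) (tgt (some (some i)) (Φ0 y))} = 0 := by
    intro i
    have : {y | TT dir (some (some i)) (tgt (some (some i)) (Φ0 y))} = (∅ : Set Y) := by
      ext y
      constructor
      · intro h
        exact h.elim
      · intro h
        exact h.elim
    rw [this, measureReal_empty]
  simp only [h3, sub_zero, Finset.sum_const, Finset.card_univ, Fintype.card_fin, nsmul_eq_mul, mul_one]
  have h4 : P0.real {y | TT dir none (tgt none (Φ0 y))} =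
      P0.real {y | dir (Φ0 y (e0 k W.length)) = some true} := rfl
  have h5 : P0.real {y | TT dir (some none) (tgt (some none) (Φ0 y))} =
      P0.real {y | dir (Φ0 y (el k W.length)) = some false} := rfl
  rw [h4, h5, hel]
  linarith

private theorem mdlA_cn {k : ℕ} (W : Wd k) {V P : Type} [Fintype V] (dir : P → Option Bool) (dp : P → ℕ)
    (om : V → Bg k W.length → P) (j : Bg k W.length) (c : Bool) (i : ℕ) :
    (cn W dir dp om j c i : ℝ) =
      ∑ v, (open Classical in if dir (om v j) = some c ∧ dp (om v j) = i then (1 : ℝ) else 0) := by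
  classical
  unfold cn
  rw [Set.ncard_eq_toFinset_card', Finset.sum_boole]
  congr 2
  ext v
  simp

/-- the mean fluctuation of a count -/
private theorem mdlA_fl {k : ℕ} (W : Wd k) {P : Type} [Finite P] (dir : P → Option Bool) (dp : P → ℕ) {Y : Type}
    [MeasurableSpace Y] (P0 : Measure Y) [IsProbabilityMeasure P0] (Φ0 : Y → Bg k W.length → P) (hΦ : Fm Φ0)
    [Fintype (Bg k W.length → P)] (i j : Bg k W.length) (c : Bool) (m : ℕ)
    (hij : ∀ R : P → Prop, P0.real {y | R (Φ0 y i)} = P0.real {y | R (Φ0 y j)}) {n : ℕ} {Ω : Type}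
    [MeasurableSpace Ω] (Q : Measure Ω) (om : Ω → Fin n → Bg k W.length → P)
    (h6 : ∀ f : (Bg k W.length → P) → ℝ, (∀ t, |f t| ≤ 1) →
        ∫ ω, |∑ v, f (om ω v) - n * ∑ t, law P0 Φ0 t * f t| ∂Q ≤ 2 * Real.sqrt n) :
    ∫ ω, |(cn W dir dp (om ω) i c m : ℝ) - cn W dir dp (om ω) j c m| ∂Q ≤ 2 * Real.sqrt n := by
  classical
  set g : Bg k W.length → (Bg k W.length → P) → ℝ :=
    fun a t => if dir (t a) = some c ∧ dp (t a) = m then 1 else 0 with hg
  have hb : ∀ t, |g i t - g j t| ≤ 1 := by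
    intro t
    simp only [hg]
    split_ifs <;> norm_num
  have hsum : ∀ a, ∑ t, law P0 Φ0 t * g a t = P0.real {y | dir (Φ0 y a) = some c ∧ dp (Φ0 y a) = m} := by
    intro a
    have h1 := mdlA_law P0 hΦ (fun t => dir (t a) = some c ∧ dp (t a) = m)
    rw [← h1, Finset.sum_filter]
    refine Finset.sum_congr rfl fun t _ => ?_
    simp only [hg, mul_ite, mul_one, mul_zero]
  have hz : ∑ t, law P0 Φ0 t * (g i t - g j t) = 0 := by
    simp only [mul_sub, Finset.sum_sub_distrib]
    rw [hsum i, hsum j, hij (fun p => dir p = some c ∧ dp p = m), sub_self]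
  have h := h6 (fun t => g i t - g j t) hb
  simp only [hz, mul_zero, sub_zero] at h
  have h2 : ∀ ω, (cn W dir dp (om ω) i c m : ℝ) - cn W dir dp (om ω) j c m =
      ∑ v, (g i (om ω v) - g j (om ω v)) := by
    intro ω
    rw [mdlA_cn, mdlA_cn, ← Finset.sum_sub_distrib]
  simp only [h2]
  exact h

theorem mdlA {k : ℕ} (W : Wd k) {P : Type} [Finite P] (dir : P → Option Bool) (tl : P → P) (dp : P → ℕ)
    (hdp : ∀ p c, dir p = some c → dp p = dp (tl p) + 1) (D : ℕ) (hD : ∀ p, dp p ≤ D)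
    {Y : Type} [MeasurableSpace Y] (P0 : Measure Y) [IsProbabilityMeasure P0] (Φ0 : Y → Bg k W.length → P)
    (hΦ : Fm Φ0) (hsup : ∀ᵐ y ∂P0, Sup dir tl (Φ0 y))
    (hm : ∀ s q, P0.real {y | src s (Φ0 y) = q} = P0.real {y | tgt s (Φ0 y) = q})
    (N : ℕ) (hN : ∀ s, Nat.card (Qi W P s) ≤ N) (n : ℕ) (hn : 1 ≤ n) :
    ∃ (Ω : Type) (_ : Finite Ω) (_ : MeasurableSpace Ω) (_ : DiscreteMeasurableSpace Ω) (Q : Measure Ω)
      (_ : IsProbabilityMeasure Q) (om : Ω → Fin n → Bg k W.length → P) (M X : Ω → Lt k → Equiv.Perm (Fin n))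
      (M0 : (Fin n → Bg k W.length → P) → Lt k → Equiv.Perm (Fin n)),
      (n * Fn W dir (law P0 Φ0) + ((k : ℝ) + 1) * (n * Real.log n) - ((k : ℝ) + 2) * n ≤
        ent Q (fun ω => (om ω, M ω))) ∧
      (∀ v t, Q.real {ω | om ω v = t} = law P0 Φ0 t) ∧
      (∀ᵐ ω ∂Q, ∀ v, 0 < law P0 Φ0 (om ω v)) ∧
      (∀ s, ∫ ω, (open Classical in {v | M ω s v ≠
        (if TT dir s (src s (om ω v)) then M0 (om ω) s v else X ω s v)}.ncard : ℝ) ∂Q ≤ Er k W.length D N n) ∧
      (∫ ω, ((Mis W (om ω) (X ω)).ncard : ℝ) ∂Q ≤ Er k W.length D N n) ∧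
      (∫ ω, ((defs W (X ω)).ncard : ℝ) ∂Q ≤ n * P0.real {y | dir (Φ0 y (e0 k W.length)) = none} +
        Er k W.length D N n) := by
  classical
  letI := Fintype.ofFinite P
  have hp0 : ∀ t, 0 ≤ law P0 Φ0 t := fun t => measureReal_nonneg
  have hp1 : ∑ t, law P0 Φ0 t = 1 := entF_sum hΦ
  have hsup' : ∀ t, 0 < law P0 Φ0 t → Sup dir tl t := by
    intro t ht
    by_contra hcon
    have hsub : Φ0 ⁻¹' {t} ⊆ {y | ¬ Sup dir tl (Φ0 y)} := by
      intro y hy
      have hy' : Φ0 y = t := hy
      change ¬ Sup dir tl (Φ0 y)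
      rw [hy']
      exact hcon
    have h0 : P0 (Φ0 ⁻¹' {t}) = 0 := measure_mono_null hsub hsup
    have h1 : law P0 Φ0 t = 0 := by
      unfold law
      rw [measureReal_def, h0]
      rfl
    rw [h1] at ht
    exact lt_irrefl _ ht
  obtain ⟨Ω, iF, iM, iD, Q, iQ, om, M, M0, r1, r2, r3, r4, r5, r6⟩ :=
    rmodel (S := Lt k) (Pt := Bg k W.length → P) (Q := Qi W P) (fun s => src s) (fun s => tgt s) (TT dir)
      (law P0 Φ0) hp0 hp1 (by
        intro s q
        rw [mdlA_law P0 hΦ, mdlA_law P0 hΦ]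
        exact hm s q) n hn
  have hcmp : ∀ ω, (∀ v, 0 < law P0 Φ0 (om ω v)) → _ := fun ω h =>
    cmp W dir tl dp hdp D hD (om ω) (fun v => hsup' _ (h v)) (M ω)
  set X : Ω → Lt k → Equiv.Perm (Fin n) :=
    fun ω => if h : ∀ v, 0 < law P0 Φ0 (om ω v) then (hcmp ω h).choose else M ω with hXdef
  have hX : ∀ ω (h : ∀ v, 0 < law P0 Φ0 (om ω v)),
      (∀ s, {v | ¬ TT dir s (src s (om ω v)) ∧ X ω s v ≠ M ω s v}.ncard ≤ (um W dir (om ω) (M ω) s).ncard) ∧
      ((Mis W (om ω) (X ω)).ncard : ℝ) ≤ (5 * W.length + 12) * 2 ^ (D + 2) * Kr W dir dp (om ω) (M ω) D ∧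
      ((defs W (X ω)).ncard : ℝ) ≤ {v | dir (om ω v (e0 k W.length)) = none}.ncard +
        (5 * W.length + 12) * 2 ^ (D + 2) * Kr W dir dp (om ω) (M ω) D := by
    intro ω h
    have h2 := (hcmp ω h).choose_spec
    have h3 : X ω = (hcmp ω h).choose := by
      rw [hXdef]
      exact dif_pos h
    rw [h3]
    exact h2.2
  have hum : ∀ s, ∫ ω, ((um W dir (om ω) (M ω) s).ncard : ℝ) ∂Q ≤ 2 * (N : ℝ) * Real.sqrt n := by
    intro s
    refine (r5 s).trans (mul_le_mul_of_nonneg_right ?_ (Real.sqrt_nonneg _))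
    have h2 : Fintype.card (Qi W P s) ≤ N := by
      rw [← Nat.card_eq_fintype_card]
      exact hN s
    have h3 : (Fintype.card (Qi W P s) : ℝ) ≤ N := Nat.cast_le.2 h2
    linarith
  have hKr : ∫ ω, Kr W dir dp (om ω) (M ω) D ∂Q ≤
      (2 * ((k : ℝ) + 2) * N + 4 * ((D : ℝ) + 1)) * Real.sqrt n := by
    unfold Kr
    rw [integral_add Integrable.of_finite Integrable.of_finite,
      integral_finsetSum _ fun s _ => Integrable.of_finite,
      integral_finsetSum _ fun s _ => Integrable.of_finite]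
    have h2 : ∑ s : Lt k, ∫ ω, ((um W dir (om ω) (M ω) s).ncard : ℝ) ∂Q ≤
        ∑ _s : Lt k, 2 * (N : ℝ) * Real.sqrt n := Finset.sum_le_sum fun s _ => hum s
    have h3 : ∑ i ∈ Finset.range (D + 1), ∫ ω, (|(cn W dir dp (om ω) (c3 k W.length) true i : ℝ) -
          cn W dir dp (om ω) (e0 k W.length) true i| +
        |(cn W dir dp (om ω) (c1 k W.length) false i : ℝ) - cn W dir dp (om ω) (el k W.length) false i|) ∂Q ≤
        ∑ _i ∈ Finset.range (D + 1), (2 * Real.sqrt n + 2 * Real.sqrt n) := by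
      refine Finset.sum_le_sum fun i _ => ?_
      rw [integral_add Integrable.of_finite Integrable.of_finite]
      refine add_le_add ?_ ?_
      · exact mdlA_fl W dir dp P0 Φ0 hΦ _ _ true i
          (fun R => mdlA_c3e0 W P0 Φ0 hΦ hm none (c3 k W.length) (e0 k W.length) (by simp [ifc]) R) Q om r6
      · exact mdlA_fl W dir dp P0 Φ0 hΦ _ _ false i
          (fun R => mdlA_c3e0 W P0 Φ0 hΦ hm (some none) (c1 k W.length) (el k W.length) (by simp [ifc]) R) Q om r6
    refine (add_le_add h2 h3).trans (le_of_eq ?_)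
    simp only [Finset.sum_const, Finset.card_univ, Fintype.card_option, Fintype.card_fin, Finset.card_range,
      nsmul_eq_mul]
    push_cast
    ring
  have hC : (0 : ℝ) ≤ (5 * W.length + 12) * 2 ^ (D + 2) := by positivity
  have hKr' : (5 * (W.length : ℝ) + 12) * 2 ^ (D + 2) * ∫ ω, Kr W dir dp (om ω) (M ω) D ∂Q ≤
      Er k W.length D N n := by
    unfold Er
    rw [mul_assoc ((5 * (W.length : ℝ) + 12) * 2 ^ (D + 2))]
    exact mul_le_mul_of_nonneg_left hKr hC
  refine ⟨Ω, iF, iM, iD, Q, iQ, om, M, X, M0, ?_, r2, r3, ?_, ?_, ?_⟩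
  · refine le_trans ?_ r1
    have hF : Fn W dir (law P0 Φ0) = (∑ t, Real.negMulLog (law P0 Φ0 t)) -
          ∑ s : Lt k, ∑ q : Qi W P s, if TT dir s q then 0 else
            Real.negMulLog (∑ t with tgt s t = q, law P0 Φ0 t) := by
      unfold Fn Gn
      congr!
    have hmass := mdlA_mass W dir P0 Φ0 hΦ hm
    have hlog : 0 ≤ (n : ℝ) * Real.log n :=
      mul_nonneg (Nat.cast_nonneg n) (Real.log_nonneg (by exact_mod_cast hn))
    have hcard : (Fintype.card (Lt k) : ℝ) = (k : ℝ) + 2 := by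
      simp only [Fintype.card_option, Fintype.card_fin]
      push_cast
      ring
    rw [hF, hcard]
    have h2 := mul_le_mul_of_nonneg_right hmass hlog
    refine sub_le_sub_right (add_le_add (le_of_eq ?_) ?_) _
    · congr!
    · refine h2.trans (le_of_eq ?_)
      congr!
  · intro s
    refine mdlA_num ((integral_mono_ae Integrable.of_finite Integrable.of_finite ?_).trans (hum s))
    filter_upwards [r3] with ω hω
    refine Nat.cast_le.2 ((Set.ncard_le_ncard ?_ (Set.toFinite _)).trans ((hX ω hω).1 s))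
    intro v hv
    have hv' : M ω s v ≠ (if TT dir s (src s (om ω v)) then M0 (om ω) s v else X ω s v) := by
      convert hv
    by_cases hT : TT dir s (src s (om ω v))
    · rw [if_pos hT] at hv'
      exact absurd (r4 ω s v hT) hv'
    · rw [if_neg hT] at hv'
      exact ⟨hT, hv'.symm⟩
  · refine le_trans ?_ hKr'
    rw [← integral_const_mul]
    refine integral_mono_ae Integrable.of_finite Integrable.of_finite ?_
    filter_upwards [r3] with ω hω
    exact (hX ω hω).2.1
  · have h2 : ∫ ω, ({v | dir (om ω v (e0 k W.length)) = none}.ncard : ℝ) ∂Q =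
        n * P0.real {y | dir (Φ0 y (e0 k W.length)) = none} := by
      rw [mdlA_ints Q (fun ω v => dir (om ω v (e0 k W.length)) = none)]
      have h3 : ∀ v, Q.real {ω | dir (om ω v (e0 k W.length)) = none} =
          P0.real {y | dir (Φ0 y (e0 k W.length)) = none} := by
        intro v
        have hfm : Fm (fun ω => om ω v) := fun _ => MeasurableSet.of_discrete
        rw [← mdlA_law Q hfm (fun t => dir (t (e0 k W.length)) = none),
          ← mdlA_law P0 hΦ (fun t => dir (t (e0 k W.length)) = none)]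
        exact Finset.sum_congr rfl fun t _ => r2 v t
      simp only [h3, Finset.sum_const, Finset.card_univ, Fintype.card_fin, nsmul_eq_mul]
    rw [← h2]
    refine le_trans ?_ (add_le_add_right hKr' _)
    rw [← integral_const_mul, ← integral_add Integrable.of_finite Integrable.of_finite]
    refine integral_mono_ae Integrable.of_finite Integrable.of_finite ?_
    filter_upwards [r3] with ω hω
    exact (hX ω hω).2.2

end H33.BO
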