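import Pool.Agent.H33.BO.Defs

/-! # BO.Mtch : the interfaces of a finite structure are matched at the good cells

PROOF. Cases on the letter. `(X s v)` is `ac X (of s) v`. Every pair `(i, j) ∈ ifc W s`: it is enough that `ac X (bgw W j) (X s v) = ac X (bgw W i) v`. Letter x_i: `(x_i, e0)`: `wf (W.take 0) = 1`. `(e_(j+1), e_j)` if `W[j] = (i, true)`: `wf (W.take (j+1)) = wf (W.take j) * xx i`; `(e_j, e_(j+1))` if `W[j] = (i, false)`: `wf (W.take (j+1)) = wf (W.take j) * (xx i)⁻¹`, so `e_j = e_(j+1) * xx i`
(`List.take_succ_eq_append_getElem` or a similar lemma, `List.map_append`, `List.prod_append`; `W.get j` as in `ifc`). Letter b: `(c1, el)`: `wf W * bb` and `wf (W.take W.length) = wf W`; `(c2, c3)`: `aa * bb`. Letter a: `(c3, e0)`: `aa`; `(c2, c1)`: `ac X (aa * bb) v` and `ac X (wf W * bb * aa) v =: w`: by `h` `ac X (rel W) w = w`, and `rel W * (wf W * bb * aa) = aa * bb`. -/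

set_option autoImplicit false

open MeasureTheory

namespace H33.BO

private theorem mtch_wf {k : ℕ} (W : Wd k) (j : Fin W.length) :
    wf (W.take ((j : ℕ) + 1)) = wf (W.take (j : ℕ)) * sl (W.get j) := by
  unfold wf
  rw [List.take_succ_eq_append_getElem j.2, List.map_append, List.prod_append]
  simp

private theorem mtch_ap {k : ℕ} {V : Type} (X : Lt k → Equiv.Perm V) (f : Fg k) (s : Lt k) (v : V) :
    ac X f (X s v) = ac X (f * FreeGroup.of s) v := by
  rw [map_mul, Equiv.Perm.mul_apply, FreeGroup.lift_apply_of]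

private theorem mtch_key {k : ℕ} (W : Wd k) {V : Type} (X : Lt k → Equiv.Perm V) (s : Lt k) (v : V)
    (h : s = none → ac X (wf W * bb k * aa k) v ∉ defs W X) (p : Bg k W.length × Bg k W.length)
    (hp : p ∈ ifc W s) : ac X (bgw W p.2) (X s v) = ac X (bgw W p.1) v := by
  rcases s with _ | _ | i
  · simp only [ifc, Finset.mem_insert, Finset.mem_singleton] at hp
    rcases hp with rfl | rfl
    · rw [mtch_ap]
      simp [bgw, e0, c3, wf, aa]
    · have h1 := h rfl
      simp only [defs, Set.mem_setOf_eq, not_not] at h1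
      rw [mtch_ap]
      simp only [bgw, c1, c2]
      change ac X (wf W * bb k * aa k) v = ac X (aa k * bb k) v
      rw [← h1, ← Equiv.Perm.mul_apply, ← map_mul]
      congr 2
      rw [rel]
      group
  · simp only [ifc, Finset.mem_insert, Finset.mem_singleton] at hp
    rcases hp with rfl | rfl
    · rw [mtch_ap]
      simp [bgw, el, c1, bb]
    · rw [mtch_ap]
      simp [bgw, c2, c3, bb]
  · simp only [ifc, Finset.mem_insert, Finset.mem_image, Finset.mem_filter, Finset.mem_univ, true_and] at hp
    rcases hp with rfl | ⟨j, hj, rfl⟩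
    · rw [mtch_ap]
      simp [bgw, e0, wf, xx]
    · have h1 := mtch_wf W j
      rw [mtch_ap]
      have h2 : W.get j = (i, (W.get j).2) := Prod.ext hj rfl
      rcases hc : (W.get j).2 with _ | _
      · rw [hc] at h2
        rw [h2] at h1
        simp only [Bool.false_eq_true, if_false, bgw, Fin.val_succ, Fin.val_castSucc]
        rw [h1]
        simp [sl, xx]
      · rw [hc] at h2
        rw [h2] at h1
        simp only [if_true, bgw, Fin.val_succ, Fin.val_castSucc]
        rw [h1]
        simp [sl, xx]

theorem mtch {k : ℕ} (W : Wd k) {V P : Type} (X : Lt k → Equiv.Perm V) (φ : V → P) (s : Lt k) (v : V)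
    (h : s = none → ac X (wf W * bb k * aa k) v ∉ defs W X) :
    tgt s (fun j : Bg k W.length => φ (ac X (bgw W j) (X s v))) =
      src s (fun j : Bg k W.length => φ (ac X (bgw W j) v)) := by
  funext p
  exact congrArg φ (mtch_key W X s v h p.1 p.2)

end H33.BO
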