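import Pool.Agent.H33.BO.Defs2

/-! # BO.NumC : the choice of the number of vertices

PROOF. `n = Pc^(2l+16)`, `√n = Pc^(l+8)`, `2^(r+3) ≤ 4 * 3^(r+1) ≤ 4 Pc`, `r + 2 ≤ 3^(r+1) ≤ Pc`, `Pc ≥ 3`. `Er ≤ (5 l + 12) * 4 Pc * (2 (k+2) Pc^(l+2) + 4 Pc) * Pc^(l+8) ≤ C1 Pc^(2 l + 11) = C1 n / Pc^5`, so `Er / n ≤ C1 / Pc^5` and `2^r Er / n ≤ C1 / Pc^4`. `log (n + 1) ≤ (2 l + 16) log Pc + 1 ≤ (2 l + 17) log (Pc + 2)`, `log (n Pc^B) = (2 l + 16 + B) log Pc`, `1 / n ≤ 1 / Pc`. Every term is at most a constant times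
`(δ + 1 / Pc) log (Pc + 2)`. -/

set_option autoImplicit false

open MeasureTheory H31.BE

namespace H33.BO

private theorem numC_pow (r : ℕ) : (r : ℝ) + 2 ≤ 3 ^ (r + 1) := by
  induction r with
  | zero => norm_num
  | succ r ih =>
    push_cast
    have h : (3 : ℝ) ^ (r + 1 + 1) = 3 * 3 ^ (r + 1) := by ring
    have hr : (0 : ℝ) ≤ (r : ℝ) := Nat.cast_nonneg r
    rw [h]
    linarith

private theorem numC_Er (k l r Pc : ℕ) (h : 3 ^ (r + 1) ≤ Pc) :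
    0 ≤ Er k l (r + 1) (Pc ^ (l + 2)) (Pc ^ (2 * l + 16)) ∧
    Er k l (r + 1) (Pc ^ (l + 2)) (Pc ^ (2 * l + 16)) * (Pc : ℝ) ^ 5 ≤
      (4 * (5 * (l : ℝ) + 12) * (2 * (k : ℝ) + 8)) * (((Pc ^ (2 * l + 16) : ℕ)) : ℝ) := by
  have hPR : ((3 : ℝ) ^ (r + 1)) ≤ (Pc : ℝ) := by exact_mod_cast h
  have h3 : (3 : ℝ) ≤ (Pc : ℝ) := by
    refine le_trans ?_ hPR
    calc (3 : ℝ) = 3 ^ 1 := by norm_num
      _ ≤ 3 ^ (r + 1) := pow_le_pow_right₀ (by norm_num) (by omega)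
  have hP0 : (0 : ℝ) ≤ (Pc : ℝ) := by linarith
  have hP1 : (1 : ℝ) ≤ (Pc : ℝ) := by linarith
  have hr2 : (r : ℝ) + 2 ≤ (Pc : ℝ) := (numC_pow r).trans hPR
  have h2r : (2 : ℝ) ^ (r + 1 + 2) ≤ 4 * (Pc : ℝ) := by
    have h1 : (2 : ℝ) ^ (r + 1) ≤ 3 ^ (r + 1) := pow_le_pow_left₀ (by norm_num) (by norm_num) _
    have h2 : (2 : ℝ) ^ (r + 1 + 2) = 4 * 2 ^ (r + 1) := by ring
    rw [h2]
    linarith
  have hsq : Real.sqrt (((Pc ^ (2 * l + 16) : ℕ)) : ℝ) = (Pc : ℝ) ^ (l + 8) := by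
    rw [Nat.cast_pow, show 2 * l + 16 = (l + 8) * 2 by ring, pow_mul]
    exact Real.sqrt_sq (by positivity)
  have hPl : (Pc : ℝ) ≤ (Pc : ℝ) ^ (l + 2) := by
    calc (Pc : ℝ) = (Pc : ℝ) ^ 1 := (pow_one _).symm
      _ ≤ (Pc : ℝ) ^ (l + 2) := pow_le_pow_right₀ hP1 (by omega)
  have hl : (0 : ℝ) ≤ (l : ℝ) := Nat.cast_nonneg l
  have hk : (0 : ℝ) ≤ (k : ℝ) := Nat.cast_nonneg k
  have hr0 : (0 : ℝ) ≤ (r : ℝ) := Nat.cast_nonneg r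
  unfold Er
  rw [hsq]
  push_cast
  constructor
  · positivity
  have hA : 2 * ((k : ℝ) + 2) * (Pc : ℝ) ^ (l + 2) + 4 * ((r : ℝ) + 1 + 1) ≤
      (2 * (k : ℝ) + 8) * (Pc : ℝ) ^ (l + 2) := by
    nlinarith [hr2, hPl]
  have hA0 : 0 ≤ 2 * ((k : ℝ) + 2) * (Pc : ℝ) ^ (l + 2) + 4 * ((r : ℝ) + 1 + 1) := by positivity
  calc (5 * (l : ℝ) + 12) * 2 ^ (r + 1 + 2) *
        (2 * ((k : ℝ) + 2) * (Pc : ℝ) ^ (l + 2) + 4 * ((r : ℝ) + 1 + 1)) * (Pc : ℝ) ^ (l + 8) * (Pc : ℝ) ^ 5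
      ≤ (5 * (l : ℝ) + 12) * (4 * (Pc : ℝ)) *
        ((2 * (k : ℝ) + 8) * (Pc : ℝ) ^ (l + 2)) * (Pc : ℝ) ^ (l + 8) * (Pc : ℝ) ^ 5 := by
        gcongr
    _ = (4 * (5 * (l : ℝ) + 12) * (2 * (k : ℝ) + 8)) * (Pc : ℝ) ^ (2 * l + 16) := by ring

set_option maxHeartbeats 4000000 in
theorem numC (k l B : ℕ) : ∃ C : ℝ, 0 ≤ C ∧ ∀ (Pc r : ℕ) (δ : ℝ), 3 ^ (r + 1) ≤ Pc → 0 ≤ δ →
    (δ + Er k l (r + 1) (Pc ^ (l + 2)) (Pc ^ (2 * l + 16)) / ((Pc ^ (2 * l + 16) : ℕ) : ℝ)) *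
        Real.log (((Pc ^ (2 * l + 16) : ℕ) : ℝ) + 1) +
      Real.log (((Pc ^ (2 * l + 16) : ℕ) : ℝ) + 1) / ((Pc ^ (2 * l + 16) : ℕ) : ℝ) +
      2 ^ r * (Er k l (r + 1) (Pc ^ (l + 2)) (Pc ^ (2 * l + 16)) / ((Pc ^ (2 * l + 16) : ℕ) : ℝ)) *
        Real.log (((Pc ^ (2 * l + 16) : ℕ) : ℝ) * (Pc : ℝ) ^ B) ≤
      C * (δ + 1 / Pc) * Real.log (Pc + 2) := by
  have hl : (0 : ℝ) ≤ (l : ℝ) := Nat.cast_nonneg l
  have hk : (0 : ℝ) ≤ (k : ℝ) := Nat.cast_nonneg k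
  have hB : (0 : ℝ) ≤ (B : ℝ) := Nat.cast_nonneg B
  set C1 : ℝ := 4 * (5 * (l : ℝ) + 12) * (2 * (k : ℝ) + 8) with hC1
  have hC10 : 0 ≤ C1 := by positivity
  refine ⟨(2 * l + 17) + C1 * (2 * l + 17) + (2 * l + 17) + C1 * (2 * l + 16 + B), by positivity, ?_⟩
  intro Pc r δ hPc hδ
  obtain ⟨hE0, hE1⟩ := numC_Er k l r Pc hPc
  set n : ℝ := ((Pc ^ (2 * l + 16) : ℕ) : ℝ) with hn
  have hPR : ((3 : ℝ) ^ (r + 1)) ≤ (Pc : ℝ) := by exact_mod_cast hPc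
  have h3 : (3 : ℝ) ≤ (Pc : ℝ) := by
    refine le_trans ?_ hPR
    calc (3 : ℝ) = 3 ^ 1 := by norm_num
      _ ≤ 3 ^ (r + 1) := pow_le_pow_right₀ (by norm_num) (by omega)
  have hP0 : (0 : ℝ) < (Pc : ℝ) := by linarith
  have hP1 : (1 : ℝ) ≤ (Pc : ℝ) := by linarith
  have hnP : n = (Pc : ℝ) ^ (2 * l + 16) := by rw [hn]; push_cast; rfl
  have hn1 : (Pc : ℝ) ≤ n := by
    rw [hnP]
    calc (Pc : ℝ) = (Pc : ℝ) ^ 1 := (pow_one _).symm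
      _ ≤ (Pc : ℝ) ^ (2 * l + 16) := pow_le_pow_right₀ hP1 (by omega)
  have hn0 : 0 < n := by linarith
  set Λ : ℝ := Real.log ((Pc : ℝ) + 2) with hΛ
  have hΛ0 : 0 ≤ Λ := Real.log_nonneg (by linarith)
  set E : ℝ := Er k l (r + 1) (Pc ^ (l + 2)) (Pc ^ (2 * l + 16)) / n with hE
  have hEn : 0 ≤ E := div_nonneg hE0 hn0.le
  have hE5 : E * (Pc : ℝ) ^ 5 ≤ C1 := by
    rw [hE, div_mul_eq_mul_div, div_le_iff₀ hn0]
    exact hE1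
  have hPpow : ∀ j : ℕ, 1 ≤ (Pc : ℝ) ^ j := fun j => one_le_pow₀ hP1
  have hE1' : E ≤ C1 / Pc := by
    rw [le_div_iff₀ hP0]
    have h4 := hPpow 4
    have : E * (Pc : ℝ) ^ 5 = E * Pc * (Pc : ℝ) ^ 4 := by ring
    rw [this] at hE5
    nlinarith [mul_nonneg hEn hP0.le]
  have hE2' : 2 ^ r * E ≤ C1 / Pc := by
    have h2 : (2 : ℝ) ^ r ≤ Pc := by
      have h1 : (2 : ℝ) ^ r ≤ 3 ^ r := pow_le_pow_left₀ (by norm_num) (by norm_num) _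
      have h2 : (3 : ℝ) ^ r ≤ 3 ^ (r + 1) := pow_le_pow_right₀ (by norm_num) (by omega)
      linarith
    rw [le_div_iff₀ hP0]
    have h3' := hPpow 3
    have : E * (Pc : ℝ) ^ 5 = (Pc : ℝ) * E * Pc * (Pc : ℝ) ^ 3 := by ring
    rw [this] at hE5
    have h5 : 0 ≤ (Pc : ℝ) * E * Pc := by positivity
    have h6 : 2 ^ r * E * Pc ≤ (Pc : ℝ) * E * Pc := by
      gcongr
    nlinarith
  have hlog1 : Real.log (n + 1) ≤ (2 * l + 17) * Λ := by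
    have h1 : n + 1 ≤ ((Pc : ℝ) + 2) ^ (2 * l + 17) := by
      have h2 : n + 1 ≤ (Pc : ℝ) * n := by nlinarith
      have h4 : (Pc : ℝ) * n = (Pc : ℝ) ^ (2 * l + 17) := by rw [hnP]; ring
      rw [h4] at h2
      exact h2.trans (pow_le_pow_left₀ hP0.le (by linarith) _)
    calc Real.log (n + 1) ≤ Real.log (((Pc : ℝ) + 2) ^ (2 * l + 17)) :=
          Real.log_le_log (by linarith) h1
      _ = (2 * l + 17) * Λ := by rw [Real.log_pow]; push_cast; ring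
  have hlog1' : 0 ≤ Real.log (n + 1) := Real.log_nonneg (by linarith)
  have hlog2 : Real.log (n * (Pc : ℝ) ^ B) ≤ (2 * l + 16 + B) * Λ := by
    have h1 : n * (Pc : ℝ) ^ B = (Pc : ℝ) ^ (2 * l + 16 + B) := by rw [hnP, ← pow_add]
    rw [h1, Real.log_pow]
    have h2 : Real.log (Pc : ℝ) ≤ Λ := Real.log_le_log hP0 (by linarith)
    push_cast
    gcongr
  have hlog2' : 0 ≤ Real.log (n * (Pc : ℝ) ^ B) := by
    apply Real.log_nonneg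
    have := hPpow B
    nlinarith
  have t1 : (δ + E) * Real.log (n + 1) ≤ (δ + C1 / Pc) * ((2 * l + 17) * Λ) := by
    gcongr
  have t2 : Real.log (n + 1) / n ≤ ((2 * l + 17) * Λ) / Pc := by
    gcongr
  have t3 : 2 ^ r * E * Real.log (n * (Pc : ℝ) ^ B) ≤ C1 / Pc * ((2 * l + 16 + B) * Λ) := by
    gcongr
  have hfin : (δ + C1 / Pc) * ((2 * l + 17) * Λ) + ((2 * l + 17) * Λ) / Pc +
      C1 / Pc * ((2 * l + 16 + B) * Λ) ≤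
      ((2 * l + 17) + C1 * (2 * l + 17) + (2 * l + 17) + C1 * (2 * l + 16 + B)) * (δ + 1 / Pc) * Λ := by
    have hx : 0 ≤ (1 : ℝ) / Pc := by positivity
    have e1 : (δ + C1 / Pc) * ((2 * l + 17) * Λ) + ((2 * l + 17) * Λ) / Pc +
        C1 / Pc * ((2 * l + 16 + B) * Λ) = (δ * (2 * l + 17) + (1 / Pc) *
        (C1 * (2 * l + 17) + (2 * l + 17) + C1 * (2 * l + 16 + B))) * Λ := by
      field_simp
      ring
    rw [e1]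
    apply mul_le_mul_of_nonneg_right _ hΛ0
    have hc : 0 ≤ C1 * (2 * l + 17) + (2 * l + 17) + C1 * (2 * l + 16 + B) := by positivity
    have hd : (0 : ℝ) ≤ 2 * l + 17 := by positivity
    have q1 : 0 ≤ δ * (C1 * (2 * l + 17) + (2 * l + 17) + C1 * (2 * l + 16 + B)) := mul_nonneg hδ hc
    have q2 : 0 ≤ 1 / (Pc : ℝ) * (2 * l + 17) := mul_nonneg hx hd
    have e2 : ((2 * (l : ℝ) + 17) + C1 * (2 * l + 17) + (2 * l + 17) + C1 * (2 * l + 16 + B)) *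
        (δ + 1 / Pc) = (δ * (2 * l + 17) + (1 / Pc) *
        (C1 * (2 * l + 17) + (2 * l + 17) + C1 * (2 * l + 16 + B))) +
        δ * (C1 * (2 * l + 17) + (2 * l + 17) + C1 * (2 * l + 16 + B)) +
        1 / (Pc : ℝ) * (2 * l + 17) := by ring
    rw [e2]
    linarith
  linarith

end H33.BO
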