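import Pool.Agent.H33.BO.Defs2

/-! # BO.PatB : number of patterns

PROOF. `Pt Λ r` is the disjoint union over `i ≤ r` of the lists of length `i` of a type with `3 * card Λ` elements (`List.Vector`, `card_vector`): `∑ i ≤ r, (3 c)^i ≤ (3 c + 1)^r` (induction on `r`: or an injection into the maps `Fin r → Option (Λ × Option Bool)`: a list is sent to the map `i ↦ l[i]?`, injective for length at most `r`:
`card (Fin r → Option (Λ × Option Bool)) = (3 c + 1)^r`). Lower bound: the injection `(Fin r → Option Bool) → Pt Λ r`, `f ↦ List.ofFn (fun i => (default, f i))`. -/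

set_option autoImplicit false

open MeasureTheory H31.BE

namespace H33.BO

theorem card_pt_le (Λ : Type) [Finite Λ] (r : ℕ) : Nat.card (Pt Λ r) ≤ (3 * Nat.card Λ + 1) ^ r := by
  have h1 : Nat.card (Fin r → Option (Λ × Option Bool)) = (3 * Nat.card Λ + 1) ^ r := by
    rw [Nat.card_fun, Finite.card_option, Nat.card_prod, Finite.card_option, Nat.card_fin,
      Nat.card_eq_fintype_card (α := Bool), Fintype.card_bool, mul_comm (Nat.card Λ)]
  rw [← h1]
  refine Nat.card_le_card_of_injective (fun (p : Pt Λ r) (i : Fin r) => p.1[(i : ℕ)]?) ?_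
  intro p p' h
  apply Subtype.ext
  apply List.ext_getElem?
  intro i
  by_cases hi : i < r
  · exact congrFun h ⟨i, hi⟩
  · rw [List.getElem?_eq_none (by have := p.2; omega), List.getElem?_eq_none (by have := p'.2; omega)]

theorem card_pt_ge (Λ : Type) [Finite Λ] [Nonempty Λ] (r : ℕ) : 3 ^ r ≤ Nat.card (Pt Λ r) := by
  obtain ⟨a⟩ := (inferInstance : Nonempty Λ)
  have h1 : Nat.card (Fin r → Option Bool) = 3 ^ r := by
    rw [Nat.card_fun, Finite.card_option, Nat.card_fin,
      Nat.card_eq_fintype_card (α := Bool), Fintype.card_bool]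
  rw [← h1]
  refine Nat.card_le_card_of_injective
    (fun f : Fin r → Option Bool => (⟨List.ofFn (fun i => (a, f i)), by simp⟩ : Pt Λ r)) ?_
  intro f f' h
  have h2 := List.ofFn_injective (congrArg Subtype.val h)
  funext i
  exact (Prod.mk.inj (congrFun h2 i)).2

end H33.BO
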