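import Pool.Agent.H33.BO.P2b
import Pool.Agent.H33.BO.NumC
import Pool.Agent.H33.BO.PatB

/-! # BO.PartII : Part II (paper section 3): the upper bound for the functional

PROOF. `R0`, `C0` from `p2b`; for given data let `Pc := Nat.card (PtR W g Λ R r)`, `Pc ≥ 3^(r+1)` by `card_pt_ge` (`Λ`, hence `ball → Λ`, is nonempty: `lb` and a point of `Y`), `n := Pc^(2 l + 16) ≥ 2`, `N := Pc^(l + 2)`: `Nat.card (Qi W P s) = Pc ^ (ifc W s).card`, `(ifc W s).card ≤ l + 2` (2 for a, b; `insert` of an image of a subset of `Fin l` for x_i), `Pc ≥ 1`. `numC` with `B := Nat.card (Bg k W.length)`.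
The constant is `C0 * C`. -/

set_option autoImplicit false

open MeasureTheory H31.BE

namespace H33.BO

theorem partII {k : ℕ} {G : Type} [Group G] [DecidableEq G] (W : Wd k) (g : Lt k → G) (hg : Pres W g)
    {Λ A J : Type} [Finite Λ] [Finite A] [Finite J] (L : Lab (SS W g) Λ)
    (wd : J → List (H31.BE.Gn (SS W g))) :
    ∃ R0 : ℕ, ∀ R, R0 ≤ R → ∃ C0 : ℝ, 0 ≤ C0 ∧ ∀ (Y : Type) [MeasurableSpace Y] [MulAction G Y] (P : Measure Y)
      [IsProbabilityMeasure P] (_ : Inv G P) (lb : Y → Λ) (_ : Fm lb)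
      (_ : ∀ᵐ y ∂P, Adm L (W.length + 4) (fun h => lb (h • y))) (pf : Λ → A)
      (r : ℕ) (d : Y → Option Bool) (_ : Fm d) (_ : ∀ᵐ y ∂P, shrt (fun c => ga g (nn W c)) d r y),
      Fn W pd (law P (bp W g lb R d r)) ≤ ent P (fun y => pf (lb y)) +
        entc P lb (fun y => fun j : J => pf (lb (walk L (fun h => lb (h • y)) (wd j) • y))) + (k + 8) +
        C0 * (P.real {y | d y = none} + 1 / (Nat.card (PtR W g Λ R r) : ℝ)) *
          Real.log (Nat.card (PtR W g Λ R r) + 2) := by
  classical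
  obtain ⟨R0, hR0⟩ := p2b (Λ := Λ) (A := A) (J := J) W g hg L wd
  obtain ⟨C, hC, hnum⟩ := numC k W.length (Nat.card (Bg k W.length))
  refine ⟨R0, fun R hR => ?_⟩
  obtain ⟨C0, hC0, h⟩ := hR0 R hR
  refine ⟨C0 * C, mul_nonneg hC0 hC, ?_⟩
  intro Y _ _ P _ hP lb hlb hadm pf r d hd hs
  haveI : Nonempty Y := nonempty_of_isProbabilityMeasure P
  haveI : Nonempty Λ := ⟨lb (Classical.arbitrary Y)⟩
  set Pc : ℕ := Nat.card (PtR W g Λ R r) with hPc
  have hPc1 : 3 ^ (r + 1) ≤ Pc := card_pt_ge _ _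
  have hPc3 : 3 ≤ Pc := by
    refine le_trans ?_ hPc1
    calc 3 = 3 ^ 1 := by norm_num
      _ ≤ 3 ^ (r + 1) := Nat.pow_le_pow_right (by norm_num) (by omega)
  have hn : 2 ≤ Pc ^ (2 * W.length + 16) := by
    calc 2 ≤ Pc := by omega
      _ = Pc ^ 1 := (pow_one _).symm
      _ ≤ Pc ^ (2 * W.length + 16) := Nat.pow_le_pow_right (by omega) (by omega)
  have hN : ∀ s, Nat.card (Qi W (PtR W g Λ R r) s) ≤ Pc ^ (W.length + 2) := by
    intro s
    have h1 : Nat.card (Qi W (PtR W g Λ R r) s) = Pc ^ (ifc W s).card := by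
      rw [Nat.card_fun, Nat.card_eq_fintype_card (α := ↥(ifc W s)), Fintype.card_coe]
    rw [h1]
    refine Nat.pow_le_pow_right (by omega) ?_
    rcases s with _ | _ | i
    · have h2 : (ifc W (none : Lt k)).card ≤ 2 := Finset.card_le_two
      omega
    · have h2 : (ifc W (some none : Lt k)).card ≤ 2 := Finset.card_le_two
      omega
    · show (insert _ _ : Finset _).card ≤ _
      refine (Finset.card_insert_le _ _).trans ?_
      have h3 := (Finset.card_image_le (s := Finset.univ.filter fun j : Fin W.length => (W.get j).1 = i)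
        (f := fun j => if (W.get j).2 then ((Sum.inl j.succ, Sum.inl j.castSucc) : Bg k W.length × Bg k W.length)
          else (Sum.inl j.castSucc, Sum.inl j.succ)))
      have h4 : (Finset.univ.filter fun j : Fin W.length => (W.get j).1 = i).card ≤ W.length := by
        refine (Finset.card_filter_le _ _).trans ?_
        simp
      omega
  have h1 := h Y P hP lb hlb hadm pf r d hd hs (Pc ^ (2 * W.length + 16)) (Pc ^ (W.length + 2)) hn hN
  have h2 := hnum Pc r (P.real {y | d y = none}) hPc1 measureReal_nonneg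
  refine h1.trans ?_
  have h3 := mul_le_mul_of_nonneg_left h2 hC0
  have h4 : C0 * (C * (P.real {y | d y = none} + 1 / (Pc : ℝ)) * Real.log ((Pc : ℝ) + 2)) =
      C0 * C * (P.real {y | d y = none} + 1 / (Pc : ℝ)) * Real.log ((Pc : ℝ) + 2) := by ring
  rw [h4] at h3
  exact add_le_add_right h3 _

end H33.BO
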