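import Pool.Agent.H33.BO.PartI
import Pool.Agent.H33.BO.PartII
import Pool.Agent.H33.BO.DirA
import Pool.Agent.H33.BO.DirC
import Pool.Agent.H33.BO.DirN
import Pool.Agent.H31.BE.LabMain
import Pool.Agent.H31.BE.FunA

/-! # BO.OneS : one half of the theorem, with an additive constant (paper section 5)

PROOF. `G` is infinite and countable (`Grow`). `labels` with `I := Unit`, `S' := SS W g` (`gen`), `N := W.length + 4`, `ε := 1/2`, `q0`: `Λ, L, lb, q', k1, q, pf, J, wd`. `partII` gives `R0`; `R := R0`; `C0`. `dirN` with `C := C0 + CI W`, `K := Nat.card (ball (SS W g) R → Λ)`, `ε := 1/2`: `r`, `p`. `mark_ex ν p`: `ν', pr, qm`; `θ y := fun h => pr (y h)`, measure preserving `bern G ν' → bern G ν` (`pi_mp`), equivariant.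
`dir_ex` for `ν'`, `qm`: `d`. `lb' := lb ∘ θ`: `Fm`, `Adm` a.e. (`θ` is measure preserving and `lb' (h • y) = lb (h • θ y)`). `Pc := Nat.card (PtR W g Λ R r)`; `card_pt_ge`, `card_pt_le`.
`partI` for `ν'`, `β := win lb' (ball (SS W g) R)`, `d`, `r`, `q0 ∘ pr`, `fun τ => q' (τ ⟨1, _⟩)`: `ent ν' (q0 ∘ pr) = ent ν q0` (`ent_map`) `≤ Fn W pd (law (bern G ν') (bp W g lb' R d r)) + CI W + CI W * P(d = none) * log (Pc + 2)`. `partII` for `Y := Bsh G`, `P := bern G ν'` (`inv_bern`), `lb'`, `pf`: `Fn .. ≤ ent (pf ∘ lb') + entc lb' (..) + (k + 8) + C0 (..) log (Pc + 2)`.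
`ent (bern G ν') (pf ∘ lb ∘ θ) = ent (bern G ν) (pf ∘ lb) = ent μ q`, and `entc` is at most `1/2` (`ent_map` for the pair and for the second function; the function of `y` is the one of `θ y`). Sum: `ent ν q0 ≤ ent μ q + 1/2 + CI W + (k + 8) + 1/2`. -/

set_option autoImplicit false

open MeasureTheory H31.BE

namespace H33.BO

private theorem oneS_walk {G Λ : Type} [Group G] [DecidableEq G] [Finite Λ] [Nonempty Λ] {S' : Unit → Finset G}
    (L : Lab S' Λ) (ν : Measure ℝ) [IsProbabilityMeasure ν] (lb : Bsh G → Λ) (hlb : Fm lb)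
    (w : List (H31.BE.Gn S')) :
    Fm (fun y : Bsh G => lb (walk L (fun a => lb (a • y)) w • y)) := by
  classical
  obtain ⟨l0⟩ : Nonempty Λ := inferInstance
  set B : Finset G := ball S' (L.C * w.length) with hB
  let ext : (B → Λ) → G → Λ := fun x a => if h : a ∈ B then x ⟨a, h⟩ else l0
  have hwin : Fm (win lb B) := Fm.pi (fun b => Fm.comp_measurable (inv_bern (G := G) ν (b : G)).measurable hlb)
  have key : ∀ y : Bsh G, lb (walk L (fun a => lb (a • y)) w • y) =
      (fun x : B → Λ => ext x (walk L (ext x) w)) (win lb B y) := by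
    intro y
    have h1 : walk L (fun a => lb (a • y)) w = walk L (ext (win lb B y)) w := by
      refine walk_congr L _ _ w le_rfl ?_
      intro a ha
      have ha' : a ∈ B := ha
      simp only [ext, dif_pos ha']
      rfl
    have h2 : walk L (fun a => lb (a • y)) w ∈ B := walk_mem_ball L _ w le_rfl
    show _ = ext (win lb B y) (walk L (ext (win lb B y)) w)
    rw [← h1]
    simp only [ext, dif_pos h2]
    rfl
  have h3 := hwin.comp (fun x : B → Λ => ext x (walk L (ext x) w))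
  have h4 : (fun y : Bsh G => lb (walk L (fun a => lb (a • y)) w • y)) =
      fun y => (fun x : B → Λ => ext x (walk L (ext x) w)) (win lb B y) := funext key
  rw [h4]
  exact h3

theorem oneS {k : ℕ} {G : Type} [Group G] [DecidableEq G] (W : Wd k) (g : Lt k → G) (hg : Pres W g)
    (μ ν : Measure ℝ) [IsProbabilityMeasure μ] [IsProbabilityMeasure ν] (hμ : Nontriv μ) (hν : Nontriv ν)
    (T S : Bsh G → Bsh G) (h : OE G μ ν T S) (k0 : ℕ) (q0 : ℝ → Fin k0) (hq0 : Fm q0) :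
    ∃ (k1 : ℕ) (q : ℝ → Fin k1), Fm q ∧ ent ν q0 ≤ ent μ q + (CI W + k + 10) := by
  classical
  haveI : Infinite G := inf_G W g hg
  haveI : Countable G := cnt_G W g hg
  obtain ⟨Λ, hΛ, L, lb, hlb, q', k1, q, hq, pf, J, hJ, wd, hadm, hq', hent, hentc⟩ :=
    labels (SS W g) (gen W g hg) μ ν hμ hν T S h (W.length + 4) (1 / 2) (by norm_num) k0 q0 hq0
  obtain ⟨R0, hR0⟩ := partII (Λ := Λ) (A := Fin k1) (J := J) W g hg L wd
  obtain ⟨C0, hC0, hII⟩ := hR0 R0 le_rfl
  have hCI : 0 ≤ CI W := by unfold CI; positivity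
  obtain ⟨r, p, hp0, hp1, hN⟩ := dirN (C0 + CI W) (by positivity)
    (Nat.card (↥(ball (SS W g) R0) → Λ)) (1 / 2) (by norm_num)
  obtain ⟨ν', hν', pr, qm, hpr, hqm, hpm⟩ := mark_ex ν p hp0 hp1
  obtain ⟨d, hd, hs, hdn⟩ := dir_ex W g hg ν' qm hqm r
  rw [hpm] at hdn
  have hθ := pi_mp (G := G) ν' ν pr hpr
  set θ : Bsh G → Bsh G := fun y => (fun h => pr (y h)) with hθdef
  have hlb' : Fm (fun y => lb (θ y)) := Fm.comp_measurable hθ.measurable hlb
  have hadm' : ∀ᵐ y ∂(bern G ν'), Adm L (W.length + 4) (fun a => (fun y => lb (θ y)) (a • y)) :=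
    hθ.quasiMeasurePreserving.ae hadm
  have hsa : ∀ᵐ y ∂(bern G ν'), shrt (fun c => ga g (nn W c)) d r y := Filter.Eventually.of_forall hs
  have h2 := hII (Bsh G) (bern G ν') (inv_bern ν') (fun y => lb (θ y)) hlb' hadm' pf r d hd hsa
  have h1 := partI W g hg ν' (win (fun y => lb (θ y)) (ball (SS W g) R0))
    (Fm.pi (fun b => Fm.comp_measurable (inv_bern (G := G) ν' (b : G)).measurable hlb')) d hd r hsa
    (fun x => q0 (pr x)) (Fm.comp_measurable hpr.measurable hq0)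
    (fun τ => q' (τ ⟨1, one_mem_ball _⟩)) (Filter.Eventually.of_forall fun y => by
      show q' (lb (θ ((1 : G) • y))) = q0 (pr (y 1))
      rw [one_smul, hq'])
  have e0 : ent ν' (fun x => q0 (pr x)) = ent ν q0 := ent_map hpr hq0
  rw [e0] at h1
  haveI : Nonempty Λ := by
    obtain ⟨y⟩ : Nonempty (Bsh G) := ⟨fun _ => (0 : ℝ)⟩
    exact ⟨lb y⟩
  have hΨ : Fm (fun y : Bsh G => fun j : J => pf (lb (walk L (fun a => lb (a • y)) (wd j) • y))) :=
    Fm.pi (fun j => (oneS_walk L ν lb hlb (wd j)).comp pf)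
  have e1 : ent (bern G ν') (fun y => pf (lb (θ y))) = ent μ q := by
    rw [← hent]
    exact ent_map hθ (hlb.comp pf)
  have e2 : entc (bern G ν') (fun y => lb (θ y)) (fun y => fun j : J =>
      pf ((fun y => lb (θ y)) (walk L (fun a => (fun y => lb (θ y)) (a • y)) (wd j) • y))) ≤ 1 / 2 := by
    refine le_trans (le_of_eq ?_) hentc
    unfold entc
    have a1 := ent_map hθ (hlb.prodMk hΨ)
    have a2 := ent_map hθ hΨ
    exact congrArg₂ (· - ·) a1 a2
  set Pc : ℕ := Nat.card (PtR W g Λ R0 r) with hPc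
  have hPc1 : 3 ^ (r + 1) ≤ Pc := card_pt_ge _ _
  have hPc2 : Pc ≤ (3 * Nat.card (↥(ball (SS W g) R0) → Λ) + 1) ^ (r + 1) := card_pt_le _ _
  have h3 := hN Pc hPc1 hPc2
  have hlog : 0 ≤ Real.log ((Pc : ℝ) + 2) := Real.log_nonneg (by
    have : (0 : ℝ) ≤ Pc := Nat.cast_nonneg _
    linarith)
  set δ : ℝ := (bern G ν').real {y | d y = none} with hδ
  set δ' : ℝ := p + (1 - p) ^ ((r / 2 + 1) ^ 2) with hδ'
  have hPi : (0 : ℝ) ≤ 1 / Pc := by positivity
  have h4 : C0 * (δ + 1 / Pc) * Real.log (Pc + 2) + CI W * δ * Real.log (Pc + 2) ≤ 1 / 2 := by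
    refine le_trans ?_ h3
    have a1 : C0 * (δ + 1 / Pc) * Real.log (Pc + 2) ≤ C0 * (δ' + 1 / Pc) * Real.log (Pc + 2) := by
      gcongr
    have a2 : CI W * δ * Real.log (Pc + 2) ≤ CI W * (δ' + 1 / Pc) * Real.log (Pc + 2) := by
      gcongr
      linarith
    calc _ ≤ C0 * (δ' + 1 / Pc) * Real.log (Pc + 2) + CI W * (δ' + 1 / Pc) * Real.log (Pc + 2) :=
          add_le_add a1 a2
      _ = (C0 + CI W) * (δ' + 1 / Pc) * Real.log (Pc + 2) := by ring
  refine ⟨k1, q, hq, ?_⟩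
  rw [← e1]
  have h1' : ent ν q0 ≤ Fn W pd (law (bern G ν') (bp W g (fun y => lb (θ y)) R0 d r)) +
      CI W + CI W * δ * Real.log (Pc + 2) := h1
  linarith [h1', h2, e2, h4]

end H33.BO
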