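import Pool.Agent.H33.BO.PatA
import Pool.Agent.H33.BO.FmA

/-! # BO.SupA : bag patterns of a G-space: support conditions and interfaces

PROOF. `rel_one`: `rel W` is in the kernel (`hg.ker`, `Subgroup.subset_normalClosure`). `ga g (f * f') y = ga g f (ga g f' y)`. `sup_bpat`: `pd (bpat .. j) = d (ga g (bgw W j) y)` (`pdir_pat`) and `pat_tail` at `z = ga g (bgw W j) y` (the paths are short by `hs`): l1: `N_B y = ga g (wf W * bb k) y`, `bgw W c1 = wf W * bb k`, `bgw W e0 = wf (W.take 0) = 1`. l2: `bgw W el = wf (W.take W.length) = wf W`, `N_A (W y) = a W⁻¹ W y = a y`.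
l3: `N_B (a y) = W b a y = a b y` (`rel_one`), l4: `N_A (W b y) = a W⁻¹ W b y = a b y`. `src_bpat`: both sides are functions on the pairs `(i, j) ∈ ifc W s`, and `ga g (bgw W i) y = ga g (bgw W j) (ga g (of s) y)` for every such pair: for a: (c3, e0): `a y`; (c2, c1): `a b y = W b (a y)`; for b: (c1, el): `W b y`; (c2, c3): `a b y`; for x_i: (x_i, e0);
(e_(j+1), e_j) if `W[j] = (i, true)`: `wf (W.take (j+1)) = wf (W.take j) * xx i`; (e_j, e_(j+1)) if `W[j] = (i, false)`: `wf (W.take j) = wf (W.take (j+1)) * xx i`. (`List.take_succ_eq_append_getElem` or similar, `List.prod_append`.) `marg_bpat`: by `src_bpat` the first set is the preimage of the second under `y ↦ ga g (of s) y`, which preserves `P` (`hP`). -/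

set_option autoImplicit false

open MeasureTheory H31.BE

namespace H33.BO

variable {k : ℕ} {G Y Λ : Type} [Group G] [MulAction G Y]

theorem rel_one (W : Wd k) (g : Lt k → G) (hg : Pres W g) :
    FreeGroup.lift g (aa k * bb k) = FreeGroup.lift g (wf W * bb k * aa k) := by
  have h1 : rel W ∈ (FreeGroup.lift g).ker := by
    rw [hg.ker]
    exact Subgroup.subset_normalClosure rfl
  rw [MonoidHom.mem_ker, rel, map_mul, map_inv, mul_inv_eq_one] at h1
  exact h1

private theorem ga_mul (g : Lt k → G) (f f' : Fg k) (y : Y) : ga g f (ga g f' y) = ga g (f * f') y := by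
  simp only [ga, map_mul, mul_smul]

private theorem ga_eq (g : Lt k → G) {f f' : Fg k} (h : FreeGroup.lift g f = FreeGroup.lift g f') (y : Y) :
    ga g f y = ga g f' y := by
  simp only [ga, h]

private theorem bpat_tl (W : Wd k) (g : Lt k → G) (β : Y → Λ) (d : Y → Option Bool) (r : ℕ) (y : Y)
    (hs : ∀ f, shrt (fun c => ga g (nn W c)) d r (ga g f y)) (j j' : Bg k W.length) (c : Bool)
    (h : FreeGroup.lift g (nn W c * bgw W j) = FreeGroup.lift g (bgw W j'))
    (hc : pd (bpat W (ga g) β d (r + 1) y j) = some c) :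
    bpat W (ga g) β d (r + 1) y j' = ptl (bpat W (ga g) β d (r + 1) y j) := by
  apply Subtype.ext
  show pat (fun c => ga g (nn W c)) β d (r + 1) (ga g (bgw W j') y) =
    (pat (fun c => ga g (nn W c)) β d (r + 1) (ga g (bgw W j) y)).tail
  have hc' : d (ga g (bgw W j) y) = some c := by
    rw [← pdir_pat (fun c => ga g (nn W c)) β d r]
    exact hc
  have h1 := pat_tail (fun c => ga g (nn W c)) β d r (ga g (bgw W j) y) c (hs (bgw W j)) hc'
  rw [← h1, ← ga_eq g h y, ← ga_mul]

private theorem bgw_e0 (W : Wd k) : bgw W (e0 k W.length) = 1 := by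
  show wf (W.take ((0 : Fin (W.length + 1)) : ℕ)) = 1
  simp [wf]

private theorem bgw_el (W : Wd k) : bgw W (el k W.length) = wf W := by
  show wf (W.take ((Fin.last W.length : Fin (W.length + 1)) : ℕ)) = wf W
  rw [Fin.val_last, List.take_length]

theorem sup_bpat (W : Wd k) (g : Lt k → G) (hg : Pres W g) (β : Y → Λ) (d : Y → Option Bool) (r : ℕ) (y : Y)
    (hs : ∀ f, shrt (fun c => ga g (nn W c)) d r (ga g f y)) :
    Sup pd ptl (bpat W (ga g) β d (r + 1) y) where
  l1 := by
    apply bpat_tl W g β d r y hs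
    rw [bgw_e0]
    show FreeGroup.lift g (nn W true * 1) = FreeGroup.lift g (wf W * bb k)
    simp [nn]
  l2 := by
    apply bpat_tl W g β d r y hs
    rw [bgw_el]
    show FreeGroup.lift g (nn W false * wf W) = FreeGroup.lift g (aa k)
    simp [nn]
  l3 := by
    apply bpat_tl W g β d r y hs
    show FreeGroup.lift g (nn W true * aa k) = FreeGroup.lift g (aa k * bb k)
    rw [rel_one W g hg]
    simp [nn]
  l4 := by
    apply bpat_tl W g β d r y hs
    show FreeGroup.lift g (nn W false * (wf W * bb k)) = FreeGroup.lift g (aa k * bb k)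
    simp [nn, mul_assoc]

private theorem wf_succ (W : Wd k) (j : Fin W.length) :
    wf (W.take ((j : ℕ) + 1)) = wf (W.take (j : ℕ)) * sl (W.get j) := by
  rw [List.take_succ_eq_append_getElem j.2]
  simp [wf]

private theorem ifc_mul (W : Wd k) (g : Lt k → G) (hg : Pres W g) (s : Lt k) (p : Bg k W.length × Bg k W.length)
    (hp : p ∈ ifc W s) :
    FreeGroup.lift g (bgw W p.1) = FreeGroup.lift g (bgw W p.2 * FreeGroup.of s) := by
  match s with
  | none =>
    simp only [ifc, Finset.mem_insert, Finset.mem_singleton] at hp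
    rcases hp with rfl | rfl
    · rw [bgw_e0, one_mul]
      rfl
    · exact rel_one W g hg
  | some none =>
    simp only [ifc, Finset.mem_insert, Finset.mem_singleton] at hp
    rcases hp with rfl | rfl
    · rw [bgw_el]
      rfl
    · rfl
  | some (some i) =>
    simp only [ifc, Finset.mem_insert, Finset.mem_image, Finset.mem_filter, Finset.mem_univ, true_and] at hp
    rcases hp with rfl | ⟨j, hj, rfl⟩
    · rw [bgw_e0, one_mul]
      rfl
    · have h1 := wf_succ W j
      by_cases h2 : (W.get j).2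
      · rw [if_pos h2]
        show FreeGroup.lift g (wf (W.take ((j.succ : Fin (W.length + 1)) : ℕ))) =
          FreeGroup.lift g (wf (W.take ((j.castSucc : Fin (W.length + 1)) : ℕ)) * FreeGroup.of (some (some i)))
        rw [Fin.val_succ, Fin.val_castSucc, h1, sl, if_pos h2, hj]
        rfl
      · rw [if_neg h2]
        show FreeGroup.lift g (wf (W.take ((j.castSucc : Fin (W.length + 1)) : ℕ))) =
          FreeGroup.lift g (wf (W.take ((j.succ : Fin (W.length + 1)) : ℕ)) * FreeGroup.of (some (some i)))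
        rw [Fin.val_succ, Fin.val_castSucc, h1, sl, if_neg h2, hj]
        show FreeGroup.lift g (wf (W.take (j : ℕ))) =
          FreeGroup.lift g (wf (W.take (j : ℕ)) * (xx i)⁻¹ * xx i)
        rw [inv_mul_cancel_right]

theorem src_bpat (W : Wd k) (g : Lt k → G) (hg : Pres W g) (β : Y → Λ) (d : Y → Option Bool) (r : ℕ)
    (s : Lt k) (y : Y) :
    src s (bpat W (ga g) β d r y) = tgt s (bpat W (ga g) β d r (ga g (FreeGroup.of s) y)) := by
  funext p
  apply Subtype.ext
  show pat (fun c => ga g (nn W c)) β d r (ga g (bgw W p.1.1) y) =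
    pat (fun c => ga g (nn W c)) β d r (ga g (bgw W p.1.2) (ga g (FreeGroup.of s) y))
  rw [ga_mul, ga_eq g (ifc_mul W g hg s p.1 p.2) y]

theorem marg_bpat [MeasurableSpace Y] [Finite Λ] (W : Wd k) (g : Lt k → G) (hg : Pres W g) (P : Measure Y)
    [IsProbabilityMeasure P] (hP : Inv G P) (β : Y → Λ) (hβ : Fm β) (d : Y → Option Bool) (hd : Fm d) (r : ℕ)
    (s : Lt k) (q : Qi W (Pt Λ r) s) :
    P.real {y | src s (bpat W (ga g) β d r y) = q} = P.real {y | tgt s (bpat W (ga g) β d r y) = q} := by
  have h1 : {y | src s (bpat W (ga g) β d r y) = q} =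
      (fun y : Y => g s • y) ⁻¹' {y | tgt s (bpat W (ga g) β d r y) = q} := by
    ext y
    simp only [Set.mem_ofPred_eq, Set.mem_preimage]
    rw [src_bpat W g hg]
    simp only [ga, FreeGroup.lift_apply_of]
  have h2 : MeasurableSet {y | tgt s (bpat W (ga g) β d r y) = q} :=
    ((fm_bpat W g (fun h => (hP h).measurable) β hβ d hd r).comp (fun Φ => tgt s Φ)) q
  rw [h1, measureReal_def, measureReal_def, (hP (g s)).measure_preimage h2.nullMeasurableSet]

end H33.BO
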