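import Pool.Agent.H33.BO.MdlA
import Pool.Agent.H33.BO.SupA

/-! # BO.P2a : the random model of the G-space

PROOF. `mdlA` with `P := PtR W g Λ R r`, `dir := pd`, `tl := ptl`, `dp p := pdp p.1`, `D := r + 1` (`pdp_tail`, `pdp_le`), `Φ0 := bp W g lb R d r`: `Fm` by `fm_bpat` (`Fm` of `win lb _`: `Fm.pi`), `Sup` a.e.: `sup_bpat`, with `∀ᵐ y, ∀ f, shrt .. (ga g f y)` (`Fg k` is countable, `hP`), `marg_bpat`. The event `{y | Φ0 y = t}` with `law P Φ0 t > 0` has positive measure, so it contains a point `y` of the conull set of the `y` with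
`Adm L (W.length + 4) (fun h => lb (h • y))`: choose `yy ω v` to be such a point for `t = om ω v` (anything if the law is 0); `Sup` holds for `t` by `sup_bpat` at this point (take it also in the conull set of the short paths). `{y | pd (Φ0 y e0) = none} = {y | d y = none}` (`pdir_pat`, `bgw W e0 = 1`). -/

set_option autoImplicit false

open MeasureTheory H31.BE

namespace H33.BO

theorem p2a {k : ℕ} {G Y Λ : Type} [Group G] [DecidableEq G] [MeasurableSpace Y] [MulAction G Y] (W : Wd k)
    (g : Lt k → G) (hg : Pres W g) (P : Measure Y) [IsProbabilityMeasure P] (hP : Inv G P) [Finite Λ]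
    (L : Lab (SS W g) Λ) (lb : Y → Λ) (hlb : Fm lb) (hadm : ∀ᵐ y ∂P, Adm L (W.length + 4) (fun h => lb (h • y)))
    (R r : ℕ) (d : Y → Option Bool) (hd : Fm d) (hs : ∀ᵐ y ∂P, shrt (fun c => ga g (nn W c)) d r y)
    (n N : ℕ) (hn : 1 ≤ n) (hN : ∀ s, Nat.card (Qi W (PtR W g Λ R r) s) ≤ N) :
    ∃ (Ω : Type) (_ : Finite Ω) (_ : MeasurableSpace Ω) (_ : DiscreteMeasurableSpace Ω) (Q : Measure Ω)
      (_ : IsProbabilityMeasure Q) (om : Ω → Fin n → Bg k W.length → PtR W g Λ R r)
      (M X : Ω → Lt k → Equiv.Perm (Fin n))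
      (M0 : (Fin n → Bg k W.length → PtR W g Λ R r) → Lt k → Equiv.Perm (Fin n)) (yy : Ω → Fin n → Y),
      Mdl W g P L lb R r d n N Q om M X M0 yy := by
  classical
  have hmeas : ∀ h : G, Measurable (fun y : Y => h • y) := fun h => (hP h).measurable
  have hβ : Fm (win (G := G) lb (ball (SS W g) R)) := by
    refine Fm.pi (f := fun (h : ↥(ball (SS W g) R)) (y : Y) => lb ((h : G) • y)) fun h => ?_
    exact Fm.comp_measurable (hmeas h) hlb
  have hΦ : Fm (bp W g lb R d r) := fm_bpat W g hmeas _ hβ d hd (r + 1)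
  haveI : Countable (Fg k) := by
    have h : Function.Surjective (FreeGroup.mk : List (Lt k × Bool) → Fg k) := Quot.mk_surjective
    exact h.countable
  have hall : ∀ᵐ y ∂P, ∀ f : Fg k, shrt (fun c => ga g (nn W c)) d r (ga g f y) := by
    rw [ae_all_iff]
    intro f
    exact (hP (FreeGroup.lift g f)).quasiMeasurePreserving.ae hs
  have hsup : ∀ᵐ y ∂P, Sup pd ptl (bp W g lb R d r y) := by
    filter_upwards [hall] with y hy
    exact sup_bpat W g hg _ d r y hy
  have hm : ∀ s q, P.real {y | src s (bp W g lb R d r y) = q} = P.real {y | tgt s (bp W g lb R d r y) = q} :=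
    fun s q => marg_bpat W g hg P hP _ hβ d hd (r + 1) s q
  obtain ⟨Ω, i1, i2, i3, Q, i4, om, M, X, M0, h1, h2, h3, h4, h5, h6⟩ :=
    mdlA W (P := PtR W g Λ R r) pd ptl (fun p => pdp p.1) (fun p c h => pdp_tail p.1 c h) (r + 1)
      (fun p => (pdp_le p.1).trans p.2) P (bp W g lb R d r) hΦ hsup hm N hN n hn
  haveI : Nonempty Y := nonempty_of_isProbabilityMeasure P
  have hex : ∀ t, 0 < law P (bp W g lb R d r) t → ∃ y, bp W g lb R d r y = t ∧
      Adm L (W.length + 4) (fun h => lb (h • y)) ∧ Sup pd ptl (bp W g lb R d r y) := by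
    intro t ht
    have hne : P {y | bp W g lb R d r y = t} ≠ 0 := by
      intro h0
      unfold law Measure.real at ht
      have e : (bp W g lb R d r ⁻¹' {t}) = {y | bp W g lb R d r y = t} := rfl
      rw [e, h0] at ht
      simp at ht
    have hfr : ∃ᵐ y ∂P, bp W g lb R d r y = t := frequently_ae_iff.2 hne
    exact (hfr.and_eventually (hadm.and hsup)).exists
  let yy : Ω → Fin n → Y := fun ω v =>
    if h : ∃ y, bp W g lb R d r y = om ω v ∧ Adm L (W.length + 4) (fun h => lb (h • y)) ∧
      Sup pd ptl (bp W g lb R d r y) then h.choose else Classical.arbitrary Y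
  have hyy : ∀ ω v, 0 < law P (bp W g lb R d r) (om ω v) → bp W g lb R d r (yy ω v) = om ω v ∧
      Adm L (W.length + 4) (fun h => lb (h • yy ω v)) ∧ Sup pd ptl (bp W g lb R d r (yy ω v)) := by
    intro ω v h
    have h' := hex _ h
    have e : yy ω v = h'.choose := dif_pos h'
    rw [e]
    exact h'.choose_spec
  refine ⟨Ω, i1, i2, i3, Q, i4, om, M, X, M0, yy, h1, h2, ?_, ?_, ?_, h4, h5, ?_⟩
  · filter_upwards [h3] with ω hω v
    have h := hyy ω v (hω v)
    rw [← h.1]
    exact h.2.2
  · filter_upwards [h3] with ω hω v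
    exact (hyy ω v (hω v)).1.symm
  · filter_upwards [h3] with ω hω v
    exact (hyy ω v (hω v)).2.1
  · have e : {y | pd (bp W g lb R d r y (e0 k W.length)) = none} = {y | d y = none} := by
      ext y
      have e1 : pd (bp W g lb R d r y (e0 k W.length)) = d y := by
        show pdir (pat (fun c => ga g (nn W c)) (win lb (ball (SS W g) R)) d (r + 1)
          (ga g (bgw W (e0 k W.length)) y)) = d y
        rw [pdir_pat]
        have e2 : bgw W (e0 k W.length) = 1 := by
          show wf (W.take 0) = 1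
          simp [wf]
        rw [e2]
        show d (FreeGroup.lift g 1 • y) = d y
        rw [map_one, one_smul]
      show pd (bp W g lb R d r y (e0 k W.length)) = none ↔ d y = none
      rw [e1]
    rw [e] at h6
    exact h6

end H33.BO
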