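import Pool.Agent.H33.BO.BBd

/-! # BO.PthB : number of the vertices with a bad path

PROOF. `PB` is the union over `j` (`Nat.card (Bg k W.length)` values), the lists `Ls` of length at most `r` (at most `2^(r+1)`) and the finitely many `f` with `f.norm ≤ R` (`fin_norm`) of the preimages of `MM` under permutations (`mv` of permutations is a permutation). -/

set_option autoImplicit false

open MeasureTheory H31.BE

namespace H33.BO

private theorem mv_inj {V : Type} (N : Bool → V → V) (hN : ∀ c, Function.Injective (N c)) (Ls : List Bool) :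
    Function.Injective (mv N Ls) := by
  induction Ls with
  | nil => exact fun a b h => h
  | cons c Ls ih =>
    intro a b h
    exact hN c (ih h)

private theorem lists_le (r : ℕ) : ∃ S : Finset (List Bool), (∀ l : List Bool, l.length ≤ r → l ∈ S) ∧
    S.card + 1 ≤ 2 ^ (r + 1) := by
  classical
  induction r with
  | zero =>
    refine ⟨{[]}, fun l hl => ?_, by simp⟩
    rw [Finset.mem_singleton]
    exact List.length_eq_zero_iff.1 (Nat.le_zero.1 hl)
  | succ r ih =>
    obtain ⟨S, h1, h2⟩ := ih
    refine ⟨insert [] (S.image (List.cons true) ∪ S.image (List.cons false)), fun l hl => ?_, ?_⟩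
    · cases l with
      | nil => exact Finset.mem_insert_self _ _
      | cons c l =>
        have h3 : l ∈ S := h1 l (by simpa using hl)
        apply Finset.mem_insert_of_mem
        rw [Finset.mem_union]
        cases c with
        | true => exact Or.inl (Finset.mem_image_of_mem _ h3)
        | false => exact Or.inr (Finset.mem_image_of_mem _ h3)
    · have h3 := Finset.card_insert_le ([] : List Bool) (S.image (List.cons true) ∪ S.image (List.cons false))
      have h4 := Finset.card_union_le (S.image (List.cons true)) (S.image (List.cons false))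
      have h5 : (S.image (List.cons true)).card ≤ S.card := Finset.card_image_le
      have h6 : (S.image (List.cons false)).card ≤ S.card := Finset.card_image_le
      have h7 : 2 ^ (r + 1 + 1) = 2 * 2 ^ (r + 1) := pow_succ' 2 (r + 1)
      omega

theorem pb_bd {k : ℕ} (W : Wd k) (R : ℕ) :
    ∃ C : ℕ, ∀ (V P : Type) [Finite V] (dir : P → Option Bool) (tl : P → P) (om : V → Bg k W.length → P)
      (X : Lt k → Equiv.Perm V) (r : ℕ),
      (PB W dir tl om X r R).ncard ≤ C * 2 ^ (r + 1) * (MM W dir tl om X).ncard := by
  classical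
  refine ⟨Fintype.card (Bg k W.length) * (fin_norm (k := k) R).toFinset.card, ?_⟩
  intro V P _ dir tl om X r
  obtain ⟨S, hS1, hS2⟩ := lists_le r
  set F := (fin_norm (k := k) R).toFinset with hF
  set φ : Bg k W.length × (List Bool × Fg k) → V → V := fun x v =>
    ac (XX W X) x.2.2 (mv (fun c => ac X (nn W c)) x.2.1 (ac X (bgw W x.1) v)) with hφ
  have hinj : ∀ x, Function.Injective (φ x) := by
    intro x
    exact (ac (XX W X) x.2.2).injective.comp
      ((mv_inj (fun c => ac X (nn W c)) (fun c => (ac X (nn W c)).injective) x.2.1).comp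
        (ac X (bgw W x.1)).injective)
  set T : Finset (Bg k W.length × (List Bool × Fg k)) := Finset.univ ×ˢ (S ×ˢ F) with hT
  have hsub : PB W dir tl om X r R ⊆ ⋃ x ∈ T, (φ x) ⁻¹' (MM W dir tl om X) := by
    rintro v ⟨j, Ls, f, h1, h2, h3⟩
    rw [Set.mem_iUnion₂]
    refine ⟨(j, (Ls, f)), ?_, h3⟩
    rw [hT, Finset.mem_product, Finset.mem_product]
    exact ⟨Finset.mem_univ _, hS1 Ls h1, by rw [hF, Set.Finite.mem_toFinset]; exact h2⟩
  have h1 : ∀ x ∈ T, ((φ x) ⁻¹' (MM W dir tl om X)).ncard ≤ (MM W dir tl om X).ncard := by
    intro x _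
    exact Set.ncard_le_ncard_of_injOn (φ x) (fun v hv => hv) (hinj x).injOn (Set.toFinite _)
  have h2 : (PB W dir tl om X r R).ncard ≤ T.card * (MM W dir tl om X).ncard := by
    refine (Set.ncard_le_ncard hsub (Set.toFinite _)).trans
      ((Finset.set_ncard_biUnion_le T _).trans ((Finset.sum_le_sum h1).trans ?_))
    simp
  have h3 : T.card ≤ Fintype.card (Bg k W.length) * F.card * 2 ^ (r + 1) := by
    rw [hT, Finset.card_product, Finset.card_product, Finset.card_univ]
    have h4 : S.card ≤ 2 ^ (r + 1) := by omega
    calc Fintype.card (Bg k W.length) * (S.card * F.card)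
        ≤ Fintype.card (Bg k W.length) * (2 ^ (r + 1) * F.card) :=
          Nat.mul_le_mul_left _ (Nat.mul_le_mul_right _ h4)
      _ = Fintype.card (Bg k W.length) * F.card * 2 ^ (r + 1) := by ring
  exact h2.trans (Nat.mul_le_mul_right _ h3)

end H33.BO
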