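import Pool.Agent.H33.BO.DecA
import Pool.Agent.H33.BO.BBd
import Pool.Agent.H33.BO.PthB
import Pool.Agent.H33.BO.BagT
import Pool.Agent.H33.BO.SupA

/-! # BO.P2c : expected numbers of the bad vertices in the model

PROOF. For almost every `ω` (`sup`) `mm_bd` applies: `MM ≤ (l + 3)^2 Mis`; `bb_bd` for `m`: `BB ≤ C1 (MM + defs)`; `pb_bd` for `R` and `r + 1`: `PB ≤ C2 2^(r+2) MM`. Integrate with `eN`, `eO` (finite space, `Integrable.of_finite`, `integral_mono_ae`); `Er ≥ 0`. -/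

set_option autoImplicit false

open MeasureTheory H31.BE

namespace H33.BO

theorem p2c {k : ℕ} {G : Type} [Group G] [DecidableEq G] (W : Wd k) (g : Lt k → G) (hg : Pres W g) (R m : ℕ) :
    ∃ C : ℕ, ∀ (Y Λ : Type) [MeasurableSpace Y] [MulAction G Y] [Finite Λ] (P : Measure Y) (L : Lab (SS W g) Λ)
      (lb : Y → Λ) (r : ℕ) (d : Y → Option Bool) (n N : ℕ) (Ω : Type) [Finite Ω] [MeasurableSpace Ω]
      [DiscreteMeasurableSpace Ω] (Q : Measure Ω) [IsProbabilityMeasure Q]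
      (om : Ω → Fin n → Bg k W.length → PtR W g Λ R r)
      (M X : Ω → Lt k → Equiv.Perm (Fin n)) (M0 : (Fin n → Bg k W.length → PtR W g Λ R r) → Lt k → Equiv.Perm (Fin n))
      (yy : Ω → Fin n → Y) (_ : Mdl W g P L lb R r d n N Q om M X M0 yy),
      (∫ ω, ((BB W g pd ptl (om ω) (X ω) m).ncard : ℝ) ∂Q ≤
        C * (n * P.real {y | d y = none} + Er k W.length (r + 1) N n)) ∧
      (∫ ω, ((PB W pd ptl (om ω) (X ω) (r + 1) R).ncard : ℝ) ∂Q ≤
        C * 2 ^ r * Er k W.length (r + 1) N n) := by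
  obtain ⟨C1, h1⟩ := bb_bd W g hg m
  obtain ⟨C2, h2⟩ := pb_bd W R
  set c0 : ℕ := (W.length + 3) ^ 2 with hc0
  refine ⟨C1 * (c0 + 1) + 4 * C2 * c0, ?_⟩
  intro Y Λ _ _ _ P L lb r d n N Ω _ _ _ Q _ om M X M0 yy hM
  have hEr : 0 ≤ Er k W.length (r + 1) N n := by
    unfold Er; positivity
  have hnP : 0 ≤ (n : ℝ) * P.real {y | d y = none} := by positivity
  have hint : ∀ f : Ω → ℝ, Integrable f Q := fun f => Integrable.of_finite
  have hmm : ∀ᵐ ω ∂Q, (MM W pd ptl (om ω) (X ω)).ncard ≤ c0 * (Mis W (om ω) (X ω)).ncard := by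
    filter_upwards [hM.sup] with ω hω
    exact mm_bd W pd ptl (om ω) hω (X ω)
  constructor
  · have ha : ∀ᵐ ω ∂Q, ((BB W g pd ptl (om ω) (X ω) m).ncard : ℝ) ≤
        (C1 : ℝ) * c0 * ((Mis W (om ω) (X ω)).ncard : ℝ) + C1 * ((defs W (X ω)).ncard : ℝ) := by
      filter_upwards [hmm] with ω hω
      have h3 := h1 (Fin n) (PtR W g Λ R r) pd ptl (om ω) (X ω)
      have h4 : (BB W g pd ptl (om ω) (X ω) m).ncard ≤
          C1 * (c0 * (Mis W (om ω) (X ω)).ncard + (defs W (X ω)).ncard) :=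
        le_trans h3 (Nat.mul_le_mul_left _ (Nat.add_le_add_right hω _))
      have h5 : ((BB W g pd ptl (om ω) (X ω) m).ncard : ℝ) ≤
          ((C1 * (c0 * (Mis W (om ω) (X ω)).ncard + (defs W (X ω)).ncard) : ℕ) : ℝ) := by exact_mod_cast h4
      refine le_trans h5 (le_of_eq ?_)
      push_cast
      ring
    have hb := integral_mono_ae (hint _) (hint _) ha
    rw [integral_add (hint _) (hint _), integral_const_mul, integral_const_mul] at hb
    have hN := hM.eN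
    have hO := hM.eO
    have e1 : (C1 : ℝ) * c0 * ∫ ω, ((Mis W (om ω) (X ω)).ncard : ℝ) ∂Q ≤
        (C1 : ℝ) * c0 * Er k W.length (r + 1) N n := mul_le_mul_of_nonneg_left hN (by positivity)
    have e2 : (C1 : ℝ) * ∫ ω, ((defs W (X ω)).ncard : ℝ) ∂Q ≤
        (C1 : ℝ) * (n * P.real {y | d y = none} + Er k W.length (r + 1) N n) :=
      mul_le_mul_of_nonneg_left hO (by positivity)
    refine le_trans hb (le_trans (add_le_add e1 e2) ?_)
    set E := Er k W.length (r + 1) N n with hE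
    set Z := (n : ℝ) * P.real {y | d y = none} with hZ
    push_cast
    have q1 : 0 ≤ (C1 : ℝ) * c0 * Z := by positivity
    have q2 : 0 ≤ 4 * (C2 : ℝ) * c0 * (Z + E) := by positivity
    nlinarith
  · have ha : ∀ᵐ ω ∂Q, ((PB W pd ptl (om ω) (X ω) (r + 1) R).ncard : ℝ) ≤
        4 * (C2 : ℝ) * c0 * 2 ^ r * ((Mis W (om ω) (X ω)).ncard : ℝ) := by
      filter_upwards [hmm] with ω hω
      have h3 := h2 (Fin n) (PtR W g Λ R r) pd ptl (om ω) (X ω) (r + 1)
      have h4 : (PB W pd ptl (om ω) (X ω) (r + 1) R).ncard ≤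
          C2 * 2 ^ (r + 1 + 1) * (c0 * (Mis W (om ω) (X ω)).ncard) :=
        le_trans h3 (Nat.mul_le_mul_left _ hω)
      have h5 : ((PB W pd ptl (om ω) (X ω) (r + 1) R).ncard : ℝ) ≤
          ((C2 * 2 ^ (r + 1 + 1) * (c0 * (Mis W (om ω) (X ω)).ncard) : ℕ) : ℝ) := by exact_mod_cast h4
      refine le_trans h5 (le_of_eq ?_)
      push_cast
      ring
    have hb := integral_mono_ae (hint _) (hint _) ha
    rw [integral_const_mul] at hb
    have hN := hM.eN
    refine le_trans hb (le_trans (mul_le_mul_of_nonneg_left hN (by positivity)) ?_)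
    have q : 4 * (C2 : ℝ) * c0 ≤ ((C1 * (c0 + 1) + 4 * C2 * c0 : ℕ) : ℝ) := by
      push_cast
      have : 0 ≤ (C1 : ℝ) * (c0 + 1) := by positivity
      linarith
    have q2 : 4 * (C2 : ℝ) * c0 * 2 ^ r ≤ ((C1 * (c0 + 1) + 4 * C2 * c0 : ℕ) : ℝ) * 2 ^ r :=
      mul_le_mul_of_nonneg_right q (by positivity)
    exact mul_le_mul_of_nonneg_right q2 hEr
end H33.BO
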