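import Pool.Agent.H33.BO.DecA
import Pool.Agent.H33.BO.ChB
import Pool.Agent.H33.BO.FmA

/-! # BO.P2l : the labels given the decoded maps

NOTATION: `σ ω := sg W g L rp (fun v => lb (yy ω v)) (X ω)`, `l ω v := lb (yy ω v)`. There is a function `lbl` of patterns with `lb y = lbl (bp W g lb R d r y)`: the value at `1 ∈ ball` of the label function in the head of the pattern at `e_0` (`Λ` is nonempty), so `l ω v = lbl (om ω v)` a.e. (`hM.hom`). There is a function `ψ` of patterns with `ψ (bp y) = fun j => pf (lb (walk L (fun h => lb (h • y)) (wd j) • y))`: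
`ψ Φ j := pf (τ (walk L τ (wd j)))`, `τ : G → Λ` = the label function in the head of `Φ e_0` extended by a default value outside of the ball (`walk_congr`, `walk_mem_ball`: the walk and its positions lie in the ball of radius `L.C * (wd j).length ≤ R`).
PROOF. `chB` with `B := J → A`, `Ψ ω v j := pf (lb (walk L (fun h => lb (h • yy ω v)) (wd j) • yy ω v))`, `Yf p σ v j := p (evf σ (cv (wd j)) v)`, `bb ω := (BB ..).ncard`: for `v ∉ BB` `dec_psi` gives equality. `∑ v, ent Q (pf (l v)) = n ent P (pf ∘ lb)` and `∑ v, entc Q (l v) (Ψ v) = n entc P lb (..)` by `ent_law`, `entc_law` (for `om · v` and `bp W g lb R d r`, `hM.law0`; `fm_bpat`; `ent_congr_ae`, `entc_congr_ae`). -/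

set_option autoImplicit false

open MeasureTheory H31.BE

namespace H33.BO

section priv

variable {k : ℕ} {G Y Λ : Type} [Group G] [DecidableEq G] [MulAction G Y]

/-- the label function in the head of a list pattern, extended by a default value -/
private def p2lHd {B : Finset G} (l0 : Λ) : List ((↥B → Λ) × Option Bool) → G → Λ
  | [], _ => l0
  | (u, _) :: _, h => if hh : h ∈ B then u ⟨h, hh⟩ else l0

private theorem p2l_hd (W : Wd k) (g : Lt k → G) (lb : Y → Λ) (R : ℕ) (d : Y → Option Bool) (r : ℕ) (l0 : Λ)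
    (y : Y) (h : G) (hh : h ∈ ball (SS W g) R) :
    p2lHd l0 (bp W g lb R d r y (e0 k W.length)).1 h = lb (h • y) := by
  have h1 : ga g (bgw W (e0 k W.length)) y = y := by
    show FreeGroup.lift g (wf (W.take ((0 : Fin (W.length + 1)) : ℕ))) • y = y
    simp [wf]
  have h2 : (bp W g lb R d r y (e0 k W.length)).1 =
      pat (fun c => ga g (nn W c)) (win lb (ball (SS W g) R)) d (r + 1) (ga g (bgw W (e0 k W.length)) y) := rfl
  rw [h2, h1, pat]
  simp [p2lHd, hh, win]

end priv

variable {k : ℕ} {G : Type} [Group G] [DecidableEq G] (W : Wd k) (g : Lt k → G) (hg : Pres W g)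
    {Y Λ : Type} [MeasurableSpace Y] [MulAction G Y] [Finite Λ] (P : Measure Y) [IsProbabilityMeasure P]
    (L : Lab (SS W g) Λ) (lb : Y → Λ) (hlb : Fm lb)
    (R r m : ℕ) (hmR : m ≤ R) (hLR : L.C ≤ R) (d : Y → Option Bool) (hd : Fm d) (n N : ℕ) (hn : 2 ≤ n)
    {Ω : Type} [Finite Ω] [MeasurableSpace Ω] [DiscreteMeasurableSpace Ω] (Q : Measure Ω) [IsProbabilityMeasure Q]
    (om : Ω → Fin n → Bg k W.length → PtR W g Λ R r) (M X : Ω → Lt k → Equiv.Perm (Fin n))
    (M0 : (Fin n → Bg k W.length → PtR W g Λ R r) → Lt k → Equiv.Perm (Fin n)) (yy : Ω → Fin n → Y)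
    (hM : Mdl W g P L lb R r d n N Q om M X M0 yy) (rp : G → Fg k)
    (hrp : ∀ m h, h ∈ ball (SS W g) m → (rp h).norm ≤ m ∧ FreeGroup.lift (gg W g) (rp h) = h)
    (cv : List (H31.BE.Gn (SS W g)) → List (Lt k × Bool)) (hcv : ∀ w, (cv w).map (ll W g) = w)

include hg hlb hmR hLR hd hn hM hrp hcv

theorem p2l {A J : Type} [Finite A] [Finite J] [Nonempty A] (hP : Inv G P) (pf : Λ → A)
    (wd : J → List (H31.BE.Gn (SS W g))) (hw : ∀ j, L.C * (wd j).length ≤ m) :
    entc Q (fun ω => fun v => lb (yy ω v)) (fun ω => sg W g L rp (fun v => lb (yy ω v)) (X ω)) ≤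
      n * ent P (fun y => pf (lb y)) +
      n * entc P lb (fun y => fun j : J => pf (lb (walk L (fun h => lb (h • y)) (wd j) • y))) +
      Real.log (n + 1) + (∫ ω, ((BB W g pd ptl (om ω) (X ω) m).ncard : ℝ) ∂Q) * Real.log (n * Nat.card (J → A)) := by
  classical
  have _ := hg
  obtain ⟨y0⟩ := nonempty_of_isProbabilityMeasure P
  set l0 : Λ := lb y0 with hl0
  -- the label function and the labels of a pattern
  set τ : (Bg k W.length → PtR W g Λ R r) → G → Λ := fun Φ => p2lHd l0 (Φ (e0 k W.length)).1 with hτ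
  have hτ1 : ∀ (y : Y) (h : G), h ∈ ball (SS W g) R → τ (bp W g lb R d r y) h = lb (h • y) :=
    fun y h hh => p2l_hd W g lb R d r l0 y h hh
  set lbl : (Bg k W.length → PtR W g Λ R r) → Λ := fun Φ => τ Φ 1 with hlbl
  have hlb1 : ∀ y : Y, lbl (bp W g lb R d r y) = lb y := by
    intro y
    rw [hlbl]
    simp only
    rw [hτ1 y 1 (one_mem_ball R), one_smul]
  set ψ : (Bg k W.length → PtR W g Λ R r) → (J → A) := fun Φ j => pf (τ Φ (walk L (τ Φ) (wd j))) with hψ
  have hψ1 : ∀ y : Y, ψ (bp W g lb R d r y) =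
      fun j : J => pf (lb (walk L (fun h => lb (h • y)) (wd j) • y)) := by
    intro y
    funext j
    have hb : ∀ h ∈ ball (SS W g) (L.C * (wd j).length), h ∈ ball (SS W g) R :=
      fun h hh => ball_mono ((hw j).trans hmR) hh
    have h1 : walk L (τ (bp W g lb R d r y)) (wd j) = walk L (fun h => lb (h • y)) (wd j) :=
      walk_congr L _ _ (wd j) le_rfl (fun h hh => hτ1 y h (hb h hh))
    rw [hψ]
    simp only
    rw [h1, hτ1 y _ (hb _ (walk_mem_ball L _ (wd j) le_rfl))]
  -- measurability
  have hfo : ∀ v : Fin n, Fm (fun ω => om ω v) := fun v a => MeasurableSet.of_discrete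
  have hG : ∀ h : G, Measurable (fun y : Y => h • y) := fun h => (hP h).measurable
  have hwin : Fm (win lb (ball (SS W g) R)) := by
    apply Fm.pi (f := fun (h : ↥(ball (SS W g) R)) (y : Y) => lb ((h : G) • y))
    intro h
    exact Fm.comp_measurable (hG h) hlb
  have hbp : Fm (bp W g lb R d r) := fm_bpat W g hG (win lb (ball (SS W g) R)) hwin d hd (r + 1)
  -- the labels are determined by the patterns
  have hae : ∀ᵐ ω ∂Q, ∀ v, lb (yy ω v) = lbl (om ω v) := by
    filter_upwards [hM.hom] with ω h v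
    rw [h v, hlb1]
  have hae2 : ∀ᵐ ω ∂Q, ∀ v, (fun j : J => pf (lb (walk L (fun h => lb (h • yy ω v)) (wd j) • yy ω v))) =
      ψ (om ω v) := by
    filter_upwards [hM.hom] with ω h v
    rw [h v, hψ1]
  have key := chB (A := A) (B := J → A) Q n (by omega) (fun ω v => lb (yy ω v))
    (fun ω => sg W g L rp (fun v => lb (yy ω v)) (X ω)) pf
    (fun ω v => fun j : J => pf (lb (walk L (fun h => lb (h • yy ω v)) (wd j) • yy ω v)))
    (fun p σ v j => p (evf σ (cv (wd j)) v))
    (fun ω => (BB W g pd ptl (om ω) (X ω) m).ncard)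
    (fun ω => by
      have := Set.ncard_le_card (BB W g pd ptl (om ω) (X ω) m)
      simpa using this)
    (by
      filter_upwards [hM.hom] with ω h
      apply Set.ncard_le_ncard _ (Set.toFinite _)
      intro v hv
      by_contra hv'
      apply hv
      funext j
      have := dec_psi W g L lb R d r (om ω) (yy ω) h (X ω) rp (fun m h hh _ => hrp m h hh) cv hcv v m hmR hLR hv'
        (wd j) (hw j)
      exact congrArg pf this)
  have e1 : ∀ v : Fin n, ent Q (fun ω => pf (lb (yy ω v))) = ent P (fun y => pf (lb y)) := by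
    intro v
    have h1 : ent Q (fun ω => pf (lb (yy ω v))) = ent Q (fun ω => pf (lbl (om ω v))) := by
      apply ent_congr_ae
      filter_upwards [hae] with ω h
      rw [h v]
    rw [h1, ent_law Q P (fun ω => om ω v) (bp W g lb R d r) (hfo v) hbp (hM.law0 v) (fun Φ => pf (lbl Φ))]
    congr 1
    funext y
    rw [hlb1]
  have e2 : ∀ v : Fin n, entc Q (fun ω => lb (yy ω v))
      (fun ω => fun j : J => pf (lb (walk L (fun h => lb (h • yy ω v)) (wd j) • yy ω v))) =
      entc P lb (fun y => fun j : J => pf (lb (walk L (fun h => lb (h • y)) (wd j) • y))) := by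
    intro v
    have h1 : entc Q (fun ω => lb (yy ω v))
        (fun ω => fun j : J => pf (lb (walk L (fun h => lb (h • yy ω v)) (wd j) • yy ω v))) =
        entc Q (fun ω => lbl (om ω v)) (fun ω => ψ (om ω v)) := by
      apply entc_congr_ae
      · filter_upwards [hae] with ω h
        rw [h v]
      · filter_upwards [hae2] with ω h
        rw [h v]
    rw [h1, entc_law Q P (fun ω => om ω v) (bp W g lb R d r) (hfo v) hbp (hM.law0 v) lbl ψ]
    congr 1
    · funext y
      rw [hlb1]
    · funext y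
      rw [hψ1]
  have s1 : ∑ v : Fin n, ent Q (fun ω => pf (lb (yy ω v))) = n * ent P (fun y => pf (lb y)) := by
    rw [Finset.sum_congr rfl (fun v _ => e1 v)]
    simp
  have s2 : ∑ v : Fin n, entc Q (fun ω => lb (yy ω v))
      (fun ω => fun j : J => pf (lb (walk L (fun h => lb (h • yy ω v)) (wd j) • yy ω v))) =
      n * entc P lb (fun y => fun j : J => pf (lb (walk L (fun h => lb (h • y)) (wd j) • y))) := by
    rw [Finset.sum_congr rfl (fun v _ => e2 v)]
    simp
  rw [s1, s2] at key
  exact key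

end H33.BO
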