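import Pool.Agent.H33.BO.Cons

/-! # BO.PthA : decoding of the patterns along the paths

NOTATION: `l v = lb (y v)`, `β v' h := l (ac (XX W X) (rp h) v')` (`h ∈ ball R`), `d' v' := pd (om v' e_0)`.
PROOF. Claim: for all `t ≤ r + 1` and all `v'` such that `ac f (mv N Ls v') ∉ MM` for all `Ls.length ≤ t`, `f.norm ≤ R` (`N c = ac X (nn W c)`): `pat N β d' t v' = (om v' e_0).1.take t`. Induction on `t`: `t + 1`: `(om v' e_0).1 = pat _ _ d (r + 1) (y v') = (win lb _ (y v'), d (y v')) :: tail` (`bgw W e_0 = 1`). `β v' = win lb _ (y v')`: for `h ∈ ball R`: `lb (h • y v') = lb (y (ac (rp h) v'))` by `cons`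
(`Ls = []`). `d' v' = d (y v')`. If it is `none`: the tail is `[]` and both sides are `[(β v', none)]`. If it is `some c`: `v' ∉ MM` gives `om (N c v') e_0 = ptl (om v' e_0)`, so the tail is `(om (N c v') e_0).1`, and the induction hypothesis for `N c v'` (`mv N (c :: Ls) v' = mv N Ls (N c v')`) gives the claim. For `v ∉ PB` and `j`: `v ∉ MM` (`j = e_0`, `Ls = []`, `f = 1`), so `om (ac X (bgw W j) v) e_0 = om v j`;
the claim for `t = r + 1`, `v' = ac X (bgw W j) v`, and `take (r + 1)` is the whole list (length at most `r + 1`). -/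

set_option autoImplicit false

open MeasureTheory H31.BE

namespace H33.BO

private theorem PthA_bgw0 {k : ℕ} (W : Wd k) : bgw W (e0 k W.length) = 1 := by
  show wf (W.take ((0 : Fin (W.length + 1)) : ℕ)) = 1
  simp [wf]

private theorem PthA_claim {k : ℕ} {G Y Λ V : Type} [Group G] [DecidableEq G] [MulAction G Y] (W : Wd k)
    (g : Lt k → G) (lb : Y → Λ) (R : ℕ) (d : Y → Option Bool) (r : ℕ) (om : V → Bg k W.length → PtR W g Λ R r)
    (y : V → Y) (hom : ∀ v, om v = bp W g lb R d r (y v)) (X : Lt k → Equiv.Perm V) (rp : G → Fg k)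
    (hrp : ∀ h, h ∈ ball (SS W g) R → (rp h).norm ≤ R ∧ FreeGroup.lift (gg W g) (rp h) = h)
    (t : ℕ) (ht : t ≤ r + 1) : ∀ v' : V,
    (∀ (Ls : List Bool) (f : Fg k), Ls.length ≤ t → f.norm ≤ R →
      ac (XX W X) f (mv (fun c => ac X (nn W c)) Ls v') ∉ MM W pd ptl om X) →
    pat (fun c => ac X (nn W c))
      (fun v' => fun h : ↥(ball (SS W g) R) => lb (y (ac (XX W X) (rp h) v')))
      (fun v' => pd (om v' (e0 k W.length))) t v' = (om v' (e0 k W.length)).1.take t := by
  induction t with
  | zero => intro v' _; simp [pat]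
  | succ t ih =>
    intro v' hv'
    have h0 : (om v' (e0 k W.length)).1 =
        (win lb (ball (SS W g) R) (y v'), d (y v')) :: (match d (y v') with
          | none => []
          | some c => pat (fun c => ga g (nn W c)) (win lb (ball (SS W g) R)) d r (ga g (nn W c) (y v'))) := by
      rw [hom v']
      show pat (fun c => ga g (nn W c)) (win lb (ball (SS W g) R)) d (r + 1)
        (ga g (bgw W (e0 k W.length)) (y v')) = _
      rw [PthA_bgw0]
      have : ga g (1 : Fg k) (y v') = y v' := by simp [ga]
      rw [this, pat]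
      congr 1
    have hd : pd (om v' (e0 k W.length)) = d (y v') := by
      unfold pd
      rw [h0]
      rfl
    have hb : (fun h : ↥(ball (SS W g) R) => lb (y (ac (XX W X) (rp h) v'))) =
        win lb (ball (SS W g) R) (y v') := by
      funext h
      have h1 := hrp h h.2
      have h2 := cons W g lb R d r om y hom X v' (rp h) h1.1 (fun f' hf' => by
        have := hv' [] f' (Nat.zero_le _) (le_trans hf' h1.1)
        simpa [mv] using this)
      rw [h1.2] at h2
      exact h2.symm
    rw [pat, h0, List.take_succ_cons, hb, hd]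
    congr 1
    cases hdc : d (y v') with
    | none => simp
    | some c =>
      simp only
      have h3 : v' ∉ MM W pd ptl om X := by
        have := hv' [] 1 (Nat.zero_le _) (by simp)
        simpa [mv] using this
      have h4 : om (ac X (nn W c) v') (e0 k W.length) = ptl (om v' (e0 k W.length)) := by
        by_contra hcon
        exact h3 (Or.inr ⟨c, by rw [hd, hdc], hcon⟩)
      have h5 : (om (ac X (nn W c) v') (e0 k W.length)).1 =
          pat (fun c => ga g (nn W c)) (win lb (ball (SS W g) R)) d r (ga g (nn W c) (y v')) := by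
        rw [h4]
        show (om v' (e0 k W.length)).1.tail = _
        rw [h0, hdc]
        rfl
      rw [← h5]
      apply ih (by omega)
      intro Ls f hLs hf
      exact hv' (c :: Ls) f (by simp; omega) hf

theorem pth {k : ℕ} {G Y Λ V : Type} [Group G] [DecidableEq G] [MulAction G Y] (W : Wd k) (g : Lt k → G)
    (lb : Y → Λ) (R : ℕ) (d : Y → Option Bool) (r : ℕ) (om : V → Bg k W.length → PtR W g Λ R r) (y : V → Y)
    (hom : ∀ v, om v = bp W g lb R d r (y v)) (X : Lt k → Equiv.Perm V) (rp : G → Fg k)
    (hrp : ∀ h, h ∈ ball (SS W g) R → (rp h).norm ≤ R ∧ FreeGroup.lift (gg W g) (rp h) = h)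
    (v : V) (hv : v ∉ PB W pd ptl om X (r + 1) R) (j : Bg k W.length) :
    (om v j).1 = pat (fun c => ac X (nn W c))
      (fun v' => fun h : ↥(ball (SS W g) R) => lb (y (ac (XX W X) (rp h) v')))
      (fun v' => pd (om v' (e0 k W.length))) (r + 1) (ac X (bgw W j) v) := by
  have hcl := PthA_claim W g lb R d r om y hom X rp hrp (r + 1) le_rfl (ac X (bgw W j) v)
    (fun Ls f hLs hf hmem => hv ⟨j, Ls, f, hLs, hf, hmem⟩)
  have h1 : v ∉ MM W pd ptl om X := by
    intro hmem
    apply hv
    refine ⟨e0 k W.length, [], 1, Nat.zero_le _, by simp, ?_⟩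
    rw [PthA_bgw0]
    simpa [mv] using hmem
  have h2 : om (ac X (bgw W j) v) (e0 k W.length) = om v j := by
    by_contra hcon
    exact h1 (Or.inl ⟨j, hcon⟩)
  rw [hcl, h2]
  exact (List.take_of_length_le (om v j).2).symm

end H33.BO
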