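import Pool.Agent.H33.BO.DecA
import Pool.Agent.H33.BO.PthA
import Pool.Agent.H33.BO.ChA
import Pool.Agent.H31.BE.EntE

/-! # BO.P2x : the decoded maps, the permutations, the patterns, the matchings

PROOF. `p2s`: `chA` gives `C`; for almost every `ω` `(ug W (σ ω))ᶜ ⊆ BB` by `dec_ug` (`hM.hom`, `hM.adm`). `p2x`: `entc X (σ, l) ≤ entc (fun ω v s => XX W (X ω) s v) (σ, l)`: `X` is a function of the array (`XX_inj`; a permutation is determined by its values); `entc_array` with `Y (σ, l) v s := evf σ (cv (L.bw (ll W g (s, true)) (l v))) v` and `dec_X`; the type of the values is `Lt k → Fin n`, `n^(k+2)` elements.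
`p2o`: `entc_array` with `Y (l, dd, X) v j := ⟨pat (fun c => ac X (nn W c)) (fun v' h => l (ac (XX W X) (rp h) v')) dd (r + 1) (ac X (bgw W j) v), pat_length ..⟩` and `pth`. `p2m`: `entc M (om, X) ≤ ∑ s, entc (M s) (om, X)` (`entc_pi_le`), every term by `entc_array` for the array `v ↦ M ω s v` (`M s` is a function of the array), `Y (om, X) v := if TT .. then M0 om s v else X s v`, and `hM.eM s`; `#(Lt k) = k + 2`.
In all cases `bb ω` is the cardinality of the exceptional set (at most `n`). -/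

set_option autoImplicit false

open MeasureTheory H31.BE

namespace H33.BO

variable {k : ℕ} {G : Type} [Group G] [DecidableEq G] (W : Wd k) (g : Lt k → G) (hg : Pres W g)
    {Y Λ : Type} [MeasurableSpace Y] [MulAction G Y] [Finite Λ] (P : Measure Y) [IsProbabilityMeasure P]
    (L : Lab (SS W g) Λ) (lb : Y → Λ) (hlb : Fm lb)
    (R r m : ℕ) (hmR : m ≤ R) (hLR : L.C ≤ R) (d : Y → Option Bool) (hd : Fm d) (n N : ℕ) (hn : 2 ≤ n)
    {Ω : Type} [Finite Ω] [MeasurableSpace Ω] [DiscreteMeasurableSpace Ω] (Q : Measure Ω) [IsProbabilityMeasure Q]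
    (om : Ω → Fin n → Bg k W.length → PtR W g Λ R r) (M X : Ω → Lt k → Equiv.Perm (Fin n))
    (M0 : (Fin n → Bg k W.length → PtR W g Λ R r) → Lt k → Equiv.Perm (Fin n)) (yy : Ω → Fin n → Y)
    (hM : Mdl W g P L lb R r d n N Q om M X M0 yy) (rp : G → Fg k)
    (hrp : ∀ m h, h ∈ ball (SS W g) m → (rp h).norm ≤ m ∧ FreeGroup.lift (gg W g) (rp h) = h)
    (cv : List (H31.BE.Gn (SS W g)) → List (Lt k × Bool)) (hcv : ∀ w, (cv w).map (ll W g) = w)

private lemma p2x_fm {Ω' α : Type} [MeasurableSpace Ω'] [DiscreteMeasurableSpace Ω'] (f : Ω' → α) : Fm f :=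
  fun _ => MeasurableSet.of_discrete

private lemma p2x_cardL (k : ℕ) : Nat.card (Lt k) = k + 2 := by
  rw [Nat.card_eq_fintype_card]
  simp

section
include hg hmR hLR hn hM hrp

theorem p2s (hm2 : 2 * (L.C * (W.length + 4)) ≤ m) (C : ℕ) (hC : ∀ (n : ℕ), 1 ≤ n → ∀ (Ω : Type) [Finite Ω]
    [MeasurableSpace Ω] [DiscreteMeasurableSpace Ω] (Q : Measure Ω) [IsProbabilityMeasure Q]
    (σ : Ω → Lt k × Bool → Fin n → Fin n),
    ent Q σ ≤ ((k : ℝ) + 1) * Real.log n.factorial + n + Real.log (n + 1) +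
      C * Real.log (n + 1) * ∫ ω, (((ug W (σ ω))ᶜ).ncard : ℝ) ∂Q) :
    ent Q (fun ω => sg W g L rp (fun v => lb (yy ω v)) (X ω)) ≤ ((k : ℝ) + 1) * Real.log n.factorial + n +
      Real.log (n + 1) + C * Real.log (n + 1) * ∫ ω, ((BB W g pd ptl (om ω) (X ω) m).ncard : ℝ) ∂Q := by
  refine (hC n (by omega) Ω Q _).trans ?_
  have h0 : 0 ≤ Real.log ((n : ℝ) + 1) := Real.log_nonneg (by linarith [Nat.cast_nonneg (α := ℝ) n])
  have h1 : ∫ ω, (((ug W (sg W g L rp (fun v => lb (yy ω v)) (X ω)))ᶜ).ncard : ℝ) ∂Q ≤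
      ∫ ω, ((BB W g pd ptl (om ω) (X ω) m).ncard : ℝ) ∂Q := by
    refine integral_mono_ae Integrable.of_finite Integrable.of_finite ?_
    filter_upwards [hM.hom, hM.adm] with ω h2 h3
    have hsub : (ug W (sg W g L rp (fun v => lb (yy ω v)) (X ω)))ᶜ ⊆ BB W g pd ptl (om ω) (X ω) m := by
      intro v hv
      by_contra hb
      exact hv (dec_ug W g L lb R d r (om ω) (yy ω) h2 (X ω) rp (fun m h hh _ => hrp m h hh) v m hmR hLR hb
        hg (h3 v) hm2)
    have := Set.ncard_le_ncard hsub (Set.toFinite _)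
    simpa using this
  have h2 : (0 : ℝ) ≤ C * Real.log ((n : ℝ) + 1) := mul_nonneg (Nat.cast_nonneg _) h0
  have h3 := mul_le_mul_of_nonneg_left h1 h2
  linarith

include hcv

theorem p2x (hm2 : L.C * L.C + 1 ≤ m) :
    entc Q X (fun ω => (sg W g L rp (fun v => lb (yy ω v)) (X ω), fun v => lb (yy ω v))) ≤
      Real.log (n + 1) + (∫ ω, ((BB W g pd ptl (om ω) (X ω) m).ncard : ℝ) ∂Q) *
        Real.log (n * (n : ℝ) ^ (k + 2)) := by
  haveI : Nonempty (Fin n) := ⟨⟨0, by omega⟩⟩
  haveI : Nonempty (Lt k → Equiv.Perm (Fin n)) := ⟨fun _ => 1⟩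
  let D : (Lt k → Equiv.Perm (Fin n)) → (Fin n → Lt k → Fin n) := fun x v s => XX W x s v
  have hD : Function.Injective D := by
    intro x x' h
    apply XX_inj W
    funext s
    apply Equiv.ext
    intro v
    exact congrFun (congrFun h v) s
  have h1 : X = fun ω => Function.invFun D (D (X ω)) := by
    funext ω
    exact (Function.leftInverse_invFun hD (X ω)).symm
  have h2 := entc_comp_left (P := Q) (f := fun ω => D (X ω))
    (g := fun ω => (sg W g L rp (fun v => lb (yy ω v)) (X ω), fun v => lb (yy ω v))) (p2x_fm _) (p2x_fm _)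
    (Function.invFun D)
  rw [← h1] at h2
  refine h2.trans ?_
  have h3 := entc_array (P := Q) (V := Fin n) (W := Lt k → Fin n) (fun ω => D (X ω)) (p2x_fm _)
    (fun ω => (sg W g L rp (fun v => lb (yy ω v)) (X ω), fun v => lb (yy ω v))) (p2x_fm _)
    (fun p v s => evf p.1 (cv (L.bw (ll W g (s, true)) (p.2 v))) v)
    (fun ω => (BB W g pd ptl (om ω) (X ω) m).ncard) (p2x_fm _)
    (fun ω => Set.ncard_le_card _) ?_
  · have e1 : Nat.card (Fin n) = n := by simp
    have e2 : Nat.card (Lt k → Fin n) = n ^ (k + 2) := by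
      rw [Nat.card_fun, p2x_cardL, e1]
    rw [e1, e2] at h3
    push_cast at h3
    exact h3
  · filter_upwards [hM.hom, hM.adm] with ω h4 h5
    apply Set.ncard_le_ncard _ (Set.toFinite _)
    intro v hv
    by_contra hb
    apply hv
    funext s
    exact (dec_X W g L lb R d r (om ω) (yy ω) h4 (X ω) rp (fun m h hh _ => hrp m h hh) cv hcv v m hmR hLR hb
      (W.length + 4) (h5 v) hm2 s).symm

end

include hn hM hrp

theorem p2o :
    entc Q om (fun ω => (fun v => lb (yy ω v), (fun v => pd (om ω v (e0 k W.length)), X ω))) ≤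
      Real.log (n + 1) + (∫ ω, ((PB W pd ptl (om ω) (X ω) (r + 1) R).ncard : ℝ) ∂Q) *
        Real.log (n * (Nat.card (PtR W g Λ R r) : ℝ) ^ Nat.card (Bg k W.length)) := by
  haveI : Nonempty (Fin n) := ⟨⟨0, by omega⟩⟩
  haveI : Nonempty (PtR W g Λ R r) := ⟨⟨[], by simp⟩⟩
  have h3 := entc_array (P := Q) (V := Fin n) (W := Bg k W.length → PtR W g Λ R r) om (p2x_fm _)
    (fun ω => (fun v => lb (yy ω v), (fun v => pd (om ω v (e0 k W.length)), X ω))) (p2x_fm _)
    (fun p v j => ⟨pat (fun c => ac p.2.2 (nn W c))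
      (fun v' => fun h : ↥(ball (SS W g) R) => p.1 (ac (XX W p.2.2) (rp h) v')) p.2.1 (r + 1)
      (ac p.2.2 (bgw W j) v), pat_length _ _ _ _ _⟩)
    (fun ω => (PB W pd ptl (om ω) (X ω) (r + 1) R).ncard) (p2x_fm _)
    (fun ω => Set.ncard_le_card _) ?_
  · have e1 : Nat.card (Fin n) = n := by simp
    rw [e1, Nat.card_fun] at h3
    push_cast at h3
    exact h3
  · filter_upwards [hM.hom] with ω h4
    apply Set.ncard_le_ncard _ (Set.toFinite _)
    intro v hv
    by_contra hb
    apply hv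
    funext j
    apply Subtype.ext
    exact pth W g lb R d r (om ω) (yy ω) h4 (X ω) rp (fun h hh => hrp R h hh) v hb j

theorem p2m :
    entc Q M (fun ω => (om ω, X ω)) ≤
      ((k : ℝ) + 2) * (Real.log (n + 1) + Er k W.length (r + 1) N n * Real.log (n * n)) := by
  classical
  haveI : Nonempty (Fin n) := ⟨⟨0, by omega⟩⟩
  have hn1 : (1 : ℝ) ≤ n := by exact_mod_cast (by omega : 1 ≤ n)
  have h0 : 0 ≤ Real.log ((n : ℝ) * n) := Real.log_nonneg (by nlinarith)
  have h1 := entc_pi_le (P := Q) (ι := Lt k) (κ := fun _ => Equiv.Perm (Fin n)) (f := fun s ω => M ω s)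
    (fun s => p2x_fm _) (g := fun ω => (om ω, X ω)) (p2x_fm _)
  refine h1.trans ?_
  have h2 : ∀ s : Lt k, entc Q (fun ω => M ω s) (fun ω => (om ω, X ω)) ≤
      Real.log (n + 1) + Er k W.length (r + 1) N n * Real.log (n * n) := by
    intro s
    haveI : Nonempty (Equiv.Perm (Fin n)) := ⟨1⟩
    let D : Equiv.Perm (Fin n) → (Fin n → Fin n) := fun x v => x v
    have hD : Function.Injective D := fun x x' h => Equiv.ext (congrFun h)
    have h3 : (fun ω => M ω s) = fun ω => Function.invFun D (D (M ω s)) := by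
      funext ω
      exact (Function.leftInverse_invFun hD (M ω s)).symm
    have h4 := entc_comp_left (P := Q) (f := fun ω => D (M ω s)) (g := fun ω => (om ω, X ω)) (p2x_fm _)
      (p2x_fm _) (Function.invFun D)
    rw [← h3] at h4
    refine h4.trans ?_
    have h5 := entc_array (P := Q) (V := Fin n) (W := Fin n) (fun ω => D (M ω s)) (p2x_fm _)
      (fun ω => (om ω, X ω)) (p2x_fm _)
      (fun p v => if TT pd s (src s (p.1 v)) then M0 p.1 s v else p.2 s v)
      (fun ω => {v | M ω s v ≠ (if TT pd s (src s (om ω v)) then M0 (om ω) s v else X ω s v)}.ncard)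
      (p2x_fm _) (fun ω => Set.ncard_le_card _) (Filter.Eventually.of_forall fun ω => le_refl _)
    have e1 : Nat.card (Fin n) = n := by simp
    rw [e1] at h5
    have h6 := mul_le_mul_of_nonneg_right (hM.eM s) h0
    refine h5.trans ?_
    have h7 : (∫ ω, (({v | M ω s v ≠ (if TT pd s (src s (om ω v)) then M0 (om ω) s v else X ω s v)}.ncard : ℕ) : ℝ) ∂Q) *
        Real.log ((n : ℝ) * n) ≤ Er k W.length (r + 1) N n * Real.log ((n : ℝ) * n) := by
      convert h6 using 2
    linarith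
  calc ∑ s : Lt k, entc Q (fun ω => M ω s) (fun ω => (om ω, X ω))
      ≤ ∑ s : Lt k, (Real.log (n + 1) + Er k W.length (r + 1) N n * Real.log (n * n)) :=
        Finset.sum_le_sum fun s _ => h2 s
    _ = ((k : ℝ) + 2) * (Real.log (n + 1) + Er k W.length (r + 1) N n * Real.log (n * n)) := by
        rw [Finset.sum_const, Finset.card_univ, ← Nat.card_eq_fintype_card, p2x_cardL, nsmul_eq_mul]
        push_cast
        ring

end H33.BO
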