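import Pool.Agent.H33.BO.P2a
import Pool.Agent.H33.BO.P2c
import Pool.Agent.H33.BO.P2l
import Pool.Agent.H33.BO.P2x
import Pool.Agent.H33.BO.ChC

/-! # BO.P2b : Part II for a fixed number of vertices (paper 3.6)

PARAMETERS: `l := W.length`, `m := 2 L.C (l + 4) + (L.C * L.C + 1) + ∑ j, L.C (wd j).length` (`∑` over the finite type `J`), `R0 := m + L.C`. Let `R ≥ R0`, `rp` from `rp_ex`, `cv` from `cv_ex` (choice), `C` from `p2c` (for `R`, `m`), `C1` from `chA`. For given data (`Y` is nonempty since `P` is a probability measure, so `Λ`, `A` are nonempty) take a model (`p2a`) with `n` vertices; `l ω v := lb (yy ω v)`, `σ ω := sg W g L rp (l ω) (X ω)`, `dd ω v := pd (om ω v e_0)`, `c := log (n + 1) ≥ 1` (`n ≥ 2`).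
`chC`: `ent (om, M) ≤ ent σ + entc l σ + ent dd + entc X (σ, l) + entc om (l, dd, X) + entc M (om, X)`, and `p2s`, `p2l`, `ent dd ≤ n log 3` (`ent_le_log_card`, `Nat.card (Fin n → Option Bool) = 3^n`), `p2x`, `p2o`, `p2m`; `E BB ≤ C (n δ + Er)`, `E PB ≤ C 2^r Er` (`p2c`), `δ = P.real {d = none}`. With `hM.ent0` and `log n! ≤ n log n`, divided by `n`:
`Fn ≤ ent + entc + (k + 2) + 1 + log 3 + error`, `error = (4 + k) c / n + (C (δ + Er / n)) (C1 c + log (n card (J → A)) + (k + 3) log n) + C 2^r (Er / n) log (n card^(card Bg)) + (k + 2) (Er / n) 2 log n`. `log (n card (J → A)) ≤ (1 + log card (J → A)) c`. So `error ≤ C0 (..)` for `C0` a constant that depends only on `k`, `C`, `C1` and `card (J → A)`. -/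

set_option autoImplicit false

open MeasureTheory H31.BE

namespace H33.BO

/-- the final estimate -/
private lemma P2b_num {k : ℕ} {n F e1 e2 δ E c LG BBi PBi lA lX lM C C1 CJ D r2 : ℝ} (hn : 0 < n)
    (hk : 0 ≤ (k : ℝ)) (hc : 1 ≤ c) (hE : 0 ≤ E) (hδ : 0 ≤ δ) (hLG : 0 ≤ LG) (hC : 0 ≤ C) (hC1 : 0 ≤ C1)
    (hCJ : 0 ≤ CJ) (hr2 : 0 ≤ r2)
    (hB : BBi ≤ C * (n * δ + E)) (hP : PBi ≤ C * r2 * E)
    (hlA : lA ≤ (1 + CJ) * c) (hlX : lX ≤ ((k : ℝ) + 3) * c) (hlM : lM ≤ 2 * c) (hlA0 : 0 ≤ lA)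
    (hlX0 : 0 ≤ lX) (hD : D ≤ 2 * n)
    (h : n * F ≤ n * e1 + n * e2 + ((k : ℝ) + 2) * n + n + D + 4 * c + ((k : ℝ) + 2) * c +
      BBi * (C1 * c) + BBi * lA + BBi * lX + PBi * LG + ((k : ℝ) + 2) * (E * lM)) :
    F ≤ e1 + e2 + (k + 8) + (((k : ℝ) + 6) + C * (C1 + (1 + CJ) + ((k : ℝ) + 3)) + C + 2 * ((k : ℝ) + 2)) *
      ((δ + E / n) * c + c / n + r2 * (E / n) * LG) := by
  have hc0 : 0 ≤ c := by linarith
  set K3 : ℝ := C1 + (1 + CJ) + ((k : ℝ) + 3) with hK3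
  have hK30 : 0 ≤ K3 := by positivity
  have b1 : BBi * (C1 * c) + BBi * lA + BBi * lX ≤ C * (n * δ + E) * (K3 * c) := by
    have h1 : C1 * c + lA + lX ≤ K3 * c := by rw [hK3]; nlinarith
    have h2 : 0 ≤ C1 * c + lA + lX := by positivity
    have h3 : BBi * (C1 * c + lA + lX) ≤ C * (n * δ + E) * (C1 * c + lA + lX) :=
      mul_le_mul_of_nonneg_right hB h2
    have h4 : C * (n * δ + E) * (C1 * c + lA + lX) ≤ C * (n * δ + E) * (K3 * c) :=
      mul_le_mul_of_nonneg_left h1 (by positivity)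
    nlinarith
  have b2 : PBi * LG ≤ C * r2 * E * LG := mul_le_mul_of_nonneg_right hP hLG
  have b3 : ((k : ℝ) + 2) * (E * lM) ≤ ((k : ℝ) + 2) * (E * (2 * c)) := by gcongr
  set δ' : ℝ := E / n with hδ'
  have hEn : E = n * δ' := by rw [hδ']; field_simp
  have hδ0 : 0 ≤ δ' := by positivity
  set cn : ℝ := c / n with hcn
  have hcnn : c = n * cn := by rw [hcn]; field_simp
  have hcn0 : 0 ≤ cn := by positivity
  have key : n * F ≤ n * (e1 + e2 + (k + 8) + (((k : ℝ) + 6) * cn + C * K3 * ((δ + δ') * c) +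
      C * (r2 * δ' * LG) + 2 * ((k : ℝ) + 2) * (δ' * c))) := by
    have e5 : C * (n * δ + E) * (K3 * c) = n * (C * K3 * ((δ + δ') * c)) := by rw [hEn]; ring
    have e6 : C * r2 * E * LG = n * (C * (r2 * δ' * LG)) := by rw [hEn]; ring
    have e7 : ((k : ℝ) + 2) * (E * (2 * c)) = n * (2 * ((k : ℝ) + 2) * (δ' * c)) := by rw [hEn]; ring
    have e8 : 4 * c + ((k : ℝ) + 2) * c = n * (((k : ℝ) + 6) * cn) := by
      rw [show n * (((k : ℝ) + 6) * cn) = ((k : ℝ) + 6) * (n * cn) by ring, ← hcnn]; ring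
    rw [e5] at b1
    rw [e6] at b2
    rw [e7] at b3
    have e9 : n * (e1 + e2 + (k + 8) + (((k : ℝ) + 6) * cn + C * K3 * ((δ + δ') * c) +
      C * (r2 * δ' * LG) + 2 * ((k : ℝ) + 2) * (δ' * c))) = n * e1 + n * e2 + n * k + 8 * n +
      n * (((k : ℝ) + 6) * cn) + n * (C * K3 * ((δ + δ') * c)) + n * (C * (r2 * δ' * LG)) +
      n * (2 * ((k : ℝ) + 2) * (δ' * c)) := by ring
    rw [e9, ← e8]
    linarith
  have key2 := le_of_mul_le_mul_left key hn
  refine key2.trans ?_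
  have p1 : 0 ≤ (δ + δ') * c := by positivity
  have p2 : 0 ≤ r2 * δ' * LG := by positivity
  have p3 : δ' * c ≤ (δ + δ') * c := mul_le_mul_of_nonneg_right (by linarith) hc0
  have p4 : 0 ≤ C * K3 := by positivity
  have q1 : (((k : ℝ) + 6) + C * K3 + C + 2 * ((k : ℝ) + 2)) * ((δ + δ') * c + cn + r2 * δ' * LG) =
      ((k : ℝ) + 6) * cn + C * K3 * ((δ + δ') * c) + C * (r2 * δ' * LG) +
        2 * ((k : ℝ) + 2) * ((δ + δ') * c) +
      (((k : ℝ) + 6) * ((δ + δ') * c + r2 * δ' * LG) + C * K3 * (cn + r2 * δ' * LG) +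
        C * ((δ + δ') * c + cn) + 2 * ((k : ℝ) + 2) * (cn + r2 * δ' * LG)) := by ring
  rw [q1]
  have q2 : 0 ≤ ((k : ℝ) + 6) * ((δ + δ') * c + r2 * δ' * LG) + C * K3 * (cn + r2 * δ' * LG) +
        C * ((δ + δ') * c + cn) + 2 * ((k : ℝ) + 2) * (cn + r2 * δ' * LG) := by positivity
  have q3 : 2 * ((k : ℝ) + 2) * (δ' * c) ≤ 2 * ((k : ℝ) + 2) * ((δ + δ') * c) := by gcongr
  linarith

private lemma P2b_sum {k n F e1 e2 D c C1 BBi PBi lA lX LG E lM fac ln T S1 S2 S3 S4 S5 S6 : ℝ}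
    (h8 : n * F + (k + 1) * (n * ln) - (k + 2) * n ≤ T) (h7 : T ≤ S1 + S2 + S3 + S4 + S5 + S6)
    (h1 : S1 ≤ (k + 1) * fac + n + c + C1 * c * BBi) (h2 : S2 ≤ n * e1 + n * e2 + c + BBi * lA)
    (h3 : S3 ≤ D) (h4 : S4 ≤ c + BBi * lX) (h5 : S5 ≤ c + PBi * LG) (h6 : S6 ≤ (k + 2) * (c + E * lM))
    (hf : (k + 1) * fac ≤ (k + 1) * (n * ln)) :
    n * F ≤ n * e1 + n * e2 + (k + 2) * n + n + D + 4 * c + (k + 2) * c +
      BBi * (C1 * c) + BBi * lA + BBi * lX + PBi * LG + (k + 2) * (E * lM) := by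
  have e1 : C1 * c * BBi = BBi * (C1 * c) := by ring
  have e2 : (k + 2) * (c + E * lM) = (k + 2) * c + (k + 2) * (E * lM) := by ring
  rw [e1] at h1
  rw [e2] at h6
  linarith

private lemma P2b_fm {Ω α : Type} [MeasurableSpace Ω] [DiscreteMeasurableSpace Ω] (f : Ω → α) : Fm f :=
  fun _ => MeasurableSet.of_discrete

private lemma P2b_er (k l D N n : ℕ) : 0 ≤ Er k l D N n := by
  unfold Er
  positivity

private lemma P2b_c {n : ℕ} (hn : 2 ≤ n) : 1 ≤ Real.log ((n : ℝ) + 1) := by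
  rw [Real.le_log_iff_exp_le (by positivity)]
  have h1 : Real.exp 1 < 2.7182818286 := Real.exp_one_lt_d9
  have h2 : (2 : ℝ) ≤ n := by exact_mod_cast hn
  linarith

private lemma P2b_fac (n : ℕ) : Real.log (n.factorial : ℝ) ≤ n * Real.log n := by
  have h1 : ((n.factorial : ℕ) : ℝ) ≤ (n : ℝ) ^ n := by exact_mod_cast Nat.factorial_le_pow n
  have h2 : (0 : ℝ) < n.factorial := by exact_mod_cast Nat.factorial_pos n
  rw [← Real.log_pow]
  exact Real.log_le_log h2 h1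

private lemma P2b_dir (n : ℕ) : (Nat.card (Fin n → Option Bool) : ℝ) = (3 : ℝ) ^ n := by
  rw [Nat.card_eq_fintype_card, Fintype.card_fun, Fintype.card_fin, Fintype.card_option, Fintype.card_bool]
  push_cast
  norm_num

theorem p2b {k : ℕ} {G : Type} [Group G] [DecidableEq G] (W : Wd k) (g : Lt k → G) (hg : Pres W g)
    {Λ A J : Type} [Finite Λ] [Finite A] [Finite J] (L : Lab (SS W g) Λ)
    (wd : J → List (H31.BE.Gn (SS W g))) :
    ∃ R0 : ℕ, ∀ R, R0 ≤ R → ∃ C0 : ℝ, 0 ≤ C0 ∧ ∀ (Y : Type) [MeasurableSpace Y] [MulAction G Y] (P : Measure Y)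
      [IsProbabilityMeasure P] (_ : Inv G P) (lb : Y → Λ) (_ : Fm lb)
      (_ : ∀ᵐ y ∂P, Adm L (W.length + 4) (fun h => lb (h • y))) (pf : Λ → A)
      (r : ℕ) (d : Y → Option Bool) (_ : Fm d) (_ : ∀ᵐ y ∂P, shrt (fun c => ga g (nn W c)) d r y) (n N : ℕ)
      (_ : 2 ≤ n) (_ : ∀ s, Nat.card (Qi W (PtR W g Λ R r) s) ≤ N),
      Fn W pd (law P (bp W g lb R d r)) ≤ ent P (fun y => pf (lb y)) +
        entc P lb (fun y => fun j : J => pf (lb (walk L (fun h => lb (h • y)) (wd j) • y))) + (k + 8) +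
        C0 * ((P.real {y | d y = none} + Er k W.length (r + 1) N n / n) * Real.log (n + 1) +
          Real.log (n + 1) / n + 2 ^ r * (Er k W.length (r + 1) N n / n) *
            Real.log (n * (Nat.card (PtR W g Λ R r) : ℝ) ^ Nat.card (Bg k W.length))) := by
  classical
  letI : Fintype J := Fintype.ofFinite J
  set l : ℕ := W.length with hl
  set m : ℕ := 2 * (L.C * (l + 4)) + (L.C * L.C + 1) + ∑ j, L.C * (wd j).length with hm
  refine ⟨m + L.C, fun R hR => ?_⟩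
  obtain ⟨rp, hrp⟩ := rp_ex W g
  choose cv hcv using cv_ex W g
  obtain ⟨C, hC⟩ := p2c W g hg R m
  obtain ⟨C1, hC1⟩ := chA W
  have hmR : m ≤ R := by omega
  have hLR : L.C ≤ R := by omega
  have hm1 : 2 * (L.C * (l + 4)) ≤ m := by omega
  have hm2 : L.C * L.C + 1 ≤ m := by omega
  have hm3 : ∀ j, L.C * (wd j).length ≤ m := by
    intro j
    have h1 : L.C * (wd j).length ≤ ∑ j, L.C * (wd j).length :=
      Finset.single_le_sum (f := fun j => L.C * (wd j).length) (fun _ _ => Nat.zero_le _) (Finset.mem_univ j)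
    omega
  refine ⟨((k : ℝ) + 6) + C * (C1 + (1 + |Real.log (Nat.card (J → A))|) + ((k : ℝ) + 3)) + C +
    2 * ((k : ℝ) + 2), by positivity, ?_⟩
  intro Y _ _ P _ hP lb hlb hadm pf r d hd hs n N hn hN
  obtain ⟨y0⟩ : Nonempty Y := nonempty_of_isProbabilityMeasure P
  haveI : Nonempty A := ⟨pf (lb y0)⟩
  obtain ⟨Ω, iΩ, iM, iD, Q, iQ, om, M, X, M0, yy, hM⟩ :=
    p2a W g hg P hP L lb hlb hadm R r d hd hs n N (by omega) hN
  have s1 := p2s W g hg P L lb R r m hmR hLR d n N hn Q om M X M0 yy hM rp hrp hm1 C1 hC1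
  have s2 := p2l W g hg P L lb hlb R r m hmR hLR d hd n N hn Q om M X M0 yy hM rp hrp cv hcv hP pf wd hm3
  have s3 := p2x W g hg P L lb R r m hmR hLR d n N hn Q om M X M0 yy hM rp hrp cv hcv hm2
  have s4 := p2o W g P L lb R r d n N hn Q om M X M0 yy hM rp hrp
  have s5 := p2m W g P L lb R r d n N hn Q om M X M0 yy hM rp hrp
  have s6 := ent_le_log_card (P := Q) (fun ω => fun v => pd (om ω v (e0 k W.length))) (P2b_fm _)
  have s7 := chC Q (fun ω => sg W g L rp (fun v => lb (yy ω v)) (X ω)) (fun ω => fun v => lb (yy ω v))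
    (fun ω => fun v => pd (om ω v (e0 k W.length))) X om M
  have s8 := hM.ent0
  obtain ⟨t1, t2⟩ := hC Y Λ P L lb r d n N Ω Q om M X M0 yy hM
  have hn0 : (0 : ℝ) < n := by exact_mod_cast (by omega : 0 < n)
  have hn2 : (2 : ℝ) ≤ n := by exact_mod_cast hn
  have hc := P2b_c hn
  have hfac := P2b_fac n
  have hlogn : Real.log n ≤ Real.log ((n : ℝ) + 1) := Real.log_le_log hn0 (by linarith)
  have hlogn0 : 0 ≤ Real.log (n : ℝ) := Real.log_nonneg (by linarith)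
  rw [P2b_dir, Real.log_pow] at s6
  have h3 : Real.log 3 ≤ 2 := by
    rw [Real.log_le_iff_le_exp (by norm_num)]
    have h4 : (2 : ℝ) + 1 ≤ Real.exp 2 := Real.add_one_le_exp 2
    linarith
  have hJA : (1 : ℝ) ≤ Nat.card (J → A) := by
    exact_mod_cast Nat.one_le_iff_ne_zero.mpr Nat.card_pos.ne'
  have hPt : (1 : ℝ) ≤ Nat.card (PtR W g Λ R r) := by
    haveI : Nonempty (PtR W g Λ R r) := ⟨⟨[], Nat.zero_le _⟩⟩
    exact_mod_cast Nat.one_le_iff_ne_zero.mpr Nat.card_pos.ne'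
  refine P2b_num (BBi := ∫ ω, ((BB W g pd ptl (om ω) (X ω) m).ncard : ℝ) ∂Q)
    (PBi := ∫ ω, ((PB W pd ptl (om ω) (X ω) (r + 1) R).ncard : ℝ) ∂Q)
    (lA := Real.log (n * Nat.card (J → A))) (lX := Real.log (n * (n : ℝ) ^ (k + 2)))
    (lM := Real.log (n * n)) (D := n * Real.log 3) hn0 (Nat.cast_nonneg k) hc (P2b_er _ _ _ _ _)
    measureReal_nonneg ?_ (Nat.cast_nonneg C) (Nat.cast_nonneg C1) (abs_nonneg _) (by positivity) t1 t2
    ?_ ?_ ?_ ?_ ?_ ?_ ?_
  · refine Real.log_nonneg ?_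
    exact one_le_mul_of_one_le_of_one_le (by linarith) (one_le_pow₀ hPt)
  · rw [Real.log_mul hn0.ne' (by positivity)]
    have h6 : Real.log (Nat.card (J → A)) ≤ |Real.log (Nat.card (J → A))| := le_abs_self _
    have h7 := le_mul_of_one_le_right (abs_nonneg (Real.log (Nat.card (J → A) : ℝ))) hc
    rw [add_mul, one_mul]
    linarith
  · rw [← pow_succ', Real.log_pow]
    have h6 := mul_le_mul_of_nonneg_left hlogn (by positivity : (0 : ℝ) ≤ (k : ℝ) + 3)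
    refine le_trans (le_of_eq ?_) h6
    push_cast
    ring
  · rw [Real.log_mul hn0.ne' hn0.ne']
    linarith
  · refine Real.log_nonneg ?_
    exact one_le_mul_of_one_le_of_one_le (by linarith) hJA
  · refine Real.log_nonneg ?_
    exact one_le_mul_of_one_le_of_one_le (by linarith) (one_le_pow₀ (by linarith))
  · have h6 := mul_le_mul_of_nonneg_left h3 hn0.le
    linarith
  · have hk1 : ((k : ℝ) + 1) * Real.log (n.factorial : ℝ) ≤ ((k : ℝ) + 1) * (n * Real.log n) := by gcongr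
    exact P2b_sum s8 s7 s1 s2 s6 s3 s4 s5 hk1

end H33.BO
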