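import Pool.Agent.H33.BO.WinI
import Pool.Agent.H33.BO.ApxA
import Pool.Agent.H33.BO.ApxC
import Pool.Agent.H33.BO.FmA

/-! # BO.PartI : Part I (paper section 2): the lower bound for the functional

NOTATION: `P := bern G ν`, `Pt := Pt Λ (r+1)`, `p0 := law P (bpat W (ga g) β d (r+1))`, `K1 := Nat.card (Bg k W.length) * 2^(r+1)`, `lg := log (card Pt + 2)`.
PROOF. Let `ε > 0`; `cnt_lin` for `Fn` at `p0` with `ε` gives `C`; `entc_small` for the type `A0` and `ε` gives `δ1`. Take `η > 0` with `η ≤ δ1`, `2 C K1 η ≤ ε`, `CI W * lg * K1 η ≤ ε`. `apxA` gives `A, q, pr, Z, β', d'`; `d'' := cor (fun c => ca (nn W c)) d' r`, local (`loc_cor`), short everywhere (`cor_shrt`). `winI` for `q, β', d''`: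
(I) `ent ν q - entc P (q (y 1)) (β' (tt y)) ≤ Fn W _ p1 + CI + CI * P.real {d'' (tt y) = none} * lg`, `p1 := law P (bpat W ca β' d'' (r+1) (tt y))`. By `apxC` (`hβm`, `hdm` from `fm_loc`) the two pattern functions differ with probability at most `K1 η`, so `∑ t, |p1 t - p0 t| ≤ 2 K1 η` (for `Fm` functions `f`, `f'`: `∑ t |P(f = t) - P(f' = t)| ≤ 2 P(f ≠ f')`; `fm_bpat`, `fm_loc` and `loc_bpat`)
and `Fn p1 ≤ Fn p0 + ε + 2 C K1 η`; `P(d'' (tt y) = none) ≤ P(d y = none) + K1 η` (`pdir_pat` at `e_0`: `bgw W e_0 = 1`: `ga g 1 y = y`).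
(II) `entc P (q (y 1)) (β'(tt y)) ≤ entc P (q0 (y 1)) (β' (tt y)) + ent ν q - ent ν q0`: chain rule with `q0 (y 1) = pr (q (y 1))` (`entc P f g ≤ entc P (pr ∘ f) g + entc P f (pr ∘ f)`, and `entc P f (pr ∘ f) = ent P f - ent P (pr ∘ f)`, `ent_lab`). `entc P (q0 (y 1)) (β' (tt y)) ≤ entc P (q0 (y 1)) (q' (β' (tt y))) ≤ ε` by `entc_small`: the two functions
`q0 (y 1)` and `q' (β' (tt y))` differ with probability at most `P(β y ≠ β' (tt y)) ≤ η` (`hq'`). So `ent ν q0 ≤ Fn p0 + CI + CI P(d = none) lg + 5 ε`; `ε → 0`. -/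

set_option autoImplicit false

open MeasureTheory H31.BE

namespace H33.BO

private theorem partI_dist {Ω T : Type} [MeasurableSpace Ω] [Fintype T] (P : Measure Ω) [IsProbabilityMeasure P]
    (f f' : Ω → T) (hf : Fm f) (hf' : Fm f') :
    ∑ t, |law P f' t - law P f t| ≤ 2 * P.real {ω | f ω ≠ f' ω} := by
  classical
  have hE : MeasurableSet {ω | f ω ≠ f' ω} := by
    have h1 : Fm (fun ω => (f ω, f' ω)) := hf.prodMk hf'
    exact h1.preimage {p : T × T | p.1 ≠ p.2}
  have h1 : ∀ t, |law P f' t - law P f t| ≤ P.real (f ⁻¹' {t} ∩ {ω | f ω ≠ f' ω}) +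
      P.real (f' ⁻¹' {t} ∩ {ω | f ω ≠ f' ω}) := by
    intro t
    have e1 : P.real (f ⁻¹' {t}) = P.real (f ⁻¹' {t} ∩ {ω | f ω ≠ f' ω}) +
        P.real (f ⁻¹' {t} \ {ω | f ω ≠ f' ω}) := (measureReal_inter_add_diff hE).symm
    have e2 : P.real (f' ⁻¹' {t}) = P.real (f' ⁻¹' {t} ∩ {ω | f ω ≠ f' ω}) +
        P.real (f' ⁻¹' {t} \ {ω | f ω ≠ f' ω}) := (measureReal_inter_add_diff hE).symm
    have e3 : f ⁻¹' {t} \ {ω | f ω ≠ f' ω} = f' ⁻¹' {t} \ {ω | f ω ≠ f' ω} := by
      ext ω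
      simp only [Set.mem_diff, Set.mem_preimage, Set.mem_singleton_iff, ne_eq]
      constructor
      · rintro ⟨h2, h3⟩
        have h4 : f ω = f' ω := by
          by_contra h5
          exact h3 h5
        exact ⟨h4 ▸ h2, h3⟩
      · rintro ⟨h2, h3⟩
        have h4 : f ω = f' ω := by
          by_contra h5
          exact h3 h5
        exact ⟨h4.trans h2, h3⟩
    have a1 : 0 ≤ P.real (f ⁻¹' {t} ∩ {ω | f ω ≠ f' ω}) := measureReal_nonneg
    have a2 : 0 ≤ P.real (f' ⁻¹' {t} ∩ {ω | f ω ≠ f' ω}) := measureReal_nonneg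
    unfold law
    rw [e1, e2, e3, abs_le]
    constructor <;> linarith
  have h2 : ∀ (φ : Ω → T), Fm φ → ∑ t, P.real (φ ⁻¹' {t} ∩ {ω | f ω ≠ f' ω}) = P.real {ω | f ω ≠ f' ω} := by
    intro φ hφ
    rw [← measureReal_biUnion_finset]
    · congr 1
      ext ω
      simp
    · intro i _ j _ hij
      refine Set.disjoint_left.2 ?_
      rintro ω ⟨h3, _⟩ ⟨h4, _⟩
      exact hij (h3.symm.trans h4)
    · intro t _
      exact (hφ t).inter hE
  calc ∑ t, |law P f' t - law P f t| ≤ ∑ t, (P.real (f ⁻¹' {t} ∩ {ω | f ω ≠ f' ω}) +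
      P.real (f' ⁻¹' {t} ∩ {ω | f ω ≠ f' ω})) := Finset.sum_le_sum (fun t _ => h1 t)
    _ = 2 * P.real {ω | f ω ≠ f' ω} := by
      rw [Finset.sum_add_distrib, h2 f hf, h2 f' hf']
      ring

theorem partI {k : ℕ} {G : Type} [Group G] [DecidableEq G] (W : Wd k) (g : Lt k → G) (hg : Pres W g)
    (ν : Measure ℝ) [IsProbabilityMeasure ν] {Λ A0 : Type} [Finite Λ] [Finite A0] (β : Bsh G → Λ) (hβ : Fm β)
    (d : Bsh G → Option Bool) (hd : Fm d) (r : ℕ)
    (hs : ∀ᵐ y ∂(bern G ν), shrt (fun c => ga g (nn W c)) d r y)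
    (q0 : ℝ → A0) (hq0 : Fm q0) (q' : Λ → A0) (hq' : ∀ᵐ y ∂(bern G ν), q' (β y) = q0 (y 1)) :
    ent ν q0 ≤ Fn W (fun p : Pt Λ (r + 1) => pdir p.1) (law (bern G ν) (bpat W (ga g) β d (r + 1))) +
      CI W + CI W * (bern G ν).real {y | d y = none} * Real.log (Nat.card (Pt Λ (r + 1)) + 2) := by
  classical
  set Pm : Measure (Bsh G) := bern G ν with hPm
  letI : Fintype (Bg k W.length → Pt Λ (r + 1)) := Fintype.ofFinite _
  set Φ0 : Bsh G → (Bg k W.length → Pt Λ (r + 1)) := bpat W (ga g) β d (r + 1) with hΦ0def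
  set lg : ℝ := Real.log (Nat.card (Pt Λ (r + 1)) + 2) with hlgdef
  have hlg : 0 ≤ lg := Real.log_nonneg (by
    have : (0 : ℝ) ≤ Nat.card (Pt Λ (r + 1)) := Nat.cast_nonneg _
    linarith)
  have hCI : 0 ≤ CI W := by unfold CI; positivity
  refine le_of_forall_pos_le_add fun ε' hε' => ?_
  set ε : ℝ := ε' / 5 with hεdef
  have hε : 0 < ε := by positivity
  obtain ⟨C, hC, hCc⟩ := cnt_lin (Fn W (fun p : Pt Λ (r + 1) => pdir p.1)) (cont_Fn W _) (law Pm Φ0) ε hε
  obtain ⟨δ1, hδ1, hsm⟩ := entc_small A0 ε hε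
  set K1 : ℝ := Nat.card (Bg k W.length) * 2 ^ (r + 1) with hK1
  have hK10 : 0 ≤ K1 := by positivity
  set D : ℝ := (2 * C + CI W * lg + 1) * (K1 + 1) with hD
  have hCL : 0 ≤ CI W * lg := mul_nonneg hCI hlg
  have hDpos : 0 < D := by positivity
  set η : ℝ := min δ1 (ε / D) with hη
  have hηpos : 0 < η := lt_min hδ1 (by positivity)
  have hηD : D * η ≤ ε := by
    calc D * η ≤ D * (ε / D) := mul_le_mul_of_nonneg_left (min_le_right _ _) hDpos.le
      _ = ε := by field_simp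
  have hη1 : 2 * C * (K1 * η) ≤ ε := by
    refine le_trans ?_ hηD
    have h1 : 2 * C * (K1 * η) = (2 * C * K1) * η := by ring
    rw [h1]
    refine mul_le_mul_of_nonneg_right ?_ hηpos.le
    rw [hD]
    nlinarith [mul_nonneg hC hK10, mul_nonneg hCL hK10]
  have hη2 : CI W * lg * (K1 * η) ≤ ε := by
    refine le_trans ?_ hηD
    have h1 : CI W * lg * (K1 * η) = (CI W * lg * K1) * η := by ring
    rw [h1]
    refine mul_le_mul_of_nonneg_right ?_ hηpos.le
    rw [hD]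
    nlinarith [mul_nonneg hC hK10, mul_nonneg hCL hK10]
  obtain ⟨A, hA, q, hq, pr, hpr, Z, β', d', hZβ, hZd, hη'⟩ := apxA g hg.surj ν β hβ d hd q0 hq0 η hηpos
  obtain ⟨Z', hZ'⟩ := loc_cor W Z d' hZd r
  set d2 : (Fg k → A) → Option Bool := cor (fun c => ca (nn W c)) d' r with hd2def
  have hβ2 : Loc (Z ∪ Z') β' := loc_mono Finset.subset_union_left hZβ
  have hd2 : Loc (Z ∪ Z') d2 := loc_mono Finset.subset_union_right hZ'
  have hI := winI W g hg ν q hq (Z ∪ Z') β' d2 hβ2 hd2 r (fun t => cor_shrt _ _ _ t)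
  have hβm : Fm (fun y : Bsh G => β' (tt g q y)) := fm_loc g q hq Z β' hZβ
  have hdm : Fm (fun y : Bsh G => d' (tt g q y)) := fm_loc g q hq Z d' hZd
  have hdm2 : Fm (fun y : Bsh G => d2 (tt g q y)) := fm_loc g q hq Z' d2 hZ'
  have hc := apxC W g ν β hβ d hd r hs q β' d' hβm hdm η hη'
  obtain ⟨Z3, hZ3⟩ := loc_bpat W (Z ∪ Z') β' d2 hβ2 hd2 (r + 1)
  set Φ1 : Bsh G → (Bg k W.length → Pt Λ (r + 1)) := fun y => bpat W ca β' d2 (r + 1) (tt g q y) with hΦ1def
  have hΦ1 : Fm Φ1 := fm_loc g q hq Z3 _ hZ3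
  have hΦ0 : Fm Φ0 := fm_bpat W g (fun h => (inv_bern (G := G) ν h).measurable) β hβ d hd (r + 1)
  have hne : Pm.real {y | Φ0 y ≠ Φ1 y} ≤ K1 * η := hc
  have hdist := partI_dist Pm Φ0 Φ1 hΦ0 hΦ1
  have hlaw : ∀ t, 0 ≤ law Pm Φ1 t ∧ law Pm Φ1 t ≤ 1 := fun t => ⟨measureReal_nonneg, measureReal_le_one⟩
  have hF := hCc (law Pm Φ1) hlaw
  have hF' : Fn W (fun p : Pt Λ (r + 1) => pdir p.1) (law Pm Φ1) ≤
      Fn W (fun p : Pt Λ (r + 1) => pdir p.1) (law Pm Φ0) + 2 * ε := by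
    have h1 := (abs_le.1 hF).2
    have h2 : C * ∑ t, |law Pm Φ1 t - law Pm Φ0 t| ≤ ε := by
      refine le_trans ?_ hη1
      calc C * ∑ t, |law Pm Φ1 t - law Pm Φ0 t| ≤ C * (2 * (K1 * η)) := by
            refine mul_le_mul_of_nonneg_left ?_ hC
            linarith
        _ = 2 * C * (K1 * η) := by ring
    linarith
  -- the roots
  have hroot : Pm.real {y | d2 (tt g q y) = none} ≤ Pm.real {y | d y = none} + K1 * η := by
    have hsub : {y : Bsh G | d2 (tt g q y) = none} ⊆ {y | d y = none} ∪ {y | Φ0 y ≠ Φ1 y} := by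
      intro y hy
      by_cases h1 : Φ0 y = Φ1 y
      · left
        have h2 : pdir (Φ0 y (e0 k W.length)).1 = pdir (Φ1 y (e0 k W.length)).1 := by rw [h1]
        have h3 : pdir (Φ0 y (e0 k W.length)).1 = d (ga g (bgw W (e0 k W.length)) y) := pdir_pat _ _ _ _ _
        have h4 : pdir (Φ1 y (e0 k W.length)).1 = d2 (ca (bgw W (e0 k W.length)) (tt g q y)) :=
          pdir_pat _ _ _ _ _
        have h5 : bgw W (e0 k W.length) = 1 := by
          show wf (W.take ((0 : Fin (W.length + 1)) : ℕ)) = 1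
          simp [wf]
        have h6 : ga g (1 : Fg k) y = y := by
          show FreeGroup.lift g 1 • y = y
          rw [map_one, one_smul]
        have h7 : ca (1 : Fg k) (tt g q y) = tt g q y := by
          funext w
          show tt g q y (w * 1) = _
          rw [mul_one]
        rw [h5, h6] at h3
        rw [h5, h7] at h4
        rw [h3, h4] at h2
        exact h2.trans hy
      · right
        exact h1
    calc Pm.real {y | d2 (tt g q y) = none} ≤ Pm.real ({y | d y = none} ∪ {y | Φ0 y ≠ Φ1 y}) :=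
          measureReal_mono hsub
      _ ≤ Pm.real {y | d y = none} + Pm.real {y | Φ0 y ≠ Φ1 y} := measureReal_union_le _ _
      _ ≤ Pm.real {y | d y = none} + K1 * η := by linarith
  -- the entropies
  have hlabq : Fm (fun y : Bsh G => q (y 1)) := Fm.lab (G := G) hq
  have hlabq0 : Fm (fun y : Bsh G => q0 (y 1)) := Fm.lab (G := G) hq0
  have hprq : (fun y : Bsh G => pr (q (y 1))) = fun y => q0 (y 1) := by
    funext y
    exact hpr (y 1)
  have hent : ent Pm (fun y : Bsh G => q (y 1)) = ent ν q := ent_lab (G := G) ν hq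
  have hent0 : ent Pm (fun y : Bsh G => q0 (y 1)) = ent ν q0 := ent_lab (G := G) ν hq0
  have hII : entc Pm (fun y : Bsh G => q (y 1)) (fun y => β' (tt g q y)) ≤
      entc Pm (fun y : Bsh G => q0 (y 1)) (fun y => β' (tt g q y)) + (ent ν q - ent ν q0) := by
    have a1 := entc_comp_left (P := Pm) (hlabq.prodMk hlabq0) hβm (Prod.fst : A × A0 → A)
    have a2 := entc_chain (P := Pm) hlabq hlabq0 hβm
    have a3 := entc_anti (P := Pm) hlabq (hlabq0.prodMk hβm) (Prod.fst : A0 × Λ → A0)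
    have a4 : entc Pm (fun y : Bsh G => q (y 1)) (fun y => q0 (y 1)) = ent ν q - ent ν q0 := by
      unfold entc
      rw [hent0]
      congr 1
      rw [← hent]
      have h1 := ent_inj (P := Pm) hlabq (fun a : A => (a, pr a)) (fun a b h => (Prod.mk.inj h).1)
      rw [← h1]
      congr 1
      funext y
      rw [hpr]
    simp only at a1 a3
    rw [a4] at a3
    linarith
  have hq'm : Fm (fun y : Bsh G => q' (β' (tt g q y))) := hβm.comp q'
  have hsm' : entc Pm (fun y : Bsh G => q0 (y 1)) (fun y => β' (tt g q y)) ≤ ε := by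
    refine le_trans (entc_anti (P := Pm) hlabq0 hβm q') ?_
    refine hsm (Bsh G) Pm _ _ hlabq0 hq'm ?_
    refine le_trans ?_ (min_le_left δ1 (ε / D))
    refine le_trans ?_ hη'
    have hmono : Pm {y : Bsh G | q0 (y 1) ≠ q' (β' (tt g q y))} ≤
        Pm {y : Bsh G | β y ≠ β' (tt g q y) ∨ d y ≠ d' (tt g q y)} := by
      refine measure_mono_ae ?_
      filter_upwards [hq'] with y hy h1
      left
      intro h2
      apply h1
      rw [← h2, hy]
    exact ENNReal.toReal_mono (measure_ne_top _ _) hmono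
  have hI' : ent ν q - entc Pm (fun y : Bsh G => q (y 1)) (fun y => β' (tt g q y)) ≤
      Fn W (fun p : Pt Λ (r + 1) => pdir p.1) (law Pm Φ1) +
      CI W + CI W * Pm.real {y | d2 (tt g q y) = none} * lg := hI
  have hr2 : CI W * Pm.real {y | d2 (tt g q y) = none} * lg ≤
      CI W * Pm.real {y | d y = none} * lg + ε := by
    have h1 : CI W * Pm.real {y | d2 (tt g q y) = none} * lg ≤
        CI W * (Pm.real {y | d y = none} + K1 * η) * lg := by
      gcongr
    have h2 : CI W * (Pm.real {y | d y = none} + K1 * η) * lg =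
        CI W * Pm.real {y | d y = none} * lg + CI W * lg * (K1 * η) := by ring
    linarith
  have h5 : 5 * ε = ε' := by rw [hεdef]; ring
  linarith

end H33.BO
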