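import Pool.Agent.H33.BO.LinB
import Pool.Agent.H33.BO.Defs

/-! # BO.Peel : peeling: the relations determine the unknown edges (paper 2.4)

NOTATION: a = X none, b = X (some none), ω = ac X (wf W) (the same for X'). The a-edge with target `w` is the edge `(w, true)` of the graph of the 2-cells (`N_B w = ω b w`), its source is `a⁻¹ w`; the b-edge with target `ω⁻¹ w` is the edge `(w, false)`
(`N_A w = a ω⁻¹ w`), its source is `b⁻¹ ω⁻¹ w`. The relation of the cell `w` (`w ∉ defs W X`): `a b a⁻¹ b⁻¹ ω⁻¹ w = w`, i.e. with `u = ω⁻¹ w`, `y = b⁻¹ u`, `z = a⁻¹ y`, `v = b z` we have `a v = w`.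
PROOF. Induction on `U.card`. If `U = ∅` then `ha`, `hb` give `X none = X' none` etc. (every letter is none, some none or some (some i)). Otherwise `leaf` gives a cell `w` such that exactly one of the four slots
 1: `(w, true)` [source `v = a⁻¹ w`, target `w`], 2: `(w, false)` [source `y = b⁻¹ u`, target `u = ω⁻¹ w`], 3: the a-edge `(y, true)`, source `z`, target `y`, with `N_B y = ω b y = w`, 4: the b-edge `(ω v, false)`, source `z`, target `v`, with `N_A (ω v) = a v = w`
is in `U` (the edges with `e.1 = w` are 1 and 2; an edge `(w', true)` with `N_B w' = w` has `w' = b⁻¹ ω⁻¹ w = y`; an edge `(w', false)` with `N_A w' = w` has `w' = ω a⁻¹ w = ω v`, using `a v = w`). An edge of `U` touches `w`, so `w ∉ defs W X` and `w ∉ defs W X'`. The three other edges are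
known: `X'` has the same values as `X` at their sources (`ha`, `hb`: if the source of a known edge were the source of an edge of `U` of the same kind then the two edges would be equal, since the target is determined by the source and the edge by the target). Chase in `X'` around `w`:
slot 1 unknown: `b' y = u`, `a' z = y`, `b' z = v`; the relation of `X'` at `w` (with `ω' = ω`): `a' b' a'⁻¹ b'⁻¹ ω⁻¹ w = w`, and `b'⁻¹ u = y`, `a'⁻¹ y = z`, `b' z = v`: `a' v = w = a v`. Slot 2 unknown: `a' v = w`, `b' z = v`, `a' z = y`; relation: `a' (b' (a'⁻¹ (b'⁻¹ u))) = w = a' v = a' (b' z) = a' (b' (a'⁻¹ y))`, so `b'⁻¹ u = y`,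
`b' y = u`. Slot 3 unknown: `b' y = u`, `a' v = w`, `b' z = v`: `a' b' a'⁻¹ y = w = a' b' z`, so `a'⁻¹ y = z`. Slot 4 unknown: `a' b' z = w = a' v`, `b' z = v`. So `X'` agrees with `X` at the source of the unknown edge `e`; apply the induction hypothesis to `U.erase e`
(`LinearIndepOn.mono`; the hypotheses `ha`, `hb` for `U.erase e`: a source that is not one of the sources of `U.erase e` is either not one of `U` or the source of `e`). -/

set_option autoImplicit false

open MeasureTheory

namespace H33.BO

private theorem peel_ai {V : Type} (e : Equiv.Perm V) (x : V) : e (e⁻¹ x) = x := e.apply_symm_apply x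

private theorem peel_ia {V : Type} (e : Equiv.Perm V) (x : V) : e⁻¹ (e x) = x := e.symm_apply_apply x

/-- the moves in terms of the permutations -/
private def pN {V : Type} (a b ω : Equiv.Perm V) (e : V × Bool) : V :=
  if e.2 then ω (b e.1) else a (ω⁻¹ e.1)

private theorem peel_core {V : Type} [Fintype V] [DecidableEq V] (a b a' b' ω : Equiv.Perm V) :
    ∀ (n : ℕ) (U : Finset (V × Bool)), U.card = n →
    LinearIndepOn ℚ (fun e : V × Bool =>
      (Pi.single e.1 1 - Pi.single (pN a b ω e) 1 : V → ℚ)) (U : Set (V × Bool)) →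
    (∀ e ∈ U, ∀ w, (w = e.1 ∨ w = pN a b ω e) → a (b (a⁻¹ (b⁻¹ (ω⁻¹ w)))) = w ∧
      a' (b' (a'⁻¹ (b'⁻¹ (ω⁻¹ w)))) = w) →
    (∀ v, (∀ w, (w, true) ∈ U → v ≠ a⁻¹ w) → a v = a' v) →
    (∀ v, (∀ w, (w, false) ∈ U → v ≠ b⁻¹ (ω⁻¹ w)) → b v = b' v) →
    a = a' ∧ b = b' := by
  intro n
  induction n with
  | zero =>
    intro U hU0 _ _ ha hb
    rw [Finset.card_eq_zero] at hU0
    subst hU0
    refine ⟨Equiv.ext fun v => ha v fun w hw => ?_, Equiv.ext fun v => hb v fun w hw => ?_⟩
    · exact absurd hw (Finset.notMem_empty _)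
    · exact absurd hw (Finset.notMem_empty _)
  | succ n ih =>
    intro U hUn hU hR ha hb
    have hne : U.Nonempty := Finset.card_pos.1 (by omega)
    obtain ⟨w, hw⟩ := leaf (fun e : V × Bool => e.1) (pN a b ω) U hU hne
    -- the claim
    have hclaim : ∃ e ∈ U, (e.2 = true → a (a⁻¹ e.1) = a' (a⁻¹ e.1)) ∧
        (e.2 = false → b (b⁻¹ (ω⁻¹ e.1)) = b' (b⁻¹ (ω⁻¹ e.1))) := by
      -- an edge of `U` touches `w`
      have htouch : ∃ e ∈ U, w = e.1 ∨ w = pN a b ω e := by
        by_contra hcon
        push Not at hcon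
        have h1 : (U.filter fun e => e.1 = w) = ∅ :=
          Finset.filter_eq_empty_iff.2 fun e he h => (hcon e he).1 h.symm
        have h2 : (U.filter fun e => pN a b ω e = w) = ∅ :=
          Finset.filter_eq_empty_iff.2 fun e he h => (hcon e he).2 h.symm
        rw [h1, h2, Finset.card_empty] at hw
        omega
      obtain ⟨e₀, he₀, he₀w⟩ := htouch
      obtain ⟨hr, hr'⟩ := hR e₀ he₀ w he₀w
      obtain ⟨u, hu⟩ : ∃ u, u = ω⁻¹ w := ⟨_, rfl⟩
      obtain ⟨y, hy⟩ : ∃ y, y = b⁻¹ u := ⟨_, rfl⟩
      obtain ⟨z, hz⟩ : ∃ z, z = a⁻¹ y := ⟨_, rfl⟩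
      obtain ⟨v, hv⟩ : ∃ v, v = b z := ⟨_, rfl⟩
      have e1 : ω u = w := by rw [hu, peel_ai]
      have e2 : b y = u := by rw [hy, peel_ai]
      have e3 : a z = y := by rw [hz, peel_ai]
      have e4 : a v = w := by rw [hv, hz, hy, hu]; exact hr
      rw [← hu] at hr'
      -- known values
      have k1 : (w, true) ∉ U → a' v = w := by
        intro h
        rw [← ha v ?_, e4]
        intro w' hw' hvw
        have h1 : w' = w := by rw [← e4, hvw, peel_ai]
        rw [h1] at hw'
        exact h hw'
      have k2 : (w, false) ∉ U → b' y = u := by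
        intro h
        rw [← hb y ?_, e2]
        intro w' hw' hvw
        have h1 : w' = w := by
          rw [← e1, ← e2, hvw, peel_ai, peel_ai]
        rw [h1] at hw'
        exact h hw'
      have k3 : (y, true) ∉ U → a' z = y := by
        intro h
        rw [← ha z ?_, e3]
        intro w' hw' hvw
        have h1 : w' = y := by rw [← e3, hvw, peel_ai]
        rw [h1] at hw'
        exact h hw'
      have k4 : (ω v, false) ∉ U → b' z = v := by
        intro h
        rw [← hb z ?_, hv]
        intro w' hw' hvw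
        have h1 : w' = ω v := by
          rw [hv, hvw, peel_ai, peel_ai]
        rw [h1] at hw'
        exact h hw'
      have n3 : pN a b ω (y, true) = w := by
        show ω (b y) = w
        rw [e2, e1]
      have n4 : pN a b ω (ω v, false) = w := by
        show a (ω⁻¹ (ω v)) = w
        rw [peel_ia, e4]
      -- two different edges at the same end are impossible
      have hH : ∀ e e' : V × Bool, e ∈ U → e' ∈ U → e.1 = w → e'.1 = w → e ≠ e' → False := by
        intro e e' he he' h h' hne'
        have h1 : 2 ≤ (U.filter fun e => e.1 = w).card := by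
          rw [← Finset.card_pair hne']
          refine Finset.card_le_card fun x hx => ?_
          rcases Finset.mem_insert.1 hx with rfl | hx
          · exact Finset.mem_filter.2 ⟨he, h⟩
          · rw [Finset.mem_singleton] at hx
            subst hx
            exact Finset.mem_filter.2 ⟨he', h'⟩
        omega
      have hT : ∀ e e' : V × Bool, e ∈ U → e' ∈ U → pN a b ω e = w → pN a b ω e' = w → e ≠ e' → False := by
        intro e e' he he' h h' hne'
        have h1 : 2 ≤ (U.filter fun e => pN a b ω e = w).card := by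
          rw [← Finset.card_pair hne']
          refine Finset.card_le_card fun x hx => ?_
          rcases Finset.mem_insert.1 hx with rfl | hx
          · exact Finset.mem_filter.2 ⟨he, h⟩
          · rw [Finset.mem_singleton] at hx
            subst hx
            exact Finset.mem_filter.2 ⟨he', h'⟩
        omega
      have hHT : ∀ e e' : V × Bool, e ∈ U → e' ∈ U → e.1 = w → pN a b ω e' = w → False := by
        intro e e' he he' h h'
        have h1 : 1 ≤ (U.filter fun e => e.1 = w).card :=
          Finset.card_pos.2 ⟨e, Finset.mem_filter.2 ⟨he, h⟩⟩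
        have h2 : 1 ≤ (U.filter fun e => pN a b ω e = w).card :=
          Finset.card_pos.2 ⟨e', Finset.mem_filter.2 ⟨he', h'⟩⟩
        omega
      have htf : ∀ x y : V, ((x, true) : V × Bool) ≠ (y, false) := by
        intro x y h
        exact Bool.noConfusion (congrArg Prod.snd h)
      -- the four cases
      by_cases s1 : (w, true) ∈ U
      · have q2 : b' y = u := k2 fun h => hH _ _ s1 h rfl rfl (htf _ _)
        have q3 : a' z = y := k3 fun h => hHT _ _ s1 h rfl n3
        have q4 : b' z = v := k4 fun h => hHT _ _ s1 h rfl n4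
        refine ⟨(w, true), s1, fun _ => ?_, fun h => Bool.noConfusion h⟩
        show a (a⁻¹ w) = a' (a⁻¹ w)
        have h1 : a⁻¹ w = v := by rw [← e4, peel_ia]
        have h2 : b'⁻¹ u = y := by rw [← q2, peel_ia]
        have h3 : a'⁻¹ y = z := by rw [← q3, peel_ia]
        rw [h2, h3, q4] at hr'
        rw [h1, e4, hr']
      by_cases s2 : (w, false) ∈ U
      · have q1 : a' v = w := k1 s1
        have q3 : a' z = y := k3 fun h => hHT _ _ s2 h rfl n3
        have q4 : b' z = v := k4 fun h => hHT _ _ s2 h rfl n4
        refine ⟨(w, false), s2, fun h => Bool.noConfusion h, fun _ => ?_⟩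
        show b (b⁻¹ (ω⁻¹ w)) = b' (b⁻¹ (ω⁻¹ w))
        rw [← hu, ← hy, e2]
        rw [← q1, EmbeddingLike.apply_eq_iff_eq, ← q4, EmbeddingLike.apply_eq_iff_eq,
          Equiv.Perm.inv_eq_iff_eq, q3, Equiv.Perm.inv_eq_iff_eq] at hr'
        exact hr'
      by_cases s3 : (y, true) ∈ U
      · have q1 : a' v = w := k1 s1
        have q2 : b' y = u := k2 s2
        have q4 : b' z = v := k4 fun h => hT _ _ s3 h n3 n4 (htf _ _)
        refine ⟨(y, true), s3, fun _ => ?_, fun h => Bool.noConfusion h⟩
        show a (a⁻¹ y) = a' (a⁻¹ y)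
        have h2 : b'⁻¹ u = y := by rw [← q2, peel_ia]
        rw [h2, ← q1, EmbeddingLike.apply_eq_iff_eq, ← q4, EmbeddingLike.apply_eq_iff_eq,
          Equiv.Perm.inv_eq_iff_eq] at hr'
        rw [← hz, e3]
        exact hr'
      by_cases s4 : (ω v, false) ∈ U
      · have q1 : a' v = w := k1 s1
        have q2 : b' y = u := k2 s2
        have q3 : a' z = y := k3 s3
        refine ⟨(ω v, false), s4, fun h => Bool.noConfusion h, fun _ => ?_⟩
        show b (b⁻¹ (ω⁻¹ (ω v))) = b' (b⁻¹ (ω⁻¹ (ω v)))
        rw [peel_ia, hv, peel_ia, ← hv]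
        have h2 : b'⁻¹ u = y := by rw [← q2, peel_ia]
        have h3 : a'⁻¹ y = z := by rw [← q3, peel_ia]
        rw [h2, h3, ← q1, EmbeddingLike.apply_eq_iff_eq] at hr'
        exact hr'.symm
      · exfalso
        rcases he₀w with h | h
        · rcases e₀ with ⟨x, c⟩
          cases c
          · have hx : w = x := h
            rw [← hx] at he₀
            exact s2 he₀
          · have hx : w = x := h
            rw [← hx] at he₀
            exact s1 he₀
        · rcases e₀ with ⟨x, c⟩
          cases c
          · have hx : w = a (ω⁻¹ x) := h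
            rw [← e4, EmbeddingLike.apply_eq_iff_eq] at hx
            rw [hx, peel_ai] at s4
            exact s4 he₀
          · have hx : w = ω (b x) := h
            rw [← e1, EmbeddingLike.apply_eq_iff_eq, ← e2, EmbeddingLike.apply_eq_iff_eq] at hx
            rw [hx] at s3
            exact s3 he₀
    obtain ⟨e, heU, hea, heb⟩ := hclaim
    refine ih (U.erase e) (by rw [Finset.card_erase_of_mem heU, hUn]; rfl)
      (hU.mono (by rw [Finset.coe_erase]; exact Set.sdiff_subset)) ?_ ?_ ?_
    · intro e' he'
      exact hR e' (Finset.mem_of_mem_erase he')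
    · intro v hv
      by_cases hve : e.2 = true ∧ v = a⁻¹ e.1
      · rw [hve.2]
        exact hea hve.1
      · refine ha v fun w hw => ?_
        by_cases hwe : (w, true) = e
        · intro h
          exact hve ⟨by rw [← hwe], by rw [← hwe]; exact h⟩
        · exact hv w (Finset.mem_erase.2 ⟨hwe, hw⟩)
    · intro v hv
      by_cases hve : e.2 = false ∧ v = b⁻¹ (ω⁻¹ e.1)
      · rw [hve.2]
        exact heb hve.1
      · refine hb v fun w hw => ?_
        by_cases hwe : (w, false) = e
        · intro h
          exact hve ⟨by rw [← hwe], by rw [← hwe]; exact h⟩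
        · exact hv w (Finset.mem_erase.2 ⟨hwe, hw⟩)

private theorem peel_wf {k : ℕ} (W : Wd k) {V : Type} (X X' : Lt k → Equiv.Perm V)
    (hx : ∀ i, X (some (some i)) = X' (some (some i))) : ac X (wf W) = ac X' (wf W) := by
  unfold wf
  rw [map_list_prod, map_list_prod, List.map_map, List.map_map]
  congr 1
  refine List.map_congr_left fun p _ => ?_
  show ac X (sl p) = ac X' (sl p)
  unfold sl xx
  split_ifs
  · rw [FreeGroup.lift_apply_of, FreeGroup.lift_apply_of, hx]
  · rw [map_inv, map_inv, FreeGroup.lift_apply_of, FreeGroup.lift_apply_of, hx]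

private theorem peel_nn {k : ℕ} (W : Wd k) {V : Type} (X : Lt k → Equiv.Perm V) (e : V × Bool) :
    ac X (nn W e.2) e.1 = pN (X none) (X (some none)) (ac X (wf W)) e := by
  unfold nn pN aa bb
  split_ifs
  · rw [map_mul, FreeGroup.lift_apply_of, Equiv.Perm.mul_apply]
  · rw [map_mul, map_inv, FreeGroup.lift_apply_of, Equiv.Perm.mul_apply]

private theorem peel_rel {k : ℕ} (W : Wd k) {V : Type} (X : Lt k → Equiv.Perm V) (w : V)
    (h : w ∉ defs W X) :
    X none (X (some none) ((X none)⁻¹ ((X (some none))⁻¹ ((ac X (wf W))⁻¹ w)))) = w := by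
  have h1 : ac X (rel W) w = w := by
    by_contra hcon
    exact h hcon
  unfold rel aa bb at h1
  rw [mul_inv_rev, mul_inv_rev] at h1
  simp only [map_mul, map_inv, FreeGroup.lift_apply_of, Equiv.Perm.mul_apply] at h1
  exact h1

theorem peel {k : ℕ} (W : Wd k) {V : Type} [Fintype V] [DecidableEq V] (X X' : Lt k → Equiv.Perm V)
    (hx : ∀ i, X (some (some i)) = X' (some (some i))) (U : Finset (V × Bool))
    (hU : LinearIndepOn ℚ (fun e : V × Bool =>
      (Pi.single e.1 1 - Pi.single (ac X (nn W e.2) e.1) 1 : V → ℚ)) (U : Set (V × Bool)))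
    (hd : ∀ e ∈ U, e.1 ∉ defs W X ∧ ac X (nn W e.2) e.1 ∉ defs W X)
    (hdd : defs W X = defs W X')
    (ha : ∀ v, (∀ w, (w, true) ∈ U → v ≠ (X none)⁻¹ w) → X none v = X' none v)
    (hb : ∀ v, (∀ w, (w, false) ∈ U → v ≠ (X (some none))⁻¹ ((ac X (wf W))⁻¹ w)) →
      X (some none) v = X' (some none) v) :
    X = X' := by
  have hω := peel_wf W X X' hx
  have key := peel_core (X none) (X (some none)) (X' none) (X' (some none)) (ac X (wf W)) U.card U rfl
    (by
      refine hU.congr ?_
      intro e _
      show (Pi.single e.1 1 - Pi.single (ac X (nn W e.2) e.1) 1 : V → ℚ) = _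
      rw [peel_nn])
    (by
      intro e he w hw
      have h1 : w ∉ defs W X := by
        rcases hw with h | h
        · rw [h]
          exact (hd e he).1
        · rw [h, ← peel_nn]
          exact (hd e he).2
      refine ⟨peel_rel W X w h1, ?_⟩
      rw [hdd] at h1
      have h2 := peel_rel W X' w h1
      rw [← hω] at h2
      exact h2) ha hb
  funext s
  rcases s with _ | _ | i
  · exact key.1
  · exact key.2
  · exact hx i

end H33.BO
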