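import Pool.Agent.H33.BO.Defs

/-! # BO.PiB : fixed points of an alternating word for a random matching of the segments (paper (PI))

NOTATION: `r := L.length ≥ 1`, `L = [(c_1, h_1), .., (c_r, h_r)]`, `g π := h0 * a^(c_1) h_1 * .. * a^(c_r) h_r`, `a = A π`. The path of `v`: `q_r = h_r v`, `p_r = a^(c_r) q_r`, `q_(j-1) = h_(j-1) p_j`, `p_(j-1) = a^(c_(j-1)) q_(j-1)`, .., `g π v = h0 p_1`. Steps are numbered in the order of application: step j uses `a^(c_j)`, j = r, r-1, .., 1.
Sides: B-side = range fB, W-side = range fW; `a` maps `fB (i, t)` to `fW (π i, t)`: it uses the pair `i`; `a⁻¹` maps `fW (π i, t)` to `fB (i, t)`: it uses the pair `i`. (If `v ∉ range fB` then `A π v` does not depend on `π` and is not in range fW; if `v ∉ range fW` then `(A π)⁻¹ v ∉ range fB`, independent of π.)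
PROOF. Split the pairs `(π, v)` with `g π v = v`:
(a) some `q_j` is not in the side of its step (not in range fB for `c_j = true`, not in range fW for `c_j = false`): for fixed `π` the map `v ↦ q_j` is a permutation, so at most `r (n - m ℓ)` values of `v` for every `π`.
(b) some `j` with `c_(j-1) ≠ c_j` and `p_j, h_(j-1) p_j` in the same segment (of the W-side if `c_j = true`, of the B-side otherwise): `p_j ∈ nfS (if c_j then fW else fB) h_(j-1)`, and `v ↦ p_j` is a permutation: at most `nfs fB fW L` values of `v` for every `π`.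
(c) otherwise. Let `i_j` be the pair used in step `j`. Either (c1) the pairs `i_r, .., i_1` are different, or (c2) there is a first repetition: `i_j` (j < r) equal to some `i_j'`, `j' > j`, with `i_r, .., i_(j+1)` different.
In both cases let `s` be the step before the event (`s = 1` in (c1), `s = j + 1` in (c2)): pairs `i_r..i_s` different. For fixed `v`, `s` and history: let `i = i_s`. If `c_s = true` then `p_s = fW (π i, t)`; for `i'` not among `i_r..i_s` (at least `m - r` values) let `π' = π * swap i i'`: the path of `π'` is the same up to `q_s`, and then `p'_s = fW (π i', t)`.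
If `c_s = false` then `q_s = fW (x, t)` with `x = π i`, `p_s = fB (i, t)`; for `i'` as before let `π' := π * swap i i'` as well: `π' i' = x`, so now step s uses the pair `i'`, `p'_s = fB (i', t)`, and the earlier steps are unchanged. The map `(π, i') ↦ π'` together with the old value determines `(π, i')`: the pair `(π', i)` (resp. `i'` is the pair used by `π'` at step s in the second case)
is in bijection with `(π, i')`. So (number of π with the event) `* (m - r)` is at most the number of pairs `(π', old target)` such that the old target is an exceptional one; given `π'` the history up to `q_s` is given, and the exceptional values of `p_s`: in case (c1) `h0 p_s = v`: one vertex; in case (c2): `h_(s-1) p_s` lies in a segment of one of the at most `r` used pairs (B- or W-side according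
to `c_(s-1)`; if it is the pair `i_s` itself then: for `c_(s-1) ≠ c_s` it would be case (b) [same side, same segment], excluded; for `c_(s-1) = c_s` it is the source segment of step `s`, which is known from the history) so `h_(s-1) p_s` is one of at most `r ℓ` vertices. So for every `v` the number of `π` is at most `m! (1 + r * r ℓ) / (m - r) ≤ 2 m! (1 + r^2 ℓ) / m`.
Total: `m! (r (n - m ℓ) + nfs + n (2 + 2 r^2 ℓ) / m)`. -/

set_option autoImplicit false

open MeasureTheory

namespace H33.BO

section

variable {n m ℓ : ℕ}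

private theorem pb_sgn_not {G : Type} [Group G] (a : G) (c : Bool) : sgn a (!c) = (sgn a c)⁻¹ := by
  cases c <;> simp [sgn]

private theorem pb_sgn_sgn {G : Type} [Group G] (a : G) (c : Bool) : sgn (sgn a c) c = a := by
  cases c <;> simp [sgn]

/-- the path -/
private def pbG (A : Equiv.Perm (Fin m) → Equiv.Perm (Fin n)) (π : Equiv.Perm (Fin m)) (v : Fin n) :
    List (Bool × Equiv.Perm (Fin n)) → Fin n
  | [] => v
  | p :: L => sgn (A π) p.1 (p.2 (pbG A π v L))

/-- the indices of the segments of the used pairs on the side `c` -/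
private def pbI (A : Equiv.Perm (Fin m) → Equiv.Perm (Fin n)) (lo : Bool → Fin n → Fin m × Fin ℓ)
    (π : Equiv.Perm (Fin m)) (v : Fin n) (c : Bool) : List (Bool × Equiv.Perm (Fin n)) → List (Fin m)
  | [] => []
  | p :: L => (if p.1 = c then (lo p.1 (p.2 (pbG A π v L))).1
      else sgn π p.1 (lo p.1 (p.2 (pbG A π v L))).1) :: pbI A lo π v c L

/-- all sources lie on their side -/
private def pbS (F : Bool → Fin m × Fin ℓ → Fin n) (A : Equiv.Perm (Fin m) → Equiv.Perm (Fin n))
    (π : Equiv.Perm (Fin m)) (v : Fin n) : List (Bool × Equiv.Perm (Fin n)) → Prop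
  | [] => True
  | p :: L => (∃ y, F p.1 y = p.2 (pbG A π v L)) ∧ pbS F A π v L

/-- no near fixed point at a change of sign -/
private def pbN (F : Bool → Fin m × Fin ℓ → Fin n) (A : Equiv.Perm (Fin m) → Equiv.Perm (Fin n))
    (π : Equiv.Perm (Fin m)) (v : Fin n) : List (Bool × Equiv.Perm (Fin n)) → Prop
  | [] => True
  | [_] => True
  | p :: q :: L => ¬ (p.1 ≠ q.1 ∧ pbG A π v (q :: L) ∈ nfS (F (!q.1)) p.2) ∧ pbN F A π v (q :: L)

private theorem pbG_eq (A : Equiv.Perm (Fin m) → Equiv.Perm (Fin n)) (π : Equiv.Perm (Fin m)) (v : Fin n)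
    (L : List (Bool × Equiv.Perm (Fin n))) :
    pbG A π v L = (L.map fun p => sgn (A π) p.1 * p.2).prod v := by
  induction L with
  | nil => rfl
  | cons p L ih =>
    rw [pbG, ih, List.map_cons, List.prod_cons]
    rfl

private theorem pbG_inj (A : Equiv.Perm (Fin m) → Equiv.Perm (Fin n)) (π : Equiv.Perm (Fin m))
    (L : List (Bool × Equiv.Perm (Fin n))) : Function.Injective fun v => pbG A π v L := by
  intro v w h
  simp only [pbG_eq] at h
  exact Equiv.injective _ h

private theorem pbI_map (A : Equiv.Perm (Fin m) → Equiv.Perm (Fin n)) (lo : Bool → Fin n → Fin m × Fin ℓ)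
    (π : Equiv.Perm (Fin m)) (v : Fin n) (L : List (Bool × Equiv.Perm (Fin n))) :
    pbI A lo π v false L = (pbI A lo π v true L).map π := by
  induction L with
  | nil => rfl
  | cons p L ih =>
    rw [pbI, pbI, List.map_cons, ih]
    congr 1
    rcases p with ⟨c, h⟩
    cases c
    · simp [sgn]
    · simp [sgn]

private theorem pbI_length (A : Equiv.Perm (Fin m) → Equiv.Perm (Fin n)) (lo : Bool → Fin n → Fin m × Fin ℓ)
    (π : Equiv.Perm (Fin m)) (v : Fin n) (c : Bool) (L : List (Bool × Equiv.Perm (Fin n))) :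
    (pbI A lo π v c L).length = L.length := by
  induction L with
  | nil => rfl
  | cons p L ih => rw [pbI, List.length_cons, ih, List.length_cons]

private theorem pbI_nodup (A : Equiv.Perm (Fin m) → Equiv.Perm (Fin n)) (lo : Bool → Fin n → Fin m × Fin ℓ)
    (π : Equiv.Perm (Fin m)) (v : Fin n) (c : Bool) (L : List (Bool × Equiv.Perm (Fin n)))
    (h : (pbI A lo π v true L).Nodup) : (pbI A lo π v c L).Nodup := by
  cases c
  · rw [pbI_map]
    exact h.map π.injective
  · exact h

/-- a modification outside the history does not change the path -/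
private theorem pb_inv (F : Bool → Fin m × Fin ℓ → Fin n) (A : Equiv.Perm (Fin m) → Equiv.Perm (Fin n))
    (hA : ∀ π c y, sgn (A π) c (F c y) = F (!c) (sgn π c y.1, y.2))
    (lo : Bool → Fin n → Fin m × Fin ℓ) (hlo : ∀ c y, lo c (F c y) = y)
    (π π' : Equiv.Perm (Fin m)) (c0 : Bool) (b z : Fin m)
    (h : sgn π' c0 = Equiv.swap b z * sgn π c0) (v : Fin n) (L : List (Bool × Equiv.Perm (Fin n)))
    (hS : pbS F A π v L) (hne : ∀ i ∈ pbI A lo π v (!c0) L, i ≠ b ∧ i ≠ z) :
    pbG A π' v L = pbG A π v L ∧ ∀ c, pbI A lo π' v c L = pbI A lo π v c L := by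
  induction L with
  | nil => exact ⟨rfl, fun _ => rfl⟩
  | cons p L ih =>
    obtain ⟨⟨y, hy⟩, hS'⟩ := hS
    rw [pbI] at hne
    obtain ⟨i1, i2⟩ := ih hS' fun i hi => hne i (List.mem_cons_of_mem _ hi)
    have hhead := hne _ List.mem_cons_self
    have hl : lo p.1 (p.2 (pbG A π v L)) = y := by rw [← hy, hlo]
    rw [hl] at hhead
    have hk : sgn π' p.1 y.1 = sgn π p.1 y.1 := by
      by_cases hp : p.1 = !c0
      · rw [if_pos hp] at hhead
        have e1 : sgn π' p.1 = sgn π p.1 * Equiv.swap b z := by
          rw [hp, pb_sgn_not, pb_sgn_not, h, mul_inv_rev, Equiv.swap_inv]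
        rw [e1, Equiv.Perm.mul_apply, Equiv.swap_apply_of_ne_of_ne hhead.1 hhead.2]
      · rw [if_neg hp] at hhead
        have hp' : p.1 = c0 := by
          revert hp
          cases p.1 <;> cases c0 <;> simp
        rw [hp'] at hhead ⊢
        rw [h, Equiv.Perm.mul_apply, Equiv.swap_apply_of_ne_of_ne hhead.1 hhead.2]
    refine ⟨?_, fun c => ?_⟩
    · rw [pbG, pbG, i1, ← hy, hA, hA, hk]
    · rw [pbI, pbI, i1, i2 c, hl, hk]

/-- the counting lemma -/
private theorem pb_count (F : Bool → Fin m × Fin ℓ → Fin n)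
    (A : Equiv.Perm (Fin m) → Equiv.Perm (Fin n))
    (hA : ∀ π c y, sgn (A π) c (F c y) = F (!c) (sgn π c y.1, y.2))
    (lo : Bool → Fin n → Fin m × Fin ℓ) (hlo : ∀ c y, lo c (F c y) = y)
    (q : Bool × Equiv.Perm (Fin n)) (K : List (Bool × Equiv.Perm (Fin n))) (v : Fin n)
    (X : Equiv.Perm (Fin m) → Finset (Fin n)) (e : ℕ) (hX : ∀ π, (X π).card ≤ e)
    (hinv : ∀ π π', pbG A π' v K = pbG A π v K →
      (∀ c, pbI A lo π' v c K = pbI A lo π v c K) → X π' = X π)
    (E : Finset (Equiv.Perm (Fin m)))
    (hE : ∀ π ∈ E, pbS F A π v (q :: K) ∧ (pbI A lo π v true (q :: K)).Nodup ∧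
      pbG A π v (q :: K) ∈ X π) :
    E.card * (m - (K.length + 1)) ≤ e * m.factorial := by
  classical
  have e1 : E.card * (m - (K.length + 1)) =
      (E.sigma fun π => Finset.univ \ (pbI A lo π v (!q.1) (q :: K)).toFinset).card := by
    rw [Finset.card_sigma, Finset.sum_congr rfl (g := fun _ => m - (K.length + 1)),
      Finset.sum_const, smul_eq_mul]
    intro π hπ
    rw [Finset.card_sdiff_of_subset (Finset.subset_univ _), Finset.card_univ, Fintype.card_fin,
      List.toFinset_card_of_nodup (pbI_nodup A lo π v _ _ (hE π hπ).2.1), pbI_length,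
      List.length_cons]
  have e2 : ((Finset.univ : Finset (Equiv.Perm (Fin m))).sigma fun π => X π).card ≤
      e * m.factorial := by
    rw [Finset.card_sigma]
    refine (Finset.sum_le_card_nsmul _ _ e fun π _ => hX π).trans ?_
    rw [smul_eq_mul, Finset.card_univ, Fintype.card_perm, Fintype.card_fin, mul_comm]
  rw [e1]
  -- the modification
  have key : ∀ π ∈ E, ∀ z, z ∉ pbI A lo π v (!q.1) (q :: K) →
      ∃ y, F q.1 y = q.2 (pbG A π v K) ∧ pbG A π v (q :: K) = F (!q.1) (sgn π q.1 y.1, y.2) ∧
        pbG A (sgn (Equiv.swap (sgn π q.1 (lo q.1 (q.2 (pbG A π v K))).1) z * sgn π q.1) q.1) v K =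
          pbG A π v K ∧
        (∀ c, pbI A lo (sgn (Equiv.swap (sgn π q.1 (lo q.1 (q.2 (pbG A π v K))).1) z *
          sgn π q.1) q.1) v c K = pbI A lo π v c K) ∧
        sgn (sgn (Equiv.swap (sgn π q.1 (lo q.1 (q.2 (pbG A π v K))).1) z * sgn π q.1) q.1) q.1
          y.1 = z := by
    intro π hπ z hz
    obtain ⟨⟨⟨y, hy⟩, hS⟩, hnd, -⟩ := hE π hπ
    have hnd' := pbI_nodup A lo π v (!q.1) _ hnd
    have hl : lo q.1 (q.2 (pbG A π v K)) = y := by rw [← hy, hlo]
    rw [pbI, if_neg (by cases q.1 <;> simp), hl] at hz hnd'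
    rw [List.nodup_cons] at hnd'
    rw [hl]
    have hi := pb_inv F A hA lo hlo π
      (sgn (Equiv.swap (sgn π q.1 y.1) z * sgn π q.1) q.1) q.1 (sgn π q.1 y.1) z
      (pb_sgn_sgn _ _) v K hS (fun i hi => ⟨fun h => hnd'.1 (h ▸ hi), fun h => hz
        (List.mem_cons_of_mem _ (h ▸ hi))⟩)
    refine ⟨y, hy, by rw [pbG, ← hy, hA], hi.1, hi.2, ?_⟩
    rw [pb_sgn_sgn, Equiv.Perm.mul_apply, Equiv.swap_apply_left]
  refine le_trans (Finset.card_le_card_of_injOn (fun p => (⟨sgn (Equiv.swap (sgn p.1 q.1
    (lo q.1 (q.2 (pbG A p.1 v K))).1) p.2 * sgn p.1 q.1) q.1, pbG A p.1 v (q :: K)⟩ :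
      (_ : Equiv.Perm (Fin m)) × Fin n)) ?_ ?_) e2
  · rintro ⟨π, z⟩ hp
    rw [Finset.mem_coe, Finset.mem_sigma] at hp
    obtain ⟨hπ, hz⟩ := hp
    simp only [Finset.mem_sdiff, Finset.mem_univ, true_and, List.mem_toFinset] at hz
    obtain ⟨y, -, -, h1, h2, -⟩ := key π hπ z hz
    rw [Finset.mem_coe, Finset.mem_sigma]
    refine ⟨Finset.mem_univ _, ?_⟩
    simp only
    rw [hinv π _ h1 h2]
    exact (hE π hπ).2.2
  · rintro ⟨π, z⟩ hp ⟨π', z'⟩ hp' h
    rw [Finset.mem_coe, Finset.mem_sigma] at hp hp'
    obtain ⟨hπ, hz⟩ := hp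
    obtain ⟨hπ', hz'⟩ := hp'
    simp only [Finset.mem_sdiff, Finset.mem_univ, true_and, List.mem_toFinset] at hz hz'
    obtain ⟨y, a1, a2, a3, a4, a5⟩ := key π hπ z hz
    obtain ⟨y', b1, b2, b3, b4, b5⟩ := key π' hπ' z' hz'
    have h1 : sgn (Equiv.swap (sgn π q.1 (lo q.1 (q.2 (pbG A π v K))).1) z * sgn π q.1) q.1 =
        sgn (Equiv.swap (sgn π' q.1 (lo q.1 (q.2 (pbG A π' v K))).1) z' * sgn π' q.1) q.1 :=
      congrArg Sigma.fst h
    have h2 : pbG A π v (q :: K) = pbG A π' v (q :: K) := congrArg Sigma.snd h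
    have h3 : pbG A π v K = pbG A π' v K := by rw [← a3, ← b3, h1]
    have h4 : y = y' := by
      rw [← hlo q.1 y, ← hlo q.1 y', a1, b1, h3]
    subst h4
    have h5 : sgn π q.1 y.1 = sgn π' q.1 y.1 := by
      have h6 : (sgn π q.1 y.1, y.2) = (sgn π' q.1 y.1, y.2) := by
        rw [← hlo (!q.1) (sgn π q.1 y.1, y.2), ← hlo (!q.1) (sgn π' q.1 y.1, y.2), ← a2, ← b2, h2]
      exact congrArg Prod.fst h6
    have h6 : z = z' := by rw [← a5, ← b5, h1]
    subst h6
    have hl : lo q.1 (q.2 (pbG A π v K)) = y := by rw [← a1, hlo]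
    have hl' : lo q.1 (q.2 (pbG A π' v K)) = y := by rw [← b1, hlo]
    rw [hl, hl'] at h1
    have h7 : Equiv.swap (sgn π q.1 y.1) z * sgn π q.1 =
        Equiv.swap (sgn π' q.1 y.1) z * sgn π' q.1 := by
      rw [← pb_sgn_sgn (Equiv.swap (sgn π q.1 y.1) z * sgn π q.1) q.1, h1, pb_sgn_sgn]
    rw [h5] at h7
    have h8 : sgn π q.1 = sgn π' q.1 := mul_left_cancel h7
    have h9 : π = π' := by rw [← pb_sgn_sgn π q.1, h8, pb_sgn_sgn]
    subst h9
    rfl

open Classical in
/-- repetitions of a pair -/
private theorem pb_rep (F : Bool → Fin m × Fin ℓ → Fin n)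
    (A : Equiv.Perm (Fin m) → Equiv.Perm (Fin n))
    (hA : ∀ π c y, sgn (A π) c (F c y) = F (!c) (sgn π c y.1, y.2))
    (lo : Bool → Fin n → Fin m × Fin ℓ) (hlo : ∀ c y, lo c (F c y) = y) (v : Fin n)
    (r : ℕ) : ∀ L : List (Bool × Equiv.Perm (Fin n)), L.length ≤ r →
    (Finset.univ.filter fun π => pbS F A π v L ∧ pbN F A π v L ∧
      ¬ (pbI A lo π v true L).Nodup).card * (m - r) ≤ L.length * (r * ℓ) * m.factorial := by
  intro L
  induction L with
  | nil =>
    intro _
    rw [Finset.filter_false_of_mem, Finset.card_empty, zero_mul]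
    · exact Nat.zero_le _
    · intro π _ h
      exact h.2.2 List.nodup_nil
  | cons p L ih =>
    intro hL
    rw [List.length_cons] at hL
    rcases L with _ | ⟨q, K⟩
    · rw [Finset.filter_false_of_mem, Finset.card_empty, zero_mul]
      · exact Nat.zero_le _
      · intro π _ h
        exact h.2.2 (List.nodup_singleton _)
    · have ih' := ih (by omega)
      rw [List.length_cons] at hL
      set X : Equiv.Perm (Fin m) → Finset (Fin n) := fun π =>
        ((insert (lo q.1 (q.2 (pbG A π v K))).1 (pbI A lo π v p.1 K).toFinset) ×ˢ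
          (Finset.univ : Finset (Fin ℓ))).image fun y => p.2.symm (F p.1 y) with hXdef
      have hX : ∀ π, (X π).card ≤ (K.length + 1) * ℓ := by
        intro π
        rw [hXdef]
        refine Finset.card_image_le.trans ?_
        rw [Finset.card_product, Finset.card_univ, Fintype.card_fin]
        refine Nat.mul_le_mul_right _ ((Finset.card_insert_le _ _).trans ?_)
        refine Nat.succ_le_succ ((List.toFinset_card_le _).trans ?_)
        rw [pbI_length]
      have hc := pb_count F A hA lo hlo q K v X ((K.length + 1) * ℓ) hX (by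
          intro π π' h1 h2
          simp only [hXdef, h1, h2 p.1])
        (Finset.univ.filter fun π => pbS F A π v (p :: q :: K) ∧ pbN F A π v (p :: q :: K) ∧
          (pbI A lo π v true (q :: K)).Nodup ∧ ¬ (pbI A lo π v true (p :: q :: K)).Nodup) (by
          intro π hπ
          rw [Finset.mem_filter] at hπ
          obtain ⟨-, ⟨⟨y, hy⟩, hS⟩, ⟨hN, -⟩, hnd, hrep⟩ := hπ
          refine ⟨hS, hnd, ?_⟩
          have hl : lo p.1 (p.2 (pbG A π v (q :: K))) = y := by rw [← hy, hlo]
          rw [pbI, List.nodup_cons, not_and_or, not_not, hl] at hrep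
          have hmem : (if p.1 = true then y.1 else sgn π p.1 y.1) ∈
              pbI A lo π v true (q :: K) := hrep.resolve_right fun h => h hnd
          have hmem2 : y.1 ∈ pbI A lo π v p.1 (q :: K) := by
            cases hp : p.1
            · rw [hp] at hmem
              rw [pbI_map]
              refine List.mem_map.2 ⟨_, hmem, ?_⟩
              simp [sgn]
            · rw [hp] at hmem
              simpa using hmem
          obtain ⟨⟨w, hw⟩, hS2⟩ := hS
          have hlw : lo q.1 (q.2 (pbG A π v K)) = w := by rw [← hw, hlo]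
          have hy2 : y.1 = w.1 ∨ y.1 ∈ pbI A lo π v p.1 K := by
            rw [pbI, List.mem_cons, hlw] at hmem2
            rcases hmem2 with h | h
            · by_cases hqp : q.1 = p.1
              · rw [if_pos hqp] at h
                exact Or.inl h
              · exfalso
                rw [if_neg hqp] at h
                have hpq : p.1 = !q.1 := by
                  revert hqp
                  cases q.1 <;> cases p.1 <;> simp
                refine hN ⟨fun h' => hqp h'.symm, sgn π q.1 w.1, w.2, y.2, ?_, ?_⟩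
                · rw [pbG, ← hw, hA]
                · rw [← hy, ← hpq, ← h]
            · exact Or.inr h
          rw [hXdef, Finset.mem_image]
          refine ⟨y, ?_, ?_⟩
          · rw [Finset.mem_product, hlw, Finset.mem_insert, List.mem_toFinset]
            exact ⟨hy2, Finset.mem_univ _⟩
          · rw [hy, Equiv.symm_apply_apply])
      have hsub : (Finset.univ.filter fun π => pbS F A π v (p :: q :: K) ∧
          pbN F A π v (p :: q :: K) ∧ ¬ (pbI A lo π v true (p :: q :: K)).Nodup) ⊆
          (Finset.univ.filter fun π => pbS F A π v (q :: K) ∧ pbN F A π v (q :: K) ∧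
            ¬ (pbI A lo π v true (q :: K)).Nodup) ∪
          (Finset.univ.filter fun π => pbS F A π v (p :: q :: K) ∧ pbN F A π v (p :: q :: K) ∧
            (pbI A lo π v true (q :: K)).Nodup ∧
              ¬ (pbI A lo π v true (p :: q :: K)).Nodup) := by
        intro π hπ
        rw [Finset.mem_filter] at hπ
        rw [Finset.mem_union, Finset.mem_filter, Finset.mem_filter]
        by_cases h : (pbI A lo π v true (q :: K)).Nodup
        · exact Or.inr ⟨Finset.mem_univ _, hπ.2.1, hπ.2.2.1, h, hπ.2.2.2⟩
        · exact Or.inl ⟨Finset.mem_univ _, hπ.2.1.2, hπ.2.2.1.2, h⟩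
      have h1 := (Finset.card_le_card hsub).trans (Finset.card_union_le _ _)
      refine (Nat.mul_le_mul_right (m - r) h1).trans ?_
      rw [add_mul, List.length_cons, List.length_cons]
      rw [List.length_cons] at ih'
      have h2 : (Finset.univ.filter fun π => pbS F A π v (p :: q :: K) ∧
          pbN F A π v (p :: q :: K) ∧ (pbI A lo π v true (q :: K)).Nodup ∧
            ¬ (pbI A lo π v true (p :: q :: K)).Nodup).card * (m - r) ≤
            r * ℓ * m.factorial := by
        refine le_trans (Nat.mul_le_mul_left _ (by omega : m - r ≤ m - (K.length + 1))) (hc.trans ?_)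
        exact Nat.mul_le_mul_right _ (Nat.mul_le_mul_right _ (by omega))
      calc _ ≤ (K.length + 1) * (r * ℓ) * m.factorial + r * ℓ * m.factorial :=
            Nat.add_le_add ih' h2
        _ = (K.length + 1 + 1) * (r * ℓ) * m.factorial := by ring

open Classical in
private theorem pb_side (F : Bool → Fin m × Fin ℓ → Fin n) (hF : ∀ c, Function.Injective (F c))
    (A : Equiv.Perm (Fin m) → Equiv.Perm (Fin n)) (π : Equiv.Perm (Fin m)) :
    ∀ L : List (Bool × Equiv.Perm (Fin n)),
      (Finset.univ.filter fun v => ¬ pbS F A π v L).card ≤ L.length * (n - m * ℓ) := by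
  intro L
  induction L with
  | nil =>
    rw [Finset.filter_false_of_mem, Finset.card_empty]
    · exact Nat.zero_le _
    · intro v _ h
      exact h trivial
  | cons p L ih =>
    have hsub : (Finset.univ.filter fun v => ¬ pbS F A π v (p :: L)) ⊆
        (Finset.univ.filter fun v => ¬ pbS F A π v L) ∪
        (Finset.univ.filter fun v => ¬ ∃ y, F p.1 y = p.2 (pbG A π v L)) := by
      intro v hv
      rw [Finset.mem_filter, pbS, not_and_or] at hv
      rw [Finset.mem_union, Finset.mem_filter, Finset.mem_filter]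
      rcases hv.2 with h | h
      · exact Or.inr ⟨Finset.mem_univ _, h⟩
      · exact Or.inl ⟨Finset.mem_univ _, h⟩
    have h2 : (Finset.univ.filter fun v => ¬ ∃ y, F p.1 y = p.2 (pbG A π v L)).card ≤
        n - m * ℓ := by
      have h3 : (Finset.univ \ (Finset.univ.image (F p.1))).card = n - m * ℓ := by
        rw [Finset.card_sdiff_of_subset (Finset.subset_univ _), Finset.card_univ,
          Fintype.card_fin, Finset.card_image_of_injective _ (hF p.1), Finset.card_univ,
          Fintype.card_prod, Fintype.card_fin, Fintype.card_fin]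
      rw [← h3]
      refine Finset.card_le_card_of_injOn (fun v => p.2 (pbG A π v L)) ?_ ?_
      · intro v hv
        rw [Finset.mem_coe, Finset.mem_filter] at hv
        rw [Finset.mem_coe, Finset.mem_sdiff, Finset.mem_image]
        refine ⟨Finset.mem_univ _, fun h => hv.2 ?_⟩
        obtain ⟨y, -, hy⟩ := h
        exact ⟨y, hy⟩
      · intro v _ w _ h
        exact pbG_inj A π L (p.2.injective h)
    refine (Finset.card_le_card hsub).trans ((Finset.card_union_le _ _).trans ?_)
    rw [List.length_cons, Nat.succ_mul]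
    exact Nat.add_le_add ih h2

open Classical in
private theorem pb_near (fB fW : Fin m × Fin ℓ → Fin n)
    (A : Equiv.Perm (Fin m) → Equiv.Perm (Fin n)) (π : Equiv.Perm (Fin m)) :
    ∀ L : List (Bool × Equiv.Perm (Fin n)),
      (Finset.univ.filter fun v => ¬ pbN (fun c => if c then fB else fW) A π v L).card ≤
        nfs fB fW L := by
  intro L
  induction L with
  | nil =>
    rw [Finset.filter_false_of_mem, Finset.card_empty]
    · exact Nat.zero_le _
    · intro v _ h
      exact h trivial
  | cons p L ih =>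
    rcases L with _ | ⟨q, K⟩
    · rw [Finset.filter_false_of_mem, Finset.card_empty]
      · exact Nat.zero_le _
      · intro v _ h
        exact h trivial
    · have hsub : (Finset.univ.filter fun v =>
          ¬ pbN (fun c => if c then fB else fW) A π v (p :: q :: K)) ⊆
          (Finset.univ.filter fun v => p.1 ≠ q.1 ∧ pbG A π v (q :: K) ∈
            nfS (if q.1 then fW else fB) p.2) ∪
          (Finset.univ.filter fun v => ¬ pbN (fun c => if c then fB else fW) A π v (q :: K)) := by
        intro v hv
        rw [Finset.mem_filter, pbN, not_and_or, not_not] at hv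
        rw [Finset.mem_union, Finset.mem_filter, Finset.mem_filter]
        rcases hv.2 with h | h
        · refine Or.inl ⟨Finset.mem_univ _, h.1, ?_⟩
          have h2 := h.2
          cases hq : q.1
          · rw [hq] at h2
            simpa using h2
          · rw [hq] at h2
            simpa using h2
        · exact Or.inr ⟨Finset.mem_univ _, h⟩
      have h2 : (Finset.univ.filter fun v => p.1 ≠ q.1 ∧ pbG A π v (q :: K) ∈
            nfS (if q.1 then fW else fB) p.2).card ≤
          if p.1 ≠ q.1 then (nfS (if q.1 then fW else fB) p.2).ncard else 0 := by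
        by_cases hpq : p.1 ≠ q.1
        · rw [if_pos hpq, Set.ncard_eq_toFinset_card']
          refine Finset.card_le_card_of_injOn (fun v => pbG A π v (q :: K)) ?_ ?_
          · intro v hv
            rw [Finset.mem_coe, Finset.mem_filter] at hv
            rw [Finset.mem_coe, Set.mem_toFinset]
            exact hv.2.2
          · intro v _ w _ h
            exact pbG_inj A π _ h
        · rw [if_neg hpq, Finset.filter_false_of_mem, Finset.card_empty]
          intro v _ h
          exact hpq h.1
      refine (Finset.card_le_card hsub).trans ((Finset.card_union_le _ _).trans ?_)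
      rw [nfs]
      exact Nat.add_le_add h2 ih

end

theorem pi_bd {n m ℓ : ℕ} (fB fW : Fin m × Fin ℓ → Fin n) (hB : Function.Injective fB)
    (hW : Function.Injective fW) (A : Equiv.Perm (Fin m) → Equiv.Perm (Fin n)) (hA : fam fB fW A)
    (h0 : Equiv.Perm (Fin n)) (L : List (Bool × Equiv.Perm (Fin n))) (hL : L ≠ []) (hm : 2 * L.length ≤ m) :
    ∑ π : Equiv.Perm (Fin m),
        ((Finset.univ.filter fun v => (h0 * (L.map fun p => sgn (A π) p.1 * p.2).prod) v = v).card : ℝ) ≤
      (m.factorial : ℝ) * ((L.length : ℝ) * ((n : ℝ) - m * ℓ) + nfs fB fW L +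
        n * (2 + 2 * (L.length : ℝ) ^ 2 * ℓ) / m) := by
  classical
  have hr1 : 1 ≤ L.length := List.length_pos_iff.2 hL
  have hm0 : (0 : ℝ) < m := by
    have : 0 < m := by omega
    exact_mod_cast this
  have hmn : m * ℓ ≤ n := by
    have := Fintype.card_le_of_injective fB hB
    simpa using this
  have hmnR : (m : ℝ) * ℓ ≤ n := by exact_mod_cast hmn
  have hcardP : (Finset.univ : Finset (Equiv.Perm (Fin m))).card = m.factorial := by
    rw [Finset.card_univ, Fintype.card_perm, Fintype.card_fin]
  rcases Nat.eq_zero_or_pos ℓ with h0l | hl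
  · -- no segments
    subst h0l
    have h1 : ∀ π ∈ (Finset.univ : Finset (Equiv.Perm (Fin m))),
        ((Finset.univ.filter fun v => (h0 * (L.map fun p => sgn (A π) p.1 * p.2).prod) v = v).card : ℝ) ≤
          n := by
      intro π _
      have := Finset.card_le_univ (Finset.univ.filter fun v =>
        (h0 * (L.map fun p => sgn (A π) p.1 * p.2).prod) v = v)
      rw [Fintype.card_fin] at this
      exact_mod_cast this
    refine (Finset.sum_le_card_nsmul _ _ _ h1).trans ?_
    rw [hcardP, nsmul_eq_mul]
    refine mul_le_mul_of_nonneg_left ?_ (Nat.cast_nonneg _)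
    have h2 : (1 : ℝ) ≤ L.length := by exact_mod_cast hr1
    have h3 : (0 : ℝ) ≤ n := Nat.cast_nonneg _
    have h4 : (0 : ℝ) ≤ nfs fB fW L := Nat.cast_nonneg _
    have h5 : (0 : ℝ) ≤ n * (2 + 2 * (L.length : ℝ) ^ 2 * ((0 : ℕ) : ℝ)) / m := by positivity
    have h6 : (n : ℝ) ≤ L.length * ((n : ℝ) - m * ((0 : ℕ) : ℝ)) := by
      push_cast
      nlinarith
    refine h6.trans ?_
    rw [add_assoc]
    exact le_add_of_nonneg_right (add_nonneg h4 h5)
  have : Nonempty (Fin m × Fin ℓ) := ⟨(⟨0, by omega⟩, ⟨0, hl⟩)⟩
  set F : Bool → Fin m × Fin ℓ → Fin n := fun c => if c then fB else fW with hFdef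
  have hF : ∀ c, Function.Injective (F c) := by
    intro c
    cases c
    · exact hW
    · exact hB
  have hA' : ∀ π c y, sgn (A π) c (F c y) = F (!c) (sgn π c y.1, y.2) := by
    intro π c y
    cases c
    · have h1 : A π (fB (π⁻¹ y.1, y.2)) = fW y := by
        rw [hA.1 π (π⁻¹ y.1, y.2)]
        simp
      change (A π)⁻¹ (fW y) = fB (π⁻¹ y.1, y.2)
      rw [← h1]
      exact Equiv.symm_apply_apply _ _
    · exact hA.1 π y
  set lo : Bool → Fin n → Fin m × Fin ℓ := fun c => Function.invFun (F c) with hlodef
  have hlo : ∀ c y, lo c (F c y) = y := fun c y => Function.leftInverse_invFun (hF c) y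
  -- splitting
  have hsplit : ∑ π : Equiv.Perm (Fin m),
        ((Finset.univ.filter fun v => (h0 * (L.map fun p => sgn (A π) p.1 * p.2).prod) v = v).card : ℝ) ≤
      ∑ _π : Equiv.Perm (Fin m), ((L.length : ℝ) * ((n : ℝ) - m * ℓ) + nfs fB fW L) +
        ∑ v : Fin n, ((Finset.univ.filter fun π : Equiv.Perm (Fin m) => pbS F A π v L ∧
          pbN F A π v L ∧ h0 (pbG A π v L) = v).card : ℝ) := by
    have hsw : ∑ v : Fin n, ((Finset.univ.filter fun π : Equiv.Perm (Fin m) => pbS F A π v L ∧
          pbN F A π v L ∧ h0 (pbG A π v L) = v).card : ℝ) =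
        ∑ π : Equiv.Perm (Fin m), ((Finset.univ.filter fun v : Fin n => pbS F A π v L ∧
          pbN F A π v L ∧ h0 (pbG A π v L) = v).card : ℝ) := by
      simp only [Finset.card_filter, Nat.cast_sum]
      rw [Finset.sum_comm]
    rw [hsw, ← Finset.sum_add_distrib]
    refine Finset.sum_le_sum fun π _ => ?_
    have hsub : (Finset.univ.filter fun v =>
        (h0 * (L.map fun p => sgn (A π) p.1 * p.2).prod) v = v) ⊆
        ((Finset.univ.filter fun v => ¬ pbS F A π v L) ∪
          (Finset.univ.filter fun v => ¬ pbN F A π v L)) ∪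
          (Finset.univ.filter fun v : Fin n => pbS F A π v L ∧
          pbN F A π v L ∧ h0 (pbG A π v L) = v) := by
      intro v hv
      rw [Finset.mem_filter, Equiv.Perm.mul_apply, ← pbG_eq] at hv
      simp only [Finset.mem_union, Finset.mem_filter, Finset.mem_univ, true_and]
      by_cases h1 : pbS F A π v L
      · by_cases h2 : pbN F A π v L
        · exact Or.inr ⟨h1, h2, hv.2⟩
        · exact Or.inl (Or.inr h2)
      · exact Or.inl (Or.inl h1)
    have h1 := (Finset.card_le_card hsub).trans ((Finset.card_union_le _ _).trans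
      (Nat.add_le_add_right (Finset.card_union_le _ _) _))
    have h2 := pb_side F hF A π L
    have h3 := pb_near fB fW A π L
    have h4 : ((L.length * (n - m * ℓ) : ℕ) : ℝ) = (L.length : ℝ) * ((n : ℝ) - m * ℓ) := by
      rw [Nat.cast_mul, Nat.cast_sub hmn, Nat.cast_mul]
    have h5 : (((Finset.univ.filter fun v => (h0 * (L.map fun p =>
        sgn (A π) p.1 * p.2).prod) v = v).card : ℕ) : ℝ) ≤
        ((L.length * (n - m * ℓ) : ℕ) : ℝ) + nfs fB fW L +
          ((Finset.univ.filter fun v : Fin n => pbS F A π v L ∧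
          pbN F A π v L ∧ h0 (pbG A π v L) = v).card : ℝ) := by
      have h6 := h1.trans (Nat.add_le_add_right (Nat.add_le_add h2 h3) _)
      exact_mod_cast h6
    rw [h4] at h5
    exact h5
  have hv : ∀ v : Fin n, ((Finset.univ.filter fun π : Equiv.Perm (Fin m) => pbS F A π v L ∧
          pbN F A π v L ∧ h0 (pbG A π v L) = v).card : ℝ) ≤
      (m.factorial : ℝ) * ((2 + 2 * (L.length : ℝ) ^ 2 * ℓ) / m) := by
    intro v
    have hsub : (Finset.univ.filter fun π : Equiv.Perm (Fin m) => pbS F A π v L ∧
          pbN F A π v L ∧ h0 (pbG A π v L) = v) ⊆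
        (Finset.univ.filter fun π : Equiv.Perm (Fin m) => pbS F A π v L ∧
          (pbI A lo π v true L).Nodup ∧ pbG A π v L = h0.symm v) ∪
        (Finset.univ.filter fun π => pbS F A π v L ∧ pbN F A π v L ∧
          ¬ (pbI A lo π v true L).Nodup) := by
      intro π hπ
      rw [Finset.mem_filter] at hπ
      rw [Finset.mem_union, Finset.mem_filter, Finset.mem_filter]
      by_cases h : (pbI A lo π v true L).Nodup
      · exact Or.inl ⟨Finset.mem_univ _, hπ.2.1, h, (Equiv.eq_symm_apply _).2 hπ.2.2.2⟩
      · exact Or.inr ⟨Finset.mem_univ _, hπ.2.1, hπ.2.2.1, h⟩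
    have h1 := (Finset.card_le_card hsub).trans (Finset.card_union_le _ _)
    have h2 : (Finset.univ.filter fun π : Equiv.Perm (Fin m) => pbS F A π v L ∧
          (pbI A lo π v true L).Nodup ∧ pbG A π v L = h0.symm v).card * (m - L.length) ≤
        m.factorial := by
      obtain ⟨q, K, hqK⟩ := List.exists_cons_of_ne_nil hL
      have h3 := pb_count F A hA' lo hlo q K v (fun _ => {h0.symm v}) 1
        (fun _ => by rw [Finset.card_singleton]) (fun _ _ _ _ => rfl)
        (Finset.univ.filter fun π : Equiv.Perm (Fin m) => pbS F A π v L ∧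
          (pbI A lo π v true L).Nodup ∧ pbG A π v L = h0.symm v) (by
          intro π hπ
          rw [Finset.mem_filter, hqK] at hπ
          exact ⟨hπ.2.1, hπ.2.2.1, Finset.mem_singleton.2 hπ.2.2.2⟩)
      rw [one_mul] at h3
      rw [hqK, List.length_cons]
      rw [hqK] at h3
      exact h3
    have h3 := pb_rep F A hA' lo hlo v L.length L le_rfl
    have h4 : (Finset.univ.filter fun π : Equiv.Perm (Fin m) => pbS F A π v L ∧
          pbN F A π v L ∧ h0 (pbG A π v L) = v).card * (m - L.length) ≤
        m.factorial + L.length * (L.length * ℓ) * m.factorial := by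
      refine (Nat.mul_le_mul_right _ h1).trans ?_
      rw [add_mul]
      exact Nat.add_le_add h2 h3
    set x : ℕ := (Finset.univ.filter fun π : Equiv.Perm (Fin m) => pbS F A π v L ∧
          pbN F A π v L ∧ h0 (pbG A π v L) = v).card with hx
    have h5 : (x : ℝ) * ((m : ℝ) - L.length) ≤
        m.factorial + L.length * (L.length * ℓ) * m.factorial := by
      have h6 : ((m - L.length : ℕ) : ℝ) = (m : ℝ) - L.length := Nat.cast_sub (by omega)
      rw [← h6]
      exact_mod_cast h4
    have h6 : (m : ℝ) / 2 ≤ (m : ℝ) - L.length := by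
      have : 2 * (L.length : ℝ) ≤ m := by exact_mod_cast hm
      linarith
    have h7 : (x : ℝ) * ((m : ℝ) / 2) ≤
        m.factorial + L.length * (L.length * ℓ) * m.factorial :=
      (mul_le_mul_of_nonneg_left h6 (Nat.cast_nonneg _)).trans h5
    rw [← mul_div_assoc, le_div_iff₀ hm0]
    nlinarith
  refine hsplit.trans ?_
  rw [Finset.sum_const, hcardP, nsmul_eq_mul]
  refine (add_le_add_right (Finset.sum_le_sum fun v _ => hv v) _).trans ?_
  rw [Finset.sum_const, Finset.card_univ, Fintype.card_fin, nsmul_eq_mul]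
  refine le_of_eq ?_
  ring

end H33.BO
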