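import Pool.Agent.H33.BO.Defs2
import Pool.Agent.H31.BE.WordsL

/-! # BO.RepA : words for group elements

PROOF. `sym`: by definition of `SS`. `rep_ex`: `exists_word` gives a list of at most `m` letters with product `h`; every letter is `gg W g s` or its inverse, i.e. the image of `of s` or `(of s)⁻¹`: the product of these in `Fg k` has `norm ≤ m` (`FreeGroup.norm_mul_le`, `norm_of`, `norm_inv_eq`). `rp_ex`: take for `rp h` an element of minimal norm of the set of all `f` with `lift (gg W g) f = h` (1 if there is none). `mem_ball`: by induction on the reduced word: `lift (gg W g) f` is a product of `f.norm` letters (`f = FreeGroup.mk f.toWord`,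
`FreeGroup.norm = toWord.length`). `gen`: `gg W g` generates: `g (some none) = (lift g (wf W))⁻¹ * gg W g (some none)` and `lift g (wf W) = lift (gg W g) (wf W)` (only x-letters), so `lift (gg W g)` is surjective (`hg.surj`; closure or: `lift g (of s)` is in the range for all letters `s`). `cv_ex`: every letter of `SS W g` is `ll W g p` for some `p` (cases on `Finset.mem_union`). `lift_gw`, `ac_gw`: both sides are homomorphisms
(`FreeGroup.ext_hom`). `XX_inj`: `X none = XX none`, `X x_i = XX x_i`, `ac X (wf W)` depends only on the x-letters, `X (some none) = (ac X (wf W))⁻¹ * XX (some none)`. -/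

set_option autoImplicit false

open MeasureTheory H31.BE

namespace H33.BO

variable {k : ℕ} {G : Type} [Group G]

private lemma repA_wf (W W' : Wd k) : FreeGroup.lift (gw W) (wf W') = wf W' := by
  unfold wf
  rw [map_list_prod, List.map_map]
  congr 1
  refine List.map_congr_left fun p _ => ?_
  show FreeGroup.lift (gw W) (sl p) = sl p
  unfold sl xx
  split_ifs
  · simp [gw, xx]
  · simp [gw, xx]

theorem sym [DecidableEq G] (W : Wd k) (g : Lt k → G) : ∀ i, ∀ s ∈ SS W g i, s⁻¹ ∈ SS W g i := by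
  intro i s hs
  unfold SS at hs ⊢
  rcases Finset.mem_union.1 hs with h | h
  · obtain ⟨t, _, rfl⟩ := Finset.mem_image.1 h
    exact Finset.mem_union_right _ (Finset.mem_image.2 ⟨t, Finset.mem_univ _, rfl⟩)
  · obtain ⟨t, _, rfl⟩ := Finset.mem_image.1 h
    exact Finset.mem_union_left _ (Finset.mem_image.2 ⟨t, Finset.mem_univ _, (inv_inv _).symm⟩)

private lemma repA_letter [DecidableEq G] (W : Wd k) (g : Lt k → G) (a : H31.BE.Gn (SS W g)) :
    ∃ f : Fg k, f.norm ≤ 1 ∧ FreeGroup.lift (gg W g) f = gv a := by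
  have h := a.2.2
  unfold SS at h
  rcases Finset.mem_union.1 h with h | h
  · obtain ⟨t, _, ht⟩ := Finset.mem_image.1 h
    exact ⟨FreeGroup.of t, by simp, by rw [FreeGroup.lift_apply_of]; exact ht⟩
  · obtain ⟨t, _, ht⟩ := Finset.mem_image.1 h
    exact ⟨(FreeGroup.of t)⁻¹, by simp, by rw [map_inv, FreeGroup.lift_apply_of]; exact ht⟩

private lemma repA_word [DecidableEq G] (W : Wd k) (g : Lt k → G) (w : List (H31.BE.Gn (SS W g))) :
    ∃ f : Fg k, f.norm ≤ w.length ∧ FreeGroup.lift (gg W g) f = wprod w := by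
  induction w with
  | nil => exact ⟨1, by simp, by simp [wprod]⟩
  | cons a w ih =>
    obtain ⟨f, hf, hf'⟩ := ih
    obtain ⟨e, he, he'⟩ := repA_letter W g a
    refine ⟨e * f, ?_, ?_⟩
    · have := FreeGroup.norm_mul_le e f
      rw [List.length_cons]
      omega
    · rw [map_mul, he', hf']
      simp [wprod]

theorem rep_ex [DecidableEq G] (W : Wd k) (g : Lt k → G) (m : ℕ) (h : G) (hh : h ∈ ball (SS W g) m) :
    ∃ f : Fg k, f.norm ≤ m ∧ FreeGroup.lift (gg W g) f = h := by
  obtain ⟨w, hw, rfl⟩ := exists_word hh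
  obtain ⟨f, hf, hf'⟩ := repA_word W g w
  exact ⟨f, hf.trans hw, hf'⟩

theorem rp_ex [DecidableEq G] (W : Wd k) (g : Lt k → G) : ∃ rp : G → Fg k, ∀ m h, h ∈ ball (SS W g) m →
    (rp h).norm ≤ m ∧ FreeGroup.lift (gg W g) (rp h) = h := by
  classical
  have key : ∀ h : G, ∃ f : Fg k, ∀ m, h ∈ ball (SS W g) m → f.norm ≤ m ∧ FreeGroup.lift (gg W g) f = h := by
    intro h
    by_cases hx : ∃ n, h ∈ ball (SS W g) n
    · obtain ⟨f, hf, hf'⟩ := rep_ex W g (Nat.find hx) h (Nat.find_spec hx)
      exact ⟨f, fun m hm => ⟨hf.trans (Nat.find_min' hx hm), hf'⟩⟩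
    · exact ⟨1, fun m hm => absurd ⟨m, hm⟩ hx⟩
  choose rp hrp using key
  exact ⟨rp, fun m h hm => hrp h m hm⟩

theorem mem_ball [DecidableEq G] (W : Wd k) (g : Lt k → G) (f : Fg k) (m : ℕ) (hf : f.norm ≤ m) :
    FreeGroup.lift (gg W g) f ∈ ball (SS W g) m := by
  have h1 : FreeGroup.lift (gg W g) f = wprod (f.toWord.map (ll W g)) := by
    conv_lhs => rw [← FreeGroup.mk_toWord (x := f)]
    rw [FreeGroup.lift_mk]
    unfold wprod
    rw [List.map_map]
    congr 1
    refine List.map_congr_left fun p _ => ?_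
    rcases p with ⟨s, c⟩
    cases c <;> rfl
  rw [h1]
  exact wprod_mem_ball _ (by rw [List.length_map]; exact hf)

theorem cv_ex [DecidableEq G] (W : Wd k) (g : Lt k → G) (w : List (H31.BE.Gn (SS W g))) :
    ∃ w' : List (Lt k × Bool), w'.map (ll W g) = w := by
  induction w with
  | nil => exact ⟨[], rfl⟩
  | cons a w ih =>
    obtain ⟨w', hw'⟩ := ih
    have h : ∃ p, ll W g p = a := by
      obtain ⟨i, x, hx⟩ := a
      cases i
      have hx' := hx
      unfold SS at hx'
      rcases Finset.mem_union.1 hx' with h | h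
      · obtain ⟨t, _, rfl⟩ := Finset.mem_image.1 h
        exact ⟨(t, true), rfl⟩
      · obtain ⟨t, _, rfl⟩ := Finset.mem_image.1 h
        exact ⟨(t, false), rfl⟩
    obtain ⟨p, hp⟩ := h
    exact ⟨p :: w', by rw [List.map_cons, hp, hw']⟩

theorem lift_gw (W : Wd k) (g : Lt k → G) (f : Fg k) :
    FreeGroup.lift (gg W g) f = FreeGroup.lift g (FreeGroup.lift (gw W) f) := by
  have h : FreeGroup.lift (gg W g) = (FreeGroup.lift g).comp (FreeGroup.lift (gw W)) := by
    apply FreeGroup.ext_hom
    intro s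
    rw [MonoidHom.comp_apply, FreeGroup.lift_apply_of, FreeGroup.lift_apply_of]
    rfl
  rw [h]
  rfl

theorem gen [DecidableEq G] (W : Wd k) (g : Lt k → G) (hg : Pres W g) (h : G) : ∃ m, h ∈ ball (SS W g) m := by
  have hr : (FreeGroup.lift g).range ≤ (FreeGroup.lift (gg W g)).range := by
    apply FreeGroup.range_lift_le
    rintro _ ⟨s, rfl⟩
    match s with
    | none => exact ⟨FreeGroup.of none, by rw [FreeGroup.lift_apply_of]; simp [gg, gw, aa]⟩
    | some (some i) => exact ⟨FreeGroup.of (some (some i)), by rw [FreeGroup.lift_apply_of]; simp [gg, gw, xx]⟩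
    | some none =>
      refine ⟨(wf W)⁻¹ * FreeGroup.of (some none), ?_⟩
      rw [map_mul, map_inv, lift_gw, repA_wf, FreeGroup.lift_apply_of]
      show (FreeGroup.lift g (wf W))⁻¹ * FreeGroup.lift g (wf W * bb k) = g (some none)
      rw [map_mul, inv_mul_cancel_left]
      simp [bb]
  obtain ⟨f, rfl⟩ := hg.surj h
  obtain ⟨f', hf'⟩ := hr ⟨f, rfl⟩
  rw [← hf']
  exact ⟨f'.norm, mem_ball W g f' _ le_rfl⟩

theorem ac_gw (W : Wd k) {V : Type} (X : Lt k → Equiv.Perm V) (f : Fg k) :
    ac (XX W X) f = ac X (FreeGroup.lift (gw W) f) := by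
  have h : ac (XX W X) = (ac X).comp (FreeGroup.lift (gw W)) := by
    apply FreeGroup.ext_hom
    intro s
    rw [MonoidHom.comp_apply, FreeGroup.lift_apply_of, FreeGroup.lift_apply_of]
    rfl
  rw [h]
  rfl

theorem XX_inj (W : Wd k) {V : Type} (X X' : Lt k → Equiv.Perm V) (h : XX W X = XX W X') : X = X' := by
  have hw : ac X (wf W) = ac X' (wf W) := by
    have h1 := ac_gw W X (wf W)
    have h2 := ac_gw W X' (wf W)
    rw [repA_wf] at h1 h2
    rw [← h1, ← h2, h]
  funext s
  have hs := congrFun h s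
  match s with
  | none =>
    have h1 : ∀ Y : Lt k → Equiv.Perm V, XX W Y none = Y none := fun Y => by simp [XX, gw, aa]
    rw [h1, h1] at hs
    exact hs
  | some (some i) =>
    have h1 : ∀ Y : Lt k → Equiv.Perm V, XX W Y (some (some i)) = Y (some (some i)) := fun Y => by simp [XX, gw, xx]
    rw [h1, h1] at hs
    exact hs
  | some none =>
    have h1 : ∀ Y : Lt k → Equiv.Perm V, XX W Y (some none) = ac Y (wf W) * Y (some none) := fun Y => by
      simp [XX, gw, bb]
    rw [h1, h1, hw] at hs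
    exact mul_left_cancel hs

end H33.BO
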