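import Mathlib

/-! # BO.RfA : fixed points of a word in uniform random permutations (paper (RF))

NOTATION: `r = u.norm ≥ 1`, the reduced word of `u` is `u.toWord = [s_r, .., s_1]` (`s_1` is applied first); for `σ` and `v` let `v_0 = v`, `v_j = s_j v_(j-1)` (`s_j = (t, true)` acts by `σ t`, `(t, false)` by `(σ t)⁻¹`), so `lift σ u v = v_r`.
PROOF. Fix `v`. If `v_r = v_0` there is a first index `j ∈ {1..r}` with `v_j ∈ {v_0, .., v_(j-1)}` (these being different). Let `E_j` be the set of the `σ` with first coincidence `j`; claim: `card (E_j) * (n - r) ≤ r * card (all σ)`. Consider the pairs `(σ, z)`, `σ ∈ E_j`, `z ∉ {v_0..v_(j-1)}` (at least `n - r` values of `z`),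
and `σ' := ` `σ` with `σ t` replaced by `swap (v_j) z * σ t` if `s_j = (t, true)` and by `σ t * swap (v_j) z` if `s_j = (t, false)` (`Function.update`). The first `j - 1` steps use (as an edge `x -> y` of `σ t`) only edges with both ends in `{v_0..v_(j-1)}`, and none of them is the edge of `σ t` at `v_(j-1)` that is used in step `j`:
an edge of the path at `v_(j-1)` is the edge of step `j-1` (the `v_i` are different), it is used in step `j` only if `s_j = s_(j-1)⁻¹`, impossible for a reduced word. For `s_j = (t, true)` the permutation `swap (v_j) z * σ t` differs from `σ t` only at the two points with images `v_j` (this is `v_(j-1)`) and `z` (not visited); for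
`(t, false)` only at the points `v_j`... (the points whose images under the inverse are changed are `v_j, z`): so the path of `σ'` is the same up to `v_(j-1)`, and then `s_j v_(j-1) = z`. Hence `(σ', v_j)` determines `(σ, z)`: `z` is the `j`-th point of the path of `σ'` and `σ` is recovered by the same swap. `v_j` is one of the `j ≤ r` points
`v_0..v_(j-1)` of the path of `σ'`, so the number of pairs is at most `r * card`. Sum over `j ≤ r` and over `v`: `∑ σ, #fix ≤ n * r * r / (n - r) * card ≤ 2 r^2 card` as `n ≥ 2 r`. (`v_r = v_0` with `r ≥ 1`; `r ≥ 1` since `u ≠ 1`.) -/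

set_option autoImplicit false

open MeasureTheory

namespace H33.BO

section

variable {T : Type} [DecidableEq T] {n : ℕ}

/-- the permutation of a signed letter -/
private def rfAct (σ : T → Equiv.Perm (Fin n)) (x : T × Bool) : Equiv.Perm (Fin n) :=
  cond x.2 (σ x.1) (σ x.1)⁻¹

/-- the path of a point -/
private def rfPth (σ : T → Equiv.Perm (Fin n)) (s : ℕ → T × Bool) (v : Fin n) : ℕ → Fin n
  | 0 => v
  | j + 1 => rfAct σ (s j) (rfPth σ s v j)

/-- change the permutation of the letter `x` to `τ` -/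
private def rfUpd (σ : T → Equiv.Perm (Fin n)) (x : T × Bool) (τ : Equiv.Perm (Fin n)) :
    T → Equiv.Perm (Fin n) := Function.update σ x.1 (cond x.2 τ τ⁻¹)

private theorem rfAct_same (σ : T → Equiv.Perm (Fin n)) (x : T × Bool) (τ : Equiv.Perm (Fin n)) :
    rfAct (rfUpd σ x τ) x = τ := by
  unfold rfAct rfUpd
  rcases x with ⟨t, b⟩
  cases b <;> simp

private theorem rfAct_flip (σ : T → Equiv.Perm (Fin n)) (x y : T × Bool) (τ : Equiv.Perm (Fin n))
    (h1 : y.1 = x.1) (h2 : y.2 ≠ x.2) : rfAct (rfUpd σ x τ) y = τ⁻¹ := by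
  unfold rfAct rfUpd
  rcases x with ⟨t, b⟩
  rcases y with ⟨t', b'⟩
  obtain rfl : t' = t := h1
  cases b <;> cases b' <;> simp at h2 ⊢

private theorem rfAct_flip' (σ : T → Equiv.Perm (Fin n)) (x y : T × Bool)
    (h1 : y.1 = x.1) (h2 : y.2 ≠ x.2) : rfAct σ y = (rfAct σ x)⁻¹ := by
  unfold rfAct
  rcases x with ⟨t, b⟩
  rcases y with ⟨t', b'⟩
  obtain rfl : t' = t := h1
  cases b <;> cases b' <;> simp at h2 ⊢

private theorem rfAct_other (σ : T → Equiv.Perm (Fin n)) (x y : T × Bool) (τ : Equiv.Perm (Fin n))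
    (h1 : y.1 ≠ x.1) : rfAct (rfUpd σ x τ) y = rfAct σ y := by
  unfold rfAct rfUpd
  rw [Function.update_of_ne h1]

private theorem rfUpd_back (σ : T → Equiv.Perm (Fin n)) (x : T × Bool) (τ : Equiv.Perm (Fin n)) :
    rfUpd (rfUpd σ x τ) x (rfAct σ x) = σ := by
  unfold rfUpd rfAct
  rw [Function.update_idem]
  rcases x with ⟨t, b⟩
  cases b <;> simp

private theorem rfPth_congr (σ : T → Equiv.Perm (Fin n)) (s s' : ℕ → T × Bool) (v : Fin n) (k : ℕ)
    (h : ∀ i < k, s i = s' i) : rfPth σ s v k = rfPth σ s' v k := by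
  induction k with
  | zero => rfl
  | succ k ih =>
    rw [rfPth, rfPth, ih fun i hi => h i (by omega), h k (by omega)]

private theorem rfPth_list (σ : T → Equiv.Perm (Fin n)) (v : Fin n) (x0 : T × Bool)
    (W : List (T × Bool)) :
    (W.reverse.map fun x => cond x.2 (σ x.1) (σ x.1)⁻¹).prod v =
      rfPth σ (fun i => W.getD i x0) v W.length := by
  induction W using List.reverseRecOn with
  | nil => rfl
  | append_singleton W x ih =>
    rw [List.reverse_append, List.reverse_singleton, List.singleton_append, List.map_cons,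
      List.prod_cons, Equiv.Perm.mul_apply, ih, List.length_append, List.length_singleton, rfPth]
    have h1 : (W ++ [x]).getD W.length x0 = x := by simp
    have h2 : rfPth σ (fun i => (W ++ [x]).getD i x0) v W.length =
        rfPth σ (fun i => W.getD i x0) v W.length := by
      refine rfPth_congr σ _ _ v _ fun i hi => ?_
      simp only [List.getD_eq_getElem?_getD, List.getElem?_append_left hi]
    rw [h2, h1]
    rfl

/-- the modified permutations have the same path before the coincidence -/
private theorem rfPth_upd (σ : T → Equiv.Perm (Fin n)) (s : ℕ → T × Bool) (v z : Fin n) (k : ℕ)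
    (hs : ∀ i < k, (s i).1 = (s (i + 1)).1 → (s i).2 = (s (i + 1)).2)
    (hinj : Set.InjOn (rfPth σ s v) {i | i ≤ k}) (hz : ∀ i ≤ k, rfPth σ s v i ≠ z) :
    ∀ i ≤ k, rfPth (rfUpd σ (s k) (Equiv.swap (rfPth σ s v (k + 1)) z * rfAct σ (s k))) s v i =
      rfPth σ s v i := by
  intro i
  induction i with
  | zero => intro _; rfl
  | succ i ih =>
    intro hi
    rw [rfPth, ih (by omega)]
    by_cases h1 : (s i).1 = (s k).1
    · by_cases h2 : (s i).2 = (s k).2
      · have h3 : s i = s k := Prod.ext h1 h2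
        rw [h3, rfAct_same, Equiv.Perm.mul_apply, ← h3]
        have h4 : rfAct σ (s i) (rfPth σ s v i) = rfPth σ s v (i + 1) := rfl
        rw [h4]
        refine Equiv.swap_apply_of_ne_of_ne (fun h => ?_) (hz (i + 1) hi)
        have h5 : rfPth σ s v i = rfPth σ s v k := by
          have h6 : rfPth σ s v (i + 1) = rfAct σ (s i) (rfPth σ s v i) := rfl
          have h7 : rfPth σ s v (k + 1) = rfAct σ (s k) (rfPth σ s v k) := rfl
          rw [h6, h7, h3] at h
          exact (rfAct σ (s k)).injective h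
        have h6 := hinj (show i ≤ k by omega) (le_refl k) h5
        omega
      · rw [rfAct_flip σ (s k) (s i) _ h1 h2, mul_inv_rev, Equiv.swap_inv, Equiv.Perm.mul_apply,
          Equiv.swap_apply_of_ne_of_ne (fun h => ?_) (hz i (by omega)),
          ← rfAct_flip' σ (s k) (s i) h1 h2]
        · rfl
        · have h3 : rfPth σ s v (i + 1) = rfPth σ s v k := by
            have h6 : rfPth σ s v (i + 1) = rfAct σ (s i) (rfPth σ s v i) := rfl
            have h7 : rfPth σ s v (k + 1) = rfAct σ (s k) (rfPth σ s v k) := rfl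
            rw [h6, h, h7, rfAct_flip' σ (s k) (s i) h1 h2]
            exact Equiv.symm_apply_apply _ _
          have h4 := hinj (show i + 1 ≤ k by omega) (le_refl k) h3
          subst h4
          exact h2 (hs i (by omega) h1)
    · rw [rfAct_other σ _ _ _ h1]
      rfl

open Classical in
/-- the number of permutations with the first coincidence in step `k + 1` -/
private theorem rf_count [Fintype T] (s : ℕ → T × Bool) (v : Fin n) (k : ℕ) (hk : k + 1 ≤ n)
    (hs : ∀ i < k, (s i).1 = (s (i + 1)).1 → (s i).2 = (s (i + 1)).2) :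
    (Finset.univ.filter fun σ : T → Equiv.Perm (Fin n) =>
        Set.InjOn (rfPth σ s v) {i | i ≤ k} ∧ ∃ i ≤ k, rfPth σ s v i = rfPth σ s v (k + 1)).card *
      (n - (k + 1)) ≤ (k + 1) * Fintype.card (T → Equiv.Perm (Fin n)) := by
  set E := (Finset.univ.filter fun σ : T → Equiv.Perm (Fin n) =>
        Set.InjOn (rfPth σ s v) {i | i ≤ k} ∧ ∃ i ≤ k, rfPth σ s v i = rfPth σ s v (k + 1)) with hE
  have e1 : E.card * (n - (k + 1)) =
      (E.sigma fun σ => Finset.univ \ (Finset.range (k + 1)).image (rfPth σ s v)).card := by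
    rw [Finset.card_sigma, Finset.sum_congr rfl (g := fun _ => n - (k + 1)), Finset.sum_const,
      smul_eq_mul]
    intro σ hσ
    rw [hE, Finset.mem_filter] at hσ
    rw [Finset.card_sdiff_of_subset (Finset.subset_univ _), Finset.card_univ, Fintype.card_fin,
      Finset.card_image_of_injOn, Finset.card_range]
    intro i hi j hj hij
    rw [Finset.coe_range, Set.mem_Iio] at hi hj
    exact hσ.2.1 (show i ≤ k by omega) (show j ≤ k by omega) hij
  have e2 : ((Finset.univ : Finset (T → Equiv.Perm (Fin n))).sigma fun σ =>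
      (Finset.range (k + 1)).image (rfPth σ s v)).card ≤
        (k + 1) * Fintype.card (T → Equiv.Perm (Fin n)) := by
    rw [Finset.card_sigma]
    refine (Finset.sum_le_card_nsmul _ _ (k + 1) fun σ _ =>
      (Finset.card_image_le).trans (by rw [Finset.card_range])).trans ?_
    rw [smul_eq_mul, Finset.card_univ, mul_comm]
  rw [e1]
  refine le_trans (Finset.card_le_card_of_injOn (fun p => (⟨rfUpd p.1 (s k)
    (Equiv.swap (rfPth p.1 s v (k + 1)) p.2 * rfAct p.1 (s k)), rfPth p.1 s v (k + 1)⟩ :
      (_ : T → Equiv.Perm (Fin n)) × Fin n)) ?_ ?_) e2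
  · rintro ⟨σ, z⟩ hp
    rw [Finset.mem_coe, Finset.mem_sigma, hE, Finset.mem_filter] at hp
    obtain ⟨⟨-, hinj, i, hi, hi2⟩, hz⟩ := hp
    have hz' : ∀ i ≤ k, rfPth σ s v i ≠ z := by
      intro i hi h
      simp only [Finset.mem_sdiff, Finset.mem_univ, true_and, Finset.mem_image,
        Finset.mem_range, not_exists, not_and] at hz
      exact hz i (by omega) h
    rw [Finset.mem_coe, Finset.mem_sigma]
    refine ⟨Finset.mem_univ _, Finset.mem_image.2 ⟨i, Finset.mem_range.2 (by omega), ?_⟩⟩
    simp only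
    rw [rfPth_upd σ s v z k hs hinj hz' i hi, hi2]
  · rintro ⟨σ, z⟩ hp ⟨σ', z'⟩ hp' h
    rw [Finset.mem_coe, Finset.mem_sigma, hE, Finset.mem_filter] at hp hp'
    obtain ⟨⟨-, hinj, -⟩, hz⟩ := hp
    obtain ⟨⟨-, hinj', -⟩, hz'⟩ := hp'
    have hz1 : ∀ i ≤ k, rfPth σ s v i ≠ z := by
      intro i hi h
      simp only [Finset.mem_sdiff, Finset.mem_univ, true_and, Finset.mem_image,
        Finset.mem_range, not_exists, not_and] at hz
      exact hz i (by omega) h
    have hz1' : ∀ i ≤ k, rfPth σ' s v i ≠ z' := by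
      intro i hi h
      simp only [Finset.mem_sdiff, Finset.mem_univ, true_and, Finset.mem_image,
        Finset.mem_range, not_exists, not_and] at hz'
      exact hz' i (by omega) h
    have h1 : rfUpd σ (s k) (Equiv.swap (rfPth σ s v (k + 1)) z * rfAct σ (s k)) =
        rfUpd σ' (s k) (Equiv.swap (rfPth σ' s v (k + 1)) z' * rfAct σ' (s k)) :=
      congrArg Sigma.fst h
    have h2 : rfPth σ s v (k + 1) = rfPth σ' s v (k + 1) := congrArg Sigma.snd h
    have step : ∀ (τ : T → Equiv.Perm (Fin n)) (y : Fin n),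
        Set.InjOn (rfPth τ s v) {i | i ≤ k} → (∀ i ≤ k, rfPth τ s v i ≠ y) →
        rfAct (rfUpd τ (s k) (Equiv.swap (rfPth τ s v (k + 1)) y * rfAct τ (s k))) (s k)
          (rfPth (rfUpd τ (s k) (Equiv.swap (rfPth τ s v (k + 1)) y * rfAct τ (s k))) s v k) =
            y := by
      intro τ y hi hy
      rw [rfPth_upd τ s v y k hs hi hy k le_rfl, rfAct_same, Equiv.Perm.mul_apply]
      exact Equiv.swap_apply_left _ _
    have h3 : z = z' := by
      rw [← step σ z hinj hz1, ← step σ' z' hinj' hz1', h1]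
    have back : ∀ (τ : T → Equiv.Perm (Fin n)) (y : Fin n),
        rfUpd (rfUpd τ (s k) (Equiv.swap (rfPth τ s v (k + 1)) y * rfAct τ (s k))) (s k)
          (Equiv.swap (rfPth τ s v (k + 1)) y *
            rfAct (rfUpd τ (s k) (Equiv.swap (rfPth τ s v (k + 1)) y * rfAct τ (s k))) (s k)) =
              τ := by
      intro τ y
      rw [rfAct_same, ← mul_assoc, Equiv.swap_mul_self, one_mul, rfUpd_back]
    have h4 : σ = σ' := by
      rw [← back σ z, ← back σ' z', h1, h2, h3]
    subst h4 h3
    rfl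

/-- for one vertex -/
private theorem rf_vertex [Fintype T] (s : ℕ → T × Bool) (v : Fin n) (r : ℕ) (hr : 1 ≤ r)
    (hn : 2 * r ≤ n) (hs : ∀ i, i + 1 < r → (s i).1 = (s (i + 1)).1 → (s i).2 = (s (i + 1)).2) :
    (n : ℝ) * (Finset.univ.filter fun σ : T → Equiv.Perm (Fin n) => rfPth σ s v r = v).card ≤
      2 * (r : ℝ) ^ 2 * Fintype.card (T → Equiv.Perm (Fin n)) := by
  classical
  set N := Fintype.card (T → Equiv.Perm (Fin n)) with hN
  have hsub : (Finset.univ.filter fun σ : T → Equiv.Perm (Fin n) => rfPth σ s v r = v) ⊆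
      (Finset.range r).biUnion fun k => Finset.univ.filter fun σ : T → Equiv.Perm (Fin n) =>
        Set.InjOn (rfPth σ s v) {i | i ≤ k} ∧ ∃ i ≤ k, rfPth σ s v i = rfPth σ s v (k + 1) := by
    intro σ hσ
    rw [Finset.mem_filter] at hσ
    have hex : ∃ j, ∃ i < j, rfPth σ s v i = rfPth σ s v j :=
      ⟨r, 0, by omega, by rw [hσ.2]; rfl⟩
    have hle : Nat.find hex ≤ r := Nat.find_min' hex ⟨0, by omega, by rw [hσ.2]; rfl⟩
    obtain ⟨i, hi, hi2⟩ := Nat.find_spec hex
    obtain ⟨k, hk⟩ : ∃ k, Nat.find hex = k + 1 := ⟨Nat.find hex - 1, by omega⟩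
    rw [Finset.mem_biUnion]
    refine ⟨k, Finset.mem_range.2 (by omega), Finset.mem_filter.2 ⟨Finset.mem_univ _, ?_,
      i, by omega, by rw [hi2, hk]⟩⟩
    intro a ha b hb hab
    change a ≤ k at ha
    change b ≤ k at hb
    rcases lt_trichotomy a b with h | h | h
    · exact absurd ⟨a, h, hab⟩ (Nat.find_min hex (by omega))
    · exact h
    · exact absurd ⟨b, h, hab.symm⟩ (Nat.find_min hex (by omega))
  have h1 := (Finset.card_le_card hsub).trans Finset.card_biUnion_le
  have h2 : ∀ k ∈ Finset.range r, (n : ℝ) *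
      (Finset.univ.filter fun σ : T → Equiv.Perm (Fin n) =>
        Set.InjOn (rfPth σ s v) {i | i ≤ k} ∧ ∃ i ≤ k, rfPth σ s v i = rfPth σ s v (k + 1)).card ≤
        2 * r * N := by
    intro k hk
    rw [Finset.mem_range] at hk
    have h3 := rf_count s v k (by omega) fun i hi => hs i (by omega)
    rw [← hN] at h3
    have h4 : (((Finset.univ.filter fun σ : T → Equiv.Perm (Fin n) =>
        Set.InjOn (rfPth σ s v) {i | i ≤ k} ∧
          ∃ i ≤ k, rfPth σ s v i = rfPth σ s v (k + 1)).card : ℕ) : ℝ) * ((n : ℝ) - (k + 1)) ≤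
        (k + 1) * N := by
      have h5 : ((n - (k + 1) : ℕ) : ℝ) = (n : ℝ) - (k + 1) := by
        rw [Nat.cast_sub (by omega)]
        push_cast
        ring
      rw [← h5]
      exact_mod_cast h3
    set c : ℝ := (((Finset.univ.filter fun σ : T → Equiv.Perm (Fin n) =>
        Set.InjOn (rfPth σ s v) {i | i ≤ k} ∧
          ∃ i ≤ k, rfPth σ s v i = rfPth σ s v (k + 1)).card : ℕ) : ℝ) with hc
    have hc0 : 0 ≤ c := by rw [hc]; exact Nat.cast_nonneg _
    have hkr : (k : ℝ) + 1 ≤ r := by exact_mod_cast hk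
    have hrn : 2 * (r : ℝ) ≤ n := by exact_mod_cast hn
    have hN0 : (0 : ℝ) ≤ N := Nat.cast_nonneg _
    have h6 : (n : ℝ) / 2 ≤ (n : ℝ) - (k + 1) := by linarith
    have h7 : c * ((n : ℝ) / 2) ≤ r * N :=
      (mul_le_mul_of_nonneg_left h6 hc0).trans (h4.trans (mul_le_mul_of_nonneg_right hkr hN0))
    linarith
  calc (n : ℝ) * (Finset.univ.filter fun σ : T → Equiv.Perm (Fin n) =>
        rfPth σ s v r = v).card
      ≤ n * ∑ k ∈ Finset.range r, ((Finset.univ.filter fun σ : T → Equiv.Perm (Fin n) =>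
        Set.InjOn (rfPth σ s v) {i | i ≤ k} ∧
          ∃ i ≤ k, rfPth σ s v i = rfPth σ s v (k + 1)).card : ℝ) := by
        refine mul_le_mul_of_nonneg_left ?_ (Nat.cast_nonneg _)
        exact_mod_cast h1
    _ ≤ ∑ _k ∈ Finset.range r, (2 * (r : ℝ) * N) := by
        rw [Finset.mul_sum]
        exact Finset.sum_le_sum h2
    _ = 2 * (r : ℝ) ^ 2 * N := by
        rw [Finset.sum_const, Finset.card_range, nsmul_eq_mul]
        ring

end

theorem rf {T : Type} [Fintype T] [DecidableEq T] (u : FreeGroup T) (hu : u ≠ 1) (n : ℕ) (hn : 2 * u.norm ≤ n) :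
    ∑ σ : T → Equiv.Perm (Fin n), ((Finset.univ.filter fun v => FreeGroup.lift σ u v = v).card : ℝ) ≤
      2 * (u.norm : ℝ) ^ 2 * Nat.card (T → Equiv.Perm (Fin n)) := by
  classical
  have hr : 1 ≤ u.norm := by
    rcases Nat.eq_zero_or_pos u.norm with h | h
    · exact absurd (FreeGroup.norm_eq_zero.1 h) hu
    · exact h
  have hlen : u.toWord.reverse.length = u.norm := List.length_reverse
  have hne : u.toWord.reverse ≠ [] := by
    intro h
    rw [h] at hlen
    simp at hlen
    omega
  set W := u.toWord.reverse with hW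
  set x0 := W.head hne with hx0
  set s : ℕ → T × Bool := fun i => W.getD i x0 with hs
  have hlift : ∀ (σ : T → Equiv.Perm (Fin n)) (v : Fin n),
      FreeGroup.lift σ u v = rfPth σ s v u.norm := by
    intro σ v
    conv_lhs => rw [← FreeGroup.mk_toWord (x := u), FreeGroup.lift_mk]
    rw [← hlen, hs, ← rfPth_list σ v x0 W, hW, List.reverse_reverse]
  have hred : ∀ i, i + 1 < u.norm → (s i).1 = (s (i + 1)).1 → (s i).2 = (s (i + 1)).2 := by
    intro i hi h
    have h1 : FreeGroup.IsReduced u.toWord := FreeGroup.isReduced_toWord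
    have h2 : W.IsChain fun a b => b.1 = a.1 → b.2 = a.2 := by
      rw [hW, List.isChain_reverse]
      exact h1
    have h3 := h2.getElem i (by rw [hlen]; exact hi)
    have e1 : s i = W[i] := by
      rw [hs]
      exact List.getD_eq_getElem _ _ _
    have e2 : s (i + 1) = W[i + 1] := by
      rw [hs]
      exact List.getD_eq_getElem _ _ _
    rw [e1, e2] at h ⊢
    exact (h3 h.symm).symm
  have hn0 : (0 : ℝ) < n := by
    have : 0 < n := by omega
    exact_mod_cast this
  have hswap : ∑ σ : T → Equiv.Perm (Fin n),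
      ((Finset.univ.filter fun v => FreeGroup.lift σ u v = v).card : ℝ) =
      ∑ v : Fin n, ((Finset.univ.filter fun σ : T → Equiv.Perm (Fin n) =>
        rfPth σ s v u.norm = v).card : ℝ) := by
    simp only [Finset.card_filter, Nat.cast_sum, hlift]
    rw [Finset.sum_comm]
  rw [hswap, Nat.card_eq_fintype_card]
  have hv := fun v => rf_vertex (n := n) s v u.norm hr hn hred
  have h1 : (n : ℝ) * ∑ v : Fin n, ((Finset.univ.filter fun σ : T → Equiv.Perm (Fin n) =>
        rfPth σ s v u.norm = v).card : ℝ) ≤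
      n * (2 * (u.norm : ℝ) ^ 2 * Fintype.card (T → Equiv.Perm (Fin n))) := by
    rw [Finset.mul_sum]
    refine (Finset.sum_le_sum fun v _ => hv v).trans ?_
    rw [Finset.sum_const, Finset.card_univ, Fintype.card_fin, nsmul_eq_mul]
  exact le_of_mul_le_mul_left h1 hn0

end H33.BO
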