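import Pool.Agent.H33.BO.RmoJ
import Pool.Agent.H33.BO.Defs
import Pool.Agent.H31.BE.MWgt
import Pool.Agent.H31.BE.MStab
import Pool.Agent.H31.BE.EntD
import Pool.Agent.H31.BE.EntF

/-! # BO.Rmo : the random matching model (paper 3.1)

PROOF. For `z : Fin n → Pt` and a letter `s` let `M0 z s` be the permutation of `match_bij` (`V = W = Fin n`, `a v = src s (z v)`, `b v = tgt s (z v)`), `St z s := {ρ | ∀ v, src s (z (ρ v)) = src s (z v) ∧ (T s (src s (z v)) → ρ v = v)}` (a finite nonempty set).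
`Ω := {(z, ρ) | ρ s ∈ St z s}` or all `(z, ρ) : (Fin n → Pt) × (S → Perm (Fin n))` with the weight `(∏ v, p (z v)) * ∏ s, [ρ s ∈ St z s] / card (St z s)` (`wgt_measure`), `om = z`, `M s := M0 z s * ρ s` (first `ρ`), for `ρ s ∉ St z s` replace `ρ s` by 1 in the definition of `M` (so that part 4 holds for all `ω`).
(1) `ent (om, M) = ent (om, ρ)` (given `om`, `M ↔ ρ`, a.e.) `= n ∑ η (p) + ∑ z, (∏ p (z v)) ∑ s, log (card (St z s))` (entropy of a measure with weights `w`: `∑ w log (1/w)`; `ent_eq`). `rmoJ` for every letter (`hm`: the law of `src` is the law of `tgt`; `∑ q not T, π_q = ∑ t with ¬ T s (tgt s t), p t`).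
(2) `pw_marg`. (3) a point of positive weight has `p (z v) ≠ 0` for all `v`. (4) `ρ v = v`, so `M s v = M0 z s (v)`. (5) For `v` not T and `u = ρ v`: `src s (z u) = src s (z v)`, `M s v = M0 u`: the number of the unmatched `v` is at most the number of all `u` with `tgt s (z (M0 u)) ≠ src s (z u)`, at most `∑ q, |#{src s (z v) = q} - #{tgt s (z v) = q}|` (`match_bij`), and every term has
mean at most `2 √n` by (6) for `f = [src s t = q] - [tgt s t = q]` (mean `0` by `hm`). (6) `pw_dev` with `c = ∑ p f`, `B = 2`. -/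

set_option autoImplicit false

open MeasureTheory H31.BE

namespace H33.BO

/-- entropy of a product of equal weights -/
private theorem Rmo_nml {Pt : Type} [Fintype Pt] (p : Pt → ℝ) (h1 : ∑ t, p t = 1) (n : ℕ) :
    ∑ z : Fin n → Pt, Real.negMulLog (∏ v, p (z v)) = n * ∑ t, Real.negMulLog (p t) := by
  have e : ∀ z : Fin n → Pt, Real.negMulLog (∏ v, p (z v)) =
      ∑ v, (∏ u, p (z u)) * (- Real.log (p (z v))) := by
    intro z
    by_cases h : ∏ v, p (z v) = 0
    · rw [h]; simp
    · rw [Real.negMulLog, Real.log_prod (fun v _ => Finset.prod_ne_zero_iff.1 h v (Finset.mem_univ v)),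
        ← Finset.mul_sum, Finset.sum_neg_distrib]
      ring
  rw [Finset.sum_congr rfl (fun z _ => e z), Finset.sum_comm]
  have e2 : ∀ v : Fin n, ∑ z : Fin n → Pt, (∏ u, p (z u)) * (- Real.log (p (z v))) =
      ∑ t, Real.negMulLog (p t) := by
    intro v
    have := pw_marg (ι := Fin n) (α := fun _ => Pt) (fun _ => p) (fun _ => h1) v
      (fun a => - Real.log (p a))
    rw [this]
    exact Finset.sum_congr rfl (fun t _ => by rw [Real.negMulLog]; ring)
  rw [Finset.sum_congr rfl (fun v _ => e2 v)]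
  simp

private theorem Rmo_div (P : ℝ) (hP : 0 ≤ P) (N : ℕ) (hN : 0 < N) :
    (N : ℝ) * Real.negMulLog (P / N) = Real.negMulLog P + P * Real.log N := by
  have hN' : (0 : ℝ) < N := by exact_mod_cast hN
  rcases hP.eq_or_lt with h | h
  · rw [← h]; simp
  · rw [Real.negMulLog, Real.negMulLog, Real.log_div h.ne' hN'.ne']
    field_simp
    ring

/-- mean deviation, all coordinates with the same law -/
private theorem Rmo_dev {Pt : Type} [Fintype Pt] (p : Pt → ℝ) (h0 : ∀ t, 0 ≤ p t) (h1 : ∑ t, p t = 1)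
    (n : ℕ) (f : Pt → ℝ) (hf : ∀ t, |f t| ≤ 1) :
    ∑ z : Fin n → Pt, (∏ v, p (z v)) * |∑ v, f (z v) - n * ∑ t, p t * f t| ≤ 2 * Real.sqrt n := by
  have hc : |∑ t, p t * f t| ≤ 1 := by
    calc |∑ t, p t * f t| ≤ ∑ t, |p t * f t| := Finset.abs_sum_le_sum_abs _ _
      _ ≤ ∑ t, p t := by
        refine Finset.sum_le_sum (fun t _ => ?_)
        rw [abs_mul, abs_of_nonneg (h0 t)]
        have := mul_le_mul_of_nonneg_left (hf t) (h0 t)
        linarith
      _ = 1 := h1
  have h := pw_dev (ι := Fin n) (α := fun _ => Pt) (fun _ => p) (fun _ => h0) (fun _ => h1) (fun _ => f)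
    (∑ t, p t * f t) 2 (fun _ => rfl) (by
      intro _ a
      calc |f a - ∑ t, p t * f t| ≤ |f a| + |∑ t, p t * f t| := abs_sub _ _
        _ ≤ 2 := by linarith [hf a])
  rw [Fintype.card_fin] at h
  linarith

open Classical in
theorem rmodel {S Pt : Type} {Q : S → Type} [Fintype S] [Fintype Pt] [∀ s, Fintype (Q s)] (src tgt : ∀ s, Pt → Q s)
    (T : ∀ s, Q s → Prop) (p : Pt → ℝ) (h0 : ∀ t, 0 ≤ p t) (h1 : ∑ t, p t = 1)
    (hm : ∀ s q, ∑ t with src s t = q, p t = ∑ t with tgt s t = q, p t) (n : ℕ) (hn : 1 ≤ n) :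
    ∃ (Ω : Type) (_ : Finite Ω) (_ : MeasurableSpace Ω) (_ : DiscreteMeasurableSpace Ω) (P : Measure Ω)
      (_ : IsProbabilityMeasure P) (om : Ω → Fin n → Pt) (M : Ω → S → Equiv.Perm (Fin n))
      (M0 : (Fin n → Pt) → S → Equiv.Perm (Fin n)),
      (n * ((∑ t, Real.negMulLog (p t)) -
          ∑ s, ∑ q, if T s q then 0 else Real.negMulLog (∑ t with tgt s t = q, p t)) +
        (∑ s, ∑ t with ¬ T s (tgt s t), p t) * (n * Real.log n) - Fintype.card S * n ≤
          ent P (fun ω => (om ω, M ω))) ∧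
      (∀ v t, P.real {ω | om ω v = t} = p t) ∧
      (∀ᵐ ω ∂P, ∀ v, 0 < p (om ω v)) ∧
      (∀ ω s v, T s (src s (om ω v)) → M ω s v = M0 (om ω) s v) ∧
      (∀ s, ∫ ω, ({v | ¬ T s (src s (om ω v)) ∧ tgt s (om ω (M ω s v)) ≠ src s (om ω v)}.ncard : ℝ) ∂P ≤
        2 * Fintype.card (Q s) * Real.sqrt n) ∧
      (∀ f : Pt → ℝ, (∀ t, |f t| ≤ 1) →
        ∫ ω, |∑ v, f (om ω v) - n * ∑ t, p t * f t| ∂P ≤ 2 * Real.sqrt n) := by
  choose M0 hM0 using fun (z : Fin n → Pt) (s : S) =>
    match_bij (V := Fin n) (W := Fin n) (X := Q s) rfl (fun v => src s (z v)) (fun v => tgt s (z v))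
  let St : (Fin n → Pt) → S → Type := fun z s => {ρ : Equiv.Perm (Fin n) //
    ∀ v, src s (z (ρ v)) = src s (z v) ∧ (T s (src s (z v)) → ρ v = v)}
  letI : ∀ z s, Fintype (St z s) := fun z s => Subtype.fintype _
  have hne : ∀ z s, Nonempty (St z s) := fun z s => ⟨⟨1, fun v => ⟨rfl, fun _ => rfl⟩⟩⟩
  let Ω : Type := Σ z : Fin n → Pt, ∀ s, St z s
  let PP : (Fin n → Pt) → ℝ := fun z => ∏ v, p (z v)
  have hPP : ∀ z, 0 ≤ PP z := fun z => Finset.prod_nonneg (fun v _ => h0 _)
  let N : (Fin n → Pt) → ℕ := fun z => Fintype.card (∀ s, St z s)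
  have hN : ∀ z, 0 < N z := fun z => Fintype.card_pos
  let w : Ω → ℝ := fun ω => PP ω.1 / N ω.1
  have hw0 : ∀ ω, 0 ≤ w ω := fun ω => div_nonneg (hPP _) (Nat.cast_nonneg _)
  have hE : ∀ g : (Fin n → Pt) → ℝ, ∑ ω : Ω, w ω * g ω.1 = ∑ z, PP z * g z := by
    intro g
    rw [Fintype.sum_sigma]
    refine Finset.sum_congr rfl (fun z _ => ?_)
    show ∑ _ρ : (∀ s, St z s), PP z / N z * g z = _
    rw [Finset.sum_const, nsmul_eq_mul]
    have : ((Finset.univ : Finset (∀ s, St z s)).card : ℝ) = N z := rfl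
    rw [this]
    have h2 : (N z : ℝ) ≠ 0 := by exact_mod_cast (hN z).ne'
    field_simp
  have hPsum : ∑ z, PP z = 1 := pw_sum (ι := Fin n) (α := fun _ => Pt) (fun _ => p) (fun _ => h1)
  have hw1 : ∑ ω : Ω, w ω = 1 := by
    have := hE (fun _ => 1)
    simpa [hPsum] using this
  obtain ⟨mΩ, dΩ, P, pP, hP, hint⟩ := wgt_measure w hw0 hw1
  let om : Ω → Fin n → Pt := fun ω => ω.1
  let M : Ω → S → Equiv.Perm (Fin n) := fun ω s => M0 ω.1 s * (ω.2 s).1
  refine ⟨Ω, inferInstance, mΩ, dΩ, P, pP, om, M, M0, ?_, ?_, ?_, ?_, ?_, ?_⟩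
  · have hinj : Function.Injective (fun ω : Ω => (om ω, M ω)) := by
      rintro ⟨z, ρ⟩ ⟨z', ρ'⟩ h
      have h1 : z = z' := (Prod.mk.inj h).1
      subst h1
      have h2 : (fun s => M0 z s * (ρ s).1) = fun s => M0 z s * (ρ' s).1 := (Prod.mk.inj h).2
      congr 1
      funext s
      exact Subtype.ext (mul_left_cancel (congrFun h2 s))
    have hFm : Fm (fun ω : Ω => ω) := fun a => MeasurableSet.of_discrete
    have e1 : ent P (fun ω => (om ω, M ω)) = ∑ ω, Real.negMulLog (w ω) := by
      have e2 := ent_inj (P := P) hFm (fun ω : Ω => (om ω, M ω)) hinj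
      rw [e2, ent_eq]
      refine Finset.sum_congr rfl (fun ω _ => ?_)
      rw [← hP ω]
      rfl
    have e3 : ∑ ω, Real.negMulLog (w ω) = n * (∑ t, Real.negMulLog (p t)) + ∑ z, PP z * Real.log (N z) := by
      rw [Fintype.sum_sigma, ← Rmo_nml p h1 n, ← Finset.sum_add_distrib]
      refine Finset.sum_congr rfl (fun z _ => ?_)
      show ∑ _ρ : (∀ s, St z s), Real.negMulLog (PP z / N z) = _
      rw [Finset.sum_const, nsmul_eq_mul]
      exact Rmo_div (PP z) (hPP z) (N z) (hN z)
    have e4 : ∀ z, Real.log (N z) = ∑ s, Real.log (Nat.card (St z s)) := by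
      intro z
      have h3 : (N z : ℝ) = ∏ s, (Nat.card (St z s) : ℝ) := by
        have : N z = ∏ s, Nat.card (St z s) := by
          show Fintype.card (∀ s, St z s) = _
          rw [Fintype.card_pi]
          exact Finset.prod_congr rfl (fun s _ => (Nat.card_eq_fintype_card).symm)
        rw [this]
        push_cast
        rfl
      rw [h3, Real.log_prod]
      intro s _
      have : Nat.card (St z s) ≠ 0 := Nat.card_pos.ne'
      exact_mod_cast this
    have e5 : ∑ z, PP z * Real.log (N z) = ∑ s, ∑ z, PP z * Real.log (Nat.card (St z s)) := by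
      rw [Finset.sum_comm]
      refine Finset.sum_congr rfl (fun z _ => ?_)
      rw [e4, Finset.mul_sum]
    have e6 : ∀ s, (∑ t with ¬ T s (tgt s t), p t) * (n * Real.log n) -
        n * (∑ q, if T s q then 0 else Real.negMulLog (∑ t with tgt s t = q, p t)) - n ≤
        ∑ z, PP z * Real.log (Nat.card (St z s)) := by
      intro s
      have h3 := rmoJ (src s) (T s) p h0 h1 n hn
      refine le_trans (le_of_eq ?_) h3
      congr 1
      have h4 : ∀ q, (if T s q then (0 : ℝ) else (∑ t with src s t = q, p t) * (n * Real.log n) -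
          n * Real.negMulLog (∑ t with src s t = q, p t)) =
          (if T s q then 0 else ∑ t with tgt s t = q, p t) * (n * Real.log n) -
          n * (if T s q then 0 else Real.negMulLog (∑ t with tgt s t = q, p t)) := by
        intro q
        rw [hm s q]
        by_cases hT : T s q
        · rw [if_pos hT, if_pos hT, if_pos hT]; ring
        · rw [if_neg hT, if_neg hT, if_neg hT]
      rw [Finset.sum_congr rfl (fun q _ => h4 q), Finset.sum_sub_distrib, ← Finset.sum_mul, ← Finset.mul_sum]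
      congr 2
      rw [Finset.sum_filter, ← Finset.sum_fiberwise (s := Finset.univ) (g := fun t => tgt s t)]
      refine Finset.sum_congr rfl (fun q _ => ?_)
      by_cases hT : T s q
      · rw [if_pos hT]
        refine Finset.sum_eq_zero (fun t ht => ?_)
        rw [(Finset.mem_filter.1 ht).2, if_neg (not_not.2 hT)]
      · rw [if_neg hT]
        refine Finset.sum_congr rfl (fun t ht => ?_)
        rw [(Finset.mem_filter.1 ht).2, if_pos hT]
    rw [e1, e3, e5]
    have e7 := Finset.sum_le_sum (s := Finset.univ) (fun s _ => e6 s)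
    rw [Finset.sum_sub_distrib, Finset.sum_sub_distrib, ← Finset.sum_mul, ← Finset.mul_sum,
      Finset.sum_const, Finset.card_univ, nsmul_eq_mul] at e7
    linarith
  · intro v t
    have e1 : P.real {ω | om ω v = t} = ∫ ω, (if ω.1 v = t then (1 : ℝ) else 0) ∂P := by
      have : (fun ω : Ω => if ω.1 v = t then (1 : ℝ) else 0) =
          Set.indicator {ω | om ω v = t} (fun _ => (1 : ℝ)) := by
        funext ω
        by_cases h : ω.1 v = t
        · rw [if_pos h, Set.indicator_of_mem (show ω ∈ {ω | om ω v = t} from h)]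
        · rw [if_neg h, Set.indicator_of_notMem (show ω ∉ {ω | om ω v = t} from h)]
      rw [this, integral_indicator_const _ MeasurableSet.of_discrete]
      simp
    rw [e1, hint, hE (fun z => if z v = t then (1 : ℝ) else 0)]
    have e2 := pw_marg (ι := Fin n) (α := fun _ => Pt) (fun _ => p) (fun _ => h1) v
      (fun a => if a = t then (1 : ℝ) else 0)
    refine e2.trans ?_
    rw [Finset.sum_eq_single t]
    · simp
    · intro b _ hb
      simp [hb]
    · simp
  · rw [ae_iff_of_countable]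
    intro ω hω v
    rcases (h0 (om ω v)).eq_or_lt with h | h
    · exfalso
      apply hω
      have e1 : P.real {ω} = 0 := by
        rw [hP]
        show PP ω.1 / N ω.1 = 0
        have : PP ω.1 = 0 := Finset.prod_eq_zero (Finset.mem_univ v) h.symm
        rw [this, zero_div]
      rw [measureReal_def, ENNReal.toReal_eq_zero_iff] at e1
      exact e1.resolve_right (measure_ne_top _ _)
    · exact h
  · intro ω s v hT
    show M0 ω.1 s ((ω.2 s).1 v) = M0 ω.1 s v
    rw [((ω.2 s).2 v).2 hT]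
  · intro s
    have hb : ∀ ω : Ω, (({v | ¬ T s (src s (om ω v)) ∧ tgt s (om ω (M ω s v)) ≠ src s (om ω v)}.ncard : ℕ) : ℝ) ≤
        ∑ q : Q s, |(({v | src s (ω.1 v) = q}.ncard : ℝ) - ({v | tgt s (ω.1 v) = q}.ncard : ℝ))| := by
      intro ω
      refine le_trans ?_ (hM0 ω.1 s)
      have : {v | ¬ T s (src s (om ω v)) ∧ tgt s (om ω (M ω s v)) ≠ src s (om ω v)}.ncard ≤
          {v | tgt s (ω.1 (M0 ω.1 s v)) ≠ src s (ω.1 v)}.ncard := by
        refine Set.ncard_le_ncard_of_injOn (fun v => (ω.2 s).1 v) ?_ ?_ (Set.toFinite _)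
        · intro v hv
          show tgt s (ω.1 (M0 ω.1 s ((ω.2 s).1 v))) ≠ src s (ω.1 ((ω.2 s).1 v))
          rw [((ω.2 s).2 v).1]
          exact hv.2
        · intro a _ b _ h
          exact (ω.2 s).1.injective h
      exact_mod_cast this
    have h3 : ∫ ω, (({v | ¬ T s (src s (om ω v)) ∧ tgt s (om ω (M ω s v)) ≠ src s (om ω v)}.ncard : ℕ) : ℝ) ∂P ≤
        ∑ z, PP z * ∑ q : Q s, |(({v | src s (z v) = q}.ncard : ℝ) - ({v | tgt s (z v) = q}.ncard : ℝ))| := by
      rw [hint, ← hE (fun z => ∑ q : Q s, |(({v | src s (z v) = q}.ncard : ℝ) -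
        ({v | tgt s (z v) = q}.ncard : ℝ))|)]
      exact Finset.sum_le_sum (fun ω _ => mul_le_mul_of_nonneg_left (hb ω) (hw0 ω))
    refine h3.trans ?_
    have h4 : ∑ z, PP z * ∑ q : Q s, |(({v | src s (z v) = q}.ncard : ℝ) - ({v | tgt s (z v) = q}.ncard : ℝ))| =
        ∑ q : Q s, ∑ z, PP z * |(({v | src s (z v) = q}.ncard : ℝ) - ({v | tgt s (z v) = q}.ncard : ℝ))| := by
      rw [Finset.sum_comm]
      exact Finset.sum_congr rfl (fun z _ => Finset.mul_sum _ _ _)
    rw [h4]
    have h5 : ∀ q ∈ (Finset.univ : Finset (Q s)),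
        ∑ z, PP z * |(({v | src s (z v) = q}.ncard : ℝ) - ({v | tgt s (z v) = q}.ncard : ℝ))| ≤
        2 * Real.sqrt n := by
      intro q _
      have hcast : ∀ f : Fin n → Q s, ({v | f v = q}.ncard : ℝ) = ∑ v, (if f v = q then (1 : ℝ) else 0) := by
        intro f
        rw [Finset.sum_boole]
        congr 1
        rw [← Set.ncard_coe_finset]
        congr 1
        ext v
        simp
      have h6 := Rmo_dev p h0 h1 n (fun t => (if src s t = q then (1 : ℝ) else 0) -
        (if tgt s t = q then (1 : ℝ) else 0)) (by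
          intro t
          by_cases ha : src s t = q <;> by_cases hb : tgt s t = q <;> simp [ha, hb])
      have h7 : ∑ t, p t * ((if src s t = q then (1 : ℝ) else 0) - (if tgt s t = q then (1 : ℝ) else 0)) = 0 := by
        have h8 := hm s q
        rw [Finset.sum_filter, Finset.sum_filter] at h8
        simp only [mul_sub, mul_ite, mul_one, mul_zero, Finset.sum_sub_distrib]
        linarith
      rw [h7, mul_zero] at h6
      refine le_trans (le_of_eq ?_) h6
      refine Finset.sum_congr rfl (fun z _ => ?_)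
      rw [hcast (fun v => src s (z v)), hcast (fun v => tgt s (z v)), sub_zero, Finset.sum_sub_distrib]
    refine (Finset.sum_le_sum h5).trans (le_of_eq ?_)
    rw [Finset.sum_const, Finset.card_univ, nsmul_eq_mul]
    ring
  · intro f hf
    rw [hint, hE (fun z => |∑ v, f (z v) - n * ∑ t, p t * f t|)]
    exact Rmo_dev p h0 h1 n f hf

end H33.BO
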