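import Pool.Agent.H33.BO.StT
import Pool.Agent.H33.BO.Defs
import Pool.Agent.H31.BE.MWgt

/-! # BO.RmoJ : expected number of the matching permutations

PROOF. `m_q(z) := Nat.card {v // src (z v) = q}`. `stabT` for `v ↦ src (z v)` and `log_fact`: `log (card ..) ≥ ∑ q not T, log m_q! ≥ ∑ q not T, (m_q log m_q - m_q)`, `∑ q m_q = n`. `E` = expectation with the weights `∏ v, p (z v)` (sum 1: `pw_sum`): Jensen for the convex function `x log x` (`Real.convexOn_mul_log`, `ConvexOn.map_sum_le`): `E (m_q log m_q) ≥ (E m_q) log (E m_q)`, `E m_q = n π_q`, `π_q = ∑ t with src t = q, p t` (`pw_marg` for every coordinate).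
`n π log (n π) = n π log n - n negMulLog π` (`π = 0` trivial). -/

set_option autoImplicit false

open MeasureTheory H31.BE

namespace H33.BO

private lemma rmoJ_scalar {n : ℕ} (hn : 1 ≤ n) {π : ℝ} (h : 0 ≤ π) :
    π * (n * Real.log n) - n * Real.negMulLog π = (n * π) * Real.log (n * π) := by
  have hn0 : (n : ℝ) ≠ 0 := by
    have : (0 : ℝ) < n := by exact_mod_cast hn
    exact this.ne'
  rcases h.eq_or_lt with h | h
  · subst h
    simp
  · rw [Real.log_mul hn0 h.ne', Real.negMulLog]
    ring

open Classical in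
private lemma rmoJ_card {n : ℕ} {Q : Type} (f : Fin n → Q) (q : Q) :
    ((Nat.card {v // f v = q} : ℕ) : ℝ) = ∑ v, (if f v = q then (1 : ℝ) else 0) := by
  rw [Nat.card_eq_fintype_card, Fintype.card_subtype, Finset.sum_boole]

open Classical in
private lemma rmoJ_tot {n : ℕ} {Q : Type} [Fintype Q] (f : Fin n → Q) :
    ∑ q, ((Nat.card {v // f v = q} : ℕ) : ℝ) = n := by
  simp_rw [rmoJ_card]
  rw [Finset.sum_comm]
  simp

open Classical in
private lemma rmoJ_pt {Pt Q : Type} [Fintype Pt] [Fintype Q] (src : Pt → Q) (T : Q → Prop) (n : ℕ)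
    (z : Fin n → Pt) :
    (∑ q, if T q then 0 else ((Nat.card {v // src (z v) = q} : ℕ) : ℝ) *
        Real.log ((Nat.card {v // src (z v) = q} : ℕ) : ℝ)) - n ≤
      Real.log (Nat.card {ρ : Equiv.Perm (Fin n) //
        ∀ v, src (z (ρ v)) = src (z v) ∧ (T (src (z v)) → ρ v = v)}) := by
  have h1 := stabT T n (fun v => src (z v))
  have hpos : 0 < ∏ q, (if T q then 1 else (Nat.card {v // src (z v) = q}).factorial) :=
    Finset.prod_pos fun q _ => by
      split_ifs
      · exact one_pos
      · exact Nat.factorial_pos _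
  have h2 : Real.log ((∏ q, (if T q then 1 else (Nat.card {v // src (z v) = q}).factorial) : ℕ) : ℝ) ≤
      Real.log (Nat.card {ρ : Equiv.Perm (Fin n) //
        ∀ v, src (z (ρ v)) = src (z v) ∧ (T (src (z v)) → ρ v = v)}) := by
    refine Real.log_le_log (by exact_mod_cast hpos) ?_
    exact_mod_cast h1
  refine le_trans ?_ h2
  have h3 : ((∏ q, (if T q then 1 else (Nat.card {v // src (z v) = q}).factorial) : ℕ) : ℝ) =
      ∏ q, (if T q then (1 : ℝ) else ((Nat.card {v // src (z v) = q}).factorial : ℝ)) := by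
    rw [Nat.cast_prod]
    refine Finset.prod_congr rfl fun q _ => ?_
    split_ifs <;> simp
  rw [h3, Real.log_prod (fun q _ => by
    split_ifs
    · exact one_ne_zero
    · exact_mod_cast (Nat.factorial_pos _).ne')]
  have h4 := rmoJ_tot (fun v => src (z v))
  rw [← h4, ← Finset.sum_sub_distrib]
  refine Finset.sum_le_sum fun q _ => ?_
  split_ifs
  · rw [Real.log_one, zero_sub]
    exact neg_nonpos.2 (Nat.cast_nonneg _)
  · exact log_fact _

open Classical in
theorem rmoJ {Pt Q : Type} [Fintype Pt] [Fintype Q] (src : Pt → Q) (T : Q → Prop) (p : Pt → ℝ) (h0 : ∀ t, 0 ≤ p t)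
    (h1 : ∑ t, p t = 1) (n : ℕ) (hn : 1 ≤ n) :
    (∑ q, if T q then 0 else (∑ t with src t = q, p t) * (n * Real.log n) -
        n * Real.negMulLog (∑ t with src t = q, p t)) - n ≤
      ∑ z : Fin n → Pt, (∏ v, p (z v)) * Real.log (Nat.card {ρ : Equiv.Perm (Fin n) //
        ∀ v, src (z (ρ v)) = src (z v) ∧ (T (src (z v)) → ρ v = v)}) := by
  set w : (Fin n → Pt) → ℝ := fun z => ∏ v, p (z v) with hw
  have hw0 : ∀ z, 0 ≤ w z := fun z => Finset.prod_nonneg fun v _ => h0 _
  have hw1 : ∑ z, w z = 1 := pw_sum (fun _ : Fin n => p) fun _ => h1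
  set m : (Fin n → Pt) → Q → ℝ := fun z q => ((Nat.card {v // src (z v) = q} : ℕ) : ℝ) with hm
  have hmE : ∀ q, ∑ z, w z * m z q = n * ∑ t with src t = q, p t := by
    intro q
    have e1 : ∀ z, w z * m z q = ∑ v, w z * (if src (z v) = q then (1 : ℝ) else 0) := fun z => by
      rw [hm]
      simp only
      rw [rmoJ_card (fun v => src (z v)) q, Finset.mul_sum]
    simp_rw [e1]
    rw [Finset.sum_comm]
    have e2 : ∀ v : Fin n, ∑ z : Fin n → Pt, w z * (if src (z v) = q then (1 : ℝ) else 0) =
        ∑ t with src t = q, p t := fun v => by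
      have e3 := pw_marg (fun _ : Fin n => p) (fun _ => h1) v (fun t => if src t = q then (1 : ℝ) else 0)
      rw [Finset.sum_filter]
      refine e3.trans (Finset.sum_congr rfl fun t _ => ?_)
      split_ifs <;> simp
    simp_rw [e2]
    simp
  have hJ : ∀ q, (∑ t with src t = q, p t) * (n * Real.log n) -
      n * Real.negMulLog (∑ t with src t = q, p t) ≤ ∑ z, w z * (m z q * Real.log (m z q)) := by
    intro q
    rw [rmoJ_scalar hn (Finset.sum_nonneg fun t _ => h0 t), ← hmE q]
    have h2 := Real.convexOn_mul_log.map_sum_le (t := Finset.univ) (w := w) (p := fun z => m z q)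
      (fun z _ => hw0 z) hw1 (fun z _ => Set.mem_Ici.2 (by rw [hm]; exact Nat.cast_nonneg _))
    simpa only [smul_eq_mul] using h2
  calc (∑ q, if T q then 0 else (∑ t with src t = q, p t) * (n * Real.log n) -
        n * Real.negMulLog (∑ t with src t = q, p t)) - n
      ≤ (∑ q, if T q then 0 else ∑ z, w z * (m z q * Real.log (m z q))) - n := by
        refine sub_le_sub_right (Finset.sum_le_sum fun q _ => ?_) _
        split_ifs
        · exact le_rfl
        · exact hJ q
    _ = ∑ z, w z * ((∑ q, if T q then 0 else m z q * Real.log (m z q)) - n) := by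
        simp_rw [mul_sub, Finset.sum_sub_distrib]
        rw [← Finset.sum_mul, hw1, one_mul]
        congr 1
        simp_rw [Finset.mul_sum]
        rw [Finset.sum_comm]
        refine Finset.sum_congr rfl fun q _ => ?_
        split_ifs
        · simp
        · rfl
    _ ≤ ∑ z, w z * Real.log (Nat.card {ρ : Equiv.Perm (Fin n) //
        ∀ v, src (z (ρ v)) = src (z v) ∧ (T (src (z v)) → ρ v = v)}) :=
        Finset.sum_le_sum fun z _ => mul_le_mul_of_nonneg_left (rmoJ_pt src T n z) (hw0 z)

end H33.BO
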