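import Pool.Agent.H33.BO.Defs

/-! # BO.SegA : cutting a permutation into segments, and the permutations that match the segments

PROOF. `seg_ex`: for every cycle `c` (class of `SameCycle`) with `len c` elements and a point `v_c` in it, the points `P^(ℓ i + t) v_c`, `i < len c / ℓ`, `t < ℓ`, are different and form `len c / ℓ` segments. The total number of segments is `∑ c, len c / ℓ` (natural division) and `ℓ * ∑ (len c / ℓ) ≥ ∑ (len c - ℓ) = n - ℓ cyc P`
(over the integers), so it is at least `m` by `h` (if `ℓ * (number) ≥ n - ℓ cyc ≥ m ℓ`). So there is an injection of `Fin m` into the type `Σ c, Fin (len c / ℓ)` (`Function.Embedding.nonempty_of_card_le`). `P^a v_c = P^b v_c` with `a, b < len c` gives `a = b` (the minimal period of `v_c` is `len c`: the orbit of `v_c` is the class; Mathlib: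
`Equiv.Perm.SameCycle.exists_pow_eq'`, `Function.minimalPeriod`, or `MulAction.orbit zpowers`; any proof).
`fam_ex`: the complements of the ranges of `fB` and `fW` have the same cardinality `n - m ℓ`; choose a bijection `e` between them; `A π v := fW (π i, t)` if `v = fB (i, t)` and `e v` otherwise, a permutation. -/

set_option autoImplicit false

open MeasureTheory

namespace H33.BO

private lemma SegA_out {n : ℕ} (P : Equiv.Perm (Fin n))
    (c : Quotient (Equiv.Perm.SameCycle.setoid P)) (a : ℕ) :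
    Quotient.mk (Equiv.Perm.SameCycle.setoid P) ((P ^ a) c.out) = c := by
  rw [← Quotient.out_eq c]
  refine Quotient.sound ?_
  rw [Quotient.out_eq]
  refine Equiv.Perm.SameCycle.symm ⟨a, ?_⟩
  rw [zpow_natCast]

private lemma SegA_len {n : ℕ} (P : Equiv.Perm (Fin n)) (x : Fin n) :
    0 < Function.minimalPeriod P x := by
  refine Function.minimalPeriod_pos_of_mem_periodicPts ?_
  refine ⟨orderOf P, orderOf_pos P, ?_⟩
  have h : (P : Fin n → Fin n)^[orderOf P] = ((P ^ orderOf P : Equiv.Perm (Fin n)) : Fin n → Fin n) :=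
    (Equiv.Perm.coe_pow P (orderOf P)).symm
  show (P : Fin n → Fin n)^[orderOf P] x = x
  rw [h, pow_orderOf_eq_one]
  rfl

private lemma SegA_inj {n : ℕ} (P : Equiv.Perm (Fin n)) {x : Fin n} {a b : ℕ}
    (ha : a < Function.minimalPeriod P x) (hb : b < Function.minimalPeriod P x)
    (h : (P ^ a) x = (P ^ b) x) : a = b := by
  rw [← Function.iterate_eq_iterate_iff_of_lt_minimalPeriod ha hb]
  rw [Equiv.Perm.coe_pow, Equiv.Perm.coe_pow] at h
  exact h

private lemma SegA_surj {n : ℕ} (P : Equiv.Perm (Fin n)) (x : Fin n) :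
    ∃ (c : Quotient (Equiv.Perm.SameCycle.setoid P)) (a : ℕ), a < Function.minimalPeriod P c.out ∧
      (P ^ a) c.out = x := by
  set c := Quotient.mk (Equiv.Perm.SameCycle.setoid P) x with hc
  have h1 : P.SameCycle c.out x := Quotient.exact (s := Equiv.Perm.SameCycle.setoid P) (by rw [Quotient.out_eq])
  obtain ⟨k, hk⟩ := h1.exists_nat_pow_eq
  refine ⟨c, k % Function.minimalPeriod P c.out, Nat.mod_lt _ (SegA_len P _), ?_⟩
  rw [← hk, Equiv.Perm.coe_pow, Equiv.Perm.coe_pow]
  exact Function.iterate_mod_minimalPeriod_eq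

theorem seg_ex {n : ℕ} (P : Equiv.Perm (Fin n)) (ℓ m : ℕ) (hℓ : 1 ≤ ℓ) (h : (m + cyc P) * ℓ ≤ n) :
    ∃ f : Fin m × Fin ℓ → Fin n, segs P f := by
  classical
  letI : Fintype (Quotient (Equiv.Perm.SameCycle.setoid P)) := Fintype.ofFinite _
  set len : Quotient (Equiv.Perm.SameCycle.setoid P) → ℕ := fun c => Function.minimalPeriod P c.out with hlen
  have hcyc : cyc P = Fintype.card (Quotient (Equiv.Perm.SameCycle.setoid P)) := by
    unfold cyc
    rw [Nat.card_eq_fintype_card]
  -- the total length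
  have htot : n ≤ ∑ c, len c := by
    have hs : Function.Surjective (fun p : (Σ c : Quotient (Equiv.Perm.SameCycle.setoid P), Fin (len c)) =>
        (P ^ (p.2 : ℕ)) p.1.out) := by
      intro x
      obtain ⟨c, a, ha, hx⟩ := SegA_surj P x
      exact ⟨⟨c, ⟨a, ha⟩⟩, hx⟩
    have h1 := Fintype.card_le_of_surjective _ hs
    simpa using h1
  have hS : m ≤ ∑ c, len c / ℓ := by
    have h2 : ∑ c, len c ≤ ∑ c, (ℓ * (len c / ℓ) + ℓ) := by
      refine Finset.sum_le_sum fun c _ => ?_
      have h3 := Nat.div_add_mod (len c) ℓ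
      have h4 := Nat.mod_lt (len c) (by omega : 0 < ℓ)
      omega
    rw [Finset.sum_add_distrib, ← Finset.mul_sum, Finset.sum_const, smul_eq_mul, Finset.card_univ,
      ← hcyc] at h2
    have h5 : (m + cyc P) * ℓ ≤ ℓ * (∑ c, len c / ℓ) + cyc P * ℓ := h.trans (htot.trans h2)
    have h6 : m * ℓ ≤ (∑ c, len c / ℓ) * ℓ := by
      rw [add_mul, mul_comm ℓ] at h5
      omega
    exact Nat.le_of_mul_le_mul_right h6 (by omega)
  have hcard : Fintype.card (Fin m) ≤
      Fintype.card (Σ c : Quotient (Equiv.Perm.SameCycle.setoid P), Fin (len c / ℓ)) := by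
    simpa using hS
  obtain ⟨ι⟩ := Function.Embedding.nonempty_of_card_le hcard
  have hlt : ∀ (i : Fin m) (t : Fin ℓ), ℓ * ((ι i).2 : ℕ) + t < len (ι i).1 := by
    intro i t
    have h1 : ((ι i).2 : ℕ) + 1 ≤ len (ι i).1 / ℓ := (ι i).2.isLt
    have h2 : ℓ * (((ι i).2 : ℕ) + 1) ≤ len (ι i).1 :=
      (Nat.mul_le_mul_left ℓ h1).trans (Nat.mul_div_le _ _)
    have h3 := t.isLt
    rw [mul_add, mul_one] at h2
    omega
  refine ⟨fun p => (P ^ (ℓ * ((ι p.1).2 : ℕ) + (p.2 : ℕ))) (ι p.1).1.out, ?_, ?_⟩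
  · rintro ⟨i, t⟩ ⟨i', t'⟩ he
    have he' : (P ^ (ℓ * ((ι i).2 : ℕ) + (t : ℕ))) (ι i).1.out =
        (P ^ (ℓ * ((ι i').2 : ℕ) + (t' : ℕ))) (ι i').1.out := he
    have hc : (ι i).1 = (ι i').1 := by
      rw [← SegA_out P (ι i).1 (ℓ * ((ι i).2 : ℕ) + (t : ℕ)), he', SegA_out]
    have l1 := hlt i t
    have l2 := hlt i' t'
    generalize hA : ι i = A at *
    generalize hB : ι i' = B at *
    obtain ⟨c, j⟩ := A
    obtain ⟨c', j'⟩ := B
    simp only at hc l1 l2 he'
    subst hc
    have h7 := SegA_inj P l1 l2 he'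
    have h8 : (j : ℕ) = j' ∧ (t : ℕ) = t' := by
      have a1 := t.isLt
      have a2 := t'.isLt
      have b1 : (ℓ * (j : ℕ) + t) / ℓ = j := by
        rw [Nat.mul_add_div (by omega), Nat.div_eq_of_lt a1, add_zero]
      have b2 : (ℓ * (j' : ℕ) + t') / ℓ = j' := by
        rw [Nat.mul_add_div (by omega), Nat.div_eq_of_lt a2, add_zero]
      have b3 : (j : ℕ) = j' := by rw [← b1, ← b2, h7]
      refine ⟨b3, ?_⟩
      rw [b3] at h7
      omega
    have h9 : j = j' := Fin.ext h8.1
    have h10 : t = t' := Fin.ext h8.2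
    subst h9
    subst h10
    have h11 : i = i' := ι.injective (hA.trans hB.symm)
    rw [h11]
  · intro i t ht
    show P ((P ^ (ℓ * ((ι i).2 : ℕ) + (t : ℕ))) (ι i).1.out) =
      (P ^ (ℓ * ((ι i).2 : ℕ) + ((t : ℕ) + 1))) (ι i).1.out
    rw [← add_assoc, pow_succ']
    rfl

theorem fam_ex {n m ℓ : ℕ} (fB fW : Fin m × Fin ℓ → Fin n) (hB : Function.Injective fB)
    (hW : Function.Injective fW) : ∃ A : Equiv.Perm (Fin m) → Equiv.Perm (Fin n), fam fB fW A := by
  classical
  let E : Equiv.Perm (Fin m) → ({x // x ∈ Set.range fB} ≃ {x // x ∈ Set.range fW}) := fun π =>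
    (Equiv.ofInjective fB hB).symm.trans
      ((Equiv.prodCongr π (Equiv.refl (Fin ℓ))).trans (Equiv.ofInjective fW hW))
  let e0 : {x // ¬ x ∈ Set.range fB} ≃ {x // ¬ x ∈ Set.range fW} := Equiv.toCompl (E 1)
  refine ⟨fun π => Equiv.subtypeCongr (E π) e0, ?_, ?_⟩
  · intro π p
    have hp : fB p ∈ Set.range fB := ⟨p, rfl⟩
    show (Equiv.subtypeCongr (E π) e0) (fB p) = _
    unfold Equiv.subtypeCongr
    rw [Equiv.trans_apply, Equiv.trans_apply, Equiv.sumCompl_symm_apply_of_pos hp]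
    have h1 : (Equiv.ofInjective fB hB).symm ⟨fB p, hp⟩ = p := Equiv.ofInjective_symm_apply hB p
    show ((E π) ⟨fB p, hp⟩ : Fin n) = _
    show ((Equiv.ofInjective fW hW) ((Equiv.prodCongr π (Equiv.refl (Fin ℓ)))
      ((Equiv.ofInjective fB hB).symm ⟨fB p, hp⟩)) : Fin n) = _
    rw [h1]
    rfl
  · intro π π' v hv
    show (Equiv.subtypeCongr (E π) e0) v = (Equiv.subtypeCongr (E π') e0) v
    unfold Equiv.subtypeCongr
    rw [Equiv.trans_apply, Equiv.trans_apply, Equiv.trans_apply, Equiv.trans_apply,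
      Equiv.sumCompl_symm_apply_of_neg hv]
    rfl

end H33.BO
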