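import Pool.Agent.H33.BO.LinA
import Pool.Agent.H33.BO.LinC
import Pool.Agent.H33.BO.Peel
import Pool.Agent.H33.BO.Mtch

/-! # BO.Sets : the sets of the known and of the exceptional edges (paper 2.3 to 2.5)

NOTATION: n = card V, a, b, ω as in Peel; `N c = ac X (nn W c)`, `N_A = N false = a ω⁻¹`, `N_B = N true = ω b`; `δ := (defs W X).ncard`; `dd w := dir (φ w)`; `Φ v j = φ (ac X (bgw W j) v)`.
PROOF. `E := V × Bool`, `hd e = e.1`, `tl e = N e.2 e.1`, `T := {(w, c) | dd w = some c}`. `T` is linearly independent: reindex `tree_indep` with `T0 := {w | dd w ≠ none}`, `par w := N c w` for `dd w = some c` (the map `e ↦ e.1` is injective on `T`: `LinearIndepOn` of a composition). `forest_ext` with `σ := N_B` (`hσ w := (w, true)`) gives `F`.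
`U := F.filter (fun e => e.1 ∉ defs ∧ N e.2 e.1 ∉ defs)`. `(F \ U).card ≤ 4 δ`: such an edge has `e.1 ∈ defs` (2 δ edges of `V × Bool`) or `N e.2 e.1 ∈ defs` (2 δ). So `n - cyc - 4 δ ≤ U.card ≤ n`.
`K (some (some i)) := univ`, `K none := univ \ image (fun e => a⁻¹ e.1) of {e ∈ U | e.2 = true}`, `K (some none) := univ \ image (fun e => b⁻¹ ω⁻¹ e.1) of {e ∈ U | e.2 = false}` (injective images): `(K none).card + (K (some none)).card = 2 n - U.card`, (3).
`Ex (some (some i)) := ∅`, `Ex none := {v | dd (a v) = some true} ∪ {v | ω b a v ∈ defs}`, `Ex (some none) := {v | dd (ω b v) = some false}`.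
(1) `peel` with this `U`. (2) For `v ∈ K none \ Ex none`: not T since `src none (Φ v)` at `(c3, e0)` is `φ (a v)`; matched by `mtch` (letter a: `ω b a v ∉ defs` since `v ∉ Ex none`; the other letters: no condition).
(4) For x_i the term is `n - n = 0`. `#{u | not T (tgt none (Φ u))} = #{u | dd u ≠ some true}`, `#{u | not T (tgt (some none) (Φ u))} = #{u | dd (ω u) ≠ some false} = #{w | dd w ≠ some false}`; the sum of the two is `2 n - #{w | dd w ≠ none} = n + #roots`. `v ∈ K ∩ Ex`: for the letter b: the edge `(ω b v, false)` is in `T ⊆ F` and not in `U`; for the letter a: the edge `(a v, true) ∈ T \ U` or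
`ω b a v ∈ defs`: together at most `4 δ + δ` (`T`-edges in `F \ U`, both letters together `≤ 4 δ`). So `∑ (K s \ Ex s).card ≥ k n + 2 n - U.card - 5 δ ≥ (k + 1) n - 5 δ`, and the left side of (4) is at most `(k n + n + #roots) - ((k+1) n - 5 δ)`. -/

set_option autoImplicit false

open MeasureTheory

namespace H33.BO

private lemma sets_aa {k : ℕ} {V : Type} (X : Lt k → Equiv.Perm V) (v : V) :
    ac X (aa k) v = X none v := by simp [aa, ac]

private lemma sets_nt {k : ℕ} (W : Wd k) {V : Type} (X : Lt k → Equiv.Perm V) (v : V) :
    ac X (nn W true) v = ac X (wf W) (X (some none) v) := by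
  simp [nn, bb, ac]

private lemma sets_bb {k : ℕ} (W : Wd k) {V : Type} (X : Lt k → Equiv.Perm V) (v : V) :
    ac X (wf W * bb k) v = ac X (wf W) (X (some none) v) := by
  simp [bb, ac]

private lemma sets_wba {k : ℕ} (W : Wd k) {V : Type} (X : Lt k → Equiv.Perm V) (v : V) :
    ac X (wf W * bb k * aa k) v = ac X (wf W) (X (some none) (X none v)) := by
  simp [bb, aa, ac]

private lemma sets_srcA {k : ℕ} (W : Wd k) {V P : Type} (X : Lt k → Equiv.Perm V)
    (dir : P → Option Bool) (φ : V → P) (v : V) :
    TT dir none (src none (fun j : Bg k W.length => φ (ac X (bgw W j) v))) ↔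
      dir (φ (X none v)) = some true := by
  show dir (φ (ac X (aa k) v)) = some true ↔ _
  rw [sets_aa]

private lemma sets_srcB {k : ℕ} (W : Wd k) {V P : Type} (X : Lt k → Equiv.Perm V)
    (dir : P → Option Bool) (φ : V → P) (v : V) :
    TT dir (some none) (src (some none) (fun j : Bg k W.length => φ (ac X (bgw W j) v))) ↔
      dir (φ (ac X (wf W) (X (some none) v))) = some false := by
  show dir (φ (ac X (wf W * bb k) v)) = some false ↔ _
  rw [sets_bb]

private lemma sets_tgtA {k : ℕ} (W : Wd k) {V P : Type} (X : Lt k → Equiv.Perm V)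
    (dir : P → Option Bool) (φ : V → P) (u : V) :
    TT dir none (tgt none (fun j : Bg k W.length => φ (ac X (bgw W j) u))) ↔
      dir (φ u) = some true := by
  show dir (φ (ac X (wf (W.take 0)) u)) = some true ↔ _
  simp [wf]

private lemma sets_tgtB {k : ℕ} (W : Wd k) {V P : Type} (X : Lt k → Equiv.Perm V)
    (dir : P → Option Bool) (φ : V → P) (u : V) :
    TT dir (some none) (tgt (some none) (fun j : Bg k W.length => φ (ac X (bgw W j) u))) ↔
      dir (φ (ac X (wf W) u)) = some false := by
  show dir (φ (ac X (wf (W.take W.length)) u)) = some false ↔ _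
  rw [List.take_length]

/-- the edges of the directions are independent -/
private lemma sets_T {k : ℕ} (W : Wd k) {V P : Type} [DecidableEq V] (X : Lt k → Equiv.Perm V)
    (dir : P → Option Bool) (φ : V → P) (dpt : V → ℕ)
    (hdpt : ∀ w c, dir (φ w) = some c → dpt (ac X (nn W c) w) < dpt w) :
    LinearIndepOn ℚ (fun e : V × Bool =>
      (Pi.single e.1 1 - Pi.single (ac X (nn W e.2) e.1) 1 : V → ℚ))
      {e | dir (φ e.1) = some e.2} := by
  set par : V → V := fun w => match dir (φ w) with
    | some c => ac X (nn W c) w
    | none => w with hpar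
  have hp : ∀ w c, dir (φ w) = some c → par w = ac X (nn W c) w := by
    intro w c h
    simp only [hpar, h]
  have h1 := tree_indep {w | dir (φ w) ≠ none} par dpt (by
    intro w hw
    obtain ⟨c, hc⟩ := Option.ne_none_iff_exists'.1 hw
    rw [hp w c hc]
    exact hdpt w c hc)
  have h2 : (Prod.fst '' {e : V × Bool | dir (φ e.1) = some e.2}) ⊆ {w | dir (φ w) ≠ none} := by
    rintro _ ⟨e, he, rfl⟩
    have he' : dir (φ e.1) = some e.2 := he
    show dir (φ e.1) ≠ none
    rw [he']
    simp
  have h3 := (h1.mono h2).comp_of_image (f := Prod.fst) (by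
    rintro ⟨w, c⟩ hw ⟨w', c'⟩ hw' h
    have e1 : dir (φ w) = some c := hw
    have e2 : dir (φ w') = some c' := hw'
    have e3 : w = w' := h
    subst e3
    rw [e1] at e2
    rw [Option.some.inj e2])
  refine h3.congr ?_
  rintro ⟨w, c⟩ hw
  have e1 : dir (φ w) = some c := hw
  show (Pi.single w 1 - Pi.single (par w) 1 : V → ℚ) = _
  rw [hp w c e1]

private lemma sets_sum {k : ℕ} {M : Type} [AddCommMonoid M] (f : Lt k → M) :
    ∑ s, f s = f none + (f (some none) + ∑ i : Fin k, f (some (some i))) := by
  rw [Fintype.sum_option, Fintype.sum_option]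

theorem sets_ex {k : ℕ} (W : Wd k) {V P : Type} [Fintype V] [DecidableEq V] (X : Lt k → Equiv.Perm V)
    (dir : P → Option Bool) (φ : V → P) (dpt : V → ℕ)
    (hdpt : ∀ w c, dir (φ w) = some c → dpt (ac X (nn W c) w) < dpt w) :
    ∃ K Ex : Lt k → Finset V,
      (∀ X' : Lt k → Equiv.Perm V, defs W X = defs W X' → (∀ s, ∀ v ∈ K s, X s v = X' s v) → X = X') ∧
      (∀ s, ∀ v ∈ K s, v ∉ Ex s →
        ¬ TT dir s (src s (fun j : Bg k W.length => φ (ac X (bgw W j) v))) ∧
        tgt s (fun j : Bg k W.length => φ (ac X (bgw W j) (X s v))) =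
          src s (fun j : Bg k W.length => φ (ac X (bgw W j) v))) ∧
      (∑ s, (K s).card ≤ (k + 1) * Fintype.card V + cyc (ac X (nn W true)) + 4 * (defs W X).ncard) ∧
      (∑ s, ({u | ¬ TT dir s (tgt s (fun j : Bg k W.length => φ (ac X (bgw W j) u)))}.ncard : ℤ) ≤
        ∑ s, ((K s \ Ex s).card : ℤ) + {w | dir (φ w) = none}.ncard + 5 * (defs W X).ncard) := by
  classical
  set n := Fintype.card V with hn
  set a := X none with ha
  set b := X (some none) with hb
  set ω := ac X (wf W) with hω
  have hT := sets_T W X dir φ dpt hdpt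
  obtain ⟨F, hTF, hF, hFn, hFc⟩ := forest_ext (fun e : V × Bool => e.1)
    (fun e => ac X (nn W e.2) e.1) _ hT (ac X (nn W true)) (fun w => ⟨(w, true), rfl, rfl⟩)
  have hDf : (defs W X).Finite := Set.toFinite _
  set D : Finset V := hDf.toFinset with hD
  have hDm : ∀ v, v ∈ D ↔ v ∈ defs W X := fun v => hDf.mem_toFinset
  have hDc : D.card = (defs W X).ncard := (Set.ncard_eq_toFinset_card _ hDf).symm
  set U := F.filter (fun e => e.1 ∉ defs W X ∧ ac X (nn W e.2) e.1 ∉ defs W X) with hU
  have hUF : U ⊆ F := Finset.filter_subset _ _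
  -- the bad edges
  have hbad : (F \ U).card ≤ 4 * D.card := by
    have h1 : F \ U ⊆ (D ×ˢ (Finset.univ : Finset Bool)) ∪
        (D ×ˢ (Finset.univ : Finset Bool)).image (fun e => ((ac X (nn W e.2))⁻¹ e.1, e.2)) := by
      intro e he
      obtain ⟨he1, he2⟩ := Finset.mem_sdiff.1 he
      rw [Finset.mem_union]
      by_cases h2 : e.1 ∈ defs W X
      · exact Or.inl (Finset.mem_product.2 ⟨(hDm _).2 h2, Finset.mem_univ _⟩)
      · right
        have h3 : ac X (nn W e.2) e.1 ∈ defs W X := by
          by_contra h3
          exact he2 (Finset.mem_filter.2 ⟨he1, h2, h3⟩)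
        refine Finset.mem_image.2 ⟨(ac X (nn W e.2) e.1, e.2),
          Finset.mem_product.2 ⟨(hDm _).2 h3, Finset.mem_univ _⟩, ?_⟩
        simp
    have h2 := (Finset.card_le_card h1).trans (Finset.card_union_le _ _)
    have h3 := Finset.card_image_le (s := D ×ˢ (Finset.univ : Finset Bool))
      (f := fun e => ((ac X (nn W e.2))⁻¹ e.1, e.2))
    have h4 : (D ×ˢ (Finset.univ : Finset Bool)).card = D.card * 2 := by
      rw [Finset.card_product]
      rfl
    omega
  have hUc : U.card + (F \ U).card = F.card := by
    rw [add_comm]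
    exact Finset.card_sdiff_add_card_eq_card hUF
  set IA := (U.filter fun e => e.2 = true).image (fun e => a⁻¹ e.1) with hIA
  set IB := (U.filter fun e => e.2 = false).image (fun e => b⁻¹ (ω⁻¹ e.1)) with hIB
  have cIA : IA.card = (U.filter fun e => e.2 = true).card := by
    refine Finset.card_image_of_injOn ?_
    rintro ⟨w, c⟩ hw ⟨w', c'⟩ hw' h
    have e1 : c = true := (Finset.mem_filter.1 (Finset.mem_coe.1 hw)).2
    have e2 : c' = true := (Finset.mem_filter.1 (Finset.mem_coe.1 hw')).2
    have e3 : a⁻¹ w = a⁻¹ w' := h
    rw [e1, e2, (a⁻¹).injective e3]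
  have cIB : IB.card = (U.filter fun e => e.2 = false).card := by
    refine Finset.card_image_of_injOn ?_
    rintro ⟨w, c⟩ hw ⟨w', c'⟩ hw' h
    have e1 : c = false := (Finset.mem_filter.1 (Finset.mem_coe.1 hw)).2
    have e2 : c' = false := (Finset.mem_filter.1 (Finset.mem_coe.1 hw')).2
    have e3 : b⁻¹ (ω⁻¹ w) = b⁻¹ (ω⁻¹ w') := h
    rw [e1, e2, (ω⁻¹).injective ((b⁻¹).injective e3)]
  have cU : (U.filter fun e => e.2 = true).card + (U.filter fun e => e.2 = false).card =
      U.card := by
    have h := Finset.card_filter_add_card_filter_not (s := U) (fun e : V × Bool => e.2 = true)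
    simp only [Bool.not_eq_true] at h
    exact h
  set K : Lt k → Finset V := fun s => match s with
    | none => Finset.univ \ IA
    | some none => Finset.univ \ IB
    | some (some _) => Finset.univ with hK
  set Ex : Lt k → Finset V := fun s => match s with
    | none => Finset.univ.filter fun v => dir (φ (a v)) = some true ∨ ω (b (a v)) ∈ defs W X
    | some none => Finset.univ.filter fun v => dir (φ (ω (b v))) = some false
    | some (some _) => ∅ with hEx
  have kA : K none = Finset.univ \ IA := rfl
  have kB : K (some none) = Finset.univ \ IB := rfl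
  have kI : ∀ i, K (some (some i)) = Finset.univ := fun i => rfl
  have xA : Ex none = Finset.univ.filter fun v => dir (φ (a v)) = some true ∨
    ω (b (a v)) ∈ defs W X := rfl
  have xB : Ex (some none) = Finset.univ.filter fun v => dir (φ (ω (b v))) = some false := rfl
  have xI : ∀ i, Ex (some (some i)) = ∅ := fun i => rfl
  have kAc : (K none).card + IA.card = n := by
    rw [kA, Finset.card_sdiff_add_card_eq_card (Finset.subset_univ _), Finset.card_univ]
  have kBc : (K (some none)).card + IB.card = n := by
    rw [kB, Finset.card_sdiff_add_card_eq_card (Finset.subset_univ _), Finset.card_univ]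
  refine ⟨K, Ex, ?_, ?_, ?_, ?_⟩
  · intro X' hdd hX'
    refine peel W X X' (fun i => Equiv.ext fun v => hX' _ v (Finset.mem_univ v))
      U (hF.mono (by exact_mod_cast hUF)) (fun e he => (Finset.mem_filter.1 he).2) hdd ?_ ?_
    · intro v hv
      refine hX' none v ?_
      rw [kA, Finset.mem_sdiff]
      refine ⟨Finset.mem_univ _, fun h => ?_⟩
      obtain ⟨⟨w, c⟩, he, rfl⟩ := Finset.mem_image.1 h
      obtain ⟨h1, h2⟩ := Finset.mem_filter.1 he
      have h3 : c = true := h2
      subst h3
      exact hv w h1 rfl
    · intro v hv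
      refine hX' (some none) v ?_
      rw [kB, Finset.mem_sdiff]
      refine ⟨Finset.mem_univ _, fun h => ?_⟩
      obtain ⟨⟨w, c⟩, he, rfl⟩ := Finset.mem_image.1 h
      obtain ⟨h1, h2⟩ := Finset.mem_filter.1 he
      have h3 : c = false := h2
      subst h3
      exact hv w h1 rfl
  · intro s v hv hx
    refine ⟨?_, mtch W X φ s v ?_⟩
    · match s, hv, hx with
      | none, hv, hx =>
        rw [sets_srcA]
        intro h
        rw [xA] at hx
        exact hx (Finset.mem_filter.2 ⟨Finset.mem_univ _, Or.inl h⟩)
      | some none, hv, hx =>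
        rw [sets_srcB]
        intro h
        rw [xB] at hx
        exact hx (Finset.mem_filter.2 ⟨Finset.mem_univ _, h⟩)
      | some (some i), hv, hx => exact fun h => h
    · rintro rfl h
      rw [sets_wba] at h
      rw [xA] at hx
      exact hx (Finset.mem_filter.2 ⟨Finset.mem_univ _, Or.inr h⟩)
  · rw [sets_sum, ← hDc]
    have h0 : ∀ i : Fin k, (K (some (some i))).card = n := fun i => by
      rw [kI i, Finset.card_univ]
    have h1 : ∑ i : Fin k, (K (some (some i))).card = k * n := by
      rw [Finset.sum_congr rfl fun i _ => h0 i, Finset.sum_const,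
        Finset.card_univ, Fintype.card_fin, smul_eq_mul]
    rw [h1]
    have h2 : (k + 1) * n = k * n + n := by ring
    rw [h2]
    omega
  · -- the left hand side
    have L0 : ∀ i : Fin k, {u | ¬ TT dir (some (some i)) (tgt (some (some i))
        (fun j : Bg k W.length => φ (ac X (bgw W j) u)))}.ncard = n := by
      intro i
      have : {u : V | ¬ TT dir (some (some i)) (tgt (some (some i))
          (fun j : Bg k W.length => φ (ac X (bgw W j) u)))} = Set.univ := by
        ext u
        simp only [Set.mem_setOf_eq, Set.mem_univ, iff_true]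
        exact fun h => h
      rw [this, Set.ncard_univ, Nat.card_eq_fintype_card]
    have LA : {u | ¬ TT dir none (tgt none
        (fun j : Bg k W.length => φ (ac X (bgw W j) u)))}.ncard =
        (Finset.univ.filter fun u => ¬ dir (φ u) = some true).card := by
      rw [← Set.ncard_coe_finset]
      congr 1
      ext u
      simp only [Set.mem_setOf_eq, Finset.coe_filter, Finset.mem_univ, true_and]
      rw [sets_tgtA]
    have LB : {u | ¬ TT dir (some none) (tgt (some none)
        (fun j : Bg k W.length => φ (ac X (bgw W j) u)))}.ncard =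
        (Finset.univ.filter fun u => ¬ dir (φ u) = some false).card := by
      have e1 : {u | ¬ TT dir (some none) (tgt (some none)
          (fun j : Bg k W.length => φ (ac X (bgw W j) u)))} =
          ((Finset.univ.filter fun u => ¬ dir (φ u) = some false).image (fun u => ω⁻¹ u) :
            Finset V) := by
        ext u
        simp only [Set.mem_setOf_eq, Finset.coe_image, Finset.coe_filter, Finset.mem_univ,
          true_and, Set.mem_image]
        rw [sets_tgtB]
        constructor
        · intro h
          exact ⟨ω u, h, by simp⟩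
        · rintro ⟨w, hw, rfl⟩
          show ¬ dir (φ (ω (ω⁻¹ w))) = some false
          have e2 : ω (ω⁻¹ w) = w := by simp
          rw [e2]
          exact hw
      rw [e1, Set.ncard_coe_finset, Finset.card_image_of_injective _ (ω⁻¹).injective]
    have c1 := Finset.card_filter_add_card_filter_not (s := (Finset.univ : Finset V))
      (fun u => dir (φ u) = some true)
    have c2 := Finset.card_filter_add_card_filter_not (s := (Finset.univ : Finset V))
      (fun u => dir (φ u) = some false)
    rw [Finset.card_univ] at c1 c2
    have c3 : (Finset.univ.filter fun u => dir (φ u) = some true).card +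
        (Finset.univ.filter fun u => dir (φ u) = some false).card +
        {w | dir (φ w) = none}.ncard = n := by
      have e1 : {w | dir (φ w) = none}.ncard =
          (Finset.univ.filter fun u => dir (φ u) = none).card := by
        rw [← Set.ncard_coe_finset]
        congr 1
        ext u
        simp
      rw [e1, ← Finset.card_union_of_disjoint, ← Finset.card_union_of_disjoint, hn,
        ← Finset.card_univ]
      · congr 1
        ext u
        simp only [Finset.mem_union, Finset.mem_filter, Finset.mem_univ, true_and, iff_true]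
        rcases h : dir (φ u) with _ | c
        · exact Or.inr rfl
        · cases c
          · exact Or.inl (Or.inr rfl)
          · exact Or.inl (Or.inl rfl)
      · rw [Finset.disjoint_left]
        intro u hu hu'
        have h1 := (Finset.mem_filter.1 hu').2
        rcases Finset.mem_union.1 hu with h | h
        · rw [(Finset.mem_filter.1 h).2] at h1
          exact Option.some_ne_none _ h1
        · rw [(Finset.mem_filter.1 h).2] at h1
          exact Option.some_ne_none _ h1
      · rw [Finset.disjoint_left]
        intro u hu hu'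
        have h1 := (Finset.mem_filter.1 hu).2
        rw [(Finset.mem_filter.1 hu').2] at h1
        simp at h1
    -- the right hand side
    have rA : (K none ∩ Ex none).card ≤
        ((F \ U).filter fun e => e.2 = true).card + D.card := by
      have h1 : K none ∩ Ex none ⊆ ((F \ U).filter fun e => e.2 = true).image
          (fun e => a⁻¹ e.1) ∪ D.image (fun w => a⁻¹ (b⁻¹ (ω⁻¹ w))) := by
        intro v hv
        obtain ⟨h1, h2⟩ := Finset.mem_inter.1 hv
        rw [xA] at h2
        rw [Finset.mem_union]
        rcases (Finset.mem_filter.1 h2).2 with h3 | h3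
        · left
          refine Finset.mem_image.2 ⟨(a v, true), Finset.mem_filter.2
            ⟨Finset.mem_sdiff.2 ⟨by exact_mod_cast hTF (show dir (φ (a v)) = some true from h3),
              fun h4 => ?_⟩, rfl⟩, by simp⟩
          rw [kA, Finset.mem_sdiff] at h1
          exact h1.2 (Finset.mem_image.2 ⟨(a v, true), Finset.mem_filter.2 ⟨h4, rfl⟩, by simp⟩)
        · right
          exact Finset.mem_image.2 ⟨ω (b (a v)), (hDm _).2 h3, by simp⟩
      refine (Finset.card_le_card h1).trans ((Finset.card_union_le _ _).trans ?_)
      exact Nat.add_le_add Finset.card_image_le Finset.card_image_le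
    have rB : (K (some none) ∩ Ex (some none)).card ≤
        ((F \ U).filter fun e => e.2 = false).card := by
      have h1 : K (some none) ∩ Ex (some none) ⊆ ((F \ U).filter fun e => e.2 = false).image
          (fun e => b⁻¹ (ω⁻¹ e.1)) := by
        intro v hv
        obtain ⟨h1, h2⟩ := Finset.mem_inter.1 hv
        rw [xB] at h2
        have h3 := (Finset.mem_filter.1 h2).2
        refine Finset.mem_image.2 ⟨(ω (b v), false), Finset.mem_filter.2
          ⟨Finset.mem_sdiff.2
            ⟨by exact_mod_cast hTF (show dir (φ (ω (b v))) = some false from h3),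
              fun h4 => ?_⟩, rfl⟩, by simp⟩
        rw [kB, Finset.mem_sdiff] at h1
        exact h1.2 (Finset.mem_image.2 ⟨(ω (b v), false), Finset.mem_filter.2 ⟨h4, rfl⟩, by simp⟩)
      exact (Finset.card_le_card h1).trans Finset.card_image_le
    have rF : ((F \ U).filter fun e => e.2 = true).card +
        ((F \ U).filter fun e => e.2 = false).card = (F \ U).card := by
      have h := Finset.card_filter_add_card_filter_not (s := F \ U)
        (fun e : V × Bool => e.2 = true)
      simp only [Bool.not_eq_true] at h
      exact h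
    have sA := Finset.card_sdiff_add_card_inter (K none) (Ex none)
    have sB := Finset.card_sdiff_add_card_inter (K (some none)) (Ex (some none))
    have sI0 : ∀ i : Fin k, ((K (some (some i)) \ Ex (some (some i))).card : ℤ) = n := fun i => by
      rw [kI i, xI i, Finset.sdiff_empty, Finset.card_univ]
    have sI : ∑ i : Fin k, ((K (some (some i)) \ Ex (some (some i))).card : ℤ) = k * n := by
      rw [Finset.sum_congr rfl fun i _ => sI0 i,
        Finset.sum_const, Finset.card_univ, Fintype.card_fin, nsmul_eq_mul]
    have tI : ∑ i : Fin k, ({u | ¬ TT dir (some (some i)) (tgt (some (some i))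
        (fun j : Bg k W.length => φ (ac X (bgw W j) u)))}.ncard : ℤ) = k * n := by
      rw [Finset.sum_congr rfl fun i _ => congrArg Nat.cast (L0 i), Finset.sum_const,
        Finset.card_univ, Fintype.card_fin, nsmul_eq_mul]
    rw [sets_sum, sets_sum, sI, tI, LA, LB, ← hDc]
    omega

end H33.BO
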