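import Pool.Agent.H33.BO.FreB
import Pool.Agent.H33.BO.LawB
import Pool.Agent.H31.BE.MWgt
import Pool.Agent.H31.BE.EntF

/-! # BO.SpI : the probability space of Part I

PROOF. `Ω := (T0 k → Equiv.Perm (Fin n)) × (Fin n → A)` with the weights `w (σ, γ) = (1 / N) * ∏ u, m (γ u)`, `N = Nat.card (T0 k → Perm (Fin n)) = (n!)^(k+1)`, `m a = ν.real (q ⁻¹' {a})` (`wgt_measure`); `X (σ, γ) := mkX (α σ) σ` with `α` from `freB` for the finite set `Z2 := {w⁻¹ * w' | w, w' ∈ Z}` and `ε' := ε / (card B + 1)`, `γ := Prod.snd`.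
(1) `X ω` determines `σ` (`X (some t) = σ t`): `ent Q (X, γ) = ent Q (σ, γ)` (`ent_inj`, `ent_comp_le`: at least `ent Q (σ, γ)`), and this is `log N + n * ent ν q`: independent coordinates (`ent_indep_two`, `ent_indep_pi`; or directly: `∑ w log (1/w)`), `log N = (k + 1) * log n!`.
(2) For fixed `σ`: `ac X w v = ac X w' v ↔ ac X (w⁻¹ * w') v = v`, so the set on the right side of `lawB` is contained in the set of `freB` for `Z2`. `emp Φ b = #{v | Φ v = b} / n`. Integrate `lawB` over `σ` (weights `1 / N`) and divide by `n`: for every `b`: `≤ ε' + Z.card / √n`; sum over `b`; large `n`. (3), (4): the two other parts of `freB`. -/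

set_option autoImplicit false

open MeasureTheory H31.BE

namespace H33.BO

private theorem SpI_fac {A V : Type} [Fintype A] [Fintype V] [DecidableEq V] (f : V → A → ℝ) :
    ∑ γ : V → A, ∏ u, f u (γ u) = ∏ u, ∑ a, f u a := by
  rw [Finset.prod_univ_sum, Fintype.piFinset_univ]

/-- entropy of the independent coordinates -/
private theorem SpI_nml {A : Type} [Fintype A] (m : A → ℝ) (hm : ∑ a, m a = 1) (n : ℕ) :
    ∑ γ : Fin n → A, Real.negMulLog (∏ u, m (γ u)) = n * ∑ a, Real.negMulLog (m a) := by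
  classical
  have h1 : ∀ γ : Fin n → A, Real.negMulLog (∏ u, m (γ u)) =
      ∑ u, ∏ u', (if u' = u then Real.negMulLog (m (γ u')) else m (γ u')) := by
    intro γ
    rw [entF_nml_prod Finset.univ (fun u => m (γ u))]
    refine Finset.sum_congr rfl fun u hu => ?_
    rw [← Finset.mul_prod_erase Finset.univ _ hu, if_pos rfl]
    congr 1
    refine Finset.prod_congr rfl fun u' hu' => ?_
    rw [if_neg (Finset.ne_of_mem_erase hu')]
  rw [Finset.sum_congr rfl fun γ _ => h1 γ, Finset.sum_comm]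
  have h2 : ∀ u : Fin n, ∑ γ : Fin n → A,
      ∏ u', (if u' = u then Real.negMulLog (m (γ u')) else m (γ u')) = ∑ a, Real.negMulLog (m a) := by
    intro u
    rw [SpI_fac (fun u' a => if u' = u then Real.negMulLog (m a) else m a),
      Finset.prod_eq_single u]
    · simp
    · intro u' _ hu'
      simp [hu', hm]
    · intro h
      exact absurd (Finset.mem_univ _) h
  rw [Finset.sum_congr rfl fun u _ => h2 u, Finset.sum_const, Finset.card_univ, Fintype.card_fin,
    nsmul_eq_mul]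

private theorem SpI_card (k n : ℕ) :
    Real.log (Nat.card (T0 k → Equiv.Perm (Fin n))) = ((k : ℝ) + 1) * Real.log n.factorial := by
  rw [Nat.card_fun, Nat.card_eq_fintype_card, Nat.card_eq_fintype_card, Fintype.card_perm,
    Fintype.card_fin, Fintype.card_option, Fintype.card_fin]
  push_cast
  rw [Real.log_pow]
  push_cast
  ring

private theorem SpI_bad {k : ℕ} {G : Type} [Group G] (g : Lt k → G) (Z Z2 : Finset (Fg k))
    (hZ : ∀ w ∈ Z, ∀ w' ∈ Z, w⁻¹ * w' ∈ Z2) {V : Type} [Finite V] (X : Lt k → Equiv.Perm V) :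
    {v | ∃ w ∈ Z, ∃ w' ∈ Z, ¬ (ac X w v = ac X w' v ↔
        FreeGroup.lift g w = FreeGroup.lift g w')}.ncard ≤
      {v | ∃ f ∈ Z2, ¬ (ac X f v = v ↔ FreeGroup.lift g f = 1)}.ncard := by
  apply Set.ncard_le_ncard
  · rintro v ⟨w, hw, w', hw', h⟩
    refine ⟨w⁻¹ * w', hZ w hw w' hw', ?_⟩
    intro h1
    apply h
    have e1 : ac X (w⁻¹ * w') v = v ↔ ac X w v = ac X w' v := by
      rw [map_mul, map_inv, Equiv.Perm.mul_apply, Equiv.Perm.inv_eq_iff_eq]
      exact eq_comm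
    have e2 : FreeGroup.lift g (w⁻¹ * w') = 1 ↔ FreeGroup.lift g w = FreeGroup.lift g w' := by
      rw [map_mul, map_inv, inv_mul_eq_one]
    rw [← e1, ← e2]
    exact h1
  · exact Set.toFinite _

theorem spI {k : ℕ} {G : Type} [Group G] [DecidableEq G] (W : Wd k) (g : Lt k → G) (hg : Pres W g)
    (ν : Measure ℝ) [IsProbabilityMeasure ν] {A B : Type} [Finite A] [Fintype B] (q : ℝ → A) (hq : Fm q)
    (Z : Finset (Fg k)) (F : (Fg k → A) → B) (hF : Loc Z F) (ε : ℝ) (hε : 0 < ε) :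
    ∃ n0 : ℕ, ∀ n, n0 ≤ n → ∃ (Ω : Type) (_ : Finite Ω) (_ : MeasurableSpace Ω) (_ : DiscreteMeasurableSpace Ω)
      (Q : Measure Ω) (_ : IsProbabilityMeasure Q) (X : Ω → Lt k → Equiv.Perm (Fin n)) (γ : Ω → Fin n → A),
      ((k : ℝ) + 1) * Real.log n.factorial + n * ent ν q ≤ ent Q (fun ω => (X ω, γ ω)) ∧
      (∑ b, ∫ ω, |emp (fun v => F (vt (X ω) (γ ω) v)) b - (bern G ν).real {y | F (tt g q y) = b}| ∂Q ≤ ε) ∧
      (∫ ω, ((defs W (X ω)).ncard : ℝ) ∂Q) * Real.log n ≤ ε * n ∧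
      (∫ ω, (cyc (ac (X ω) (nn W true)) : ℝ) ∂Q) * Real.log n ≤ ε * n := by
  classical
  have : Fintype A := Fintype.ofFinite A
  set Z2 : Finset (Fg k) := (Z ×ˢ Z).image fun p => p.1⁻¹ * p.2 with hZ2
  have hZ2m : ∀ w ∈ Z, ∀ w' ∈ Z, w⁻¹ * w' ∈ Z2 := fun w hw w' hw' =>
    Finset.mem_image.2 ⟨(w, w'), Finset.mem_product.2 ⟨hw, hw'⟩, rfl⟩
  set cB : ℝ := (Fintype.card B : ℝ) + 1 with hcB
  have hcB1 : 1 ≤ cB := by
    have : (0 : ℝ) ≤ Fintype.card B := Nat.cast_nonneg _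
    rw [hcB]; linarith
  have hcB0 : 0 < cB := by linarith
  set ε1 : ℝ := ε / (2 * cB) with hε1
  have hε10 : 0 < ε1 := by positivity
  have hε1e : cB * (2 * ε1) = ε := by rw [hε1]; field_simp
  have hε1le : ε1 ≤ ε := by nlinarith
  obtain ⟨n1, hn1⟩ := freB W g hg Z2 ε1 hε10
  obtain ⟨n2, hn2⟩ := exists_nat_gt (((Z.card : ℝ) / ε1) ^ 2)
  refine ⟨max n1 (max n2 1), fun n hn => ?_⟩
  have hnn1 : n1 ≤ n := le_trans (le_max_left _ _) hn
  have hnn2 : n2 ≤ n := le_trans (le_trans (le_max_left _ _) (le_max_right _ _)) hn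
  have hnn3 : 1 ≤ n := le_trans (le_trans (le_max_right _ _) (le_max_right _ _)) hn
  have hn0 : (0 : ℝ) < n := by exact_mod_cast hnn3
  have hsq : (Z.card : ℝ) * Real.sqrt n ≤ ε1 * n := by
    have h1 : ((Z.card : ℝ) / ε1) ^ 2 ≤ n := by
      have : (n2 : ℝ) ≤ n := by exact_mod_cast hnn2
      linarith
    have h2 : (Z.card : ℝ) / ε1 ≤ Real.sqrt n := Real.le_sqrt_of_sq_le h1
    have h3 : (Z.card : ℝ) ≤ Real.sqrt n * ε1 := (div_le_iff₀ hε10).1 h2
    calc (Z.card : ℝ) * Real.sqrt n ≤ Real.sqrt n * ε1 * Real.sqrt n :=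
          mul_le_mul_of_nonneg_right h3 (Real.sqrt_nonneg _)
      _ = ε1 * (Real.sqrt n * Real.sqrt n) := by ring
      _ = ε1 * n := by rw [Real.mul_self_sqrt hn0.le]
  obtain ⟨α, hα1, hα2, hα3⟩ := hn1 n hnn1
  set N : ℝ := (Nat.card (T0 k → Equiv.Perm (Fin n)) : ℝ) with hN
  have hNc : ((Finset.univ : Finset (T0 k → Equiv.Perm (Fin n))).card : ℝ) = N := by
    rw [hN, Nat.card_eq_fintype_card, Finset.card_univ]
  have hN0 : 0 < N := by
    rw [hN]
    exact_mod_cast Nat.card_pos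
  have hm : ∑ a, ν.real (q ⁻¹' {a}) = 1 := entF_sum hq
  set m : A → ℝ := fun a => ν.real (q ⁻¹' {a}) with hmdef
  have hm0 : ∀ a, 0 ≤ m a := fun a => measureReal_nonneg
  set wt : (Fin n → A) → ℝ := fun γ => ∏ u, m (γ u) with hwt
  have hwt0 : ∀ γ, 0 ≤ wt γ := fun γ => Finset.prod_nonneg fun u _ => hm0 _
  have hwt1 : ∑ γ, wt γ = 1 := by
    rw [hwt, SpI_fac (fun _ a => m a)]
    exact Finset.prod_eq_one fun i _ => hm
  let w : (T0 k → Equiv.Perm (Fin n)) × (Fin n → A) → ℝ := fun ω => 1 / N * wt ω.2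
  have hw0 : ∀ ω, 0 ≤ w ω := fun ω => mul_nonneg (by positivity) (hwt0 _)
  have hw1 : ∑ ω, w ω = 1 := by
    rw [Fintype.sum_prod_type]
    have : ∀ σ : T0 k → Equiv.Perm (Fin n), ∑ γ, w (σ, γ) = 1 / N := by
      intro σ
      show ∑ γ, 1 / N * wt γ = 1 / N
      rw [← Finset.mul_sum, hwt1, mul_one]
    rw [Finset.sum_congr rfl fun σ _ => this σ, Finset.sum_const, nsmul_eq_mul, hNc]
    field_simp
  obtain ⟨i1, i2, Q, hQ, hsing, hint⟩ := wgt_measure w hw0 hw1
  -- integrals of functions of `σ`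
  have hintσ : ∀ f : (T0 k → Equiv.Perm (Fin n)) → ℝ, ∫ ω, f ω.1 ∂Q = 1 / N * ∑ σ, f σ := by
    intro f
    rw [hint, Fintype.sum_prod_type, Finset.mul_sum]
    refine Finset.sum_congr rfl fun σ _ => ?_
    show ∑ γ, 1 / N * wt γ * f σ = 1 / N * f σ
    rw [← Finset.sum_mul, ← Finset.mul_sum, hwt1, mul_one]
  refine ⟨(T0 k → Equiv.Perm (Fin n)) × (Fin n → A), inferInstance, i1, i2, Q, hQ,
    fun ω => mkX (α ω.1) ω.1, fun ω => ω.2, ?_, ?_, ?_, ?_⟩
  · -- entropy
    have hid : Fm (fun ω : (T0 k → Equiv.Perm (Fin n)) × (Fin n → A) => ω) :=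
      fun _ => MeasurableSet.of_discrete
    have hinj : Function.Injective (fun ω : (T0 k → Equiv.Perm (Fin n)) × (Fin n → A) =>
        ((mkX (α ω.1) ω.1, ω.2) : (Lt k → Equiv.Perm (Fin n)) × (Fin n → A))) := by
      rintro ⟨σ, γ⟩ ⟨σ', γ'⟩ h
      have h1 := (Prod.mk.inj h).1
      have h2 : γ = γ' := (Prod.mk.inj h).2
      have h3 : σ = σ' := by
        funext t
        exact congrFun h1 (some t)
      rw [h2, h3]
    have he : ent Q (fun ω : (T0 k → Equiv.Perm (Fin n)) × (Fin n → A) =>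
        ((mkX (α ω.1) ω.1, ω.2) : (Lt k → Equiv.Perm (Fin n)) × (Fin n → A))) =
        ent Q (fun ω : (T0 k → Equiv.Perm (Fin n)) × (Fin n → A) => ω) := ent_inj hid _ hinj
    rw [he, ent_eq, ent_eq]
    have h1 : ∀ ω : (T0 k → Equiv.Perm (Fin n)) × (Fin n → A),
        Real.negMulLog (Q.real ((fun ω => ω) ⁻¹' {ω})) =
        wt ω.2 * Real.negMulLog (1 / N) + 1 / N * Real.negMulLog (wt ω.2) := by
      intro ω
      have : (fun ω : (T0 k → Equiv.Perm (Fin n)) × (Fin n → A) => ω) ⁻¹' {ω} = {ω} := rfl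
      rw [this, hsing, ← Real.negMulLog_mul]
    rw [Finset.sum_congr rfl fun ω _ => h1 ω, Fintype.sum_prod_type]
    have h2 : ∀ σ : T0 k → Equiv.Perm (Fin n), ∑ γ : Fin n → A,
        (wt γ * Real.negMulLog (1 / N) + 1 / N * Real.negMulLog (wt γ)) =
        Real.negMulLog (1 / N) + 1 / N * (n * ∑ a, Real.negMulLog (m a)) := by
      intro σ
      rw [Finset.sum_add_distrib, ← Finset.sum_mul, hwt1, one_mul, ← Finset.mul_sum,
        ← SpI_nml m hm n]
    rw [Finset.sum_congr rfl fun σ _ => h2 σ, Finset.sum_const, nsmul_eq_mul, hNc]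
    have h3 : Real.negMulLog (1 / N) = 1 / N * Real.log N := by
      rw [Real.negMulLog, one_div, Real.log_inv]
      ring
    rw [h3]
    have h4 : N * (1 / N * Real.log N + 1 / N * (n * ∑ a, Real.negMulLog (m a))) =
        Real.log N + n * ∑ a, Real.negMulLog (m a) := by
      field_simp
    rw [h4, hN, SpI_card]
  · -- empirical distributions
    have hb : ∀ b : B, ∫ ω : (T0 k → Equiv.Perm (Fin n)) × (Fin n → A),
        |emp (fun v => F (vt (mkX (α ω.1) ω.1) ω.2 v)) b - (bern G ν).real {y | F (tt g q y) = b}| ∂Q ≤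
        2 * ε1 := by
      intro b
      rw [hint, Fintype.sum_prod_type]
      have h1 : ∀ σ : T0 k → Equiv.Perm (Fin n), ∑ γ : Fin n → A, w (σ, γ) *
          |emp (fun v => F (vt (mkX (α σ) σ) γ v)) b - (bern G ν).real {y | F (tt g q y) = b}| ≤
          1 / N * (1 / n) * (({v | ∃ f ∈ Z2, ¬ (ac (mkX (α σ) σ) f v = v ↔
            FreeGroup.lift g f = 1)}.ncard : ℝ) + Z.card * Real.sqrt n) := by
        intro σ
        have h2 := lawB g ν q hq Z F hF n (mkX (α σ) σ) b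
        have h3 := SpI_bad g Z Z2 hZ2m (mkX (α σ) σ)
        have h4 : ∀ γ : Fin n → A, w (σ, γ) *
            |emp (fun v => F (vt (mkX (α σ) σ) γ v)) b - (bern G ν).real {y | F (tt g q y) = b}| =
            1 / N * (1 / n) * ((∏ u, ν.real (q ⁻¹' {γ u})) *
              |({v | F (vt (mkX (α σ) σ) γ v) = b}.ncard : ℝ) -
                n * (bern G ν).real {y | F (tt g q y) = b}|) := by
          intro γ
          have h5 : emp (fun v => F (vt (mkX (α σ) σ) γ v)) b =
              ({v | F (vt (mkX (α σ) σ) γ v) = b}.ncard : ℝ) / n := by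
            unfold emp
            rw [← Nat.card_coe_set_eq, Nat.card_eq_fintype_card (α := Fin n), Fintype.card_fin]
            rfl
          rw [h5]
          have h6 : ({v | F (vt (mkX (α σ) σ) γ v) = b}.ncard : ℝ) / n -
              (bern G ν).real {y | F (tt g q y) = b} =
              1 / n * (({v | F (vt (mkX (α σ) σ) γ v) = b}.ncard : ℝ) -
                n * (bern G ν).real {y | F (tt g q y) = b}) := by
            field_simp
          rw [h6, abs_mul, abs_of_pos (show (0 : ℝ) < 1 / n by positivity)]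
          show 1 / N * wt γ * _ = _
          ring
        rw [Finset.sum_congr rfl fun γ _ => h4 γ, ← Finset.mul_sum]
        refine mul_le_mul_of_nonneg_left ?_ (by positivity)
        refine le_trans h2 ?_
        have h7 : ({v | ∃ w ∈ Z, ∃ w' ∈ Z, ¬ (ac (mkX (α σ) σ) w v = ac (mkX (α σ) σ) w' v ↔
            FreeGroup.lift g w = FreeGroup.lift g w')}.ncard : ℝ) ≤
            ({v | ∃ f ∈ Z2, ¬ (ac (mkX (α σ) σ) f v = v ↔ FreeGroup.lift g f = 1)}.ncard : ℝ) := by
          exact_mod_cast h3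
        linarith
      refine le_trans (Finset.sum_le_sum fun σ _ => h1 σ) ?_
      rw [← Finset.mul_sum, Finset.sum_add_distrib, Finset.sum_const, nsmul_eq_mul, hNc]
      have h8 : (∑ σ : T0 k → Equiv.Perm (Fin n), ({v | ∃ f ∈ Z2, ¬ (ac (mkX (α σ) σ) f v = v ↔
          FreeGroup.lift g f = 1)}.ncard : ℝ)) + N * (Z.card * Real.sqrt n) ≤ 2 * ε1 * (N * n) := by
        have : N * (Z.card * Real.sqrt n) ≤ N * (ε1 * n) := mul_le_mul_of_nonneg_left hsq hN0.le
        linarith [hα1]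
      calc 1 / N * (1 / n) * ((∑ σ : T0 k → Equiv.Perm (Fin n),
            ({v | ∃ f ∈ Z2, ¬ (ac (mkX (α σ) σ) f v = v ↔
            FreeGroup.lift g f = 1)}.ncard : ℝ)) + N * (Z.card * Real.sqrt n))
          ≤ 1 / N * (1 / n) * (2 * ε1 * (N * n)) := mul_le_mul_of_nonneg_left h8 (by positivity)
        _ = 2 * ε1 := by field_simp
    refine le_trans (Finset.sum_le_sum fun b _ => hb b) ?_
    rw [Finset.sum_const, nsmul_eq_mul, Finset.card_univ]
    have : (Fintype.card B : ℝ) * (2 * ε1) ≤ cB * (2 * ε1) :=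
      mul_le_mul_of_nonneg_right (by rw [hcB]; linarith) (by positivity)
    linarith
  · have h1 := hintσ fun σ => ((defs W (mkX (α σ) σ)).ncard : ℝ)
    show (∫ ω : (T0 k → Equiv.Perm (Fin n)) × (Fin n → A),
      ((defs W (mkX (α ω.1) ω.1)).ncard : ℝ) ∂Q) * Real.log n ≤ ε * n
    rw [h1, mul_assoc, Finset.sum_mul]
    calc 1 / N * ∑ σ, ((defs W (mkX (α σ) σ)).ncard : ℝ) * Real.log n
        ≤ 1 / N * (ε1 * n * N) := mul_le_mul_of_nonneg_left hα2 (by positivity)
      _ = ε1 * n := by field_simp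
      _ ≤ ε * n := mul_le_mul_of_nonneg_right hε1le hn0.le
  · have h1 := hintσ fun σ => (cyc (ac (mkX (α σ) σ) (nn W true)) : ℝ)
    show (∫ ω : (T0 k → Equiv.Perm (Fin n)) × (Fin n → A),
      (cyc (ac (mkX (α ω.1) ω.1) (nn W true)) : ℝ) ∂Q) * Real.log n ≤ ε * n
    rw [h1, mul_assoc, Finset.sum_mul]
    calc 1 / N * ∑ σ, (cyc (ac (mkX (α σ) σ) (nn W true)) : ℝ) * Real.log n
        ≤ 1 / N * (ε1 * n * N) := mul_le_mul_of_nonneg_left hα3 (by positivity)
      _ = ε1 * n := by field_simp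
      _ ≤ ε * n := mul_le_mul_of_nonneg_right hε1le hn0.le

end H33.BO
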