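import Mathlib

/-! # BO.StT : permutations that preserve the classes and fix the T-classes

PROOF. `log_fact`: `exp m ≥ m^m / m!` (`Real.pow_div_factorial_le_exp` with `x = m`), take logarithms (`m = 0` trivial). `stabT`: an injection of `∀ q : {q // ¬ T q}, Equiv.Perm {v // z v = q}` into the set: the permutation that acts by the given permutation on every class `{v | z v = q}` with `¬ T q` and is the identity on the other vertices
(define it by `v ↦ if h : ¬ T (z v) then (e ⟨z v, h⟩ ⟨v, rfl⟩).1 else v`, with inverse from `e.symm`; it preserves `z`); `Fintype.card_pi`, `Fintype.card_perm`; product over the subtype = product with `if` (`Finset.prod_subtype`, `Finset.prod_ite`). Uniform case: compare `DomMulAct.stabilizer_card`. -/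

set_option autoImplicit false

open MeasureTheory

namespace H33.BO

theorem log_fact (m : ℕ) : (m : ℝ) * Real.log m - m ≤ Real.log m.factorial := by
  rcases Nat.eq_zero_or_pos m with h0 | h0
  · subst h0
    simp
  have hm : (0 : ℝ) < (m : ℝ) := by exact_mod_cast h0
  have hf : (0 : ℝ) < (m.factorial : ℝ) := by exact_mod_cast Nat.factorial_pos m
  have h1 := Real.pow_div_factorial_le_exp (m : ℝ) hm.le m
  have h2 : Real.log ((m : ℝ) ^ m / (m.factorial : ℝ)) ≤ m := by
    rw [Real.log_le_iff_le_exp (by positivity)]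
    exact h1
  rw [Real.log_div (by positivity) hf.ne', Real.log_pow] at h2
  linarith

open Classical in
private noncomputable def stT_ext {X : Type} (T : X → Prop) {n : ℕ} (z : Fin n → X)
    (e : ∀ q : {q // ¬ T q}, Equiv.Perm {v // z v = q.1}) (q : X) : Equiv.Perm {v // z v = q} :=
  if h : ¬ T q then e ⟨q, h⟩ else 1

private noncomputable def stT_map {X : Type} (T : X → Prop) {n : ℕ} (z : Fin n → X)
    (e : ∀ q : {q // ¬ T q}, Equiv.Perm {v // z v = q.1}) : Equiv.Perm (Fin n) :=
  (Equiv.sigmaFiberEquiv z).symm.trans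
    ((Equiv.sigmaCongrRight (stT_ext T z e)).trans (Equiv.sigmaFiberEquiv z))

private theorem stT_map_apply {X : Type} (T : X → Prop) {n : ℕ} (z : Fin n → X)
    (e : ∀ q : {q // ¬ T q}, Equiv.Perm {v // z v = q.1}) (v : Fin n) :
    stT_map T z e v = (stT_ext T z e (z v) ⟨v, rfl⟩).1 := rfl

open Classical in
theorem stabT {X : Type} [Fintype X] (T : X → Prop) (n : ℕ) (z : Fin n → X) :
    ∏ q, (if T q then 1 else (Nat.card {v // z v = q}).factorial) ≤
      Nat.card {ρ : Equiv.Perm (Fin n) // ∀ v, z (ρ v) = z v ∧ (T (z v) → ρ v = v)} := by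
  have hcard : ∏ q, (if T q then 1 else (Nat.card {v // z v = q}).factorial) =
      Nat.card (∀ q : {q // ¬ T q}, Equiv.Perm {v // z v = q.1}) := by
    rw [Nat.card_pi]
    have h1 : ∀ q : X, (if T q then 1 else (Nat.card {v // z v = q}).factorial) =
        if ¬ T q then (Nat.card {v // z v = q}).factorial else 1 := by
      intro q
      by_cases h : T q <;> simp [h]
    rw [Finset.prod_congr rfl fun q _ => h1 q, ← Finset.prod_filter,
      Finset.prod_subtype (p := fun q => ¬ T q) (Finset.univ.filter fun q => ¬ T q) (by simp)]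
    apply Finset.prod_congr rfl
    intro q _
    rw [Nat.card_eq_fintype_card, Nat.card_eq_fintype_card, Fintype.card_perm]
  rw [hcard]
  have hmem : ∀ e : (∀ q : {q // ¬ T q}, Equiv.Perm {v // z v = q.1}),
      ∀ v, z (stT_map T z e v) = z v ∧ (T (z v) → stT_map T z e v = v) := by
    intro e v
    rw [stT_map_apply]
    refine ⟨(stT_ext T z e (z v) ⟨v, rfl⟩).2, fun hT => ?_⟩
    have h1 : stT_ext T z e (z v) = 1 := by
      unfold stT_ext
      rw [dif_neg (not_not.2 hT)]
    rw [h1]
    rfl
  refine Nat.card_le_card_of_injective (fun e => ⟨stT_map T z e, hmem e⟩) ?_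
  intro e1 e2 h12
  have h : stT_map T z e1 = stT_map T z e2 := congrArg Subtype.val h12
  funext q
  rcases q with ⟨q, hq⟩
  refine Equiv.ext (fun x => Subtype.ext ?_)
  obtain ⟨v, hv0⟩ := x
  have hq2 : q = z v := hv0.symm
  subst hq2
  have hv := congrArg (fun ρ : Equiv.Perm (Fin n) => ρ v) h
  simp only [stT_map_apply] at hv
  have h1 : ∀ e : (∀ q : {q // ¬ T q}, Equiv.Perm {v // z v = q.1}),
      stT_ext T z e (z v) = e ⟨z v, hq⟩ := by
    intro e
    unfold stT_ext
    rw [dif_pos hq]
  rw [h1, h1] at hv
  exact hv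

end H33.BO
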