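import Pool.Agent.H33.BO.PatA
import Pool.Agent.H33.BO.Defs2

/-! # BO.WinA : the patterns of the vertices of a finite structure

PROOF. `vt_ac`: `vt X γ (ac X f v) w = γ (ac X w (ac X f v)) = γ (ac X (w * f) v) = ca f (vt X γ v) w`. `winA1`: `pat_congr` with `θ := vt X γ` at the point `ac X (bgw W j) v`. `winA2`: the path of `v` is short (`hs (vt X γ v)`, `shrt_congr`); `pdir_pat`, `pat_tail`, `pdp_tail`. -/

set_option autoImplicit false

open MeasureTheory H31.BE

namespace H33.BO

variable {k : ℕ} {V A Λ : Type} (W : Wd k) (X : Lt k → Equiv.Perm V) (γ : V → A)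
  (β : (Fg k → A) → Λ) (d : (Fg k → A) → Option Bool) (r : ℕ)

theorem vt_ac (f : Fg k) (v : V) : vt X γ (ac X f v) = ca f (vt X γ v) := by
  funext w
  show γ (ac X w (ac X f v)) = γ (ac X (w * f) v)
  rw [map_mul, Equiv.Perm.mul_apply]

theorem winA1 (v : V) (j : Bg k W.length) :
    (bpat W ca β d (r + 1) (vt X γ v) j).1 =
      pat (fun c => ac X (nn W c)) (fun v => β (vt X γ v)) (fun v => d (vt X γ v)) (r + 1) (ac X (bgw W j) v) := by
  show pat (fun c => ca (nn W c)) β d (r + 1) (ca (bgw W j) (vt X γ v)) = _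
  rw [← vt_ac]
  exact pat_congr (vt X γ) (fun c => ac X (nn W c)) (fun c => ca (nn W c)) (fun v => β (vt X γ v)) β
    (fun v => d (vt X γ v)) d (fun c z => vt_ac X γ (nn W c) z) (fun _ => rfl) (fun _ => rfl) (r + 1)
    (ac X (bgw W j) v)

theorem winA2 (hs : ∀ t, shrt (fun c => ca (nn W c)) d r t) (v : V) (c : Bool)
    (hc : pdir (pat (fun c => ac X (nn W c)) (fun v => β (vt X γ v)) (fun v => d (vt X γ v)) (r + 1) v) = some c) :
    pdp (pat (fun c => ac X (nn W c)) (fun v => β (vt X γ v)) (fun v => d (vt X γ v)) (r + 1) (ac X (nn W c) v)) <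
      pdp (pat (fun c => ac X (nn W c)) (fun v => β (vt X γ v)) (fun v => d (vt X γ v)) (r + 1) v) := by
  have hd : d (vt X γ v) = some c := by
    rw [pdir_pat] at hc
    exact hc
  have hsh : shrt (fun c => ac X (nn W c)) (fun v => d (vt X γ v)) r v :=
    (shrt_congr (vt X γ) (fun c => ac X (nn W c)) (fun c => ca (nn W c)) (fun v => d (vt X γ v)) d
      (fun c z => vt_ac X γ (nn W c) z) (fun _ => rfl) r v).1 (hs (vt X γ v))
  have ht := pat_tail (fun c => ac X (nn W c)) (fun v => β (vt X γ v)) (fun v => d (vt X γ v)) r v c hsh hd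
  rw [pdp_tail _ c hc, ht]
  exact Nat.lt_succ_self _

end H33.BO
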