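import Pool.Agent.H33.BO.CcvA
import Pool.Agent.H33.BO.CntF
import Pool.Agent.H31.BE.EntD

/-! # BO.WinE : entropies of arrays with a known empirical distribution

PROOF. `emp_map`: `emp (φ ∘ F) c = ∑ b with φ b = c, emp F b`, triangle inequality. `ent_arr`: `ent Q f ≤ ∑ v, ent Q (f v)` (`ent_pi_le`) `≤ n ∑ b negMulLog (∫ emp (f ω) b)` (`ccv` with the one point type for `β`, or directly concavity of `negMulLog`), then `cnt_lin` for `cont_H` at `p0`, `|∫ emp - p0| ≤ ∫ |emp - p0|`. `entc_arr`: `entc Q f g ≤ ∑ v, entc Q (f v) (g v)` (`entc_pi_le`, `entc_anti`), `ccv`, `cnt_lin` for `cont_Hc` at `p0`.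
`Gn_arr`: `cnt_lin` for `cont_Gn` at `p0`, pointwise for `emp (Φ ω)` (values in `[0, 1]`), integrate. -/

set_option autoImplicit false

open MeasureTheory H31.BE

namespace H33.BO

private theorem wine_emp01 {V B : Type} [Finite V] (F : V → B) (b : B) : 0 ≤ emp F b ∧ emp F b ≤ 1 := by
  unfold emp
  constructor
  · positivity
  · apply div_le_one_of_le₀ _ (Nat.cast_nonneg _)
    exact_mod_cast Finite.card_subtype_le (fun u => F u = b)

theorem emp_map {V B C : Type} [Finite V] [Fintype B] [Fintype C] [DecidableEq C] (F : V → B) (p0 : B → ℝ)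
    (φ : B → C) :
    ∑ c, |emp (fun v => φ (F v)) c - ∑ b with φ b = c, p0 b| ≤ ∑ b, |emp F b - p0 b| := by
  classical
  let _ : Fintype V := Fintype.ofFinite V
  have h1 : ∀ c, emp (fun v => φ (F v)) c = ∑ b with φ b = c, emp F b := by
    intro c
    unfold emp
    rw [← Finset.sum_div]
    congr 1
    have h2 : ∀ b, (Nat.card {u // F u = b} : ℝ) = ((Finset.univ.filter fun u => F u = b).card : ℝ) := by
      intro b
      rw [Nat.card_eq_fintype_card, Fintype.card_subtype]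
    simp_rw [h2]
    rw [Nat.card_eq_fintype_card, Fintype.card_subtype, ← Nat.cast_sum]
    congr 1
    rw [Finset.card_eq_sum_card_fiberwise (f := F) (t := Finset.univ.filter fun b => φ b = c)]
    · refine Finset.sum_congr rfl fun b hb => ?_
      congr 1
      ext u
      simp only [Finset.mem_filter, Finset.mem_univ, true_and] at hb ⊢
      constructor
      · exact fun h => h.2
      · intro h
        exact ⟨by rw [h]; exact hb, h⟩
    · intro u hu
      simpa using hu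
  calc ∑ c, |emp (fun v => φ (F v)) c - ∑ b with φ b = c, p0 b|
      = ∑ c, |∑ b with φ b = c, (emp F b - p0 b)| := by
        refine Finset.sum_congr rfl fun c _ => ?_
        rw [h1, Finset.sum_sub_distrib]
    _ ≤ ∑ c, ∑ b with φ b = c, |emp F b - p0 b| :=
        Finset.sum_le_sum fun c _ => Finset.abs_sum_le_sum_abs _ _
    _ = ∑ b, |emp F b - p0 b| := Finset.sum_fiberwise _ _ _

private theorem wine_sum_emp {V B : Type} [Finite V] [Nonempty V] [Fintype B] (F : V → B) :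
    ∑ b, emp F b = 1 := by
  classical
  let _ : Fintype V := Fintype.ofFinite V
  unfold emp
  rw [← Finset.sum_div]
  have h2 : ∀ b, (Nat.card {u // F u = b} : ℝ) = ((Finset.univ.filter fun u => F u = b).card : ℝ) := by
    intro b
    rw [Nat.card_eq_fintype_card, Fintype.card_subtype]
  simp_rw [h2]
  rw [← Nat.cast_sum, ← Finset.card_eq_sum_card_fiberwise (f := F) (t := Finset.univ)
    (fun _ _ => Finset.mem_coe.2 (Finset.mem_univ _)), Nat.card_eq_fintype_card, Finset.card_univ]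
  exact div_self (by exact_mod_cast Fintype.card_ne_zero)

private theorem wine_int {Ω : Type} [Finite Ω] [MeasurableSpace Ω] [DiscreteMeasurableSpace Ω]
    (Q : Measure Ω) [IsProbabilityMeasure Q] (h : Ω → ℝ) : Integrable h Q := Integrable.of_finite

private theorem wine_mean01 {Ω : Type} [Finite Ω] [MeasurableSpace Ω] [DiscreteMeasurableSpace Ω]
    (Q : Measure Ω) [IsProbabilityMeasure Q] (h : Ω → ℝ) (h0 : ∀ ω, 0 ≤ h ω ∧ h ω ≤ 1) :
    0 ≤ ∫ ω, h ω ∂Q ∧ ∫ ω, h ω ∂Q ≤ 1 := by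
  refine ⟨integral_nonneg fun ω => (h0 ω).1, ?_⟩
  have h1 : ∫ ω, h ω ∂Q ≤ ∫ _, (1 : ℝ) ∂Q :=
    integral_mono (wine_int Q h) (wine_int Q _) fun ω => (h0 ω).2
  simpa using h1

private theorem wine_dev {Ω : Type} [Finite Ω] [MeasurableSpace Ω] [DiscreteMeasurableSpace Ω]
    (Q : Measure Ω) [IsProbabilityMeasure Q] (h : Ω → ℝ) (c : ℝ) :
    |(∫ ω, h ω ∂Q) - c| ≤ ∫ ω, |h ω - c| ∂Q := by
  have h1 : (∫ ω, h ω ∂Q) - c = ∫ ω, (h ω - c) ∂Q := by
    rw [integral_sub (wine_int Q h) (wine_int Q _)]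
    simp
  rw [h1]
  exact abs_integral_le_integral_abs

theorem ent_arr {B : Type} [Fintype B] (p0 : B → ℝ) (ε : ℝ) (hε : 0 < ε) : ∃ C : ℝ, 0 ≤ C ∧
    ∀ (Ω : Type) [Finite Ω] [MeasurableSpace Ω] [DiscreteMeasurableSpace Ω] (Q : Measure Ω)
      [IsProbabilityMeasure Q] (n : ℕ) (_ : 1 ≤ n) (f : Ω → Fin n → B),
      ent Q f ≤ n * ((∑ b, Real.negMulLog (p0 b)) + ε + C * ∑ b, ∫ ω, |emp (f ω) b - p0 b| ∂Q) := by
  obtain ⟨C, hC, h⟩ := cnt_lin (fun p : B → ℝ => ∑ i, Real.negMulLog (p i)) cont_H p0 ε hε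
  refine ⟨C, hC, ?_⟩
  intro Ω _ _ _ Q _ n hn f
  have : Nonempty (Fin n) := ⟨⟨0, hn⟩⟩
  have hn' : (0 : ℝ) ≤ n := Nat.cast_nonneg n
  have hf : ∀ v, Fm (fun ω => f ω v) := fun v a => MeasurableSet.of_discrete
  have h1 : ent Q f ≤ ∑ v, ent Q (fun ω => f ω v) :=
    ent_pi_le (P := Q) (f := fun v ω => f ω v) hf
  have h2 := ccv Q n hn f (fun _ _ => ()) hf (fun _ => Fm.const ())
  have h3 : ∀ v, entc Q (fun ω => f ω v) (fun _ => ()) = ent Q (fun ω => f ω v) := by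
    intro v
    unfold entc
    rw [entC_unit (P := Q) (hf v), ent_const (), sub_zero]
  have h4 : ∀ ω a, emp (fun v => (f ω v, ())) (a, ()) = emp (f ω) a := by
    intro ω a
    unfold emp
    simp
  have h5 : ∑ a, ∫ ω, emp (f ω) a ∂Q = 1 := by
    rw [← integral_finsetSum _ fun a _ => wine_int Q _]
    simp [wine_sum_emp]
  simp only [h3, Finset.univ_unique, Finset.sum_singleton, PUnit.default_eq_unit, h4, h5,
    Real.negMulLog_one, sub_zero] at h2
  have h6 := h (fun b => ∫ ω, emp (f ω) b ∂Q) fun b =>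
    wine_mean01 Q _ fun ω => wine_emp01 (f ω) b
  have h7 := (abs_le.1 h6).2
  have h8 : ∑ b, |(∫ ω, emp (f ω) b ∂Q) - p0 b| ≤ ∑ b, ∫ ω, |emp (f ω) b - p0 b| ∂Q :=
    Finset.sum_le_sum fun b _ => wine_dev Q _ _
  have h9 := mul_le_mul_of_nonneg_left h8 hC
  refine h1.trans (h2.trans (mul_le_mul_of_nonneg_left ?_ hn'))
  beta_reduce at h7
  linarith

theorem entc_arr {A B : Type} [Fintype A] [Fintype B] (p0 : A × B → ℝ) (ε : ℝ) (hε : 0 < ε) : ∃ C : ℝ, 0 ≤ C ∧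
    ∀ (Ω : Type) [Finite Ω] [MeasurableSpace Ω] [DiscreteMeasurableSpace Ω] (Q : Measure Ω)
      [IsProbabilityMeasure Q] (n : ℕ) (_ : 1 ≤ n) (f : Ω → Fin n → A) (g : Ω → Fin n → B),
      entc Q f g ≤ n * ((∑ a, ∑ b, Real.negMulLog (p0 (a, b))) - (∑ b, Real.negMulLog (∑ a, p0 (a, b))) + ε +
        C * ∑ c, ∫ ω, |emp (fun v => (f ω v, g ω v)) c - p0 c| ∂Q) := by
  obtain ⟨C, hC, h⟩ := cnt_lin (fun p : A × B → ℝ => (∑ a, ∑ b, Real.negMulLog (p (a, b))) -
      ∑ b, Real.negMulLog (∑ a, p (a, b))) cont_Hc p0 ε hε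
  refine ⟨C, hC, ?_⟩
  intro Ω _ _ _ Q _ n hn f g
  have hn' : (0 : ℝ) ≤ n := Nat.cast_nonneg n
  have hf : ∀ v, Fm (fun ω => f ω v) := fun v a => MeasurableSet.of_discrete
  have hg : ∀ v, Fm (fun ω => g ω v) := fun v a => MeasurableSet.of_discrete
  have hg0 : Fm g := fun a => MeasurableSet.of_discrete
  have h1 : entc Q f g ≤ ∑ v, entc Q (fun ω => f ω v) g :=
    entc_pi_le (P := Q) (f := fun v ω => f ω v) hf hg0
  have h1' : ∑ v, entc Q (fun ω => f ω v) g ≤ ∑ v, entc Q (fun ω => f ω v) (fun ω => g ω v) :=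
    Finset.sum_le_sum fun v _ => entc_anti (P := Q) (hf v) hg0 (fun y => y v)
  have h2 := ccv Q n hn f g hf hg
  have h6 := h (fun c => ∫ ω, emp (fun v => (f ω v, g ω v)) c ∂Q) fun c =>
    wine_mean01 Q _ fun ω => wine_emp01 _ c
  have h7 := (abs_le.1 h6).2
  have h8 : ∑ c, |(∫ ω, emp (fun v => (f ω v, g ω v)) c ∂Q) - p0 c| ≤
      ∑ c, ∫ ω, |emp (fun v => (f ω v, g ω v)) c - p0 c| ∂Q :=
    Finset.sum_le_sum fun b _ => wine_dev Q _ _
  have h9 := mul_le_mul_of_nonneg_left h8 hC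
  refine h1.trans (h1'.trans (h2.trans (mul_le_mul_of_nonneg_left ?_ hn')))
  beta_reduce at h7
  linarith

theorem Gn_arr {k : ℕ} (W : Wd k) {P : Type} [Finite P] (dir : P → Option Bool)
    [Fintype (Bg k W.length → P)] (p0 : (Bg k W.length → P) → ℝ) (ε : ℝ) (hε : 0 < ε) : ∃ C : ℝ, 0 ≤ C ∧
    ∀ (Ω : Type) [Finite Ω] [MeasurableSpace Ω] [DiscreteMeasurableSpace Ω] (Q : Measure Ω)
      [IsProbabilityMeasure Q] (n : ℕ) (_ : 1 ≤ n) (Φ : Ω → Fin n → Bg k W.length → P),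
      Gn W dir p0 - ε - C * ∑ t, ∫ ω, |emp (Φ ω) t - p0 t| ∂Q ≤ ∫ ω, Gn W dir (emp (Φ ω)) ∂Q := by
  obtain ⟨C, hC, h⟩ := cnt_lin (Gn W dir) (cont_Gn W dir) p0 ε hε
  refine ⟨C, hC, ?_⟩
  intro Ω _ _ _ Q _ n hn Φ
  have h1 : ∀ ω, Gn W dir p0 - ε - C * ∑ t, |emp (Φ ω) t - p0 t| ≤ Gn W dir (emp (Φ ω)) := by
    intro ω
    have h2 := (abs_le.1 (h (emp (Φ ω)) fun i => wine_emp01 _ i)).1
    linarith
  have h3 : ∫ ω, (Gn W dir p0 - ε - C * ∑ t, |emp (Φ ω) t - p0 t|) ∂Q =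
      Gn W dir p0 - ε - C * ∑ t, ∫ ω, |emp (Φ ω) t - p0 t| ∂Q := by
    rw [integral_sub (wine_int Q _) (wine_int Q _), integral_const_mul,
      integral_finsetSum _ fun a _ => wine_int Q _]
    simp
  rw [← h3]
  exact integral_mono (wine_int Q _) (wine_int Q _) h1

end H33.BO
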