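import Pool.Agent.H33.BO.Enc
import Pool.Agent.H33.BO.SpI
import Pool.Agent.H33.BO.WinA
import Pool.Agent.H33.BO.WinE
import Pool.Agent.H33.BO.LocA
import Pool.Agent.H33.BO.StT
import Pool.Agent.H33.BO.FmA
import Pool.Agent.H31.BE.EntE

/-! # BO.WinI : Part I for window functions (paper 2.6)

NOTATION: `Pt := Pt Λ (r + 1)`, `dir p = pdir p.1`, `P := bern G ν`, `Ψ t := bpat W ca β d (r + 1) t`, `F t := (Ψ t, β t, t 1, d t)` (finite valued, `Loc` for some window: `loc_bpat`, `loc_pair`, `{1}`), `p0 := law P (Ψ ∘ tt g q)`, `δ := P.real {d (tt g q y) = none}`, `lg := log (Nat.card Pt + 2)`.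
Let `ε > 0`. `ent_arr` and `Gn_arr` for `p0`, `entc_arr` for the law of `(q (y 1), β (tt g q y))`, with `ε`: constants, `C` := their sum. Take the space of `spI` for `F` and `ε1 := min ε (ε / (C + 1))`, `n` large; by `emp_map` for every function `φ` of `F` the quantity `∑ c, ∫ |emp (φ ∘ F) c - law|` is at most `ε1`.
On the space: `φ ω v : Pt := ⟨pat (fun c => ac (X ω) (nn W c)) (β ∘ vt (X ω) (γ ω)) (d ∘ vt ..) (r + 1) v, _⟩`, `Φ ω v j := φ ω (ac (X ω) (bgw W j) v) = Ψ (vt (X ω) (γ ω) v) j` (`winA1`). `dpt ω v := pdp (φ ω v).1`; `hdpt`: `winA2`.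
CHAIN: `(k+1) log n! + n ent ν q ≤ ent (X, γ) ≤ ent Φ + entc X Φ + entc γ Φ` (`entc_chain`, `entc_anti`). `ent Φ ≤ n (H(p0) + 2 ε)` (`ent_arr`). `entc X Φ`: `enc` with `N := max 3 ((Nat.card Pt) ^ (W.length + 2))` (`(ifc W s).card ≤ W.length + 2`; `log N ≤ (W.length + 2) * lg` since `Nat.card Pt + 2 ≥ 3`), `∫ Gn (emp Φ) ≥ Gn p0 - 2 ε` (`Gn_arr`), `E roots ≤ n (δ + ε)` (`roots = {v | d (vt v) = none}` by `pdir_pat`, its number is `n * emp (d ∘ vt) none`).
`entc γ Φ ≤ entc γ (β ∘ vt)` (`β (vt v)` is the first component of the first entry of `φ ω v = Φ ω v e_0`: `bgw W e_0 = 1`) `≤ n (entc P (q (y 1)) (β (tt g q y)) + 2 ε)` (`entc_arr`; `vt X γ v 1 = γ v`, `tt g q y 1 = q (y 1)`; `ent_eq` to identify the value at `p0` with `entc`).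
`log n! ≥ n log n - n`. Divide by `n`: `ent ν q - entc ≤ Fn p0 + (k + 1) + (2 (k + 2) + 1) log 2 + (k + 2) + 2 (W.length + 2) lg (δ + 6 ε) + 20 ε`, and let `ε → 0` (`le_of_forall_pos_le_add`, the constants do not depend on `ε`). `CI W = 10 (l + k + 5)^2` is larger than `(k+1) + (2k+5) + (k+2)` and than `2 (l + 2)`. -/

set_option autoImplicit false

open MeasureTheory H31.BE

namespace H33.BO

private theorem winI_fib {Y B C : Type} [MeasurableSpace Y] [Fintype B] [DecidableEq C] (P : Measure Y)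
    [IsProbabilityMeasure P] (f : Y → B) (hf : Fm f) (φ : B → C) (c : C) :
    P.real {y | φ (f y) = c} = ∑ b with φ b = c, P.real {y | f y = b} := by
  classical
  rw [← measureReal_biUnion_finset]
  · congr 1
    ext y
    simp
  · intro i _ j _ hij
    refine Set.disjoint_left.2 ?_
    intro y h3 h4
    exact hij (h3.symm.trans h4)
  · intro b _
    exact hf b

private theorem winI_map {Ω V B C : Type} [Finite Ω] [MeasurableSpace Ω] [DiscreteMeasurableSpace Ω]
    (Q : Measure Ω) [IsProbabilityMeasure Q] [Finite V] [Fintype B] [Fintype C] [DecidableEq C]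
    (Fv : Ω → V → B) (pF : B → ℝ) (φ : B → C) (pφ : C → ℝ) (h : ∀ c, pφ c = ∑ b with φ b = c, pF b) (ε : ℝ)
    (hε : ∑ b, ∫ ω, |emp (Fv ω) b - pF b| ∂Q ≤ ε) :
    ∑ c, ∫ ω, |emp (fun v => φ (Fv ω v)) c - pφ c| ∂Q ≤ ε := by
  refine le_trans ?_ hε
  rw [← integral_finset_sum _ (fun _ _ => Integrable.of_finite),
    ← integral_finset_sum _ (fun _ _ => Integrable.of_finite)]
  refine integral_mono Integrable.of_finite Integrable.of_finite ?_
  intro ω
  have h1 := emp_map (Fv ω) pF φ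
  simp only [← h] at h1
  exact h1

theorem winI {k : ℕ} {G : Type} [Group G] [DecidableEq G] (W : Wd k) (g : Lt k → G) (hg : Pres W g)
    (ν : Measure ℝ) [IsProbabilityMeasure ν] {A Λ : Type} [Finite A] [Finite Λ] (q : ℝ → A) (hq : Fm q)
    (Z : Finset (Fg k)) (β : (Fg k → A) → Λ) (d : (Fg k → A) → Option Bool) (hβ : Loc Z β) (hd : Loc Z d)
    (r : ℕ) (hs : ∀ t, shrt (fun c => ca (nn W c)) d r t) :
    ent ν q - entc (bern G ν) (fun y => q (y 1)) (fun y => β (tt g q y)) ≤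
      Fn W (fun p : Pt Λ (r + 1) => pdir p.1) (law (bern G ν) (fun y => bpat W ca β d (r + 1) (tt g q y))) +
      CI W + CI W * (bern G ν).real {y | d (tt g q y) = none} * Real.log (Nat.card (Pt Λ (r + 1)) + 2) := by
  classical
  letI : Fintype A := Fintype.ofFinite A
  letI : Fintype Λ := Fintype.ofFinite Λ
  letI : Fintype (Bg k W.length → Pt Λ (r + 1)) := Fintype.ofFinite _
  set Pm : Measure (Bsh G) := bern G ν with hPm
  set Ψ : (Fg k → A) → (Bg k W.length → Pt Λ (r + 1)) := bpat W ca β d (r + 1) with hΨ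
  set dir : Pt Λ (r + 1) → Option Bool := fun p => pdir p.1 with hdir
  set Pc : ℕ := Nat.card (Pt Λ (r + 1)) with hPc
  have hPc1 : 1 ≤ Pc := by
    haveI : Nonempty (Pt Λ (r + 1)) := ⟨⟨[], by simp⟩⟩
    exact Nat.card_pos
  set lg : ℝ := Real.log ((Pc : ℝ) + 2) with hlgdef
  have hPcR : (1 : ℝ) ≤ Pc := by exact_mod_cast hPc1
  have hlg0 : 0 ≤ lg := Real.log_nonneg (by linarith)
  set N : ℕ := max 3 (Pc ^ (W.length + 2)) with hN
  set L0 : ℝ := Real.log N with hL0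
  have hL00 : 0 ≤ L0 := Real.log_nonneg (by
    have h1 : 3 ≤ N := le_max_left _ _
    have h2 : (3 : ℝ) ≤ N := by exact_mod_cast h1
    linarith)
  have hL0le : L0 ≤ ((W.length : ℝ) + 2) * lg := by
    have hcases : N = 3 ∨ N = Pc ^ (W.length + 2) := max_choice 3 (Pc ^ (W.length + 2))
    rcases hcases with h1 | h1
    · have h2 : Real.log (N : ℝ) ≤ lg := by
        rw [h1]
        refine Real.log_le_log (by norm_num) ?_
        push_cast
        linarith
      have h3 : lg ≤ ((W.length : ℝ) + 2) * lg := by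
        have : (0 : ℝ) ≤ W.length := Nat.cast_nonneg _
        nlinarith
      linarith
    · rw [hL0, h1]
      push_cast
      rw [Real.log_pow]
      push_cast
      refine mul_le_mul_of_nonneg_left ?_ (by positivity)
      exact Real.log_le_log (by linarith) (by linarith)
  have hq3 : ∀ s, Nat.card (Qi W (Pt Λ (r + 1)) s) ≤ N := by
    intro s
    refine le_trans ?_ (le_max_right _ _)
    have h1 : Nat.card (Qi W (Pt Λ (r + 1)) s) = Pc ^ (ifc W s).card := by
      rw [Nat.card_fun, Nat.card_eq_fintype_card (α := ↥(ifc W s)), Fintype.card_coe]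
    rw [h1]
    refine Nat.pow_le_pow_right (by omega) ?_
    rcases s with _ | _ | i
    · have h2 : (ifc W (none : Lt k)).card ≤ 2 := Finset.card_le_two
      omega
    · have h2 : (ifc W (some none : Lt k)).card ≤ 2 := Finset.card_le_two
      omega
    · show (insert _ _ : Finset _).card ≤ _
      refine (Finset.card_insert_le _ _).trans ?_
      have h3 := (Finset.card_image_le (s := Finset.univ.filter fun j : Fin W.length => (W.get j).1 = i)
        (f := fun j => if (W.get j).2 then ((Sum.inl j.succ, Sum.inl j.castSucc) : Bg k W.length × Bg k W.length)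
          else (Sum.inl j.castSucc, Sum.inl j.succ)))
      have h4 : (Finset.univ.filter fun j : Fin W.length => (W.get j).1 = i).card ≤ W.length := by
        refine (Finset.card_filter_le _ _).trans ?_
        simp
      omega
  -- locality
  obtain ⟨Z1, hZ1⟩ := loc_bpat W Z β d hβ hd (r + 1)
  have hone : Loc ({1} : Finset (Fg k)) (fun t : Fg k → A => t 1) := fun t t' h => h 1 (Finset.mem_singleton_self _)
  obtain ⟨Z2, hZ2⟩ := loc_pair hone hβ
  obtain ⟨Z3, hZ3⟩ := loc_pair hZ2 hd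
  obtain ⟨Z4, hZ4⟩ := loc_pair hZ1 hZ3
  set F : (Fg k → A) → (Bg k W.length → Pt Λ (r + 1)) × ((A × Λ) × Option Bool) :=
    fun t => (Ψ t, ((t 1, β t), d t)) with hFdef
  have hF : Loc Z4 F := hZ4
  have hFm : Fm (fun y : Bsh G => F (tt g q y)) := fm_loc g q hq Z4 F hF
  set pF : (Bg k W.length → Pt Λ (r + 1)) × ((A × Λ) × Option Bool) → ℝ :=
    fun b => Pm.real {y | F (tt g q y) = b} with hpF
  set p0 : (Bg k W.length → Pt Λ (r + 1)) → ℝ := law Pm (fun y => Ψ (tt g q y)) with hp0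
  set p1 : A × Λ → ℝ := fun c => Pm.real {y | (q (y 1), β (tt g q y)) = c} with hp1
  set p2 : Option Bool → ℝ := fun c => Pm.real {y | d (tt g q y) = c} with hp2
  set δ : ℝ := Pm.real {y | d (tt g q y) = none} with hδ
  have htt1 : ∀ y : Bsh G, tt g q y 1 = q (y 1) := by
    intro y
    show q ((FreeGroup.lift g 1 • y) 1) = q (y 1)
    rw [map_one, one_smul]
  have hp0F : ∀ c, p0 c = ∑ b with b.1 = c, pF b := by
    intro c
    exact winI_fib Pm (fun y => F (tt g q y)) hFm (fun b => b.1) c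
  have hp1F : ∀ c, p1 c = ∑ b with b.2.1 = c, pF b := by
    intro c
    rw [← winI_fib Pm (fun y => F (tt g q y)) hFm (fun b => b.2.1) c]
    show Pm.real {y | (q (y 1), β (tt g q y)) = c} = Pm.real {y | (tt g q y 1, β (tt g q y)) = c}
    simp only [htt1]
  have hp2F : ∀ c, p2 c = ∑ b with b.2.2 = c, pF b := by
    intro c
    exact winI_fib Pm (fun y => F (tt g q y)) hFm (fun b => b.2.2) c
  -- the conditional entropy
  have hqm : Fm (fun y : Bsh G => q (y 1)) := Fm.lab (G := G) hq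
  have hβm : Fm (fun y : Bsh G => β (tt g q y)) := fm_loc g q hq Z β hβ
  have hHc : (∑ a, ∑ b, Real.negMulLog (p1 (a, b))) - (∑ b, Real.negMulLog (∑ a, p1 (a, b))) =
      entc Pm (fun y => q (y 1)) (fun y => β (tt g q y)) := by
    unfold entc
    rw [ent_eq, ent_eq, Fintype.sum_prod_type]
    congr 1
    refine Finset.sum_congr rfl fun b _ => ?_
    congr 1
    have h1 := winI_fib Pm (fun y => (q (y 1), β (tt g q y))) (hqm.prodMk hβm) (fun c => c.2) b
    have h2 : Pm.real ((fun y => β (tt g q y)) ⁻¹' {b}) = ∑ c with c.2 = b, p1 c := h1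
    rw [h2, Finset.sum_filter, Fintype.sum_prod_type]
    refine Finset.sum_congr rfl fun a _ => ?_
    rw [Finset.sum_ite_eq' Finset.univ b (fun b => p1 (a, b))]
    simp
  -- epsilon
  refine le_of_forall_pos_le_add fun ε' hε' => ?_
  set ε : ℝ := ε' / 12 with hεdef
  have hε : 0 < ε := by positivity
  obtain ⟨C1, hC1, hA1⟩ := ent_arr p0 ε hε
  obtain ⟨C2, hC2, hA2⟩ := Gn_arr W dir p0 ε hε
  obtain ⟨C3, hC3, hA3⟩ := entc_arr p1 ε hε
  set D : ℝ := C1 + C2 + C3 + 12 * L0 + 1 with hD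
  have hDpos : 0 < D := by positivity
  set ε1 : ℝ := min ε (ε / D) with hε1
  have hε1pos : 0 < ε1 := lt_min hε (by positivity)
  have hε1ε : ε1 ≤ ε := min_le_left _ _
  have hDε : D * ε1 ≤ ε := by
    calc D * ε1 ≤ D * (ε / D) := mul_le_mul_of_nonneg_left (min_le_right _ _) hDpos.le
      _ = ε := by field_simp
  have hsumD : C1 * ε1 + C2 * ε1 + C3 * ε1 + 12 * L0 * ε1 ≤ ε := by
    have : D * ε1 = C1 * ε1 + C2 * ε1 + C3 * ε1 + 12 * L0 * ε1 + ε1 := by rw [hD]; ring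
    linarith
  obtain ⟨n0, hn0⟩ := spI W g hg ν q hq Z4 F hF ε1 hε1pos
  obtain ⟨n, hn1, hn3⟩ : ∃ n : ℕ, n0 ≤ n ∧ 3 ≤ n := ⟨max n0 3, le_max_left _ _, le_max_right _ _⟩
  obtain ⟨Ω, _, _, _, Q, _, X, γ, hs1, hs2, hs3, hs4⟩ := hn0 n hn1
  have hnR : (3 : ℝ) ≤ n := by exact_mod_cast hn3
  have hn : 1 ≤ n := by omega
  have hnpos : (0 : ℝ) < n := by linarith
  have hlogn : 1 ≤ Real.log n := by
    rw [Real.le_log_iff_exp_le hnpos]
    exact (Real.exp_one_lt_d9.le.trans (by norm_num)).trans hnR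
  have hall : ∀ {T : Type} (f : Ω → T), Fm f := fun f a => MeasurableSet.of_discrete
  set φ : Ω → Fin n → Pt Λ (r + 1) := fun ω v =>
    ⟨pat (fun c => ac (X ω) (nn W c)) (fun v => β (vt (X ω) (γ ω) v)) (fun v => d (vt (X ω) (γ ω) v)) (r + 1) v,
      pat_length _ _ _ _ _⟩ with hφ
  set Φ : Ω → Fin n → (Bg k W.length → Pt Λ (r + 1)) := fun ω v j => φ ω (ac (X ω) (bgw W j) v) with hΦ
  have hΦΨ : ∀ ω v, Φ ω v = Ψ (vt (X ω) (γ ω) v) := by
    intro ω v
    funext j
    exact Subtype.ext (winA1 W (X ω) (γ ω) β d r v j).symm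
  have hSΦ : ∑ t, ∫ ω, |emp (Φ ω) t - p0 t| ∂Q ≤ ε1 := by
    have h1 := winI_map Q (fun ω v => F (vt (X ω) (γ ω) v)) pF (fun b => b.1) p0 hp0F ε1 hs2
    have h2 : ∀ ω, (fun v => (F (vt (X ω) (γ ω) v)).1) = Φ ω := by
      intro ω
      funext v
      exact (hΦΨ ω v).symm
    simp only [h2] at h1
    exact h1
  have hvt1 : ∀ ω v, vt (X ω) (γ ω) v 1 = γ ω v := by
    intro ω v
    show γ ω (ac (X ω) 1 v) = γ ω v
    rw [map_one]
    rfl
  have hS1 : ∑ c, ∫ ω, |emp (fun v => (γ ω v, β (vt (X ω) (γ ω) v))) c - p1 c| ∂Q ≤ ε1 := by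
    have h1 := winI_map Q (fun ω v => F (vt (X ω) (γ ω) v)) pF (fun b => b.2.1) p1 hp1F ε1 hs2
    have h2 : ∀ ω, (fun v => (F (vt (X ω) (γ ω) v)).2.1) = fun v => (γ ω v, β (vt (X ω) (γ ω) v)) := by
      intro ω
      funext v
      show (vt (X ω) (γ ω) v 1, β (vt (X ω) (γ ω) v)) = _
      rw [hvt1]
    simp only [h2] at h1
    exact h1
  have hS2 : ∑ c, ∫ ω, |emp (fun v => d (vt (X ω) (γ ω) v)) c - p2 c| ∂Q ≤ ε1 :=
    winI_map Q (fun ω v => F (vt (X ω) (γ ω) v)) pF (fun b => b.2.2) p2 hp2F ε1 hs2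
  -- chain
  have hchain : ent Q (fun ω => (X ω, γ ω)) ≤ ent Q Φ + entc Q X Φ + entc Q γ Φ := by
    have a1 := ent_comp_le (P := Q) (hall (fun ω => ((X ω, γ ω), Φ ω)))
      (Prod.fst : ((Lt k → Equiv.Perm (Fin n)) × (Fin n → A)) × (Fin n → Bg k W.length → Pt Λ (r + 1)) → _)
    have a2 := entc_chain (P := Q) (hall X) (hall γ) (hall Φ)
    have a3 := entc_anti (P := Q) (hall X) (hall (fun ω => (γ ω, Φ ω)))
      (Prod.snd : (Fin n → A) × (Fin n → Bg k W.length → Pt Λ (r + 1)) → _)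
    have a4 : entc Q (fun ω => (X ω, γ ω)) Φ = ent Q (fun ω => ((X ω, γ ω), Φ ω)) - ent Q Φ := rfl
    simp only at a1 a3
    linarith
  -- pieces
  have hB1 := hA1 Ω Q n hn Φ
  have hB2 := hA2 Ω Q n hn Φ
  have hB3 := hA3 Ω Q n hn γ (fun ω v => β (vt (X ω) (γ ω) v))
  have hbg : bgw W (e0 k W.length) = 1 := by
    show wf (W.take ((0 : Fin (W.length + 1)) : ℕ)) = 1
    simp [wf]
  have hB3' : entc Q γ Φ ≤ entc Q γ (fun ω v => β (vt (X ω) (γ ω) v)) := by
    let l0 : Λ := β (fun _ => q 0)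
    let hd : (Fin n → Bg k W.length → Pt Λ (r + 1)) → Fin n → Λ := fun x v =>
      match (x v (e0 k W.length)).1 with
      | [] => l0
      | p :: _ => p.1
    have h1 := entc_anti (P := Q) (hall γ) (hall Φ) hd
    have h3 : (fun ω => hd (Φ ω)) = (fun ω v => β (vt (X ω) (γ ω) v)) := by
      funext ω v
      have h2 : (Φ ω v (e0 k W.length)).1 =
          pat (fun c => ac (X ω) (nn W c)) (fun v => β (vt (X ω) (γ ω) v)) (fun v => d (vt (X ω) (γ ω) v)) (r + 1)
            (ac (X ω) (bgw W (e0 k W.length)) v) := rfl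
      rw [hbg, map_one] at h2
      show (match (Φ ω v (e0 k W.length)).1 with
        | [] => l0
        | p :: _ => p.1) = _
      rw [h2]
      rfl
    rw [h3] at h1
    exact h1
  have henc := enc W dir Q n hn X φ (fun ω v => pdp (φ ω v).1) (fun ω w c hc =>
    winA2 W (X ω) (γ ω) β d r hs w c hc) N (le_max_left _ _) hq3
  have hRoot : ∀ ω, ({w | dir (φ ω w) = none}.ncard : ℝ) =
      n * emp (fun v => d (vt (X ω) (γ ω) v)) none := by
    intro ω
    have h1 : {w | dir (φ ω w) = none} = {w | d (vt (X ω) (γ ω) w) = none} := by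
      ext w
      have h2 : dir (φ ω w) = d (vt (X ω) (γ ω) w) :=
        pdir_pat (fun c => ac (X ω) (nn W c)) (fun v => β (vt (X ω) (γ ω) v)) (fun v => d (vt (X ω) (γ ω) v)) r w
      rw [Set.mem_ofPred_eq, Set.mem_ofPred_eq, h2]
    unfold emp
    rw [h1, Nat.card_fin]
    have h3 : Nat.card {u // d (vt (X ω) (γ ω) u) = none} = {w | d (vt (X ω) (γ ω) w) = none}.ncard := rfl
    rw [h3]
    field_simp
  have hroots : ∫ ω, ({w | dir (φ ω w) = none}.ncard : ℝ) ∂Q ≤ n * (δ + ε1) := by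
    simp only [hRoot]
    rw [integral_const_mul]
    refine mul_le_mul_of_nonneg_left ?_ hnpos.le
    have h1 : ∫ ω, |emp (fun v => d (vt (X ω) (γ ω) v)) none - p2 none| ∂Q ≤ ε1 :=
      le_trans (Finset.single_le_sum (f := fun c =>
        ∫ ω, |emp (fun v => d (vt (X ω) (γ ω) v)) c - p2 c| ∂Q)
        (fun c _ => integral_nonneg fun ω => abs_nonneg _) (Finset.mem_univ none)) hS2
    have h2 : ∫ ω, emp (fun v => d (vt (X ω) (γ ω) v)) none ∂Q ≤
        ∫ ω, (δ + |emp (fun v => d (vt (X ω) (γ ω) v)) none - p2 none|) ∂Q := by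
      refine integral_mono Integrable.of_finite Integrable.of_finite ?_
      intro ω
      have h3 := le_abs_self (emp (fun v => d (vt (X ω) (γ ω) v)) none - p2 none)
      have h4 : p2 none = δ := rfl
      show emp (fun v => d (vt (X ω) (γ ω) v)) none ≤
        δ + |emp (fun v => d (vt (X ω) (γ ω) v)) none - p2 none|
      rw [h4] at h3 ⊢
      linarith
    rw [integral_add Integrable.of_finite Integrable.of_finite] at h2
    simp only [integral_const, probReal_univ, one_smul] at h2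
    linarith
  set Id : ℝ := ∫ ω, ((defs W (X ω)).ncard : ℝ) ∂Q with hId
  set Ic : ℝ := ∫ ω, (cyc (ac (X ω) (nn W true)) : ℝ) ∂Q with hIc
  have hId0 : 0 ≤ Id := integral_nonneg fun ω => Nat.cast_nonneg _
  have hdefs : Id ≤ ε1 * n := le_trans (le_mul_of_one_le_right hId0 hlogn) hs3
  have e1 : ∫ ω, ((cyc (ac (X ω) (nn W true)) : ℝ) + 4 * (defs W (X ω)).ncard) ∂Q = Ic + 4 * Id := by
    rw [integral_add Integrable.of_finite Integrable.of_finite, integral_const_mul]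
  have e2 : ∫ ω, (({w | dir (φ ω w) = none}.ncard : ℝ) + 5 * (defs W (X ω)).ncard) ∂Q ≤
      n * (δ + ε1) + 5 * Id := by
    rw [integral_add Integrable.of_finite Integrable.of_finite, integral_const_mul]
    linarith
  have henc' : entc Q X Φ ≤ (2 * ((k : ℝ) + 2) + 1) * n * Real.log 2 +
      (((k : ℝ) + 1) * n + (Ic + 4 * Id)) * Real.log n + ((k : ℝ) + 2) * n +
      2 * L0 * (n * (δ + ε1) + 5 * Id) - n * ∫ ω, Gn W dir (emp (Φ ω)) ∂Q := by
    have h1 : entc Q X Φ ≤ (2 * ((k : ℝ) + 2) + 1) * n * Real.log 2 +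
      (((k : ℝ) + 1) * n + ∫ ω, ((cyc (ac (X ω) (nn W true)) : ℝ) + 4 * (defs W (X ω)).ncard) ∂Q) * Real.log n +
      ((k : ℝ) + 2) * n +
      2 * Real.log N * ∫ ω, (({w | dir (φ ω w) = none}.ncard : ℝ) + 5 * (defs W (X ω)).ncard) ∂Q -
      n * ∫ ω, Gn W dir (emp (Φ ω)) ∂Q := henc
    rw [e1] at h1
    have h2 : 2 * Real.log N * ∫ ω, (({w | dir (φ ω w) = none}.ncard : ℝ) + 5 * (defs W (X ω)).ncard) ∂Q ≤
        2 * L0 * (n * (δ + ε1) + 5 * Id) := mul_le_mul_of_nonneg_left e2 (by positivity)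
    linarith
  have hFn : Fn W dir p0 = (∑ b, Real.negMulLog (p0 b)) - Gn W dir p0 := by
    unfold Fn
    congr 1
    exact Finset.sum_congr (by ext; simp) (fun _ _ => rfl)
  have hlogf := log_fact n
  have hlog2 : Real.log 2 ≤ 1 := by
    have := Real.log_two_lt_d9
    linarith
  have hk0 : (0 : ℝ) ≤ k := Nat.cast_nonneg _
  have hl0 : (0 : ℝ) ≤ W.length := Nat.cast_nonneg _
  have hδ0 : 0 ≤ δ := measureReal_nonneg
  have hCIa : ((k : ℝ) + 1) + (2 * ((k : ℝ) + 2) + 1) + ((k : ℝ) + 2) ≤ CI W := by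
    unfold CI
    nlinarith [mul_nonneg hk0 hl0, mul_nonneg hk0 hk0, mul_nonneg hl0 hl0]
  have hCIb : 2 * ((W.length : ℝ) + 2) ≤ CI W := by
    unfold CI
    nlinarith [mul_nonneg hk0 hl0, mul_nonneg hk0 hk0, mul_nonneg hl0 hl0]
  have hL0δ : 2 * L0 * δ ≤ CI W * δ * lg := by
    calc 2 * L0 * δ ≤ 2 * (((W.length : ℝ) + 2) * lg) * δ := by gcongr
      _ = (2 * ((W.length : ℝ) + 2)) * δ * lg := by ring
      _ ≤ CI W * δ * lg := by gcongr
  rw [hHc] at hB3
  set Hc : ℝ := entc Pm (fun y => q (y 1)) (fun y => β (tt g q y)) with hHcdef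
  set H0 : ℝ := ∑ b, Real.negMulLog (p0 b) with hH0
  set G0 : ℝ := Gn W dir p0 with hG0
  set IG : ℝ := ∫ ω, Gn W dir (emp (Φ ω)) ∂Q with hIG
  have g1 : ent Q Φ ≤ n * (H0 + ε + C1 * ε1) := by
    refine hB1.trans ?_
    gcongr
  have g2 : G0 - ε - C2 * ε1 ≤ IG := by
    have h1 : C2 * ∑ t, ∫ ω, |emp (Φ ω) t - p0 t| ∂Q ≤ C2 * ε1 := mul_le_mul_of_nonneg_left hSΦ hC2
    linarith
  have g3 : entc Q γ Φ ≤ n * (Hc + ε + C3 * ε1) := by
    refine hB3'.trans (hB3.trans ?_)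
    gcongr
  have g2' : n * (G0 - ε - C2 * ε1) ≤ n * IG := mul_le_mul_of_nonneg_left g2 hnpos.le
  have g4 : ((k : ℝ) + 1) * (n * Real.log n - n) ≤ ((k : ℝ) + 1) * Real.log n.factorial :=
    mul_le_mul_of_nonneg_left hlogf (by positivity)
  have g5 : (2 * ((k : ℝ) + 2) + 1) * n * Real.log 2 ≤ (2 * ((k : ℝ) + 2) + 1) * n := by
    have h1 : 0 ≤ (2 * ((k : ℝ) + 2) + 1) * n := by positivity
    exact mul_le_of_le_one_right h1 hlog2
  have g6 : 2 * L0 * (n * (δ + ε1) + 5 * Id) ≤ n * (2 * L0 * δ + 12 * L0 * ε1) := by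
    have h1 : 2 * L0 * (5 * Id) ≤ 2 * L0 * (5 * (ε1 * n)) := by gcongr
    linarith
  have g7 : (((k : ℝ) + 1) * n + (Ic + 4 * Id)) * Real.log n ≤
      ((k : ℝ) + 1) * (n * Real.log n) + n * (5 * ε1) := by
    linarith
  have hfin : n * (ent ν q - Hc) ≤ n * (H0 - G0 + (((k : ℝ) + 1) + (2 * ((k : ℝ) + 2) + 1) + ((k : ℝ) + 2)) +
      2 * L0 * δ + (3 * ε + (C1 * ε1 + C2 * ε1 + C3 * ε1 + 12 * L0 * ε1) + 5 * ε1)) := by
    linarith [hs1, hchain, henc', g1, g2', g3, g4, g5, g6, g7]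
  have hfin' := le_of_mul_le_mul_left hfin hnpos
  have hgoal : ent ν q - Hc ≤ Fn W dir p0 + CI W + CI W * δ * lg + ε' := by
    rw [hFn]
    have h12 : 12 * ε = ε' := by rw [hεdef]; ring
    linarith
  exact hgoal

end H33.BO
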